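import Mathlib

/-! The spectral measure of a bounded self-adjoint operator at a vector. -/

open scoped ENNReal NNReal InnerProductSpace
open MeasureTheory Set Filter Topology CompactlySupported

noncomputable section

namespace Pool.Agent.Helper3.Crit

namespace SpecM

variable {𝓗 : Type*} [NormedAddCommGroup 𝓗] [InnerProductSpace ℂ 𝓗] [CompleteSpace 𝓗]

/-- a real continuous function as a complex one -/
def cx {X : Type*} [TopologicalSpace X] (h : C(X, ℝ)) : C(X, ℂ) :=
  ⟨fun x => (h x : ℂ), by fun_prop⟩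

/-- `g ↦ ⟪v, g(H) v⟫` -/
def L (H : 𝓗 →L[ℂ] 𝓗) (hN : IsStarNormal H) (v : 𝓗) (g : C(spectrum ℂ H, ℂ)) : ℂ :=
  ⟪v, cfcHom (R := ℂ) (a := H) hN g v⟫_ℂ

variable (H : 𝓗 →L[ℂ] 𝓗) (hN : IsStarNormal H) (v : 𝓗)

theorem L_add (g g' : C(spectrum ℂ H, ℂ)) : L H hN v (g + g') = L H hN v g + L H hN v g' := by
  simp [L]

theorem L_smul (c : ℂ) (g : C(spectrum ℂ H, ℂ)) : L H hN v (c • g) = c * L H hN v g := by
  simp [L]

theorem L_star_mul (s : C(spectrum ℂ H, ℂ)) :
    L H hN v (star s * s) = ((‖cfcHom (R := ℂ) (a := H) hN s v‖ ^ 2 : ℝ) : ℂ) := by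
  simp only [L, map_mul, map_star]
  rw [mul_apply_eq_comp, ContinuousLinearMap.star_eq_adjoint,
    ContinuousLinearMap.adjoint_inner_right]
  rw [inner_self_eq_norm_sq_to_K]
  push_cast
  rfl

theorem L_conj (g : C(spectrum ℂ H, ℂ)) :
    L H hN v (star g) = starRingEnd ℂ (L H hN v g) := by
  simp only [L, map_star]
  rw [ContinuousLinearMap.star_eq_adjoint, ContinuousLinearMap.adjoint_inner_right,
    inner_conj_symm]

theorem L_cx_im (h : C(spectrum ℂ H, ℝ)) : (L H hN v (cx h)).im = 0 := by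
  have h1 : star (cx h) = cx h := by
    ext x
    simp [cx]
  have h2 := L_conj H hN v (cx h)
  rw [h1] at h2
  have h3 := congrArg Complex.im h2
  rw [Complex.conj_im] at h3
  linarith

theorem L_cx_nonneg (h : C(spectrum ℂ H, ℝ)) (hh : ∀ x, 0 ≤ h x) : 0 ≤ (L H hN v (cx h)).re := by
  have h1 : cx h = star (cx ⟨fun x => Real.sqrt (h x), by fun_prop⟩)
      * cx ⟨fun x => Real.sqrt (h x), by fun_prop⟩ := by
    ext x
    simp only [cx, ContinuousMap.coe_mk, ContinuousMap.mul_apply, ContinuousMap.star_apply,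
      Complex.star_def, Complex.conj_ofReal]
    rw [← Complex.ofReal_mul, Real.mul_self_sqrt (hh x)]
  rw [h1, L_star_mul, Complex.ofReal_re]
  positivity

/-- the positive functional -/
def Lam : C_c(spectrum ℂ H, ℝ) →ₚ[ℝ] ℝ :=
  PositiveLinearMap.mk₀
    { toFun := fun h => (L H hN v (cx h.toContinuousMap)).re
      map_add' := fun h h' => by
        rw [← Complex.add_re, ← L_add]
        congr 2
        ext x
        simp [cx]
      map_smul' := fun c h => by
        have : cx (c • h).toContinuousMap = (c : ℂ) • cx h.toContinuousMap := by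
          ext x
          simp [cx]
        rw [this, L_smul]
        simp }
    (fun h hh => L_cx_nonneg H hN v _ (fun x => hh x))

end SpecM

open SpecM in
theorem exists_specMeasure {𝓗 : Type*} [NormedAddCommGroup 𝓗] [InnerProductSpace ℂ 𝓗]
    [CompleteSpace 𝓗] (H : 𝓗 →L[ℂ] 𝓗) (hH : IsSelfAdjoint H) (v : 𝓗) :
    ∃ ν : Measure ℝ, IsFiniteMeasure ν ∧ (∃ R : ℝ, ν (Icc (-R) R)ᶜ = 0) ∧
      ∀ f : ℂ → ℂ, Continuous f → ⟪v, cfc f H v⟫_ℂ = ∫ t : ℝ, f (t : ℂ) ∂ν := by
  have hN : IsStarNormal H := hH.isStarNormal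
  have : CompactSpace (spectrum ℂ H) := isCompact_iff_compactSpace.mp (spectrum.isCompact H)
  set μ : Measure (spectrum ℂ H) := RealRMK.rieszMeasure (Lam H hN v) with hμ
  have hfin : IsFiniteMeasure μ := by
    have : μ.Regular := by
      rw [hμ]
      infer_instance
    infer_instance
  have hreal : ∀ x : spectrum ℂ H, ((x : ℂ).re : ℂ) = (x : ℂ) := fun x =>
    (hH.mem_spectrum_eq_re x.2).symm
  have hm : Measurable (fun x : spectrum ℂ H => (x : ℂ).re) := by fun_prop
  refine ⟨μ.map (fun x : spectrum ℂ H => (x : ℂ).re), inferInstance, ⟨‖H‖ * ‖(1 : 𝓗 →L[ℂ] 𝓗)‖, ?_⟩, ?_⟩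
  · rw [Measure.map_apply hm measurableSet_Icc.compl]
    have : (fun x : spectrum ℂ H => (x : ℂ).re) ⁻¹'
        (Icc (-(‖H‖ * ‖(1 : 𝓗 →L[ℂ] 𝓗)‖)) (‖H‖ * ‖(1 : 𝓗 →L[ℂ] 𝓗)‖))ᶜ = ∅ := by
      ext x
      simp only [mem_preimage, mem_compl_iff, mem_Icc, mem_empty_iff_false, iff_false, not_not]
      have h1 := spectrum.norm_le_norm_mul_of_mem x.2
      have h2 := (Complex.abs_re_le_norm (x : ℂ)).trans h1
      exact abs_le.mp h2
    rw [this, measure_empty]
  · intro f hf
    have hfm : AEStronglyMeasurable (fun t : ℝ => f (t : ℂ)) (μ.map (fun x : spectrum ℂ H => (x : ℂ).re)) :=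
      (hf.comp Complex.continuous_ofReal).aestronglyMeasurable
    rw [integral_map hm.aemeasurable hfm]
    have h1 : ∀ x : spectrum ℂ H, f (((x : ℂ).re : ℝ) : ℂ) = f x := fun x => by rw [hreal x]
    simp only [h1]
    -- the two real parts
    let fr : C(spectrum ℂ H, ℝ) := ⟨fun x => (f x).re, by fun_prop⟩
    let fi : C(spectrum ℂ H, ℝ) := ⟨fun x => (f x).im, by fun_prop⟩
    have key : ∀ h : C(spectrum ℂ H, ℝ), L H hN v (cx h) = ((∫ x, h x ∂μ : ℝ) : ℂ) := by
      intro h
      have e := RealRMK.integral_rieszMeasure (Lam H hN v)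
        (CompactlySupportedContinuousMap.continuousMapEquiv h)
      apply Complex.ext
      · rw [Complex.ofReal_re]
        exact e.symm
      · rw [Complex.ofReal_im, L_cx_im]
    have hint : Integrable (fun x : spectrum ℂ H => f x) μ := by
      have hc : Continuous (fun x : spectrum ℂ H => f x) := by fun_prop
      exact hc.integrable_of_hasCompactSupport (HasCompactSupport.of_compactSpace _)
    have e1 : (∫ x : spectrum ℂ H, f x ∂μ)
        = ((∫ x, fr x ∂μ : ℝ) : ℂ) + Complex.I * ((∫ x, fi x ∂μ : ℝ) : ℂ) := by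
      have := integral_re_add_im hint
      rw [← this]
      simp only [fr, fi, ContinuousMap.coe_mk]
      rw [mul_comm Complex.I]
      rfl
    rw [e1, ← key, ← key, ← L_smul, ← L_add, L, cfc_apply f H hN hf.continuousOn]
    congr 3
    ext x
    simp only [cx, fr, fi, ContinuousMap.add_apply, ContinuousMap.coe_mk,
      ContinuousMap.smul_apply, smul_eq_mul, Set.domRestrict_apply]
    rw [mul_comm, Complex.re_add_im]

end Pool.Agent.Helper3.Crit
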