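import Pool.Agent.Helper3.Crit.SkelDefs
import Pool.Agent.Helper3.Crit.SpecM

/-! The Simon-Wolff alternative implies pure point spectrum in `O` with exponentially decaying
eigenvectors. -/

open scoped ENNReal NNReal InnerProductSpace
open MeasureTheory Set Filter Topology

noncomputable section

namespace Pool.Agent.Helper3.Crit

namespace PP

section abstract

variable {𝓗 : Type*} [NormedAddCommGroup 𝓗] [InnerProductSpace ℂ 𝓗] [CompleteSpace 𝓗]

/-- `ν` is the spectral measure of `v` -/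
structure IsSpec (H : 𝓗 →L[ℂ] 𝓗) (v : 𝓗) (ν : Measure ℝ) : Prop where
  fin : IsFiniteMeasure ν
  supp : ∃ R : ℝ, ν (Icc (-R) R)ᶜ = 0
  int : ∀ f : ℂ → ℂ, Continuous f → ⟪v, cfc f H v⟫_ℂ = ∫ t : ℝ, f (t : ℂ) ∂ν

variable {H : 𝓗 →L[ℂ] 𝓗}

theorem inner_cfc_left (f : ℂ → ℂ) (u v : 𝓗) :
    ⟪cfc f H u, v⟫_ℂ = ⟪u, cfc (fun z => star (f z)) H v⟫_ℂ := by
  rw [cfc_star, ContinuousLinearMap.star_eq_adjoint, ContinuousLinearMap.adjoint_inner_right]

theorem inner_cfc_right (f : ℂ → ℂ) (u v : 𝓗) :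
    ⟪u, cfc f H v⟫_ℂ = ⟪cfc (fun z => star (f z)) H u, v⟫_ℂ := by
  rw [inner_cfc_left]; simp

theorem cfc_apply_mul (hH : IsSelfAdjoint H) {f g : ℂ → ℂ} (hf : Continuous f) (hg : Continuous g)
    (v : 𝓗) : cfc f H (cfc g H v) = cfc (fun z => f z * g z) H v := by
  have := hH.isStarNormal
  rw [cfc_mul f g H hf.continuousOn hg.continuousOn]
  rfl

theorem IsSpec.integrable {v : 𝓗} {ν : Measure ℝ} (h : IsSpec H v ν) {E : Type*}
    [NormedAddCommGroup E] [SecondCountableTopology E] {f : ℝ → E} (hf : Continuous f) :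
    Integrable f ν := by
  have := h.fin
  obtain ⟨R, hR⟩ := h.supp
  obtain ⟨C, hC⟩ := (isCompact_Icc (a := -R) (b := R)).exists_bound_of_continuousOn hf.continuousOn
  refine Integrable.of_bound hf.aestronglyMeasurable C ?_
  have : ∀ᵐ t ∂ν, t ∈ Icc (-R) R := by
    rw [ae_iff]; exact hR
  filter_upwards [this] with t ht using hC t ht

theorem IsSpec.norm_sq (hH : IsSelfAdjoint H) {v : 𝓗} {ν : Measure ℝ} (h : IsSpec H v ν)
    {g : ℂ → ℂ} (hg : Continuous g) : ‖cfc g H v‖ ^ 2 = ∫ t : ℝ, ‖g t‖ ^ 2 ∂ν := by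
  have h1 : ⟪cfc g H v, cfc g H v⟫_ℂ = ∫ t : ℝ, star (g t) * g t ∂ν := by
    rw [inner_cfc_left, cfc_apply_mul hH hg.star hg]
    exact h.int _ (hg.star.mul hg)
  have h2 : ∀ t : ℝ, star (g t) * g t = ((‖g t‖ ^ 2 : ℝ) : ℂ) := by
    intro t
    rw [Complex.star_def, mul_comm, Complex.mul_conj, Complex.normSq_eq_norm_sq]
  simp only [h2] at h1
  rw [inner_self_eq_norm_sq_to_K] at h1
  have h3 : ∫ t : ℝ, ((‖g t‖ ^ 2 : ℝ) : ℂ) ∂ν = ((∫ t : ℝ, ‖g t‖ ^ 2 ∂ν : ℝ) : ℂ) := integral_ofReal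
  rw [h3] at h1
  have h4 : ((‖cfc g H v‖ ^ 2 : ℝ) : ℂ) = ((∫ t : ℝ, ‖g t‖ ^ 2 ∂ν : ℝ) : ℂ) := by
    rw [← h1]; simp
  exact_mod_cast h4

theorem cfc_sub_smul (hH : IsSelfAdjoint H) (E : ℂ) (v : 𝓗) :
    cfc (fun z => z - E) H v = H v - E • v := by
  have := hH.isStarNormal
  rw [cfc_sub (fun z => z) (fun _ => E) H continuousOn_id continuousOn_const, cfc_id' ℂ H,
    cfc_const E H, sub_apply, Algebra.algebraMap_eq_smul_one]
  rfl

theorem IsSpec.norm_sub_sq (hH : IsSelfAdjoint H) {v : 𝓗} {ν : Measure ℝ} (h : IsSpec H v ν)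
    (E : ℝ) : ‖H v - (E : ℂ) • v‖ ^ 2 = ∫ t : ℝ, (t - E) ^ 2 ∂ν := by
  rw [← cfc_sub_smul hH, h.norm_sq hH (by fun_prop)]
  congr 1
  ext t
  rw [← Complex.ofReal_sub, Complex.norm_real, Real.norm_eq_abs, sq_abs]

/-- functional calculus of an eigenvector -/
theorem cfc_eigenvector (hH : IsSelfAdjoint H) {v : 𝓗} {E : ℝ} (hv : H v = (E : ℂ) • v)
    {g : ℂ → ℂ} (hg : Continuous g) : cfc g H v = g E • v := by
  obtain ⟨ν, h1, h2, h3⟩ := exists_specMeasure H hH v
  have h : IsSpec H v ν := ⟨h1, h2, h3⟩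
  have := hH.isStarNormal
  have e1 : ∫ t : ℝ, (t - E) ^ 2 ∂ν = 0 := by
    rw [← h.norm_sub_sq hH, hv]; simp
  have e2 : ∀ᵐ t ∂ν, t = E := by
    have := (integral_eq_zero_iff_of_nonneg (fun t => sq_nonneg _)
      (h.integrable (f := fun t : ℝ => (t - E) ^ 2) (by fun_prop))).1 e1
    filter_upwards [this] with t ht
    have : (t - E) ^ 2 = 0 := ht
    have := pow_eq_zero_iff (two_ne_zero) |>.1 this
    linarith
  have e3 : cfc (fun z => g z - g E) H v = cfc g H v - g E • v := by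
    rw [cfc_sub g (fun _ => g E) H hg.continuousOn continuousOn_const,
      cfc_const (g E) H, sub_apply, Algebra.algebraMap_eq_smul_one]
    rfl
  have e4 : ‖cfc (fun z => g z - g E) H v‖ ^ 2 = 0 := by
    rw [h.norm_sq hH (by fun_prop)]
    refine integral_eq_zero_of_ae ?_
    filter_upwards [e2] with t ht
    simp [ht]
  rw [e3] at e4
  have := pow_eq_zero_iff (two_ne_zero) |>.1 e4
  exact sub_eq_zero.1 (norm_eq_zero.1 this)

/-- a closed subspace spanned by eigenvectors is invariant -/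
theorem cfc_mem_span (hH : IsSelfAdjoint H) {S : Set 𝓗}
    (hS : ∀ φ ∈ S, ∃ E : ℝ, H φ = (E : ℂ) • φ) {g : ℂ → ℂ} (hg : Continuous g) {w : 𝓗}
    (hw : w ∈ (Submodule.span ℂ S).topologicalClosure) :
    cfc g H w ∈ (Submodule.span ℂ S).topologicalClosure := by
  have h1 : ∀ w ∈ Submodule.span ℂ S, cfc g H w ∈ Submodule.span ℂ S := by
    intro w hw
    induction hw using Submodule.span_induction with
    | mem φ hφ =>
        obtain ⟨E, hE⟩ := hS φ hφ
        rw [cfc_eigenvector hH hE hg]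
        exact Submodule.smul_mem _ _ (Submodule.subset_span hφ)
    | zero => simp
    | add a b _ _ ha hb => rw [map_add]; exact Submodule.add_mem _ ha hb
    | smul c a _ ha => rw [map_smul]; exact Submodule.smul_mem _ _ ha
  have hc : Continuous fun w : 𝓗 => cfc g H w := ContinuousLinearMap.continuous (cfc g H)
  have h2 : MapsTo (fun w : 𝓗 => cfc g H w) (closure (Submodule.span ℂ S : Set 𝓗))
      (closure (Submodule.span ℂ S : Set 𝓗)) := MapsTo.closure h1 hc
  exact h2 hw

theorem cfc_mem_orth {W : Submodule ℂ 𝓗}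
    (hW : ∀ g : ℂ → ℂ, Continuous g → ∀ w ∈ W, cfc g H w ∈ W) {g : ℂ → ℂ} (hg : Continuous g)
    {v : 𝓗} (hv : v ∈ Wᗮ) : cfc g H v ∈ Wᗮ := by
  rw [Submodule.mem_orthogonal] at hv ⊢
  intro w hw
  rw [inner_cfc_right]
  exact hv _ (hW _ hg.star w hw)

/-- If `ν (closedBall E r) = o(r)` on `A` then `ν A = 0`. -/
theorem null_of_little {ν : Measure ℝ} [IsFiniteMeasure ν] {A : Set ℝ}
    (hA : ∀ E ∈ A, ∀ δ : ℝ≥0, 0 < δ → ∀ᶠ r in 𝓝[>] (0 : ℝ),
      ν (Metric.closedBall E r) ≤ δ * volume (Metric.closedBall E r)) : ν A = 0 := by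
  have key : ∀ R : ℕ, ν (A ∩ Icc (-R : ℝ) R) = 0 := by
    intro R
    have h1 : ∀ δ : ℝ≥0, 0 < δ → ν (A ∩ Icc (-R : ℝ) R) ≤ δ * volume (Icc (-R : ℝ) R) := by
      intro δ hδ
      have h2 : ν (A ∩ Icc (-R : ℝ) R) ≤ ((δ : ℝ≥0) • (volume : Measure ℝ)) (A ∩ Icc (-R : ℝ) R) := by
        refine (Besicovitch.vitaliFamily ν).measure_le_of_frequently_le _
          Measure.AbsolutelyContinuous.rfl _ ?_
        intro x hx
        refine (Besicovitch.tendsto_filterAt ν x).frequently ?_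
        refine Eventually.frequently ?_
        filter_upwards [hA x hx.1 δ hδ] with r hr
        rw [Measure.smul_apply]
        simpa only [ENNReal.smul_def, smul_eq_mul] using hr
      refine h2.trans ?_
      rw [Measure.smul_apply]
      exact mul_le_mul_right (measure_mono inter_subset_right) _
    refine le_antisymm ?_ zero_le
    have h3 : Tendsto (fun n : ℕ => (((1 / ((n : ℝ≥0) + 1) : ℝ≥0)) : ℝ≥0∞) *
        volume (Icc (-R : ℝ) R)) atTop (𝓝 (0 * volume (Icc (-R : ℝ) R))) := by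
      refine ENNReal.Tendsto.mul_const ?_ (Or.inr (by simp))
      rw [← ENNReal.coe_zero, ENNReal.tendsto_coe]
      exact tendsto_one_div_add_atTop_nhds_zero_nat
    rw [zero_mul] at h3
    exact ge_of_tendsto' h3 fun n => h1 _ (by positivity)
  have : A = ⋃ R : ℕ, A ∩ Icc (-R : ℝ) R := by
    ext x
    simp only [mem_iUnion, mem_inter_iff, exists_and_left, iff_self_and]
    intro _
    obtain ⟨n, hn⟩ := exists_nat_ge |x|
    exact ⟨n, abs_le.1 hn⟩
  rw [this, measure_iUnion_null_iff]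
  exact key

/-- hat function -/
def hat (E : ℝ) (n : ℕ) (t : ℝ) : ℝ := max 0 (1 - ((n : ℝ) + 1) * |t - E|)

lemma hat_cont (E : ℝ) (n : ℕ) : Continuous (hat E n) := by unfold hat; fun_prop
lemma hat_nonneg (E : ℝ) (n : ℕ) (t : ℝ) : 0 ≤ hat E n t := le_max_left _ _
lemma hat_le_one (E : ℝ) (n : ℕ) (t : ℝ) : hat E n t ≤ 1 := by
  unfold hat
  refine max_le zero_le_one ?_
  have : 0 ≤ ((n : ℝ) + 1) * |t - E| := by positivity
  linarith
lemma hat_self (E : ℝ) (n : ℕ) : hat E n E = 1 := by simp [hat]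
lemma hat_anti (E : ℝ) {n m : ℕ} (h : n ≤ m) (t : ℝ) : hat E m t ≤ hat E n t := by
  unfold hat
  have h1 : (n : ℝ) ≤ m := by exact_mod_cast h
  have h2 : ((n : ℝ) + 1) * |t - E| ≤ ((m : ℝ) + 1) * |t - E| := by gcongr
  exact max_le_max le_rfl (by linarith)
lemma hat_tendsto (E : ℝ) (t : ℝ) :
    Tendsto (fun n => hat E n t) atTop (𝓝 (indicator {E} 1 t)) := by
  by_cases h : t = E
  · subst h; simp [hat_self]
  · rw [indicator_of_notMem (by simpa using h)]
    have hpos : 0 < |t - E| := abs_pos.2 (sub_ne_zero.2 h)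
    obtain ⟨N, hN⟩ := exists_nat_ge (1 / |t - E|)
    refine tendsto_const_nhds.congr' ?_
    filter_upwards [eventually_ge_atTop N] with n hn
    have h1 : (N : ℝ) ≤ n := by exact_mod_cast hn
    have h2 : 1 ≤ (n : ℝ) * |t - E| := by
      rw [div_le_iff₀ hpos] at hN
      nlinarith
    unfold hat
    rw [max_eq_left]
    nlinarith
lemma hat_mul_le (E : ℝ) (n : ℕ) (t : ℝ) : ((t - E) * hat E n t) ^ 2 ≤ (1 / ((n : ℝ) + 1)) ^ 2 := by
  have hn : (0 : ℝ) < (n : ℝ) + 1 := by positivity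
  have hn' : (0 : ℝ) ≤ 1 / ((n : ℝ) + 1) := by positivity
  rw [sq_le_sq, abs_mul, abs_of_nonneg (hat_nonneg E n t), abs_of_nonneg hn']
  rw [le_div_iff₀ hn]
  by_cases h : ((n : ℝ) + 1) * |t - E| ≤ 1
  · have := hat_le_one E n t
    have h0 := hat_nonneg E n t
    have h1 := abs_nonneg (t - E)
    nlinarith [mul_nonneg h1 h0]
  · have : hat E n t = 0 := by unfold hat; rw [max_eq_left]; linarith
    rw [this]; simp

/-- the eigenvector given by an atom of the spectral measure -/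
theorem exists_atom (hH : IsSelfAdjoint H) {v : 𝓗} {ν : Measure ℝ} (h : IsSpec H v ν) (E : ℝ) :
    ∃ a : 𝓗, H a = (E : ℂ) • a ∧ ⟪v, a⟫_ℂ = ((ν.real {E} : ℝ) : ℂ) ∧
      ∀ U : Set 𝓗, IsClosed U → (∀ g : ℂ → ℂ, Continuous g → cfc g H v ∈ U) → a ∈ U := by
  have hfin := h.fin
  have := hH.isStarNormal
  let f : ℕ → ℂ → ℂ := fun n z => ((hat E n z.re : ℝ) : ℂ)
  have hf : ∀ n, Continuous (f n) := fun n =>
    Complex.continuous_ofReal.comp ((hat_cont E n).comp Complex.continuous_re)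
  let a : ℕ → 𝓗 := fun n => cfc (f n) H v
  let k : ℕ → ℝ := fun n => ∫ t, (hat E n t - indicator {E} 1 t) ^ 2 ∂ν
  have hmeas : ∀ n, AEStronglyMeasurable (fun t => (hat E n t - indicator {E} 1 t) ^ 2) ν := by
    intro n
    refine Measurable.aestronglyMeasurable ?_
    exact ((hat_cont E n).measurable.sub (measurable_one.indicator (measurableSet_singleton E))).pow_const 2
  have hle1 : ∀ n t, |hat E n t - indicator {E} 1 t| ≤ 1 := by
    intro n t
    have h0 := hat_nonneg E n t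
    have h1 := hat_le_one E n t
    by_cases ht : t = E
    · subst ht; simp [hat_self]
    · rw [indicator_of_notMem (by simpa using ht), sub_zero, abs_of_nonneg h0]; exact h1
  have hint : ∀ n, Integrable (fun t => (hat E n t - indicator {E} 1 t) ^ 2) ν := by
    intro n
    refine Integrable.of_bound (hmeas n) 1 ?_
    refine Eventually.of_forall fun t => ?_
    rw [Real.norm_eq_abs, abs_of_nonneg (sq_nonneg _), sq_le_one_iff_abs_le_one]
    exact hle1 n t
  have hk : Tendsto k atTop (𝓝 0) := by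
    have h1 : Tendsto k atTop (𝓝 (∫ _t, (0 : ℝ) ∂ν)) := by
      refine tendsto_integral_of_dominated_convergence (fun _ => 1) hmeas (integrable_const _) ?_ ?_
      · intro n
        refine Eventually.of_forall fun t => ?_
        rw [Real.norm_eq_abs, abs_of_nonneg (sq_nonneg _), sq_le_one_iff_abs_le_one]
        exact hle1 n t
      · refine Eventually.of_forall fun t => ?_
        have := ((hat_tendsto E t).sub_const (indicator {E} 1 t)).pow 2
        simpa using this
    simpa using h1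
  have hcs : CauchySeq a := by
    refine cauchySeq_of_le_tendsto_0 (fun n => Real.sqrt (k n)) ?_ ?_
    · intro n m N hn hm
      rw [dist_eq_norm]
      refine Real.le_sqrt_of_sq_le ?_
      have e1 : a n - a m = cfc (fun z => f n z - f m z) H v := by
        rw [cfc_sub (f n) (f m) H (hf n).continuousOn (hf m).continuousOn]
        rfl
      have hc : Continuous fun z => f n z - f m z := (hf n).sub (hf m)
      rw [e1, h.norm_sq hH hc]
      refine integral_mono (h.integrable (f := fun t : ℝ => ‖f n t - f m t‖ ^ 2) (by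
        have h1 := (hf n).comp Complex.continuous_ofReal
        have h2 := (hf m).comp Complex.continuous_ofReal
        exact ((h1.sub h2).norm).pow 2)) (hint N) fun t => ?_
      have e2 : ‖f n t - f m t‖ = |hat E n t - hat E m t| := by
        simp only [f, Complex.ofReal_re]
        rw [← Complex.ofReal_sub, Complex.norm_real, Real.norm_eq_abs]
      change ‖f n t - f m t‖ ^ 2 ≤ _
      rw [e2, sq_abs]
      by_cases ht : t = E
      · subst ht; simp [hat_self]
      · rw [indicator_of_notMem (by simpa using ht), sub_zero]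
        have h1 := hat_nonneg E n t
        have h2 := hat_nonneg E m t
        have h3 := hat_anti E hn t
        have h4 := hat_anti E hm t
        apply sq_le_sq'
        · linarith
        · linarith
    · have := (Real.continuous_sqrt.tendsto 0).comp hk
      rw [Real.sqrt_zero] at this
      exact this
  obtain ⟨b, hb⟩ := cauchySeq_tendsto_of_complete hcs
  refine ⟨b, ?_, ?_, ?_⟩
  · have h1 : Tendsto (fun n => H (a n) - (E : ℂ) • a n) atTop (𝓝 (H b - (E : ℂ) • b)) :=
      ((H.continuous.tendsto b).comp hb).sub (hb.const_smul _)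
    have h2 : Tendsto (fun n => H (a n) - (E : ℂ) • a n) atTop (𝓝 0) := by
      rw [tendsto_zero_iff_norm_tendsto_zero]
      have h3 : ∀ n, ‖H (a n) - (E : ℂ) • a n‖ ≤ Real.sqrt ((1 / ((n : ℝ) + 1)) ^ 2 * ν.real univ) := by
        intro n
        refine Real.le_sqrt_of_sq_le ?_
        have hc : Continuous fun z => (z - (E : ℂ)) * f n z :=
          (by fun_prop : Continuous fun z : ℂ => z - (E : ℂ)).mul (hf n)
        rw [← cfc_sub_smul hH, cfc_apply_mul hH (by fun_prop) (hf n), h.norm_sq hH hc]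
        have e3 : ∀ t : ℝ, ‖((t : ℂ) - E) * f n t‖ ^ 2 = ((t - E) * hat E n t) ^ 2 := by
          intro t
          simp only [f, Complex.ofReal_re]
          rw [← Complex.ofReal_sub, ← Complex.ofReal_mul, Complex.norm_real, Real.norm_eq_abs, sq_abs]
        simp only [e3]
        calc ∫ t, ((t - E) * hat E n t) ^ 2 ∂ν ≤ ∫ _t, (1 / ((n : ℝ) + 1)) ^ 2 ∂ν := by
              refine integral_mono (h.integrable (f := fun t : ℝ => ((t - E) * hat E n t) ^ 2) ?_)
                (integrable_const _) fun t => hat_mul_le E n t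
              exact ((continuous_id.sub continuous_const).mul (hat_cont E n)).pow 2
          _ = _ := by rw [integral_const, smul_eq_mul, mul_comm]
      refine squeeze_zero (fun n => norm_nonneg _) h3 ?_
      have h4 : Tendsto (fun n : ℕ => (1 / ((n : ℝ) + 1)) ^ 2 * ν.real univ) atTop
          (𝓝 (0 ^ 2 * ν.real univ)) :=
        (tendsto_one_div_add_atTop_nhds_zero_nat.pow 2).mul_const _
      have := (Real.continuous_sqrt.tendsto _).comp h4
      rw [zero_pow two_ne_zero, zero_mul, Real.sqrt_zero] at this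
      exact this
    exact sub_eq_zero.1 (tendsto_nhds_unique h1 h2)
  · have h1 : Tendsto (fun n => ⟪v, a n⟫_ℂ) atTop (𝓝 ⟪v, b⟫_ℂ) := tendsto_const_nhds.inner hb
    have h2 : ∀ n, ⟪v, a n⟫_ℂ = ((∫ t, hat E n t ∂ν : ℝ) : ℂ) := by
      intro n
      rw [h.int _ (hf n)]
      exact integral_ofReal
    have h3 : Tendsto (fun n => ∫ t, hat E n t ∂ν) atTop (𝓝 (∫ t, indicator {E} 1 t ∂ν)) := by
      refine tendsto_integral_of_dominated_convergence (fun _ => 1)
        (fun n => (hat_cont E n).aestronglyMeasurable) (integrable_const _) ?_ ?_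
      · intro n
        refine Eventually.of_forall fun t => ?_
        rw [Real.norm_eq_abs, abs_of_nonneg (hat_nonneg E n t)]
        exact hat_le_one E n t
      · exact Eventually.of_forall fun t => hat_tendsto E t
    rw [integral_indicator_one (measurableSet_singleton E)] at h3
    have h4 := (Complex.continuous_ofReal.tendsto _).comp h3
    refine tendsto_nhds_unique h1 ?_
    simp only [h2]
    exact h4
  · intro U hU hg
    exact hU.mem_of_tendsto hb (Eventually.of_forall fun n => hg _ (hf n))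

/-- mass near `E` when `v` is in the range of `H - E` -/
theorem ball_le (hH : IsSelfAdjoint H) {v u : 𝓗} {ν : Measure ℝ} (h : IsSpec H v ν) {E : ℝ}
    (hu : H u - (E : ℂ) • u = v) :
    ∃ C : ℝ, 0 ≤ C ∧ ∀ r > 0, ν.real (Metric.closedBall E r) ≤ C * r ^ 2 := by
  have hfin := h.fin
  obtain ⟨ρ, h1, h2, h3⟩ := exists_specMeasure H hH u
  have hρ : IsSpec H u ρ := ⟨h1, h2, h3⟩
  refine ⟨4 * ρ.real univ, by positivity, fun r hr => ?_⟩
  let b : ℝ → ℝ := fun t => max 0 (min 1 (2 - |t - E| / r))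
  have hb : Continuous b := by fun_prop
  have hb0 : ∀ t, 0 ≤ b t := fun t => le_max_left _ _
  have hb1 : ∀ t, b t ≤ 1 := fun t => max_le zero_le_one (min_le_left _ _)
  have hb2 : ∀ t ∈ Metric.closedBall E r, b t = 1 := by
    intro t ht
    rw [Metric.mem_closedBall, Real.dist_eq] at ht
    have : |t - E| / r ≤ 1 := by rw [div_le_one hr]; exact ht
    simp only [b]
    rw [min_eq_left (by linarith), max_eq_right zero_le_one]
  have hb3 : ∀ t, (b t * (t - E)) ^ 2 ≤ 4 * r ^ 2 := by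
    intro t
    by_cases ht : |t - E| ≤ 2 * r
    · have : |b t * (t - E)| ≤ 2 * r := by
        rw [abs_mul, abs_of_nonneg (hb0 t)]
        calc b t * |t - E| ≤ 1 * |t - E| := by gcongr; exact hb1 t
          _ ≤ 2 * r := by rw [one_mul]; exact ht
      have := sq_le_sq' (abs_le.1 this).1 (abs_le.1 this).2
      nlinarith
    · have h4 : 2 ≤ |t - E| / r := by
        rw [le_div_iff₀ hr]; linarith
      have : b t = 0 := by
        simp only [b]
        rw [max_eq_left]
        exact (min_le_right _ _).trans (by linarith)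
      rw [this]
      have := sq_nonneg r
      simp only [zero_mul]
      nlinarith
  let g : ℂ → ℂ := fun z => ((b z.re : ℝ) : ℂ)
  have hg : Continuous g := Complex.continuous_ofReal.comp (hb.comp Complex.continuous_re)
  have e1 : ‖cfc g H v‖ ^ 2 = ∫ t, b t ^ 2 ∂ν := by
    rw [h.norm_sq hH hg]
    congr 1
    ext t
    simp only [g, Complex.ofReal_re, Complex.norm_real, Real.norm_eq_abs, sq_abs]
  have e2 : ‖cfc g H v‖ ^ 2 = ∫ t, (b t * (t - E)) ^ 2 ∂ρ := by
    have hc : Continuous fun z => g z * (z - (E : ℂ)) :=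
      hg.mul (by fun_prop : Continuous fun z : ℂ => z - (E : ℂ))
    rw [← hu, ← cfc_sub_smul hH, cfc_apply_mul hH hg (by fun_prop), hρ.norm_sq hH hc]
    congr 1
    ext t
    simp only [g, Complex.ofReal_re]
    rw [← Complex.ofReal_sub, ← Complex.ofReal_mul, Complex.norm_real, Real.norm_eq_abs, sq_abs]
  calc ν.real (Metric.closedBall E r) = ∫ t, indicator (Metric.closedBall E r) 1 t ∂ν := by
        rw [integral_indicator_one Metric.isClosed_closedBall.measurableSet]
    _ ≤ ∫ t, b t ^ 2 ∂ν := by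
        refine integral_mono ?_ (h.integrable (f := fun t => b t ^ 2) (hb.pow 2)) fun t => ?_
        · exact (integrable_const (1 : ℝ)).indicator Metric.isClosed_closedBall.measurableSet
        · by_cases ht : t ∈ Metric.closedBall E r
          · simp [indicator_of_mem ht, hb2 t ht]
          · rw [indicator_of_notMem ht]; exact sq_nonneg _
    _ = ∫ t, (b t * (t - E)) ^ 2 ∂ρ := by rw [← e1, e2]
    _ ≤ ∫ _t, 4 * r ^ 2 ∂ρ := by
        refine integral_mono (hρ.integrable (f := fun t => (b t * (t - E)) ^ 2)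
          ((hb.mul (by fun_prop)).pow 2)) (integrable_const _) hb3
    _ = 4 * ρ.real univ * r ^ 2 := by rw [integral_const, smul_eq_mul]; ring

end abstract

end PP

open Pool.Agent.Helper3.Anderson PP

variable {d : ℕ}

theorem cfc_res (V : Site d → ℝ) (hV : Bdd V) {z : ℂ} (hz : 0 < z.im) :
    ∃ g : ℂ → ℂ, Continuous g ∧ (∀ t : ℝ, g t = ((t : ℂ) - z)⁻¹) ∧
      ∀ u : L2 d, cfc g (schr V hV) u = res V hV z u := by
  have hH := isSelfAdjoint_schr V hV
  have hne : ∀ w : ℂ, (w.re : ℂ) - z ≠ 0 := by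
    intro w hw
    have := congrArg Complex.im hw
    simp at this
    exact hz.ne' this
  refine ⟨fun w => ((w.re : ℂ) - z)⁻¹, ?_, fun t => by simp, fun u => ?_⟩
  · exact Continuous.inv₀ (by fun_prop) hne
  · set g : ℂ → ℂ := fun w => ((w.re : ℂ) - z)⁻¹ with hg
    have hgc : Continuous g := Continuous.inv₀ (by fun_prop) hne
    have hstar := hH.isStarNormal
    have h1 : Anderson.hz V hV z (cfc g (schr V hV) u) = u := by
      have e1 : Anderson.hz V hV z (cfc g (schr V hV) u) =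
          cfc (fun w : ℂ => w - z) (schr V hV) (cfc g (schr V hV) u) := by
        rw [cfc_sub_smul hH]
        simp [Anderson.hz]
      rw [e1, cfc_apply_mul hH (by fun_prop) hgc]
      have e2 : cfc (fun w : ℂ => (w - z) * g w) (schr V hV) = cfc (fun _ : ℂ => (1 : ℂ)) (schr V hV) := by
        refine cfc_congr fun w hw => ?_
        have hw' := hH.mem_spectrum_eq_re hw
        simp only [hg]
        rw [← hw', mul_inv_cancel₀]
        rw [hw']; exact hne w
      rw [e2, cfc_const_one ℂ (schr V hV)]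
      rfl
    rw [← res_hz V hV hz.ne' (cfc g (schr V hV) u), h1]

theorem pure_point (V : Site d → ℝ) (hV : Bdd V) (O : Set ℝ)
    (hSW : ∀ x : Site d, ∀ ν : Measure ℝ, IsFiniteMeasure ν →
      (∀ z : ℂ, 0 < z.im → ∫ t : ℝ, z.im / ‖(t : ℂ) - z‖ ^ 2 ∂ν ≤ (green V z x x).im) →
      ∀ᵐ E ∂ν, E ∈ O → SW V hV x E)
    (ψ : L2 d) (hψ : ∀ E ∈ O, ∀ φ : L2 d, schr V hV φ = (E : ℂ) • φ →
      ExpDecay (φ : Site d → ℂ) → ⟪φ, ψ⟫_ℂ = 0)
    (f : ℂ → ℂ) (hf : Continuous f) (hfO : ∀ E : ℝ, E ∉ O → f E = 0) :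
    cfc f (schr V hV) ψ = 0 := by
  have hH := isSelfAdjoint_schr V hV
  have hstar := hH.isStarNormal
  set H := schr V hV with hHdef
  let S : Set (L2 d) := {φ | ∃ E ∈ O, H φ = ((E : ℝ) : ℂ) • φ ∧ ExpDecay (φ : Site d → ℂ)}
  set W : Submodule ℂ (L2 d) := (Submodule.span ℂ S).topologicalClosure with hWdef
  have hWinv : ∀ g : ℂ → ℂ, Continuous g → ∀ w ∈ W, cfc g H w ∈ W := fun g hg w hw =>
    cfc_mem_span hH (fun φ hφ => ⟨hφ.choose, hφ.choose_spec.2.1⟩) hg hw
  have hWinv' : ∀ g : ℂ → ℂ, Continuous g → ∀ w ∈ Wᗮ, cfc g H w ∈ Wᗮ := fun g hg w hw =>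
    cfc_mem_orth hWinv hg hw
  have hψW : ψ ∈ Wᗮ := by
    rw [hWdef, Submodule.orthogonal_closure, Submodule.mem_orthogonal]
    intro u hu
    induction hu using Submodule.span_induction with
    | mem φ hφ =>
        obtain ⟨E, hE, h1, h2⟩ := hφ
        exact hψ E hE φ h1 h2
    | zero => simp
    | add a b _ _ ha hb => rw [inner_add_left, ha, hb, add_zero]
    | smul c a _ ha => rw [inner_smul_left, ha, mul_zero]
  have hfs : Continuous fun z => star (f z) := hf.star
  ext x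
  have hcoord : ∀ u : L2 d, u x = ⟪dl x, u⟫_ℂ := by
    intro u
    rw [dl, lp.inner_single_left]
    simp
  obtain ⟨q, hq, v, hv, hqv⟩ := Submodule.exists_add_mem_mem_orthogonal (K := W) (dl x)
  obtain ⟨ν, hν1, hν2, hν3⟩ := exists_specMeasure H hH v
  have hν : IsSpec H v ν := ⟨hν1, hν2, hν3⟩
  -- the Borel transform
  have htr : ∀ z : ℂ, 0 < z.im → ∫ t : ℝ, z.im / ‖(t : ℂ) - z‖ ^ 2 ∂ν ≤ (green V z x x).im := by
    intro z hz
    obtain ⟨g, hg, hg1, hg2⟩ := cfc_res V hV hz
    rw [← ward V hV hz x, ← hg2]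
    have e1 : ∫ t : ℝ, z.im / ‖(t : ℂ) - z‖ ^ 2 ∂ν = z.im * ‖cfc g H v‖ ^ 2 := by
      rw [hν.norm_sq hH hg, ← integral_const_mul]
      congr 1
      ext t
      rw [hg1, norm_inv, inv_pow, div_eq_mul_inv]
    rw [e1]
    have e2 : ‖cfc g H v‖ ^ 2 ≤ ‖cfc g H (dl x)‖ ^ 2 := by
      rw [hqv, map_add]
      have hperp : ⟪cfc g H q, cfc g H v⟫_ℂ = 0 :=
        (Submodule.mem_orthogonal _ _).1 (hWinv' g hg v hv) _ (hWinv g hg q hq)
      have := norm_add_sq_eq_norm_sq_add_norm_sq_of_inner_eq_zero _ _ hperp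
      rw [sq, sq, this]
      nlinarith [mul_self_nonneg ‖cfc g H q‖]
    exact mul_le_mul_of_nonneg_left e2 hz.le
  have hae := hSW x ν hν1 htr
  -- decomposition of equations
  have hmemW : ∀ (E : ℝ) (w : L2 d), w ∈ W → H w - (E : ℂ) • w ∈ W := by
    intro E w hw
    rw [← cfc_sub_smul hH]
    exact hWinv _ (by fun_prop) w hw
  have hmemW' : ∀ (E : ℝ) (w : L2 d), w ∈ Wᗮ → H w - (E : ℂ) • w ∈ Wᗮ := by
    intro E w hw
    rw [← cfc_sub_smul hH]
    exact hWinv' _ (by fun_prop) w hw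
  -- energies of the first kind
  have hA1 : ν {E : ℝ | ∃ (φ : L2 d) (c : ℂ), c ≠ 0 ∧ H φ - (E : ℂ) • φ = c • dl x} = 0 := by
    refine null_of_little ?_
    rintro E ⟨φ, c, hc, hφ⟩ δ hδ
    obtain ⟨φ1, hφ1, φ2, hφ2, hφ12⟩ := Submodule.exists_add_mem_mem_orthogonal (K := W) φ
    have e1 : H (c⁻¹ • φ2) - (E : ℂ) • (c⁻¹ • φ2) = v := by
      have h1 : (H φ2 - (E : ℂ) • φ2) - c • v ∈ W := by
        have : (H φ2 - (E : ℂ) • φ2) - c • v = c • q - (H φ1 - (E : ℂ) • φ1) := by
          rw [hqv, hφ12, map_add, smul_add, smul_add] at hφ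
          have := sub_eq_zero.2 hφ
          rw [← sub_eq_zero]
          rw [← this]
          abel
        rw [this]
        exact W.sub_mem (W.smul_mem _ hq) (hmemW E φ1 hφ1)
      have h2 : (H φ2 - (E : ℂ) • φ2) - c • v ∈ Wᗮ :=
        Wᗮ.sub_mem (hmemW' E φ2 hφ2) (Wᗮ.smul_mem _ hv)
      have h3 : (H φ2 - (E : ℂ) • φ2) - c • v = 0 := by
        have := (Submodule.mem_orthogonal _ _).1 h2 _ h1
        exact inner_self_eq_zero.1 this
      have h4 : H φ2 - (E : ℂ) • φ2 = c • v := sub_eq_zero.1 h3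
      rw [map_smul, smul_comm, ← smul_sub, h4, smul_smul, inv_mul_cancel₀ hc, one_smul]
    obtain ⟨C, hC0, hC⟩ := ball_le hH hν e1
    have hr0 : 0 < 2 * (δ : ℝ) / (C + 1) := by positivity
    filter_upwards [Ioo_mem_nhdsGT hr0] with r hr
    have h5 := hC r hr.1
    have h6 : C * r ^ 2 ≤ δ * (2 * r) := by
      have : (C + 1) * r ≤ 2 * δ := by
        have := hr.2.le
        rwa [le_div_iff₀ (by positivity), mul_comm] at this
      have hrp := hr.1.le
      nlinarith
    rw [Real.volume_closedBall]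
    have h7 : ν (Metric.closedBall E r) = ENNReal.ofReal (ν.real (Metric.closedBall E r)) := by
      rw [Measure.real, ENNReal.ofReal_toReal (measure_ne_top _ _)]
    rw [h7, ← ENNReal.ofReal_coe_nnreal, ← ENNReal.ofReal_mul (by positivity)]
    exact ENNReal.ofReal_le_ofReal (h5.trans h6)
  -- energies of the second kind
  have hA2 : ν {E : ℝ | ∃ φ : L2 d, φ ∈ W ∧ H φ = (E : ℂ) • φ ∧ φ x ≠ 0 ∧
      ∀ η : L2 d, H η = (E : ℂ) • η → η x = 0 → ⟪η, φ⟫_ℂ = 0} = 0 := by
    set A2 : Set ℝ := {E : ℝ | ∃ φ : L2 d, φ ∈ W ∧ H φ = (E : ℂ) • φ ∧ φ x ≠ 0 ∧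
      ∀ η : L2 d, H η = (E : ℂ) • η → η x = 0 → ⟪η, φ⟫_ℂ = 0} with hA2def
    have hcount : A2.Countable := by
      choose! Φ hΦ using fun (E : ℝ) (hE : E ∈ A2) => hE
      have hne : ∀ E ∈ A2, Φ E ≠ 0 := fun E hE h0 => (hΦ E hE).2.2.1 (by rw [h0]; rfl)
      let w : A2 → L2 d := fun E => ((‖Φ E‖ : ℂ)⁻¹) • Φ E
      have horth : Orthonormal ℂ w := by
        constructor
        · intro E
          have := norm_ne_zero_iff.2 (hne E E.2)
          simp only [w, norm_smul, norm_inv, Complex.norm_real, norm_norm]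
          exact inv_mul_cancel₀ this
        · intro E E' hEE
          simp only [w, inner_smul_left, inner_smul_right]
          have h0 : ⟪Φ E, Φ E'⟫_ℂ = 0 := by
            have h1 := inner_schr V hV (Φ E) (Φ E')
            rw [← hHdef, (hΦ E E.2).2.1, (hΦ E' E'.2).2.1, inner_smul_left, inner_smul_right,
              Complex.conj_ofReal] at h1
            have h2 : (((E : ℝ) : ℂ) - ((E' : ℝ) : ℂ)) * ⟪Φ E, Φ E'⟫_ℂ = 0 := by
              linear_combination h1
            rcases mul_eq_zero.1 h2 with h3 | h3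
            · exact absurd (Subtype.ext (by exact_mod_cast sub_eq_zero.1 h3)) hEE
            · exact h3
          rw [h0]; simp
      have hsum := horth.inner_products_summable (dl x)
      have hsupp := hsum.countable_support
      have : Function.support (fun i : A2 => ‖⟪w i, dl x⟫_ℂ‖ ^ 2) = univ := by
        ext E
        simp only [Function.mem_support, mem_univ, iff_true]
        have h1 : ⟪w E, dl x⟫_ℂ ≠ 0 := by
          rw [← inner_conj_symm, ← hcoord]
          simp only [w, lp.coeFn_smul, Pi.smul_apply, smul_eq_mul]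
          have h2 := (hΦ E E.2).2.2.1
          have h3 := norm_ne_zero_iff.2 (hne E E.2)
          rw [Ne, map_eq_zero]
          exact mul_ne_zero (inv_ne_zero (by exact_mod_cast h3)) h2
        exact pow_ne_zero 2 (norm_ne_zero_iff.2 h1)
      rw [this, countable_univ_iff] at hsupp
      exact countable_coe_iff.1 hsupp
    have hsing : ∀ E ∈ A2, ν {E} = 0 := by
      rintro E ⟨φ, hφW, hφ, hφx, hη⟩
      obtain ⟨a, ha1, ha2, ha3⟩ := exists_atom hH hν E
      have haW : a ∈ Wᗮ := ha3 _ (Submodule.isClosed_orthogonal W) fun g hg => hWinv' g hg v hv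
      have hax : a x = ((ν.real {E} : ℝ) : ℂ) := by
        rw [hcoord, hqv, inner_add_left, ha2, (Submodule.mem_orthogonal _ _).1 haW q hq, zero_add]
      have h1 : H (a - (a x / φ x) • φ) = (E : ℂ) • (a - (a x / φ x) • φ) := by
        rw [map_sub, map_smul, ha1, hφ, smul_sub, smul_comm]
      have h2 : (a - (a x / φ x) • φ : L2 d) x = 0 := by
        rw [lp.coeFn_sub, Pi.sub_apply, lp.coeFn_smul, Pi.smul_apply, smul_eq_mul,
          div_mul_cancel₀ _ hφx, sub_self]
      have h3 := hη _ h1 h2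
      have h4 : ⟪a, φ⟫_ℂ = 0 := by
        rw [← inner_conj_symm, (Submodule.mem_orthogonal _ _).1 haW φ hφW, map_zero]
      rw [inner_sub_left, h4, inner_smul_left, zero_sub, neg_eq_zero, mul_eq_zero] at h3
      have h5 : φ ≠ 0 := fun h0 => hφx (by rw [h0]; rfl)
      have h6 : a x = 0 := by
        rcases h3 with h3 | h3
        · rw [map_eq_zero, div_eq_zero_iff] at h3
          exact h3.resolve_right hφx
        · exact absurd (inner_self_eq_zero.1 h3) h5
      rw [hax] at h6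
      have h7 : ν.real {E} = 0 := Complex.ofReal_eq_zero.1 h6
      rwa [measureReal_eq_zero_iff] at h7
    have : A2 = ⋃ E ∈ A2, {E} := by simp
    rw [this, measure_biUnion_null_iff hcount]
    exact hsing
  have hO : ∀ᵐ E ∂ν, E ∉ O := by
    have h1 : ∀ᵐ E ∂ν, ¬ ∃ (φ : L2 d) (c : ℂ), c ≠ 0 ∧ H φ - ((E : ℝ) : ℂ) • φ = c • dl x := by
      rw [ae_iff]; simpa using hA1
    have h2 : ∀ᵐ E ∂ν, ¬ ∃ φ : L2 d, φ ∈ W ∧ H φ = ((E : ℝ) : ℂ) • φ ∧ φ x ≠ 0 ∧
        ∀ η : L2 d, H η = (E : ℂ) • η → η x = 0 → ⟪η, φ⟫_ℂ = 0 := by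
      rw [ae_iff]; simpa only [not_not] using hA2
    filter_upwards [hae, h1, h2] with E hE hE1 hE2 hEO
    obtain ⟨φ, c, hdec, heq, hc0⟩ := hE hEO
    by_cases hc : c = 0
    · obtain ⟨h3, h4⟩ := hc0 hc
      rw [hc, zero_smul, sub_eq_zero] at heq
      refine hE2 ⟨φ, ?_, heq, h3, h4⟩
      exact Submodule.le_topologicalClosure _ (Submodule.subset_span ⟨E, hEO, heq, hdec⟩)
    · exact hE1 ⟨φ, c, hc, heq⟩
  have hzero : cfc (fun z => star (f z)) H v = 0 := by
    have h1 : ‖cfc (fun z => star (f z)) H v‖ ^ 2 = 0 := by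
      rw [hν.norm_sq hH hfs]
      refine integral_eq_zero_of_ae ?_
      filter_upwards [hO] with E hE
      simp [hfO E hE]
    exact norm_eq_zero.1 (pow_eq_zero_iff two_ne_zero |>.1 h1)
  rw [hcoord, inner_cfc_right, hqv, map_add, hzero, add_zero]
  rw [(Submodule.mem_orthogonal _ _).1 hψW _ (hWinv _ hfs q hq)]
  rfl

end Pool.Agent.Helper3.Crit
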