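import Pool.Agent.Helper3.Crit.Trans

/-! Explicit form of the Simon-Wolff alternative from the limit of the resolvent. -/

open scoped ENNReal NNReal InnerProductSpace
open MeasureTheory Set Filter Topology

noncomputable section

namespace Pool.Agent.Helper3.Crit

open Pool.Agent.Helper3.Anderson

variable {d : ℕ}

theorem sw_explicit (V V' : Site d → ℝ) (hV : Bdd V) (hV' : Bdd V') (x : Site d)
    (h : ∀ y, y ≠ x → V y = V' y) (E : ℝ) {ε : ℕ → ℝ} (hε : ∀ k, 0 < ε k)
    (hε0 : Tendsto ε atTop (𝓝 0)) {φ : Site d → ℂ}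
    (hφ : ∀ y, Tendsto (fun k => green V' ((E : ℂ) + ε k * Complex.I) y x) atTop (𝓝 (φ y)))
    (hdec : ∃ C c : ℝ, 0 < c ∧ ∀ y, ‖φ y‖ ≤ C * Real.exp (-(c * sn y))) :
    ∃ φ2 : L2 d, (φ2 : Site d → ℂ) = φ ∧ ExpDecay φ ∧
      schr V hV φ2 - (E : ℂ) • φ2 = (1 + ((V x - V' x : ℝ) : ℂ) * φ x) • dl x ∧
      ∀ η : L2 d, schr V' hV' η = (E : ℂ) • η → η x = 0 → ⟪η, φ2⟫_ℂ = 0 := by
  obtain ⟨C, c, hc, hdec⟩ := hdec
  have hmem : Memℓp φ 2 := memlp_of_decay hc hdec
  set Φ : L2 d := ⟨φ, hmem⟩ with hΦ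
  have hΦy : ∀ y, (Φ : Site d → ℂ) y = φ y := fun y => rfl
  set z : ℕ → ℂ := fun k => (E : ℂ) + ε k * Complex.I with hz
  have hzim : ∀ k, (z k).im = ε k := fun k => by simp [hz]
  have hzim0 : ∀ k, 0 < (z k).im := fun k => by rw [hzim]; exact hε k
  have hz0 : Tendsto z atTop (𝓝 (E : ℂ)) := by
    have h1 : Tendsto (fun k => ((ε k : ℝ) : ℂ)) atTop (𝓝 ((0 : ℝ) : ℂ)) :=
      (Complex.continuous_ofReal.tendsto 0).comp hε0
    have h2 := (h1.mul_const Complex.I).const_add (E : ℂ)
    simpa using h2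
  -- the equation with the potential `V'`
  have heq : ∀ w, -lap φ w + (V' w : ℂ) * φ w - (E : ℂ) * φ w = if w = x then 1 else 0 := by
    intro w
    have h1 : Tendsto (fun k => -lap (fun w => green V' (z k) w x) w +
        (V' w : ℂ) * green V' (z k) w x - z k * green V' (z k) w x) atTop
        (𝓝 (-lap φ w + (V' w : ℂ) * φ w - (E : ℂ) * φ w)) := by
      refine Tendsto.sub (Tendsto.add (Tendsto.neg ?_) ((hφ w).const_mul _)) (hz0.mul (hφ w))
      unfold lap
      refine tendsto_finsetSum _ fun j _ => ?_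
      exact ((hφ _).sub (hφ _)).add ((hφ _).sub (hφ _))
    have h2 : ∀ k, -lap (fun w => green V' (z k) w x) w +
        (V' w : ℂ) * green V' (z k) w x - z k * green V' (z k) w x = if w = x then 1 else 0 :=
      fun k => green_equation V' hV' (hzim0 k) w x
    simp only [h2] at h1
    exact tendsto_nhds_unique tendsto_const_nhds h1 |>.symm
  have heq' : schr V' hV' Φ - (E : ℂ) • Φ = dl x := by
    ext w
    rw [lp.coeFn_sub, Pi.sub_apply, schr_apply, lp.coeFn_smul, Pi.smul_apply, dl_apply, smul_eq_mul]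
    exact heq w
  refine ⟨Φ, rfl, ⟨C, c, hc, fun y => ?_⟩, ?_, ?_⟩
  · have hC : 0 ≤ C := by
      have h1 := (norm_nonneg _).trans (hdec y)
      by_contra hneg
      push Not at hneg
      have := mul_neg_of_neg_of_pos hneg (Real.exp_pos (-(c * sn y)))
      linarith
    refine (hdec y).trans ?_
    gcongr
    exact norm_le_sn y
  · ext w
    rw [lp.coeFn_sub, Pi.sub_apply, schr_apply, lp.coeFn_smul, Pi.smul_apply, lp.coeFn_smul,
      Pi.smul_apply, dl_apply, smul_eq_mul, smul_eq_mul]
    have h1 := heq w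
    have e : (V w : ℂ) * Φ w = (V' w : ℂ) * Φ w + ((V w - V' w : ℝ) : ℂ) * Φ w := by
      push_cast; ring
    rw [e]
    rw [← hΦy w] at h1
    by_cases hw : w = x
    · subst hw
      simp only [if_true] at h1 ⊢
      change -lap (Φ : Site d → ℂ) w + _ - _ = 1 at h1
      linear_combination h1
    · rw [if_neg hw] at h1 ⊢
      rw [h w hw]
      change -lap (Φ : Site d → ℂ) w + _ - _ = 0 at h1
      simp only [sub_self, Complex.ofReal_zero, zero_mul, add_zero, mul_zero]
      exact h1
  · intro η hη' hηx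
    set r : ℕ → L2 d := fun k => res V' hV' (z k) (dl x) with hr
    have hr0 : ∀ k, ⟪η, r k⟫_ℂ = 0 := by
      intro k
      have h1 := hz_res V' hV' (hzim0 k).ne' (dl x)
      have h2 : schr V' hV' (r k) = dl x + z k • r k := by
        rw [← h1]
        simp [Anderson.hz, hr]
      have h3 : ⟪η, schr V' hV' (r k)⟫_ℂ = (E : ℂ) * ⟪η, r k⟫_ℂ := by
        rw [← inner_schr, hη', inner_smul_left]; simp
      rw [h2, inner_add_right, inner_smul_right] at h3
      have h4 : ⟪η, dl x⟫_ℂ = 0 := by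
        rw [dl, lp.inner_single_right, hηx]; simp
      rw [h4, zero_add] at h3
      have h5 : (z k - E) * ⟪η, r k⟫_ℂ = 0 := by linear_combination h3
      refine (mul_eq_zero.mp h5).resolve_left fun h6 => ?_
      have h7 := congrArg Complex.im h6
      simp only [Complex.sub_im, hzim, Complex.ofReal_im, sub_zero, Complex.zero_im] at h7
      exact (hε k).ne' h7
    have hrΦ : ∀ k, Φ - r k = -((z k - E) • res V' hV' (z k) Φ) := by
      intro k
      have h1 : dl x = Anderson.hz V' hV' (z k) Φ + (z k - E) • Φ := by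
        rw [← heq']
        simp only [Anderson.hz, sub_apply, smul_apply, one_apply_eq_self, sub_smul]
        abel
      have h2 : r k = Φ + (z k - E) • res V' hV' (z k) Φ := by
        simp only [hr]
        rw [h1, map_add, map_smul, res_hz V' hV' (hzim0 k).ne']
      rw [h2]; abel
    have hB : ∀ k, ‖Φ - r k‖ ≤ ‖Φ‖ := by
      intro k
      rw [hrΦ k, norm_neg, norm_smul]
      have h1 : ‖z k - E‖ = ε k := by
        simp [hz, abs_of_pos (hε k)]
      have h2 := norm_res_le V' hV' (hzim0 k) Φ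
      rw [h1]
      rw [hzim] at h2
      calc ε k * ‖res V' hV' (z k) Φ‖ ≤ ε k * (‖Φ‖ / ε k) := by
            gcongr
            exact (hε k).le
        _ = ‖Φ‖ := by field_simp [(hε k).ne']
    refine weak_of_pointwise (η := η) (u := fun k => Φ - r k) hB (fun y => ?_) fun k => ?_
    · have h1 : Tendsto (fun k => φ y - green V' (z k) y x) atTop (𝓝 (φ y - φ y)) :=
        tendsto_const_nhds.sub (hφ y)
      rw [sub_self] at h1
      refine h1.congr fun k => ?_
      rw [lp.coeFn_sub, Pi.sub_apply, green_eq V' hV']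
    · rw [inner_sub_right, hr0, sub_zero]

end Pool.Agent.Helper3.Crit
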