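import Pool.Agent.Helper3.Crit.Defs

/-! Geodesic lattice paths. -/

open scoped ENNReal NNReal
open Filter Topology

noncomputable section

namespace Pool.Agent.Helper3.Crit

open Pool.Agent.Helper3.Anderson

variable {d : ℕ}

/-- the `ℓ¹` norm on `ℤ^d` -/
def l1 (x : Site d) : ℕ := ∑ i, (x i).natAbs

lemma l1_zero : l1 (0 : Site d) = 0 := by simp [l1]

lemma l1_neg (x : Site d) : l1 (-x) = l1 x := by simp [l1]

lemma l1_add_le (x y : Site d) : l1 (x + y) ≤ l1 x + l1 y := by
  rw [l1, l1, l1, ← Finset.sum_add_distrib]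
  refine Finset.sum_le_sum fun i _ => ?_
  simpa using Int.natAbs_add_le (x i) (y i)

lemma l1_sub_comm (x y : Site d) : l1 (x - y) = l1 (y - x) := by rw [← l1_neg, neg_sub]

lemma l1_eq_zero {x : Site d} (h : l1 x = 0) : x = 0 := by
  funext i
  have := (Finset.sum_eq_zero_iff (s := Finset.univ) (f := fun i => (x i).natAbs)).1 h i
    (Finset.mem_univ i)
  simpa using this

lemma l1_single (j : Fin d) (s : ℤ) : l1 (Pi.single j s : Site d) = s.natAbs := by
  rw [l1, Finset.sum_eq_single j]
  · simp
  · intro b _ hb; simp [Pi.single_eq_of_ne hb]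
  · intro h; exact absurd (Finset.mem_univ _) h

lemma l1_split (x : Site d) (j : Fin d) :
    l1 x = (x j).natAbs + ∑ i ∈ Finset.univ.erase j, (x i).natAbs :=
  (Finset.add_sum_erase _ (fun i => (x i).natAbs) (Finset.mem_univ j)).symm

lemma l1_tri (x y z : Site d) : l1 (x - z) ≤ l1 (x - y) + l1 (y - z) := by
  have := l1_add_le (x - y) (y - z)
  rwa [sub_add_sub_cancel] at this

lemma l1_le_sn (x : Site d) : l1 x ≤ d * sn x := by
  rw [l1]
  refine (Finset.sum_le_sum fun i _ => le_sn x i).trans ?_
  simp

lemma sn_le_l1 (x : Site d) : sn x ≤ l1 x := by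
  refine sn_le_iff.2 fun i => ?_
  exact Finset.single_le_sum (f := fun i => (x i).natAbs) (fun _ _ => Nat.zero_le _)
    (Finset.mem_univ i)

/-- the neighbours of a site -/
def nbs (u : Site d) : Finset (Site d) :=
  (Finset.univ.image fun j : Fin d => u + Pi.single j 1) ∪
    (Finset.univ.image fun j : Fin d => u - Pi.single j 1)

lemma mem_nbs {u w : Site d} :
    w ∈ nbs u ↔ ∃ j : Fin d, w = u + Pi.single j 1 ∨ w = u - Pi.single j 1 := by
  simp only [nbs, Finset.mem_union, Finset.mem_image, Finset.mem_univ, true_and]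
  constructor
  · rintro (⟨j, rfl⟩ | ⟨j, rfl⟩)
    · exact ⟨j, Or.inl rfl⟩
    · exact ⟨j, Or.inr rfl⟩
  · rintro ⟨j, rfl | rfl⟩
    · exact Or.inl ⟨j, rfl⟩
    · exact Or.inr ⟨j, rfl⟩

lemma l1_nbs {u w : Site d} (h : w ∈ nbs u) : l1 (w - u) = 1 := by
  obtain ⟨j, rfl | rfl⟩ := mem_nbs.1 h
  · rw [add_sub_cancel_left, l1_single]; rfl
  · rw [sub_sub_cancel_left, l1_neg, l1_single]; rfl

lemma mem_nbs_of_l1 {u w : Site d} (h : l1 (w - u) = 1) : w ∈ nbs u := by
  have h1 : ∃ j, (w - u) j ≠ 0 := by
    by_contra hne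
    push Not at hne
    have : w - u = 0 := funext hne
    rw [this, l1_zero] at h
    exact absurd h (by norm_num)
  obtain ⟨j, hj⟩ := h1
  have h2 := l1_split (w - u) j
  have h3 : 1 ≤ ((w - u) j).natAbs := by
    have := Int.natAbs_pos.2 hj
    omega
  have h4 : ∑ i ∈ Finset.univ.erase j, ((w - u) i).natAbs = 0 := by omega
  have h5 : ∀ i, i ≠ j → (w - u) i = 0 := by
    intro i hi
    have := (Finset.sum_eq_zero_iff.1 h4) i (Finset.mem_erase.2 ⟨hi, Finset.mem_univ _⟩)
    simpa using this
  have h6 : ((w - u) j).natAbs = 1 := by omega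
  rw [mem_nbs]
  refine ⟨j, ?_⟩
  rcases Int.natAbs_eq_iff.1 h6 with h7 | h7
  · left
    funext i
    by_cases hi : i = j
    · subst hi
      have : (w - u) i = 1 := by simpa using h7
      simp only [Pi.sub_apply] at this
      simp only [Pi.add_apply, Pi.single_eq_same]; omega
    · have := h5 i hi
      simp only [Pi.sub_apply] at this
      simp only [Pi.add_apply, Pi.single_eq_of_ne hi]; omega
  · right
    funext i
    by_cases hi : i = j
    · subst hi
      have : (w - u) i = -1 := by simpa using h7
      simp only [Pi.sub_apply] at this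
      simp only [Pi.sub_apply, Pi.single_eq_same]; omega
    · have := h5 i hi
      simp only [Pi.sub_apply] at this
      simp only [Pi.sub_apply, Pi.single_eq_of_ne hi]; omega

lemma nsum_eq_sum_nbs (f : Site d → ℂ) (u : Site d) : nsum f u = ∑ w ∈ nbs u, f w := by
  rw [nbs, Finset.sum_union, Finset.sum_image, Finset.sum_image, nsum, Finset.sum_add_distrib]
  · intro i _ j _ h
    have h1 : (Pi.single i 1 : Site d) = Pi.single j 1 := by
      have := sub_right_injective h
      exact this
    by_contra hne
    have := congrFun h1 i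
    rw [Pi.single_eq_same, Pi.single_eq_of_ne hne] at this
    exact absurd this (by norm_num)
  · intro i _ j _ h
    have h1 : (Pi.single i 1 : Site d) = Pi.single j 1 := add_left_cancel h
    by_contra hne
    have := congrFun h1 i
    rw [Pi.single_eq_same, Pi.single_eq_of_ne hne] at this
    exact absurd this (by norm_num)
  · rw [Finset.disjoint_left]
    intro w h1 h2
    obtain ⟨i, _, hi⟩ := Finset.mem_image.1 h1
    obtain ⟨j, _, hj⟩ := Finset.mem_image.1 h2
    have h3 : (Pi.single i 1 : Site d) + Pi.single j 1 = 0 := by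
      have : u + Pi.single i 1 = u - Pi.single j 1 := hi.trans hj.symm
      have h4 : (Pi.single i 1 : Site d) = -Pi.single j 1 := by
        have h5 := congrArg (fun v => v - u) this
        simpa using h5
      rw [h4, neg_add_cancel]
    have h4 := congrFun h3 i
    rw [Pi.add_apply, Pi.single_eq_same, Pi.zero_apply] at h4
    by_cases hij : i = j
    · subst hij; rw [Pi.single_eq_same] at h4; omega
    · rw [Pi.single_eq_of_ne hij] at h4; omega

lemma card_nbs_le (u : Site d) : (nbs u).card ≤ 2 * d := by
  refine (Finset.card_union_le _ _).trans ?_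
  have h1 := Finset.card_image_le (s := (Finset.univ : Finset (Fin d)))
    (f := fun j : Fin d => u + Pi.single j 1)
  have h2 := Finset.card_image_le (s := (Finset.univ : Finset (Fin d)))
    (f := fun j : Fin d => u - Pi.single j 1)
  simp only [Finset.card_univ, Fintype.card_fin] at h1 h2
  omega

/-- closed neighbourhood of a finite set -/
def nbh (P : Finset (Site d)) : Finset (Site d) := P.biUnion fun u => insert u (nbs u)

lemma subset_nbh (P : Finset (Site d)) : P ⊆ nbh P := fun u hu =>
  Finset.mem_biUnion.2 ⟨u, hu, Finset.mem_insert_self _ _⟩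

lemma nbs_subset_nbh {P : Finset (Site d)} {u : Site d} (hu : u ∈ P) : nbs u ⊆ nbh P :=
  fun _ hw => Finset.mem_biUnion.2 ⟨u, hu, Finset.mem_insert_of_mem hw⟩

lemma card_nbh_le (P : Finset (Site d)) : (nbh P).card ≤ (2 * d + 1) * P.card := by
  refine Finset.card_biUnion_le.trans ?_
  have : ∀ u ∈ P, (insert u (nbs u)).card ≤ 2 * d + 1 := fun u _ =>
    (Finset.card_insert_le _ _).trans (Nat.succ_le_succ (card_nbs_le u))
  refine (Finset.sum_le_sum this).trans ?_
  rw [Finset.sum_const, smul_eq_mul, mul_comm]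

/-- a step towards `w` -/
lemma exists_step {v w : Site d} (h : v ≠ w) :
    ∃ v' : Site d, l1 (v' - v) = 1 ∧ l1 (w - v) = l1 (w - v') + 1 := by
  obtain ⟨j, hj⟩ : ∃ j, v j ≠ w j := by
    by_contra hne
    push Not at hne
    exact h (funext hne)
  set s : ℤ := if v j < w j then 1 else -1 with hs
  refine ⟨v + Pi.single j s, ?_, ?_⟩
  · rw [add_sub_cancel_left, l1_single, hs]
    split_ifs <;> rfl
  · have e1 := l1_split (w - v) j
    have e2 := l1_split (w - (v + (Pi.single j s : Site d))) j
    have e3 : ∑ i ∈ Finset.univ.erase j, ((w - (v + (Pi.single j s : Site d))) i).natAbs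
        = ∑ i ∈ Finset.univ.erase j, ((w - v) i).natAbs := by
      refine Finset.sum_congr rfl fun i hi => ?_
      have hne := (Finset.mem_erase.1 hi).1
      simp only [Pi.sub_apply, Pi.add_apply, Pi.single_eq_of_ne hne, add_zero]
    rw [e1, e2, e3]
    simp only [Pi.sub_apply, Pi.add_apply, Pi.single_eq_same]
    rw [hs]
    split_ifs with h1 <;> omega

/-- a geodesic path -/
structure Geod (v w : Site d) (k : ℕ) (p : ℕ → Site d) : Prop where
  start : p 0 = v
  fin : p k = w
  step : ∀ i < k, l1 (p (i + 1) - p i) = 1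
  len : l1 (w - v) = k

lemma exists_geod (v w : Site d) : ∃ p, Geod v w (l1 (w - v)) p := by
  have : ∀ k : ℕ, ∀ v : Site d, l1 (w - v) = k → ∃ p, Geod v w k p := by
    intro k
    induction k with
    | zero =>
      intro v h
      have : w = v := sub_eq_zero.1 (l1_eq_zero h)
      subst this
      exact ⟨fun _ => w, rfl, rfl, fun i hi => absurd hi (Nat.not_lt_zero _), h⟩
    | succ k ih =>
      intro v h
      have hne : v ≠ w := by
        rintro rfl
        rw [sub_self, l1_zero] at h
        omega
      obtain ⟨v', h1, h2⟩ := exists_step hne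
      obtain ⟨q, hq⟩ := ih v' (by omega)
      refine ⟨fun i => if i = 0 then v else q (i - 1), ?_, ?_, ?_, h⟩
      · simp
      · simp [hq.fin]
      · intro i hi
        rcases Nat.eq_zero_or_pos i with rfl | hpos
        · simp [hq.start, h1]
        · have := hq.step (i - 1) (by omega)
          rw [if_neg (by omega), if_neg (by omega)]
          rwa [show i - 1 + 1 = i + 1 - 1 by omega] at this
  exact this _ v rfl

lemma Geod.dist_le {v w : Site d} {k : ℕ} {p : ℕ → Site d} (h : Geod v w k p) :
    ∀ i j, i ≤ j → j ≤ k → l1 (p j - p i) ≤ j - i := by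
  intro i j hij
  induction j, hij using Nat.le_induction with
  | base => intro _; rw [sub_self, l1_zero]; omega
  | succ j hij ih =>
    intro hj
    have h1 := ih (by omega)
    have h2 := h.step j (by omega)
    have h3 := l1_tri (p (j + 1)) (p j) (p i)
    omega

lemma Geod.dist_eq {v w : Site d} {k : ℕ} {p : ℕ → Site d} (h : Geod v w k p) {i j : ℕ}
    (hij : i ≤ j) (hj : j ≤ k) : l1 (p j - p i) = j - i := by
  have h1 := h.dist_le i j hij hj
  have h2 := h.dist_le 0 i (Nat.zero_le _) (by omega)
  have h3 := h.dist_le j k hj le_rfl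
  have h4 := l1_tri w (p j) v
  have h5 := l1_tri (p j) (p i) v
  have h6 := h.len
  rw [← h.start] at h4 h5 h6
  rw [← h.fin] at h4 h6
  omega

lemma Geod.inj {v w : Site d} {k : ℕ} {p : ℕ → Site d} (h : Geod v w k p) :
    ∀ i ≤ k, ∀ j ≤ k, p i = p j → i = j := by
  intro i hi j hj hij
  rcases le_total i j with h1 | h1
  · have := h.dist_eq h1 hj
    rw [hij, sub_self, l1_zero] at this
    omega
  · have := h.dist_eq h1 hi
    rw [hij, sub_self, l1_zero] at this
    omega

/-- the neighbour sum at a site of a geodesic for a function which vanishes off the geodesic in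
its neighbourhood. -/
lemma Geod.nsum_eq {v w : Site d} {k : ℕ} {p : ℕ → Site d} (h : Geod v w k p) {f : Site d → ℂ}
    {i : ℕ} (hi : i ≤ k) (hf : ∀ x ∈ nbs (p i), (∀ l ≤ k, x ≠ p l) → f x = 0) :
    nsum f (p i) = (if i = 0 then 0 else f (p (i - 1))) + (if i = k then 0 else f (p (i + 1))) := by
  classical
  rw [nsum_eq_sum_nbs]
  have key : ∀ x ∈ nbs (p i), f x = (if i ≠ 0 ∧ x = p (i - 1) then f (p (i - 1)) else 0)
      + (if i ≠ k ∧ x = p (i + 1) then f (p (i + 1)) else 0) := by
    intro x hx
    by_cases hP : ∀ l ≤ k, x ≠ p l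
    · rw [hf x hx hP, if_neg, if_neg, add_zero]
      · rintro ⟨h1, h2⟩; exact hP (i + 1) (by omega) h2
      · rintro ⟨h1, h2⟩; exact hP (i - 1) (by omega) h2
    · push Not at hP
      obtain ⟨l, hl, rfl⟩ := hP
      have h1 := l1_nbs hx
      rcases le_total l i with h2 | h2
      · have h3 := h.dist_eq h2 hi
        rw [l1_sub_comm] at h3
        have hli : l = i - 1 := by omega
        have hi0 : i ≠ 0 := by omega
        rw [if_pos ⟨hi0, by rw [hli]⟩, if_neg, add_zero, hli]
        rintro ⟨h4, h5⟩
        have := h.inj l hl (i + 1) (by omega) h5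
        omega
      · have h3 := h.dist_eq h2 hl
        have hli : l = i + 1 := by omega
        have hik : i ≠ k := by omega
        rw [if_neg, if_pos ⟨hik, by rw [hli]⟩, zero_add, hli]
        rintro ⟨h4, h5⟩
        have := h.inj l hl (i - 1) (by omega) h5
        omega
  rw [Finset.sum_congr rfl key, Finset.sum_add_distrib]
  congr 1
  · by_cases h0 : i = 0
    · simp [h0]
    · simp only [ne_eq, h0, not_false_eq_true, true_and, if_false]
      rw [Finset.sum_ite_eq', if_pos]
      apply mem_nbs_of_l1
      have := h.dist_eq (i := i - 1) (j := i) (by omega) hi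
      rw [l1_sub_comm, this]; omega
  · by_cases h0 : i = k
    · simp [h0]
    · simp only [ne_eq, h0, not_false_eq_true, true_and, if_false]
      rw [Finset.sum_ite_eq', if_pos]
      apply mem_nbs_of_l1
      have := h.dist_eq (i := i) (j := i + 1) (by omega) (by omega)
      rw [this]; omega

end Pool.Agent.Helper3.Crit
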