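import Pool.Agent.Helper3.Crit.SkelDefs
import Pool.Agent.Helper3.Crit.Path

/-! The Simon-Wolff alternative from the limit of the resolvent. -/

open scoped ENNReal NNReal InnerProductSpace
open MeasureTheory Set Filter Topology

noncomputable section

namespace Pool.Agent.Helper3.Crit

open Pool.Agent.Helper3.Anderson

variable {d : ℕ} {μ : Measure ℝ} [IsProbabilityMeasure μ] {M lam : ℝ} {K : ℝ≥0}

/-! ### summability -/

lemma summable_exp_int {a : ℝ} (ha : 0 < a) :
    Summable fun t : ℤ => Real.exp (-(a * (t.natAbs : ℝ))) := by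
  have h1 : Summable fun n : ℕ => Real.exp (-(a * (n : ℝ))) := by
    have : ∀ n : ℕ, Real.exp (-(a * (n : ℝ))) = Real.exp (-a) ^ n := by
      intro n; rw [← Real.exp_nat_mul]; ring_nf
    simp only [this]
    exact summable_geometric_of_lt_one (Real.exp_pos _).le (by rw [Real.exp_lt_one_iff]; linarith)
  refine Summable.of_nat_of_neg ?_ ?_
  · simpa using h1
  · simpa using h1

lemma summable_exp_l1 {a : ℝ} (ha : 0 < a) :
    ∀ d : ℕ, Summable fun y : Site d => Real.exp (-(a * (l1 y : ℝ)))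
  | 0 => by
    have : Finite (Site 0) := by unfold Site; infer_instance
    exact Summable.of_finite
  | d + 1 => by
    have h1 := summable_exp_int ha
    have h2 := summable_exp_l1 ha d
    have h3 := h1.mul_of_nonneg h2 (fun _ => (Real.exp_pos _).le) (fun _ => (Real.exp_pos _).le)
    rw [← (Fin.consEquiv (fun _ : Fin (d + 1) => ℤ)).summable_iff]
    refine h3.congr fun p => ?_
    simp only [Function.comp]
    rw [← Real.exp_add]
    congr 1
    have : l1 (Fin.consEquiv (fun _ : Fin (d + 1) => ℤ) p) = p.1.natAbs + l1 p.2 := by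
      unfold l1
      rw [Fin.sum_univ_succ]
      simp [Fin.consEquiv]
    rw [this]; push_cast; ring

lemma summable_exp_sn {a : ℝ} (ha : 0 < a) :
    Summable fun y : Site d => Real.exp (-(a * (sn y : ℝ))) := by
  have h := summable_exp_l1 (a := a / (d + 1)) (by positivity) d
  refine h.of_nonneg_of_le (fun _ => (Real.exp_pos _).le) fun y => ?_
  rw [Real.exp_le_exp]
  have h1 : (l1 y : ℝ) ≤ d * sn y := by exact_mod_cast l1_le_sn y
  have h2 : a / (d + 1) * (l1 y : ℝ) ≤ a * sn y := by
    rw [div_mul_eq_mul_div, div_le_iff₀ (by positivity)]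
    have h3 : (0 : ℝ) ≤ sn y := Nat.cast_nonneg _
    nlinarith
  linarith

lemma norm_le_sn (y : Site d) : ‖y‖ ≤ (sn y : ℝ) := by
  rw [pi_norm_le_iff_of_nonneg (Nat.cast_nonneg _)]
  intro i
  have := le_sn y i
  rw [Int.norm_eq_abs, ← Int.cast_abs, Int.abs_eq_natAbs]
  exact_mod_cast this

lemma memlp_of_decay {φ : Site d → ℂ} {C c : ℝ} (hc : 0 < c)
    (h : ∀ y, ‖φ y‖ ≤ C * Real.exp (-(c * sn y))) : Memℓp φ 2 := by
  refine memℓp_gen ?_
  have h1 := (summable_exp_sn (d := d) (a := 2 * c) (by positivity)).mul_left (C ^ 2)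
  refine h1.of_nonneg_of_le (fun _ => by positivity) fun y => ?_
  have h2 : ‖φ y‖ ^ (2 : ℝ≥0∞).toReal = ‖φ y‖ ^ 2 := by
    rw [← Real.rpow_natCast]; norm_num
  rw [h2]
  calc ‖φ y‖ ^ 2 ≤ (C * Real.exp (-(c * sn y))) ^ 2 := by
        gcongr
        exact h y
    _ = _ := by
        rw [mul_pow, ← Real.exp_nat_mul]; ring_nf

/-! ### weak convergence -/

lemma weak_of_pointwise {u : ℕ → L2 d} {B : ℝ} (hB : ∀ k, ‖u k‖ ≤ B)
    (hu : ∀ y, Tendsto (fun k => (u k : Site d → ℂ) y) atTop (𝓝 0)) {η : L2 d} {p : ℂ}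
    (hp : ∀ k, ⟪η, u k⟫_ℂ = p) : p = 0 := by
  have hsum : HasSum (fun i => lp.single 2 i (η i)) η := lp.hasSum_single (by norm_num) η
  have key : ∀ s : Finset (Site d), ‖p‖ ≤ ‖η - ∑ i ∈ s, lp.single 2 i (η i)‖ * B := by
    intro s
    have h1 : Tendsto (fun k => ‖∑ i ∈ s, (starRingEnd ℂ) (η i) * (u k : Site d → ℂ) i‖ +
        ‖η - ∑ i ∈ s, lp.single 2 i (η i)‖ * B) atTop
        (𝓝 (0 + ‖η - ∑ i ∈ s, lp.single 2 i (η i)‖ * B)) := by
      refine Tendsto.add ?_ tendsto_const_nhds
      have : Tendsto (fun k => ∑ i ∈ s, (starRingEnd ℂ) (η i) * (u k : Site d → ℂ) i) atTop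
          (𝓝 (∑ i ∈ s, (starRingEnd ℂ) (η i) * 0)) :=
        tendsto_finsetSum _ fun i _ => (hu i).const_mul _
      simp only [mul_zero, Finset.sum_const_zero] at this
      simpa using this.norm
    rw [zero_add] at h1
    refine ge_of_tendsto' h1 fun k => ?_
    have e1 : ⟪η, u k⟫_ℂ = ⟪∑ i ∈ s, lp.single 2 i (η i), u k⟫_ℂ +
        ⟪η - ∑ i ∈ s, lp.single 2 i (η i), u k⟫_ℂ := by
      rw [← inner_add_left]; congr 1; abel
    have e2 : ⟪∑ i ∈ s, lp.single 2 i (η i), u k⟫_ℂ =
        ∑ i ∈ s, (starRingEnd ℂ) (η i) * (u k : Site d → ℂ) i := by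
      rw [sum_inner]
      refine Finset.sum_congr rfl fun i _ => ?_
      rw [lp.inner_single_left]
      simp [mul_comm]
    rw [← hp k, e1, e2]
    refine (norm_add_le _ _).trans ?_
    gcongr
    refine (norm_inner_le_norm _ _).trans ?_
    gcongr
    exact hB k
  have h2 : Tendsto (fun s : Finset (Site d) => ‖η - ∑ i ∈ s, lp.single 2 i (η i)‖ * B) atTop
      (𝓝 0) := by
    have h3 : Tendsto (fun s : Finset (Site d) => η - ∑ i ∈ s, lp.single 2 i (η i)) atTop
        (𝓝 (η - η)) := tendsto_const_nhds.sub hsum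
    rw [sub_self] at h3
    simpa using h3.norm.mul_const B
  have h4 : ‖p‖ ≤ 0 := ge_of_tendsto' h2 key
  exact norm_le_zero_iff.mp h4

theorem sw_of_limit (V V' : Site d → ℝ) (hV : Bdd V) (hV' : Bdd V') (x : Site d)
    (h : ∀ y, y ≠ x → V y = V' y) (E : ℝ) {ε : ℕ → ℝ} (hε : ∀ k, 0 < ε k)
    (hε0 : Tendsto ε atTop (𝓝 0)) {φ : Site d → ℂ}
    (hφ : ∀ y, Tendsto (fun k => green V' ((E : ℂ) + ε k * Complex.I) y x) atTop (𝓝 (φ y)))
    (hdec : ∃ C c : ℝ, 0 < c ∧ ∀ y, ‖φ y‖ ≤ C * Real.exp (-(c * sn y))) : SW V hV x E := by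
  obtain ⟨C, c, hc, hdec⟩ := hdec
  have hmem : Memℓp φ 2 := memlp_of_decay hc hdec
  set Φ : L2 d := ⟨φ, hmem⟩ with hΦ
  have hΦy : ∀ y, (Φ : Site d → ℂ) y = φ y := fun y => rfl
  set z : ℕ → ℂ := fun k => (E : ℂ) + ε k * Complex.I with hz
  have hzim : ∀ k, (z k).im = ε k := fun k => by simp [hz]
  have hzim0 : ∀ k, 0 < (z k).im := fun k => by rw [hzim]; exact hε k
  have hz0 : Tendsto z atTop (𝓝 (E : ℂ)) := by
    have h1 : Tendsto (fun k => ((ε k : ℝ) : ℂ)) atTop (𝓝 ((0 : ℝ) : ℂ)) :=
      (Complex.continuous_ofReal.tendsto 0).comp hε0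
    have h2 := (h1.mul_const Complex.I).const_add (E : ℂ)
    simpa using h2
  -- the equation with the potential `V'`
  have heq : ∀ w, -lap φ w + (V' w : ℂ) * φ w - (E : ℂ) * φ w = if w = x then 1 else 0 := by
    intro w
    have h1 : Tendsto (fun k => -lap (fun w => green V' (z k) w x) w +
        (V' w : ℂ) * green V' (z k) w x - z k * green V' (z k) w x) atTop
        (𝓝 (-lap φ w + (V' w : ℂ) * φ w - (E : ℂ) * φ w)) := by
      refine Tendsto.sub (Tendsto.add (Tendsto.neg ?_) ((hφ w).const_mul _)) (hz0.mul (hφ w))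
      unfold lap
      refine tendsto_finsetSum _ fun j _ => ?_
      exact ((hφ _).sub (hφ _)).add ((hφ _).sub (hφ _))
    have h2 : ∀ k, -lap (fun w => green V' (z k) w x) w +
        (V' w : ℂ) * green V' (z k) w x - z k * green V' (z k) w x = if w = x then 1 else 0 :=
      fun k => green_equation V' hV' (hzim0 k) w x
    simp only [h2] at h1
    exact tendsto_nhds_unique tendsto_const_nhds h1 |>.symm
  have heq' : schr V' hV' Φ - (E : ℂ) • Φ = dl x := by
    ext w
    rw [lp.coeFn_sub, Pi.sub_apply, schr_apply, lp.coeFn_smul, Pi.smul_apply, dl_apply, smul_eq_mul]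
    exact heq w
  refine ⟨Φ, 1 + ((V x - V' x : ℝ) : ℂ) * φ x, ⟨C, c, hc, fun y => ?_⟩, ?_, ?_⟩
  · have hC : 0 ≤ C := by
      have h1 := (norm_nonneg _).trans (hdec y)
      by_contra hneg
      push Not at hneg
      have := mul_neg_of_neg_of_pos hneg (Real.exp_pos (-(c * sn y)))
      linarith
    refine (hdec y).trans ?_
    gcongr
    exact norm_le_sn y
  · ext w
    rw [lp.coeFn_sub, Pi.sub_apply, schr_apply, lp.coeFn_smul, Pi.smul_apply, lp.coeFn_smul,
      Pi.smul_apply, dl_apply, smul_eq_mul, smul_eq_mul]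
    have h1 := heq w
    have e : (V w : ℂ) * Φ w = (V' w : ℂ) * Φ w + ((V w - V' w : ℝ) : ℂ) * Φ w := by
      push_cast; ring
    rw [e]
    rw [← hΦy w] at h1
    by_cases hw : w = x
    · subst hw
      simp only [if_true] at h1 ⊢
      change -lap (Φ : Site d → ℂ) w + _ - _ = 1 at h1
      linear_combination h1
    · rw [if_neg hw] at h1 ⊢
      rw [h w hw]
      change -lap (Φ : Site d → ℂ) w + _ - _ = 0 at h1
      simp only [sub_self, Complex.ofReal_zero, zero_mul, add_zero, mul_zero]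
      exact h1
  · intro hc0
    refine ⟨?_, ?_⟩
    · intro hx
      change φ x = 0 at hx
      rw [hx] at hc0
      simp at hc0
    · intro η hη hηx
      have hη' : schr V' hV' η = (E : ℂ) • η := by
        rw [← hη]
        ext w
        rw [schr_apply, schr_apply]
        by_cases hw : w = x
        · subst hw; rw [hηx]; simp
        · rw [h w hw]
      set r : ℕ → L2 d := fun k => res V' hV' (z k) (dl x) with hr
      have hr0 : ∀ k, ⟪η, r k⟫_ℂ = 0 := by
        intro k
        have h1 := hz_res V' hV' (hzim0 k).ne' (dl x)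
        have h2 : schr V' hV' (r k) = dl x + z k • r k := by
          rw [← h1]
          simp [Anderson.hz, hr]
        have h3 : ⟪η, schr V' hV' (r k)⟫_ℂ = (E : ℂ) * ⟪η, r k⟫_ℂ := by
          rw [← inner_schr, hη', inner_smul_left]; simp
        rw [h2, inner_add_right, inner_smul_right] at h3
        have h4 : ⟪η, dl x⟫_ℂ = 0 := by
          rw [dl, lp.inner_single_right, hηx]; simp
        rw [h4, zero_add] at h3
        have h5 : (z k - E) * ⟪η, r k⟫_ℂ = 0 := by linear_combination h3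
        refine (mul_eq_zero.mp h5).resolve_left fun h6 => ?_
        have h7 := congrArg Complex.im h6
        simp only [Complex.sub_im, hzim, Complex.ofReal_im, sub_zero, Complex.zero_im] at h7
        exact (hε k).ne' h7
      have hrΦ : ∀ k, Φ - r k = -((z k - E) • res V' hV' (z k) Φ) := by
        intro k
        have h1 : dl x = Anderson.hz V' hV' (z k) Φ + (z k - E) • Φ := by
          rw [← heq']
          simp only [Anderson.hz, sub_apply, smul_apply, one_apply_eq_self, sub_smul]
          abel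
        have h2 : r k = Φ + (z k - E) • res V' hV' (z k) Φ := by
          simp only [hr]
          rw [h1, map_add, map_smul, res_hz V' hV' (hzim0 k).ne']
        rw [h2]; abel
      have hB : ∀ k, ‖Φ - r k‖ ≤ ‖Φ‖ := by
        intro k
        rw [hrΦ k, norm_neg, norm_smul]
        have h1 : ‖z k - E‖ = ε k := by
          simp [hz, abs_of_pos (hε k)]
        have h2 := norm_res_le V' hV' (hzim0 k) Φ
        rw [h1]
        rw [hzim] at h2
        calc ε k * ‖res V' hV' (z k) Φ‖ ≤ ε k * (‖Φ‖ / ε k) := by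
              gcongr
              exact (hε k).le
          _ = ‖Φ‖ := by field_simp [(hε k).ne']
      refine weak_of_pointwise (η := η) (u := fun k => Φ - r k) hB (fun y => ?_) fun k => ?_
      · have h1 : Tendsto (fun k => φ y - green V' (z k) y x) atTop (𝓝 (φ y - φ y)) :=
          tendsto_const_nhds.sub (hφ y)
        rw [sub_self] at h1
        refine h1.congr fun k => ?_
        rw [lp.coeFn_sub, Pi.sub_apply, green_eq V' hV']
      · rw [inner_sub_right, hr0, sub_zero]

end Pool.Agent.Helper3.Crit
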