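import Pool.Agent.Helper3.Crit.SkelDefs2
import Pool.Agent.Helper3.Crit.PureP
import Pool.Agent.Helper3.Crit.Trans
import Pool.Agent.Helper3.Crit.Swx

/-! Deterministic bound of the eigenfunction correlator (dynamical localisation). -/

open scoped ENNReal NNReal InnerProductSpace
open MeasureTheory Set Filter Topology

noncomputable section

namespace Pool.Agent.Helper3.Crit

open PP

section abstract

variable {𝓗 : Type*} [NormedAddCommGroup 𝓗] [InnerProductSpace ℂ 𝓗] [CompleteSpace 𝓗]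
  {H : 𝓗 →L[ℂ] 𝓗}

/-- the eigenvector given by an atom of the spectral measure -/
theorem exists_atom_norm (hH : IsSelfAdjoint H) {v : 𝓗} {ν : Measure ℝ} (h : IsSpec H v ν) (E : ℝ) :
    ∃ a : 𝓗, H a = (E : ℂ) • a ∧ ⟪v, a⟫_ℂ = ((ν.real {E} : ℝ) : ℂ) ∧ ‖a‖ ^ 2 = ν.real {E} ∧
      ∀ U : Set 𝓗, IsClosed U → (∀ g : ℂ → ℂ, Continuous g → cfc g H v ∈ U) → a ∈ U := by
  have hfin := h.fin
  have := hH.isStarNormal
  let f : ℕ → ℂ → ℂ := fun n z => ((hat E n z.re : ℝ) : ℂ)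
  have hf : ∀ n, Continuous (f n) := fun n =>
    Complex.continuous_ofReal.comp ((hat_cont E n).comp Complex.continuous_re)
  let a : ℕ → 𝓗 := fun n => cfc (f n) H v
  let k : ℕ → ℝ := fun n => ∫ t, (hat E n t - indicator {E} 1 t) ^ 2 ∂ν
  have hmeas : ∀ n, AEStronglyMeasurable (fun t => (hat E n t - indicator {E} 1 t) ^ 2) ν := by
    intro n
    refine Measurable.aestronglyMeasurable ?_
    exact ((hat_cont E n).measurable.sub (measurable_one.indicator (measurableSet_singleton E))).pow_const 2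
  have hle1 : ∀ n t, |hat E n t - indicator {E} 1 t| ≤ 1 := by
    intro n t
    have h0 := hat_nonneg E n t
    have h1 := hat_le_one E n t
    by_cases ht : t = E
    · subst ht; simp [hat_self]
    · rw [indicator_of_notMem (by simpa using ht), sub_zero, abs_of_nonneg h0]; exact h1
  have hint : ∀ n, Integrable (fun t => (hat E n t - indicator {E} 1 t) ^ 2) ν := by
    intro n
    refine Integrable.of_bound (hmeas n) 1 ?_
    refine Eventually.of_forall fun t => ?_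
    rw [Real.norm_eq_abs, abs_of_nonneg (sq_nonneg _), sq_le_one_iff_abs_le_one]
    exact hle1 n t
  have hk : Tendsto k atTop (𝓝 0) := by
    have h1 : Tendsto k atTop (𝓝 (∫ _t, (0 : ℝ) ∂ν)) := by
      refine tendsto_integral_of_dominated_convergence (fun _ => 1) hmeas (integrable_const _) ?_ ?_
      · intro n
        refine Eventually.of_forall fun t => ?_
        rw [Real.norm_eq_abs, abs_of_nonneg (sq_nonneg _), sq_le_one_iff_abs_le_one]
        exact hle1 n t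
      · refine Eventually.of_forall fun t => ?_
        have := ((hat_tendsto E t).sub_const (indicator {E} 1 t)).pow 2
        simpa using this
    simpa using h1
  have hcs : CauchySeq a := by
    refine cauchySeq_of_le_tendsto_0 (fun n => Real.sqrt (k n)) ?_ ?_
    · intro n m N hn hm
      rw [dist_eq_norm]
      refine Real.le_sqrt_of_sq_le ?_
      have e1 : a n - a m = cfc (fun z => f n z - f m z) H v := by
        rw [cfc_sub (f n) (f m) H (hf n).continuousOn (hf m).continuousOn]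
        rfl
      have hc : Continuous fun z => f n z - f m z := (hf n).sub (hf m)
      rw [e1, h.norm_sq hH hc]
      refine integral_mono (h.integrable (f := fun t : ℝ => ‖f n t - f m t‖ ^ 2) (by
        have h1 := (hf n).comp Complex.continuous_ofReal
        have h2 := (hf m).comp Complex.continuous_ofReal
        exact ((h1.sub h2).norm).pow 2)) (hint N) fun t => ?_
      have e2 : ‖f n t - f m t‖ = |hat E n t - hat E m t| := by
        simp only [f, Complex.ofReal_re]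
        rw [← Complex.ofReal_sub, Complex.norm_real, Real.norm_eq_abs]
      change ‖f n t - f m t‖ ^ 2 ≤ _
      rw [e2, sq_abs]
      by_cases ht : t = E
      · subst ht; simp [hat_self]
      · rw [indicator_of_notMem (by simpa using ht), sub_zero]
        have h1 := hat_nonneg E n t
        have h2 := hat_nonneg E m t
        have h3 := hat_anti E hn t
        have h4 := hat_anti E hm t
        apply sq_le_sq'
        · linarith
        · linarith
    · have := (Real.continuous_sqrt.tendsto 0).comp hk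
      rw [Real.sqrt_zero] at this
      exact this
  obtain ⟨b, hb⟩ := cauchySeq_tendsto_of_complete hcs
  refine ⟨b, ?_, ?_, ?_, ?_⟩
  · have h1 : Tendsto (fun n => H (a n) - (E : ℂ) • a n) atTop (𝓝 (H b - (E : ℂ) • b)) :=
      ((H.continuous.tendsto b).comp hb).sub (hb.const_smul _)
    have h2 : Tendsto (fun n => H (a n) - (E : ℂ) • a n) atTop (𝓝 0) := by
      rw [tendsto_zero_iff_norm_tendsto_zero]
      have h3 : ∀ n, ‖H (a n) - (E : ℂ) • a n‖ ≤ Real.sqrt ((1 / ((n : ℝ) + 1)) ^ 2 * ν.real univ) := by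
        intro n
        refine Real.le_sqrt_of_sq_le ?_
        have hc : Continuous fun z => (z - (E : ℂ)) * f n z :=
          (by fun_prop : Continuous fun z : ℂ => z - (E : ℂ)).mul (hf n)
        rw [← cfc_sub_smul hH, cfc_apply_mul hH (by fun_prop) (hf n), h.norm_sq hH hc]
        have e3 : ∀ t : ℝ, ‖((t : ℂ) - E) * f n t‖ ^ 2 = ((t - E) * hat E n t) ^ 2 := by
          intro t
          simp only [f, Complex.ofReal_re]
          rw [← Complex.ofReal_sub, ← Complex.ofReal_mul, Complex.norm_real, Real.norm_eq_abs, sq_abs]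
        simp only [e3]
        calc ∫ t, ((t - E) * hat E n t) ^ 2 ∂ν ≤ ∫ _t, (1 / ((n : ℝ) + 1)) ^ 2 ∂ν := by
              refine integral_mono (h.integrable (f := fun t : ℝ => ((t - E) * hat E n t) ^ 2) ?_)
                (integrable_const _) fun t => hat_mul_le E n t
              exact ((continuous_id.sub continuous_const).mul (hat_cont E n)).pow 2
          _ = _ := by rw [integral_const, smul_eq_mul, mul_comm]
      refine squeeze_zero (fun n => norm_nonneg _) h3 ?_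
      have h4 : Tendsto (fun n : ℕ => (1 / ((n : ℝ) + 1)) ^ 2 * ν.real univ) atTop
          (𝓝 (0 ^ 2 * ν.real univ)) :=
        (tendsto_one_div_add_atTop_nhds_zero_nat.pow 2).mul_const _
      have := (Real.continuous_sqrt.tendsto _).comp h4
      rw [zero_pow two_ne_zero, zero_mul, Real.sqrt_zero] at this
      exact this
    exact sub_eq_zero.1 (tendsto_nhds_unique h1 h2)
  · have h1 : Tendsto (fun n => ⟪v, a n⟫_ℂ) atTop (𝓝 ⟪v, b⟫_ℂ) := tendsto_const_nhds.inner hb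
    have h2 : ∀ n, ⟪v, a n⟫_ℂ = ((∫ t, hat E n t ∂ν : ℝ) : ℂ) := by
      intro n
      rw [h.int _ (hf n)]
      exact integral_ofReal
    have h3 : Tendsto (fun n => ∫ t, hat E n t ∂ν) atTop (𝓝 (∫ t, indicator {E} 1 t ∂ν)) := by
      refine tendsto_integral_of_dominated_convergence (fun _ => 1)
        (fun n => (hat_cont E n).aestronglyMeasurable) (integrable_const _) ?_ ?_
      · intro n
        refine Eventually.of_forall fun t => ?_
        rw [Real.norm_eq_abs, abs_of_nonneg (hat_nonneg E n t)]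
        exact hat_le_one E n t
      · exact Eventually.of_forall fun t => hat_tendsto E t
    rw [integral_indicator_one (measurableSet_singleton E)] at h3
    have h4 := (Complex.continuous_ofReal.tendsto _).comp h3
    refine tendsto_nhds_unique h1 ?_
    simp only [h2]
    exact h4
  · have h1 : Tendsto (fun n => ‖a n‖ ^ 2) atTop (𝓝 (‖b‖ ^ 2)) := hb.norm.pow 2
    have h2 : ∀ n, ‖a n‖ ^ 2 = ∫ t, hat E n t ^ 2 ∂ν := by
      intro n
      simp only [a]
      rw [h.norm_sq hH (hf n)]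
      congr 1
      ext t
      simp only [f, Complex.ofReal_re, Complex.norm_real, Real.norm_eq_abs, sq_abs]
    have h3 : Tendsto (fun n => ∫ t, hat E n t ^ 2 ∂ν) atTop (𝓝 (∫ t, indicator {E} 1 t ∂ν)) := by
      refine tendsto_integral_of_dominated_convergence (fun _ => 1)
        (fun n => ((hat_cont E n).pow 2).aestronglyMeasurable) (integrable_const _) ?_ ?_
      · intro n
        refine Eventually.of_forall fun t => ?_
        rw [Real.norm_eq_abs, abs_of_nonneg (sq_nonneg _)]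
        exact pow_le_one₀ (hat_nonneg E n t) (hat_le_one E n t)
      · refine Eventually.of_forall fun t => ?_
        have h4 := (hat_tendsto E t).pow 2
        have h5 : (indicator {E} (1 : ℝ → ℝ) t) ^ 2 = indicator {E} 1 t := by
          by_cases ht : t = E
          · subst ht; simp
          · rw [indicator_of_notMem (by simpa using ht)]; simp
        rw [h5] at h4
        exact h4
    rw [integral_indicator_one (measurableSet_singleton E)] at h3
    simp only [h2] at h1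
    exact tendsto_nhds_unique h1 h3
  · intro U hU hg
    exact hU.mem_of_tendsto hb (Eventually.of_forall fun n => hg _ (hf n))

omit [CompleteSpace 𝓗] in
/-- expansion with respect to a finite orthogonal family -/
theorem dyn_ortho {ι : Type*} (F : Finset ι) (u : ι → 𝓗) (n : ι → ℝ) (b : ι → ℂ) (z : 𝓗)
    (horth : ∀ i ∈ F, ∀ j ∈ F, i ≠ j → ⟪u i, u j⟫_ℂ = 0) (hn : ∀ i ∈ F, ‖u i‖ ^ 2 = n i)
    (hz : ∀ i ∈ F, ⟪u i, z⟫_ℂ = b i * n i) :
    ‖z - ∑ i ∈ F, b i • u i‖ ^ 2 = ‖z‖ ^ 2 - ∑ i ∈ F, ‖b i‖ ^ 2 * n i := by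
  set P := ∑ i ∈ F, b i • u i with hP
  have hself : ∀ i ∈ F, ⟪u i, u i⟫_ℂ = ((n i : ℝ) : ℂ) := by
    intro i hi
    rw [inner_self_eq_norm_sq_to_K, ← hn i hi]
    simp
  have h1 : ∀ i ∈ F, ⟪u i, P⟫_ℂ = b i * n i := by
    intro i hi
    rw [hP, inner_sum, Finset.sum_eq_single_of_mem i hi]
    · rw [inner_smul_right, hself i hi]
    · intro j hj hji
      rw [inner_smul_right, horth i hi j hj hji.symm, mul_zero]
  have hb : ∀ i, (starRingEnd ℂ) (b i) * (b i * n i) = ((‖b i‖ ^ 2 * n i : ℝ) : ℂ) := by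
    intro i
    rw [← mul_assoc, mul_comm ((starRingEnd ℂ) (b i)), Complex.mul_conj,
      Complex.normSq_eq_norm_sq]
    push_cast
    ring
  have h2 : ⟪P, P⟫_ℂ = ((∑ i ∈ F, ‖b i‖ ^ 2 * n i : ℝ) : ℂ) := by
    conv_lhs => rw [hP, sum_inner]
    rw [Complex.ofReal_sum]
    refine Finset.sum_congr rfl fun i hi => ?_
    rw [inner_smul_left, ← hP, h1 i hi, hb]
  have h3 : ⟪P, z⟫_ℂ = ((∑ i ∈ F, ‖b i‖ ^ 2 * n i : ℝ) : ℂ) := by
    rw [hP, sum_inner, Complex.ofReal_sum]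
    refine Finset.sum_congr rfl fun i hi => ?_
    rw [inner_smul_left, hz i hi, hb]
  have h4 := norm_sub_sq (𝕜 := ℂ) z P
  have h5 : RCLike.re ⟪z, P⟫_ℂ = ∑ i ∈ F, ‖b i‖ ^ 2 * n i := by
    rw [inner_re_symm, h3]
    exact Complex.ofReal_re _
  have h6 : ‖P‖ ^ 2 = ∑ i ∈ F, ‖b i‖ ^ 2 * n i := by
    rw [← inner_self_eq_norm_sq (𝕜 := ℂ), h2]
    exact Complex.ofReal_re _
  rw [h4, h5, h6]
  ring

/-- energies for which `v` is in the range of `H - E` -/
theorem dyn_null (hH : IsSelfAdjoint H) {v : 𝓗} {ν : Measure ℝ} (h : IsSpec H v ν) :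
    ν {E : ℝ | ∃ (φ : 𝓗) (c : ℂ), c ≠ 0 ∧ H φ - (E : ℂ) • φ = c • v} = 0 := by
  have hfin := h.fin
  refine null_of_little ?_
  rintro E ⟨φ, c, hc, hφ⟩ δ hδ
  have e1 : H (c⁻¹ • φ) - (E : ℂ) • (c⁻¹ • φ) = v := by
    rw [map_smul, smul_comm, ← smul_sub, hφ, smul_smul, inv_mul_cancel₀ hc, one_smul]
  obtain ⟨C, hC0, hC⟩ := ball_le hH h e1
  have hr0 : 0 < 2 * (δ : ℝ) / (C + 1) := by positivity
  filter_upwards [Ioo_mem_nhdsGT hr0] with r hr
  have h5 := hC r hr.1
  have h6 : C * r ^ 2 ≤ δ * (2 * r) := by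
    have : (C + 1) * r ≤ 2 * δ := by
      have := hr.2.le
      rwa [le_div_iff₀ (by positivity), mul_comm] at this
    have hrp := hr.1.le
    nlinarith
  rw [Real.volume_closedBall]
  have h7 : ν (Metric.closedBall E r) = ENNReal.ofReal (ν.real (Metric.closedBall E r)) := by
    rw [Measure.real, ENNReal.ofReal_toReal (measure_ne_top _ _)]
  rw [h7, ← ENNReal.ofReal_coe_nnreal, ← ENNReal.ofReal_mul (by positivity)]
  exact ENNReal.ofReal_le_ofReal (h5.trans h6)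

end abstract

open Pool.Agent.Helper3.Anderson

variable {d : ℕ}

theorem dyn_coord (u : L2 d) (y : Site d) : u y = ⟪dl y, u⟫_ℂ := by
  rw [dl, lp.inner_single_left]
  simp

theorem dyn_orth (V : Site d → ℝ) (hV : Bdd V) {E E' : ℝ} (hEE : E ≠ E') {a b : L2 d}
    (ha : schr V hV a = (E : ℂ) • a) (hb : schr V hV b = (E' : ℂ) • b) : ⟪a, b⟫_ℂ = 0 := by
  have h1 := inner_schr V hV a b
  rw [ha, hb, inner_smul_left, inner_smul_right, Complex.conj_ofReal] at h1
  have h2 : ((E : ℂ) - (E' : ℂ)) * ⟪a, b⟫_ℂ = 0 := by linear_combination h1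
  rcases mul_eq_zero.1 h2 with h3 | h3
  · exact absurd (by exact_mod_cast sub_eq_zero.1 h3) hEE
  · exact h3

theorem dyn_count (V : Site d → ℝ) (hV : Bdd V) (x : Site d) :
    {E : ℝ | ∃ φ : L2 d, schr V hV φ = (E : ℂ) • φ ∧ φ x ≠ 0}.Countable := by
  set A2 : Set ℝ := {E : ℝ | ∃ φ : L2 d, schr V hV φ = (E : ℂ) • φ ∧ φ x ≠ 0} with hA2def
  choose! Φ hΦ using fun (E : ℝ) (hE : E ∈ A2) => hE
  have hne : ∀ E ∈ A2, Φ E ≠ 0 := fun E hE h0 => (hΦ E hE).2 (by rw [h0]; rfl)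
  let w : A2 → L2 d := fun E => ((‖Φ E‖ : ℂ)⁻¹) • Φ E
  have horth : Orthonormal ℂ w := by
    constructor
    · intro E
      have := norm_ne_zero_iff.2 (hne E E.2)
      simp only [w, norm_smul, norm_inv, Complex.norm_real, norm_norm]
      exact inv_mul_cancel₀ this
    · intro E E' hEE
      simp only [w, inner_smul_left, inner_smul_right]
      have h0 : ⟪Φ E, Φ E'⟫_ℂ = 0 :=
        dyn_orth V hV (fun h => hEE (Subtype.ext h)) (hΦ E E.2).1 (hΦ E' E'.2).1
      rw [h0]; simp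
  have hsum := horth.inner_products_summable (dl x)
  have hsupp := hsum.countable_support
  have : Function.support (fun i : A2 => ‖⟪w i, dl x⟫_ℂ‖ ^ 2) = univ := by
    ext E
    simp only [Function.mem_support, mem_univ, iff_true]
    have h1 : ⟪w E, dl x⟫_ℂ ≠ 0 := by
      rw [← inner_conj_symm, ← dyn_coord]
      simp only [w, lp.coeFn_smul, Pi.smul_apply, smul_eq_mul]
      have h2 := (hΦ E E.2).2
      have h3 := norm_ne_zero_iff.2 (hne E E.2)
      rw [Ne, map_eq_zero]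
      exact mul_ne_zero (inv_ne_zero (by exact_mod_cast h3)) h2
    exact pow_ne_zero 2 (norm_ne_zero_iff.2 h1)
  rw [this, countable_univ_iff] at hsupp
  exact countable_coe_iff.1 hsupp

/-- Hölder's inequality for the weights of the eigenfunctions -/
theorem dyn_holder {ι : Type*} (F : Finset ι) (n κ : ι → ℝ≥0∞) {B : ℝ≥0∞}
    (h1 : ∑ i ∈ F, κ i ^ (1 / 8 : ℝ) * n i ≤ B) (h2 : ∑ i ∈ F, κ i ^ 2 * n i ≤ 1) :
    ∑ i ∈ F, κ i * n i ≤ B ^ (8 / 15 : ℝ) := by
  have hpq : (15 / 8 : ℝ).HolderConjugate (15 / 7) := by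
    rw [Real.holderConjugate_iff]; norm_num
  have h3 := ENNReal.inner_le_Lp_mul_Lq F (fun i => (κ i ^ (1 / 8 : ℝ) * n i) ^ (8 / 15 : ℝ))
    (fun i => (κ i ^ 2 * n i) ^ (7 / 15 : ℝ)) hpq
  have e1 : ∀ i, (κ i ^ (1 / 8 : ℝ) * n i) ^ (8 / 15 : ℝ) * (κ i ^ 2 * n i) ^ (7 / 15 : ℝ)
      = κ i * n i := by
    intro i
    rw [← ENNReal.rpow_natCast (κ i) 2]
    rw [ENNReal.mul_rpow_of_nonneg _ _ (by norm_num), ENNReal.mul_rpow_of_nonneg _ _ (by norm_num),
      ← ENNReal.rpow_mul, ← ENNReal.rpow_mul]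
    calc κ i ^ (1 / 8 * (8 / 15) : ℝ) * n i ^ (8 / 15 : ℝ)
          * (κ i ^ (((2 : ℕ) : ℝ) * (7 / 15)) * n i ^ (7 / 15 : ℝ))
        = (κ i ^ (1 / 8 * (8 / 15) : ℝ) * κ i ^ (((2 : ℕ) : ℝ) * (7 / 15)))
          * (n i ^ (8 / 15 : ℝ) * n i ^ (7 / 15 : ℝ)) := by ring
      _ = κ i * n i := by
          rw [← ENNReal.rpow_add_of_nonneg _ _ (by norm_num) (by norm_num),
            ← ENNReal.rpow_add_of_nonneg _ _ (by norm_num) (by norm_num)]
          norm_num
  have e2 : ∀ i, ((κ i ^ (1 / 8 : ℝ) * n i) ^ (8 / 15 : ℝ)) ^ (15 / 8 : ℝ)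
      = κ i ^ (1 / 8 : ℝ) * n i := by
    intro i; rw [← ENNReal.rpow_mul]; norm_num
  have e3 : ∀ i, ((κ i ^ 2 * n i) ^ (7 / 15 : ℝ)) ^ (15 / 7 : ℝ) = κ i ^ 2 * n i := by
    intro i; rw [← ENNReal.rpow_mul]; norm_num
  simp only [e1, e2, e3] at h3
  refine h3.trans ?_
  calc (∑ i ∈ F, κ i ^ (1 / 8 : ℝ) * n i) ^ (1 / (15 / 8) : ℝ)
        * (∑ i ∈ F, κ i ^ 2 * n i) ^ (1 / (15 / 7) : ℝ)
      ≤ B ^ (1 / (15 / 8) : ℝ) * 1 ^ (1 / (15 / 7) : ℝ) :=
        mul_le_mul' (ENNReal.rpow_le_rpow h1 (by norm_num)) (ENNReal.rpow_le_rpow h2 (by norm_num))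
    _ = B ^ (8 / 15 : ℝ) := by rw [ENNReal.one_rpow, mul_one]; norm_num

theorem dyn_det (V V' : Site d → ℝ) (hV : Bdd V) (hV' : Bdd V') (x : Site d)
    (h : ∀ y, y ≠ x → V y = V' y) {U : Set ℝ} (hU : MeasurableSet U) {ε : ℕ → ℝ}
    (hε : ∀ k, 0 < ε k) (hε0 : Tendsto ε atTop (𝓝 0)) (g : ℝ → Site d → ℂ)
    (hg : ∀ ν : Measure ℝ, IsFiniteMeasure ν →
      (∀ z : ℂ, 0 < z.im → ∫ t : ℝ, z.im / ‖(t : ℂ) - z‖ ^ 2 ∂ν ≤ (green V z x x).im) →
      ∀ᵐ E ∂ν, E ∈ U →
        (∀ y, Tendsto (fun k => green V' ((E : ℂ) + ε k * Complex.I) y x) atTop (𝓝 (g E y))) ∧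
        ∃ C c : ℝ, 0 < c ∧ ∀ y, ‖g E y‖ ≤ C * Real.exp (-(c * sn y)))
    (y : Site d) {B : ℝ≥0∞}
    (hB : ∀ ν : Measure ℝ, IsFiniteMeasure ν →
      (∀ z : ℂ, 0 < z.im → ∫ t : ℝ, z.im / ‖(t : ℂ) - z‖ ^ 2 ∂ν ≤ (green V z x x).im) →
      ∫⁻ E in U, (‖V x - V' x‖ₑ * ‖g E y‖ₑ) ^ (1 / 8 : ℝ) ∂ν ≤ B)
    (f : ℂ → ℂ) (hf : Continuous f) (hf1 : ∀ t : ℝ, ‖f t‖ ≤ 1) (hfU : ∀ E : ℝ, E ∉ U → f E = 0) :
    ‖(cfc f (schr V hV) (dl x) : L2 d) y‖ₑ ≤ B ^ (8 / 15 : ℝ) := by
  have hH := isSelfAdjoint_schr V hV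
  have hstar := hH.isStarNormal
  set H := schr V hV with hHdef
  obtain ⟨ν, hν1, hν2, hν3⟩ := exists_specMeasure H hH (dl x)
  have hν : IsSpec H (dl x) ν := ⟨hν1, hν2, hν3⟩
  -- the Borel transform
  have htr : ∀ z : ℂ, 0 < z.im → ∫ t : ℝ, z.im / ‖(t : ℂ) - z‖ ^ 2 ∂ν ≤ (green V z x x).im := by
    intro z hz
    obtain ⟨G, hG, hG1, hG2⟩ := cfc_res V hV hz
    rw [← ward V hV hz x, ← hG2, hν.norm_sq hH hG, ← integral_const_mul]
    refine le_of_eq ?_
    congr 1
    ext t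
    rw [hG1, norm_inv, inv_pow, div_eq_mul_inv]
  have hgν := hg ν hν1 htr
  have hBν := hB ν hν1 htr
  set w : ℂ := ((V x - V' x : ℝ) : ℂ) with hw
  set A : Set ℝ := {E | E ∈ U ∧
    ((∀ y, Tendsto (fun k => green V' ((E : ℂ) + ε k * Complex.I) y x) atTop (𝓝 (g E y))) ∧
        ∃ C c : ℝ, 0 < c ∧ ∀ y, ‖g E y‖ ≤ C * Real.exp (-(c * sn y))) ∧
    1 + w * g E x = 0} with hA
  -- the eigenfunctions
  have hφ : ∀ E ∈ A, ∃ φ : L2 d, (φ : Site d → ℂ) = g E ∧ H φ = (E : ℂ) • φ ∧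
      ∀ η : L2 d, schr V' hV' η = (E : ℂ) • η → η x = 0 → ⟪η, φ⟫_ℂ = 0 := by
    rintro E ⟨hEU, ⟨h1, h2⟩, h3⟩
    obtain ⟨φ, e1, -, e2, e3⟩ := sw_explicit V V' hV hV' x h E hε hε0 h1 h2
    refine ⟨φ, e1, ?_, e3⟩
    rw [h3, zero_smul, sub_eq_zero] at e2
    exact e2
  have hgx : ∀ E ∈ A, g E x ≠ 0 := by
    rintro E ⟨-, -, h3⟩ h0
    rw [h0, mul_zero, add_zero] at h3
    exact one_ne_zero h3
  have hAc : A.Countable := by
    refine (dyn_count V hV x).mono fun E hE => ?_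
    obtain ⟨φ, e1, e2, -⟩ := hφ E hE
    exact ⟨φ, e2, by rw [e1]; exact hgx E hE⟩
  have hAae : ∀ᵐ E ∂ν, E ∈ U → E ∈ A := by
    have h1 : ∀ᵐ E ∂ν, ¬ ∃ (φ : L2 d) (c : ℂ), c ≠ 0 ∧ H φ - ((E : ℝ) : ℂ) • φ = c • dl x := by
      rw [ae_iff]; simpa using dyn_null hH hν
    filter_upwards [hgν, h1] with E hE1 hE2 hEU
    refine ⟨hEU, hE1 hEU, ?_⟩
    by_contra hne
    obtain ⟨φ, e1, -, e2, e3⟩ := sw_explicit V V' hV hV' x h E hε hε0 (hE1 hEU).1 (hE1 hEU).2
    exact hE2 ⟨φ, _, hne, e2⟩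
  -- the atoms
  choose u hu1 hu2 hu3 hu4 using fun E : ℝ => exists_atom_norm hH hν E
  have hux : ∀ E, (u E) x = ((ν.real {E} : ℝ) : ℂ) := fun E => by rw [dyn_coord, hu2]
  have hform : ∀ E ∈ A, ∀ y, (u E) y = -(w * g E y) * ((ν.real {E} : ℝ) : ℂ) := by
    intro E hE
    obtain ⟨φ, e1, e2, e3⟩ := hφ E hE
    set η : L2 d := u E + (w * ((ν.real {E} : ℝ) : ℂ)) • φ with hη
    have hηy : ∀ y, η y = (u E) y + (w * ((ν.real {E} : ℝ) : ℂ)) * g E y := by
      intro y
      rw [hη, lp.coeFn_add, Pi.add_apply, lp.coeFn_smul, Pi.smul_apply, smul_eq_mul, e1]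
    have hηx : η x = 0 := by
      have h3 : 1 + w * g E x = 0 := hE.2.2
      rw [hηy, hux]
      linear_combination ((ν.real {E} : ℝ) : ℂ) * h3
    have hη1 : H η = (E : ℂ) • η := by
      rw [hη, map_add, map_smul, hu1, e2, smul_add, smul_comm]
    have hη2 : schr V' hV' η = (E : ℂ) • η := by
      rw [← hη1]
      ext v
      rw [hHdef, schr_apply, schr_apply]
      by_cases hv : v = x
      · subst hv; rw [hηx]; simp
      · rw [h v hv]
    have h4 : ⟪η, φ⟫_ℂ = 0 := e3 η hη2 hηx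
    have h5 : ⟪η, u E⟫_ℂ = 0 := by
      have hcl : IsClosed {b : L2 d | ⟪η, b⟫_ℂ = 0} :=
        isClosed_eq (continuous_const.inner continuous_id) continuous_const
      refine hu4 E _ hcl fun G hG => ?_
      show ⟪η, cfc G H (dl x)⟫_ℂ = 0
      rw [inner_cfc_right, cfc_eigenvector hH hη1 hG.star, inner_smul_left, ← inner_conj_symm,
        ← dyn_coord, hηx]
      simp
    have h6 : ⟪η, η⟫_ℂ = 0 := by
      conv_lhs => rw [hη]
      rw [← hη, inner_add_right, inner_smul_right, h5, h4]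
      simp
    have h7 : η = 0 := inner_self_eq_zero.1 h6
    intro y
    have h8 : η y = 0 := by rw [h7]; rfl
    rw [hηy] at h8
    linear_combination h8
  have horth : ∀ E E' : ℝ, E ≠ E' → ⟪u E, u E'⟫_ℂ = 0 := fun E E' hEE =>
    dyn_orth V hV hEE (hu1 E) (hu1 E')
  set ψ : L2 d := cfc f H (dl x) with hψ
  have huψ : ∀ E, ⟪u E, ψ⟫_ℂ = f E * ((ν.real {E} : ℝ) : ℂ) := by
    intro E
    rw [hψ, inner_cfc_right, cfc_eigenvector hH (hu1 E) hf.star, inner_smul_left,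
      ← inner_conj_symm, hu2]
    simp
  -- convergence of the eigenfunction expansion
  have hD : ∀ F : Finset A, ‖ψ - ∑ E ∈ F, f (E : ℝ) • u E‖ ^ 2
      = ‖ψ‖ ^ 2 - ∑ E ∈ F, ‖f ((E : ℝ) : ℂ)‖ ^ 2 * ν.real {(E : ℝ)} := by
    intro F
    refine dyn_ortho F (fun E => u E) (fun E => ν.real {(E : ℝ)}) (fun E => f ((E : ℝ) : ℂ)) ψ ?_ ?_ ?_
    · intro i _ j _ hij
      exact horth i j fun h => hij (Subtype.ext h)
    · intro i _; exact hu3 i
    · intro i _; exact huψ i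
  have hI : ‖ψ‖ ^ 2 = ∑' E : A, ‖f ((E : ℝ) : ℂ)‖ ^ 2 * ν.real {(E : ℝ)} := by
    have e1 : ‖ψ‖ ^ 2 = ∫ t : ℝ, ‖f t‖ ^ 2 ∂ν := hν.norm_sq hH hf
    have e2 : ∫ t in A, ‖f (t : ℂ)‖ ^ 2 ∂ν = ∫ t : ℝ, ‖f (t : ℂ)‖ ^ 2 ∂ν := by
      refine setIntegral_eq_integral_of_ae_compl_eq_zero ?_
      filter_upwards [hAae] with t ht htA
      by_cases htU : t ∈ U
      · exact absurd (ht htU) htA
      · rw [hfU t htU]; simp
    have e3 : Integrable (fun t : ℝ => ‖f (t : ℂ)‖ ^ 2) ν :=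
      hν.integrable (f := fun t : ℝ => ‖f (t : ℂ)‖ ^ 2)
        ((hf.comp Complex.continuous_ofReal).norm.pow 2)
    rw [e1, ← e2, setIntegral_countable _ hAc e3.integrableOn]
    refine tsum_congr fun E => ?_
    rw [smul_eq_mul, mul_comm]
  have hsumm : Summable fun E : A => ‖f ((E : ℝ) : ℂ)‖ ^ 2 * ν.real {(E : ℝ)} := by
    refine summable_of_sum_le (c := ‖ψ‖ ^ 2) (fun E => by positivity) fun F => ?_
    have := hD F
    have h2 : 0 ≤ ‖ψ - ∑ E ∈ F, f (E : ℝ) • u E‖ ^ 2 := by positivity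
    linarith
  have hconv : Tendsto (fun F : Finset A => ∑ E ∈ F, f ((E : ℝ) : ℂ) • u E) atTop (𝓝 ψ) := by
    rw [tendsto_iff_norm_sub_tendsto_zero]
    have h1 : Tendsto (fun F : Finset A => ‖ψ - ∑ E ∈ F, f (E : ℝ) • u E‖ ^ 2) atTop (𝓝 0) := by
      simp only [hD]
      have h2 := hsumm.hasSum.const_sub (‖ψ‖ ^ 2)
      rw [← hI, sub_self] at h2
      exact h2
    have h2 := (Real.continuous_sqrt.tendsto 0).comp h1
    rw [Real.sqrt_zero] at h2
    refine h2.congr fun F => ?_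
    rw [Function.comp, Real.sqrt_sq (norm_nonneg _), norm_sub_rev]
  have hbound : ∀ F : Finset A, ‖(∑ E ∈ F, f ((E : ℝ) : ℂ) • u E : L2 d) y‖ₑ ≤ B ^ (8 / 15 : ℝ) := by
    intro F
    have h1 : (∑ E ∈ F, f ((E : ℝ) : ℂ) • u E : L2 d) y
        = ∑ E ∈ F, f ((E : ℝ) : ℂ) * (u E) y := by
      rw [dyn_coord, inner_sum]
      refine Finset.sum_congr rfl fun E _ => ?_
      rw [inner_smul_right, ← dyn_coord]
    have hν' : ∀ E : ℝ, ‖((ν.real {E} : ℝ) : ℂ)‖ₑ = ν {E} := by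
      intro E
      rw [← ofReal_norm, Complex.norm_real, Real.norm_eq_abs, abs_of_nonneg measureReal_nonneg,
        Measure.real, ENNReal.ofReal_toReal (measure_ne_top _ _)]
    have hw' : ‖w‖ₑ = ‖V x - V' x‖ₑ := by
      rw [hw, ← ofReal_norm, Complex.norm_real, ofReal_norm]
    rw [h1]
    calc ‖∑ E ∈ F, f ((E : ℝ) : ℂ) * (u E) y‖ₑ
        ≤ ∑ E ∈ F, ‖f ((E : ℝ) : ℂ) * (u E) y‖ₑ := enorm_sum_le _ _
      _ ≤ ∑ E ∈ F, (‖V x - V' x‖ₑ * ‖g E y‖ₑ) * ν {(E : ℝ)} := by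
          refine Finset.sum_le_sum fun E _ => ?_
          rw [enorm_mul, hform E E.2 y, enorm_mul, enorm_neg, enorm_mul, hν', hw']
          have hf1' : ‖f ((E : ℝ) : ℂ)‖ₑ ≤ 1 := by
            rw [← ofReal_norm, ← ENNReal.ofReal_one]
            exact ENNReal.ofReal_le_ofReal (hf1 E)
          calc ‖f ((E : ℝ) : ℂ)‖ₑ * (‖V x - V' x‖ₑ * ‖g E y‖ₑ * ν {(E : ℝ)})
              ≤ 1 * (‖V x - V' x‖ₑ * ‖g E y‖ₑ * ν {(E : ℝ)}) := mul_le_mul' hf1' le_rfl
            _ = _ := one_mul _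
      _ ≤ B ^ (8 / 15 : ℝ) := by
          refine dyn_holder F (fun E => ν {(E : ℝ)}) (fun E => ‖V x - V' x‖ₑ * ‖g E y‖ₑ) ?_ ?_
          · have h2 := lintegral_finset (μ := ν) (F.map ⟨Subtype.val, Subtype.val_injective⟩)
              (fun E => (‖V x - V' x‖ₑ * ‖g E y‖ₑ) ^ (1 / 8 : ℝ))
            rw [Finset.sum_map] at h2
            refine (le_of_eq h2.symm).trans ?_
            refine (lintegral_mono_set ?_).trans hBν
            intro E hE
            rw [Finset.mem_coe, Finset.mem_map] at hE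
            obtain ⟨E', -, rfl⟩ := hE
            exact E'.2.1
          · have h2 := dyn_ortho F (fun E => u E) (fun E => ν.real {(E : ℝ)})
              (fun E => -(starRingEnd ℂ) (w * g E y)) (dl y)
              (fun i _ j _ hij => horth i j fun h => hij (Subtype.ext h)) (fun i _ => hu3 i)
              (fun i _ => by
                rw [← inner_conj_symm, ← dyn_coord, hform i i.2 y]
                simp)
            have h3 : 0 ≤ ‖dl y - ∑ E ∈ F, (-(starRingEnd ℂ) (w * g E y)) • u E‖ ^ 2 := by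
              positivity
            rw [h2, norm_dl] at h3
            have h4 : ∑ E ∈ F, ‖w * g E y‖ ^ 2 * ν.real {(E : ℝ)} ≤ 1 := by
              have e : ∀ E : A, ‖-(starRingEnd ℂ) (w * g E y)‖ = ‖w * g E y‖ := by
                intro E; rw [norm_neg, RCLike.norm_conj]
              simp only [e] at h3
              linarith
            have h5 : ∑ E ∈ F, (‖V x - V' x‖ₑ * ‖g E y‖ₑ) ^ 2 * ν {(E : ℝ)}
                = ENNReal.ofReal (∑ E ∈ F, ‖w * g E y‖ ^ 2 * ν.real {(E : ℝ)}) := by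
              rw [ENNReal.ofReal_sum_of_nonneg (fun E _ => by positivity)]
              refine Finset.sum_congr rfl fun E _ => ?_
              rw [ENNReal.ofReal_mul (by positivity), ENNReal.ofReal_pow (norm_nonneg _),
                ofReal_norm, enorm_mul, hw', Measure.real,
                ENNReal.ofReal_toReal (measure_ne_top _ _)]
            rw [h5, ← ENNReal.ofReal_one]
            exact ENNReal.ofReal_le_ofReal h4
  have hcont : Continuous fun a : L2 d => ‖a y‖ₑ := by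
    have h1 : Continuous fun a : L2 d => a y := by
      have : (fun a : L2 d => a y) = fun a => ⟪dl y, a⟫_ℂ := by
        funext a; exact dyn_coord a y
      rw [this]
      exact continuous_const.inner continuous_id
    exact h1.enorm
  exact le_of_tendsto' ((hcont.tendsto ψ).comp hconv) hbound

end Pool.Agent.Helper3.Crit
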