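import Pool.Agent.Helper3.Crit.SpecAvg

/-! Spectral averaging for functions. -/

open scoped ENNReal NNReal InnerProductSpace
open MeasureTheory Set Filter Topology

noncomputable section

namespace Pool.Agent.Helper3.Crit

open Pool.Agent.Helper3.Anderson ProbabilityTheory

variable {d : ℕ} {μ : Measure ℝ} [IsProbabilityMeasure μ] {M lam : ℝ} {K : ℝ≥0}

lemma sa_liminf_lsc {G : ℝ → ℝ≥0∞} (hG : LowerSemicontinuous G) (t : ℝ) :
    G t ≤ liminf (fun j => ∫⁻ E, G E * cauchyPDF t (saEps j) E) atTop := by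
  refine le_of_forall_lt_imp_le_of_dense fun a ha => ?_
  have hO : IsOpen {E | a < G E} := hG.isOpen_preimage a
  have hane : a ≠ ⊤ := (lt_of_lt_of_le ha le_top).ne
  have h1 := sa_liminf_cauchy hO (t := t) ha
  have h2 : ∀ j, a * ∫⁻ E in {E | a < G E}, cauchyPDF t (saEps j) E
      ≤ ∫⁻ E, G E * cauchyPDF t (saEps j) E := by
    intro j
    rw [← lintegral_const_mul' _ _ hane]
    refine (setLIntegral_mono' hO.measurableSet fun E hE => ?_).trans
      (setLIntegral_le_lintegral _ _)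
    exact mul_le_mul' (le_of_lt hE) le_rfl
  refine le_of_forall_lt_imp_le_of_dense fun b hb => ?_
  rcases eq_or_ne a 0 with h0 | h0
  · rw [h0] at hb; exact absurd hb not_lt_bot
  have hb' : b / a < 1 := by
    rw [ENNReal.div_lt_iff (Or.inl h0) (Or.inl hane), one_mul]; exact hb
  have h3 : ∀ᶠ j in atTop, b / a < ∫⁻ E in {E | a < G E}, cauchyPDF t (saEps j) E :=
    eventually_lt_of_lt_liminf (lt_of_lt_of_le hb' h1)
  refine le_liminf_of_le (by isBoundedDefault) ?_
  filter_upwards [h3] with j hj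
  refine le_trans ?_ (h2 j)
  rw [ENNReal.div_lt_iff (Or.inl h0) (Or.inl hane)] at hj
  rw [mul_comm]
  exact hj.le

lemma sa_lintegral_le {G : ℝ → ℝ≥0∞} (hG : LowerSemicontinuous G) {ν : Measure ℝ}
    [IsFiniteMeasure ν] {p : ℕ → ℝ → ℝ≥0∞}
    (hp : ∀ (j : ℕ) (E : ℝ), ENNReal.ofReal (Real.pi⁻¹ *
      ∫ t : ℝ, ((E : ℂ) + (saEps j : ℝ) * Complex.I).im
        / ‖(t : ℂ) - ((E : ℂ) + (saEps j : ℝ) * Complex.I)‖ ^ 2 ∂ν) ≤ p j E) :
    ∫⁻ t, G t ∂ν ≤ liminf (fun j => ∫⁻ E, G E * p j E) atTop := by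
  have hGm : Measurable G := hG.measurable
  have hjm : ∀ γ : ℝ≥0, Measurable (Function.uncurry fun t E : ℝ => G E * cauchyPDF t γ E) := by
    intro γ
    have h1 : (Function.uncurry fun t E : ℝ => G E * cauchyPDF t γ E) = fun q : ℝ × ℝ =>
        G q.2 * ENNReal.ofReal (Real.pi⁻¹ * γ * ((q.2 - q.1) ^ 2 + (γ : ℝ) ^ 2)⁻¹) := by
      funext q; rfl
    rw [h1]
    fun_prop
  have hqm : ∀ j, Measurable fun t => ∫⁻ E, G E * cauchyPDF t (saEps j) E := fun j =>
    Measurable.lintegral_prod_right (hjm (saEps j))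
  calc ∫⁻ t, G t ∂ν
      ≤ ∫⁻ t, liminf (fun j => ∫⁻ E, G E * cauchyPDF t (saEps j) E) atTop ∂ν :=
        lintegral_mono fun t => sa_liminf_lsc hG t
    _ ≤ liminf (fun j => ∫⁻ t, (∫⁻ E, G E * cauchyPDF t (saEps j) E) ∂ν) atTop :=
        lintegral_liminf_le hqm
    _ ≤ liminf (fun j => ∫⁻ E, G E * p j E) atTop := by
        refine liminf_le_liminf (Eventually.of_forall fun j => ?_)
        rw [lintegral_lintegral_swap (hjm (saEps j)).aemeasurable]
        refine lintegral_mono fun E => ?_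
        have hm : Measurable fun t : ℝ => cauchyPDF t (saEps j) E := by
          have h1 : (fun t : ℝ => cauchyPDF t (saEps j) E) = fun t : ℝ =>
            ENNReal.ofReal (Real.pi⁻¹ * (saEps j) * ((E - t) ^ 2 + (saEps j : ℝ) ^ 2)⁻¹) := rfl
          rw [h1]
          fun_prop
        rw [lintegral_const_mul _ hm, sa_poisson E (saEps j) (saEps_ne j)]
        exact mul_le_mul' le_rfl (hp j E)

theorem spec_avg_fun (hμ : GoodLaw μ M K) (hlam : 0 < lam) (x : Site d) (t0 : ℝ)
    {h : ℝ × (Site d → ℝ) → ℝ≥0∞} (hh : Measurable h) {b : ℝ≥0∞}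
    (hint : ∫⁻ ω, (∫⁻ E : ℝ, h (E, Function.update ω x t0)) ∂(PP d μ) < b) :
    ∃ Hb : (Site d → ℝ) → ℝ≥0∞, Measurable Hb ∧
      ∫⁻ ω, Hb ω ∂(PP d μ) ≤ ENNReal.ofReal (K / lam) * b ∧
      ∀ ω, ∀ ν : Measure ℝ, IsFiniteMeasure ν →
        (∀ z : ℂ, 0 < z.im → ∫ t : ℝ, z.im / ‖(t : ℂ) - z‖ ^ 2 ∂ν ≤ (gc M lam z ω x x).im) →
        ∫⁻ E, h (E, Function.update ω x t0) ∂ν ≤ Hb ω := by
  have hM : 0 ≤ M := by linarith [hμ.one_le]
  set T : (Site d → ℝ) → (Site d → ℝ) := fun ω => Function.update ω x t0 with hT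
  have hTm : Measurable T :=
    (measurable_update_prod x).comp (measurable_id.prodMk measurable_const)
  set P0 : Measure (Site d → ℝ) := (PP d μ).map T with hP0
  have : IsProbabilityMeasure P0 := Measure.isProbabilityMeasure_map hTm.aemeasurable
  -- integrals with respect to the product measure
  have hprod : ∀ g : ℝ × (Site d → ℝ) → ℝ≥0∞, Measurable g →
      ∫⁻ q, g q ∂((volume : Measure ℝ).prod P0)
        = ∫⁻ ω, (∫⁻ E : ℝ, g (E, T ω)) ∂(PP d μ) := by
    intro g hg
    have h1 : Measurable fun ω : Site d → ℝ => ∫⁻ E : ℝ, g (E, ω) :=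
      Measurable.lintegral_prod_left (f := fun E ω => g (E, ω)) hg
    rw [lintegral_prod_symm' g hg, hP0, lintegral_map h1 hTm]
  have hint' : ∫⁻ q, h q ∂((volume : Measure ℝ).prod P0) < b := by rw [hprod h hh]; exact hint
  obtain ⟨g, hhg, hglsc, hgint⟩ := exists_le_lowerSemicontinuous_lintegral_ge
    ((volume : Measure ℝ).prod P0) h hh
    (ε := b - ∫⁻ q, h q ∂((volume : Measure ℝ).prod P0)) (tsub_pos_of_lt hint').ne'
  rw [add_tsub_cancel_of_le hint'.le] at hgint
  have hgm : Measurable g := hglsc.measurable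
  set p : ℕ → ℝ → (Site d → ℝ) → ℝ≥0∞ := fun j E ω =>
    ENNReal.ofReal (Real.pi⁻¹ * (gc M lam ((E : ℂ) + (saEps j : ℝ) * Complex.I) ω x x).im) with hp
  have hpm : ∀ j, Measurable (Function.uncurry (p j)) := by
    intro j
    have h1 := Weak.measurable_gc_uncurry (lam := lam) hM (saEps_pos j) x x
    exact ENNReal.measurable_ofReal.comp ((Complex.measurable_im.comp h1).const_mul _)
  have hind : Measurable fun q : ℝ × (Site d → ℝ) => g (q.1, T q.2) :=
    hgm.comp (measurable_fst.prodMk (hTm.comp measurable_snd))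
  have hFm : ∀ j, Measurable (Function.uncurry fun (E : ℝ) (ω : Site d → ℝ) =>
      g (E, T ω) * p j E ω) := fun j => hind.mul (hpm j)
  have hΦm : ∀ j, Measurable fun ω => ∫⁻ E : ℝ, g (E, T ω) * p j E ω := fun j =>
    Measurable.lintegral_prod_left (hFm j)
  set C : ℝ≥0∞ := K * ENNReal.ofReal (1 / lam) with hC
  have hCtop : C ≠ ⊤ := ENNReal.mul_ne_top ENNReal.coe_ne_top ENNReal.ofReal_ne_top
  have hCeq : C = ENNReal.ofReal (K / lam) := by
    rw [hC, ← ENNReal.ofReal_coe_nnreal, ← ENNReal.ofReal_mul (NNReal.coe_nonneg K), mul_one_div]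
  have hΦ : ∀ j, ∫⁻ ω, (∫⁻ E : ℝ, g (E, T ω) * p j E ω) ∂(PP d μ)
      ≤ ENNReal.ofReal (K / lam) * b := by
    intro j
    have hsw : Measurable (Function.uncurry fun (ω : Site d → ℝ) (E : ℝ) =>
        g (E, T ω) * p j E ω) := (hFm j).comp measurable_swap
    rw [lintegral_lintegral_swap hsw.aemeasurable]
    have h1 : ∀ E : ℝ, ∫⁻ ω, g (E, T ω) * p j E ω ∂(PP d μ)
        ≤ ∫⁻ ω, g (E, T ω) * C ∂(PP d μ) := by
      intro E
      have hmE : Measurable fun ω : Site d → ℝ => g (E, T ω) * p j E ω :=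
        (hFm j).comp (measurable_const.prodMk measurable_id)
      rw [lintegral_resample x hmE]
      refine lintegral_mono fun ω => ?_
      have hTu : ∀ t, T (Function.update ω x t) = T ω := fun t => Function.update_idem _ _ _
      simp only [hTu]
      have him : 0 < ((E : ℂ) + (saEps j : ℝ) * Complex.I).im := by
        simpa using saEps_pos j
      have h5 : ∫⁻ t, p j E (Function.update ω x t) ∂μ ≤ C := sa_one_site hμ hlam him ω x
      have h7 : Measurable fun t : ℝ => ((E, Function.update ω x t) : ℝ × (Site d → ℝ)) :=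
        measurable_const.prodMk (measurable_update ω)
      have h6 : Measurable (Function.uncurry (p j) ∘
          fun t : ℝ => ((E, Function.update ω x t) : ℝ × (Site d → ℝ))) := (hpm j).comp h7
      have h8 : ∫⁻ t, g (E, T ω) * p j E (Function.update ω x t) ∂μ
          = g (E, T ω) * ∫⁻ t, p j E (Function.update ω x t) ∂μ :=
        lintegral_const_mul _ h6
      rw [h8]
      exact mul_le_mul' le_rfl h5
    calc ∫⁻ E : ℝ, ∫⁻ ω, g (E, T ω) * p j E ω ∂(PP d μ)
        ≤ ∫⁻ E : ℝ, ∫⁻ ω, g (E, T ω) * C ∂(PP d μ) := lintegral_mono h1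
      _ = (∫⁻ E : ℝ, ∫⁻ ω, g (E, T ω) ∂(PP d μ)) * C := by
          rw [← lintegral_mul_const' _ _ hCtop]
          exact lintegral_congr fun E => lintegral_mul_const' _ _ hCtop
      _ = (∫⁻ ω, (∫⁻ E : ℝ, g (E, T ω)) ∂(PP d μ)) * C := by
          congr 1
          exact lintegral_lintegral_swap
            (f := fun (E : ℝ) (ω : Site d → ℝ) => g (E, T ω)) hind.aemeasurable
      _ ≤ b * C := by
          rw [← hprod g hgm]
          exact mul_le_mul' hgint le_rfl
      _ = ENNReal.ofReal (K / lam) * b := by rw [mul_comm, hCeq]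
  refine ⟨fun ω => liminf (fun j => ∫⁻ E : ℝ, g (E, T ω) * p j E ω) atTop,
    Measurable.liminf hΦm, ?_, ?_⟩
  · refine (lintegral_liminf_le hΦm).trans ?_
    refine (liminf_le_liminf (Eventually.of_forall hΦ)).trans ?_
    simp
  · intro ω ν hν hb
    have hcont : Continuous fun E : ℝ => (E, T ω) := by fun_prop
    have hlsc : LowerSemicontinuous fun E : ℝ => g (E, T ω) := hglsc.comp hcont
    calc ∫⁻ E, h (E, Function.update ω x t0) ∂ν ≤ ∫⁻ E, g (E, T ω) ∂ν :=
          lintegral_mono fun E => hhg _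
      _ ≤ liminf (fun j => ∫⁻ E : ℝ, g (E, T ω) * p j E ω) atTop := by
          refine sa_lintegral_le hlsc (p := fun j E => p j E ω) fun j E => ?_
          refine ENNReal.ofReal_le_ofReal ?_
          exact mul_le_mul_of_nonneg_left (hb _ (by simpa using saEps_pos j)) (by positivity)

end Pool.Agent.Helper3.Crit
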