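import Pool.Agent.Helper3.Crit.FinD
import Pool.Agent.Helper3.Crit.Dyn
import Pool.Agent.Helper3.Crit.SpecAvgFun

/-! Dynamical localisation in the set of fractional moment localisation. -/

open scoped ENNReal NNReal InnerProductSpace
open MeasureTheory Set Filter Topology

noncomputable section

namespace Pool.Agent.Helper3.Crit

open Pool.Agent.Helper3.Anderson

variable {d : ℕ} {μ : Measure ℝ} [IsProbabilityMeasure μ] {M lam : ℝ} {K : ℝ≥0}

/-- uniform constants on compact sets -/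
lemma uniform_fm {I : Set ℝ} (hI : IsCompact I) (hIO : I ⊆ FMS d μ M lam) :
    ∃ C > 0, ∃ c > 0, ∀ E ∈ I, ∃ r > 0, ∀ z : ℂ, 0 < z.im → ‖z - (E : ℝ)‖ < r → ∀ x y : Site d,
      ∫⁻ ω, ‖gc M lam z ω x y‖ₑ ^ (1 / 8 : ℝ) ∂(PP d μ)
        ≤ ENNReal.ofReal (C * Real.exp (-(c * sn (x - y)))) := by
  refine hI.induction_on (p := fun S => ∃ C > 0, ∃ c > 0, ∀ E ∈ S, ∃ r > 0, ∀ z : ℂ, 0 < z.im →
    ‖z - (E : ℝ)‖ < r → ∀ x y : Site d, ∫⁻ ω, ‖gc M lam z ω x y‖ₑ ^ (1 / 8 : ℝ) ∂(PP d μ)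
        ≤ ENNReal.ofReal (C * Real.exp (-(c * sn (x - y))))) ?_ ?_ ?_ ?_
  · exact ⟨1, one_pos, 1, one_pos, fun E hE => absurd hE (notMem_empty E)⟩
  · rintro S T hST ⟨C, hC, c, hc, h⟩
    exact ⟨C, hC, c, hc, fun E hE => h E (hST hE)⟩
  · rintro S T ⟨C, hC, c, hc, h⟩ ⟨C', hC', c', hc', h'⟩
    refine ⟨max C C', lt_max_of_lt_left hC, min c c', lt_min hc hc', fun E hE => ?_⟩
    have hmono : ∀ {C1 c1 : ℝ}, C1 ≤ max C C' → min c c' ≤ c1 → 0 < C1 → ∀ n : ℕ,
        ENNReal.ofReal (C1 * Real.exp (-(c1 * n)))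
          ≤ ENNReal.ofReal (max C C' * Real.exp (-(min c c' * n))) := by
      intro C1 c1 h1 h2 h3 n
      refine ENNReal.ofReal_le_ofReal ?_
      refine mul_le_mul h1 (Real.exp_le_exp.2 (neg_le_neg ?_)) (Real.exp_pos _).le (h3.le.trans h1)
      exact mul_le_mul_of_nonneg_right h2 (Nat.cast_nonneg _)
    rcases hE with hE | hE
    · obtain ⟨r, hr, H⟩ := h E hE
      exact ⟨r, hr, fun z hz hzr x y => (H z hz hzr x y).trans
        (hmono (le_max_left _ _) (min_le_left _ _) hC _)⟩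
    · obtain ⟨r, hr, H⟩ := h' E hE
      exact ⟨r, hr, fun z hz hzr x y => (H z hz hzr x y).trans
        (hmono (le_max_right _ _) (min_le_right _ _) hC' _)⟩
  · intro E hE
    obtain ⟨r, hr, C, hC, c, hc, H⟩ := hIO hE
    refine ⟨Metric.ball E (r / 2), mem_nhdsWithin_of_mem_nhds (Metric.ball_mem_nhds E (by linarith)),
      C, hC, c, hc, fun E' hE' => ⟨r / 2, by linarith, fun z hz hzr x y => H z hz ?_ x y⟩⟩
    rw [Metric.mem_ball, Real.dist_eq] at hE'
    calc ‖z - E‖ = ‖(z - E') + ((E' : ℂ) - E)‖ := by ring_nf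
      _ ≤ ‖z - E'‖ + ‖(E' : ℂ) - E‖ := norm_add_le _ _
      _ < r / 2 + r / 2 := by
          refine add_lt_add hzr ?_
          rw [← Complex.ofReal_sub, Complex.norm_real, Real.norm_eq_abs]; exact hE'
      _ = r := by ring

lemma avg_resample (x : Site d) {Fi : (Site d → ℝ) → ℝ≥0∞} (hFim : Measurable Fi) :
    ∫⁻ t, ∫⁻ ω, Fi (Function.update ω x t) ∂(PP d μ) ∂μ = ∫⁻ ω, Fi ω ∂(PP d μ) ∧
      Measurable fun t => ∫⁻ ω, Fi (Function.update ω x t) ∂(PP d μ) := by
  have hjm : Measurable fun p : (Site d → ℝ) × ℝ => Fi (Function.update p.1 x p.2) :=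
    hFim.comp (measurable_update_prod x)
  constructor
  · rw [lintegral_resample (μ := μ) x hFim]
    exact (lintegral_lintegral_swap (μ := PP d μ) (ν := μ)
      (f := fun ω t => Fi (Function.update ω x t)) hjm.aemeasurable).symm
  · exact hjm.lintegral_prod_left'

lemma exists_good {p : ℝ → Prop} {G : ℝ → ℝ≥0∞} (hp : ∀ᵐ t ∂μ, p t) (hG : Measurable G) :
    ∃ t, p t ∧ G t ≤ ∫⁻ t, G t ∂μ := by
  obtain ⟨t, ht, ht1⟩ := exists_notMem_null_le_lintegral (μ := μ) hG.aemeasurable (ae_iff.1 hp)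
  refine ⟨t, ?_, ht1⟩
  by_contra hcon
  exact ht hcon

lemma ae_resample (x : Site d) {N : Set (ℝ × (Site d → ℝ))} (hN : MeasurableSet N)
    (h : ∀ᵐ E : ℝ, ∀ᵐ ω ∂(PP d μ), (E, ω) ∉ N) :
    ∀ᵐ t0 ∂μ, ∀ᵐ ω ∂(PP d μ), ∀ᵐ E : ℝ, (E, Function.update ω x t0) ∉ N := by
  have h0 : (volume.prod (PP d μ)) N = 0 := by
    rw [Measure.measure_prod_null hN]
    filter_upwards [h] with E hE
    rw [ae_iff] at hE
    simp only [not_not] at hE
    exact hE
  have h1 : ((PP d μ).prod volume) (Prod.swap ⁻¹' N) = 0 := by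
    rw [← Measure.prod_swap, Measure.map_apply measurable_swap (measurable_swap hN)]
    exact h0
  have h2 : ∀ᵐ ω ∂(PP d μ), ∀ᵐ E : ℝ, (E, ω) ∉ N := by
    have := Measure.measure_ae_null_of_prod_null h1
    filter_upwards [this] with ω hω
    rw [ae_iff]
    simp only [not_not]
    exact hω
  have hQ : MeasurableSet {ω : Site d → ℝ | volume {E : ℝ | (E, ω) ∈ N} = 0} := by
    have : Measurable fun ω : Site d → ℝ => volume {E : ℝ | (E, ω) ∈ N} :=
      measurable_measure_prodMk_right hN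
    exact this (measurableSet_singleton 0)
  have h3 : ∀ᵐ ω ∂(PP d μ), ω ∈ {ω : Site d → ℝ | volume {E : ℝ | (E, ω) ∈ N} = 0} := by
    filter_upwards [h2] with ω hω
    simpa [ae_iff] using hω
  have h4 : ∀ᵐ p ∂((PP d μ).prod μ), Function.update p.1 x p.2
      ∈ {ω : Site d → ℝ | volume {E : ℝ | (E, ω) ∈ N} = 0} := by
    have hmap := map_update (μ := μ) x
    have h3' : ∀ᵐ ω ∂(((PP d μ).prod μ).map fun p : (Site d → ℝ) × ℝ => Function.update p.1 x p.2),
        ω ∈ {ω : Site d → ℝ | volume {E : ℝ | (E, ω) ∈ N} = 0} := by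
      rw [hmap]; exact h3
    exact ae_of_ae_map (measurable_update_prod x).aemeasurable h3'
  have h5 : ∀ᵐ p ∂(μ.prod (PP d μ)), Function.update p.2 x p.1
      ∈ {ω : Site d → ℝ | volume {E : ℝ | (E, ω) ∈ N} = 0} := by
    rw [← Measure.prod_swap] at h4
    exact ae_of_ae_map measurable_swap.aemeasurable h4
  have h6 := Measure.ae_ae_of_ae_prod h5
  filter_upwards [h6] with t0 ht0
  filter_upwards [ht0] with ω hω
  simpa [ae_iff] using hω

/-- from almost every energy to a resampled configuration, with a function -/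
theorem exists_resample_fun (x : Site d) {N : Set (ℝ × (Site d → ℝ))} (hN : MeasurableSet N)
    (h : ∀ᵐ E : ℝ, ∀ᵐ ω ∂(PP d μ), (E, ω) ∉ N) {Fi : (Site d → ℝ) → ℝ≥0∞} (hFi : Measurable Fi) :
    ∃ t0 : ℝ, (∀ᵐ ω ∂(PP d μ), ∀ᵐ E : ℝ, (E, Function.update ω x t0) ∉ N) ∧
      ∫⁻ ω, Fi (Function.update ω x t0) ∂(PP d μ) ≤ ∫⁻ ω, Fi ω ∂(PP d μ) := by
  obtain ⟨h7, hGm⟩ := avg_resample (μ := μ) x hFi
  obtain ⟨t0, h1, h2⟩ := exists_good (μ := μ) (ae_resample x hN h) hGm
  exact ⟨t0, h1, h2.trans h7.le⟩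

lemma lintegral_rpow_le {Ω : Type*} [MeasurableSpace Ω] {P : Measure Ω} [IsProbabilityMeasure P]
    {f : Ω → ℝ≥0∞} (hf : Measurable f) :
    ∫⁻ ω, f ω ^ (8 / 15 : ℝ) ∂P ≤ (∫⁻ ω, f ω ∂P) ^ (8 / 15 : ℝ) := by
  have hpq : (15 / 8 : ℝ).HolderConjugate (15 / 7 : ℝ) := by
    rw [Real.holderConjugate_iff]
    constructor <;> norm_num
  have h := ENNReal.lintegral_mul_le_Lp_mul_Lq P hpq (f := fun ω => f ω ^ (8 / 15 : ℝ))
    (g := fun _ => 1) (hf.pow_const _).aemeasurable measurable_const.aemeasurable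
  simp only [Pi.mul_apply, mul_one, ENNReal.one_rpow, lintegral_const, measure_univ] at h
  refine h.trans (le_of_eq ?_)
  have e : ∀ ω, (f ω ^ (8 / 15 : ℝ)) ^ (15 / 8 : ℝ) = f ω := fun ω => by
    rw [← ENNReal.rpow_mul]; norm_num
  simp only [e]
  norm_num

theorem dyn_loc (hμ : GoodLaw μ M K) (hlam : 0 < lam) {I : Set ℝ} (hI : IsCompact I)
    (hIO : I ⊆ FMS d μ M lam) :
    ∃ C > 0, ∃ c > 0, ∀ x y : Site d, ∃ Q : (Site d → ℝ) → ℝ≥0∞, Measurable Q ∧
      ∫⁻ ω, Q ω ∂(PP d μ) ≤ ENNReal.ofReal (C * Real.exp (-(c * sn (y - x)))) ∧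
      ∀ᵐ ω ∂(PP d μ), ∀ f : ℂ → ℂ, Continuous f → (∀ t : ℝ, ‖f t‖ ≤ 1) →
        (∀ E : ℝ, E ∉ I → f E = 0) →
        ‖(cfc f (schr (potc M lam ω) (bdd_potc (zero_le_one.trans hμ.one_le) ω)) (dl x) : L2 d) y‖ₑ
          ≤ Q ω := by
  have hM : 0 ≤ M := zero_le_one.trans hμ.one_le
  have hM0 : 0 < M := one_pos.trans_le hμ.one_le
  obtain ⟨C, hC, c, hc, HI⟩ := uniform_fm hI hIO
  obtain ⟨φ, hφ, hbv⟩ := exists_bv (d := d) hμ hlam (η := fun j : ℕ => 1 / ((j : ℝ) + 1))
    (fun j => by positivity) tendsto_one_div_add_atTop_nhds_zero_nat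
  set ε : ℕ → ℝ := fun k => 1 / ((φ k : ℝ) + 1) with hεdef
  have hε : ∀ k, 0 < ε k := fun k => by positivity
  have hε0 : Tendsto ε atTop (𝓝 0) :=
    tendsto_one_div_add_atTop_nhds_zero_nat.comp hφ.tendsto_atTop
  set W : ℝ := 2 * lam * M with hW
  have hW0 : 0 < W := by positivity
  set b1 : ℝ := ((volume I).toReal + 1) * (W ^ (1 / 8 : ℝ) * C) with hb1
  have hb10 : 0 < b1 := by positivity
  set C' : ℝ := ((K : ℝ) / lam * b1) ^ (8 / 15 : ℝ) + 1 with hC'
  have hC'0 : 0 < C' := by positivity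
  refine ⟨C', hC'0, 8 / 15 * c, by positivity, fun x y => ?_⟩
  -- the null set and the function
  set N : Set (ℝ × (Site d → ℝ)) := (Prod.fst ⁻¹' I) \ Gx M lam ε x with hN
  have hImeas : MeasurableSet I := hI.measurableSet
  have hNm : MeasurableSet N := (measurable_fst hImeas).diff (measurableSet_Gx hM hε x)
  have hNae : ∀ᵐ E : ℝ, ∀ᵐ ω ∂(PP d μ), (E, ω) ∉ N := by
    filter_upwards [hbv] with E hE
    by_cases hEU : E ∈ I
    · have := ae_Gx hμ hε hε0 (by simpa [hεdef] using hE) (hIO hEU) x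
      filter_upwards [this] with ω hω hcon
      exact hcon.2 hω
    · exact ae_of_all _ fun ω hcon => hEU hcon.1
  set F : ℝ × (Site d → ℝ) → ℝ≥0∞ := (Prod.fst ⁻¹' I).indicator
    (fun p => (ENNReal.ofReal W * ‖gE M lam p.1 ε y x p.2‖ₑ) ^ (1 / 8 : ℝ)) with hF
  have hFm : Measurable F :=
    (((measurable_gEj hM hε y x).enorm.const_mul _).pow_const _).indicator
      (measurable_fst hImeas)
  have hFim : Measurable fun ω : Site d → ℝ => ∫⁻ E : ℝ, F (E, ω) := hFm.lintegral_prod_left'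
  obtain ⟨t0, ht0, ht1⟩ := exists_resample_fun (μ := μ) x hNm hNae hFim
  have hFint : ∫⁻ ω, (∫⁻ E : ℝ, F (E, ω)) ∂(PP d μ)
      ≤ volume I * ENNReal.ofReal (W ^ (1 / 8 : ℝ) * C * Real.exp (-(c * sn (y - x)))) := by
    rw [lintegral_lintegral_swap (μ := PP d μ) (ν := volume) (f := fun ω E => F (E, ω))
      (hFm.comp measurable_swap).aemeasurable]
    have hle : ∀ᵐ E : ℝ, ∫⁻ ω, F (E, ω) ∂(PP d μ) ≤ I.indicator (fun _ =>
        ENNReal.ofReal (W ^ (1 / 8 : ℝ) * C * Real.exp (-(c * sn (y - x))))) E := by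
      filter_upwards [hbv] with E hE
      by_cases hEI : E ∈ I
      · obtain ⟨r, hr, H⟩ := HI E hEI
        have h1 := fm_gE hμ hε hε0 (by simpa [hεdef] using hE) hr H y x
        rw [indicator_of_mem hEI]
        have e : ∀ ω, F (E, ω) = ENNReal.ofReal (W ^ (1 / 8 : ℝ))
            * ‖gE M lam E ε y x ω‖ₑ ^ (1 / 8 : ℝ) := by
          intro ω
          rw [hF, indicator_of_mem (show (E, ω) ∈ Prod.fst ⁻¹' I from hEI),
            ENNReal.mul_rpow_of_nonneg _ _ (by norm_num),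
            ENNReal.ofReal_rpow_of_pos hW0]
        simp only [e]
        rw [lintegral_const_mul _ ((measurable_gE' hM hε E y x).enorm.pow_const _), mul_assoc,
          ENNReal.ofReal_mul (by positivity)]
        exact mul_le_mul_right h1 _
      · rw [indicator_of_notMem hEI]
        have e : ∀ ω, F (E, ω) = 0 := fun ω =>
          indicator_of_notMem (show (E, ω) ∉ Prod.fst ⁻¹' I from hEI) _
        simp [e]
    refine (lintegral_mono_ae hle).trans ?_
    rw [lintegral_indicator_const hImeas, mul_comm]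
  set b : ℝ≥0∞ := ENNReal.ofReal (b1 * Real.exp (-(c * sn (y - x)))) with hb
  have hIfin : volume I ≠ ⊤ := hI.measure_lt_top.ne
  have hlt : ∫⁻ ω, (∫⁻ E : ℝ, F (E, Function.update ω x t0)) ∂(PP d μ) < b := by
    refine (ht1.trans hFint).trans_lt ?_
    rw [hb, ← ENNReal.ofReal_toReal hIfin, ← ENNReal.ofReal_mul ENNReal.toReal_nonneg,
      ENNReal.ofReal_lt_ofReal_iff (by positivity), hb1]
    have h2 : 0 < W ^ (1 / 8 : ℝ) * C * Real.exp (-(c * sn (y - x))) := by positivity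
    nlinarith
  obtain ⟨Hb, hHm, hHint, HH⟩ := spec_avg_fun hμ hlam x t0 hFm hlt
  refine ⟨fun ω => Hb ω ^ (8 / 15 : ℝ), hHm.pow_const _, ?_, ?_⟩
  · refine (lintegral_rpow_le hHm).trans ?_
    refine (ENNReal.rpow_le_rpow hHint (by norm_num)).trans ?_
    rw [hb, ← ENNReal.ofReal_mul (by positivity), ← mul_assoc,
      ENNReal.ofReal_rpow_of_nonneg (by positivity) (by norm_num)]
    refine ENNReal.ofReal_le_ofReal ?_
    rw [Real.mul_rpow (by positivity) (Real.exp_pos _).le, ← Real.exp_mul]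
    refine mul_le_mul (by rw [hC']; linarith) (le_of_eq ?_) (Real.exp_pos _).le hC'0.le
    congr 1
    ring
  · have hsa := spec_avg hμ hlam x t0 hNm ht0
    filter_upwards [hsa] with ω hω f hf hf1 hfI
    refine dyn_det (potc M lam ω) (potc M lam (Function.update ω x t0)) (bdd_potc hM ω)
      (bdd_potc hM _) x (fun u hu => ?_) hImeas hε hε0
      (fun E u => gE M lam E ε u x (Function.update ω x t0)) ?_ y ?_ f hf hf1 hfI
    · simp only [potc]
      rw [Function.update_of_ne hu]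
    · intro ν hν hint
      have h1 := hω ν hν hint
      have h2 : ∀ᵐ E ∂ν, (E, Function.update ω x t0) ∉ N := by
        rw [ae_iff]; simpa using h1
      filter_upwards [h2] with E hE hEU
      have hG : (E, Function.update ω x t0) ∈ Gx M lam ε x := by
        by_contra hcon
        exact hE ⟨hEU, hcon⟩
      obtain ⟨hG1, n, hG2⟩ := hG
      exact ⟨fun u => gE_tendsto (hG1 u), n, 1 / ((n : ℝ) + 1), by positivity, hG2⟩
    · intro ν hν hint
      refine le_trans ?_ (HH ω ν hν hint)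
      rw [← lintegral_indicator hImeas]
      refine lintegral_mono fun E => ?_
      by_cases hEI : E ∈ I
      · rw [indicator_of_mem hEI, hF,
          indicator_of_mem (show (E, Function.update ω x t0) ∈ Prod.fst ⁻¹' I from hEI)]
        refine ENNReal.rpow_le_rpow (mul_le_mul_left ?_ _) (by norm_num)
        rw [← ofReal_norm]
        refine ENNReal.ofReal_le_ofReal ?_
        rw [Real.norm_eq_abs]
        have h3 := abs_potc_le (lam := lam) hM ω x
        have h4 := abs_potc_le (lam := lam) hM (Function.update ω x t0) x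
        rw [abs_of_pos hlam] at h3 h4
        refine (abs_sub _ _).trans ?_
        rw [hW]; linarith
      · rw [indicator_of_notMem hEI]
        exact bot_le

end Pool.Agent.Helper3.Crit
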