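import Pool.Agent.Helper3.Crit.Defs
import Pool.Agent.Helper3.Anderson.LLN

/-! Approximation of integrable functions of the potential by local bounded functions. -/

open scoped ENNReal NNReal
open MeasureTheory Set Filter Topology

noncomputable section

namespace Pool.Agent.Helper3.Crit

open Pool.Agent.Helper3.Anderson

variable {d : ℕ}

lemma rs_rs {S T : Finset (Site d)} (h : S ⊆ T) (ω : Site d → ℝ) : rs S (rs T ω) = rs S ω := by
  funext x
  simp only [rs]
  split_ifs with h1 h2
  · rfl
  · exact absurd (h h1) h2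
  · rfl

lemma box_mono (x : Site d) {m n : ℕ} (h : m ≤ n) : box x m ⊆ box x n := fun _ hy =>
  mem_box.2 ((mem_box.1 hy).trans h)

/-- the filtration generated by the potential in boxes -/
def filt (d : ℕ) : Filtration ℕ (inferInstance : MeasurableSpace (Site d → ℝ)) where
  seq n := MeasurableSpace.comap (rs (box 0 n)) inferInstance
  mono' := by
    intro m n h
    have e : rs (box (0 : Site d) m) = rs (box 0 m) ∘ rs (box 0 n) := by
      funext ω; exact (rs_rs (box_mono 0 h) ω).symm
    show MeasurableSpace.comap (rs (box (0 : Site d) m)) inferInstance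
      ≤ MeasurableSpace.comap (rs (box (0 : Site d) n)) inferInstance
    rw [e, ← MeasurableSpace.comap_comp]
    exact MeasurableSpace.comap_mono (measurable_rs _).comap_le
  le' := fun n => (measurable_rs _).comap_le

lemma filt_sup : (inferInstance : MeasurableSpace (Site d → ℝ)) ≤ ⨆ n, (filt d) n := by
  show (⨆ a : Site d, MeasurableSpace.comap (fun b : Site d → ℝ => b a) inferInstance) ≤ _
  refine iSup_le fun a => ?_
  refine le_trans ?_ (le_iSup (fun n => (filt d) n) (sn a))
  show MeasurableSpace.comap (fun ω : Site d → ℝ => ω a) inferInstance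
    ≤ MeasurableSpace.comap (rs (box (0 : Site d) (sn a))) inferInstance
  have e : (fun ω : Site d → ℝ => ω a) = (fun ω : Site d → ℝ => ω a) ∘ rs (box 0 (sn a)) := by
    funext ω
    simp only [Function.comp, rs]
    rw [if_pos]
    rw [mem_box, sub_zero]
  rw [e, ← MeasurableSpace.comap_comp]
  exact MeasurableSpace.comap_mono (measurable_pi_apply a).comap_le

lemma comap_rs_eq {S : Finset (Site d)} {F : (Site d → ℝ) → ℝ}
    (hF : @Measurable _ _ (MeasurableSpace.comap (rs S) inferInstance) _ F) (ω : Site d → ℝ) :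
    F (rs S ω) = F ω := by
  obtain ⟨A, _, hA⟩ := hF (measurableSet_singleton (F ω))
  have h1 : ω ∈ F ⁻¹' {F ω} := rfl
  rw [← hA] at h1
  have h2 : rs S ω ∈ rs S ⁻¹' A := by
    show rs S (rs S ω) ∈ A
    rw [rs_rs (Finset.Subset.refl S)]
    exact h1
  rw [hA] at h2
  exact h2

/-- truncation -/
def trunc (B t : ℝ) : ℝ := max (-B) (min B t)

lemma abs_trunc_le {B : ℝ} (hB : 0 ≤ B) (t : ℝ) : |trunc B t| ≤ B := by
  unfold trunc
  rw [abs_le]
  exact ⟨le_max_left _ _, max_le (by linarith) (min_le_left _ _)⟩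

lemma measurable_trunc (B : ℝ) : Measurable (trunc B) := by
  unfold trunc
  exact measurable_const.max (measurable_const.min measurable_id)

lemma abs_trunc_sub_le {B : ℝ} (s t : ℝ) : |trunc B s - trunc B t| ≤ |s - t| := by
  unfold trunc
  calc |max (-B) (min B s) - max (-B) (min B t)| ≤ |min B s - min B t| := by
        have := abs_max_sub_max_le_max (-B) (min B s) (-B) (min B t)
        simpa using this
    _ ≤ |s - t| := by
        have := abs_min_sub_min_le_max B s B t
        simpa using this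

lemma trunc_of_abs_le {B t : ℝ} (h : |t| ≤ B) : trunc B t = t := by
  rw [abs_le] at h
  unfold trunc
  rw [min_eq_right h.2, max_eq_right h.1]

lemma tendsto_trunc (t : ℝ) : Tendsto (fun B : ℕ => trunc (B : ℝ) t) atTop (𝓝 t) := by
  obtain ⟨N, hN⟩ := exists_nat_ge |t|
  refine tendsto_const_nhds.congr' ?_
  filter_upwards [eventually_ge_atTop N] with B hB
  rw [trunc_of_abs_le (hN.trans (by exact_mod_cast hB))]

lemma abs_trunc_le_abs {B : ℝ} (hB : 0 ≤ B) (t : ℝ) : |trunc B t| ≤ |t| := by
  have h := abs_trunc_sub_le (B := B) t 0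
  rw [trunc_of_abs_le (t := 0) (by simpa using hB), sub_zero, sub_zero] at h
  exact h

variable {μ : Measure ℝ} [IsProbabilityMeasure μ]

/-- **Local approximation.** -/
theorem approx_local {f : (Site d → ℝ) → ℝ} (hf : Integrable f (PP d μ)) {ε : ℝ} (hε : 0 < ε) :
    ∃ (S : Finset (Site d)) (F : (Site d → ℝ) → ℝ) (B : ℝ),
      Measurable F ∧ (∀ ω, |F ω| ≤ B) ∧ ∫ ω, |f ω - F (rs S ω)| ∂(PP d μ) ≤ ε := by
  -- replace f by a measurable version
  set f' := hf.aestronglyMeasurable.mk f with hf'
  have hff' : f =ᵐ[PP d μ] f' := hf.aestronglyMeasurable.ae_eq_mk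
  have hf'm : StronglyMeasurable f' := hf.aestronglyMeasurable.stronglyMeasurable_mk
  have hf'i : Integrable f' (PP d μ) := hf.congr hff'
  -- truncation
  have h1 : Tendsto (fun B : ℕ => ∫ ω, |f' ω - trunc B (f' ω)| ∂(PP d μ)) atTop
      (𝓝 (∫ ω, (0 : ℝ) ∂(PP d μ))) := by
    refine tendsto_integral_of_dominated_convergence (fun ω => 2 * |f' ω|) (fun B => ?_)
      (hf'i.abs.const_mul 2) (fun B => ?_) ?_
    · exact (((hf'm.measurable).sub ((measurable_trunc B).comp hf'm.measurable)).abs).aestronglyMeasurable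
    · refine Filter.Eventually.of_forall fun ω => ?_
      rw [Real.norm_of_nonneg (abs_nonneg _)]
      have := abs_trunc_le_abs (B := (B : ℝ)) (Nat.cast_nonneg B) (f' ω)
      have h2 := abs_sub (f' ω) (trunc B (f' ω))
      linarith [abs_nonneg (f' ω)]
    · refine Filter.Eventually.of_forall fun ω => ?_
      have := ((tendsto_trunc (f' ω)).const_sub (f' ω)).abs
      simpa using this
  rw [integral_zero] at h1
  obtain ⟨B, hB⟩ := ((tendsto_order.1 h1).2 (ε / 2) (half_pos hε)).exists
  set fB : (Site d → ℝ) → ℝ := fun ω => trunc B (f' ω) with hfB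
  have hfBm : Measurable fB := (measurable_trunc B).comp hf'm.measurable
  have hfBb : ∀ ω, |fB ω| ≤ B := fun ω => abs_trunc_le (Nat.cast_nonneg B) _
  have hfBi : Integrable fB (PP d μ) := by
    refine Integrable.mono' (integrable_const (B : ℝ)) hfBm.aestronglyMeasurable ?_
    exact Filter.Eventually.of_forall fun ω => by rw [Real.norm_eq_abs]; exact hfBb ω
  -- Levy
  have hsm : StronglyMeasurable[⨆ n, (filt d) n] fB :=
    (hfBm.mono filt_sup le_rfl).stronglyMeasurable
  have h2 := hfBi.tendsto_eLpNorm_condExp hsm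
  have h3 : ∀ᶠ n in atTop, eLpNorm ((PP d μ)[fB | (filt d) n] - fB) 1 (PP d μ)
      < ENNReal.ofReal (ε / 2) :=
    (tendsto_order.1 h2).2 _ (by simpa using hε)
  obtain ⟨n, hn⟩ := h3.exists
  set G := (PP d μ)[fB | (filt d) n] with hG
  have hGm' : StronglyMeasurable[(filt d) n] G := stronglyMeasurable_condExp
  have hGm : Measurable G := (hGm'.mono ((filt d).le n)).measurable
  have hGi : Integrable G (PP d μ) := integrable_condExp
  refine ⟨box 0 n, fun ω => trunc B (G ω), B, (measurable_trunc B).comp hGm,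
    fun ω => abs_trunc_le (Nat.cast_nonneg B) _, ?_⟩
  have hGrs : ∀ ω, G (rs (box 0 n) ω) = G ω := fun ω => comap_rs_eq hGm'.measurable ω
  simp only [hGrs]
  have e1 : ∫ ω, |f ω - trunc B (G ω)| ∂(PP d μ) = ∫ ω, |f' ω - trunc B (G ω)| ∂(PP d μ) := by
    refine integral_congr_ae ?_
    filter_upwards [hff'] with ω hω
    rw [hω]
  rw [e1]
  have hle : ∀ ω, |f' ω - trunc B (G ω)| ≤ |f' ω - fB ω| + |G ω - fB ω| := by
    intro ω
    have e2 : f' ω - trunc B (G ω) = (f' ω - fB ω) + (trunc B (fB ω) - trunc B (G ω)) := by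
      rw [trunc_of_abs_le (hfBb ω)]; ring
    rw [e2]
    refine (abs_add_le _ _).trans (add_le_add le_rfl ?_)
    rw [abs_sub_comm (G ω)]
    exact abs_trunc_sub_le _ _
  have hi1 : Integrable (fun ω => |f' ω - fB ω|) (PP d μ) := (hf'i.sub hfBi).abs
  have hi2 : Integrable (fun ω => |G ω - fB ω|) (PP d μ) := (hGi.sub hfBi).abs
  have hi3 : Integrable (fun ω => trunc B (G ω)) (PP d μ) := by
    refine Integrable.mono' (integrable_const (B : ℝ))
      ((measurable_trunc B).comp hGm).aestronglyMeasurable ?_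
    exact Filter.Eventually.of_forall fun ω => by
      rw [Real.norm_eq_abs]; exact abs_trunc_le (Nat.cast_nonneg B) _
  have h4 : ∫ ω, |G ω - fB ω| ∂(PP d μ) ≤ ε / 2 := by
    have e3 : ∫ ω, |G ω - fB ω| ∂(PP d μ) = (eLpNorm (G - fB) 1 (PP d μ)).toReal := by
      rw [eLpNorm_one_eq_lintegral_enorm]
      have := integral_norm_eq_lintegral_enorm (hGi.sub hfBi).aestronglyMeasurable
      simpa [Real.norm_eq_abs] using this
    rw [e3]
    refine ENNReal.toReal_le_of_le_ofReal (by linarith) hn.le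
  calc ∫ ω, |f' ω - trunc B (G ω)| ∂(PP d μ)
      ≤ ∫ ω, (|f' ω - fB ω| + |G ω - fB ω|) ∂(PP d μ) :=
        integral_mono ((hf'i.sub hi3).abs) (hi1.add hi2) hle
    _ = ∫ ω, |f' ω - fB ω| ∂(PP d μ) + ∫ ω, |G ω - fB ω| ∂(PP d μ) := integral_add hi1 hi2
    _ ≤ ε / 2 + ε / 2 := add_le_add hB.le h4
    _ = ε := by ring

end Pool.Agent.Helper3.Crit
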