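import Mathlib

/-! Finite dissipative matrices with cuts: lower bounds for the inverse along a path. -/

open Finset

namespace Pool.Agent.Helper3.Crit

variable {n : Type*} [Fintype n] [DecidableEq n]

/-- strictly dissipative matrix -/
def Diss (A : Matrix n n ℂ) : Prop :=
  ∀ φ : n → ℂ, φ ≠ 0 → (∑ x, (starRingEnd ℂ) (φ x) * ∑ w, A x w * φ w).im < 0

/-- `A + diag D` with the rows in `T` replaced by those of the identity -/
def cutM (A : Matrix n n ℂ) (D : n → ℂ) (T : Finset n) : Matrix n n ℂ :=
  fun x w => if x ∈ T then (if x = w then 1 else 0) else A x w + if x = w then D x else 0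

lemma cutM_mulVec (A : Matrix n n ℂ) (D : n → ℂ) (T : Finset n) (φ : n → ℂ) (x : n) :
    (cutM A D T).mulVec φ x = if x ∈ T then φ x else (∑ w, A x w * φ w) + D x * φ x := by
  simp only [Matrix.mulVec, dotProduct, cutM]
  split_ifs with h
  · simp
  · simp only [add_mul, Finset.sum_add_distrib, ite_mul, zero_mul]
    simp

lemma cutM_injective {A : Matrix n n ℂ} (hA : Diss A) {D : n → ℂ} {T : Finset n}
    (hD : ∀ x, x ∉ T → (D x).im ≤ 0) {φ : n → ℂ} (h : (cutM A D T).mulVec φ = 0) : φ = 0 := by
  by_contra hne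
  have h1 := hA φ hne
  have hx : ∀ x, (if x ∈ T then φ x else (∑ w, A x w * φ w) + D x * φ x) = 0 := fun x => by
    rw [← cutM_mulVec, h]; rfl
  have h2 : ∀ x, (starRingEnd ℂ) (φ x) * ∑ w, A x w * φ w = - (D x * (Complex.normSq (φ x) : ℂ)) := by
    intro x
    have := hx x
    split_ifs at this with hT
    · simp [this]
    · have h3 : ∑ w, A x w * φ w = - (D x * φ x) := by linear_combination this
      rw [h3, Complex.normSq_eq_conj_mul_self]; ring
  rw [Finset.sum_congr rfl fun x _ => h2 x] at h1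
  rw [Complex.im_sum] at h1
  have h3 : ∀ x, 0 ≤ (-(D x * (Complex.normSq (φ x) : ℂ))).im := by
    intro x
    by_cases hT : x ∈ T
    · have := hx x
      rw [if_pos hT] at this
      simp [this]
    · simp only [Complex.neg_im, Complex.mul_im, Complex.ofReal_re, Complex.ofReal_im, mul_zero,
        zero_add]
      have := hD x hT
      have h5 := Complex.normSq_nonneg (φ x)
      nlinarith
  have : 0 ≤ ∑ x, (-(D x * (Complex.normSq (φ x) : ℂ))).im := Finset.sum_nonneg fun x _ => h3 x
  linarith

lemma isUnit_cutM {A : Matrix n n ℂ} (hA : Diss A) {D : n → ℂ} {T : Finset n}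
    (hD : ∀ x, x ∉ T → (D x).im ≤ 0) : IsUnit (cutM A D T) := by
  rw [← Matrix.mulVec_injective_iff_isUnit]
  intro φ ψ h
  have : (cutM A D T).mulVec (φ - ψ) = 0 := by
    rw [Matrix.mulVec_sub]; exact sub_eq_zero.2 h
  exact sub_eq_zero.1 (cutM_injective hA hD this)

/-- the Green function of `A + diag D` with cuts `T` -/
noncomputable def gcut (A : Matrix n n ℂ) (D : n → ℂ) (T : Finset n) : Matrix n n ℂ :=
  (cutM A D T)⁻¹

section
variable {A : Matrix n n ℂ} (hA : Diss A) {D : n → ℂ} {T : Finset n}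
  (hD : ∀ x, x ∉ T → (D x).im ≤ 0)
include hA hD

lemma cutM_mul_gcut : cutM A D T * gcut A D T = 1 :=
  Matrix.mul_nonsing_inv _ ((Matrix.isUnit_iff_isUnit_det _).1 (isUnit_cutM hA hD))

lemma gcut_mul_cutM : gcut A D T * cutM A D T = 1 :=
  Matrix.nonsing_inv_mul _ ((Matrix.isUnit_iff_isUnit_det _).1 (isUnit_cutM hA hD))

lemma gcut_eq (x y : n) :
    (if x ∈ T then gcut A D T x y else (∑ w, A x w * gcut A D T w y) + D x * gcut A D T x y)
      = if x = y then 1 else 0 := by
  rw [← cutM_mulVec A D T (fun w => gcut A D T w y) x]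
  have := congrFun (congrFun (cutM_mul_gcut hA hD) x) y
  rw [Matrix.mul_apply, Matrix.one_apply] at this
  rw [Matrix.mulVec, dotProduct]
  exact this

lemma gcut_unique {y : n} {φ : n → ℂ}
    (h : ∀ x, (if x ∈ T then φ x else (∑ w, A x w * φ w) + D x * φ x) = if x = y then 1 else 0)
    (x : n) : φ x = gcut A D T x y := by
  have : (cutM A D T).mulVec (φ - fun w => gcut A D T w y) = 0 := by
    rw [Matrix.mulVec_sub]
    funext x
    rw [Pi.sub_apply, cutM_mulVec, cutM_mulVec, h x, gcut_eq hA hD x y]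
    simp
  have := congrFun (cutM_injective hA hD this) x
  exact sub_eq_zero.1 this

/-- dissipation estimate -/
lemma gcut_diss {y : n} (hy : y ∉ T) :
    ∑ x, -(D x).im * ‖gcut A D T x y‖ ^ 2 ≤ (gcut A D T y y).im := by
  set φ : n → ℂ := fun x => gcut A D T x y with hφ
  have hx := fun x => gcut_eq hA hD x y
  have hT0 : ∀ x ∈ T, φ x = 0 := by
    intro x hxT
    have := hx x
    rw [if_pos hxT, if_neg (fun h : x = y => hy (h ▸ hxT))] at this
    exact this
  have h2 : ∀ x, (starRingEnd ℂ) (φ x) * ∑ w, A x w * φ w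
      = (starRingEnd ℂ) (φ x) * (if x = y then 1 else 0) - (D x * ((‖φ x‖ ^ 2 : ℝ) : ℂ)) := by
    intro x
    by_cases hT : x ∈ T
    · simp [hT0 x hT]
    · have := hx x
      rw [if_neg hT] at this
      have h3 : ∑ w, A x w * φ w = (if x = y then 1 else 0) - D x * φ x := by
        rw [← this]; ring
      rw [h3, mul_sub, ← Complex.normSq_eq_norm_sq, Complex.normSq_eq_conj_mul_self]; ring
  have h4 : (∑ x, (starRingEnd ℂ) (φ x) * ∑ w, A x w * φ w).im ≤ 0 := by
    by_cases h0 : φ = 0
    · simp [h0]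
    · exact (hA φ h0).le
  rw [Finset.sum_congr rfl fun x _ => h2 x, Finset.sum_sub_distrib] at h4
  simp only [mul_ite, mul_one, mul_zero, Finset.sum_ite_eq', Finset.mem_univ, if_true,
    Complex.sub_im, Complex.conj_im, Complex.im_sum] at h4
  have h5 : ∀ x, (D x * ((‖φ x‖ ^ 2 : ℝ) : ℂ)).im = (D x).im * ‖φ x‖ ^ 2 := by
    intro x
    rw [Complex.mul_im, Complex.ofReal_re, Complex.ofReal_im]; ring
  simp only [h5] at h4
  have h6 : ∑ x, -(D x).im * ‖φ x‖ ^ 2 = - ∑ x, (D x).im * ‖φ x‖ ^ 2 := by
    rw [← Finset.sum_neg_distrib]; exact Finset.sum_congr rfl fun x _ => by ring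
  show ∑ x, -(D x).im * ‖φ x‖ ^ 2 ≤ (φ y).im
  rw [h6]; linarith

lemma gcut_im_pos {y : n} (hy : y ∉ T) : 0 < (gcut A D T y y).im := by
  set φ : n → ℂ := fun x => gcut A D T x y with hφ
  have hx := fun x => gcut_eq hA hD x y
  have hT0 : ∀ x ∈ T, φ x = 0 := by
    intro x hxT
    have := hx x
    rw [if_pos hxT, if_neg (fun h : x = y => hy (h ▸ hxT))] at this
    exact this
  have hφ0 : φ ≠ 0 := by
    intro h0
    have := hx y
    rw [if_neg hy, if_pos rfl] at this
    change (∑ w, A y w * φ w) + D y * φ y = 1 at this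
    simp [h0] at this
  have h2 : ∀ x, (starRingEnd ℂ) (φ x) * ∑ w, A x w * φ w
      = (starRingEnd ℂ) (φ x) * (if x = y then 1 else 0) - (D x * ((‖φ x‖ ^ 2 : ℝ) : ℂ)) := by
    intro x
    by_cases hT : x ∈ T
    · simp [hT0 x hT]
    · have := hx x
      rw [if_neg hT] at this
      have h3 : ∑ w, A x w * φ w = (if x = y then 1 else 0) - D x * φ x := by
        rw [← this]; ring
      rw [h3, mul_sub, ← Complex.normSq_eq_norm_sq, Complex.normSq_eq_conj_mul_self]; ring
  have h4 := hA φ hφ0
  rw [Finset.sum_congr rfl fun x _ => h2 x, Finset.sum_sub_distrib] at h4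
  simp only [mul_ite, mul_one, mul_zero, Finset.sum_ite_eq', Finset.mem_univ, if_true,
    Complex.sub_im, Complex.conj_im, Complex.im_sum] at h4
  have h5 : ∀ x, (D x * ((‖φ x‖ ^ 2 : ℝ) : ℂ)).im = (D x).im * ‖φ x‖ ^ 2 := by
    intro x
    rw [Complex.mul_im, Complex.ofReal_re, Complex.ofReal_im]; ring
  simp only [h5] at h4
  have h6 : ∑ x, (D x).im * ‖φ x‖ ^ 2 ≤ 0 := by
    refine Finset.sum_nonpos fun x _ => ?_
    by_cases hT : x ∈ T
    · rw [hT0 x hT]; simp
    · exact mul_nonpos_of_nonpos_of_nonneg (hD x hT) (sq_nonneg _)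
  show 0 < (φ y).im
  linarith

end

/-- rank one resolvent identity -/
lemma gcut_rank_one {A : Matrix n n ℂ} (hA : Diss A) {D : n → ℂ} {u : n}
    (hD : ∀ x, (D x).im ≤ 0) {t : ℂ} (ht : t.im ≤ 0) (x y : n) :
    gcut A (Function.update D u t) ∅ x y
        * (1 + t * gcut A (Function.update D u 0) ∅ u u)
      = gcut A (Function.update D u 0) ∅ x y
        + t * (gcut A (Function.update D u 0) ∅ x y * gcut A (Function.update D u 0) ∅ u u
          - gcut A (Function.update D u 0) ∅ x u * gcut A (Function.update D u 0) ∅ u y) := by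
  have hDt : ∀ t : ℂ, t.im ≤ 0 → ∀ x, x ∉ (∅ : Finset n) → (Function.update D u t x).im ≤ 0 := by
    intro t ht x _
    rcases eq_or_ne x u with rfl | hne
    · simpa using ht
    · simpa [Function.update_of_ne hne] using hD x
  set M0 := cutM A (Function.update D u 0) ∅ with hM0
  set Mt := cutM A (Function.update D u t) ∅ with hMt
  set G0 := gcut A (Function.update D u 0) ∅ with hG0
  set Gt := gcut A (Function.update D u t) ∅ with hGt
  have hdiff : ∀ a b, Mt a b - M0 a b = if a = u ∧ b = u then t else 0 := by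
    intro a b
    simp only [hMt, hM0, cutM, Finset.notMem_empty, if_false]
    by_cases hab : a = b
    · subst hab
      by_cases ha : a = u
      · subst ha; simp
      · simp [ha, Function.update_of_ne]
    · have : ¬ (a = u ∧ b = u) := fun h => hab (h.1.trans h.2.symm)
      simp [hab, this]
  have hres : ∀ x y, G0 x y - Gt x y = t * G0 x u * Gt u y := by
    intro x y
    have h1 : G0 - Gt = G0 * (Mt - M0) * Gt := by
      rw [Matrix.mul_sub, Matrix.sub_mul, Matrix.mul_assoc G0 Mt Gt,
        cutM_mul_gcut hA (hDt t ht), gcut_mul_cutM hA (hDt 0 (by simp)), Matrix.mul_one,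
        Matrix.one_mul]
    have h2 := congrFun (congrFun h1 x) y
    rw [Matrix.sub_apply, Matrix.mul_assoc, Matrix.mul_apply] at h2
    rw [h2, Finset.sum_eq_single u]
    · rw [Matrix.mul_apply, Finset.sum_eq_single u]
      · rw [Matrix.sub_apply, hdiff, if_pos ⟨rfl, rfl⟩]; ring
      · intro b _ hb
        rw [Matrix.sub_apply, hdiff, if_neg (fun h => hb h.2), zero_mul]
      · intro h; exact absurd (Finset.mem_univ _) h
    · intro a _ ha
      rw [Matrix.mul_apply, Finset.sum_eq_zero, mul_zero]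
      intro b _
      rw [Matrix.sub_apply, hdiff, if_neg (fun h => ha h.1), zero_mul]
    · intro h; exact absurd (Finset.mem_univ _) h
  have h1 := hres u y
  have h2 := hres x y
  linear_combination (-(1 + t * G0 u u)) * h2 + t * G0 x u * h1

/-- lower bound for the diagonal entry in the presence of absorption -/
lemma gcut_diag_lower {A : Matrix n n ℂ} (hA : Diss A) {D : n → ℂ} {T : Finset n}
    (hD : ∀ x, x ∉ T → (D x).im ≤ -1) {y : n} (hy : y ∉ T) {B S : ℝ} (hB : 0 ≤ B) (hS : 0 ≤ S)
    (hrow : ‖A y y + D y‖ ≤ B) (hrow' : ∑ w ∈ univ.erase y, ‖A y w‖ ≤ S) :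
    1 / (B + S + 1) ^ 2 ≤ ‖gcut A D T y y‖ := by
  have hD' : ∀ x, x ∉ T → (D x).im ≤ 0 := fun x hx => (hD x hx).trans (by norm_num)
  have h1 := gcut_diss hA hD' hy
  set a := ‖gcut A D T y y‖ with ha
  have ha0 : 0 ≤ a := norm_nonneg _
  have hT0 : ∀ x ∈ T, gcut A D T x y = 0 := by
    intro x hxT
    have := gcut_eq hA hD' x y
    rw [if_pos hxT, if_neg (fun h : x = y => hy (h ▸ hxT))] at this
    exact this
  have h2 : ∀ w, ‖gcut A D T w y‖ ^ 2 ≤ a := by
    intro w
    by_cases hw : w ∈ T
    · rw [hT0 w hw]; simpa using ha0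
    have h3 : -(D w).im * ‖gcut A D T w y‖ ^ 2 ≤ ∑ x, -(D x).im * ‖gcut A D T x y‖ ^ 2 := by
      refine Finset.single_le_sum (f := fun x => -(D x).im * ‖gcut A D T x y‖ ^ 2)
        (fun x _ => ?_) (Finset.mem_univ w)
      by_cases hx : x ∈ T
      · rw [hT0 x hx]; simp
      · have := hD x hx
        exact mul_nonneg (by linarith) (sq_nonneg _)
    have h4 : ‖gcut A D T w y‖ ^ 2 ≤ -(D w).im * ‖gcut A D T w y‖ ^ 2 := by
      have := hD w hw
      nlinarith [sq_nonneg ‖gcut A D T w y‖]
    exact h4.trans (h3.trans (h1.trans (Complex.im_le_norm _)))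
  have h3 : ∀ w, ‖gcut A D T w y‖ ≤ Real.sqrt a := fun w => Real.le_sqrt_of_sq_le (h2 w)
  have h4 := gcut_eq hA hD' y y
  rw [if_neg hy, if_pos rfl] at h4
  have h5 : ∑ w, A y w * gcut A D T w y = A y y * gcut A D T y y
      + ∑ w ∈ univ.erase y, A y w * gcut A D T w y := by
    rw [← Finset.add_sum_erase _ _ (Finset.mem_univ y)]
  have h6 : (1 : ℝ) ≤ B * a + S * Real.sqrt a := by
    have h7 : (1 : ℂ) = (A y y + D y) * gcut A D T y y
        + ∑ w ∈ univ.erase y, A y w * gcut A D T w y := by
      rw [← h4, h5]; ring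
    calc (1 : ℝ) = ‖(1 : ℂ)‖ := by simp
      _ ≤ ‖(A y y + D y) * gcut A D T y y‖ + ‖∑ w ∈ univ.erase y, A y w * gcut A D T w y‖ := by
          conv_lhs => rw [h7]
          exact norm_add_le _ _
      _ ≤ B * a + ∑ w ∈ univ.erase y, ‖A y w‖ * Real.sqrt a := by
          refine add_le_add ?_ ((norm_sum_le _ _).trans (Finset.sum_le_sum fun w _ => ?_))
          · rw [norm_mul]; exact mul_le_mul_of_nonneg_right hrow ha0
          · rw [norm_mul]; exact mul_le_mul_of_nonneg_left (h3 w) (norm_nonneg _)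
      _ ≤ B * a + S * Real.sqrt a := by
          rw [← Finset.sum_mul]
          have := mul_le_mul_of_nonneg_right hrow' (Real.sqrt_nonneg a)
          linarith
  by_contra hlt
  rw [not_le] at hlt
  have hpos : 0 < B + S + 1 := by linarith
  have h8 : Real.sqrt a < 1 / (B + S + 1) := by
    rw [Real.sqrt_lt' (by positivity)]
    rwa [div_pow, one_pow]
  have h9 : a = Real.sqrt a * Real.sqrt a := (Real.mul_self_sqrt ha0).symm
  have h10 : 1 / (B + S + 1) ≤ 1 := by
    rw [div_le_one hpos]; linarith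
  have hs0 := Real.sqrt_nonneg a
  have h11 : B * a ≤ B * Real.sqrt a := by
    refine mul_le_mul_of_nonneg_left ?_ hB
    have h13 : Real.sqrt a * Real.sqrt a ≤ 1 * Real.sqrt a :=
      mul_le_mul_of_nonneg_right (h8.le.trans h10) hs0
    linarith
  have h12 : (B + S) * Real.sqrt a < 1 := by
    have : (B + S + 1) * Real.sqrt a < 1 := by
      rw [lt_div_iff₀ hpos] at h8
      linarith
    nlinarith
  nlinarith

/-- cutting one more site: Möbius relation for two values of the potential at the site -/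
lemma gcut_cut_step {A : Matrix n n ℂ} (hA : Diss A) {D : n → ℂ} {T : Finset n} {u : n}
    (hu : u ∉ T) (hD : ∀ x, x ∉ T → (D x).im ≤ 0) {t1 t2 : ℂ} (h1 : t1.im ≤ 0) (h2 : t2.im ≤ 0)
    {x y : n} (hyu : y ≠ u)
    (hn1 : gcut A (Function.update D u t1) T u u ≠ 0)
    (hn2 : gcut A (Function.update D u t2) T u u ≠ 0) :
    gcut A D (insert u T) x y * (t1 - t2)
      = gcut A (Function.update D u t1) T x y / gcut A (Function.update D u t1) T u u
        - gcut A (Function.update D u t2) T x y / gcut A (Function.update D u t2) T u u := by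
  have hDt : ∀ t : ℂ, t.im ≤ 0 → ∀ x, x ∉ T → (Function.update D u t x).im ≤ 0 := by
    intro t ht x hx
    rcases eq_or_ne x u with rfl | hne
    · simpa using ht
    · simpa [Function.update_of_ne hne] using hD x hx
  have hDi : ∀ x, x ∉ insert u T → (D x).im ≤ 0 := fun x hx =>
    hD x (fun h => hx (Finset.mem_insert_of_mem h))
  -- E1
  have E1 : ∀ t : ℂ, t.im ≤ 0 → gcut A (Function.update D u t) T u u ≠ 0 → ∀ w,
      gcut A (Function.update D u t) T w y
        - gcut A (Function.update D u t) T u y / gcut A (Function.update D u t) T u u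
          * gcut A (Function.update D u t) T w u = gcut A D (insert u T) w y := by
    intro t ht hn w
    set G := gcut A (Function.update D u t) T with hG
    refine gcut_unique hA hDi (φ := fun w => G w y - G u y / G u u * G w u) ?_ w
    intro w
    have e1 := gcut_eq hA (hDt t ht) w y
    have e2 := gcut_eq hA (hDt t ht) w u
    rw [← hG] at e1 e2
    by_cases hwu : w = u
    · subst hwu
      rw [if_pos (Finset.mem_insert_self _ _), if_neg (Ne.symm hyu)]
      field_simp
      ring
    · by_cases hwT : w ∈ T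
      · rw [if_pos (Finset.mem_insert_of_mem hwT)]
        rw [if_pos hwT] at e1 e2
        rw [if_neg hwu] at e2
        rw [e1, e2]; ring
      · rw [if_neg (by simp [hwu, hwT])]
        rw [if_neg hwT, Function.update_of_ne hwu] at e1 e2
        rw [if_neg hwu] at e2
        simp only [mul_sub, Finset.sum_sub_distrib]
        have : ∑ v, A w v * (G u y / G u u * G v u) = G u y / G u u * ∑ v, A w v * G v u := by
          rw [Finset.mul_sum]; exact Finset.sum_congr rfl fun v _ => by ring
        rw [this, ← e1]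
        linear_combination (-(G u y / G u u)) * e2
  -- E3: value of r
  have E3 : ∀ t : ℂ, t.im ≤ 0 → gcut A (Function.update D u t) T u u ≠ 0 →
      ∑ w, A u w * gcut A D (insert u T) w y
        = - (gcut A (Function.update D u t) T u y / gcut A (Function.update D u t) T u u) := by
    intro t ht hn
    set G := gcut A (Function.update D u t) T with hG
    have e1 := gcut_eq hA (hDt t ht) u y
    have e2 := gcut_eq hA (hDt t ht) u u
    rw [← hG, if_neg hu, if_neg (Ne.symm hyu), Function.update_self] at e1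
    rw [← hG, if_neg hu, if_pos rfl, Function.update_self] at e2
    have : ∑ w, A u w * gcut A D (insert u T) w y
        = ∑ w, A u w * G w y - G u y / G u u * ∑ w, A u w * G w u := by
      rw [Finset.mul_sum, ← Finset.sum_sub_distrib]
      refine Finset.sum_congr rfl fun w _ => ?_
      rw [← E1 t ht hn w]; ring
    rw [this]
    have e3 : ∑ w, A u w * G w y = - (t * G u y) := by linear_combination e1
    have e4 : ∑ w, A u w * G w u = 1 - t * G u u := by linear_combination e2
    rw [e3, e4]
    field_simp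
    ring
  -- E2: normalised column
  have E2 : ∀ w, gcut A (Function.update D u t1) T w u / gcut A (Function.update D u t1) T u u
      = gcut A (Function.update D u t2) T w u / gcut A (Function.update D u t2) T u u := by
    set G1 := gcut A (Function.update D u t1) T with hG1
    set G2 := gcut A (Function.update D u t2) T with hG2
    have hz : (cutM A D (insert u T)).mulVec (fun w => G1 w u / G1 u u - G2 w u / G2 u u) = 0 := by
      funext w
      rw [cutM_mulVec, Pi.zero_apply]
      by_cases hwu : w = u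
      · subst hwu
        rw [if_pos (Finset.mem_insert_self _ _), div_self hn1, div_self hn2, sub_self]
      · have e1 := gcut_eq hA (hDt t1 h1) w u
        have e2 := gcut_eq hA (hDt t2 h2) w u
        rw [← hG1, if_neg hwu] at e1
        rw [← hG2, if_neg hwu] at e2
        by_cases hwT : w ∈ T
        · rw [if_pos (Finset.mem_insert_of_mem hwT)]
          rw [if_pos hwT] at e1 e2
          rw [e1, e2]; simp
        · rw [if_neg (by simp [hwu, hwT])]
          rw [if_neg hwT, Function.update_of_ne hwu] at e1 e2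
          have : ∑ v, A w v * (G1 v u / G1 u u - G2 v u / G2 u u)
              = (∑ v, A w v * G1 v u) / G1 u u - (∑ v, A w v * G2 v u) / G2 u u := by
            rw [Finset.sum_div, Finset.sum_div, ← Finset.sum_sub_distrib]
            exact Finset.sum_congr rfl fun v _ => by ring
          rw [this]
          have e3 : ∑ v, A w v * G1 v u = - (D w * G1 w u) := by linear_combination e1
          have e4 : ∑ v, A w v * G2 v u = - (D w * G2 w u) := by linear_combination e2
          rw [e3, e4]; ring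
    intro w
    have := congrFun (cutM_injective hA hDi hz) w
    exact sub_eq_zero.1 this
  -- E4
  have E4 : 1 / gcut A (Function.update D u t1) T u u - t1
      = 1 / gcut A (Function.update D u t2) T u u - t2 := by
    have key : ∀ t : ℂ, t.im ≤ 0 → gcut A (Function.update D u t) T u u ≠ 0 →
        1 / gcut A (Function.update D u t) T u u - t
          = ∑ w, A u w * (gcut A (Function.update D u t) T w u
            / gcut A (Function.update D u t) T u u) := by
      intro t ht hn
      have e2 := gcut_eq hA (hDt t ht) u u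
      rw [if_neg hu, if_pos rfl, Function.update_self] at e2
      have : ∑ w, A u w * (gcut A (Function.update D u t) T w u
            / gcut A (Function.update D u t) T u u)
          = (∑ w, A u w * gcut A (Function.update D u t) T w u)
            / gcut A (Function.update D u t) T u u := by
        rw [Finset.sum_div]
        exact Finset.sum_congr rfl fun v _ => by ring
      rw [this]
      have e4 : ∑ w, A u w * gcut A (Function.update D u t) T w u
          = 1 - t * gcut A (Function.update D u t) T u u := by linear_combination e2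
      rw [e4]
      field_simp
    rw [key t1 h1 hn1, key t2 h2 hn2]
    exact Finset.sum_congr rfl fun w _ => by rw [E2 w]
  have F1 := E1 t1 h1 hn1 x
  have F2 := E1 t2 h2 hn2 x
  have F3 := (E3 t1 h1 hn1).symm.trans (E3 t2 h2 hn2)
  have F4 := E2 x
  set G1 := gcut A (Function.update D u t1) T with hG1
  set G2 := gcut A (Function.update D u t2) T with hG2
  set α := gcut A D (insert u T) x y with hα
  have hr : G1 u y / G1 u u = G2 u y / G2 u u := by linear_combination -F3
  have g1 : G1 x y / G1 u u = α / G1 u u + G1 u y / G1 u u * (G1 x u / G1 u u) := by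
    rw [← F1]; ring
  have g2 : G2 x y / G2 u u = α / G2 u u + G2 u y / G2 u u * (G2 x u / G2 u u) := by
    rw [← F2]; ring
  rw [g1, g2, hr, F4]
  linear_combination (-α) * E4

/-- the base case: all neighbours of the path are cut -/
lemma path_lower {A : Matrix n n ℂ} (hA : Diss A) {D : n → ℂ} {R : Finset n}
    (hD : ∀ x, x ∉ R → (D x).im ≤ 0) {k : ℕ} {p : ℕ → n}
    (hinj : ∀ i ≤ k, ∀ j ≤ k, p i = p j → i = j) (hpR : ∀ i ≤ k, p i ∉ R) {a : ℕ → ℂ}
    (hrow : ∀ i ≤ k, ∀ φ : n → ℂ, (∀ x ∈ R, φ x = 0) → ∑ w, A (p i) w * φ w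
      = a i * φ (p i) - (if i = 0 then 0 else φ (p (i - 1))) - (if i = k then 0 else φ (p (i + 1))))
    {B : ℝ} (hB : 0 ≤ B) (ha : ∀ i ≤ k, ‖a i + D (p i)‖ ≤ B) :
    1 / (B + 1) ^ (k + 1) ≤ ‖gcut A D R (p 0) (p k)‖ := by
  set φ : n → ℂ := fun x => gcut A D R x (p k) with hφ
  have hR0 : ∀ x ∈ R, φ x = 0 := by
    intro x hx
    have := gcut_eq hA hD x (p k)
    rw [if_pos hx, if_neg (fun h : x = p k => hpR k le_rfl (h ▸ hx))] at this
    exact this
  have heq : ∀ i ≤ k, (a i + D (p i)) * φ (p i) - (if i = 0 then 0 else φ (p (i - 1)))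
      - (if i = k then 0 else φ (p (i + 1))) = if i = k then 1 else 0 := by
    intro i hi
    have h1 := gcut_eq hA hD (p i) (p k)
    rw [if_neg (hpR i hi)] at h1
    change (∑ w, A (p i) w * φ w) + D (p i) * φ (p i) = _ at h1
    rw [hrow i hi φ hR0] at h1
    have h2 : (if p i = p k then (1 : ℂ) else 0) = if i = k then 1 else 0 := by
      by_cases h : i = k
      · simp [h]
      · rw [if_neg h, if_neg (fun h' => h (hinj i hi k le_rfl h'))]
    rw [h2] at h1
    rw [← h1]; ring
  have hB1 : (1 : ℝ) ≤ B + 1 := by linarith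
  have key : ∀ i, i ≤ k → ‖φ (p i)‖ ≤ (B + 1) ^ i * ‖φ (p 0)‖ ∧
      (i ≠ 0 → ‖φ (p (i - 1))‖ ≤ (B + 1) ^ i * ‖φ (p 0)‖) := by
    intro i
    induction i with
    | zero => intro _; simp
    | succ i ih =>
      intro hi
      obtain ⟨ih1, ih2⟩ := ih (by omega)
      have h1 := heq i (by omega)
      rw [if_neg (show i ≠ k by omega), if_neg (show i ≠ k by omega)] at h1
      have h0 := norm_nonneg (φ (p 0))
      have hpow : (B + 1) ^ i ≤ (B + 1) ^ (i + 1) := pow_le_pow_right₀ hB1 (Nat.le_succ i)
      refine ⟨?_, fun _ => ?_⟩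
      · have h2 : φ (p (i + 1)) = (a i + D (p i)) * φ (p i)
            - (if i = 0 then 0 else φ (p (i - 1))) := by linear_combination -h1
        rw [h2]
        have h3 : ‖(if i = 0 then (0 : ℂ) else φ (p (i - 1)))‖ ≤ (B + 1) ^ i * ‖φ (p 0)‖ := by
          split_ifs with h
          · rw [norm_zero]; positivity
          · exact ih2 h
        calc ‖(a i + D (p i)) * φ (p i) - (if i = 0 then 0 else φ (p (i - 1)))‖
            ≤ ‖(a i + D (p i)) * φ (p i)‖ + ‖(if i = 0 then (0 : ℂ) else φ (p (i - 1)))‖ :=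
              norm_sub_le _ _
          _ ≤ B * ((B + 1) ^ i * ‖φ (p 0)‖) + (B + 1) ^ i * ‖φ (p 0)‖ := by
              refine add_le_add ?_ h3
              rw [norm_mul]
              exact mul_le_mul (ha i (by omega)) ih1 (norm_nonneg _) hB
          _ = (B + 1) ^ (i + 1) * ‖φ (p 0)‖ := by ring
      · rw [Nat.add_sub_cancel]
        exact ih1.trans (mul_le_mul_of_nonneg_right hpow h0)
  obtain ⟨k1, k2⟩ := key k le_rfl
  have h1 := heq k le_rfl
  rw [if_pos rfl, if_pos rfl, sub_zero] at h1
  have h3 : ‖(if k = 0 then (0 : ℂ) else φ (p (k - 1)))‖ ≤ (B + 1) ^ k * ‖φ (p 0)‖ := by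
    split_ifs with h
    · rw [norm_zero]; positivity
    · exact k2 h
  have h4 : (1 : ℝ) ≤ (B + 1) ^ (k + 1) * ‖φ (p 0)‖ := by
    calc (1 : ℝ) = ‖(1 : ℂ)‖ := by simp
      _ ≤ ‖(a k + D (p k)) * φ (p k)‖ + ‖(if k = 0 then (0 : ℂ) else φ (p (k - 1)))‖ := by
          rw [← h1]; exact norm_sub_le _ _
      _ ≤ B * ((B + 1) ^ k * ‖φ (p 0)‖) + (B + 1) ^ k * ‖φ (p 0)‖ := by
          refine add_le_add ?_ h3
          rw [norm_mul]
          exact mul_le_mul (ha k le_rfl) k1 (norm_nonneg _) hB
      _ = (B + 1) ^ (k + 1) * ‖φ (p 0)‖ := by ring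
  rw [div_le_iff₀ (by positivity)]
  rw [mul_comm]; exact h4

/-- **Lower bound for the inverse between the end points of a path**, for a suitable choice of
the absorption `-i` or `-2i` at each site. -/
theorem exists_absorb {A : Matrix n n ℂ} (hA : Diss A) {R : Finset n} {k : ℕ} {p : ℕ → n}
    (hinj : ∀ i ≤ k, ∀ j ≤ k, p i = p j → i = j) (hpR : ∀ i ≤ k, p i ∉ R) {a : ℕ → ℂ}
    (hrow : ∀ i ≤ k, ∀ φ : n → ℂ, (∀ x ∈ R, φ x = 0) → ∑ w, A (p i) w * φ w
      = a i * φ (p i) - (if i = 0 then 0 else φ (p (i - 1))) - (if i = k then 0 else φ (p (i + 1))))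
    {B S : ℝ} (hB : 0 ≤ B) (hS : 0 ≤ S) (ha : ∀ i ≤ k, ‖a i‖ + 2 ≤ B)
    (hR1 : ∀ u ∈ R, ‖A u u‖ + 2 ≤ B) (hR2 : ∀ u ∈ R, ∑ w ∈ univ.erase u, ‖A u w‖ ≤ S) :
    ∃ D : n → ℂ, (∀ x, D x = -Complex.I ∨ D x = -2 * Complex.I) ∧
      (1 / (B + S + 1) ^ 2 / 2) ^ R.card * (1 / (B + 1) ^ (k + 1))
        ≤ ‖gcut A D ∅ (p 0) (p k)‖ := by
  set c : ℝ := 1 / (B + S + 1) ^ 2 / 2 with hc
  have hc0 : 0 < 1 / (B + S + 1) ^ 2 := by positivity
  have hIm : ∀ z : ℂ, (z = -Complex.I ∨ z = -2 * Complex.I) → z.im ≤ -1 := by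
    rintro z (rfl | rfl)
    · simp
    · norm_num [Complex.mul_im]
  have hNm : ∀ z : ℂ, (z = -Complex.I ∨ z = -2 * Complex.I) → ‖z‖ ≤ 2 := by
    rintro z (rfl | rfl) <;> simp
  -- descending induction over the cut set
  have main : ∀ m : ℕ, ∀ T ⊆ R, (R \ T).card = m →
      ∃ D : n → ℂ, (∀ x, D x = -Complex.I ∨ D x = -2 * Complex.I) ∧
      c ^ m * (1 / (B + 1) ^ (k + 1)) ≤ ‖gcut A D T (p 0) (p k)‖ := by
    intro m
    induction m with
    | zero =>
      intro T hT hcard
      have hTR : T = R := by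
        refine Finset.Subset.antisymm hT ?_
        rw [Finset.card_eq_zero, Finset.sdiff_eq_empty_iff_subset] at hcard
        exact hcard
      subst hTR
      refine ⟨fun _ => -Complex.I, fun _ => Or.inl rfl, ?_⟩
      rw [pow_zero, one_mul]
      refine path_lower hA (fun x _ => (hIm _ (Or.inl rfl)).trans (by norm_num)) hinj hpR hrow hB ?_
      intro i hi
      exact (norm_add_le _ _).trans (le_trans (by gcongr; exact hNm _ (Or.inl rfl)) (ha i hi))
    | succ m ih =>
      intro T hT hcard
      obtain ⟨u, hu⟩ : (R \ T).Nonempty := Finset.card_pos.1 (by omega)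
      rw [Finset.mem_sdiff] at hu
      have hsub : insert u T ⊆ R := Finset.insert_subset hu.1 hT
      have hcard' : (R \ insert u T).card = m := by
        have : R \ insert u T = (R \ T).erase u := by
          ext v; simp only [Finset.mem_sdiff, Finset.mem_insert, Finset.mem_erase]; tauto
        rw [this, Finset.card_erase_of_mem (Finset.mem_sdiff.2 hu)]
        omega
      obtain ⟨D, hD, hlow⟩ := ih _ hsub hcard'
      set D1 := Function.update D u (-Complex.I) with hD1
      set D2 := Function.update D u (-2 * Complex.I) with hD2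
      have hD1' : ∀ x, D1 x = -Complex.I ∨ D1 x = -2 * Complex.I := by
        intro x
        rcases eq_or_ne x u with rfl | hne
        · left; simp [hD1]
        · rw [hD1, Function.update_of_ne hne]; exact hD x
      have hD2' : ∀ x, D2 x = -Complex.I ∨ D2 x = -2 * Complex.I := by
        intro x
        rcases eq_or_ne x u with rfl | hne
        · right; simp [hD2]
        · rw [hD2, Function.update_of_ne hne]; exact hD x
      have hlow' : ∀ D' : n → ℂ, (∀ x, D' x = -Complex.I ∨ D' x = -2 * Complex.I) →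
          1 / (B + S + 1) ^ 2 ≤ ‖gcut A D' T u u‖ := by
        intro D' hD'
        refine gcut_diag_lower hA (fun x _ => hIm _ (hD' x)) hu.2 hB hS ?_ (hR2 u hu.1)
        exact (norm_add_le _ _).trans (le_trans (by gcongr; exact hNm _ (hD' u)) (hR1 u hu.1))
      have l1 := hlow' D1 hD1'
      have l2 := hlow' D2 hD2'
      have hn1 : gcut A D1 T u u ≠ 0 := by
        intro h; rw [h, norm_zero] at l1; linarith
      have hn2 : gcut A D2 T u u ≠ 0 := by
        intro h; rw [h, norm_zero] at l2; linarith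
      have hstep := gcut_cut_step hA (D := D) hu.2 (fun x _ => (hIm _ (hD x)).trans (by norm_num))
        (t1 := -Complex.I) (t2 := -2 * Complex.I) (by simp) (by norm_num [Complex.mul_im])
        (x := p 0) (y := p k) (fun h => hpR k le_rfl (h ▸ hu.1)) hn1 hn2
      rw [← hD1, ← hD2] at hstep
      have hI : (-Complex.I - -2 * Complex.I) = Complex.I := by ring
      rw [hI] at hstep
      have hnorm : ‖gcut A D (insert u T) (p 0) (p k)‖
          ≤ ‖gcut A D1 T (p 0) (p k)‖ / ‖gcut A D1 T u u‖
            + ‖gcut A D2 T (p 0) (p k)‖ / ‖gcut A D2 T u u‖ := by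
        have := congrArg norm hstep
        rw [norm_mul, Complex.norm_I, mul_one] at this
        rw [this]
        refine (norm_sub_le _ _).trans (le_of_eq ?_)
        rw [norm_div, norm_div]
      have hb : ∀ G a : ℝ, 0 ≤ G → 1 / (B + S + 1) ^ 2 ≤ a → G / a ≤ G / (1 / (B + S + 1) ^ 2) :=
        fun G a hG h => div_le_div_of_nonneg_left hG hc0 h
      have h5 := hb _ _ (norm_nonneg (gcut A D1 T (p 0) (p k))) l1
      have h6 := hb _ _ (norm_nonneg (gcut A D2 T (p 0) (p k))) l2
      have h7 : (1 / (B + S + 1) ^ 2) * ‖gcut A D (insert u T) (p 0) (p k)‖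
          ≤ ‖gcut A D1 T (p 0) (p k)‖ + ‖gcut A D2 T (p 0) (p k)‖ := by
        have h8 := hnorm.trans (add_le_add h5 h6)
        rw [← add_div, le_div_iff₀ hc0] at h8
        linarith
      have h9 : c ^ (m + 1) * (1 / (B + 1) ^ (k + 1)) = c * (c ^ m * (1 / (B + 1) ^ (k + 1))) := by
        ring
      have h10 : c * (c ^ m * (1 / (B + 1) ^ (k + 1)))
          ≤ (1 / (B + S + 1) ^ 2) * ‖gcut A D (insert u T) (p 0) (p k)‖ / 2 := by
        have : c * (c ^ m * (1 / (B + 1) ^ (k + 1)))
            ≤ c * ‖gcut A D (insert u T) (p 0) (p k)‖ :=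
          mul_le_mul_of_nonneg_left hlow (by positivity)
        refine this.trans (le_of_eq ?_)
        rw [hc]; ring
      by_cases hcmp : ‖gcut A D2 T (p 0) (p k)‖ ≤ ‖gcut A D1 T (p 0) (p k)‖
      · refine ⟨D1, hD1', ?_⟩
        rw [h9]; linarith
      · refine ⟨D2, hD2', ?_⟩
        rw [h9]; linarith
  obtain ⟨D, hD, h⟩ := main R.card ∅ (Finset.empty_subset _) (by simp)
  exact ⟨D, hD, h⟩

end Pool.Agent.Helper3.Crit
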