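import Pool.Agent.Helper3.Crit.Defs
import Pool.Agent.Helper3.Crit.Diss
import Pool.Agent.Helper3.Anderson.Base

/-! Compression of the Green function to a finite set of sites. -/

open scoped ENNReal NNReal InnerProductSpace
open MeasureTheory Set Filter Topology

noncomputable section

namespace Pool.Agent.Helper3.Crit

open Pool.Agent.Helper3.Anderson

variable {d : ℕ}

/-- compression of the resolvent to `Q` -/
def gQ (V : Site d → ℝ) (z : ℂ) (Q : Finset (Site d)) : Matrix Q Q ℂ :=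
  fun u w => green V z u w

lemma inner_dl (x : Site d) (φ : L2 d) : ⟪dl x, φ⟫_ℂ = φ x := by
  rw [dl, lp.inner_single_left]
  simp

lemma res_sum (V : Site d → ℝ) (hV : Bdd V) (z : ℂ) (Q : Finset (Site d)) (χ : Q → ℂ) :
    res V hV z (∑ w : Q, χ w • dl (w : Site d)) = ∑ w : Q, χ w • res V hV z (dl (w : Site d)) := by
  rw [map_sum]
  exact Finset.sum_congr rfl fun w _ => by rw [map_smul]

lemma gQ_quad (V : Site d → ℝ) (hV : Bdd V) (z : ℂ) (Q : Finset (Site d)) (χ : Q → ℂ) :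
    ∑ x, (starRingEnd ℂ) (χ x) * ∑ w, gQ V z Q x w * χ w
      = ⟪(∑ w : Q, χ w • dl (w : Site d) : L2 d), res V hV z (∑ w : Q, χ w • dl (w : Site d))⟫_ℂ := by
  rw [sum_inner]
  refine Finset.sum_congr rfl fun x _ => ?_
  rw [inner_smul_left, inner_dl, res_sum, coeFn_sum_apply]
  congr 1
  refine Finset.sum_congr rfl fun w _ => ?_
  rw [lp.coeFn_smul, Pi.smul_apply, smul_eq_mul, gQ, green_eq V hV, mul_comm]

lemma sum_dl_ne_zero (Q : Finset (Site d)) {χ : Q → ℂ} (h : χ ≠ 0) :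
    (∑ w : Q, χ w • dl (w : Site d) : L2 d) ≠ 0 := by
  intro h0
  apply h
  funext x
  have h1 : (∑ w : Q, χ w • dl (w : Site d) : L2 d) (x : Site d) = χ x := by
    rw [coeFn_sum_apply, Finset.sum_eq_single x]
    · rw [lp.coeFn_smul, Pi.smul_apply, dl_apply, if_pos rfl, smul_eq_mul, mul_one]
    · intro w _ hw
      rw [lp.coeFn_smul, Pi.smul_apply, dl_apply, if_neg, smul_zero]
      exact fun h => hw (Subtype.ext h.symm)
    · intro h; exact absurd (Finset.mem_univ _) h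
  rw [← h1, h0]; rfl

lemma gQ_pos (V : Site d → ℝ) (hV : Bdd V) {z : ℂ} (hz0 : 0 < z.im) (Q : Finset (Site d))
    {χ : Q → ℂ} (h : χ ≠ 0) :
    0 < (∑ x, (starRingEnd ℂ) (χ x) * ∑ w, gQ V z Q x w * χ w).im := by
  rw [gQ_quad V hV]
  set ψ : L2 d := ∑ w : Q, χ w • dl (w : Site d) with hψ
  have hψ0 : ψ ≠ 0 := sum_dl_ne_zero Q h
  set φ := res V hV z ψ with hφ
  have h1 : hz V hV z φ = ψ := hz_res V hV hz0.ne' ψ
  have hφ0 : φ ≠ 0 := by
    intro h0; apply hψ0; rw [← h1, h0, map_zero]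
  have h2 := im_inner_hz V hV z φ
  rw [h1] at h2
  have h3 : (⟪ψ, φ⟫_ℂ).im = - (⟪φ, ψ⟫_ℂ).im := by
    rw [← inner_conj_symm, Complex.conj_im]
  rw [h3, h2]
  have : 0 < ‖φ‖ := norm_pos_iff.2 hφ0
  have := mul_pos hz0 (pow_pos this 2)
  linarith

lemma isUnit_gQ (V : Site d → ℝ) (hV : Bdd V) {z : ℂ} (hz0 : 0 < z.im) (Q : Finset (Site d)) :
    IsUnit (gQ V z Q) := by
  rw [← Matrix.mulVec_injective_iff_isUnit]
  intro φ ψ h
  by_contra hne
  have h1 := gQ_pos V hV hz0 Q (sub_ne_zero.2 hne)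
  have h2 : (gQ V z Q).mulVec (φ - ψ) = 0 := by
    rw [Matrix.mulVec_sub]; exact sub_eq_zero.2 h
  have h3 : ∀ x, ∑ w, gQ V z Q x w * (φ - ψ) w = 0 := fun x => congrFun h2 x
  have h4 : ∑ x, (starRingEnd ℂ) ((φ - ψ) x) * ∑ w, gQ V z Q x w * (φ - ψ) w = 0 :=
    Finset.sum_eq_zero fun x _ => by rw [h3 x, mul_zero]
  rw [h4] at h1
  exact lt_irrefl _ h1

/-- the inverse of the compression -/
def AQ (V : Site d → ℝ) (z : ℂ) (Q : Finset (Site d)) : Matrix Q Q ℂ := (gQ V z Q)⁻¹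

lemma gQ_mul_AQ (V : Site d → ℝ) (hV : Bdd V) {z : ℂ} (hz0 : 0 < z.im) (Q : Finset (Site d)) :
    gQ V z Q * AQ V z Q = 1 :=
  Matrix.mul_nonsing_inv _ ((Matrix.isUnit_iff_isUnit_det _).1 (isUnit_gQ V hV hz0 Q))

lemma AQ_mul_gQ (V : Site d → ℝ) (hV : Bdd V) {z : ℂ} (hz0 : 0 < z.im) (Q : Finset (Site d)) :
    AQ V z Q * gQ V z Q = 1 :=
  Matrix.nonsing_inv_mul _ ((Matrix.isUnit_iff_isUnit_det _).1 (isUnit_gQ V hV hz0 Q))

lemma diss_AQ (V : Site d → ℝ) (hV : Bdd V) {z : ℂ} (hz0 : 0 < z.im) (Q : Finset (Site d)) :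
    Diss (AQ V z Q) := by
  intro φ hφ
  set χ := (AQ V z Q).mulVec φ with hχ
  have h1 : (gQ V z Q).mulVec χ = φ := by
    rw [hχ, Matrix.mulVec_mulVec, gQ_mul_AQ V hV hz0, Matrix.one_mulVec]
  have hχ0 : χ ≠ 0 := by
    intro h0; apply hφ; rw [← h1, h0, Matrix.mulVec_zero]
  have h2 := gQ_pos V hV hz0 Q hχ0
  have e1 : ∑ x, (starRingEnd ℂ) (χ x) * ∑ w, gQ V z Q x w * χ w
      = ∑ x, (starRingEnd ℂ) (χ x) * φ x := by
    refine Finset.sum_congr rfl fun x _ => ?_
    rw [← h1]; rfl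
  have e2 : ∑ x, (starRingEnd ℂ) (φ x) * ∑ w, AQ V z Q x w * φ w
      = (starRingEnd ℂ) (∑ x, (starRingEnd ℂ) (χ x) * φ x) := by
    rw [map_sum]
    refine Finset.sum_congr rfl fun x _ => ?_
    rw [map_mul, Complex.conj_conj, mul_comm]
    rfl
  rw [e2, Complex.conj_im, ← e1]
  linarith

/-- resolvent identity for two potentials which differ on a finite set -/
lemma green_sub_sum (V W : Site d → ℝ) (hV : Bdd V) (hW : Bdd W) {z : ℂ} (hz0 : 0 < z.im)
    (Q : Finset (Site d)) (h : ∀ x, x ∉ Q → V x = W x) (x y : Site d) :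
    green V z x y - green W z x y
      = ∑ u : Q, green V z x u * (((W u - V u : ℝ) : ℂ) * green W z u y) := by
  have h1 := res_sub_res V W hV hW hz0 (dl y)
  have h2 : (hz W hW z (res W hW z (dl y)) - hz V hV z (res W hW z (dl y)) : L2 d)
      = ∑ u : Q, (((W u - V u : ℝ) : ℂ) * green W z u y) • dl (u : Site d) := by
    ext w
    rw [hz_sub_hz, coeFn_sum_apply]
    by_cases hw : w ∈ Q
    · rw [Finset.sum_eq_single ⟨w, hw⟩]
      · rw [lp.coeFn_smul, Pi.smul_apply, dl_apply, if_pos rfl, smul_eq_mul, mul_one, green_eq W hW]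
      · intro b _ hb
        rw [lp.coeFn_smul, Pi.smul_apply, dl_apply, if_neg, smul_zero]
        intro hwb; exact hb (Subtype.ext hwb.symm)
      · intro h; exact absurd (Finset.mem_univ _) h
    · rw [h w hw, sub_self, Complex.ofReal_zero, zero_mul, Finset.sum_eq_zero]
      intro b _
      rw [lp.coeFn_smul, Pi.smul_apply, dl_apply, if_neg, smul_zero]
      intro hwb; exact hw (hwb ▸ b.2)
  rw [h2, res_sum] at h1
  have h3 := congrArg (fun φ : L2 d => φ x) h1
  simp only [lp.coeFn_sub, Pi.sub_apply] at h3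
  rw [green_eq V hV, green_eq W hW, h3, coeFn_sum_apply]
  refine Finset.sum_congr rfl fun u _ => ?_
  rw [lp.coeFn_smul, Pi.smul_apply, smul_eq_mul, green_eq V hV, mul_comm, green_eq W hW]

/-- the compression for a changed potential -/
lemma gcut_AQ (V W : Site d → ℝ) (hV : Bdd V) (hW : Bdd W) {z : ℂ} (hz0 : 0 < z.im)
    (Q : Finset (Site d)) (h : ∀ x, x ∉ Q → V x = W x) (x y : Q) :
    gcut (AQ V z Q) (fun u => ((W u - V u : ℝ) : ℂ)) ∅ x y = green W z x y := by
  symm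
  refine gcut_unique (diss_AQ V hV hz0 Q) (T := ∅) (fun x _ => by simp)
    (φ := fun x : Q => green W z x y) ?_ x
  intro x
  rw [if_neg (Finset.notMem_empty _)]
  set φ : Q → ℂ := fun x => green W z x y with hφ
  set χ : Q → ℂ := fun u => (if u = y then 1 else 0) - ((W u - V u : ℝ) : ℂ) * φ u with hχ
  have h1 : (gQ V z Q).mulVec χ = φ := by
    funext u
    have h2 := green_sub_sum V W hV hW hz0 Q h u y
    simp only [Matrix.mulVec, dotProduct, hχ, mul_sub, Finset.sum_sub_distrib, gQ, mul_ite, mul_one,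
      mul_zero, Finset.sum_ite_eq', Finset.mem_univ, if_true]
    rw [hφ]
    simp only
    linear_combination h2
  have h3 : (AQ V z Q).mulVec φ = χ := by
    rw [← h1, Matrix.mulVec_mulVec, AQ_mul_gQ V hV hz0, Matrix.one_mulVec]
  have h4 : ∑ w, AQ V z Q x w * φ w = χ x := by
    rw [← h3]; rfl
  rw [h4, hχ]
  simp only
  ring

/-- extension by zero -/
def ext0 (Q : Finset (Site d)) (φ : Q → ℂ) (x : Site d) : ℂ := if h : x ∈ Q then φ ⟨x, h⟩ else 0

/-- exact rows -/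
lemma AQ_row (V : Site d → ℝ) (hV : Bdd V) {z : ℂ} (hz0 : 0 < z.im) (Q : Finset (Site d))
    (u : Q) (hu : ∀ j : Fin d, (u : Site d) + Pi.single j 1 ∈ Q ∧ (u : Site d) - Pi.single j 1 ∈ Q)
    (φ : Q → ℂ) : ∑ w, AQ V z Q u w * φ w
      = (2 * d + (V u : ℂ) - z) * φ u - nsum (ext0 Q φ) u := by
  set χ := (AQ V z Q).mulVec φ with hχ
  have h1 : (gQ V z Q).mulVec χ = φ := by
    rw [hχ, Matrix.mulVec_mulVec, gQ_mul_AQ V hV hz0, Matrix.one_mulVec]
  have h0 : ∑ w, AQ V z Q u w * φ w = χ u := rfl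
  have hφ : ∀ w : Q, φ w = ∑ y : Q, green V z w y * χ y := fun w => by rw [← h1]; rfl
  have hext : ∀ w (hw : w ∈ Q), ext0 Q φ w = ∑ y : Q, green V z w y * χ y := by
    intro w hw
    rw [ext0, dif_pos hw, hφ ⟨w, hw⟩]
  have h2 : nsum (ext0 Q φ) u = ∑ y : Q, (∑ j : Fin d, (green V z ((u : Site d) + Pi.single j 1) y
      + green V z ((u : Site d) - Pi.single j 1) y)) * χ y := by
    rw [nsum]
    simp only [Finset.sum_mul, add_mul]
    rw [Finset.sum_comm]
    refine Finset.sum_congr rfl fun j _ => ?_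
    rw [hext _ (hu j).1, hext _ (hu j).2, Finset.sum_add_distrib]
  have h3 : ∀ y : Q, ∑ j : Fin d, (green V z ((u : Site d) + Pi.single j 1) y
      + green V z ((u : Site d) - Pi.single j 1) y)
        = (2 * d + (V u : ℂ) - z) * green V z u y - if u = y then 1 else 0 := by
    intro y
    have := green_equation' V hV hz0 (u : Site d) (y : Site d)
    rw [this]
    have h5 : (if (u : Site d) = y then (1 : ℂ) else 0) = if u = y then 1 else 0 := by
      simp only [Subtype.ext_iff]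
    rw [h5]; ring
  have h6 : ∀ c : ℂ, ∑ y : Q, (c * green V z u y - if u = y then 1 else 0) * χ y
      = c * φ u - χ u := by
    intro c
    rw [hφ u, Finset.mul_sum]
    simp only [sub_mul, Finset.sum_sub_distrib, ite_mul, one_mul, zero_mul, Finset.sum_ite_eq,
      Finset.mem_univ, if_true]
    congr 1
    exact Finset.sum_congr rfl fun y _ => by ring
  rw [h0, h2, Finset.sum_congr rfl fun y _ => by rw [h3 y], h6]
  ring

end Pool.Agent.Helper3.Crit
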