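import Pool.Agent.Helper3.Crit.OneM
import Pool.Agent.Helper3.Crit.Comp
import Pool.Agent.Helper3.Crit.Path
import Pool.Agent.Helper3.Anderson.Symm

/-! Negative moments of the Green function, uniform up to the real axis. -/

open scoped ENNReal NNReal
open MeasureTheory Set

noncomputable section

namespace Pool.Agent.Helper3.Crit

open Pool.Agent.Helper3.Anderson

variable {d : ℕ}

/-- entries of the inverse compression at an interior site -/
lemma AQ_entry (V : Site d → ℝ) (hV : Bdd V) {z : ℂ} (hz0 : 0 < z.im) (Q : Finset (Site d))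
    (u : Q) (hu : nbs (u : Site d) ⊆ Q) (w : Q) :
    AQ V z Q u w = (if u = w then (2 * d + (V u : ℂ) - z) else 0)
      - (if (w : Site d) ∈ nbs (u : Site d) then 1 else 0) := by
  have hu' : ∀ j : Fin d, (u : Site d) + Pi.single j 1 ∈ Q ∧ (u : Site d) - Pi.single j 1 ∈ Q :=
    fun j => ⟨hu (mem_nbs.2 ⟨j, Or.inl rfl⟩), hu (mem_nbs.2 ⟨j, Or.inr rfl⟩)⟩
  have h := AQ_row V hV hz0 Q u hu' (Pi.single w 1)
  have e1 : ∑ w', AQ V z Q u w' * (Pi.single w (1 : ℂ) : Q → ℂ) w' = AQ V z Q u w := by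
    rw [Finset.sum_eq_single w]
    · simp
    · intro b _ hb; simp [Pi.single_eq_of_ne hb]
    · intro h; exact absurd (Finset.mem_univ _) h
  have e2 : nsum (ext0 Q (Pi.single w 1)) u = if (w : Site d) ∈ nbs (u : Site d) then 1 else 0 := by
    rw [nsum_eq_sum_nbs]
    have : ∀ x, ext0 Q (Pi.single w (1 : ℂ)) x = if x = (w : Site d) then 1 else 0 := by
      intro x
      unfold ext0
      by_cases hx : x ∈ Q
      · rw [dif_pos hx]
        by_cases hxw : x = w
        · subst hxw; simp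
        · rw [if_neg hxw, Pi.single_eq_of_ne]
          intro h; exact hxw (congrArg Subtype.val h)
      · rw [dif_neg hx, if_neg]
        rintro rfl; exact hx w.2
    simp only [this, Finset.sum_ite_eq']
  rw [e1, e2] at h
  rw [h]
  congr 1
  by_cases huw : u = w
  · subst huw; simp
  · rw [if_neg huw, Pi.single_eq_of_ne huw, mul_zero]

lemma self_notMem_nbs (u : Site d) : u ∉ nbs u := by
  intro h
  have := l1_nbs h
  rw [sub_self, l1_zero] at this
  exact absurd this (by norm_num)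

/-- the base potential: `0` on `Q` -/
def pot0 (M lam : ℝ) (Q : Finset (Site d)) (ω : Site d → ℝ) : Site d → ℝ :=
  fun x => if x ∈ Q then 0 else potc M lam ω x

lemma abs_pot0_le {M lam : ℝ} (hM : 0 ≤ M) (Q : Finset (Site d)) (ω : Site d → ℝ) (x : Site d) :
    |pot0 M lam Q ω x| ≤ |lam| * M := by
  unfold pot0
  split_ifs
  · rw [abs_zero]; positivity
  · exact abs_potc_le hM ω x

lemma bdd_pot0 {M lam : ℝ} (hM : 0 ≤ M) (Q : Finset (Site d)) (ω : Site d → ℝ) :
    Bdd (pot0 M lam Q ω) := ⟨_, abs_pot0_le hM Q ω⟩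

lemma measurable_green_pot0 {M lam : ℝ} (hM : 0 ≤ M) (Q : Finset (Site d)) {z : ℂ}
    (hz0 : 0 < z.im) (a b : Site d) :
    Measurable fun ω : Site d → ℝ => green (pot0 M lam Q ω) z a b := by
  refine (continuous_green (fun ω => pot0 M lam Q ω) (fun ω => abs_pot0_le hM Q ω)
    (fun w => ?_) hz0 a b).measurable
  unfold pot0
  by_cases h : w ∈ Q
  · simp only [h, if_true]; exact continuous_const
  · simp only [h, if_false]
    exact continuous_const.mul ((continuous_clip M).comp (continuous_apply w))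

section MeasInv
variable {Ω n : Type*} [MeasurableSpace Ω] [Fintype n] [DecidableEq n]

lemma measurable_det {Mt : Ω → Matrix n n ℂ} (h : ∀ x y, Measurable fun ω => Mt ω x y) :
    Measurable fun ω => (Mt ω).det := by
  simp only [Matrix.det_apply]
  refine Finset.measurable_sum _ fun σ _ => ?_
  refine Measurable.const_smul ?_ _
  exact Finset.measurable_prod _ fun i _ => h _ _

lemma measurable_inv_entry {Mt : Ω → Matrix n n ℂ} (h : ∀ x y, Measurable fun ω => Mt ω x y)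
    (x y : n) : Measurable fun ω => (Mt ω)⁻¹ x y := by
  simp only [Matrix.inv_def, Matrix.smul_apply, smul_eq_mul, Ring.inverse_eq_inv',
    Matrix.adjugate_apply]
  refine (measurable_det h).inv.mul (measurable_det fun a b => ?_)
  simp only [Matrix.updateRow_apply]
  split_ifs
  · exact measurable_const
  · exact h _ _

end MeasInv

/-- potentials on `Q`: absorption on `T`, random elsewhere -/
def Wpot (M lam : ℝ) (Q : Finset (Site d)) (T : Finset Q) (b : Q → Bool) (ω : Site d → ℝ) : Q → ℂ :=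
  fun u => if u ∈ T then (if b u then -Complex.I else -2 * Complex.I)
    else ((lam * clip M (ω u) : ℝ) : ℂ)

lemma Wpot_im (M lam : ℝ) (Q : Finset (Site d)) (T : Finset Q) (b : Q → Bool) (ω : Site d → ℝ)
    (u : Q) : (Wpot M lam Q T b ω u).im ≤ 0 := by
  unfold Wpot
  split_ifs
  · simp
  · norm_num [Complex.mul_im]
  · rw [Complex.ofReal_im]

/-- the mixed Green function -/
def Gmix (M lam : ℝ) (z : ℂ) (Q : Finset (Site d)) (T : Finset Q) (b : Q → Bool) (x y : Q)
    (ω : Site d → ℝ) : ℂ :=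
  gcut (AQ (pot0 M lam Q ω) z Q) (Wpot M lam Q T b ω) ∅ x y

lemma measurable_Gmix {M lam : ℝ} (hM : 0 ≤ M) {z : ℂ} (hz0 : 0 < z.im) (Q : Finset (Site d))
    (T : Finset Q) (b : Q → Bool) (x y : Q) : Measurable (Gmix M lam z Q T b x y) := by
  unfold Gmix gcut
  refine measurable_inv_entry (fun a c => ?_) x y
  simp only [cutM, Finset.notMem_empty, if_false]
  refine Measurable.add ?_ ?_
  · unfold AQ
    exact measurable_inv_entry (fun a c => measurable_green_pot0 hM Q hz0 _ _) a c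
  · split_ifs
    · unfold Wpot
      split_ifs
      · exact measurable_const
      · exact measurable_const
      · have : Measurable fun ω : Site d → ℝ => (lam * clip M (ω a) : ℝ) :=
          measurable_const.mul ((continuous_clip M).measurable.comp (measurable_pi_apply _))
        exact Complex.measurable_ofReal.comp this
    · exact measurable_const

/-- the best choice of absorptions on `T` -/
def Fmix (M lam : ℝ) (z : ℂ) (Q : Finset (Site d)) (T : Finset Q) (x y : Q)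
    (ω : Site d → ℝ) : ℝ≥0∞ :=
  ⨅ b : Q → Bool, ‖Gmix M lam z Q T b x y ω‖ₑ ^ (-(1/2 : ℝ))

lemma measurable_Fmix {M lam : ℝ} (hM : 0 ≤ M) {z : ℂ} (hz0 : 0 < z.im) (Q : Finset (Site d))
    (T : Finset Q) (x y : Q) : Measurable (Fmix M lam z Q T x y) := by
  unfold Fmix
  exact Measurable.iInf fun b => ((measurable_Gmix hM hz0 Q T b x y).enorm).pow_const _

lemma Fmix_step {μ : Measure ℝ} [IsProbabilityMeasure μ] {M lam : ℝ} {K : ℝ≥0}
    (hμ : GoodLaw μ M K) (hlam : 0 < lam) {z : ℂ} (hz0 : 0 < z.im) (Q : Finset (Site d))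
    (T : Finset Q) {u : Q} (hu : u ∉ T) (x y : Q) :
    ∫⁻ ω, Fmix M lam z Q T x y ω ∂(Measure.infinitePi (fun _ : Site d => μ))
      ≤ C4 M lam K * ∫⁻ ω, Fmix M lam z Q (insert u T) x y ω
        ∂(Measure.infinitePi (fun _ : Site d => μ)) := by
  have hM : 0 ≤ M := by linarith [hμ.one_le]
  rw [lintegral_resample (u : Site d) (measurable_Fmix hM hz0 Q T x y),
    ← lintegral_const_mul _ (measurable_Fmix hM hz0 Q _ x y)]
  refine lintegral_mono fun ω => ?_
  obtain ⟨b, hb⟩ := exists_eq_ciInf_of_finite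
    (f := fun b : Q → Bool => ‖Gmix M lam z Q (insert u T) b x y ω‖ₑ ^ (-(1/2 : ℝ)))
  have hF : Fmix M lam z Q (insert u T) x y ω
      = ‖Gmix M lam z Q (insert u T) b x y ω‖ₑ ^ (-(1/2 : ℝ)) := hb.symm
  rw [hF]
  have h1 : ∀ t : ℝ, pot0 M lam Q (Function.update ω (u : Site d) t) = pot0 M lam Q ω := by
    intro t
    funext v
    unfold pot0
    split_ifs with hv
    · rfl
    · rw [potc, potc, Function.update_of_ne]
      rintro rfl; exact hv u.2
  have h2 : ∀ t : ℝ, Wpot M lam Q T b (Function.update ω (u : Site d) t)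
      = Function.update (Wpot M lam Q T b ω) u ((lam * clip M t : ℝ) : ℂ) := by
    intro t
    funext v
    by_cases hv : v = u
    · subst hv
      rw [Function.update_self, Wpot, if_neg hu, Function.update_self]
    · rw [Function.update_of_ne hv]
      have hv' : (v : Site d) ≠ u := fun h => hv (Subtype.ext h)
      simp only [Wpot, Function.update_of_ne hv']
  set τ : ℂ := if b u then -Complex.I else -2 * Complex.I with hτ
  have h3 : Wpot M lam Q (insert u T) b ω = Function.update (Wpot M lam Q T b ω) u τ := by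
    funext v
    by_cases hv : v = u
    · subst hv
      rw [Function.update_self, Wpot, if_pos (Finset.mem_insert_self _ _)]
    · rw [Function.update_of_ne hv]
      simp only [Wpot, Finset.mem_insert, hv, false_or]
  have hτ' : τ = -Complex.I ∨ τ = -2 * Complex.I := by
    rw [hτ]; split_ifs
    · exact Or.inl rfl
    · exact Or.inr rfl
  calc ∫⁻ t, Fmix M lam z Q T x y (Function.update ω (u : Site d) t) ∂μ
      ≤ ∫⁻ t, ‖gcut (AQ (pot0 M lam Q ω) z Q) (Function.update (Wpot M lam Q T b ω) u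
          ((lam * clip M t : ℝ) : ℂ)) ∅ x y‖ₑ ^ (-(1/2 : ℝ)) ∂μ := by
        refine lintegral_mono fun t => ?_
        refine (iInf_le _ b).trans (le_of_eq ?_)
        rw [Gmix, h1, h2]
    _ ≤ C4 M lam K * ‖gcut (AQ (pot0 M lam Q ω) z Q) (Function.update (Wpot M lam Q T b ω) u τ)
          ∅ x y‖ₑ ^ (-(1/2 : ℝ)) :=
        neg_mat hμ hlam (diss_AQ _ (bdd_pot0 hM Q ω) hz0 Q) (Wpot_im M lam Q T b ω) u x y hτ'
    _ = _ := by rw [Gmix, h3]

lemma Fmix_iter {μ : Measure ℝ} [IsProbabilityMeasure μ] {M lam : ℝ} {K : ℝ≥0}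
    (hμ : GoodLaw μ M K) (hlam : 0 < lam) {z : ℂ} (hz0 : 0 < z.im) (Q : Finset (Site d))
    (T : Finset Q) (x y : Q) :
    ∫⁻ ω, Fmix M lam z Q ∅ x y ω ∂(Measure.infinitePi (fun _ : Site d => μ))
      ≤ (C4 M lam K) ^ T.card * ∫⁻ ω, Fmix M lam z Q T x y ω
        ∂(Measure.infinitePi (fun _ : Site d => μ)) := by
  induction T using Finset.induction_on with
  | empty => simp
  | insert u T hu ih =>
      refine ih.trans ?_
      rw [Finset.card_insert_of_notMem hu, pow_succ, mul_assoc]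
      gcongr
      exact Fmix_step hμ hlam hz0 Q T hu x y

lemma Fmix_empty {M lam : ℝ} (hM : 0 ≤ M) {z : ℂ} (hz0 : 0 < z.im) (Q : Finset (Site d))
    (x y : Q) (ω : Site d → ℝ) :
    Fmix M lam z Q ∅ x y ω = ‖gc M lam z ω x y‖ₑ ^ (-(1/2 : ℝ)) := by
  have h : ∀ b : Q → Bool, Gmix M lam z Q ∅ b x y ω = gc M lam z ω x y := by
    intro b
    have h1 := gcut_AQ (pot0 M lam Q ω) (potc M lam ω) (bdd_pot0 hM Q ω) (bdd_potc hM ω) hz0 Q
      (fun x hx => by rw [pot0, if_neg hx]) x y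
    rw [gc, ← h1, Gmix]
    congr 1
    funext u
    rw [Wpot, if_neg (Finset.notMem_empty _), pot0, if_pos u.2, sub_zero]
    rfl
  unfold Fmix
  simp only [h, ciInf_const]

/-- lower bound for a good choice of the absorptions -/
lemma exists_absorb_green {M lam : ℝ} (hM : 0 ≤ M) {z : ℂ} (hz0 : 0 < z.im) {v w : Site d} {k : ℕ}
    {p : ℕ → Site d} (hp : Geod v w k p) {P Q : Finset (Site d)}
    (hP : P = (Finset.range (k + 1)).image p) (hQ : Q = nbh (nbh P)) (hv : v ∈ Q) (hw : w ∈ Q)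
    {B : ℝ} (hB : 2 * d + ‖z‖ + 2 ≤ B) (ω : Site d → ℝ) :
    Fmix M lam z Q Finset.univ ⟨v, hv⟩ ⟨w, hw⟩ ω
      ≤ (ENNReal.ofReal ((1 / (B + 2 * d + 1) ^ 2 / 2) ^ ((2 * d + 1) * (k + 1))
        * (1 / (B + 1) ^ (k + 1)))) ^ (-(1/2 : ℝ)) := by
  classical
  set V := pot0 M lam Q ω with hVdef
  have hV : Bdd V := bdd_pot0 hM Q ω
  have hVQ : ∀ x ∈ Q, V x = 0 := fun x hx => by rw [hVdef, pot0, if_pos hx]
  have hPQ1 : P ⊆ nbh P := subset_nbh P
  have hPQ2 : nbh P ⊆ Q := hQ ▸ subset_nbh _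
  have hmemP : ∀ i ≤ k, p i ∈ P := fun i hi => by
    rw [hP]; exact Finset.mem_image.2 ⟨i, Finset.mem_range.2 (by omega), rfl⟩
  have hmem : ∀ i, p (min i k) ∈ Q := fun i => hPQ2 (hPQ1 (hmemP _ (min_le_right _ _)))
  set p' : ℕ → Q := fun i => ⟨p (min i k), hmem i⟩ with hp'
  have hp'v : ∀ i ≤ k, ((p' i : Q) : Site d) = p i := fun i hi => by
    simp [hp', min_eq_left hi]
  set R : Finset Q := Finset.univ.filter fun u : Q => (u : Site d) ∈ nbh P ∧ (u : Site d) ∉ P with hR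
  have hnbsQ : ∀ u : Q, (u : Site d) ∈ nbh P → nbs (u : Site d) ⊆ Q := fun u hu x hx => by
    have := nbs_subset_nbh hu hx
    rwa [← hQ] at this
  have hB0 : (0 : ℝ) ≤ B := by have := norm_nonneg z; linarith [Nat.cast_nonneg (α := ℝ) d]
  have hdz : ‖(2 * d : ℂ) - z‖ + 2 ≤ B := by
    have : ‖(2 * d : ℂ) - z‖ ≤ 2 * d + ‖z‖ := by
      refine (norm_sub_le _ _).trans ?_
      simp
    linarith
  have habs := exists_absorb (diss_AQ V hV hz0 Q) (R := R) (k := k) (p := p')
    (a := fun _ => (2 * d : ℂ) - z) (B := B) (S := 2 * d) ?_ ?_ ?_ hB0 (by positivity) ?_ ?_ ?_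
  rotate_left
  · intro i hi j hj hij
    refine hp.inj i hi j hj ?_
    rw [← hp'v i hi, ← hp'v j hj, hij]
  · intro i hi h
    rw [hR, Finset.mem_filter, hp'v i hi] at h
    exact h.2.2 (hmemP i hi)
  · intro i hi φ hφ
    have hiP := hmemP i hi
    have hsub : nbs ((p' i : Q) : Site d) ⊆ nbh P := by
      rw [hp'v i hi]; exact nbs_subset_nbh hiP
    rw [AQ_row V hV hz0 Q (p' i) (fun j => ⟨hPQ2 (hsub (mem_nbs.2 ⟨j, Or.inl rfl⟩)),
      hPQ2 (hsub (mem_nbs.2 ⟨j, Or.inr rfl⟩))⟩) φ, hVQ _ (p' i).2, hp'v i hi,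
      hp.nsum_eq hi (f := ext0 Q φ)]
    · have e1 : (if i = 0 then (0 : ℂ) else ext0 Q φ (p (i - 1)))
          = if i = 0 then 0 else φ (p' (i - 1)) := by
        split_ifs with h0
        · rfl
        · have hm : min (i - 1) k = i - 1 := min_eq_left (by omega)
          have : p (i - 1) ∈ Q := hPQ2 (hPQ1 (hmemP _ (by omega)))
          rw [ext0, dif_pos this]
          congr 1
          exact Subtype.ext (by simp [hp', hm])
      have e2 : (if i = k then (0 : ℂ) else ext0 Q φ (p (i + 1)))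
          = if i = k then 0 else φ (p' (i + 1)) := by
        split_ifs with h0
        · rfl
        · have hm : min (i + 1) k = i + 1 := min_eq_left (by omega)
          have : p (i + 1) ∈ Q := hPQ2 (hPQ1 (hmemP _ (by omega)))
          rw [ext0, dif_pos this]
          congr 1
          exact Subtype.ext (by simp [hp', hm])
      rw [e1, e2, Complex.ofReal_zero]
      ring
    · intro x hx hxP
      have hxn : x ∈ nbh P := by rw [← hp'v i hi] at hx; exact hsub hx
      have hxQ := hPQ2 hxn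
      rw [ext0, dif_pos hxQ]
      refine hφ _ (Finset.mem_filter.2 ⟨Finset.mem_univ _, hxn, ?_⟩)
      intro h
      rw [hP, Finset.mem_image] at h
      obtain ⟨l, hl, hl'⟩ := h
      exact hxP l (by rw [Finset.mem_range] at hl; omega) hl'.symm
  · intro i _; exact hdz
  · intro u hu
    rw [hR, Finset.mem_filter] at hu
    rw [AQ_entry V hV hz0 Q u (hnbsQ u hu.2.1), if_pos rfl, if_neg (self_notMem_nbs _), hVQ _ u.2]
    simpa using hdz
  · intro u hu
    rw [hR, Finset.mem_filter] at hu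
    have h1 : ∀ x ∈ Finset.univ.erase u, ‖AQ V z Q u x‖
        = if (x : Site d) ∈ nbs (u : Site d) then 1 else 0 := by
      intro x hx
      rw [AQ_entry V hV hz0 Q u (hnbsQ u hu.2.1), if_neg (Finset.mem_erase.1 hx).1.symm]
      split_ifs <;> simp
    rw [Finset.sum_congr rfl h1]
    calc ∑ x ∈ Finset.univ.erase u, (if (x : Site d) ∈ nbs (u : Site d) then (1 : ℝ) else 0)
        ≤ ∑ x : Q, (if (x : Site d) ∈ nbs (u : Site d) then (1 : ℝ) else 0) :=
          Finset.sum_le_sum_of_subset_of_nonneg (Finset.erase_subset _ _) fun x _ _ => by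
            split_ifs <;> norm_num
      _ = ∑ x ∈ Q, (if x ∈ nbs (u : Site d) then (1 : ℝ) else 0) := by
          rw [← Finset.sum_coe_sort Q (fun x => if x ∈ nbs (u : Site d) then (1 : ℝ) else 0)]
      _ = ((Q.filter fun x => x ∈ nbs (u : Site d)).card : ℝ) := by
          rw [Finset.sum_boole]
      _ ≤ ((nbs (u : Site d)).card : ℝ) := by
          exact_mod_cast Finset.card_le_card fun x hx => (Finset.mem_filter.1 hx).2
      _ ≤ 2 * d := by exact_mod_cast card_nbs_le (u : Site d)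
  obtain ⟨D, hD, hlow⟩ := habs
  set b : Q → Bool := fun u => decide (D u = -Complex.I) with hb
  have hW : Wpot M lam Q Finset.univ b ω = D := by
    funext u
    rw [Wpot, if_pos (Finset.mem_univ _), hb]
    by_cases h : D u = -Complex.I
    · simp [h]
    · rcases hD u with h1 | h1
      · exact absurd h1 h
      · simp only [decide_eq_true_eq]
        rw [if_neg h, h1]
  have hends : p' 0 = ⟨v, hv⟩ ∧ p' k = ⟨w, hw⟩ := by
    constructor
    · exact Subtype.ext (by rw [hp'v 0 (Nat.zero_le _)]; exact hp.start)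
    · exact Subtype.ext (by rw [hp'v k le_rfl]; exact hp.fin)
  rw [hends.1, hends.2] at hlow
  refine (iInf_le _ b).trans ?_
  rw [Gmix, hW, ← ofReal_norm, ENNReal.rpow_neg, ENNReal.rpow_neg, ENNReal.inv_le_inv]
  refine ENNReal.rpow_le_rpow (ENNReal.ofReal_le_ofReal (le_trans ?_ hlow)) (by norm_num)
  refine mul_le_mul_of_nonneg_right ?_ (by positivity)
  have hc1 : 1 / (B + 2 * d + 1) ^ 2 / 2 ≤ 1 := by
    have h1 : (1 : ℝ) ≤ (B + 2 * d + 1) ^ 2 := by
      have : (1 : ℝ) ≤ B + 2 * d + 1 := by linarith [Nat.cast_nonneg (α := ℝ) d]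
      exact one_le_pow₀ this
    have h2 : 1 / (B + 2 * d + 1) ^ 2 ≤ 1 := by
      rw [div_le_one (by positivity)]; exact h1
    linarith
  refine pow_le_pow_of_le_one (by positivity) hc1 ?_
  calc R.card ≤ (nbh P).card := by
        rw [← Finset.card_image_of_injective R Subtype.val_injective]
        refine Finset.card_le_card fun x hx => ?_
        obtain ⟨u, hu, rfl⟩ := Finset.mem_image.1 hx
        exact (Finset.mem_filter.1 hu).2.1
    _ ≤ (2 * d + 1) * P.card := card_nbh_le P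
    _ ≤ (2 * d + 1) * (k + 1) := by
        refine Nat.mul_le_mul_left _ ?_
        rw [hP]
        exact Finset.card_image_le.trans (by simp)

/-- constant of the negative moment bound -/
def C5 (d : ℕ) (M lam : ℝ) (K : ℝ≥0) (B : ℝ) : ℝ≥0∞ :=
  (max 1 (C4 M lam K)) ^ ((2 * d + 1) * (2 * d + 1))
    * (ENNReal.ofReal ((1 / (B + 2 * d + 1) ^ 2 / 2) ^ (2 * d + 1) * (1 / (B + 1)))) ^ (-(1/2 : ℝ))

lemma C5_ne_top (d : ℕ) (M lam : ℝ) (K : ℝ≥0) {B : ℝ} (hB : 0 ≤ B) : C5 d M lam K B ≠ ⊤ := by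
  unfold C5
  refine ENNReal.mul_ne_top (ENNReal.pow_ne_top ?_) ?_
  · exact (max_lt ENNReal.one_lt_top (C4_ne_top M lam K).lt_top).ne
  · rw [ENNReal.rpow_neg]
    refine ENNReal.inv_ne_top.2 (ENNReal.rpow_pos ?_ ENNReal.ofReal_ne_top).ne'
    rw [ENNReal.ofReal_pos]
    positivity

/-- **Negative moments with exponential growth, uniform up to the real axis.** -/
theorem neg_moment {μ : Measure ℝ} [IsProbabilityMeasure μ] {M lam : ℝ} {K : ℝ≥0}
    (hμ : GoodLaw μ M K) (hlam : 0 < lam) {z : ℂ} (hz0 : 0 < z.im) {B : ℝ}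
    (hB : 2 * d + ‖z‖ + 2 ≤ B) (v w : Site d) :
    ∫⁻ ω, ‖gc M lam z ω v w‖ₑ ^ (-(1/2 : ℝ)) ∂(Measure.infinitePi (fun _ : Site d => μ))
      ≤ C5 d M lam K B ^ (l1 (w - v) + 1) := by
  classical
  have hM : 0 ≤ M := by linarith [hμ.one_le]
  have hB0 : (0 : ℝ) ≤ B := by have := norm_nonneg z; linarith [Nat.cast_nonneg (α := ℝ) d]
  obtain ⟨p, hp⟩ := exists_geod v w
  set k := l1 (w - v) with hk
  set P := (Finset.range (k + 1)).image p with hP
  set Q := nbh (nbh P) with hQ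
  have hPQ : P ⊆ Q := (subset_nbh P).trans (subset_nbh _)
  have hv : v ∈ Q := hPQ (Finset.mem_image.2 ⟨0, by simp, hp.start⟩)
  have hw : w ∈ Q := hPQ (Finset.mem_image.2 ⟨k, by simp, hp.fin⟩)
  have hcard : (Finset.univ : Finset Q).card ≤ (2 * d + 1) * (2 * d + 1) * (k + 1) := by
    rw [Finset.card_univ, Fintype.card_coe]
    calc Q.card ≤ (2 * d + 1) * (nbh P).card := card_nbh_le _
      _ ≤ (2 * d + 1) * ((2 * d + 1) * P.card) := Nat.mul_le_mul_left _ (card_nbh_le P)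
      _ ≤ (2 * d + 1) * ((2 * d + 1) * (k + 1)) := by
          refine Nat.mul_le_mul_left _ (Nat.mul_le_mul_left _ ?_)
          rw [hP]; exact Finset.card_image_le.trans (by simp)
      _ = _ := by ring
  have h1 := Fmix_iter hμ hlam hz0 Q Finset.univ ⟨v, hv⟩ ⟨w, hw⟩
  have h2 : ∀ ω, Fmix M lam z Q ∅ ⟨v, hv⟩ ⟨w, hw⟩ ω = ‖gc M lam z ω v w‖ₑ ^ (-(1/2 : ℝ)) :=
    fun ω => Fmix_empty hM hz0 Q ⟨v, hv⟩ ⟨w, hw⟩ ω
  simp only [h2] at h1
  refine h1.trans ?_
  set c : ℝ := 1 / (B + 2 * d + 1) ^ 2 / 2 with hc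
  have hc0 : 0 < c := by positivity
  have h3 : ∫⁻ ω, Fmix M lam z Q Finset.univ ⟨v, hv⟩ ⟨w, hw⟩ ω
      ∂(Measure.infinitePi (fun _ : Site d => μ))
      ≤ (ENNReal.ofReal (c ^ ((2 * d + 1) * (k + 1)) * (1 / (B + 1) ^ (k + 1)))) ^ (-(1/2 : ℝ)) := by
    calc _ ≤ ∫⁻ _, (ENNReal.ofReal (c ^ ((2 * d + 1) * (k + 1)) * (1 / (B + 1) ^ (k + 1))))
            ^ (-(1/2 : ℝ)) ∂(Measure.infinitePi (fun _ : Site d => μ)) :=
          lintegral_mono fun ω => exists_absorb_green hM hz0 hp hP hQ hv hw hB ω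
      _ = _ := by simp
  have h4 : (ENNReal.ofReal (c ^ ((2 * d + 1) * (k + 1)) * (1 / (B + 1) ^ (k + 1)))) ^ (-(1/2 : ℝ))
      = ((ENNReal.ofReal (c ^ (2 * d + 1) * (1 / (B + 1)))) ^ (-(1/2 : ℝ))) ^ (k + 1) := by
    rw [← ENNReal.rpow_natCast, ← ENNReal.rpow_mul, mul_comm (-(1/2 : ℝ)), ENNReal.rpow_mul,
      ENNReal.rpow_natCast, ← ENNReal.ofReal_pow (by positivity)]
    congr 2
    rw [mul_pow, ← pow_mul, one_div_pow]
  calc C4 M lam K ^ (Finset.univ : Finset Q).card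
        * ∫⁻ ω, Fmix M lam z Q Finset.univ ⟨v, hv⟩ ⟨w, hw⟩ ω
          ∂(Measure.infinitePi (fun _ : Site d => μ))
      ≤ (max 1 (C4 M lam K)) ^ ((2 * d + 1) * (2 * d + 1) * (k + 1))
        * ((ENNReal.ofReal (c ^ (2 * d + 1) * (1 / (B + 1)))) ^ (-(1/2 : ℝ))) ^ (k + 1) := by
        refine mul_le_mul' ?_ (h3.trans h4.le)
        calc C4 M lam K ^ (Finset.univ : Finset Q).card
            ≤ (max 1 (C4 M lam K)) ^ (Finset.univ : Finset Q).card :=
              pow_le_pow_left' (le_max_right _ _) _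
          _ ≤ _ := pow_le_pow_right₀ (le_max_left _ _) hcard
    _ = C5 d M lam K B ^ (k + 1) := by
        rw [C5, mul_pow, ← pow_mul]

lemma sqrt_mul_le (a b : ℝ≥0∞) : (a * b) ^ (1/2 : ℝ) ≤ a + b := by
  have h : a * b ≤ (a + b) * (a + b) := mul_le_mul' le_self_add le_add_self
  calc (a * b) ^ (1/2 : ℝ) ≤ ((a + b) * (a + b)) ^ (1/2 : ℝ) :=
        ENNReal.rpow_le_rpow h (by norm_num)
    _ = a + b := by
        rw [← sq, ← ENNReal.rpow_natCast, ← ENNReal.rpow_mul]
        norm_num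

/-- **Positive moments, uniform up to the real axis.** -/
theorem pos_moment {μ : Measure ℝ} [IsProbabilityMeasure μ] {M lam : ℝ} {K : ℝ≥0}
    (hμ : GoodLaw μ M K) (hlam : 0 < lam) {z : ℂ} (hz0 : 0 < z.im) (x y : Site d) :
    ∫⁻ ω, ‖gc M lam z ω x y‖ₑ ^ (1/4 : ℝ) ∂(Measure.infinitePi (fun _ : Site d => μ))
      ≤ 2 * C2 M lam K := by
  have hM : 0 ≤ M := by linarith [hμ.one_le]
  have h1 := quasi hμ hlam hz0 x y x
  have h2 := quasi hμ hlam hz0 x x x
  have key : ∀ ω : Site d → ℝ, ‖gc M lam z ω x y‖ₑ ^ (1/4 : ℝ)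
      ≤ (ratio M lam z x y x ω) ^ (1/4 : ℝ) + (ratio M lam z x x x ω) ^ (1/4 : ℝ) := by
    intro ω
    have hne : gc M lam z ω x x ≠ 0 := green_self_ne_zero _ (bdd_potc hM ω) hz0 x
    have he0 : ‖gc M lam z ω x x‖ₑ ≠ 0 := by simpa using hne
    have het : ‖gc M lam z ω x x‖ₑ ≠ ⊤ := enorm_ne_top
    have hs : gc M lam z ω y x = gc M lam z ω x y := green_symm _ (bdd_potc hM ω) hz0 y x
    have e1 : ratio M lam z x x x ω = ‖gc M lam z ω x x‖ₑ := by
      rw [ratio, ENNReal.mul_div_right_comm, ENNReal.div_self he0 het, one_mul]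
    have e2 : ratio M lam z x y x ω * ‖gc M lam z ω x x‖ₑ
        = ‖gc M lam z ω x y‖ₑ * ‖gc M lam z ω x y‖ₑ := by
      rw [ratio, hs, ENNReal.div_mul_cancel he0 het]
    have e3 : ‖gc M lam z ω x y‖ₑ ^ (1/4 : ℝ)
        = ((ratio M lam z x y x ω) ^ (1/4 : ℝ) * (ratio M lam z x x x ω) ^ (1/4 : ℝ)) ^ (1/2 : ℝ) := by
      rw [← ENNReal.mul_rpow_of_nonneg _ _ (by norm_num : (0 : ℝ) ≤ 1/4), e1, e2, ← sq,
        ← ENNReal.rpow_natCast, ← ENNReal.rpow_mul, ← ENNReal.rpow_mul]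
      norm_num
    rw [e3]
    exact sqrt_mul_le _ _
  calc _ ≤ ∫⁻ ω, ((ratio M lam z x y x ω) ^ (1/4 : ℝ) + (ratio M lam z x x x ω) ^ (1/4 : ℝ))
        ∂(Measure.infinitePi (fun _ : Site d => μ)) := lintegral_mono key
    _ = _ := lintegral_add_left ((measurable_ratio hM hz0 x y x).pow_const _) _
    _ ≤ C2 M lam K + C2 M lam K := add_le_add h1 h2
    _ = _ := by rw [two_mul]

end Pool.Agent.Helper3.Crit
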