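import Pool.Agent.Helper3.Crit.HardySeq
import Pool.Agent.Helper3.Crit.Neg3
import Pool.Agent.Helper3.Weak.Avg

/-! Boundary values of the Green function at almost every energy. -/

open MeasureTheory Set Filter Topology Complex
open scoped ENNReal NNReal InnerProductSpace

noncomputable section

namespace Pool.Agent.Helper3.Crit

open Pool.Agent.Helper3.Anderson

variable {d : ℕ}

/-- the sign -/
def sg (c : Bool) : ℂ := if c then 1 else -1

lemma sg_sq (c : Bool) : sg c * sg c = 1 := by unfold sg; split_ifs <;> norm_num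

lemma conj_sg (c : Bool) : (starRingEnd ℂ) (sg c) = sg c := by unfold sg; split_ifs <;> simp

/-- `⟨φ, G φ⟩` for `φ = δ_x ± δ_y` -/
def Fh (M lam : ℝ) (x y : Site d) (c : Bool) (ω : Site d → ℝ) (z : ℂ) : ℂ :=
  gc M lam z ω x x + gc M lam z ω y y + 2 * sg c * gc M lam z ω x y

lemma Fh_im {M : ℝ} (hM : 0 ≤ M) (lam : ℝ) (x y : Site d) (c : Bool) (ω : Site d → ℝ) {z : ℂ}
    (hz0 : 0 < z.im) : 0 ≤ (Fh M lam x y c ω z).im := by
  set V := potc M lam ω with hVdef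
  have hV : Bdd V := bdd_potc hM ω
  set ψ : L2 d := dl x + sg c • dl y with hψ
  set φ := res V hV z ψ with hφ
  have h1 : ⟪ψ, φ⟫_ℂ = Fh M lam x y c ω z := by
    have e1 : φ = res V hV z (dl x) + sg c • res V hV z (dl y) := by
      rw [hφ, hψ, map_add, map_smul]
    have e2 : ∀ w : Site d, φ w = green V z w x + sg c * green V z w y := by
      intro w
      rw [e1, lp.coeFn_add, Pi.add_apply, lp.coeFn_smul, Pi.smul_apply, smul_eq_mul,
        green_eq V hV, green_eq V hV]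
    rw [hψ, inner_add_left, inner_smul_left, inner_dl, inner_dl, e2, e2, conj_sg,
      green_symm V hV hz0 y x, Fh]
    simp only [gc, ← hVdef]
    linear_combination (green V z y y) * sg_sq c
  have h2 : hz V hV z φ = ψ := hz_res V hV hz0.ne' ψ
  have h3 := im_inner_hz V hV z φ
  rw [h2] at h3
  have h4 : (⟪ψ, φ⟫_ℂ).im = - (⟪φ, ψ⟫_ℂ).im := by
    rw [← inner_conj_symm, Complex.conj_im]
  rw [← h1, h4, h3]
  have := mul_nonneg hz0.le (sq_nonneg ‖φ‖)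
  linarith

lemma Fh_add_I_ne {M : ℝ} (hM : 0 ≤ M) (lam : ℝ) (x y : Site d) (c : Bool) (ω : Site d → ℝ) {z : ℂ}
    (hz0 : 0 < z.im) : 1 ≤ ‖Fh M lam x y c ω z + I‖ := by
  have h1 := Fh_im hM lam x y c ω hz0
  have h2 : |(Fh M lam x y c ω z + I).im| ≤ ‖Fh M lam x y c ω z + I‖ := Complex.abs_im_le_norm _
  rw [Complex.add_im, Complex.I_im, abs_of_nonneg (by linarith)] at h2
  linarith

/-- the Hardy function attached to a pair of sites -/
def hF (M lam : ℝ) (i : Site d × Site d × Bool) (ω : Site d → ℝ) (z : ℂ) : ℂ :=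
  (Fh M lam i.1 i.2.1 i.2.2 ω z + I)⁻¹ * (z + I)⁻¹

lemma add_I_ne {z : ℂ} (hz0 : 0 < z.im) : z + I ≠ 0 := by
  intro h
  have := congrArg Complex.im h
  simp at this
  linarith

lemma hardyFn_hF {M : ℝ} (hM : 0 ≤ M) (lam : ℝ) (i : Site d × Site d × Bool) (ω : Site d → ℝ) :
    HardyFn (hF M lam i ω) where
  diff z hz0 := by
    have h1 : ∀ a b : Site d, DifferentiableAt ℂ (fun z => gc M lam z ω a b) z := fun a b =>
      (Weak.analyticAt_gc hM ω a b hz0).differentiableAt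
    have h2 : Fh M lam i.1 i.2.1 i.2.2 ω z + I ≠ 0 := by
      have := Fh_add_I_ne hM lam i.1 i.2.1 i.2.2 ω hz0
      intro h; rw [h, norm_zero] at this; linarith
    have h3 : DifferentiableAt ℂ (fun z => Fh M lam i.1 i.2.1 i.2.2 ω z + I) z := by
      unfold Fh
      exact (((h1 _ _).add (h1 _ _)).add ((h1 _ _).const_mul _)).add_const _
    have h4 : DifferentiableAt ℂ (fun z : ℂ => z + I) z := by fun_prop
    exact (h3.inv h2).mul (h4.inv (add_I_ne hz0))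
  bound z hz0 := by
    rw [hF, norm_mul, norm_inv, norm_inv]
    have h1 := Fh_add_I_ne hM lam i.1 i.2.1 i.2.2 ω hz0
    have h2 : ‖Fh M lam i.1 i.2.1 i.2.2 ω z + I‖⁻¹ ≤ 1 := inv_le_one_of_one_le₀ h1
    calc _ ≤ 1 * ‖z + I‖⁻¹ := mul_le_mul_of_nonneg_right h2 (by positivity)
      _ = _ := one_mul _

variable {μ : Measure ℝ} [IsProbabilityMeasure μ] {M lam : ℝ} {K : ℝ≥0}

lemma exists_enum : ∃ f : ℕ → Site d × Site d × Bool, Function.Surjective f := by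
  have : Nonempty (Site d × Site d × Bool) := ⟨(0, 0, true)⟩
  exact exists_surjective_nat _

lemma hardyFam_hF (hM : 0 ≤ M) (f : ℕ → Site d × Site d × Bool) :
    HardyFam (fun n ω => hF M lam (f n) ω) where
  hardy n ω := hardyFn_hF hM lam (f n) ω
  meas n ε hε := by
    have h1 : ∀ a b : Site d, Measurable (fun p : ℝ × (Site d → ℝ) =>
        gc M lam ((p.1 : ℂ) + ε * I) p.2 a b) := fun a b => Weak.measurable_gc_uncurry hM hε a b
    have h2 : Measurable (fun p : ℝ × (Site d → ℝ) => (p.1 : ℂ) + ε * I) := by fun_prop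
    have h3 : Measurable (fun p : ℝ × (Site d → ℝ) =>
        Fh M lam (f n).1 (f n).2.1 (f n).2.2 p.2 ((p.1 : ℂ) + ε * I) + I) := by
      unfold Fh
      exact (((h1 _ _).add (h1 _ _)).add ((h1 _ _).const_mul _)).add_const _
    exact h3.inv.mul (h2.add_const I).inv

lemma lintegral_Fh (hμ : GoodLaw μ M K) (hlam : 0 < lam) {z : ℂ} (hz0 : 0 < z.im) (x y : Site d)
    (c : Bool) : ∫⁻ ω, ‖Fh M lam x y c ω z‖ₑ ^ (1/4 : ℝ) ∂(PP d μ) ≤ 8 * C2 M lam K := by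
  have hM : 0 ≤ M := by linarith [hμ.one_le]
  have hm : ∀ a b : Site d, Measurable fun ω => ‖gc M lam z ω a b‖ₑ ^ (1/4 : ℝ) := fun a b =>
    (measurable_gc hM hz0 a b).enorm.pow_const _
  have hpt : ∀ ω, ‖Fh M lam x y c ω z‖ₑ ^ (1/4 : ℝ) ≤ ‖gc M lam z ω x x‖ₑ ^ (1/4 : ℝ)
      + ‖gc M lam z ω y y‖ₑ ^ (1/4 : ℝ) + 2 * ‖gc M lam z ω x y‖ₑ ^ (1/4 : ℝ) := by
    intro ω
    have h1 : ‖Fh M lam x y c ω z‖ₑ ≤ ‖gc M lam z ω x x‖ₑ + ‖gc M lam z ω y y‖ₑ
        + 2 * ‖gc M lam z ω x y‖ₑ := by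
      unfold Fh
      refine (enorm_add_le _ _).trans (add_le_add (enorm_add_le _ _) (le_of_eq ?_))
      rw [enorm_mul, enorm_mul]
      have : ‖sg c‖ₑ = 1 := by unfold sg; split_ifs <;> simp
      rw [this, mul_one]
      congr 1
      rw [← ofReal_norm]; norm_num
    calc _ ≤ (‖gc M lam z ω x x‖ₑ + ‖gc M lam z ω y y‖ₑ + 2 * ‖gc M lam z ω x y‖ₑ) ^ (1/4 : ℝ) :=
          ENNReal.rpow_le_rpow h1 (by norm_num)
      _ ≤ (‖gc M lam z ω x x‖ₑ + ‖gc M lam z ω y y‖ₑ) ^ (1/4 : ℝ)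
          + (2 * ‖gc M lam z ω x y‖ₑ) ^ (1/4 : ℝ) :=
          ENNReal.rpow_add_le_add_rpow _ _ (by norm_num) (by norm_num)
      _ ≤ _ := by
          refine add_le_add (ENNReal.rpow_add_le_add_rpow _ _ (by norm_num) (by norm_num)) ?_
          rw [ENNReal.mul_rpow_of_nonneg _ _ (by norm_num : (0 : ℝ) ≤ 1/4)]
          gcongr
          calc (2 : ℝ≥0∞) ^ (1/4 : ℝ) ≤ 2 ^ (1 : ℝ) :=
                ENNReal.rpow_le_rpow_of_exponent_le (by norm_num) (by norm_num)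
            _ = 2 := ENNReal.rpow_one 2
  calc _ ≤ ∫⁻ ω, (‖gc M lam z ω x x‖ₑ ^ (1/4 : ℝ)
      + ‖gc M lam z ω y y‖ₑ ^ (1/4 : ℝ) + 2 * ‖gc M lam z ω x y‖ₑ ^ (1/4 : ℝ)) ∂(PP d μ) :=
        lintegral_mono hpt
    _ = ∫⁻ ω, ‖gc M lam z ω x x‖ₑ ^ (1/4 : ℝ) ∂(PP d μ)
        + ∫⁻ ω, ‖gc M lam z ω y y‖ₑ ^ (1/4 : ℝ) ∂(PP d μ)
        + 2 * ∫⁻ ω, ‖gc M lam z ω x y‖ₑ ^ (1/4 : ℝ) ∂(PP d μ) := by
        have hm2 : Measurable fun ω => ‖gc M lam z ω x x‖ₑ ^ (1/4 : ℝ)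
            + ‖gc M lam z ω y y‖ₑ ^ (1/4 : ℝ) := (hm x x).add (hm y y)
        rw [lintegral_add_left hm2, lintegral_add_left (hm x x),
          lintegral_const_mul _ (hm x y)]
    _ ≤ 2 * C2 M lam K + 2 * C2 M lam K + 2 * (2 * C2 M lam K) := by
        gcongr
        · exact pos_moment hμ hlam hz0 x x
        · exact pos_moment hμ hlam hz0 y y
        · exact pos_moment hμ hlam hz0 x y
    _ = 8 * C2 M lam K := by ring

/-- if the Hardy functions converge then so does the Herglotz function, almost surely -/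
lemma Fh_tendsto (hμ : GoodLaw μ M K) (hlam : 0 < lam) (E : ℝ) {ε : ℕ → ℝ} (hε : ∀ k, 0 < ε k)
    (hε0 : Tendsto ε atTop (𝓝 0)) (i : Site d × Site d × Bool)
    (h : ∀ᵐ ω ∂(PP d μ), ∃ l, Tendsto (fun k => hF M lam i ω ((E : ℂ) + ε k * I)) atTop (𝓝 l)) :
    ∀ᵐ ω ∂(PP d μ), ∃ l, Tendsto (fun k => Fh M lam i.1 i.2.1 i.2.2 ω ((E : ℂ) + ε k * I))
      atTop (𝓝 l) := by
  have hM : 0 ≤ M := by linarith [hμ.one_le]
  have hz : ∀ k, 0 < ((E : ℂ) + ε k * I).im := fun k => by simpa using hε k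
  have hmF : ∀ k, Measurable fun ω => ‖Fh M lam i.1 i.2.1 i.2.2 ω ((E : ℂ) + ε k * I)‖ₑ
      ^ (1/4 : ℝ) := by
    intro k
    have h1 : ∀ a b : Site d, Measurable fun ω => gc M lam ((E : ℂ) + ε k * I) ω a b := fun a b =>
      measurable_gc hM (hz k) a b
    have : Measurable fun ω => Fh M lam i.1 i.2.1 i.2.2 ω ((E : ℂ) + ε k * I) := by
      unfold Fh
      exact ((h1 _ _).add (h1 _ _)).add ((h1 _ _).const_mul _)
    exact this.enorm.pow_const _
  have hlim : ∫⁻ ω, liminf (fun k => ‖Fh M lam i.1 i.2.1 i.2.2 ω ((E : ℂ) + ε k * I)‖ₑ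
      ^ (1/4 : ℝ)) atTop ∂(PP d μ) ≠ ⊤ := by
    refine ne_top_of_le_ne_top (b := 8 * C2 M lam K) ?_ ?_
    · exact ENNReal.mul_ne_top (by norm_num) (C2_ne_top M K)
    · refine (lintegral_liminf_le hmF).trans ?_
      refine (Filter.liminf_le_liminf (Filter.Eventually.of_forall fun k =>
        lintegral_Fh hμ hlam (hz k) i.1 i.2.1 i.2.2)).trans ?_
      simp
  have hae := ae_lt_top (Measurable.liminf hmF) hlim
  filter_upwards [h, hae] with ω ⟨l, hl⟩ hfin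
  -- g = (E + i0 + i) l
  have hgl : Tendsto (fun k => (Fh M lam i.1 i.2.1 i.2.2 ω ((E : ℂ) + ε k * I) + I)⁻¹) atTop
      (𝓝 ((E + I) * l)) := by
    have h1 : Tendsto (fun k => ((E : ℂ) + ε k * I + I)) atTop (𝓝 ((E : ℂ) + I)) := by
      have h2 : Tendsto (fun k => ((ε k : ℝ) : ℂ)) atTop (𝓝 ((0 : ℝ) : ℂ)) :=
        (Complex.continuous_ofReal.tendsto 0).comp hε0
      have h3 := ((h2.mul_const I).const_add (E : ℂ)).add_const I
      simpa using h3
    have h2 := h1.mul hl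
    refine h2.congr fun k => ?_
    rw [hF, mul_comm, mul_assoc, inv_mul_cancel₀ (add_I_ne (hz k)), mul_one]
  by_cases hzero : (E + I) * l = 0
  · exfalso
    rw [hzero] at hgl
    have h1 : Tendsto (fun k => ‖Fh M lam i.1 i.2.1 i.2.2 ω ((E : ℂ) + ε k * I) + I‖) atTop atTop := by
      have h2 : Tendsto (fun k => ‖(Fh M lam i.1 i.2.1 i.2.2 ω ((E : ℂ) + ε k * I) + I)⁻¹‖) atTop
          (𝓝[>] 0) := by
        rw [tendsto_nhdsWithin_iff]
        refine ⟨by simpa using hgl.norm, Filter.Eventually.of_forall fun k => ?_⟩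
        have := Fh_add_I_ne hM lam i.1 i.2.1 i.2.2 ω (hz k)
        rw [mem_Ioi, norm_inv]
        exact inv_pos.2 (by linarith)
      have h3 := tendsto_inv_nhdsGT_zero.comp h2
      refine h3.congr fun k => ?_
      simp
    have h2 : Tendsto (fun k => ‖Fh M lam i.1 i.2.1 i.2.2 ω ((E : ℂ) + ε k * I)‖) atTop atTop := by
      refine tendsto_atTop_mono (fun k => ?_) (tendsto_atTop_add_const_right _ (-1 : ℝ) h1)
      have := norm_add_le (Fh M lam i.1 i.2.1 i.2.2 ω ((E : ℂ) + ε k * I)) I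
      rw [Complex.norm_I] at this
      linarith
    have h3 : Tendsto (fun k => ‖Fh M lam i.1 i.2.1 i.2.2 ω ((E : ℂ) + ε k * I)‖ₑ ^ (1/4 : ℝ)) atTop
        (𝓝 ⊤) := by
      have h4 : Tendsto (fun k => ‖Fh M lam i.1 i.2.1 i.2.2 ω ((E : ℂ) + ε k * I)‖ₑ) atTop
          (𝓝 ⊤) := by
        have := ENNReal.tendsto_ofReal_atTop.comp h2
        refine this.congr fun k => ?_
        simp
      have h5 := (ENNReal.continuous_rpow_const (y := (1/4 : ℝ))).tendsto ⊤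
      rw [ENNReal.top_rpow_of_pos (by norm_num)] at h5
      exact h5.comp h4
    rw [h3.liminf_eq] at hfin
    exact lt_irrefl _ hfin
  · refine ⟨((E + I) * l)⁻¹ - I, ?_⟩
    have := (hgl.inv₀ hzero).sub_const I
    refine this.congr fun k => ?_
    rw [inv_inv]; ring

/-- **Boundary values**: for almost every energy the Green function converges, almost surely, for
all pairs of sites, along a subsequence of any given sequence. -/
theorem exists_bv (hμ : GoodLaw μ M K) (hlam : 0 < lam) {η : ℕ → ℝ} (hη : ∀ j, 0 < η j)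
    (hη0 : Tendsto η atTop (𝓝 0)) :
    ∃ φ : ℕ → ℕ, StrictMono φ ∧ ∀ᵐ E : ℝ, ∀ᵐ ω ∂(PP d μ), ∀ x y : Site d,
      ∃ l, Tendsto (fun k => gc M lam ((E : ℂ) + η (φ k) * I) ω x y) atTop (𝓝 l) := by
  have hM : 0 ≤ M := by linarith [hμ.one_le]
  obtain ⟨f, hf⟩ := exists_enum (d := d)
  obtain ⟨φ, hφ, h⟩ := hardy_seq (hardyFam_hF (lam := lam) hM f) (PP d μ) hη hη0
  refine ⟨φ, hφ, ?_⟩
  have h1 : ∀ n, ∀ᵐ E : ℝ, ∀ᵐ ω ∂(PP d μ),
      ∃ l, Tendsto (fun k => hF M lam (f n) ω ((E : ℂ) + η (φ k) * I)) atTop (𝓝 l) :=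
    fun n => Measure.ae_ae_of_ae_prod (h n)
  rw [← ae_all_iff] at h1
  have hε0 : Tendsto (fun k => η (φ k)) atTop (𝓝 0) := hη0.comp hφ.tendsto_atTop
  filter_upwards [h1] with E hE
  have h2 : ∀ n, ∀ᵐ ω ∂(PP d μ), ∃ l, Tendsto (fun k => Fh M lam (f n).1 (f n).2.1 (f n).2.2 ω
      ((E : ℂ) + η (φ k) * I)) atTop (𝓝 l) :=
    fun n => Fh_tendsto hμ hlam E (fun k => hη _) hε0 (f n) (hE n)
  rw [← ae_all_iff] at h2
  filter_upwards [h2] with ω hω x y
  obtain ⟨n1, hn1⟩ := hf (x, y, true)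
  obtain ⟨n2, hn2⟩ := hf (x, y, false)
  obtain ⟨l1, hl1⟩ := hω n1
  obtain ⟨l2, hl2⟩ := hω n2
  rw [hn1] at hl1
  rw [hn2] at hl2
  refine ⟨(l1 - l2) / 4, ?_⟩
  refine ((hl1.sub hl2).div_const 4).congr fun k => ?_
  simp only [Fh, sg]
  simp
  ring

end Pool.Agent.Helper3.Crit
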