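import Pool.Agent.Helper3.Crit.Wegner

/-! Measurability, locality and independence of the good box events. -/

open scoped ENNReal NNReal
open MeasureTheory Set Filter Topology

noncomputable section

namespace Pool.Agent.Helper3.Crit

open Pool.Agent.Helper3.Anderson

variable {d : ℕ}

lemma sn_add_single_le (u x : Site d) (j : Fin d) {L : ℕ} (hu : sn (u - x) ≤ L) :
    sn (u + Pi.single j 1 - x) ≤ L + 1 ∧ sn (u - Pi.single j 1 - x) ≤ L + 1 := by
  have h1 : sn (Pi.single j 1 : Site d) = 1 := sn_single j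
  constructor
  · have := sn_add_le (u - x) (Pi.single j 1)
    rw [show u - x + Pi.single j 1 = u + Pi.single j 1 - x by abel] at this
    omega
  · have := sn_sub_le (u - x) (Pi.single j 1)
    rw [show u - x - Pi.single j 1 = u - Pi.single j 1 - x by abel] at this
    omega

/-- `hop` only depends on the values in the closed neighbourhood -/
lemma hop_congr {V : Site d → ℝ} {z : ℂ} {ψ φ : Site d → ℂ} {x u : Site d} {L : ℕ}
    (hu : sn (u - x) ≤ L) (h : ∀ y, sn (y - x) ≤ L + 1 → ψ y = φ y) :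
    hop V z ψ u = hop V z φ u := by
  unfold hop nsum
  rw [h u (by omega)]
  congr 1
  refine Finset.sum_congr rfl fun j _ => ?_
  have := sn_add_single_le u x j hu
  rw [h _ this.1, h _ this.2]

lemma hop_smul (V : Site d → ℝ) (z : ℂ) (c : ℂ) (ψ : Site d → ℂ) (u : Site d) :
    hop V z (fun y => c * ψ y) u = c * hop V z ψ u := by
  unfold hop nsum
  rw [mul_sub, Finset.mul_sum]
  congr 1
  · ring
  · exact Finset.sum_congr rfl fun j _ => by ring

/-- the compact approximations of the complement of the good box event -/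
lemma isClosed_bad (M lam : ℝ) (z : ℂ) (x : Site d) (l L : ℕ) (ρ : ℝ) (n : ℕ) :
    IsClosed {ω : Site d → ℝ | ∃ p : (Site d → ℂ) × ℝ,
      p ∈ (Set.univ.pi fun _ : Site d => Metric.closedBall (0 : ℂ) 1) ×ˢ Icc (0 : ℝ) 1 ∧
      (∀ y, sn (y - x) = L + 1 → ‖p.1 y‖ ≤ p.2) ∧
      (∀ u, sn (u - x) ≤ L → hop (potc M lam ω) z p.1 u = 0) ∧
      ∃ y ∈ box x l, ρ * p.2 + 1 / ((n : ℝ) + 1) ≤ ‖p.1 y‖} := by
  set Kc : Set ((Site d → ℂ) × ℝ) :=
    (Set.univ.pi fun _ : Site d => Metric.closedBall (0 : ℂ) 1) ×ˢ Icc (0 : ℝ) 1 with hKc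
  have hcomp : IsCompact Kc :=
    (isCompact_univ_pi fun _ => isCompact_closedBall 0 1).prod isCompact_Icc
  have : CompactSpace Kc := isCompact_iff_compactSpace.1 hcomp
  set C : Set ((Site d → ℝ) × Kc) := {q | (∀ y, sn (y - x) = L + 1 → ‖(q.2 : (Site d → ℂ) × ℝ).1 y‖
      ≤ (q.2 : (Site d → ℂ) × ℝ).2) ∧
      (∀ u, sn (u - x) ≤ L → hop (potc M lam q.1) z (q.2 : (Site d → ℂ) × ℝ).1 u = 0) ∧
      ∃ y ∈ box x l, ρ * (q.2 : (Site d → ℂ) × ℝ).2 + 1 / ((n : ℝ) + 1)
        ≤ ‖(q.2 : (Site d → ℂ) × ℝ).1 y‖} with hC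
  have hev : ∀ y : Site d, Continuous fun q : (Site d → ℝ) × Kc => (q.2 : (Site d → ℂ) × ℝ).1 y :=
    fun y => (continuous_apply y).comp (continuous_fst.comp (continuous_subtype_val.comp continuous_snd))
  have hb : Continuous fun q : (Site d → ℝ) × Kc => (q.2 : (Site d → ℂ) × ℝ).2 :=
    continuous_snd.comp (continuous_subtype_val.comp continuous_snd)
  have hpot : ∀ u : Site d, Continuous fun q : (Site d → ℝ) × Kc => ((potc M lam q.1 u : ℝ) : ℂ) := by
    intro u
    refine Complex.continuous_ofReal.comp ?_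
    unfold potc
    exact continuous_const.mul ((continuous_clip M).comp ((continuous_apply u).comp continuous_fst))
  have hhop : ∀ u : Site d, Continuous fun q : (Site d → ℝ) × Kc =>
      hop (potc M lam q.1) z (q.2 : (Site d → ℂ) × ℝ).1 u := by
    intro u
    unfold hop nsum
    refine (((continuous_const.add (hpot u)).sub continuous_const).mul (hev u)).sub ?_
    exact continuous_finsetSum _ fun j _ => (hev _).add (hev _)
  have hclosed : IsClosed C := by
    rw [hC]
    refine IsClosed.inter ?_ (IsClosed.inter ?_ ?_)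
    · have : {q : (Site d → ℝ) × Kc | ∀ y, sn (y - x) = L + 1 → ‖(q.2 : (Site d → ℂ) × ℝ).1 y‖
          ≤ (q.2 : (Site d → ℂ) × ℝ).2} = ⋂ y, ⋂ (_ : sn (y - x) = L + 1),
            {q : (Site d → ℝ) × Kc | ‖(q.2 : (Site d → ℂ) × ℝ).1 y‖
          ≤ (q.2 : (Site d → ℂ) × ℝ).2} := by
        ext q; simp
      change IsClosed {q : (Site d → ℝ) × Kc | ∀ y, sn (y - x) = L + 1 →
        ‖(q.2 : (Site d → ℂ) × ℝ).1 y‖ ≤ (q.2 : (Site d → ℂ) × ℝ).2}
      rw [this]
      exact isClosed_iInter fun y => isClosed_iInter fun _ => isClosed_le (hev y).norm hb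
    · have : {q : (Site d → ℝ) × Kc | ∀ u, sn (u - x) ≤ L →
          hop (potc M lam q.1) z (q.2 : (Site d → ℂ) × ℝ).1 u = 0} = ⋂ u, ⋂ (_ : sn (u - x) ≤ L),
            {q : (Site d → ℝ) × Kc | hop (potc M lam q.1) z (q.2 : (Site d → ℂ) × ℝ).1 u = 0} := by
        ext q; simp
      change IsClosed {q : (Site d → ℝ) × Kc | ∀ u, sn (u - x) ≤ L →
          hop (potc M lam q.1) z (q.2 : (Site d → ℂ) × ℝ).1 u = 0}
      rw [this]
      exact isClosed_iInter fun u => isClosed_iInter fun _ => isClosed_eq (hhop u) continuous_const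
    · have : {q : (Site d → ℝ) × Kc | ∃ y ∈ box x l, ρ * (q.2 : (Site d → ℂ) × ℝ).2
          + 1 / ((n : ℝ) + 1) ≤ ‖(q.2 : (Site d → ℂ) × ℝ).1 y‖}
          = ⋃ y ∈ box x l, {q : (Site d → ℝ) × Kc | ρ * (q.2 : (Site d → ℂ) × ℝ).2
          + 1 / ((n : ℝ) + 1) ≤ ‖(q.2 : (Site d → ℂ) × ℝ).1 y‖} := by
        ext q; simp only [mem_iUnion, mem_ofPred_eq, exists_prop]
      change IsClosed {q : (Site d → ℝ) × Kc | ∃ y ∈ box x l, ρ * (q.2 : (Site d → ℂ) × ℝ).2
          + 1 / ((n : ℝ) + 1) ≤ ‖(q.2 : (Site d → ℂ) × ℝ).1 y‖}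
      rw [this]
      exact (box x l).finite_toSet.isClosed_biUnion fun y _ =>
        isClosed_le ((continuous_const.mul hb).add continuous_const) (hev y).norm
  have himg := isClosedMap_fst_of_compactSpace (X := (Site d → ℝ)) (Y := Kc) C hclosed
  convert himg using 1
  ext ω
  simp only [mem_ofPred_eq, mem_image, hC, Prod.exists, exists_and_right, exists_eq_right]
  constructor
  · rintro ⟨p1, p2, hp, h⟩
    exact ⟨⟨(p1, p2), hp⟩, h⟩
  · rintro ⟨q, h⟩
    exact ⟨q.1.1, q.1.2, q.2, h⟩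

lemma bad_eq_iUnion (M lam : ℝ) (z : ℂ) (x : Site d) (l L : ℕ) (hl : l ≤ L + 1) (ρ : ℝ) :
    {ω : Site d → ℝ | ¬ GoodBox (potc M lam ω) z x l L ρ} = ⋃ n : ℕ,
      {ω : Site d → ℝ | ∃ p : (Site d → ℂ) × ℝ,
      p ∈ (Set.univ.pi fun _ : Site d => Metric.closedBall (0 : ℂ) 1) ×ˢ Icc (0 : ℝ) 1 ∧
      (∀ y, sn (y - x) = L + 1 → ‖p.1 y‖ ≤ p.2) ∧
      (∀ u, sn (u - x) ≤ L → hop (potc M lam ω) z p.1 u = 0) ∧
      ∃ y ∈ box x l, ρ * p.2 + 1 / ((n : ℝ) + 1) ≤ ‖p.1 y‖} := by
  classical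
  ext ω
  simp only [mem_ofPred_eq, mem_iUnion]
  constructor
  · intro h
    unfold GoodBox at h
    push Not at h
    obtain ⟨ψ, b, hb0, hb, hsol, y, hy, hlt⟩ := h
    set s : ℝ := 1 + b + ∑ w ∈ box x (L + 1), ‖ψ w‖ with hs
    have hsum0 : 0 ≤ ∑ w ∈ box x (L + 1), ‖ψ w‖ := Finset.sum_nonneg fun _ _ => norm_nonneg _
    have hs0 : 0 < s := by linarith
    set φ : Site d → ℂ := fun w => if w ∈ box x (L + 1) then ((1 / s : ℝ) : ℂ) * ψ w else 0 with hφ
    have hφv : ∀ w, sn (w - x) ≤ L + 1 → φ w = ((1 / s : ℝ) : ℂ) * ψ w := fun w hw => by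
      rw [hφ]; simp only; rw [if_pos (mem_box.2 hw)]
    have hφn : ∀ w, sn (w - x) ≤ L + 1 → ‖φ w‖ = ‖ψ w‖ / s := fun w hw => by
      rw [hφv w hw, norm_mul, Complex.norm_real, Real.norm_eq_abs, abs_of_pos (by positivity)]
      ring
    have hlt' : ρ * (b / s) < ‖φ y‖ := by
      rw [hφn y (hy.trans hl), ← mul_div_assoc]
      exact div_lt_div_of_pos_right hlt hs0
    obtain ⟨n, hn⟩ := exists_nat_one_div_lt (sub_pos.2 hlt')
    refine ⟨n, (φ, b / s), ⟨?_, ?_⟩, ?_, ?_, y, mem_box.2 hy, ?_⟩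
    · intro w _
      rw [mem_closedBall_zero_iff]
      show ‖φ w‖ ≤ 1
      by_cases hw : w ∈ box x (L + 1)
      · rw [hφn w (mem_box.1 hw), div_le_one hs0]
        have := Finset.single_le_sum (f := fun w => ‖ψ w‖) (fun _ _ => norm_nonneg _) hw
        linarith
      · have : φ w = 0 := by rw [hφ]; simp only; rw [if_neg hw]
        rw [this, norm_zero]; norm_num
    · exact ⟨by positivity, by rw [div_le_one hs0]; linarith⟩
    · intro w hw
      simp only
      rw [hφn w (by omega)]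
      exact div_le_div_of_nonneg_right (hb w hw) hs0.le
    · intro u hu
      simp only
      rw [hop_congr hu (φ := fun w => ((1 / s : ℝ) : ℂ) * ψ w) hφv, hop_smul, hsol u hu, mul_zero]
    · simp only
      linarith
  · rintro ⟨n, p, hp, h1, h2, y, hy, h3⟩ hgood
    have h4 := hgood p.1 p.2 hp.2.1 h1 h2 y (mem_box.1 hy)
    have h5 : (0 : ℝ) < 1 / ((n : ℝ) + 1) := by positivity
    linarith

lemma measurableSet_bad (M lam : ℝ) (z : ℂ) (x : Site d) (l L : ℕ) (hl : l ≤ L + 1) (ρ : ℝ) :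
    MeasurableSet {ω : Site d → ℝ | ¬ GoodBox (potc M lam ω) z x l L ρ} := by
  rw [bad_eq_iUnion M lam z x l L hl ρ]
  exact MeasurableSet.iUnion fun n => (isClosed_bad M lam z x l L ρ n).measurableSet

/-- locality -/
lemma goodBox_congr {V W : Site d → ℝ} {z : ℂ} {x : Site d} {l L : ℕ} {ρ : ℝ}
    (h : ∀ u, sn (u - x) ≤ L → V u = W u) (hg : GoodBox V z x l L ρ) : GoodBox W z x l L ρ := by
  intro ψ b hb0 hb hsol y hy
  refine hg ψ b hb0 hb (fun u hu => ?_) y hy
  have := hsol u hu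
  unfold hop at this ⊢
  rw [h u hu]; exact this

/-- translation -/
lemma goodBox_translate {V : Site d → ℝ} {z : ℂ} {x : Site d} {l L : ℕ} {ρ : ℝ} (v : Site d)
    (hg : GoodBox (fun w => V (w + v)) z x l L ρ) : GoodBox V z (x + v) l L ρ := by
  intro ψ b hb0 hb hsol y hy
  have := hg (fun w => ψ (w + v)) b hb0 (fun w hw => hb _ (by rwa [add_sub_add_right_eq_sub]))
    (fun u hu => ?_) (y - v) (by rwa [sub_sub, add_comm v x])
  · simpa using this
  · have h1 := hsol (u + v) (by rwa [add_sub_add_right_eq_sub])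
    unfold hop nsum at h1 ⊢
    simp only
    have e : ∀ w : Site d, u + w + v = u + v + w := fun w => by abel
    have e' : ∀ w : Site d, u - w + v = u + v - w := fun w => by abel
    simp only [e, e']
    exact h1

lemma potc_tr (M lam : ℝ) (v : Site d) (ω : Site d → ℝ) :
    potc M lam (tr v ω) = fun w => potc M lam ω (w + v) := rfl

lemma goodBox_tr_iff (M lam : ℝ) (z : ℂ) (x : Site d) (l L : ℕ) (ρ : ℝ) (ω : Site d → ℝ) :
    GoodBox (potc M lam ω) z x l L ρ ↔ GoodBox (potc M lam (tr x ω)) z 0 l L ρ := by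
  constructor
  · intro h
    have : GoodBox (fun w => potc M lam (tr x ω) (w + -x)) z x l L ρ := by
      have e : (fun w => potc M lam (tr x ω) (w + -x)) = potc M lam ω := by
        rw [potc_tr]; funext w; simp
      rw [e]; exact h
    have h2 := goodBox_translate (-x) this
    rwa [add_neg_cancel] at h2
  · intro h
    rw [potc_tr] at h
    have h2 := goodBox_translate x h
    rwa [zero_add] at h2

lemma goodBox_rs_iff (M lam : ℝ) (z : ℂ) (l L : ℕ) (ρ : ℝ) (ω : Site d → ℝ) :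
    GoodBox (potc M lam ω) z 0 l L ρ ↔ GoodBox (potc M lam (rs (box 0 L) ω)) z 0 l L ρ := by
  have h : ∀ u : Site d, sn (u - 0) ≤ L → potc M lam ω u = potc M lam (rs (box 0 L) ω) u := by
    intro u hu
    simp only [potc, rs]
    rw [if_pos (mem_box.2 hu)]
  exact ⟨fun hg => goodBox_congr h hg, fun hg => goodBox_congr (fun u hu => (h u hu).symm) hg⟩

variable {μ : Measure ℝ} [IsProbabilityMeasure μ]

/-- the probability of a bad box does not depend on the centre -/
lemma bad_prob_eq (M lam : ℝ) (z : ℂ) (x : Site d) (l L : ℕ) (hl : l ≤ L + 1) (ρ : ℝ) :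
    (PP d μ).real {ω | ¬ GoodBox (potc M lam ω) z x l L ρ}
      = (PP d μ).real {ω | ¬ GoodBox (potc M lam ω) z 0 l L ρ} := by
  have hmp := measurePreserving_tr (μ := μ) x
  rw [measureReal_def, measureReal_def,
    ← hmp.measure_preimage (measurableSet_bad M lam z 0 l L hl ρ).nullMeasurableSet]
  congr 2
  ext ω
  simp only [mem_ofPred_eq, mem_preimage]
  rw [goodBox_tr_iff]

lemma disjoint_boxes {c c' : Site d} {L : ℕ} (h : 2 * L < sn (c - c')) :
    Disjoint ((box (0 : Site d) L).image (· + c)) ((box (0 : Site d) L).image (· + c')) := by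
  rw [Finset.disjoint_left]
  intro w h1 h2
  obtain ⟨a, ha, rfl⟩ := Finset.mem_image.1 h1
  obtain ⟨a', ha', haa⟩ := Finset.mem_image.1 h2
  rw [mem_box, sub_zero] at ha ha'
  have : c - c' = a' - a := by
    have := congrArg (fun w => w - a - c') haa
    rw [show a' + c' - a - c' = a' - a by abel, show a + c - a - c' = c - c' by abel] at this
    exact this.symm
  rw [this] at h
  have := sn_sub_le a' a
  omega

/-- independence for distant boxes -/
lemma bad_pair (M lam : ℝ) (z : ℂ) {c c' : Site d} (l L : ℕ) (hl : l ≤ L + 1) (ρ : ℝ)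
    (h : 2 * L < sn (c - c')) :
    (PP d μ).real ({ω | ¬ GoodBox (potc M lam ω) z c l L ρ}
        ∩ {ω | ¬ GoodBox (potc M lam ω) z c' l L ρ})
      = (PP d μ).real {ω | ¬ GoodBox (potc M lam ω) z 0 l L ρ} ^ 2 := by
  classical
  set Bd : Set (Site d → ℝ) := {ω | ¬ GoodBox (potc M lam ω) z 0 l L ρ} with hBd
  have hBm : MeasurableSet Bd := measurableSet_bad M lam z 0 l L hl ρ
  set F : (Site d → ℝ) → ℝ := Bd.indicator 1 with hF
  have hFm : Measurable F := measurable_one.indicator hBm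
  set S := box (0 : Site d) L with hS
  have hFrs : ∀ ω, F (rs S ω) = F ω := by
    intro ω
    have : rs S ω ∈ Bd ↔ ω ∈ Bd := by
      simp only [hBd, mem_ofPred_eq]
      rw [goodBox_rs_iff M lam z l L ρ ω]
    simp only [hF, Set.indicator]
    by_cases h : ω ∈ Bd
    · rw [if_pos h, if_pos (this.2 h)]; rfl
    · rw [if_neg h, if_neg (fun h' => h (this.1 h'))]
  have hcov := cov_zero (μ := μ) S c c' (disjoint_boxes h) hFm
  simp only [hFrs] at hcov
  have hFc : ∀ a : Site d, ∀ ω, F (tr a ω)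
      = ({ω | ¬ GoodBox (potc M lam ω) z a l L ρ} : Set (Site d → ℝ)).indicator 1 ω := by
    intro a ω
    have : tr a ω ∈ Bd ↔ ω ∈ {ω | ¬ GoodBox (potc M lam ω) z a l L ρ} := by
      simp only [hBd, mem_ofPred_eq]
      rw [goodBox_tr_iff M lam z a]
    simp only [hF, Set.indicator]
    by_cases h : tr a ω ∈ Bd
    · rw [if_pos h, if_pos (this.1 h)]; rfl
    · rw [if_neg h, if_neg (fun h' => h (this.2 h'))]
  have hm : ∀ a : Site d, MeasurableSet ({ω | ¬ GoodBox (potc M lam ω) z a l L ρ} :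
      Set (Site d → ℝ)) := fun a => measurableSet_bad M lam z a l L hl ρ
  have e1 : ∀ ω, F (tr c ω) * F (tr c' ω) = ({ω | ¬ GoodBox (potc M lam ω) z c l L ρ}
        ∩ {ω | ¬ GoodBox (potc M lam ω) z c' l L ρ} : Set (Site d → ℝ)).indicator 1 ω := by
    intro ω
    rw [hFc, hFc, Set.inter_indicator_one]
    rfl
  have e2 : ∫ ω, F (tr c ω) * F (tr c' ω) ∂PP d μ
      = (PP d μ).real ({ω | ¬ GoodBox (potc M lam ω) z c l L ρ}
        ∩ {ω | ¬ GoodBox (potc M lam ω) z c' l L ρ}) := by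
    rw [← integral_indicator_one ((hm c).inter (hm c'))]
    exact integral_congr_ae (ae_of_all _ e1)
  have e3 : ∀ a : Site d, ∫ ω, F (tr a ω) ∂PP d μ = (PP d μ).real Bd := by
    intro a
    rw [hBd, ← bad_prob_eq M lam z a l L hl ρ, ← integral_indicator_one (hm a)]
    exact integral_congr_ae (ae_of_all _ (hFc a))
  rw [← e2, hcov, e3, e3, sq]

end Pool.Agent.Helper3.Crit
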