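import Pool.Agent.Helper3.Crit.SpecAvg

/-! Comparison of finite measures by their Poisson transforms. -/

open scoped ENNReal NNReal InnerProductSpace
open MeasureTheory Set Filter Topology

noncomputable section

namespace Pool.Agent.Helper3.Crit

open Pool.Agent.Helper3.Anderson ProbabilityTheory

private lemma cmp_uncurry (γ : ℝ≥0) :
    Measurable (Function.uncurry fun t E : ℝ => cauchyPDF t γ E) := by
  have : (Function.uncurry fun t E : ℝ => cauchyPDF t γ E) = fun q : ℝ × ℝ =>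
      ENNReal.ofReal (Real.pi⁻¹ * γ * ((q.2 - q.1) ^ 2 + (γ : ℝ) ^ 2)⁻¹) := by
    funext q; rfl
  rw [this]
  fun_prop

private lemma cmp_meas (O : Set ℝ) (γ : ℝ≥0) :
    Measurable fun t => ∫⁻ E in O, cauchyPDF t γ E :=
  Measurable.lintegral_prod_right (cmp_uncurry γ)

private lemma cmp_le_one (O : Set ℝ) (j : ℕ) (t : ℝ) :
    ∫⁻ E in O, cauchyPDF t (saEps j) E ≤ 1 :=
  (setLIntegral_le_lintegral _ _).trans_eq (lintegral_cauchyPDF_eq_one t (saEps_ne j))

/-- mass far away from the set `O` -/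
private lemma cmp_limsup {O : Set ℝ} (hO : MeasurableSet O) {t : ℝ} (ht : t ∉ closure O) :
    limsup (fun j => ∫⁻ E in O, cauchyPDF t (saEps j) E) atTop ≤ 0 := by
  have hopen : IsOpen (closure O)ᶜ := isClosed_closure.isOpen_compl
  obtain ⟨δ, hδ, hball⟩ := Metric.isOpen_iff.1 hopen t ht
  have hfar : ∀ E ∈ O, δ ≤ |E - t| := by
    intro E hE
    by_contra hlt
    push Not at hlt
    exact hball (by rw [Metric.mem_ball, Real.dist_eq]; exact hlt) (subset_closure hE)
  have hmain : ∀ j, ∫⁻ E in O, cauchyPDF t (saEps j) E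
      ≤ ENNReal.ofReal (saEps j * (1 + 1 / δ ^ 2)) := by
    intro j
    calc ∫⁻ E in O, cauchyPDF t (saEps j) E
        ≤ ∫⁻ E in O, ENNReal.ofReal (saEps j * (1 + 1 / δ ^ 2)) * cauchyPDF t 1 E :=
          setLIntegral_mono' hO fun E hE => sa_cauchy_le hδ (hfar E hE)
      _ ≤ ∫⁻ E, ENNReal.ofReal (saEps j * (1 + 1 / δ ^ 2)) * cauchyPDF t 1 E :=
          setLIntegral_le_lintegral _ _
      _ = ENNReal.ofReal (saEps j * (1 + 1 / δ ^ 2)) := by
          rw [lintegral_const_mul _ (by fun_prop), lintegral_cauchyPDF_eq_one t one_ne_zero, mul_one]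
  have hlim : Tendsto (fun j => ENNReal.ofReal (saEps j * (1 + 1 / δ ^ 2))) atTop (𝓝 0) := by
    have h1 : Tendsto (fun j => (saEps j : ℝ) * (1 + 1 / δ ^ 2)) atTop (𝓝 0) := by
      have := saEps_tendsto.mul_const (1 + 1 / δ ^ 2)
      simpa using this
    have h2 := ENNReal.tendsto_ofReal h1
    simpa using h2
  calc limsup (fun j => ∫⁻ E in O, cauchyPDF t (saEps j) E) atTop
      ≤ limsup (fun j => ENNReal.ofReal (saEps j * (1 + 1 / δ ^ 2))) atTop :=
        limsup_le_limsup (Eventually.of_forall hmain)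
    _ = 0 := hlim.limsup_eq

private lemma cmp_open {ν ν' : Measure ℝ} [IsFiniteMeasure ν] [IsFiniteMeasure ν']
    (h : ∀ z : ℂ, 0 < z.im → ∫ t : ℝ, z.im / ‖(t : ℂ) - z‖ ^ 2 ∂ν
      ≤ ∫ t : ℝ, z.im / ‖(t : ℂ) - z‖ ^ 2 ∂ν') {O : Set ℝ} (hO : IsOpen O) :
    ν O ≤ ν' (closure O) := by
  have h1 : ν O ≤ liminf (fun j => ∫⁻ E in O, (∫⁻ t, cauchyPDF t (saEps j) E ∂ν')) atTop := by
    refine sa_measure_le hO (p := fun j E => ∫⁻ t, cauchyPDF t (saEps j) E ∂ν') fun j E => ?_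
    rw [sa_poisson E (saEps j) (saEps_ne j)]
    refine ENNReal.ofReal_le_ofReal (mul_le_mul_of_nonneg_left (h _ ?_) (by positivity))
    simpa using saEps_pos j
  have h2 : ∀ j, ∫⁻ E in O, (∫⁻ t, cauchyPDF t (saEps j) E ∂ν')
      = ∫⁻ t, (∫⁻ E in O, cauchyPDF t (saEps j) E) ∂ν' := by
    intro j
    rw [lintegral_lintegral_swap (cmp_uncurry (saEps j)).aemeasurable]
  have h3 : limsup (fun j => ∫⁻ t, (∫⁻ E in O, cauchyPDF t (saEps j) E) ∂ν') atTop
      ≤ ∫⁻ t, limsup (fun j => ∫⁻ E in O, cauchyPDF t (saEps j) E) atTop ∂ν' :=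
    limsup_lintegral_le (fun _ => 1) (fun j => cmp_meas O (saEps j))
      (fun j => Eventually.of_forall fun t => cmp_le_one O j t) (by simp)
  have h4 : ∫⁻ t, limsup (fun j => ∫⁻ E in O, cauchyPDF t (saEps j) E) atTop ∂ν'
      ≤ ∫⁻ t, (closure O).indicator (fun _ => 1) t ∂ν' := by
    refine lintegral_mono fun t => ?_
    by_cases ht : t ∈ closure O
    · rw [indicator_of_mem ht]
      calc limsup (fun j => ∫⁻ E in O, cauchyPDF t (saEps j) E) atTop
          ≤ limsup (fun _ : ℕ => (1 : ℝ≥0∞)) atTop :=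
            limsup_le_limsup (Eventually.of_forall fun j => cmp_le_one O j t)
        _ = 1 := limsup_const 1
    · rw [indicator_of_notMem ht]
      exact cmp_limsup hO.measurableSet ht
  calc ν O ≤ liminf (fun j => ∫⁻ E in O, (∫⁻ t, cauchyPDF t (saEps j) E ∂ν')) atTop := h1
    _ ≤ limsup (fun j => ∫⁻ E in O, (∫⁻ t, cauchyPDF t (saEps j) E ∂ν')) atTop := liminf_le_limsup
    _ ≤ ∫⁻ t, (closure O).indicator (fun _ => 1) t ∂ν' := by
        simp only [h2]
        exact h3.trans h4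
    _ = ν' (closure O) := by
        rw [lintegral_indicator isClosed_closure.measurableSet]
        simp

theorem le_of_transform {ν ν' : Measure ℝ} [IsFiniteMeasure ν] [IsFiniteMeasure ν']
    (h : ∀ z : ℂ, 0 < z.im → ∫ t : ℝ, z.im / ‖(t : ℂ) - z‖ ^ 2 ∂ν
      ≤ ∫ t : ℝ, z.im / ‖(t : ℂ) - z‖ ^ 2 ∂ν') : ν ≤ ν' := by
  have hclosed : ∀ F : Set ℝ, IsClosed F → ν F ≤ ν' F := by
    intro F hF
    have h1 : Tendsto (fun r : ℝ => ν' (Metric.cthickening r F)) (𝓝 0) (𝓝 (ν' F)) :=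
      tendsto_measure_cthickening_of_isClosed ⟨1, one_pos, measure_ne_top _ _⟩ hF
    have h2 : Tendsto (fun n : ℕ => ν' (Metric.cthickening (1 / ((n : ℝ) + 1)) F)) atTop
        (𝓝 (ν' F)) := h1.comp tendsto_one_div_add_atTop_nhds_zero_nat
    refine ge_of_tendsto h2 (Eventually.of_forall fun n => ?_)
    have hpos : (0 : ℝ) < 1 / ((n : ℝ) + 1) := by positivity
    calc ν F ≤ ν (Metric.thickening (1 / ((n : ℝ) + 1)) F) :=
          measure_mono (Metric.self_subset_thickening hpos F)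
      _ ≤ ν' (closure (Metric.thickening (1 / ((n : ℝ) + 1)) F)) :=
          cmp_open h Metric.isOpen_thickening
      _ ≤ ν' (Metric.cthickening (1 / ((n : ℝ) + 1)) F) :=
          measure_mono (Metric.closure_thickening_subset_cthickening _ _)
  refine Measure.le_iff.2 fun A hA => ?_
  rw [hA.measure_eq_iSup_isClosed_of_ne_top (measure_ne_top _ _)]
  refine iSup₂_le fun F hFA => iSup_le fun hF => ?_
  exact (hclosed F hF).trans (measure_mono hFA)

end Pool.Agent.Helper3.Crit
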