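import Pool.Agent.Helper3.Crit.SkelDefs
import Pool.Agent.Helper3.Crit.BoxMeas

/-! CONSA: the multiscale analysis gives a lower bound for the Lyapunov norm. -/

open scoped ENNReal NNReal InnerProductSpace
open MeasureTheory Set Filter Topology

noncomputable section

namespace Pool.Agent.Helper3.Crit

open Pool.Agent.Helper3.Anderson

variable {d : ℕ} {μ : Measure ℝ} [IsProbabilityMeasure μ] {M lam : ℝ} {K : ℝ≥0}

lemma hop_eq_lap (V : Site d → ℝ) (z : ℂ) (ψ : Site d → ℂ) (u : Site d) :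
    hop V z ψ u = - lap ψ u + (V u : ℂ) * ψ u - z * ψ u := by
  have h : lap ψ u = nsum ψ u - 2 * d * ψ u := by
    unfold lap nsum
    have : ∀ j : Fin d, ((ψ (u + Pi.single j 1) - ψ u) + (ψ (u - Pi.single j 1) - ψ u))
        = (ψ (u + Pi.single j 1) + ψ (u - Pi.single j 1)) - 2 * ψ u := fun j => by ring
    simp only [this, Finset.sum_sub_distrib]
    simp only [Finset.sum_const, Finset.card_univ, Fintype.card_fin, nsmul_eq_mul]
    ring
  unfold hop
  rw [h]; ring

lemma hop_gc (hM : 0 ≤ M) {z : ℂ} (hz0 : 0 < z.im) (ω : Site d → ℝ) (u y : Site d) :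
    hop (potc M lam ω) z (fun w => gc M lam z ω w y) u = if u = y then 1 else 0 := by
  rw [hop_eq_lap]
  exact green_equation (potc M lam ω) (bdd_potc hM ω) hz0 u y

lemma Lsc_ge (q L0 : ℕ) (hL0 : 1 ≤ L0) (k : ℕ) : 2 ^ k ≤ Lsc q L0 k := by
  induction k with
  | zero => simpa [Lsc] using hL0
  | succ k ih =>
    simp only [Lsc]
    have h1 : 1 ≤ 2 ^ k := Nat.one_le_two_pow
    have h2 : 2 ≤ 2 ^ (k + 1 + q) := by
      calc 2 = 2 ^ 1 := by norm_num
        _ ≤ 2 ^ (k + 1 + q) := Nat.pow_le_pow_right (by norm_num) (by omega)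
    calc 2 ^ (k + 1) = 2 * 2 ^ k := by ring
      _ ≤ _ := Nat.mul_le_mul h2 ih

lemma tendsto_Lsc (q L0 : ℕ) (hL0 : 1 ≤ L0) : Tendsto (Lsc q L0) atTop atTop :=
  tendsto_atTop_mono (Lsc_ge q L0 hL0) (tendsto_pow_atTop_atTop_of_one_lt (by norm_num))

lemma lsc_succ_le (q l0 L0 k : ℕ) : lsc q l0 L0 (k + 1) ≤ Lsc q L0 (k + 1) := by
  simp only [lsc, Lsc]
  exact Nat.le_mul_of_pos_left _ (by positivity)

theorem cons_a (hμ : GoodLaw μ M K) (hlam : 0 < lam) {z : ℂ} (hz0 : 0 < z.im) {q l0 L0 : ℕ}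
    {m a : ℝ} (hL0 : 1 ≤ L0) (hm : 0 < m) (h : MSA d μ M lam z q l0 L0 m a) (v : Site d) :
    m * sn v ≤ LL μ M lam K z hμ hlam hz0 v := by
  have hM : 0 ≤ M := by linarith [hμ.one_le]
  rcases Nat.eq_zero_or_pos (sn v) with hv | hv
  · rw [hv]; simpa using LL_nonneg hμ hlam hz0 v
  by_contra hlt
  push Not at hlt
  set L := LL μ M lam K z hμ hlam hz0 v with hL
  set s : ℝ := (sn v : ℝ) with hs
  have hs0 : 0 < s := by rw [hs]; exact_mod_cast hv
  set δ : ℝ := m * s - L with hδ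
  have hδ0 : 0 < δ := by linarith
  set N : ℕ → ℕ := fun k => Lsc q L0 k / sn v + 1 with hN
  have hN1 : ∀ k, Lsc q L0 k < N k * sn v := by
    intro k
    simp only [hN]
    have := Nat.div_add_mod (Lsc q L0 k) (sn v)
    have h2 := Nat.mod_lt (Lsc q L0 k) hv
    rw [add_mul, one_mul, mul_comm]
    omega
  have hN2 : ∀ k, N k * sn v ≤ Lsc q L0 k + sn v := by
    intro k
    simp only [hN]
    have := Nat.div_mul_le_self (Lsc q L0 k) (sn v)
    rw [add_mul, one_mul]
    omega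
  have hNt : Tendsto N atTop atTop := by
    have h1 := tendsto_Lsc q L0 hL0
    refine tendsto_atTop.2 fun b => ?_
    filter_upwards [h1.eventually_ge_atTop (b * sn v)] with k hk
    have := hN1 k
    by_contra hb
    push Not at hb
    have : N k * sn v ≤ b * sn v := Nat.mul_le_mul_right _ hb.le
    omega
  -- the pointwise bound
  have key : ∀ k ω, GoodBox (potc M lam ω) z (N k • v) (lsc q l0 L0 k) (Lsc q L0 k)
      (Real.exp (-(m * Lsc q L0 k))) →
      ‖gc M lam z ω (N k • v) 0‖ ≤ Real.exp (-(m * Lsc q L0 k)) * (1 / z.im) := by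
    intro k ω hg
    refine hg (fun w => gc M lam z ω w 0) (1 / z.im) (by positivity)
      (fun y _ => norm_gc_le hM hz0 ω y 0) (fun u hu => ?_) (N k • v) (by rw [sub_self, sn_zero]; omega)
    rw [hop_gc hM hz0]
    rw [if_neg]
    rintro rfl
    rw [zero_sub, sn_neg, sn_nsmul] at hu
    have := hN1 k
    omega
  set C : ℝ := m * s + |Real.log z.im| with hC
  have hC0 : 0 ≤ C := by positivity
  have key2 : ∀ k ω, gc M lam z ω (N k • v) 0 ≠ 0 →
      GoodBox (potc M lam ω) z (N k • v) (lsc q l0 L0 k) (Lsc q L0 k)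
      (Real.exp (-(m * Lsc q L0 k))) →
      m * s - C / N k ≤ -Real.log ‖gc M lam z ω (N k • v) 0‖ / N k := by
    intro k ω hne hg
    have h1 := key k ω hg
    have hNk : (0 : ℝ) < N k := by
      have : 0 < N k := Nat.succ_pos _
      exact_mod_cast this
    have h2 : Real.log ‖gc M lam z ω (N k • v) 0‖ ≤ -(m * Lsc q L0 k) - Real.log z.im := by
      calc _ ≤ Real.log (Real.exp (-(m * Lsc q L0 k)) * (1 / z.im)) :=
            Real.log_le_log (norm_pos_iff.2 hne) h1
        _ = _ := by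
            rw [Real.log_mul (Real.exp_pos _).ne' (by positivity), Real.log_exp, one_div,
              Real.log_inv]; ring
    have h3 : (N k : ℝ) * s ≤ Lsc q L0 k + s := by rw [hs]; exact_mod_cast hN2 k
    rw [le_div_iff₀ hNk, sub_mul, div_mul_cancel₀ _ hNk.ne']
    have h4 := neg_abs_le (Real.log z.im)
    have h5 : m * (N k * s) ≤ m * (Lsc q L0 k + s) := mul_le_mul_of_nonneg_left h3 hm.le
    rw [hC]
    nlinarith
  -- probabilities
  have hprob : ∀ k, (PP d μ).real {ω | ¬ GoodBox (potc M lam ω) z (N (k+1) • v)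
      (lsc q l0 L0 (k+1)) (Lsc q L0 (k+1)) (Real.exp (-(m * Lsc q L0 (k+1))))}
      ≤ a * (1 / 2) ^ ((4 * d + 1) * (k+1)) := by
    intro k
    rw [bad_prob_eq M lam z _ _ _ (by have := lsc_succ_le q l0 L0 k; omega)]
    exact h (k+1)
  have ha : Tendsto (fun k : ℕ => a * (1 / 2 : ℝ) ^ ((4 * d + 1) * (k+1))) atTop (𝓝 0) := by
    have h1 : Tendsto (fun n : ℕ => (1 / 2 : ℝ) ^ n) atTop (𝓝 0) :=
      tendsto_pow_atTop_nhds_zero_of_lt_one (by norm_num) (by norm_num)
    have h2 : Tendsto (fun k : ℕ => (4 * d + 1) * (k+1)) atTop atTop := by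
      refine tendsto_atTop_mono (fun k => ?_) tendsto_id
      show k ≤ _
      nlinarith [Nat.zero_le (4 * d * (k+1))]
    have h3 := (h1.comp h2).const_mul a
    simpa using h3
  have htd := (tendsto_L1 hμ hlam hz0 v).comp (hNt.comp (tendsto_add_atTop_nat 1))
  have hCn : Tendsto (fun k : ℕ => C / (N (k+1) : ℝ)) atTop (𝓝 0) :=
    (tendsto_const_div_atTop_nhds_zero_nat C).comp (hNt.comp (tendsto_add_atTop_nat 1))
  have e1 := ha.eventually (gt_mem_nhds (show (0:ℝ) < 1 / 2 by norm_num))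
  have e2 := htd.eventually (gt_mem_nhds (show (0:ℝ) < δ / 4 by positivity))
  have e3 := hCn.eventually (gt_mem_nhds (show (0:ℝ) < δ / 2 by positivity))
  obtain ⟨k, h1, h2, h3⟩ := (e1.and (e2.and e3)).exists
  simp only [Function.comp_apply] at h2
  set f : (Site d → ℝ) → ℝ := fun ω => |-Real.log ‖gc M lam z ω (N (k+1) • v) 0‖ / N (k+1) - L| with hf
  have hfi : Integrable f (PP d μ) := by
    have := integrable_log (K := K) hμ hlam hz0 (N (k+1) • v) 0
    exact (((this.neg).div_const _).sub (integrable_const L)).abs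
  have hmk := mul_meas_ge_le_integral_of_nonneg (μ := PP d μ) (f := f)
    (ae_of_all _ fun ω => abs_nonneg _) hfi (δ / 2)
  set bad := {ω | ¬ GoodBox (potc M lam ω) z (N (k+1) • v)
      (lsc q l0 L0 (k+1)) (Lsc q L0 (k+1)) (Real.exp (-(m * Lsc q L0 (k+1))))} with hbad
  have hbm : MeasurableSet bad :=
    measurableSet_bad M lam z _ _ _ (by have := lsc_succ_le q l0 L0 k; omega) _
  have hle : (PP d μ).real badᶜ ≤ (PP d μ).real {ω | δ / 2 ≤ f ω} := by
    refine ENNReal.toReal_mono (measure_ne_top _ _) (measure_mono_ae ?_)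
    filter_upwards [(good_all (K := K) hμ hlam hz0 (N (k+1) • v) 0).1] with ω hω hb
    have hg : GoodBox (potc M lam ω) z (N (k+1) • v)
      (lsc q l0 L0 (k+1)) (Lsc q L0 (k+1)) (Real.exp (-(m * Lsc q L0 (k+1)))) := by
      by_contra hcon
      exact hb hcon
    have h4 := key2 (k+1) ω hω hg
    show δ / 2 ≤ |_|
    refine le_trans ?_ (le_abs_self _)
    linarith
  have hcompl : (PP d μ).real badᶜ = 1 - (PP d μ).real bad := by
    rw [measureReal_compl hbm]; simp
  have h5 : (PP d μ).real bad < 1 / 2 := lt_of_le_of_lt (hprob k) h1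
  have h6 : δ / 2 * (1 / 2) ≤ δ / 2 * (PP d μ).real {ω | δ / 2 ≤ f ω} :=
    mul_le_mul_of_nonneg_left (by linarith) (by positivity)
  linarith

end Pool.Agent.Helper3.Crit
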