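import Pool.Agent.Helper3.Crit.SkelDefs
import Pool.Agent.Helper3.Crit.BoxMeas

/-! Borel-Cantelli: exponential decay of the limiting Green function. -/

open scoped ENNReal NNReal InnerProductSpace
open MeasureTheory Set Filter Topology

noncomputable section

namespace Pool.Agent.Helper3.Crit

open Pool.Agent.Helper3.Anderson

variable {d : ℕ} {μ : Measure ℝ} [IsProbabilityMeasure μ] {M lam : ℝ} {K : ℝ≥0}

namespace ConsB

lemma bc {Ω : Type*} [MeasurableSpace Ω] {P : Measure Ω} [IsFiniteMeasure P] {s : ℕ → Set Ω}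
    {f : ℕ → ℝ} (hf : Summable f) (h : ∀ n, P.real (s n) ≤ f n) :
    ∀ᵐ ω ∂P, ∀ᶠ n in atTop, ω ∉ s n := by
  refine ae_eventually_notMem (ne_top_of_le_ne_top hf.tsum_ofReal_ne_top
    (ENNReal.tsum_le_tsum fun n => ?_))
  rw [← ofReal_measureReal]
  exact ENNReal.ofReal_le_ofReal (h n)

lemma lsc_pos {q l0 L0 : ℕ} (hl0 : 1 ≤ l0) (h4 : 4 * l0 ≤ L0) (k : ℕ) :
    1 ≤ lsc q l0 L0 k ∧ 4 ≤ Lsc q L0 k := by
  have hL : ∀ k, 4 ≤ Lsc q L0 k := by
    intro k
    induction k with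
    | zero => simp only [Lsc]; omega
    | succ k ih =>
      simp only [Lsc]
      have : 1 ≤ 2 ^ (k + 1 + q) := Nat.one_le_two_pow
      nlinarith
  refine ⟨?_, hL k⟩
  cases k with
  | zero => exact hl0
  | succ k => have := hL k; simp only [lsc]; omega

lemma two_pow_le_Lsc {q L0 : ℕ} (hL0 : 1 ≤ L0) (k : ℕ) : 2 ^ k ≤ Lsc q L0 k := by
  induction k with
  | zero => simpa [Lsc] using hL0
  | succ k ih =>
    simp only [Lsc]
    have h1 : 2 ≤ 2 ^ (k + 1 + q) := by
      calc 2 = 2 ^ 1 := by norm_num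
        _ ≤ 2 ^ (k + 1 + q) := Nat.pow_le_pow_right (by norm_num) (by omega)
    calc 2 ^ (k + 1) = 2 * 2 ^ k := by ring
      _ ≤ 2 ^ (k + 1 + q) * Lsc q L0 k := Nat.mul_le_mul h1 ih

lemma four_lsc_le {q l0 L0 : ℕ} {k : ℕ} (hk : 2 ≤ k) : 4 * lsc q l0 L0 k ≤ Lsc q L0 k := by
  obtain ⟨j, rfl⟩ : ∃ j, k = j + 1 := ⟨k - 1, by omega⟩
  simp only [Lsc, lsc]
  refine Nat.mul_le_mul_right _ ?_
  calc 4 = 2 ^ 2 := by norm_num
    _ ≤ 2 ^ (j + 1 + q) := Nat.pow_le_pow_right (by norm_num) (by omega)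

lemma Lsc_succ_le {q l0 L0 : ℕ} (hq : L0 ≤ 2 ^ (q + 1) * l0) (k : ℕ) :
    Lsc q L0 (k + 1) ≤ 2 ^ (2 * k + 2 * q + 2) * lsc q l0 L0 k := by
  cases k with
  | zero =>
    simp only [Lsc, lsc]
    calc 2 ^ (0 + 1 + q) * L0 ≤ 2 ^ (0 + 1 + q) * (2 ^ (q + 1) * l0) := Nat.mul_le_mul_left _ hq
      _ = 2 ^ (2 * 0 + 2 * q + 2) * l0 := by rw [← mul_assoc, ← pow_add]; congr 2; omega
  | succ k =>
    simp only [Lsc, lsc]
    rw [← mul_assoc, ← pow_add]
    exact Nat.mul_le_mul_right _ (Nat.pow_le_pow_right (by norm_num) (by omega))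

/-- the deterministic chain -/
lemma chain {V : Site d → ℝ} {z : ℂ} {x y : Site d} {ψ : Site d → ℂ} {l L : ℕ} {ρ b : ℝ}
    (hl : 1 ≤ l) (hρ : 0 ≤ ρ) (hb : 0 ≤ b) (heq : ∀ u, u ≠ x → hop V z ψ u = 0)
    (hgood : ∀ a : Site d, sn (l • a) ≤ 2 * sn (y - x) + l → GoodBox V z (x + l • a) l L ρ)
    (hbd : ∀ u, sn (u - x) ≤ 2 * sn (y - x) → ‖ψ u‖ ≤ b) (j : ℕ) :
    ∀ w, sn (w - y) + j * (L + l + 1) < sn (y - x) → ‖ψ w‖ ≤ ρ ^ j * b := by
  induction j with
  | zero =>
    intro w hw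
    rw [pow_zero, one_mul]
    refine hbd w ?_
    have := sn_add_le (w - y) (y - x)
    rw [sub_add_sub_cancel] at this
    omega
  | succ j ih =>
    intro w hw
    rw [add_mul, one_mul] at hw
    set a := fl l (w - x) with ha
    have h1 : sn (w - x - l • a) ≤ l - 1 := sn_sub_fl hl (w - x)
    have h2 : sn (l • a) ≤ sn (w - x) + (l - 1) := by
      have := sn_sub_le (w - x) (w - x - l • a)
      rw [sub_sub_cancel] at this
      omega
    have h3 : sn (w - x) ≤ 2 * sn (y - x) := by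
      have := sn_add_le (w - y) (y - x)
      rw [sub_add_sub_cancel] at this
      omega
    have h5 : sn (y - x) ≤ sn (w - x) + sn (w - y) := by
      have := sn_sub_le (w - x) (w - y)
      rw [sub_sub_sub_cancel_left] at this
      exact this
    have hg := hgood a (by omega) ψ (ρ ^ j * b) (by positivity) (fun u hu => ?_) (fun u hu => ?_)
      w ?_
    · calc ‖ψ w‖ ≤ ρ * (ρ ^ j * b) := hg
        _ = _ := by ring
    · refine ih u ?_
      have e : u - y = (u - (x + l • a)) - (w - x - l • a) + (w - y) := by abel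
      have := sn_add_le ((u - (x + l • a)) - (w - x - l • a)) (w - y)
      rw [← e] at this
      have := sn_sub_le (u - (x + l • a)) (w - x - l • a)
      omega
    · refine heq u fun hux => ?_
      rw [hux] at hu
      have e : w - x = (w - x - l • a) - (x - (x + l • a)) := by abel
      have := sn_sub_le (w - x - l • a) (x - (x + l • a))
      rw [← e] at this
      omega
    · have e : w - (x + l • a) = w - x - l • a := by abel
      rw [e]; omega

lemma ae_growth {z : ℂ} {B : ℝ} {g : Site d → Site d → (Site d → ℝ) → ℂ}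
    (hp : Proc μ M lam K z B g) (x : Site d) {δ : ℝ} (hδ : 0 < δ) :
    ∀ᵐ ω ∂(PP d μ), ∀ᶠ r : ℕ in atTop, ∀ y, sn (y - x) ≤ r → ‖g y x ω‖ ≤ Real.exp (δ * r) := by
  classical
  set C2' := (C2 M lam K).toReal with hC2'
  set s : ℕ → Set (Site d → ℝ) := fun r => ⋃ y ∈ box x r, {ω | Real.exp (δ * r) ≤ ‖g y x ω‖} with hs
  have hC2n : 0 ≤ C2' := ENNReal.toReal_nonneg
  have hsum : Summable fun r : ℕ => ((2 * r + 1 : ℕ) : ℝ) ^ d * (Real.exp (-(δ * r / 4)) * (2 * C2')) := by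
    have h1 : Summable fun n : ℕ => (n : ℝ) ^ d * Real.exp (-(δ / 4) * n) :=
      Real.summable_pow_mul_exp_neg_nat_mul d (by positivity)
    have h2 : Summable fun n : ℕ => Real.exp (-(δ / 4) * n) := by
      have := Real.summable_pow_mul_exp_neg_nat_mul 0 (show 0 < δ / 4 by positivity)
      simpa using this
    refine Summable.of_nonneg_of_le (fun n => by positivity) (fun n => ?_)
      ((h1.mul_left (3 ^ d * (2 * C2'))).add (h2.mul_left (2 * C2')))
    rcases Nat.eq_zero_or_pos n with rfl | hn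
    · simp
      have : 0 ≤ 3 ^ d * (2 * C2') * (0 : ℝ) ^ d := by positivity
      linarith
    · have hn1 : (1 : ℝ) ≤ n := by exact_mod_cast hn
      have h3 : ((2 * n + 1 : ℕ) : ℝ) ^ d ≤ 3 ^ d * (n : ℝ) ^ d := by
        rw [← mul_pow]
        refine pow_le_pow_left₀ (by positivity) ?_ _
        push_cast; linarith
      have h4 : Real.exp (-(δ * n / 4)) = Real.exp (-(δ / 4) * n) := by congr 1; ring
      rw [h4]
      have h5 : 0 ≤ 2 * C2' * Real.exp (-(δ / 4) * n) := by positivity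
      calc ((2 * n + 1 : ℕ) : ℝ) ^ d * (Real.exp (-(δ / 4) * n) * (2 * C2'))
          ≤ 3 ^ d * (n : ℝ) ^ d * (Real.exp (-(δ / 4) * n) * (2 * C2')) :=
            mul_le_mul_of_nonneg_right h3 (by positivity)
        _ = 3 ^ d * (2 * C2') * ((n : ℝ) ^ d * Real.exp (-(δ / 4) * n)) := by ring
        _ ≤ _ := le_add_of_nonneg_right h5
  have hbound : ∀ r, (PP d μ).real (s r)
      ≤ ((2 * r + 1 : ℕ) : ℝ) ^ d * (Real.exp (-(δ * r / 4)) * (2 * C2')) := by
    intro r
    calc (PP d μ).real (s r) ≤ ∑ y ∈ box x r, (PP d μ).real {ω | Real.exp (δ * r) ≤ ‖g y x ω‖} :=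
          measureReal_biUnion_finset_le _ _
      _ ≤ ∑ y ∈ box x r, Real.exp (-(δ * r / 4)) * (2 * C2') :=
          Finset.sum_le_sum fun y _ => hp.tail_pos y x (δ * r)
      _ = _ := by rw [Finset.sum_const, nsmul_eq_mul, card_box]; push_cast; ring
  filter_upwards [bc hsum hbound] with ω hω
  filter_upwards [hω] with r hr y hy
  by_contra hcon
  refine hr ?_
  simp only [hs, mem_iUnion, exists_prop]
  exact ⟨y, mem_box.2 hy, (not_le.1 hcon).le⟩

lemma ae_good {z : ℂ} {q l0 L0 : ℕ} {m a : ℝ} (hl0 : 1 ≤ l0)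
    (h4 : 4 * l0 ≤ L0) (h : MSA d μ M lam z q l0 L0 m a) (x : Site d) :
    ∀ᵐ ω ∂(PP d μ), ∀ᶠ k : ℕ in atTop, ∀ c : Site d, sn c ≤ 20 * 2 ^ (2 * k + 2 * q + 2) →
      GoodBox (potc M lam ω) z (x + lsc q l0 L0 k • c) (lsc q l0 L0 k) (Lsc q L0 k)
        (Real.exp (-(m * Lsc q L0 k))) := by
  classical
  have ha : 0 ≤ a := by
    have h0 := h 0
    simp only [mul_zero, pow_zero, mul_one] at h0
    exact measureReal_nonneg.trans h0
  set s : ℕ → Set (Site d → ℝ) := fun k => ⋃ c ∈ box (0 : Site d) (20 * 2 ^ (2 * k + 2 * q + 2)),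
    {ω | ¬ GoodBox (potc M lam ω) z (x + lsc q l0 L0 k • c) (lsc q l0 L0 k) (Lsc q L0 k)
        (Real.exp (-(m * Lsc q L0 k)))} with hs
  have hll : ∀ k, lsc q l0 L0 k ≤ Lsc q L0 k + 1 := by
    intro k
    cases k with
    | zero => simp only [Lsc, lsc]; omega
    | succ k =>
      simp only [Lsc, lsc]
      have : 1 ≤ 2 ^ (k + 1 + q) := Nat.one_le_two_pow
      nlinarith
  have hsum : Summable fun k : ℕ => ((41 : ℝ) * 2 ^ (2 * q + 2)) ^ d * a * (1 / 2) ^ k :=
    (summable_geometric_of_lt_one (by norm_num) (by norm_num)).mul_left _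
  have hbound : ∀ k, (PP d μ).real (s k) ≤ ((41 : ℝ) * 2 ^ (2 * q + 2)) ^ d * a * (1 / 2) ^ k := by
    intro k
    have h1 : ((2 * (20 * 2 ^ (2 * k + 2 * q + 2)) + 1 : ℕ) : ℝ) ≤ 41 * 2 ^ (2 * q + 2) * 2 ^ (2 * k) := by
      push_cast
      have e : (2 : ℝ) ^ (2 * k + 2 * q + 2) = 2 ^ (2 * q + 2) * 2 ^ (2 * k) := by
        rw [← pow_add]; congr 1; omega
      rw [e]
      have : (1 : ℝ) ≤ 2 ^ (2 * q + 2) * 2 ^ (2 * k) :=
        one_le_mul_of_one_le_of_one_le (one_le_pow₀ (by norm_num)) (one_le_pow₀ (by norm_num))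
      linarith
    calc (PP d μ).real (s k)
        ≤ ∑ c ∈ box (0 : Site d) (20 * 2 ^ (2 * k + 2 * q + 2)), (PP d μ).real
            {ω | ¬ GoodBox (potc M lam ω) z (x + lsc q l0 L0 k • c) (lsc q l0 L0 k) (Lsc q L0 k)
              (Real.exp (-(m * Lsc q L0 k)))} := measureReal_biUnion_finset_le _ _
      _ ≤ ∑ c ∈ box (0 : Site d) (20 * 2 ^ (2 * k + 2 * q + 2)),
            a * (1 / 2) ^ ((4 * d + 1) * k) := by
          refine Finset.sum_le_sum fun c _ => ?_
          rw [bad_prob_eq M lam z _ _ _ (hll k)]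
          exact h k
      _ = ((2 * (20 * 2 ^ (2 * k + 2 * q + 2)) + 1 : ℕ) : ℝ) ^ d * (a * (1 / 2) ^ ((4 * d + 1) * k)) := by
          rw [Finset.sum_const, nsmul_eq_mul, card_box]; push_cast; ring
      _ ≤ (41 * 2 ^ (2 * q + 2) * 2 ^ (2 * k)) ^ d * (a * (1 / 2) ^ ((4 * d + 1) * k)) := by
          refine mul_le_mul_of_nonneg_right (pow_le_pow_left₀ (by positivity) h1 _) (by positivity)
      _ = ((41 : ℝ) * 2 ^ (2 * q + 2)) ^ d * a * (2 ^ (2 * k * d) * (1 / 2) ^ ((4 * d + 1) * k)) := by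
          rw [mul_pow _ ((2 : ℝ) ^ (2 * k)) d, ← pow_mul (2 : ℝ) (2 * k) d]; ring
      _ ≤ ((41 : ℝ) * 2 ^ (2 * q + 2)) ^ d * a * (1 / 2) ^ k := by
          refine mul_le_mul_of_nonneg_left ?_ (by positivity)
          have e : (4 * d + 1) * k = 2 * k * d + (2 * k * d + k) := by ring
          rw [e, pow_add, pow_add, ← mul_assoc, ← mul_pow]
          have h2 : ((1 : ℝ) / 2) ^ (2 * k * d) ≤ 1 := pow_le_one₀ (by norm_num) (by norm_num)
          have h3 : (0 : ℝ) ≤ (1 / 2) ^ k := by positivity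
          norm_num at h2 h3 ⊢
          nlinarith
  filter_upwards [bc hsum hbound] with ω hω
  filter_upwards [hω] with k hk c hc
  by_contra hcon
  refine hk ?_
  simp only [hs, mem_iUnion, exists_prop]
  exact ⟨c, mem_box.2 (by simpa using hc), hcon⟩

end ConsB

open ConsB in
theorem cons_b {z : ℂ} {B : ℝ} {g : Site d → Site d → (Site d → ℝ) → ℂ}
    (hp : Proc μ M lam K z B g) (hB0 : 0 ≤ B) {q l0 L0 : ℕ} {m a : ℝ} (hl0 : 1 ≤ l0)
    (h4 : 4 * l0 ≤ L0) (hq : L0 ≤ 2 ^ (q + 1) * l0) (hm : 0 < m)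
    (h : MSA d μ M lam z q l0 L0 m a) (x : Site d) :
    ∀ᵐ ω ∂(PP d μ), ∃ C c : ℝ, 0 < c ∧ ∀ y, ‖g y x ω‖ ≤ C * Real.exp (-(c * sn y)) := by
  classical
  filter_upwards [hp.eqn, ae_growth hp x (show 0 < m / 16 by positivity),
    ae_good hl0 h4 h x] with ω heqn hgr hgd
  obtain ⟨r0, hr0⟩ := eventually_atTop.1 hgr
  obtain ⟨k0', hk0'⟩ := eventually_atTop.1 hgd
  set k0 := max k0' 2 with hk0
  have hk0g : ∀ k ≥ k0, ∀ c : Site d, sn c ≤ 20 * 2 ^ (2 * k + 2 * q + 2) →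
      GoodBox (potc M lam ω) z (x + lsc q l0 L0 k • c) (lsc q l0 L0 k) (Lsc q L0 k)
        (Real.exp (-(m * Lsc q L0 k))) := fun k hk => hk0' k ((le_max_left _ _).trans hk)
  set ψ : Site d → ℂ := fun w => g w x ω with hψ
  have heq : ∀ u, u ≠ x → hop (potc M lam ω) z ψ u = 0 := by
    intro u hu
    have := heqn u x
    rwa [if_neg hu] at this
  set D0 := max (4 * Lsc q L0 k0) r0 with hD0
  -- the main decay
  have main : ∀ y, D0 ≤ sn (y - x) → ‖ψ y‖ ≤ Real.exp (-(m / 8 * sn (y - x))) := by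
    intro y hy
    set D := sn (y - x) with hD
    have hy1 : 4 * Lsc q L0 k0 ≤ D := (le_max_left _ _).trans hy
    have hy2 : r0 ≤ D := (le_max_right _ _).trans hy
    obtain ⟨k, hk, hk1, hk2⟩ : ∃ k ≥ k0, 4 * Lsc q L0 k ≤ D ∧ D < 4 * Lsc q L0 (k + 1) := by
      by_contra hcon
      push Not at hcon
      have hall : ∀ j, 4 * Lsc q L0 (k0 + j) ≤ D := by
        intro j
        induction j with
        | zero => exact hy1
        | succ j ih => exact hcon (k0 + j) (Nat.le_add_right _ _) ih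
      have h1 := hall D
      have h2 := two_pow_le_Lsc (q := q) (show 1 ≤ L0 by omega) (k0 + D)
      have h3 : k0 + D < 2 ^ (k0 + D) := Nat.lt_two_pow_self
      omega
    set l := lsc q l0 L0 k with hl
    set L := Lsc q L0 k with hL
    have hl1 : 1 ≤ l := (lsc_pos hl0 h4 k).1
    have hL4 : 4 ≤ L := (lsc_pos (q := q) hl0 h4 k).2
    have hlL : 4 * l ≤ L := four_lsc_le ((le_max_right _ _).trans hk)
    have hLs : Lsc q L0 (k + 1) ≤ 2 ^ (2 * k + 2 * q + 2) * l := Lsc_succ_le hq k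
    have hch := chain (V := potc M lam ω) (z := z) (x := x) (y := y) (ψ := ψ) (l := l) (L := L)
      (ρ := Real.exp (-(m * L))) (b := Real.exp (m / 16 * (2 * D : ℕ))) hl1 (Real.exp_pos _).le
      (Real.exp_pos _).le heq (fun c hc => hk0g k hk c ?_) (fun u hu => hr0 (2 * D) (by omega) u hu)
      ((D - 1) / (L + l + 1)) y ?_
    · set n := (D - 1) / (L + l + 1) with hn
      have hn1 : D - 1 < (L + l + 1) * (n + 1) := Nat.lt_mul_div_succ _ (by omega)
      have hn2 : D ≤ (L + l + 1) * (n + 1) := by omega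
      have hn3 : (D : ℝ) ≤ (L + l + 1) * (n + 1) := by exact_mod_cast hn2
      have hlL' : (4 : ℝ) * l ≤ L := by exact_mod_cast hlL
      have hL4' : (4 : ℝ) ≤ L := by exact_mod_cast hL4
      have hk1' : (4 : ℝ) * L ≤ D := by exact_mod_cast hk1
      have hn0 : (0 : ℝ) ≤ n := Nat.cast_nonneg _
      have hl0' : (0 : ℝ) ≤ l := Nat.cast_nonneg _
      have h5 : (D : ℝ) ≤ 3 / 2 * L * (n + 1) := by
        refine hn3.trans (mul_le_mul_of_nonneg_right ?_ (by linarith))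
        linarith
      have h6 : (D : ℝ) / 4 ≤ L * n := by nlinarith
      calc ‖ψ y‖ ≤ Real.exp (-(m * L)) ^ n * Real.exp (m / 16 * (2 * D : ℕ)) := hch
        _ = Real.exp (-(m * (L * n)) + m / 8 * D) := by
            rw [← Real.exp_nat_mul, ← Real.exp_add]; congr 1; push_cast; ring
        _ ≤ Real.exp (-(m / 8 * D)) := by
            refine Real.exp_le_exp.2 ?_
            nlinarith
    · -- centres in range
      rw [sn_nsmul] at hc
      have h5 : l * sn c ≤ l * (20 * 2 ^ (2 * k + 2 * q + 2)) := by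
        have h6 : L ≤ Lsc q L0 (k + 1) := by
          show Lsc q L0 k ≤ 2 ^ (k + 1 + q) * Lsc q L0 k
          exact Nat.le_mul_of_pos_left _ (by positivity)
        calc l * sn c ≤ 2 * D + l := hc
          _ ≤ 20 * Lsc q L0 (k + 1) := by omega
          _ ≤ 20 * (2 ^ (2 * k + 2 * q + 2) * l) := Nat.mul_le_mul_left _ hLs
          _ = _ := by ring
      exact Nat.le_of_mul_le_mul_left h5 hl1
    · rw [sub_self, sn_zero, zero_add]
      have := Nat.div_mul_le_self (D - 1) (L + l + 1)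
      omega
  -- conclusion
  refine ⟨Real.exp (m / 8 * sn x) + ∑ y ∈ box x D0, ‖ψ y‖ * Real.exp (m / 8 * sn y), m / 8,
    by positivity, fun y => ?_⟩
  have hnn : 0 ≤ ∑ y ∈ box x D0, ‖ψ y‖ * Real.exp (m / 8 * sn y) :=
    Finset.sum_nonneg fun _ _ => by positivity
  rcases le_or_gt D0 (sn (y - x)) with hy | hy
  · refine (main y hy).trans ?_
    rw [add_mul]
    refine le_add_of_le_of_nonneg ?_ (by positivity)
    rw [← Real.exp_add]
    refine Real.exp_le_exp.2 ?_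
    have h1 : sn y ≤ sn (y - x) + sn x := by
      have := sn_add_le (y - x) x
      rwa [sub_add_cancel] at this
    have h2 : (sn y : ℝ) ≤ sn (y - x) + sn x := by exact_mod_cast h1
    nlinarith
  · have h1 := Finset.single_le_sum (f := fun y => ‖ψ y‖ * Real.exp (m / 8 * sn y))
      (fun _ _ => by positivity) (mem_box.2 hy.le)
    have h2 : ‖ψ y‖ = ‖ψ y‖ * Real.exp (m / 8 * sn y) * Real.exp (-(m / 8 * sn y)) := by
      rw [mul_assoc, ← Real.exp_add, add_neg_cancel, Real.exp_zero, mul_one]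
    show ‖ψ y‖ ≤ _
    rw [h2]
    refine mul_le_mul_of_nonneg_right ?_ (Real.exp_pos _).le
    have := Real.exp_pos (m / 8 * sn x)
    linarith

end Pool.Agent.Helper3.Crit
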