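import Pool.Agent.Helper3.Crit.SkelDefs2
import Pool.Agent.Helper3.Crit.Neg3

/-! Decoupling inequality for fractional moments of the Green function. -/

open scoped ENNReal NNReal InnerProductSpace
open MeasureTheory Set Filter Topology

noncomputable section

namespace Pool.Agent.Helper3.Crit

open Pool.Agent.Helper3.Anderson

variable {d : ℕ} {μ : Measure ℝ} [IsProbabilityMeasure μ] {M lam : ℝ} {K : ℝ≥0}

section Glue

variable {ι : Type*} [DecidableEq ι]

/-- glue two configurations: `η` on `Λ`, `ω` off `Λ` -/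
def glue (Λ : Finset ι) (ω η : ι → ℝ) : ι → ℝ := fun v => if v ∈ Λ then η v else ω v

lemma glue_of_mem {Λ : Finset ι} {ω η : ι → ℝ} {v : ι} (h : v ∈ Λ) : glue Λ ω η v = η v := by
  simp [glue, h]

lemma glue_of_notMem {Λ : Finset ι} {ω η : ι → ℝ} {v : ι} (h : v ∉ Λ) :
    glue Λ ω η v = ω v := by
  simp [glue, h]

lemma glue_empty (ω η : ι → ℝ) : glue ∅ ω η = ω := by
  funext v; simp [glue]

lemma glue_update {Λ : Finset ι} {ω η : ι → ℝ} {u : ι} (hu : u ∈ Λ) (t : ℝ) :
    glue Λ ω (Function.update η u t) = Function.update (glue Λ ω η) u t := by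
  funext v
  by_cases hv : v = u
  · subst hv; rw [glue_of_mem hu, Function.update_self, Function.update_self]
  · rw [Function.update_of_ne hv]
    by_cases hvΛ : v ∈ Λ
    · rw [glue_of_mem hvΛ, glue_of_mem hvΛ, Function.update_of_ne hv]
    · rw [glue_of_notMem hvΛ, glue_of_notMem hvΛ]

lemma glue_glue (Λ : Finset ι) (ω η : ι → ℝ) : glue Λ (glue Λ ω η) (glue Λ η ω) = ω := by
  funext v
  by_cases hv : v ∈ Λ
  · rw [glue_of_mem hv, glue_of_mem hv]
  · rw [glue_of_notMem hv, glue_of_notMem hv]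

lemma measurable_glue (Λ : Finset ι) :
    Measurable fun p : (ι → ℝ) × (ι → ℝ) => glue Λ p.1 p.2 := by
  rw [measurable_pi_iff]
  intro v
  by_cases hv : v ∈ Λ
  · simp only [glue_of_mem hv]; exact (measurable_pi_apply v).comp measurable_snd
  · simp only [glue_of_notMem hv]; exact (measurable_pi_apply v).comp measurable_fst

/-- the swap of the coordinate `u` of two configurations -/
def swapOne (u : ι) (p : (ι → ℝ) × (ι → ℝ)) : (ι → ℝ) × (ι → ℝ) :=
  (Function.update p.1 u (p.2 u), Function.update p.2 u (p.1 u))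

lemma measurable_update_comp {α : Type*} [MeasurableSpace α] (u : ι) {f : α → ι → ℝ}
    {g : α → ℝ} (hf : Measurable f) (hg : Measurable g) :
    Measurable fun a => Function.update (f a) u (g a) := by
  exact (measurable_update_prod u).comp (hf.prodMk hg)

lemma measurable_swapOne (u : ι) : Measurable (swapOne (ι := ι) u) := by
  unfold swapOne
  refine Measurable.prodMk ?_ ?_
  · exact measurable_update_comp u measurable_fst ((measurable_pi_apply u).comp measurable_snd)
  · exact measurable_update_comp u measurable_snd ((measurable_pi_apply u).comp measurable_fst)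

lemma map_swapOne (u : ι) :
    ((Measure.infinitePi (fun _ : ι => μ)).prod (Measure.infinitePi (fun _ : ι => μ))).map
      (swapOne u)
      = (Measure.infinitePi (fun _ : ι => μ)).prod (Measure.infinitePi (fun _ : ι => μ)) := by
  set P := Measure.infinitePi (fun _ : ι => μ) with hP
  refine Measure.ext_of_lintegral _ fun F hF => ?_
  have e0 : ∫⁻ a, F (swapOne u a) ∂(P.prod P) = ∫⁻ ω, ∫⁻ η, F (swapOne u (ω, η)) ∂P ∂P :=
    lintegral_prod (fun a => F (swapOne u a)) (hF.comp (measurable_swapOne u)).aemeasurable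
  rw [lintegral_map hF (measurable_swapOne u), e0, lintegral_prod _ hF.aemeasurable]
  -- left side
  have hL : ∫⁻ ω, ∫⁻ η, F (swapOne u (ω, η)) ∂P ∂P
      = ∫⁻ ω, ∫⁻ s, ∫⁻ η, ∫⁻ t, F (Function.update ω u t, Function.update η u s) ∂μ ∂P ∂μ ∂P := by
    have h1 : ∀ ω : ι → ℝ, ∫⁻ η, F (swapOne u (ω, η)) ∂P
        = ∫⁻ η, ∫⁻ t, F (Function.update ω u t, Function.update η u (ω u)) ∂μ ∂P := by
      intro ω
      rw [hP, lintegral_resample u]
      · refine lintegral_congr fun η => lintegral_congr fun t => ?_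
        simp only [swapOne, Function.update_self, Function.update_idem]
      · exact (hF.comp (measurable_swapOne u)).comp measurable_prodMk_left
    simp only [h1]
    have hmeas : Measurable fun ω : ι → ℝ =>
        ∫⁻ η, ∫⁻ t, F (Function.update ω u t, Function.update η u (ω u)) ∂μ ∂P := by
      refine Measurable.lintegral_prod_right' (f := fun p : (ι → ℝ) × (ι → ℝ) =>
        ∫⁻ t, F (Function.update p.1 u t, Function.update p.2 u (p.1 u)) ∂μ) ?_
      refine Measurable.lintegral_prod_right' (f := fun q : ((ι → ℝ) × (ι → ℝ)) × ℝ =>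
        F (Function.update q.1.1 u q.2, Function.update q.1.2 u (q.1.1 u))) ?_
      refine hF.comp (Measurable.prodMk ?_ ?_)
      · exact measurable_update_comp u (measurable_fst.comp measurable_fst) measurable_snd
      · exact measurable_update_comp u (measurable_snd.comp measurable_fst)
          ((measurable_pi_apply u).comp (measurable_fst.comp measurable_fst))
    rw [hP, lintegral_resample u (by rw [← hP]; exact hmeas), ← hP]
    refine lintegral_congr fun ω => lintegral_congr fun s => ?_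
    simp only [Function.update_self, Function.update_idem]
  have hR : ∫⁻ ω, ∫⁻ η, F (ω, η) ∂P ∂P
      = ∫⁻ ω, ∫⁻ t, ∫⁻ η, ∫⁻ s, F (Function.update ω u t, Function.update η u s) ∂μ ∂P ∂μ ∂P := by
    have hmeas : Measurable fun ω : ι → ℝ => ∫⁻ η, F (ω, η) ∂P :=
      Measurable.lintegral_prod_right' hF
    conv_lhs => rw [hP, lintegral_resample u (by rw [← hP]; exact hmeas), ← hP]
    refine lintegral_congr fun ω => lintegral_congr fun t => ?_
    have hF' : Measurable fun η : ι → ℝ => F (Function.update ω u t, η) :=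
      hF.comp measurable_prodMk_left
    rw [hP, lintegral_resample u hF']
  rw [hL, hR]
  refine lintegral_congr fun ω => ?_
  have hG : Measurable fun q : (ι → ℝ) × (ℝ × ℝ) =>
      F (Function.update ω u q.2.2, Function.update q.1 u q.2.1) := by
    refine hF.comp (Measurable.prodMk ?_ ?_)
    · exact measurable_update_comp u measurable_const (measurable_snd.comp measurable_snd)
    · exact measurable_update_comp u measurable_fst (measurable_fst.comp measurable_snd)
  have e1 : ∫⁻ s, ∫⁻ η, ∫⁻ t, F (Function.update ω u t, Function.update η u s) ∂μ ∂P ∂μ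
      = ∫⁻ η, ∫⁻ s, ∫⁻ t, F (Function.update ω u t, Function.update η u s) ∂μ ∂μ ∂P := by
    rw [lintegral_lintegral_swap]
    refine Measurable.aemeasurable ?_
    refine Measurable.lintegral_prod_right' (f := fun q : (ℝ × (ι → ℝ)) × ℝ =>
        F (Function.update ω u q.2, Function.update q.1.2 u q.1.1)) ?_
    exact hG.comp ((measurable_snd.comp measurable_fst).prodMk
      ((measurable_fst.comp measurable_fst).prodMk measurable_snd))
  have e2 : ∫⁻ t, ∫⁻ η, ∫⁻ s, F (Function.update ω u t, Function.update η u s) ∂μ ∂P ∂μ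
      = ∫⁻ η, ∫⁻ t, ∫⁻ s, F (Function.update ω u t, Function.update η u s) ∂μ ∂μ ∂P := by
    rw [lintegral_lintegral_swap]
    refine Measurable.aemeasurable ?_
    refine Measurable.lintegral_prod_right' (f := fun q : (ℝ × (ι → ℝ)) × ℝ =>
        F (Function.update ω u q.1.1, Function.update q.1.2 u q.2)) ?_
    exact hG.comp ((measurable_snd.comp measurable_fst).prodMk
      (measurable_snd.prodMk (measurable_fst.comp measurable_fst)))
  rw [e1, e2]
  refine lintegral_congr fun η => ?_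
  rw [lintegral_lintegral_swap]
  refine Measurable.aemeasurable ?_
  exact hG.comp (measurable_const.prodMk (measurable_fst.prodMk measurable_snd))

/-- the swap of the coordinates in `Λ` preserves the product of two copies of the law -/
lemma map_glue (Λ : Finset ι) :
    ((Measure.infinitePi (fun _ : ι => μ)).prod (Measure.infinitePi (fun _ : ι => μ))).map
      (fun p => (glue Λ p.1 p.2, glue Λ p.2 p.1))
      = (Measure.infinitePi (fun _ : ι => μ)).prod (Measure.infinitePi (fun _ : ι => μ)) := by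
  induction Λ using Finset.induction_on with
  | empty =>
      have : (fun p : (ι → ℝ) × (ι → ℝ) => (glue ∅ p.1 p.2, glue ∅ p.2 p.1)) = id := by
        funext p; simp [glue_empty]
      rw [this, Measure.map_id]
  | insert u Λ hu ih =>
      have hT : Measurable fun p : (ι → ℝ) × (ι → ℝ) => (glue Λ p.1 p.2, glue Λ p.2 p.1) :=
        (measurable_glue Λ).prodMk ((measurable_glue Λ).comp (measurable_snd.prodMk measurable_fst))
      have : (fun p : (ι → ℝ) × (ι → ℝ) => (glue (insert u Λ) p.1 p.2, glue (insert u Λ) p.2 p.1))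
          = swapOne u ∘ fun p => (glue Λ p.1 p.2, glue Λ p.2 p.1) := by
        have key : ∀ ω η : ι → ℝ, glue (insert u Λ) ω η
            = Function.update (glue Λ ω η) u (glue Λ η ω u) := by
          intro ω η
          funext v
          by_cases hv : v = u
          · subst hv
            rw [Function.update_self, glue_of_mem (Finset.mem_insert_self _ _), glue_of_notMem hu]
          · rw [Function.update_of_ne hv]
            by_cases hvΛ : v ∈ Λ
            · rw [glue_of_mem (Finset.mem_insert_of_mem hvΛ), glue_of_mem hvΛ]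
            · rw [glue_of_notMem (by simp [hv, hvΛ]), glue_of_notMem hvΛ]
        funext p
        simp only [Function.comp_apply, swapOne, key]
      rw [this, ← Measure.map_map (measurable_swapOne u) hT, ih, map_swapOne]

/-- swap identity for double integrals -/
lemma lintegral_glue (Λ : Finset ι) {F : (ι → ℝ) × (ι → ℝ) → ℝ≥0∞} (hF : Measurable F) :
    ∫⁻ ω, ∫⁻ η, F (ω, glue Λ ω η) ∂(Measure.infinitePi (fun _ : ι => μ))
        ∂(Measure.infinitePi (fun _ : ι => μ))
      = ∫⁻ ω, ∫⁻ η, F (glue Λ ω η, ω) ∂(Measure.infinitePi (fun _ : ι => μ))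
        ∂(Measure.infinitePi (fun _ : ι => μ)) := by
  set P := Measure.infinitePi (fun _ : ι => μ) with hP
  have hT : Measurable fun p : (ι → ℝ) × (ι → ℝ) => (glue Λ p.1 p.2, glue Λ p.2 p.1) :=
    (measurable_glue Λ).prodMk ((measurable_glue Λ).comp (measurable_snd.prodMk measurable_fst))
  have hF1 : Measurable fun p : (ι → ℝ) × (ι → ℝ) => F (p.1, glue Λ p.1 p.2) :=
    hF.comp (measurable_fst.prodMk (measurable_glue Λ))
  have hF2 : Measurable fun p : (ι → ℝ) × (ι → ℝ) => F (glue Λ p.1 p.2, p.1) :=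
    hF.comp ((measurable_glue Λ).prodMk measurable_fst)
  have h1 : ∫⁻ p, F (p.1, glue Λ p.1 p.2) ∂(P.prod P)
      = ∫⁻ p, F (glue Λ p.1 p.2, p.1) ∂(P.prod P) := by
    conv_lhs => rw [hP, ← map_glue (μ := μ) Λ]
    rw [lintegral_map hF1 hT]
    simp only [glue_glue]
    rfl
  rw [lintegral_prod _ hF1.aemeasurable, lintegral_prod _ hF2.aemeasurable] at h1
  exact h1

end Glue

/-- moment bound for the Green function when the configuration is resampled on `Λ` only -/
lemma glue_moment (hμ : GoodLaw μ M K) (hlam : 0 < lam) {z : ℂ} (hz0 : 0 < z.im)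
    (Λ : Finset (Site d)) {x u : Site d} (hx : x ∈ Λ) (hu : u ∈ Λ) (ω : Site d → ℝ) :
    ∫⁻ η, ‖gc M lam z (glue Λ ω η) x u‖ₑ ^ (1 / 4 : ℝ) ∂(PP d μ) ≤ 2 * C2 M lam K := by
  have hM : 0 ≤ M := by linarith [hμ.one_le]
  have hg : Measurable fun η : Site d → ℝ => glue Λ ω η :=
    (measurable_glue Λ).comp (measurable_const.prodMk measurable_id)
  have key : ∀ ω : Site d → ℝ, ‖gc M lam z ω x u‖ₑ ^ (1/4 : ℝ)
      ≤ (ratio M lam z x u x ω) ^ (1/4 : ℝ) + (ratio M lam z x x x ω) ^ (1/4 : ℝ) := by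
    intro ω
    have hne : gc M lam z ω x x ≠ 0 := green_self_ne_zero _ (bdd_potc hM ω) hz0 x
    have he0 : ‖gc M lam z ω x x‖ₑ ≠ 0 := by simpa using hne
    have het : ‖gc M lam z ω x x‖ₑ ≠ ⊤ := enorm_ne_top
    have hs : gc M lam z ω u x = gc M lam z ω x u := green_symm _ (bdd_potc hM ω) hz0 u x
    have e1 : ratio M lam z x x x ω = ‖gc M lam z ω x x‖ₑ := by
      rw [ratio, ENNReal.mul_div_right_comm, ENNReal.div_self he0 het, one_mul]
    have e2 : ratio M lam z x u x ω * ‖gc M lam z ω x x‖ₑ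
        = ‖gc M lam z ω x u‖ₑ * ‖gc M lam z ω x u‖ₑ := by
      rw [ratio, hs, ENNReal.div_mul_cancel he0 het]
    have e3 : ‖gc M lam z ω x u‖ₑ ^ (1/4 : ℝ)
        = ((ratio M lam z x u x ω) ^ (1/4 : ℝ) * (ratio M lam z x x x ω) ^ (1/4 : ℝ)) ^ (1/2 : ℝ) := by
      rw [← ENNReal.mul_rpow_of_nonneg _ _ (by norm_num : (0 : ℝ) ≤ 1/4), e1, e2, ← sq,
        ← ENNReal.rpow_natCast, ← ENNReal.rpow_mul, ← ENNReal.rpow_mul]
      norm_num
    rw [e3]
    exact sqrt_mul_le _ _
  have hone : ∀ v ∈ Λ, ∫⁻ η, (ratio M lam z x v x (glue Λ ω η)) ^ (1/4 : ℝ) ∂(PP d μ)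
      ≤ C2 M lam K := by
    intro v hv
    have hm : Measurable fun η : Site d → ℝ => (ratio M lam z x v x (glue Λ ω η)) ^ (1/4 : ℝ) :=
      ((measurable_ratio hM hz0 x v x).pow_const _).comp hg
    calc ∫⁻ η, (ratio M lam z x v x (glue Λ ω η)) ^ (1/4 : ℝ) ∂(PP d μ)
        = ∫⁻ η, ∫⁻ t, (ratio M lam z x v x (glue Λ ω (Function.update η v t))) ^ (1/4 : ℝ) ∂μ
          ∂(PP d μ) := lintegral_resample v hm
      _ ≤ ∫⁻ _η, C2 M lam K ∂(PP d μ) := by
          refine lintegral_mono fun η => ?_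
          simp only [glue_update hv]
          exact quasi_one hμ hlam hz0 x v x (glue Λ ω η)
      _ = C2 M lam K := by rw [lintegral_const, measure_univ, mul_one]
  calc ∫⁻ η, ‖gc M lam z (glue Λ ω η) x u‖ₑ ^ (1 / 4 : ℝ) ∂(PP d μ)
      ≤ ∫⁻ η, ((ratio M lam z x u x (glue Λ ω η)) ^ (1/4 : ℝ)
          + (ratio M lam z x x x (glue Λ ω η)) ^ (1/4 : ℝ)) ∂(PP d μ) :=
        lintegral_mono fun η => key (glue Λ ω η)
    _ = _ := lintegral_add_left (((measurable_ratio hM hz0 x u x).pow_const _).comp hg) _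
    _ ≤ C2 M lam K + C2 M lam K := add_le_add (hone u hu) (hone x hx)
    _ = _ := by rw [two_mul]

/-- the pointwise resolvent estimate -/
lemma gc_pointwise (hM : 0 ≤ M) (hlam : 0 < lam) {z : ℂ} (hz0 : 0 < z.im)
    (Λ : Finset (Site d)) (x y : Site d) (ω η : Site d → ℝ) :
    ‖gc M lam z ω x y‖ₑ ^ (1 / 8 : ℝ) ≤ ‖gc M lam z (glue Λ ω η) x y‖ₑ ^ (1 / 8 : ℝ)
      + ∑ u ∈ Λ, ENNReal.ofReal (2 * lam * M) ^ (1 / 8 : ℝ) *
        (‖gc M lam z ω x u‖ₑ ^ (1 / 8 : ℝ) * ‖gc M lam z (glue Λ ω η) u y‖ₑ ^ (1 / 8 : ℝ)) := by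
  classical
  set ω' := glue Λ ω η with hω'
  have h1 := green_sub_sum (potc M lam ω) (potc M lam ω') (bdd_potc hM ω) (bdd_potc hM ω') hz0 Λ
    (fun v hv => by simp only [potc, hω', glue_of_notMem hv]) x y
  have h2 : gc M lam z ω x y = gc M lam z ω' x y
      + ∑ u : Λ, gc M lam z ω x u * (((potc M lam ω' u - potc M lam ω u : ℝ) : ℂ)
        * gc M lam z ω' u y) := by
    simp only [gc]
    linear_combination h1
  have hsub : ∀ (s : Finset Λ) (f : Λ → ℝ≥0∞), (∑ u ∈ s, f u) ^ (1 / 8 : ℝ)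
      ≤ ∑ u ∈ s, f u ^ (1 / 8 : ℝ) := by
    intro s f
    induction s using Finset.induction_on with
    | empty => simp
    | insert a s ha ih =>
        rw [Finset.sum_insert ha, Finset.sum_insert ha]
        exact (ENNReal.rpow_add_le_add_rpow _ _ (by norm_num) (by norm_num)).trans
          (add_le_add le_rfl ih)
  have hdiff : ∀ u : Site d, ‖((potc M lam ω' u - potc M lam ω u : ℝ) : ℂ)‖ₑ
      ≤ ENNReal.ofReal (2 * lam * M) := by
    intro u
    rw [← ofReal_norm, Complex.norm_real]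
    refine ENNReal.ofReal_le_ofReal ?_
    rw [Real.norm_eq_abs]
    have a1 := abs_clip_le hM (ω' u)
    have a2 := abs_clip_le hM (ω u)
    rw [abs_le] at a1 a2
    simp only [potc]
    rw [abs_le]
    constructor <;> nlinarith [mul_le_mul_of_nonneg_left a1.1 hlam.le,
      mul_le_mul_of_nonneg_left a1.2 hlam.le, mul_le_mul_of_nonneg_left a2.1 hlam.le,
      mul_le_mul_of_nonneg_left a2.2 hlam.le]
  have h3 : ‖gc M lam z ω x y‖ₑ ≤ ‖gc M lam z ω' x y‖ₑ
      + ∑ u : Λ, ENNReal.ofReal (2 * lam * M) * (‖gc M lam z ω x u‖ₑ * ‖gc M lam z ω' u y‖ₑ) := by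
    rw [h2]
    refine (enorm_add_le _ _).trans (add_le_add le_rfl ?_)
    refine (enorm_sum_le _ _).trans (Finset.sum_le_sum fun u _ => ?_)
    rw [enorm_mul, enorm_mul]
    calc ‖gc M lam z ω x u‖ₑ * (‖((potc M lam ω' u - potc M lam ω u : ℝ) : ℂ)‖ₑ
          * ‖gc M lam z ω' u y‖ₑ)
        ≤ ‖gc M lam z ω x u‖ₑ * (ENNReal.ofReal (2 * lam * M) * ‖gc M lam z ω' u y‖ₑ) := by
          gcongr; exact hdiff u
      _ = _ := by ring
  calc ‖gc M lam z ω x y‖ₑ ^ (1 / 8 : ℝ)
      ≤ (‖gc M lam z ω' x y‖ₑ + ∑ u : Λ, ENNReal.ofReal (2 * lam * M)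
          * (‖gc M lam z ω x u‖ₑ * ‖gc M lam z ω' u y‖ₑ)) ^ (1 / 8 : ℝ) :=
        ENNReal.rpow_le_rpow h3 (by norm_num)
    _ ≤ ‖gc M lam z ω' x y‖ₑ ^ (1 / 8 : ℝ) + (∑ u : Λ, ENNReal.ofReal (2 * lam * M)
          * (‖gc M lam z ω x u‖ₑ * ‖gc M lam z ω' u y‖ₑ)) ^ (1 / 8 : ℝ) :=
        ENNReal.rpow_add_le_add_rpow _ _ (by norm_num) (by norm_num)
    _ ≤ ‖gc M lam z ω' x y‖ₑ ^ (1 / 8 : ℝ) + ∑ u : Λ, (ENNReal.ofReal (2 * lam * M)
          * (‖gc M lam z ω x u‖ₑ * ‖gc M lam z ω' u y‖ₑ)) ^ (1 / 8 : ℝ) :=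
        add_le_add le_rfl (hsub _ _)
    _ = _ := by
        congr 1
        rw [← Finset.sum_coe_sort Λ]
        refine Finset.sum_congr rfl fun u _ => ?_
        rw [ENNReal.mul_rpow_of_nonneg _ _ (by norm_num), ENNReal.mul_rpow_of_nonneg _ _ (by norm_num)]

theorem decouple (hμ : GoodLaw μ M K) (hlam : 0 < lam) {z : ℂ} (hz0 : 0 < z.im)
    (Λ : Finset (Site d)) {A : Set (Site d → ℝ)} (hA : MeasurableSet A)
    (hloc : ∀ ω ω' : Site d → ℝ, (∀ u ∈ Λ, ω u = ω' u) → ω ∈ A → ω' ∈ A)
    {x : Site d} (hx : x ∈ Λ) (y : Site d) :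
    ∫⁻ ω in A, ‖gc M lam z ω x y‖ₑ ^ (1 / 8 : ℝ) ∂(PP d μ)
      ≤ CD M lam K * (PP d μ A) ^ (1 / 2 : ℝ)
        * ∑ u ∈ Λ, ∫⁻ ω, ‖gc M lam z ω u y‖ₑ ^ (1 / 8 : ℝ) ∂(PP d μ) := by
  classical
  have hM : 0 ≤ M := by linarith [hμ.one_le]
  set P := PP d μ with hP
  have : IsProbabilityMeasure P := by rw [hP]; infer_instance
  set c := ENNReal.ofReal (2 * lam * M) ^ (1 / 8 : ℝ) with hc
  set ind : (Site d → ℝ) → ℝ≥0∞ := A.indicator (fun _ => 1) with hind
  have hindm : Measurable ind := measurable_const.indicator hA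
  set g : Site d → Site d → (Site d → ℝ) → ℝ≥0∞ :=
    fun a b ω => ‖gc M lam z ω a b‖ₑ ^ (1 / 8 : ℝ) with hg
  have hgm : ∀ a b, Measurable (g a b) := fun a b =>
    ((measurable_gc hM hz0 a b).enorm).pow_const _
  set F : (Site d → ℝ) × (Site d → ℝ) → ℝ≥0∞ :=
    fun p => ind p.1 * (g x y p.2 + ∑ u ∈ Λ, c * (g x u p.1 * g u y p.2)) with hF
  have hFm : Measurable F := by
    rw [hF]
    refine (hindm.comp measurable_fst).mul (((hgm x y).comp measurable_snd).add ?_)
    refine Finset.measurable_sum _ fun u _ => Measurable.const_mul ?_ c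
    exact ((hgm x u).comp measurable_fst).mul ((hgm u y).comp measurable_snd)
  have hloc' : ∀ ω η : Site d → ℝ, ind (glue Λ ω η) = ind η := by
    intro ω η
    have hiff : glue Λ ω η ∈ A ↔ η ∈ A :=
      ⟨hloc _ _ fun u hu => glue_of_mem hu, hloc _ _ fun u hu => (glue_of_mem hu).symm⟩
    by_cases h : η ∈ A
    · simp only [hind, Set.indicator_of_mem h, Set.indicator_of_mem (hiff.2 h)]
    · simp only [hind, Set.indicator_of_notMem h, Set.indicator_of_notMem (fun h' => h (hiff.1 h'))]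
  have hindP : ∫⁻ η, ind η ∂P = P A := by
    rw [hind, lintegral_indicator_const hA, one_mul]
  -- Hölder
  have hhold : ∀ u ∈ Λ, ∀ ω : Site d → ℝ, ∫⁻ η, ind η * g x u (glue Λ ω η) ∂P
      ≤ (P A) ^ (1 / 2 : ℝ) * (2 * C2 M lam K) ^ (1 / 2 : ℝ) := by
    intro u hu ω
    have hgl : Measurable fun η : Site d → ℝ => glue Λ ω η :=
      (measurable_glue Λ).comp (measurable_const.prodMk measurable_id)
    have h1 := ENNReal.lintegral_mul_le_Lp_mul_Lq P Real.HolderConjugate.two_two
      (f := ind) (g := fun η => g x u (glue Λ ω η))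
      hindm.aemeasurable ((hgm x u).comp hgl).aemeasurable
    simp only [Pi.mul_apply] at h1
    refine h1.trans ?_
    have e1 : ∫⁻ η, ind η ^ (2 : ℝ) ∂P = P A := by
      rw [← hindP]
      refine lintegral_congr fun η => ?_
      by_cases h : η ∈ A
      · simp [hind, Set.indicator_of_mem h]
      · simp [hind, Set.indicator_of_notMem h]
    have e2 : ∫⁻ η, (g x u (glue Λ ω η)) ^ (2 : ℝ) ∂P ≤ 2 * C2 M lam K := by
      have : ∀ η : Site d → ℝ, (g x u (glue Λ ω η)) ^ (2 : ℝ)
          = ‖gc M lam z (glue Λ ω η) x u‖ₑ ^ (1 / 4 : ℝ) := by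
        intro η
        simp only [hg]
        rw [← ENNReal.rpow_mul]
        norm_num
      simp only [this]
      exact glue_moment hμ hlam hz0 Λ hx hu ω
    rw [e1]
    gcongr
  calc ∫⁻ ω in A, ‖gc M lam z ω x y‖ₑ ^ (1 / 8 : ℝ) ∂P
      = ∫⁻ ω, ind ω * g x y ω ∂P := by
        rw [← lintegral_indicator hA]
        refine lintegral_congr fun ω => ?_
        by_cases h : ω ∈ A
        · simp [hind, hg, Set.indicator_of_mem h]
        · simp [hind, hg, Set.indicator_of_notMem h]
    _ = ∫⁻ ω, ∫⁻ _η, ind ω * g x y ω ∂P ∂P := by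
        refine lintegral_congr fun ω => ?_
        rw [lintegral_const, measure_univ, mul_one]
    _ ≤ ∫⁻ ω, ∫⁻ η, F (ω, glue Λ ω η) ∂P ∂P := by
        refine lintegral_mono fun ω => lintegral_mono fun η => ?_
        simp only [hF]
        gcongr
        exact gc_pointwise hM hlam hz0 Λ x y ω η
    _ = ∫⁻ ω, ∫⁻ η, F (glue Λ ω η, ω) ∂P ∂P := by
        rw [hP]; exact lintegral_glue Λ hFm
    _ ≤ ∫⁻ ω, ((P A) ^ (1 / 2 : ℝ) * g x y ω
          + ∑ u ∈ Λ, (c * ((P A) ^ (1 / 2 : ℝ) * (2 * C2 M lam K) ^ (1 / 2 : ℝ))) * g u y ω) ∂P := by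
        refine lintegral_mono fun ω => ?_
        have hgl : Measurable fun η : Site d → ℝ => glue Λ ω η :=
          (measurable_glue Λ).comp (measurable_const.prodMk measurable_id)
        have hexp : ∀ η : Site d → ℝ, F (glue Λ ω η, ω) = g x y ω * ind η
            + ∑ u ∈ Λ, (c * g u y ω) * (ind η * g x u (glue Λ ω η)) := by
          intro η
          simp only [hF, hloc', mul_add, Finset.mul_sum]
          rw [mul_comm (ind η) (g x y ω)]
          congr 1
          exact Finset.sum_congr rfl fun u _ => by ring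
        have hmu : ∀ u, Measurable fun η : Site d → ℝ => ind η * g x u (glue Λ ω η) :=
          fun u => hindm.mul ((hgm x u).comp hgl)
        simp only [hexp]
        rw [lintegral_add_left (hindm.const_mul _), lintegral_const_mul _ hindm, hindP,
          lintegral_finsetSum _ fun u _ => (hmu u).const_mul _]
        refine add_le_add ?_ (Finset.sum_le_sum fun u hu => ?_)
        · rw [mul_comm]
          gcongr
          calc P A = (P A) ^ (1 : ℝ) := (ENNReal.rpow_one _).symm
            _ ≤ (P A) ^ (1 / 2 : ℝ) :=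
              ENNReal.rpow_le_rpow_of_exponent_ge prob_le_one (by norm_num)
        · rw [lintegral_const_mul _ (hmu u)]
          calc (c * g u y ω) * ∫⁻ η, ind η * g x u (glue Λ ω η) ∂P
              ≤ (c * g u y ω) * ((P A) ^ (1 / 2 : ℝ) * (2 * C2 M lam K) ^ (1 / 2 : ℝ)) := by
                gcongr; exact hhold u hu ω
            _ = _ := by ring
    _ = (P A) ^ (1 / 2 : ℝ) * ∫⁻ ω, g x y ω ∂P
          + ∑ u ∈ Λ, (c * ((P A) ^ (1 / 2 : ℝ) * (2 * C2 M lam K) ^ (1 / 2 : ℝ)))
            * ∫⁻ ω, g u y ω ∂P := by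
        rw [lintegral_add_left ((hgm x y).const_mul _), lintegral_const_mul _ (hgm x y),
          lintegral_finsetSum _ fun u _ => (hgm u y).const_mul _]
        congr 1
        exact Finset.sum_congr rfl fun u _ => lintegral_const_mul _ (hgm u y)
    _ ≤ (P A) ^ (1 / 2 : ℝ) * ∑ u ∈ Λ, ∫⁻ ω, g u y ω ∂P
          + ∑ u ∈ Λ, (c * ((P A) ^ (1 / 2 : ℝ) * (2 * C2 M lam K) ^ (1 / 2 : ℝ)))
            * ∫⁻ ω, g u y ω ∂P := by
        gcongr
        exact Finset.single_le_sum (f := fun u => ∫⁻ ω, g u y ω ∂P) (fun _ _ => zero_le) hx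
    _ = CD M lam K * (P A) ^ (1 / 2 : ℝ) * ∑ u ∈ Λ, ∫⁻ ω, g u y ω ∂P := by
        rw [← Finset.mul_sum, CD]
        ring

end Pool.Agent.Helper3.Crit
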