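import Pool.Agent.Helper3.Anderson.Model

/-! Lattice geometry and good boxes for the localisation criterion. -/

open scoped ENNReal NNReal
open MeasureTheory Set Filter Topology

namespace Pool.Agent.Helper3.Crit

open Pool.Agent.Helper3.Anderson

variable {d : ℕ}

/-- Sup norm on `ℤ^d`, natural number valued. -/
def sn (x : Site d) : ℕ := Finset.univ.sup fun i => (x i).natAbs

lemma sn_le_iff {x : Site d} {n : ℕ} : sn x ≤ n ↔ ∀ i, (x i).natAbs ≤ n := by
  simp [sn, Finset.sup_le_iff]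

lemma le_sn (x : Site d) (i : Fin d) : (x i).natAbs ≤ sn x := sn_le_iff.1 le_rfl i

lemma sn_zero : sn (0 : Site d) = 0 := by
  have : sn (0 : Site d) ≤ 0 := sn_le_iff.2 fun i => by simp
  omega

lemma sn_neg (x : Site d) : sn (-x) = sn x := by simp [sn]

lemma sn_add_le (x y : Site d) : sn (x + y) ≤ sn x + sn y := by
  refine sn_le_iff.2 fun i => ?_
  have h1 := le_sn x i
  have h2 := le_sn y i
  have : ((x + y) i).natAbs ≤ (x i).natAbs + (y i).natAbs := by
    simpa using Int.natAbs_add_le (x i) (y i)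
  omega

lemma sn_sub_le (x y : Site d) : sn (x - y) ≤ sn x + sn y := by
  have := sn_add_le x (-y)
  rwa [sn_neg, ← sub_eq_add_neg] at this

lemma sn_sub_comm (x y : Site d) : sn (x - y) = sn (y - x) := by
  rw [← sn_neg, neg_sub]

lemma sn_eq_zero {x : Site d} (h : sn x = 0) : x = 0 := by
  funext i
  have := le_sn x i
  have h2 : (x i).natAbs = 0 := by omega
  simpa using h2

lemma sn_single (j : Fin d) : sn (Pi.single j 1 : Site d) = 1 := by
  refine le_antisymm (sn_le_iff.2 fun i => ?_) ?_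
  · rcases eq_or_ne i j with rfl | h
    · simp
    · simp [Pi.single_eq_of_ne h]
  · have := le_sn (Pi.single j 1 : Site d) j
    simpa using this

/-- the box of radius `L` around `x` -/
noncomputable def box (x : Site d) (L : ℕ) : Finset (Site d) :=
  Finset.Icc (fun i => x i - L) (fun i => x i + L)

lemma mem_box {x y : Site d} {L : ℕ} : y ∈ box x L ↔ sn (y - x) ≤ L := by
  rw [box, Finset.mem_Icc, sn_le_iff]
  simp only [Pi.le_def, Pi.sub_apply]
  constructor
  · rintro ⟨h1, h2⟩ i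
    have := h1 i
    have := h2 i
    omega
  · intro h
    refine ⟨fun i => ?_, fun i => ?_⟩
    all_goals have := h i; omega

lemma card_box (x : Site d) (L : ℕ) : (box x L).card = (2 * L + 1) ^ d := by
  rw [box, Pi.card_Icc]
  simp only [Int.card_Icc]
  have : ∀ i : Fin d, (x i + (L : ℤ) + 1 - (x i - L)).toNat = 2 * L + 1 := fun i => by omega
  simp [this]

/-- sum over the nearest neighbours -/
def nsum (ψ : Site d → ℂ) (u : Site d) : ℂ :=
  ∑ j : Fin d, (ψ (u + Pi.single j 1) + ψ (u - Pi.single j 1))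

/-- `((H - z) ψ)(u)` for `H = -Δ + V`. -/
def hop (V : Site d → ℝ) (z : ℂ) (ψ : Site d → ℂ) (u : Site d) : ℂ :=
  (2 * d + (V u : ℂ) - z) * ψ u - nsum ψ u

/-- inhomogeneous good box: the solution is controlled in the core of radius `l` by the boundary
values on the sphere of radius `L + 1` and by the right side. -/
def GB (V : Site d → ℝ) (z : ℂ) (x : Site d) (l L : ℕ) (ρ K : ℝ) : Prop :=
  ∀ (ψ : Site d → ℂ) (b e : ℝ), 0 ≤ b → 0 ≤ e →
    (∀ y, sn (y - x) = L + 1 → ‖ψ y‖ ≤ b) →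
    (∀ u, sn (u - x) ≤ L → ‖hop V z ψ u‖ ≤ e) →
    ∀ y, sn (y - x) ≤ l → ‖ψ y‖ ≤ ρ * b + K * e

/-- good box: every solution of `(H - z) ψ = 0` in the box of radius `L` is, in the core of radius
`l`, at most `ρ` times its maximum on the sphere of radius `L + 1`. -/
def GoodBox (V : Site d → ℝ) (z : ℂ) (x : Site d) (l L : ℕ) (ρ : ℝ) : Prop :=
  ∀ (ψ : Site d → ℂ) (b : ℝ), 0 ≤ b →
    (∀ y, sn (y - x) = L + 1 → ‖ψ y‖ ≤ b) →
    (∀ u, sn (u - x) ≤ L → hop V z ψ u = 0) →
    ∀ y, sn (y - x) ≤ l → ‖ψ y‖ ≤ ρ * b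

lemma GB.good {V : Site d → ℝ} {z : ℂ} {x : Site d} {l L : ℕ} {ρ K : ℝ} (h : GB V z x l L ρ K) :
    GoodBox V z x l L ρ := by
  intro ψ b hb h1 h2 y hy
  have := h ψ b 0 hb le_rfl h1 (fun u hu => by rw [h2 u hu, norm_zero]) y hy
  simpa using this

end Pool.Agent.Helper3.Crit
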