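import Pool.Agent.Helper3.Crit.SkelDefs

/-! Deterministic step of the multiscale analysis. -/

open scoped ENNReal NNReal InnerProductSpace
open MeasureTheory Set Filter Topology

noncomputable section

namespace Pool.Agent.Helper3.Crit

open Pool.Agent.Helper3.Anderson

variable {d : ℕ}

lemma det_near {l : ℕ} (hl : 1 ≤ l) (y : Site d) : ∃ a : Site d, sn (y - l • a) ≤ l - 1 := by
  refine ⟨fun i => y i / (l : ℤ), sn_le_iff.2 fun i => ?_⟩
  have e : (y - l • (fun i => y i / (l : ℤ) : Site d)) i = y i % (l : ℤ) := by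
    have h0 : (y - l • (fun i => y i / (l : ℤ) : Site d)) i = y i - l * (y i / (l : ℤ)) := by
      simp
    rw [h0]
    have := Int.emod_add_mul_ediv (y i) (l : ℤ)
    linarith
  rw [e]
  have h1 := Int.emod_nonneg (y i) (b := (l : ℤ)) (by omega)
  have h2 := Int.emod_lt_of_pos (y i) (b := (l : ℤ)) (by omega)
  omega

/-- the maximum of `‖ψ‖` over the box of radius `r` -/
def det_F (ψ : Site d → ℂ) (r : ℕ) : ℝ :=
  (box (0 : Site d) r).sup' ⟨0, mem_box.2 (by simp [sn_zero])⟩ (fun y => ‖ψ y‖)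

lemma le_det_F (ψ : Site d → ℂ) {r : ℕ} {y : Site d} (hy : sn y ≤ r) : ‖ψ y‖ ≤ det_F ψ r := by
  unfold det_F
  exact Finset.le_sup' (fun y => ‖ψ y‖) (mem_box.2 (by simpa using hy))

lemma det_F_le (ψ : Site d → ℂ) {r : ℕ} {b : ℝ} (h : ∀ y : Site d, sn y ≤ r → ‖ψ y‖ ≤ b) :
    det_F ψ r ≤ b := by
  unfold det_F
  refine Finset.sup'_le _ _ fun y hy => h y ?_
  have := mem_box.1 hy
  simpa using this

lemma det_F_mono (ψ : Site d → ℂ) {r s : ℕ} (h : r ≤ s) : det_F ψ r ≤ det_F ψ s :=
  det_F_le ψ fun _ hy => le_det_F ψ (hy.trans h)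

lemma det_F_nonneg (ψ : Site d → ℂ) (r : ℕ) : 0 ≤ det_F ψ r :=
  (norm_nonneg (ψ 0)).trans (le_det_F ψ (by simp [sn_zero]))

lemma det_iter (F : ℕ → ℝ) {ρ : ℝ} (hρ : 0 ≤ ρ) (r N : ℕ) (k : ℕ)
    (h : ∀ j, j < k → F (r + j * N) ≤ ρ * F (r + (j + 1) * N)) :
    F r ≤ ρ ^ k * F (r + k * N) := by
  induction k with
  | zero => simp
  | succ k ih =>
    have h1 := ih fun j hj => h j (by omega)
    have h2 := h k (by omega)
    calc F r ≤ ρ ^ k * F (r + k * N) := h1
      _ ≤ ρ ^ k * (ρ * F (r + (k + 1) * N)) := mul_le_mul_of_nonneg_left h2 (pow_nonneg hρ _)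
      _ = ρ ^ (k + 1) * F (r + (k + 1) * N) := by ring

theorem msa_det {V : Site d → ℝ} {z : ℂ} {l L l' L' n : ℕ} {ρ κ κ' : ℝ}
    (hl : 1 ≤ l) (hlL : l ≤ L) (hρ : 0 ≤ ρ) (hρ1 : ρ ≤ 1) (hκ : 0 ≤ κ) (hκρ : κ * ρ < 1)
    (hκ' : 1 ≤ κ') (hn : l' + 2 * (2 * L + l) + (n + 3) * (L + l + 1) ≤ L')
    (h2 : ∀ a a' : Site d, sn (l • a) + L ≤ L' → sn (l • a') + L ≤ L' →
      2 * L < sn (l • a - l • a') →
      GoodBox V z (l • a) l L ρ ∨ GoodBox V z (l • a') l L ρ)
    (hW : ∀ a : Site d, sn (l • a) + L ≤ L' →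
      GoodBox V z (l • a) (2 * L + l) (2 * L + l) κ)
    (hbig : GoodBox V z 0 L' L' κ') :
    GoodBox V z 0 l' L' (ρ ^ n * κ') := by
  intro ψ b hb hbd hhop
  have hbd' : ∀ y : Site d, sn y = L' + 1 → ‖ψ y‖ ≤ b := fun y hy => hbd y (by simpa using hy)
  have hhop' : ∀ u : Site d, sn u ≤ L' → hop V z ψ u = 0 := fun u hu => hhop u (by simpa using hu)
  set N : ℕ := L + l + 1 with hN
  set F : ℕ → ℝ := det_F ψ with hF
  -- the global bound
  have hglob : F (L' + 1) ≤ κ' * b := by
    refine det_F_le ψ fun y hy => ?_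
    rcases Nat.lt_or_ge L' (sn y) with h | h
    · have h1 := hbd' y (by omega)
      nlinarith
    · exact hbig ψ b hb hbd hhop y (by simpa using h)
  -- (i)
  have hi : ∀ (a : Site d) (y : Site d) (s : ℕ), sn (l • a) + L ≤ L' →
      GoodBox V z (l • a) l L ρ → sn (y - l • a) ≤ l → sn (l • a) + L + 1 ≤ s →
      ‖ψ y‖ ≤ ρ * F s := by
    intro a y s h1 hg hy hs
    refine hg ψ (F s) (det_F_nonneg ψ _) ?_ ?_ y hy
    · intro w hw
      refine le_det_F ψ ?_
      have := sn_add_le (w - l • a) (l • a)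
      rw [sub_add_cancel] at this
      omega
    · intro u hu
      refine hhop' u ?_
      have := sn_add_le (u - l • a) (l • a)
      rw [sub_add_cancel] at this
      omega
  have hfin : ∀ r : ℕ, r ≤ L' + 1 → F l' ≤ ρ ^ n * F r →
      ∀ y : Site d, sn (y - 0) ≤ l' → ‖ψ y‖ ≤ ρ ^ n * κ' * b := by
    intro r hr h y hy
    have h1 : ‖ψ y‖ ≤ F l' := le_det_F ψ (by simpa using hy)
    have h3 : F r ≤ κ' * b := (det_F_mono ψ hr).trans hglob
    calc ‖ψ y‖ ≤ ρ ^ n * F r := h1.trans h
      _ ≤ ρ ^ n * (κ' * b) := mul_le_mul_of_nonneg_left h3 (pow_nonneg hρ _)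
      _ = ρ ^ n * κ' * b := by ring
  have hnN : l' + 2 * (2 * L + l) + n * N + 3 * N ≤ L' := by
    have : (n + 3) * N = n * N + 3 * N := by ring
    omega
  by_cases hbad : ∃ a0 : Site d, sn (l • a0) + L ≤ L' ∧ ¬ GoodBox V z (l • a0) l L ρ
  · obtain ⟨a0, ha0, hng⟩ := hbad
    set s : ℕ := sn (l • a0) with hs
    have hgood : ∀ a : Site d, sn (l • a) + L ≤ L' → 2 * L < sn (l • a - l • a0) →
        GoodBox V z (l • a) l L ρ := by
      intro a h1 h3
      rcases h2 a a0 h1 ha0 h3 with h | h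
      · exact h
      · exact absurd h hng
    -- points far from the bad centre
    have hfar : ∀ (y : Site d) (t : ℕ), sn y + N ≤ L' + 1 → 2 * L + l + 1 ≤ sn (y - l • a0) →
        sn y + N ≤ t → ‖ψ y‖ ≤ ρ * F t := by
      intro y t h1 h3 ht
      obtain ⟨a, ha⟩ := det_near hl y
      have e1 : sn (l • a) ≤ sn y + (l - 1) := by
        have := sn_sub_le y (y - l • a)
        rw [sub_sub_cancel] at this
        omega
      have e2 : sn (y - l • a0) ≤ sn (y - l • a) + sn (l • a - l • a0) := by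
        have := sn_add_le (y - l • a) (l • a - l • a0)
        rwa [sub_add_sub_cancel] at this
      exact hi a y t (by omega) (hgood a (by omega) (by omega)) (by omega) (by omega)
    -- stage 1
    have hst1 : ∀ r : ℕ, r + (2 * L + l) < s → r + N ≤ L' + 1 → F r ≤ ρ * F (r + N) := by
      intro r h1 h3
      refine det_F_le ψ fun y hy => hfar y (r + N) (by omega) ?_ (by omega)
      have := sn_sub_le (l • a0 - y) (-y)
      rw [sub_neg_eq_add, sub_add_cancel, sn_neg, sn_sub_comm] at this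
      omega
    -- interior estimate
    have hint : s + (2 * L + l) + 1 + N ≤ L' + 1 → ∀ y : Site d, sn (y - l • a0) ≤ 2 * L + l →
        ‖ψ y‖ ≤ κ * (ρ * F (s + (2 * L + l) + 1 + N)) := by
      intro h1 y hy
      refine hW a0 ha0 ψ (ρ * F (s + (2 * L + l) + 1 + N))
        (mul_nonneg hρ (det_F_nonneg ψ _)) ?_ ?_ y hy
      · intro w hw
        have := sn_add_le (w - l • a0) (l • a0)
        rw [sub_add_cancel] at this
        exact hfar w _ (by omega) (by omega) (by omega)
      · intro u hu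
        have := sn_add_le (u - l • a0) (l • a0)
        rw [sub_add_cancel] at this
        exact hhop' u (by omega)
    -- stage 2
    have hst2 : ∀ r : ℕ, s + (2 * L + l) + 1 + N ≤ r → r + N ≤ L' + 1 →
        F r ≤ ρ * F (r + N) := by
      intro r h1 h3
      have hmax : F r ≤ max (ρ * F (r + N)) (κ * (ρ * F (s + (2 * L + l) + 1 + N))) := by
        refine det_F_le ψ fun y hy => ?_
        rcases Nat.lt_or_ge (2 * L + l) (sn (y - l • a0)) with h | h
        · exact le_max_of_le_left (hfar y (r + N) (by omega) (by omega) (by omega))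
        · exact le_max_of_le_right (hint (by omega) y h)
      have h0 : 0 ≤ ρ * F (r + N) := mul_nonneg hρ (det_F_nonneg ψ _)
      rcases le_max_iff.1 hmax with h | h
      · exact h
      · have h4 : F (s + (2 * L + l) + 1 + N) ≤ F r := det_F_mono ψ h1
        have h5 : F r ≤ κ * ρ * F r := by
          calc F r ≤ κ * (ρ * F (s + (2 * L + l) + 1 + N)) := h
            _ = κ * ρ * F (s + (2 * L + l) + 1 + N) := by ring
            _ ≤ κ * ρ * F r := mul_le_mul_of_nonneg_left h4 (mul_nonneg hκ hρ)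
        have h6 : 0 ≤ F r := det_F_nonneg ψ r
        nlinarith
    -- counting
    by_cases hall : ∀ j, j < n → l' + j * N + (2 * L + l) < s
    · refine hfin (l' + n * N) (by omega) ?_
      refine det_iter F hρ l' N n fun j hj => ?_
      have h3 := hst1 (l' + j * N) (hall j hj) (by
        have : (j + 1) * N ≤ n * N := Nat.mul_le_mul_right _ hj
        have e : (j + 1) * N = j * N + N := by ring
        omega)
      have e : l' + j * N + N = l' + (j + 1) * N := by ring
      rwa [e] at h3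
    · push Not at hall
      classical
      obtain ⟨n1, ⟨hn1, hsn1⟩, hmin⟩ : ∃ n1, (n1 < n ∧ s ≤ l' + n1 * N + (2 * L + l)) ∧
          ∀ j, j < n1 → ¬ (j < n ∧ s ≤ l' + j * N + (2 * L + l)) :=
        ⟨Nat.find hall, Nat.find_spec hall, fun j hj => Nat.find_min hall hj⟩
      have hmulle : n1 * N + N ≤ n * N := by
        have : (n1 + 1) * N ≤ n * N := Nat.mul_le_mul_right _ hn1
        have e : (n1 + 1) * N = n1 * N + N := by ring
        omega
      have s1 : F l' ≤ ρ ^ n1 * F (l' + n1 * N) := by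
        refine det_iter F hρ l' N n1 fun j hj => ?_
        have hj' := hmin j hj
        have hj2 : l' + j * N + (2 * L + l) < s := by
          by_contra hcon
          exact hj' ⟨by omega, by omega⟩
        have h3 := hst1 (l' + j * N) hj2 (by
          have : (j + 1) * N ≤ n1 * N := Nat.mul_le_mul_right _ hj
          have e : (j + 1) * N = j * N + N := by ring
          omega)
        have e : l' + j * N + N = l' + (j + 1) * N := by ring
        rwa [e] at h3
      set R3 : ℕ := l' + n1 * N + 2 * (2 * L + l) + 1 + N with hR3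
      have hsub : (n - n1) * N + n1 * N = n * N := by
        rw [← Nat.add_mul]; congr 1; omega
      have s2 : F (l' + n1 * N) ≤ F R3 := det_F_mono ψ (by omega)
      have s3 : F R3 ≤ ρ ^ (n - n1) * F (R3 + (n - n1) * N) := by
        refine det_iter F hρ R3 N (n - n1) fun j hj => ?_
        have h3 := hst2 (R3 + j * N) (by omega) (by
          have : (j + 1) * N ≤ (n - n1) * N := Nat.mul_le_mul_right _ hj
          have e : (j + 1) * N = j * N + N := by ring
          omega)
        have e : R3 + j * N + N = R3 + (j + 1) * N := by ring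
        rwa [e] at h3
      refine hfin (R3 + (n - n1) * N) (by omega) ?_
      calc F l' ≤ ρ ^ n1 * F (l' + n1 * N) := s1
        _ ≤ ρ ^ n1 * F R3 := mul_le_mul_of_nonneg_left s2 (pow_nonneg hρ _)
        _ ≤ ρ ^ n1 * (ρ ^ (n - n1) * F (R3 + (n - n1) * N)) :=
            mul_le_mul_of_nonneg_left s3 (pow_nonneg hρ _)
        _ = ρ ^ n * F (R3 + (n - n1) * N) := by
            rw [← mul_assoc, ← pow_add]; congr 2; omega
  · push Not at hbad
    refine hfin (l' + n * N) (by omega) ?_
    refine det_iter F hρ l' N n fun j hj => ?_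
    have hj2 : (j + 1) * N ≤ n * N := Nat.mul_le_mul_right _ hj
    have e : (j + 1) * N = j * N + N := by ring
    refine det_F_le ψ fun y hy => ?_
    obtain ⟨a, ha⟩ := det_near hl y
    have e1 : sn (l • a) ≤ sn y + (l - 1) := by
      have := sn_sub_le y (y - l • a)
      rw [sub_sub_cancel] at this
      omega
    exact hi a y _ (by omega) (hbad a (by omega)) (by omega) (by omega)

end Pool.Agent.Helper3.Crit
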