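import Pool.Agent.Helper3.Crit.PureP

/-! Module EQB: if the part of `H` in `U` is exhausted by exponentially decaying eigenvectors and
those with eigenvalue in `B ⊆ U` vanish at `x` then the spectral measure of `δ_x` does not charge
`B`. -/

open scoped ENNReal NNReal InnerProductSpace BoundedContinuousFunction
open MeasureTheory Set Filter Topology

noncomputable section

namespace Pool.Agent.Helper3.Crit

namespace Eqb

open PP

variable {𝓗 : Type*} [NormedAddCommGroup 𝓗] [InnerProductSpace ℂ 𝓗] [CompleteSpace 𝓗]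
  {H : 𝓗 →L[ℂ] 𝓗}

/-- bump functions decreasing to the indicator of `K` -/
def bump (K : Set ℝ) (m : ℕ) (t : ℝ) : ℝ := max 0 (1 - (m : ℝ) * Metric.infDist t K)

lemma bump_cont (K : Set ℝ) (m : ℕ) : Continuous (bump K m) := by
  unfold bump
  have := Metric.continuous_infDist_pt K
  fun_prop

lemma bump_nonneg (K : Set ℝ) (m : ℕ) (t : ℝ) : 0 ≤ bump K m t := le_max_left _ _

lemma bump_le_one (K : Set ℝ) (m : ℕ) (t : ℝ) : bump K m t ≤ 1 := by
  unfold bump
  refine max_le zero_le_one ?_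
  have : 0 ≤ (m : ℝ) * Metric.infDist t K := mul_nonneg (Nat.cast_nonneg _) Metric.infDist_nonneg
  linarith

lemma bump_eq_one {K : Set ℝ} {m : ℕ} {t : ℝ} (ht : t ∈ K) : bump K m t = 1 := by
  unfold bump
  rw [Metric.infDist_zero_of_mem ht]
  simp

lemma bump_tendsto {K : Set ℝ} (hK : IsClosed K) (hne : K.Nonempty) {t : ℝ} (ht : t ∉ K) :
    Tendsto (fun m => bump K m t) atTop (𝓝 0) := by
  have hpos : 0 < Metric.infDist t K := (hK.notMem_iff_infDist_pos hne).1 ht
  obtain ⟨N, hN⟩ := exists_nat_ge (1 / Metric.infDist t K)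
  refine tendsto_const_nhds.congr' ?_
  filter_upwards [eventually_ge_atTop N] with n hn
  have h1 : (N : ℝ) ≤ n := by exact_mod_cast hn
  have h2 : 1 ≤ (n : ℝ) * Metric.infDist t K := by
    rw [div_le_iff₀ hpos] at hN
    nlinarith
  unfold bump
  rw [max_eq_left]
  linarith

/-- extension to a function on `ℂ` -/
def cbump (K : Set ℝ) (m : ℕ) (z : ℂ) : ℂ := ((bump K m z.re : ℝ) : ℂ)

lemma cbump_cont (K : Set ℝ) (m : ℕ) : Continuous (cbump K m) :=
  Complex.continuous_ofReal.comp ((bump_cont K m).comp Complex.continuous_re)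

lemma cbump_ofReal (K : Set ℝ) (m : ℕ) (t : ℝ) : cbump K m t = ((bump K m t : ℝ) : ℂ) := by
  simp [cbump]

lemma norm_cbump (K : Set ℝ) (m : ℕ) (z : ℂ) : ‖cbump K m z‖ ≤ 1 := by
  rw [cbump, Complex.norm_real, Real.norm_eq_abs, abs_of_nonneg (bump_nonneg _ _ _)]
  exact bump_le_one _ _ _

lemma norm_cfc_cbump_le (K : Set ℝ) (m : ℕ) (u : 𝓗) : ‖cfc (cbump K m) H u‖ ≤ ‖u‖ := by
  have h1 : ‖cfc (cbump K m) H‖ ≤ 1 := norm_cfc_le zero_le_one fun z _ => norm_cbump K m z
  calc ‖cfc (cbump K m) H u‖ ≤ ‖cfc (cbump K m) H‖ * ‖u‖ := ContinuousLinearMap.le_opNorm _ _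
    _ ≤ 1 * ‖u‖ := mul_le_mul_of_nonneg_right h1 (norm_nonneg _)
    _ = ‖u‖ := one_mul _

/-- the spectral measure of a vector in the closed span of eigenvectors with eigenvalues
outside of `B` does not charge `B` -/
theorem null_of_closure (hH : IsSelfAdjoint H) {S : Set 𝓗} {B : Set ℝ} (hB : MeasurableSet B)
    (hS : ∀ φ ∈ S, ∃ E : ℝ, E ∉ B ∧ H φ = (E : ℂ) • φ) {q : 𝓗}
    (hq : q ∈ (Submodule.span ℂ S).topologicalClosure) {ν : Measure ℝ} (hν : IsSpec H q ν) :
    ν B = 0 := by
  have hfin := hν.fin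
  have hcl : ∀ K ⊆ B, IsClosed K → ν K = 0 := by
    intro K hKB hK
    rcases K.eq_empty_or_nonempty with rfl | hne
    · simp
    have hspan : ∀ w ∈ Submodule.span ℂ S,
        Tendsto (fun m => cfc (cbump K m) H w) atTop (𝓝 0) := by
      intro w hw
      induction hw using Submodule.span_induction with
      | mem φ hφ =>
        obtain ⟨E, hE, h1⟩ := hS φ hφ
        have h2 : ∀ m, cfc (cbump K m) H φ = ((bump K m E : ℝ) : ℂ) • φ := fun m => by
          rw [cfc_eigenvector hH h1 (cbump_cont K m), cbump_ofReal]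
        simp only [h2]
        have h3 := (Complex.continuous_ofReal.tendsto _).comp
          (bump_tendsto hK hne (t := E) fun h => hE (hKB h))
        have h4 := h3.smul_const φ
        simpa using h4
      | zero => simp
      | add a b _ _ ha hb => simpa only [map_add, add_zero] using ha.add hb
      | smul c a _ ha => simpa only [map_smul, smul_zero] using ha.const_smul c
    have hlim : Tendsto (fun m => cfc (cbump K m) H q) atTop (𝓝 0) := by
      rw [Metric.tendsto_atTop]
      intro ε hε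
      have hq' : q ∈ closure (Submodule.span ℂ S : Set 𝓗) := hq
      obtain ⟨w, hw, hqw⟩ := Metric.mem_closure_iff.1 hq' (ε / 2) (half_pos hε)
      obtain ⟨N, hN⟩ := Metric.tendsto_atTop.1 (hspan w hw) (ε / 2) (half_pos hε)
      refine ⟨N, fun m hm => ?_⟩
      have h1 := hN m hm
      rw [dist_zero_right] at h1 ⊢
      have h2 : cfc (cbump K m) H q = cfc (cbump K m) H (q - w) + cfc (cbump K m) H w := by
        rw [← map_add, sub_add_cancel]
      have h3 := norm_cfc_cbump_le (H := H) K m (q - w)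
      rw [dist_eq_norm] at hqw
      calc ‖cfc (cbump K m) H q‖ ≤ ‖cfc (cbump K m) H (q - w)‖ + ‖cfc (cbump K m) H w‖ := by
            rw [h2]; exact norm_add_le _ _
        _ < ε / 2 + ε / 2 := by linarith
        _ = ε := add_halves ε
    have hle : ∀ m, ν.real K ≤ ‖cfc (cbump K m) H q‖ ^ 2 := by
      intro m
      rw [hν.norm_sq hH (cbump_cont K m)]
      calc ν.real K = ∫ t, indicator K 1 t ∂ν := by
            rw [integral_indicator_one hK.measurableSet]
        _ ≤ ∫ t : ℝ, ‖cbump K m t‖ ^ 2 ∂ν := by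
            refine integral_mono ?_ (hν.integrable (f := fun t : ℝ => ‖cbump K m t‖ ^ 2) ?_)
              fun t => ?_
            · exact (integrable_const (1 : ℝ)).indicator hK.measurableSet
            · exact (((cbump_cont K m).comp Complex.continuous_ofReal).norm).pow 2
            · by_cases ht : t ∈ K
              · rw [indicator_of_mem ht]
                change (1 : ℝ) ≤ ‖cbump K m t‖ ^ 2
                rw [cbump_ofReal, bump_eq_one ht]
                simp
              · rw [indicator_of_notMem ht]; positivity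
    have h0 : ν.real K ≤ 0 := by
      have h1 : Tendsto (fun m => ‖cfc (cbump K m) H q‖ ^ 2) atTop (𝓝 (‖(0 : 𝓗)‖ ^ 2)) :=
        hlim.norm.pow 2
      rw [norm_zero, zero_pow two_ne_zero] at h1
      exact ge_of_tendsto' h1 hle
    have h2 : ν.real K = 0 := le_antisymm h0 measureReal_nonneg
    rwa [measureReal_eq_zero_iff] at h2
  rw [hB.measure_eq_iSup_isClosed_of_ne_top (measure_ne_top ν B)]
  simp only [ENNReal.iSup_eq_zero]
  intro K hKB hK
  exact hcl K hKB hK

/-- additivity of spectral measures on invariant orthogonal parts -/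
theorem spec_add {W : Submodule ℂ 𝓗} (hW : ∀ g : ℂ → ℂ, Continuous g → ∀ w ∈ W, cfc g H w ∈ W)
    {q v : 𝓗} (hq : q ∈ W) (hv : v ∈ Wᗮ) {ν νq νv : Measure ℝ} (hν : IsSpec H (q + v) ν)
    (hνq : IsSpec H q νq) (hνv : IsSpec H v νv) : ν = νq + νv := by
  have h1 := hν.fin
  have h2 := hνq.fin
  have h3 := hνv.fin
  refine ext_of_forall_integral_eq_of_IsFiniteMeasure fun f => ?_
  set F : ℂ → ℂ := fun z => ((f z.re : ℝ) : ℂ) with hF
  have hFc : Continuous F :=
    Complex.continuous_ofReal.comp (f.continuous.comp Complex.continuous_re)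
  have e : ∀ (u : 𝓗) (ρ : Measure ℝ), IsSpec H u ρ →
      ⟪u, cfc F H u⟫_ℂ = ((∫ t, f t ∂ρ : ℝ) : ℂ) := by
    intro u ρ h
    rw [h.int F hFc]
    simp only [hF, Complex.ofReal_re]
    exact integral_ofReal
  have e1 := e _ _ hν
  have e2 := e _ _ hνq
  have e3 := e _ _ hνv
  have c1 : ⟪q, cfc F H v⟫_ℂ = 0 :=
    (Submodule.mem_orthogonal _ _).1 (cfc_mem_orth hW hFc hv) q hq
  have c2 : ⟪v, cfc F H q⟫_ℂ = 0 :=
    (Submodule.mem_orthogonal' _ _).1 hv _ (hW F hFc q hq)
  rw [map_add, inner_add_left, inner_add_right, inner_add_right, c1, c2, e2, e3, add_zero,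
    zero_add] at e1
  rw [integral_add_measure (hνq.integrable f.continuous) (hνv.integrable f.continuous)]
  exact_mod_cast e1.symm

end Eqb

open Pool.Agent.Helper3.Anderson PP Eqb

variable {d : ℕ}

theorem null_of_localised (V : Site d → ℝ) (hV : Bdd V) {U B : Set ℝ} (hU : MeasurableSet U)
    (hB : MeasurableSet B) (hBU : B ⊆ U) (x : Site d)
    (hloc : ∀ (ψ : L2 d) (ν : Measure ℝ), PP.IsSpec (schr V hV) ψ ν →
      (∀ E ∈ U, ∀ φ : L2 d, schr V hV φ = (E : ℂ) • φ → ExpDecay (φ : Site d → ℂ) →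
        ⟪φ, ψ⟫_ℂ = 0) → ν U = 0)
    (hx : ∀ E ∈ B, ∀ φ : L2 d, schr V hV φ = (E : ℂ) • φ → ExpDecay (φ : Site d → ℂ) → φ x = 0)
    {ν : Measure ℝ} (hν : PP.IsSpec (schr V hV) (dl x) ν) : ν B = 0 := by
  have hH := isSelfAdjoint_schr V hV
  set H := schr V hV with hHdef
  let S : Set (L2 d) := {φ | ∃ E : ℝ, E ∈ U ∧ E ∉ B ∧ H φ = ((E : ℝ) : ℂ) • φ ∧
    ExpDecay (φ : Site d → ℂ)}
  set W : Submodule ℂ (L2 d) := (Submodule.span ℂ S).topologicalClosure with hWdef
  have hWinv : ∀ g : ℂ → ℂ, Continuous g → ∀ w ∈ W, cfc g H w ∈ W := fun g hg w hw =>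
    cfc_mem_span hH (fun φ hφ => ⟨hφ.choose, hφ.choose_spec.2.2.1⟩) hg hw
  obtain ⟨q, hq, v, hv, hqv⟩ := Submodule.exists_add_mem_mem_orthogonal (K := W) (dl x)
  obtain ⟨νq, q1, q2, q3⟩ := exists_specMeasure H hH q
  obtain ⟨νv, v1, v2, v3⟩ := exists_specMeasure H hH v
  have hνq : IsSpec H q νq := ⟨q1, q2, q3⟩
  have hνv : IsSpec H v νv := ⟨v1, v2, v3⟩
  have hνqv : IsSpec H (q + v) ν := by rw [← hqv]; exact hν
  have hadd : ν = νq + νv := spec_add hWinv hq hv hνqv hνq hνv
  have hqB : νq B = 0 :=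
    null_of_closure hH hB (fun φ hφ => ⟨hφ.choose, hφ.choose_spec.2.1, hφ.choose_spec.2.2.1⟩)
      hq hνq
  have hvU : νv U = 0 := by
    refine hloc v νv hνv fun E hE φ hφ hdec => ?_
    by_cases hEB : E ∈ B
    · have h1 : ⟪φ, dl x⟫_ℂ = 0 := by
        have h2 : φ x = ⟪dl x, φ⟫_ℂ := by
          rw [dl, lp.inner_single_left]
          simp
        rw [← inner_conj_symm, ← h2, hx E hEB φ hφ hdec, map_zero]
      have h2 : ⟪φ, q⟫_ℂ = 0 := by
        have h3 : W ≤ (Submodule.span ℂ {φ})ᗮ := by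
          rw [hWdef]
          refine Submodule.topologicalClosure_minimal _ ?_ (Submodule.isClosed_orthogonal _)
          rw [Submodule.span_le]
          rintro ψ ⟨E', -, hE'B, hψ, -⟩
          rw [SetLike.mem_coe, Submodule.mem_orthogonal_singleton_iff_inner_right]
          have h1 := inner_schr V hV φ ψ
          rw [← hHdef, hφ, hψ, inner_smul_left, inner_smul_right, Complex.conj_ofReal] at h1
          have h2 : (((E : ℝ) : ℂ) - ((E' : ℝ) : ℂ)) * ⟪φ, ψ⟫_ℂ = 0 := by
            linear_combination h1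
          rcases mul_eq_zero.1 h2 with h3 | h3
          · have h4 : E = E' := by exact_mod_cast sub_eq_zero.1 h3
            exact absurd (h4 ▸ hEB) hE'B
          · exact h3
        exact Submodule.mem_orthogonal_singleton_iff_inner_right.1 (h3 hq)
      have h3 : ⟪φ, q + v⟫_ℂ = 0 := by rw [← hqv]; exact h1
      rw [inner_add_right, h2, zero_add] at h3
      exact h3
    · have h1 : φ ∈ W :=
        Submodule.le_topologicalClosure _ (Submodule.subset_span ⟨E, hE, hEB, hφ, hdec⟩)
      exact (Submodule.mem_orthogonal _ _).1 hv φ h1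
  rw [hadd, Measure.add_apply, hqB, measure_mono_null hBU hvU, add_zero]

end Pool.Agent.Helper3.Crit
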