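import Pool.Agent.Helper3.Crit.Trans

/-! An exponentially decaying eigenfunction of `H` with `ψ x ≠ 0` forces the limit Green function
of `H'` (potential changed at `x`) to decay. -/

open scoped ENNReal NNReal InnerProductSpace
open MeasureTheory Set Filter Topology

noncomputable section

namespace Pool.Agent.Helper3.Crit

open Pool.Agent.Helper3.Anderson

variable {d : ℕ}

theorem norm_eq_sn {d : ℕ} (x : Site d) : ‖x‖ = (sn x : ℝ) := by
  refine le_antisymm ?_ ?_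
  · rw [pi_norm_le_iff_of_nonneg (Nat.cast_nonneg _)]
    intro i
    rw [Int.norm_eq_abs, ← Int.cast_abs, ← Nat.cast_natAbs]
    exact_mod_cast le_sn x i
  · obtain ⟨n, hn⟩ : ∃ n : ℕ, n = sn x := ⟨_, rfl⟩
    rw [← hn]
    by_contra hlt
    push Not at hlt
    have h1 : sn x ≤ ⌊‖x‖⌋₊ := by
      refine sn_le_iff.2 fun i => ?_
      rw [Nat.le_floor_iff (norm_nonneg _)]
      have := norm_le_pi_norm x i
      rwa [Int.norm_eq_abs, ← Int.cast_abs, ← Nat.cast_natAbs] at this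
    have h2 := Nat.floor_le (norm_nonneg x)
    have h3 : ((sn x : ℕ) : ℝ) ≤ (⌊‖x‖⌋₊ : ℝ) := by exact_mod_cast h1
    rw [← hn] at h3
    linarith

namespace Eqd

/-- the operator `H - E` -/
def hE (V : Site d → ℝ) (hV : Bdd V) (E : ℝ) : L2 d →L[ℂ] L2 d :=
  schr V hV - (E : ℂ) • (1 : L2 d →L[ℂ] L2 d)

theorem hE_apply (V : Site d → ℝ) (hV : Bdd V) (E : ℝ) (u : L2 d) :
    hE V hV E u = schr V hV u - (E : ℂ) • u := rfl

theorem hz_apply (V : Site d → ℝ) (hV : Bdd V) (z : ℂ) (u : L2 d) :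
    Anderson.hz V hV z u = schr V hV u - z • u := rfl

theorem isSelfAdjoint_hE (V : Site d → ℝ) (hV : Bdd V) (E : ℝ) : IsSelfAdjoint (hE V hV E) := by
  refine (isSelfAdjoint_schr V hV).sub ?_
  refine IsSelfAdjoint.smul ?_ (IsSelfAdjoint.one _)
  rw [isSelfAdjoint_iff]
  exact Complex.conj_ofReal E

theorem range_dense (V : Site d → ℝ) (hV : Bdd V) (E : ℝ)
    (hker : ∀ η : L2 d, schr V hV η = (E : ℂ) • η → η = 0) (χ : L2 d) {δ : ℝ} (hδ : 0 < δ) :
    ∃ u : L2 d, ‖χ - hE V hV E u‖ < δ := by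
  have h1 : ((hE V hV E).range)ᗮ = ⊥ := by
    rw [ContinuousLinearMap.orthogonal_range]
    have h2 : ContinuousLinearMap.adjoint (hE V hV E) = hE V hV E :=
      (isSelfAdjoint_hE V hV E).adjoint_eq
    rw [h2, LinearMap.ker_eq_bot']
    intro η hη
    refine hker η ?_
    have h3 : hE V hV E η = 0 := hη
    rw [hE_apply] at h3
    exact sub_eq_zero.mp h3
  have h2 : ((hE V hV E).range).topologicalClosure = ⊤ :=
    Submodule.topologicalClosure_eq_top_iff.2 h1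
  have h3 : χ ∈ closure (((hE V hV E).range : Submodule ℂ (L2 d)) : Set (L2 d)) := by
    rw [← Submodule.topologicalClosure_coe, h2]
    trivial
  obtain ⟨y, ⟨u, rfl⟩, hu⟩ := Metric.mem_closure_iff.1 h3 δ hδ
  exact ⟨u, by rwa [dist_eq_norm] at hu⟩

theorem res_smul_tendsto (V : Site d → ℝ) (hV : Bdd V) (E : ℝ)
    (hker : ∀ η : L2 d, schr V hV η = (E : ℂ) • η → η = 0) {ε : ℕ → ℝ} (hε : ∀ k, 0 < ε k)
    (hε0 : Tendsto ε atTop (𝓝 0)) (χ : L2 d) :
    Tendsto (fun k => ((ε k : ℂ) * Complex.I) • res V hV ((E : ℂ) + ε k * Complex.I) χ) atTop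
      (𝓝 0) := by
  have hzim : ∀ k, ((E : ℂ) + ε k * Complex.I).im = ε k := fun k => by simp
  have hzim0 : ∀ k, 0 < ((E : ℂ) + ε k * Complex.I).im := fun k => by rw [hzim]; exact hε k
  have hnε : ∀ k, ‖(ε k : ℂ) * Complex.I‖ = ε k := fun k => by simp [abs_of_pos (hε k)]
  have hb : ∀ (k : ℕ) (u : L2 d),
      ‖((ε k : ℂ) * Complex.I) • res V hV ((E : ℂ) + ε k * Complex.I) u‖ ≤ ‖u‖ := by
    intro k u
    rw [norm_smul, hnε]
    have h2 := norm_res_le V hV (hzim0 k) u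
    rw [hzim] at h2
    calc ε k * ‖res V hV ((E : ℂ) + ε k * Complex.I) u‖ ≤ ε k * (‖u‖ / ε k) := by
          gcongr
          exact (hε k).le
      _ = ‖u‖ := by field_simp [(hε k).ne']
  rw [Metric.tendsto_atTop]
  intro δ hδ
  obtain ⟨u, hu⟩ := range_dense V hV E hker χ (half_pos hδ)
  -- the range part
  have hr : ∀ k, ‖((ε k : ℂ) * Complex.I) • res V hV ((E : ℂ) + ε k * Complex.I)
      (hE V hV E u)‖ ≤ ε k * (2 * ‖u‖) := by
    intro k
    have h1 : hE V hV E u = Anderson.hz V hV ((E : ℂ) + ε k * Complex.I) u +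
        ((ε k : ℂ) * Complex.I) • u := by
      rw [hE_apply, hz_apply, add_smul]
      abel
    rw [h1, map_add, map_smul, res_hz V hV (hzim0 k).ne', norm_smul, hnε]
    refine mul_le_mul_of_nonneg_left ?_ (hε k).le
    refine (norm_add_le _ _).trans ?_
    have := hb k u
    linarith
  have h0 : Tendsto (fun k => ε k * (2 * ‖u‖)) atTop (𝓝 0) := by
    simpa using hε0.mul_const (2 * ‖u‖)
  obtain ⟨N, hN⟩ := (h0.eventually (gt_mem_nhds (half_pos hδ))).exists_forall_of_atTop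
  refine ⟨N, fun k hk => ?_⟩
  rw [dist_zero_right]
  have e : χ = (χ - hE V hV E u) + hE V hV E u := by abel
  calc ‖((ε k : ℂ) * Complex.I) • res V hV ((E : ℂ) + ε k * Complex.I) χ‖ =
      ‖((ε k : ℂ) * Complex.I) • res V hV ((E : ℂ) + ε k * Complex.I) (χ - hE V hV E u) +
        ((ε k : ℂ) * Complex.I) • res V hV ((E : ℂ) + ε k * Complex.I) (hE V hV E u)‖ := by
        rw [← smul_add, ← map_add, ← e]
    _ ≤ ‖χ - hE V hV E u‖ + ε k * (2 * ‖u‖) :=
        (norm_add_le _ _).trans (add_le_add (hb k _) (hr k))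
    _ < δ / 2 + δ / 2 := add_lt_add hu (hN k hk)
    _ = δ := by ring

end Eqd

/-- the limit Green function of `H'` is a multiple of the eigenfunction of `H` -/
theorem limit_eq_eigen (V V' : Site d → ℝ) (hV : Bdd V) (hV' : Bdd V') (x : Site d)
    (h : ∀ y, y ≠ x → V y = V' y) (hx : V x ≠ V' x) (E : ℝ) {ε : ℕ → ℝ} (hε : ∀ k, 0 < ε k)
    (hε0 : Tendsto ε atTop (𝓝 0)) {φ : Site d → ℂ}
    (hφ : ∀ y, Tendsto (fun k => green V' ((E : ℂ) + ε k * Complex.I) y x) atTop (𝓝 (φ y)))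
    (hker : ∀ η : L2 d, schr V' hV' η = (E : ℂ) • η → η = 0)
    (ψ : L2 d) (hψ : schr V hV ψ = (E : ℂ) • ψ) (hψx : ψ x ≠ 0) :
    ∀ y, φ y = -((((V x - V' x : ℝ) : ℂ)) * ψ x)⁻¹ * ψ y := by
  set a : ℂ := -((((V x - V' x : ℝ) : ℂ)) * ψ x)⁻¹ with ha
  set χ : L2 d := a • ψ with hχ
  have hne : (((V x - V' x : ℝ) : ℂ)) * ψ x ≠ 0 := by
    refine mul_ne_zero ?_ hψx
    exact_mod_cast sub_ne_zero.2 hx
  -- the equation for `χ`
  have heq : schr V' hV' χ - (E : ℂ) • χ = dl x := by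
    have h1 : schr V' hV' ψ - (E : ℂ) • ψ = (-((((V x - V' x : ℝ) : ℂ)) * ψ x)) • dl x := by
      rw [← hψ]
      ext w
      rw [lp.coeFn_sub, Pi.sub_apply, schr_apply, schr_apply, lp.coeFn_smul, Pi.smul_apply,
        dl_apply, smul_eq_mul]
      by_cases hw : w = x
      · subst hw
        rw [if_pos rfl]
        push_cast
        ring
      · rw [if_neg hw, h w hw]
        simp
    rw [hχ, map_smul, smul_comm (E : ℂ) a, ← smul_sub, h1, smul_smul, ha]
    rw [neg_mul_neg, inv_mul_cancel₀ hne, one_smul]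
  have hzim : ∀ k, ((E : ℂ) + ε k * Complex.I).im = ε k := fun k => by simp
  have hzim0 : ∀ k, 0 < ((E : ℂ) + ε k * Complex.I).im := fun k => by rw [hzim]; exact hε k
  have hres : ∀ k, res V' hV' ((E : ℂ) + ε k * Complex.I) (dl x) =
      χ + ((ε k : ℂ) * Complex.I) • res V' hV' ((E : ℂ) + ε k * Complex.I) χ := by
    intro k
    have h1 : dl x = Anderson.hz V' hV' ((E : ℂ) + ε k * Complex.I) χ +
        ((ε k : ℂ) * Complex.I) • χ := by
      rw [← heq, Eqd.hz_apply, add_smul]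
      abel
    rw [h1, map_add, res_hz V' hV' (hzim0 k).ne', map_smul]
  have hconv : Tendsto (fun k => res V' hV' ((E : ℂ) + ε k * Complex.I) (dl x)) atTop (𝓝 χ) := by
    simp only [hres]
    have := (Eqd.res_smul_tendsto V' hV' E hker hε hε0 χ).const_add χ
    simpa using this
  have hφχ : ∀ y, φ y = (χ : Site d → ℂ) y := by
    intro y
    refine tendsto_nhds_unique (hφ y) ?_
    have h1 : Tendsto (fun k => ((res V' hV' ((E : ℂ) + ε k * Complex.I) (dl x) : L2 d) :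
        Site d → ℂ) y) atTop (𝓝 ((χ : Site d → ℂ) y)) := by
      rw [tendsto_iff_norm_sub_tendsto_zero]
      have h2 := (tendsto_iff_norm_sub_tendsto_zero.1 hconv)
      refine squeeze_zero (fun _ => norm_nonneg _) (fun k => ?_) h2
      have := lp.norm_apply_le_norm (p := 2) (by norm_num)
        (res V' hV' ((E : ℂ) + ε k * Complex.I) (dl x) - χ) y
      simpa using this
    refine h1.congr fun k => ?_
    rw [green_eq V' hV']
  intro y
  rw [hφχ y, hχ, lp.coeFn_smul, Pi.smul_apply, smul_eq_mul]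

theorem decay_of_eigen (V V' : Site d → ℝ) (hV : Bdd V) (hV' : Bdd V') (x : Site d)
    (h : ∀ y, y ≠ x → V y = V' y) (hx : V x ≠ V' x) (E : ℝ) {ε : ℕ → ℝ} (hε : ∀ k, 0 < ε k)
    (hε0 : Tendsto ε atTop (𝓝 0)) {φ : Site d → ℂ}
    (hφ : ∀ y, Tendsto (fun k => green V' ((E : ℂ) + ε k * Complex.I) y x) atTop (𝓝 (φ y)))
    (hker : ∀ η : L2 d, schr V' hV' η = (E : ℂ) • η → η = 0)
    (ψ : L2 d) (hψ : schr V hV ψ = (E : ℂ) • ψ) (hdec : ExpDecay (ψ : Site d → ℂ))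
    (hψx : ψ x ≠ 0) :
    ∃ C c : ℝ, 0 < c ∧ ∀ y, ‖φ y‖ ≤ C * Real.exp (-(c * sn y)) := by
  have hφψ := limit_eq_eigen V V' hV hV' x h hx E hε hε0 hφ hker ψ hψ hψx
  obtain ⟨C, c, hc, hdec⟩ := hdec
  refine ⟨‖-((((V x - V' x : ℝ) : ℂ)) * ψ x)⁻¹‖ * C, c, hc, fun y => ?_⟩
  rw [hφψ y, norm_mul, mul_assoc]
  refine mul_le_mul_of_nonneg_left ?_ (norm_nonneg _)
  rw [← norm_eq_sn]
  exact hdec y

end Pool.Agent.Helper3.Crit
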