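import Pool.Agent.Helper3.Crit.PureP

open scoped ENNReal NNReal InnerProductSpace
open MeasureTheory Set Filter Topology

noncomputable section

namespace Pool.Agent.Helper3.Crit

open Pool.Agent.Helper3.Anderson

variable {d : ℕ}

theorem ker_trivial (V : Site d → ℝ) (hV : Bdd V) (E : ℝ) {ε : ℕ → ℝ} (hε : ∀ k, 0 < ε k)
    (h : ∀ y, Tendsto (fun k => ε k * (green V ((E : ℂ) + ε k * Complex.I) y y).im) atTop (𝓝 0))
    (η : L2 d) (hη : schr V hV η = (E : ℂ) • η) : η = 0 := by
  ext y
  have hb : ∀ k, ‖η y‖ ^ 2 ≤ ‖η‖ ^ 2 * (ε k * (green V ((E : ℂ) + ε k * Complex.I) y y).im) := by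
    intro k
    set z : ℂ := (E : ℂ) + ε k * Complex.I with hz'
    have hzim : z.im = ε k := by simp [hz']
    have hz0 : 0 < z.im := by rw [hzim]; exact hε k
    set u : L2 d := res V hV z (dl y) with hu
    have h1 : ⟪η, dl y⟫_ℂ = ((E : ℂ) - z) * ⟪η, u⟫_ℂ := by
      have e := hz_res V hV hz0.ne' (dl y)
      rw [← hu] at e
      rw [← e, hz, sub_apply, inner_sub_right, ← inner_schr, hη, smul_apply, one_apply_eq_self,
        inner_smul_right, inner_smul_left, Complex.conj_ofReal]
      ring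
    have h2 : ‖⟪η, dl y⟫_ℂ‖ = ‖η y‖ := by
      rw [dl, lp.inner_single_right]
      simp
    have hEz : ‖(E : ℂ) - z‖ = ε k := by
      rw [hz', sub_add_cancel_left, norm_neg, norm_mul, Complex.norm_I, mul_one, Complex.norm_real,
        Real.norm_eq_abs, abs_of_pos (hε k)]
    have h3 : ‖η y‖ ≤ ε k * (‖η‖ * ‖u‖) := by
      rw [← h2, h1, norm_mul, hEz]
      exact mul_le_mul_of_nonneg_left (norm_inner_le_norm _ _) (hε k).le
    have h4 := ward V hV hz0 y
    rw [← hu, hzim] at h4
    have h5 : ‖η y‖ ^ 2 ≤ (ε k) ^ 2 * (‖η‖ ^ 2 * ‖u‖ ^ 2) := by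
      have := pow_le_pow_left₀ (norm_nonneg _) h3 2
      rw [mul_pow, mul_pow] at this
      exact this
    rw [← h4]
    calc ‖η y‖ ^ 2 ≤ (ε k) ^ 2 * (‖η‖ ^ 2 * ‖u‖ ^ 2) := h5
      _ = ‖η‖ ^ 2 * (ε k * (ε k * ‖u‖ ^ 2)) := by ring
  have hlim : Tendsto (fun k => ‖η‖ ^ 2 * (ε k * (green V ((E : ℂ) + ε k * Complex.I) y y).im))
      atTop (𝓝 0) := by
    have := (h y).const_mul (‖η‖ ^ 2)
    rwa [mul_zero] at this
  have h0 : ‖η y‖ ^ 2 ≤ 0 := ge_of_tendsto' hlim hb
  have : ‖η y‖ = 0 := by
    have := le_antisymm h0 (by positivity)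
    exact (pow_eq_zero_iff two_ne_zero).1 this
  simpa using this

theorem ae_no_atom (V : Site d → ℝ) (hV : Bdd V) {ε : ℕ → ℝ} (hε : ∀ k, 0 < ε k)
    (hε0 : Tendsto ε atTop (𝓝 0)) :
    ∀ᵐ E : ℝ, ∀ y, Tendsto (fun k => ε k * (green V ((E : ℂ) + ε k * Complex.I) y y).im) atTop
      (𝓝 0) := by
  rw [ae_all_iff]
  intro y
  obtain ⟨ν, hfin, hsupp, hint⟩ := exists_specMeasure (schr V hV) (isSelfAdjoint_schr V hV) (dl y)
  have hν : PP.IsSpec (schr V hV) (dl y) ν := ⟨hfin, hsupp, hint⟩
  have hcount : {E : ℝ | ν {E} ≠ 0}.Countable := by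
    have := Measure.countable_meas_pos_of_disjoint_iUnion (μ := ν) (As := fun E : ℝ => ({E} : Set ℝ))
      (fun E => measurableSet_singleton E) (fun a b hab => by
        simpa [Function.onFun] using hab)
    refine this.mono fun E hE => ?_
    exact pos_iff_ne_zero.2 hE
  have hae : ∀ᵐ E : ℝ, ν {E} = 0 := by
    have h0 : volume {E : ℝ | ν {E} ≠ 0} = 0 := hcount.measure_zero _
    rw [ae_iff]
    exact h0
  filter_upwards [hae] with E hE
  have him : ∀ k, ε k * (green V ((E : ℂ) + ε k * Complex.I) y y).im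
      = ∫ t : ℝ, (ε k) ^ 2 / ((t - E) ^ 2 + (ε k) ^ 2) ∂ν := by
    intro k
    set z : ℂ := (E : ℂ) + ε k * Complex.I with hz'
    have hzim : z.im = ε k := by simp [hz']
    have hz0 : 0 < z.im := by rw [hzim]; exact hε k
    obtain ⟨g, hg, hgt, hgr⟩ := cfc_res V hV hz0
    have h1 := hint g hg
    rw [hgr] at h1
    have h2 : ⟪dl y, res V hV z (dl y)⟫_ℂ = green V z y y := by
      rw [green_eq V hV, dl, lp.inner_single_left]
      simp
    rw [h2] at h1
    have hi : Integrable (fun t : ℝ => g t) ν :=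
      hν.integrable (hg.comp Complex.continuous_ofReal)
    have h3 : (green V z y y).im = ∫ t : ℝ, (g t).im ∂ν := by
      rw [h1]
      exact (integral_im hi).symm
    rw [h3, ← integral_const_mul]
    refine integral_congr_ae (ae_of_all _ fun t => ?_)
    simp only [hgt, Complex.inv_im, Complex.sub_im, Complex.ofReal_im, zero_sub, neg_neg, hzim]
    rw [Complex.normSq_apply]
    simp only [Complex.sub_re, Complex.ofReal_re, Complex.sub_im, Complex.ofReal_im, zero_sub, hzim]
    have hre : z.re = E := by simp [hz']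
    rw [hre, ← mul_div_assoc]
    congr 1 <;> ring
  have hlim : Tendsto (fun k => ∫ t : ℝ, (ε k) ^ 2 / ((t - E) ^ 2 + (ε k) ^ 2) ∂ν) atTop
      (𝓝 (∫ t : ℝ, indicator {E} (fun _ => (1 : ℝ)) t ∂ν)) := by
    refine tendsto_integral_of_dominated_convergence (fun _ => 1) (fun k => ?_)
      (integrable_const _) (fun k => ae_of_all _ fun t => ?_) (ae_of_all _ fun t => ?_)
    · refine Continuous.aestronglyMeasurable ?_
      refine continuous_const.div (by fun_prop) fun t => ?_
      have := hε k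
      positivity
    · have := hε k
      rw [Real.norm_eq_abs, abs_of_nonneg (by positivity), div_le_one (by positivity)]
      nlinarith [sq_nonneg (t - E)]
    · by_cases ht : t = E
      · subst ht
        rw [indicator_of_mem (mem_singleton _)]
        refine tendsto_const_nhds.congr fun k => ?_
        have := hε k
        rw [sub_self]
        field_simp
        simp
      · rw [indicator_of_notMem (by simpa using ht)]
        have hpos : 0 < (t - E) ^ 2 := by
          have : t - E ≠ 0 := sub_ne_zero.2 ht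
          positivity
        have h1 : Tendsto (fun k => (ε k) ^ 2) atTop (𝓝 0) := by
          have := hε0.pow 2
          simpa using this
        have h2 : Tendsto (fun k => (t - E) ^ 2 + (ε k) ^ 2) atTop (𝓝 ((t - E) ^ 2 + 0)) :=
          tendsto_const_nhds.add h1
        have := h1.div h2 (by rw [add_zero]; exact hpos.ne')
        rwa [add_zero, zero_div] at this
  have hz : ∫ t : ℝ, indicator {E} (fun _ => (1 : ℝ)) t ∂ν = 0 := by
    rw [integral_indicator (measurableSet_singleton E)]
    simp [measureReal_def, hE]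
  rw [hz] at hlim
  exact hlim.congr fun k => (him k).symm

end Pool.Agent.Helper3.Crit
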