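import Pool.Agent.Helper3.Crit.Pk

/-!
# Fatou's theorem for Poisson integrals of bounded functions on the half plane
-/

open MeasureTheory Set Filter Topology Complex

noncomputable section

namespace Pool.Agent.Helper3.Crit

theorem fatA_pk_nonneg {y : ℝ} (hy : 0 < y) (s : ℝ) : 0 ≤ pk y s := by
  unfold pk
  positivity

theorem fatA_pk_eq {y : ℝ} (hy : 0 < y) (s : ℝ) :
    pk y s = (Real.pi⁻¹ * y⁻¹) * (1 + (s / y) ^ 2)⁻¹ := by
  unfold pk
  field_simp
  ring

theorem fatA_integrable {y : ℝ} (hy : 0 < y) (x : ℝ) : Integrable fun t : ℝ => pk y (x - t) := by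
  have h1 : Integrable fun s : ℝ => pk y s := by
    have h := (integrable_inv_one_add_sq.comp_div hy.ne').const_mul (Real.pi⁻¹ * y⁻¹)
    refine h.congr (Eventually.of_forall fun s => ?_)
    exact (fatA_pk_eq hy s).symm
  exact h1.comp_sub_left x

theorem fatA_integral {y : ℝ} (hy : 0 < y) (x : ℝ) : ∫ t : ℝ, pk y (x - t) = 1 := by
  rw [integral_sub_left_eq_self (fun s => pk y s) volume x]
  have h : (fun s => pk y s) = fun s => (Real.pi⁻¹ * y⁻¹) * (fun u : ℝ => (1 + u ^ 2)⁻¹) (s / y) := by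
    funext s
    exact fatA_pk_eq hy s
  have h2 := Measure.integral_comp_div (fun u : ℝ => (1 + u ^ 2)⁻¹) y
  rw [h, integral_const_mul, h2, integral_univ_inv_one_add_sq, abs_of_pos hy, smul_eq_mul]
  have := Real.pi_ne_zero
  field_simp

theorem fatA_pk_le {y : ℝ} (hy : 0 < y) (s : ℝ) : pk y s ≤ Real.pi⁻¹ * y⁻¹ := by
  rw [fatA_pk_eq hy]
  refine mul_le_of_le_one_right (by positivity) ?_
  exact inv_le_one_of_one_le₀ (by nlinarith [sq_nonneg (s / y)])

/-- decay on shells -/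
theorem fatA_pk_shell {y : ℝ} (hy : 0 < y) {s c : ℝ} (hc : 0 < c) (hs : c * y ≤ |s|) :
    pk y s ≤ Real.pi⁻¹ * y⁻¹ * (c ^ 2)⁻¹ := by
  rw [fatA_pk_eq hy]
  refine mul_le_mul_of_nonneg_left ?_ (by positivity)
  refine inv_anti₀ (by positivity) ?_
  have h1 : c ≤ |s / y| := by
    rw [abs_div, abs_of_pos hy, le_div_iff₀ hy]
    exact hs
  have h2 : c ^ 2 ≤ (s / y) ^ 2 := by
    rw [← sq_abs (s / y)]
    exact pow_le_pow_left₀ hc.le h1 2
  linarith

/-- tail bound by the kernel of height one -/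
theorem fatA_pk_tail {y ρ : ℝ} (hy : 0 < y) (hρ : 0 < ρ) {s : ℝ} (hs : ρ ≤ |s|) :
    pk y s ≤ y * (1 + (ρ ^ 2)⁻¹) * pk 1 s := by
  unfold pk
  have h1 : ρ ^ 2 ≤ s ^ 2 := by
    rw [← sq_abs s]
    exact pow_le_pow_left₀ hρ.le hs 2
  have h2 : 0 < ρ ^ 2 := by positivity
  have h3 : 0 < s ^ 2 := lt_of_lt_of_le h2 h1
  have h4 : y / (s ^ 2 + y ^ 2) ≤ y / s ^ 2 := by
    gcongr
    nlinarith
  have h5 : y / s ^ 2 ≤ y * (1 + (ρ ^ 2)⁻¹) * (1 / (s ^ 2 + 1 ^ 2)) := by
    have h6 : 1 / s ^ 2 ≤ (1 + (ρ ^ 2)⁻¹) * (1 / (s ^ 2 + 1 ^ 2)) := by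
      rw [mul_one_div, div_le_div_iff₀ h3 (by positivity)]
      have h7 : 1 ≤ (ρ ^ 2)⁻¹ * s ^ 2 := by
        rw [inv_mul_eq_div, le_div_iff₀ h2]
        linarith
      nlinarith
    calc y / s ^ 2 = y * (1 / s ^ 2) := by ring
      _ ≤ y * ((1 + (ρ ^ 2)⁻¹) * (1 / (s ^ 2 + 1 ^ 2))) := mul_le_mul_of_nonneg_left h6 hy.le
      _ = y * (1 + (ρ ^ 2)⁻¹) * (1 / (s ^ 2 + 1 ^ 2)) := by ring
  calc Real.pi⁻¹ * (y / (s ^ 2 + y ^ 2))
      ≤ Real.pi⁻¹ * (y * (1 + (ρ ^ 2)⁻¹) * (1 / (s ^ 2 + 1 ^ 2))) :=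
        mul_le_mul_of_nonneg_left (h4.trans h5) (by positivity)
    _ = y * (1 + (ρ ^ 2)⁻¹) * (Real.pi⁻¹ * (1 / (s ^ 2 + 1 ^ 2))) := by ring

section
variable {g : ℝ → ℝ} (hg : Measurable g) (hg0 : ∀ t, 0 ≤ g t) (hg2 : ∀ t, g t ≤ 2)
include hg hg0 hg2

theorem fatA_int_g {y : ℝ} (hy : 0 < y) (x : ℝ) : Integrable fun t : ℝ => pk y (x - t) * g t := by
  refine (fatA_integrable hy x).mul_bdd (c := 2) hg.aestronglyMeasurable
    (Eventually.of_forall fun t => ?_)
  rw [Real.norm_of_nonneg (hg0 t)]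
  exact hg2 t

theorem fatA_inner {x y r0 ε : ℝ} (hy : 0 < y) (hε : 0 ≤ ε)
    (H : ∀ r, 0 < r → r ≤ r0 → ∫ t in Metric.closedBall x r, g t ≤ 2 * r * ε) (n : ℕ)
    (hn : 2 ^ n * y ≤ r0) :
    ∫ t in Metric.closedBall x (2 ^ n * y), pk y (x - t) * g t ≤
      8 * ε * Real.pi⁻¹ * (2 - (2 ^ n)⁻¹) := by
  have hpi := Real.pi_pos
  have hgI : ∀ r, IntegrableOn g (Metric.closedBall x r) := by
    intro r
    refine Measure.integrableOn_of_bounded (M := 2) ?_ hg.aestronglyMeasurable ?_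
    · exact (measure_closedBall_lt_top).ne
    · exact Eventually.of_forall fun t => by rw [Real.norm_of_nonneg (hg0 t)]; exact hg2 t
  induction n with
  | zero =>
    simp only [pow_zero, one_mul] at hn ⊢
    have h1 : ∫ t in Metric.closedBall x y, pk y (x - t) * g t ≤
        ∫ t in Metric.closedBall x y, (Real.pi⁻¹ * y⁻¹) * g t := by
      refine setIntegral_mono_on (fatA_int_g hg hg0 hg2 hy x).integrableOn
        ((hgI y).const_mul _) Metric.isClosed_closedBall.measurableSet fun t _ => ?_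
      exact mul_le_mul_of_nonneg_right (fatA_pk_le hy _) (hg0 t)
    rw [integral_const_mul] at h1
    have h2 := mul_le_mul_of_nonneg_left (H y hy hn) (show 0 ≤ Real.pi⁻¹ * y⁻¹ by positivity)
    have h3 : Real.pi⁻¹ * y⁻¹ * (2 * y * ε) = 2 * ε * Real.pi⁻¹ := by
      field_simp
    have h4 : 0 ≤ ε * Real.pi⁻¹ := by positivity
    have h5 : 8 * ε * Real.pi⁻¹ * (2 - (1 : ℝ)⁻¹) = 8 * (ε * Real.pi⁻¹) := by norm_num; ring
    rw [h5]
    linarith
  | succ n ih =>
    have hle : 2 ^ n * y ≤ 2 ^ (n + 1) * y := by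
      rw [pow_succ]
      have : 0 < 2 ^ n * y := by positivity
      linarith
    have ih' := ih (hle.trans hn)
    have hsub : Metric.closedBall x (2 ^ n * y) ⊆ Metric.closedBall x (2 ^ (n + 1) * y) :=
      Metric.closedBall_subset_closedBall hle
    have hdec : ∫ t in Metric.closedBall x (2 ^ (n + 1) * y), pk y (x - t) * g t =
        (∫ t in Metric.closedBall x (2 ^ n * y), pk y (x - t) * g t) +
        ∫ t in Metric.closedBall x (2 ^ (n + 1) * y) \ Metric.closedBall x (2 ^ n * y),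
          pk y (x - t) * g t := by
      rw [← setIntegral_union disjoint_sdiff_right
        (Metric.isClosed_closedBall.measurableSet.diff Metric.isClosed_closedBall.measurableSet)
        (fatA_int_g hg hg0 hg2 hy x).integrableOn (fatA_int_g hg hg0 hg2 hy x).integrableOn,
        union_sdiff_cancel hsub]
    have hsh : ∫ t in Metric.closedBall x (2 ^ (n + 1) * y) \ Metric.closedBall x (2 ^ n * y),
          pk y (x - t) * g t ≤
        (Real.pi⁻¹ * y⁻¹ * ((2 ^ n : ℝ) ^ 2)⁻¹) *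
          ∫ t in Metric.closedBall x (2 ^ (n + 1) * y), g t := by
      rw [← integral_const_mul]
      refine le_trans (setIntegral_mono_on (fatA_int_g hg hg0 hg2 hy x).integrableOn
        (((hgI _).mono_set sdiff_subset).const_mul (Real.pi⁻¹ * y⁻¹ * ((2 ^ n : ℝ) ^ 2)⁻¹))
        (Metric.isClosed_closedBall.measurableSet.diff Metric.isClosed_closedBall.measurableSet)
        fun t ht => ?_) ?_
      · refine mul_le_mul_of_nonneg_right (fatA_pk_shell hy (by positivity) ?_) (hg0 t)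
        have h1 := ht.2
        rw [Metric.mem_closedBall, not_le, dist_comm, Real.dist_eq] at h1
        exact h1.le
      · refine setIntegral_mono_set ((hgI _).const_mul _) (Eventually.of_forall fun t => ?_)
          (HasSubset.Subset.eventuallyLE sdiff_subset)
        exact mul_nonneg (by positivity) (hg0 t)
    have h2 := mul_le_mul_of_nonneg_left (H (2 ^ (n + 1) * y) (by positivity) hn)
      (show 0 ≤ Real.pi⁻¹ * y⁻¹ * ((2 ^ n : ℝ) ^ 2)⁻¹ by positivity)
    have h3 : Real.pi⁻¹ * y⁻¹ * ((2 ^ n : ℝ) ^ 2)⁻¹ * (2 * (2 ^ (n + 1) * y) * ε) =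
        8 * ε * Real.pi⁻¹ * ((2 ^ n)⁻¹ - (2 ^ (n + 1))⁻¹) := by
      rw [pow_succ]
      field_simp
      ring
    rw [hdec]
    calc _ ≤ 8 * ε * Real.pi⁻¹ * (2 - (2 ^ n)⁻¹) +
        8 * ε * Real.pi⁻¹ * ((2 ^ n)⁻¹ - (2 ^ (n + 1))⁻¹) := by
          refine add_le_add ih' ?_
          rw [← h3]
          exact hsh.trans h2
      _ = 8 * ε * Real.pi⁻¹ * (2 - (2 ^ (n + 1))⁻¹) := by ring

theorem fatA_total {x y r0 ε : ℝ} (hy : 0 < y) (hyr : y ≤ r0) (hε : 0 ≤ ε)
    (H : ∀ r, 0 < r → r ≤ r0 → ∫ t in Metric.closedBall x r, g t ≤ 2 * r * ε) :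
    ∫ t, pk y (x - t) * g t ≤ 16 * ε * Real.pi⁻¹ + 2 * y * (1 + ((r0 / 2) ^ 2)⁻¹) := by
  have hr0 : 0 < r0 := hy.trans_le hyr
  obtain ⟨n, hn1, hn2⟩ := exists_nat_pow_near (x := r0 / y) (y := (2 : ℝ))
    (by rwa [le_div_iff₀ hy, one_mul]) (by norm_num)
  rw [le_div_iff₀ hy] at hn1
  rw [div_lt_iff₀ hy] at hn2
  have h1 := fatA_inner hg hg0 hg2 hy hε H n hn1
  have hI := fatA_int_g hg hg0 hg2 hy x
  rw [← integral_add_compl (Metric.isClosed_closedBall (x := x) (ε := 2 ^ n * y)).measurableSet hI]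
  refine add_le_add (h1.trans ?_) ?_
  · have hpi := Real.pi_pos
    have h2 : 0 ≤ 8 * ε * Real.pi⁻¹ := by positivity
    have h3 : (0 : ℝ) ≤ (2 ^ n)⁻¹ := by positivity
    nlinarith
  · have h2 : ∫ t in (Metric.closedBall x (2 ^ n * y))ᶜ, pk y (x - t) * g t ≤
        ∫ t in (Metric.closedBall x (2 ^ n * y))ᶜ,
          (2 * (y * (1 + ((r0 / 2) ^ 2)⁻¹))) * pk 1 (x - t) := by
      refine setIntegral_mono_on hI.integrableOn
        ((fatA_integrable one_pos x).const_mul _).integrableOn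
        Metric.isClosed_closedBall.measurableSet.compl fun t ht => ?_
      have h3 : r0 / 2 ≤ |x - t| := by
        have h4 : 2 ^ n * y < |x - t| := by
          rw [mem_compl_iff, Metric.mem_closedBall, not_le, dist_comm, Real.dist_eq] at ht
          exact ht
        rw [pow_succ] at hn2
        linarith
      have h5 := fatA_pk_tail hy (half_pos hr0) h3
      have h6 := fatA_pk_nonneg hy (x - t)
      calc pk y (x - t) * g t ≤ pk y (x - t) * 2 := mul_le_mul_of_nonneg_left (hg2 t) h6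
        _ ≤ (y * (1 + ((r0 / 2) ^ 2)⁻¹) * pk 1 (x - t)) * 2 := by linarith
        _ = (2 * (y * (1 + ((r0 / 2) ^ 2)⁻¹))) * pk 1 (x - t) := by ring
    have h3 : ∫ t in (Metric.closedBall x (2 ^ n * y))ᶜ,
          (2 * (y * (1 + ((r0 / 2) ^ 2)⁻¹))) * pk 1 (x - t) ≤
        ∫ t, (2 * (y * (1 + ((r0 / 2) ^ 2)⁻¹))) * pk 1 (x - t) := by
      refine setIntegral_le_integral ((fatA_integrable one_pos x).const_mul _)
        (Eventually.of_forall fun t => ?_)
      exact mul_nonneg (by positivity) (fatA_pk_nonneg one_pos _)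
    have h4 : ∫ t, (2 * (y * (1 + ((r0 / 2) ^ 2)⁻¹))) * pk 1 (x - t) =
        2 * (y * (1 + ((r0 / 2) ^ 2)⁻¹)) := by
      rw [integral_const_mul, fatA_integral one_pos x, mul_one]
    linarith

end

theorem poisson_ae {f : ℝ → ℂ} (hf : Measurable f) (hb : ∀ t, ‖f t‖ ≤ 1) :
    ∀ᵐ x : ℝ, Tendsto (fun y : ℝ => ∫ t : ℝ, ((pk y (x - t) : ℝ) : ℂ) * f t) (𝓝[>] 0)
      (𝓝 (f x)) := by
  have hloc : LocallyIntegrable f volume := by
    intro x
    refine ⟨Metric.closedBall x 1, Metric.closedBall_mem_nhds x one_pos, ?_⟩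
    exact Measure.integrableOn_of_bounded (M := 1) (measure_closedBall_lt_top).ne
      hf.aestronglyMeasurable (Eventually.of_forall fun t => hb t)
  filter_upwards [IsUnifLocDoublingMeasure.ae_tendsto_average_norm_sub (μ := volume) hloc 0]
    with x hx
  have hx1 := hx (l := 𝓝[>] (0 : ℝ)) (fun _ => x) id tendsto_id
    (Eventually.of_forall fun r => by simp)
  set g : ℝ → ℝ := fun t => ‖f t - f x‖ with hgdef
  have hg : Measurable g := (hf.sub measurable_const).norm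
  have hg0 : ∀ t, 0 ≤ g t := fun t => norm_nonneg _
  have hg2 : ∀ t, g t ≤ 2 := fun t => by
    refine (norm_sub_le _ _).trans ?_
    linarith [hb t, hb x]
  rw [Metric.tendsto_nhdsWithin_nhds]
  intro e he
  set ε : ℝ := e / 16 with hεdef
  have hε : 0 < ε := by positivity
  obtain ⟨r1, hr1, hr1'⟩ := (Metric.tendsto_nhdsWithin_nhds.1 hx1) ε hε
  set r0 : ℝ := r1 / 2 with hr0def
  have hr0 : 0 < r0 := half_pos hr1
  have H : ∀ r, 0 < r → r ≤ r0 → ∫ t in Metric.closedBall x r, g t ≤ 2 * r * ε := by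
    intro r hr hrr
    have h1 := hr1' (x := r) hr (by
      rw [Real.dist_eq, sub_zero, abs_of_pos hr]
      linarith)
    rw [Real.dist_eq, sub_zero, show id r = r from rfl] at h1
    have h2 := (abs_lt.1 h1).2
    rw [setAverage_eq, Real.volume_real_closedBall hr.le, smul_eq_mul] at h2
    have h3 : (2 * r)⁻¹ * ∫ t in Metric.closedBall x r, g t < ε := h2
    rw [inv_mul_eq_div, div_lt_iff₀ (by positivity)] at h3
    linarith
  refine ⟨min r0 (e / (8 * (1 + ((r0 / 2) ^ 2)⁻¹))), by positivity, fun {y} hy hyd => ?_⟩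
  have hy0 : 0 < y := hy
  rw [Real.dist_eq, sub_zero, abs_of_pos hy0, lt_min_iff] at hyd
  have htot := fatA_total hg hg0 hg2 hy0 hyd.1.le hε.le H
  have hI1 : Integrable fun t : ℝ => ((pk y (x - t) : ℝ) : ℂ) * f t := by
    refine ((fatA_integrable hy0 x).ofReal).mul_bdd (c := 1) hf.aestronglyMeasurable
      (Eventually.of_forall fun t => hb t)
  have hI2 : Integrable fun t : ℝ => ((pk y (x - t) : ℝ) : ℂ) * f x :=
    ((fatA_integrable hy0 x).ofReal).mul_const _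
  have h1 : (∫ t : ℝ, ((pk y (x - t) : ℝ) : ℂ) * f t) - f x =
      ∫ t : ℝ, ((pk y (x - t) : ℝ) : ℂ) * (f t - f x) := by
    have h2 : ∫ t : ℝ, ((pk y (x - t) : ℝ) : ℂ) * f x = f x := by
      rw [integral_mul_const, integral_complex_ofReal, fatA_integral hy0 x]
      simp
    rw [← h2, ← integral_sub hI1 hI2, h2]
    refine integral_congr_ae (Eventually.of_forall fun t => ?_)
    simp only [mul_sub]
  rw [dist_eq_norm, h1]
  have h3 : ‖∫ t : ℝ, ((pk y (x - t) : ℝ) : ℂ) * (f t - f x)‖ ≤ ∫ t, pk y (x - t) * g t := by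
    refine (norm_integral_le_integral_norm _).trans (le_of_eq ?_)
    refine integral_congr_ae (Eventually.of_forall fun t => ?_)
    simp only [norm_mul, hgdef]
    rw [Complex.norm_of_nonneg (fatA_pk_nonneg hy0 _)]
  refine lt_of_le_of_lt (h3.trans htot) ?_
  have h4 : 2 * y * (1 + ((r0 / 2) ^ 2)⁻¹) < e / 4 := by
    have h5 : 0 < 8 * (1 + ((r0 / 2) ^ 2)⁻¹) := by positivity
    have h6 := hyd.2
    rw [lt_div_iff₀ h5] at h6
    linarith
  have h5 : 16 * ε * Real.pi⁻¹ ≤ e / 3 := by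
    have h6 : Real.pi⁻¹ ≤ 1 / 3 := by
      rw [one_div]
      exact inv_anti₀ (by norm_num) Real.pi_gt_three.le
    have h7 : 16 * ε = e := by rw [hεdef]; ring
    rw [h7]
    have := mul_le_mul_of_nonneg_left h6 he.le
    linarith
  linarith

end Pool.Agent.Helper3.Crit
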