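import Mathlib

/-! An `L²` identity for functions analytic in the upper half plane. -/

open MeasureTheory Set Filter Topology Complex

noncomputable section

namespace Pool.Agent.Helper3.Crit

/-- shift of the line of integration -/
lemma line_shift {f : ℂ → ℂ} {S C : ℝ} (hf : ∀ z : ℂ, 0 < z.im → z.im < S → DifferentiableAt ℂ f z)
    (hC : ∀ z : ℂ, 0 < z.im → z.im < S → ‖f z‖ ≤ C * (1 + z.re ^ 2)⁻¹) {a b : ℝ} (ha : 0 < a)
    (hab : a ≤ b) (hb : b < S) :
    ∫ x : ℝ, f (x + a * I) = ∫ x : ℝ, f (x + b * I) := by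
  have hC0 : 0 ≤ C := by
    have h1 := hC (((0 : ℝ) : ℂ) + a * I) (by simpa using ha) (by simpa using hab.trans_lt hb)
    have h3 := (norm_nonneg _).trans h1
    simpa using h3
  have hint : ∀ c : ℝ, 0 < c → c < S → Integrable (fun x : ℝ => f (x + c * I)) := by
    intro c hc hcS
    have hcont : Continuous fun x : ℝ => f (x + c * I) := by
      rw [continuous_iff_continuousAt]
      intro x
      have h1 : ContinuousAt f ((x : ℂ) + c * I) :=
        (hf _ (by simpa using hc) (by simpa using hcS)).continuousAt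
      have h2 : ContinuousAt (fun x : ℝ => (x : ℂ) + c * I) x := by fun_prop
      exact ContinuousAt.comp (g := f) h1 h2
    refine (integrable_inv_one_add_sq.const_mul C).mono' hcont.aestronglyMeasurable ?_
    refine Filter.Eventually.of_forall fun x => ?_
    have := hC (x + c * I) (by simpa using hc) (by simpa using hcS)
    simpa using this
  have ht : ∀ c : ℝ, 0 < c → c < S →
      Tendsto (fun R : ℕ => ∫ x in (-(R : ℝ))..(R : ℝ), f (x + c * I)) atTop
        (𝓝 (∫ x : ℝ, f (x + c * I))) := by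
    intro c hc hcS
    refine intervalIntegral_tendsto_integral (hint c hc hcS) ?_ tendsto_natCast_atTop_atTop
    exact tendsto_neg_atTop_atBot.comp tendsto_natCast_atTop_atTop
  have hb0 : 0 < b := ha.trans_le hab
  -- the vertical sides
  have hv : ∀ s : ℝ, (s = 1 ∨ s = -1) → Tendsto (fun R : ℕ => ∫ y in a..b,
      f (((s * R : ℝ) : ℂ) + y * I)) atTop (𝓝 0) := by
    intro s hs
    have hs2 : s ^ 2 = 1 := by rcases hs with rfl | rfl <;> norm_num
    have hbound : ∀ R : ℕ, ‖∫ y in a..b, f (((s * R : ℝ) : ℂ) + y * I)‖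
        ≤ C * (1 + (R : ℝ) ^ 2)⁻¹ * |b - a| := by
      intro R
      refine intervalIntegral.norm_integral_le_of_norm_le_const fun y hy => ?_
      rw [uIoc_of_le hab] at hy
      have := hC (((s * R : ℝ) : ℂ) + y * I) (by simpa using ha.trans hy.1)
        (by simpa using hy.2.trans_lt hb)
      simpa [mul_pow, hs2] using this
    refine squeeze_zero_norm hbound ?_
    have h1 : Tendsto (fun R : ℕ => (1 + (R : ℝ) ^ 2)⁻¹) atTop (𝓝 0) := by
      refine tendsto_inv_atTop_zero.comp ?_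
      refine tendsto_atTop_add_const_left _ _ ?_
      exact (tendsto_pow_atTop (by norm_num)).comp tendsto_natCast_atTop_atTop
    have := (h1.const_mul C).mul_const |b - a|
    simpa using this
  have hrect : ∀ R : ℕ, (∫ x in (-(R : ℝ))..(R : ℝ), f (x + a * I))
      - (∫ x in (-(R : ℝ))..(R : ℝ), f (x + b * I))
      + I • (∫ y in a..b, f (((1 * R : ℝ) : ℂ) + y * I))
      - I • (∫ y in a..b, f (((-1 * R : ℝ) : ℂ) + y * I)) = 0 := by
    intro R
    have h := integral_boundary_rect_eq_zero_of_differentiableOn f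
      (((-1 * R : ℝ) : ℂ) + a * I) (((1 * R : ℝ) : ℂ) + b * I) ?_
    · simp only [add_re, ofReal_re, mul_re, I_re, mul_zero, ofReal_im, I_im, mul_one, sub_self,
        add_zero, add_im, mul_im, zero_add] at h
      simp only [one_mul, neg_one_mul] at h ⊢
      exact h
    · intro z hz
      simp only [add_re, ofReal_re, mul_re, I_re, mul_zero, ofReal_im, I_im, mul_one, sub_self,
        add_zero, add_im, mul_im, zero_add] at hz
      rw [mem_reProdIm] at hz
      have h2 := hz.2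
      rw [uIcc_of_le hab] at h2
      exact (hf z (ha.trans_le h2.1) (h2.2.trans_lt hb)).differentiableWithinAt
  have hlim := ((ht a ha (hab.trans_lt hb)).sub (ht b hb0 hb)).add
    (((hv 1 (Or.inl rfl)).const_smul I).sub ((hv (-1) (Or.inr rfl)).const_smul I))
  have h0 : Tendsto (fun R : ℕ => (∫ x in (-(R : ℝ))..(R : ℝ), f (x + a * I))
      - (∫ x in (-(R : ℝ))..(R : ℝ), f (x + b * I))
      + (I • (∫ y in a..b, f (((1 * R : ℝ) : ℂ) + y * I))
      - I • (∫ y in a..b, f (((-1 * R : ℝ) : ℂ) + y * I)))) atTop (𝓝 0) := by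
    refine Tendsto.congr (fun R => ?_) tendsto_const_nhds
    rw [← hrect R]; ring
  have := tendsto_nhds_unique hlim h0
  simp only [smul_zero, sub_zero, add_zero] at this
  exact sub_eq_zero.1 this

/-- the class of functions -/
structure HardyFn (h : ℂ → ℂ) : Prop where
  diff : ∀ z : ℂ, 0 < z.im → DifferentiableAt ℂ h z
  bound : ∀ z : ℂ, 0 < z.im → ‖h z‖ ≤ ‖z + I‖⁻¹

lemma HardyFn.bound' {h : ℂ → ℂ} (hh : HardyFn h) (x : ℝ) {y : ℝ} (hy : 0 < y) :
    ‖h (x + y * I)‖ ^ 2 ≤ (1 + x ^ 2)⁻¹ := by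
  have h1 := hh.bound (x + y * I) (by simpa using hy)
  have h2 : (1 + x ^ 2) ≤ ‖(x : ℂ) + y * I + I‖ ^ 2 := by
    rw [← Complex.normSq_eq_norm_sq, Complex.normSq_apply]
    simp
    nlinarith
  have h3 : 0 < ‖(x : ℂ) + y * I + I‖ ^ 2 := lt_of_lt_of_le (by positivity) h2
  calc ‖h (x + y * I)‖ ^ 2 ≤ (‖(x : ℂ) + y * I + I‖⁻¹) ^ 2 := by gcongr
    _ = (‖(x : ℂ) + y * I + I‖ ^ 2)⁻¹ := by rw [inv_pow]
    _ ≤ (1 + x ^ 2)⁻¹ := inv_anti₀ (by positivity) h2

lemma HardyFn.continuous {h : ℂ → ℂ} (hh : HardyFn h) {y : ℝ} (hy : 0 < y) :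
    Continuous fun x : ℝ => h (x + y * I) := by
  rw [continuous_iff_continuousAt]
  intro x
  have h1 : ContinuousAt h ((x : ℂ) + y * I) := (hh.diff _ (by simpa using hy)).continuousAt
  have h2 : ContinuousAt (fun x : ℝ => (x : ℂ) + y * I) x := by fun_prop
  exact ContinuousAt.comp (g := h) h1 h2

lemma HardyFn.integrable {h : ℂ → ℂ} (hh : HardyFn h) {y y' : ℝ} (hy : 0 < y) (hy' : 0 < y') :
    Integrable fun x : ℝ => h (x + y * I) * (starRingEnd ℂ) (h (x + y' * I)) := by
  refine integrable_inv_one_add_sq.mono' ?_ ?_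
  · exact ((hh.continuous hy).mul (Complex.continuous_conj.comp
      (hh.continuous hy'))).aestronglyMeasurable
  · refine Filter.Eventually.of_forall fun x => ?_
    rw [norm_mul, RCLike.norm_conj]
    have h1 := hh.bound' x hy
    have h2 := hh.bound' x hy'
    nlinarith [sq_nonneg (‖h (x + y * I)‖ - ‖h (x + y' * I)‖)]

/-- the correlation depends on `y + y'` only -/
lemma HardyFn.corr {h : ℂ → ℂ} (hh : HardyFn h) {y y' : ℝ} (hy : 0 < y) (hy' : 0 < y') :
    ∫ x : ℝ, h (x + y * I) * (starRingEnd ℂ) (h (x + y' * I))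
      = ∫ x : ℝ, h (x + ((y + y') / 2 : ℝ) * I)
        * (starRingEnd ℂ) (h (x + ((y + y') / 2 : ℝ) * I)) := by
  set s := y + y' with hs
  set f : ℂ → ℂ := fun z => h z * (starRingEnd ℂ) (h ((starRingEnd ℂ) (z - s * I))) with hf
  have him : ∀ z : ℂ, ((starRingEnd ℂ) (z - s * I)).im = s - z.im := fun z => by
    simp; ring
  have hre : ∀ z : ℂ, ((starRingEnd ℂ) (z - s * I)).re = z.re := fun z => by simp
  have hd : ∀ z : ℂ, 0 < z.im → z.im < s → DifferentiableAt ℂ f z := by
    intro z h1 h2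
    refine (hh.diff z h1).mul ?_
    have h3 : DifferentiableAt ℂ (fun w => (starRingEnd ℂ) (h ((starRingEnd ℂ) w))) (z - s * I) := by
      have h4 := (hh.diff ((starRingEnd ℂ) (z - s * I)) (by rw [him]; linarith)).hasDerivAt
      have h5 := h4.conj_conj
      rw [Complex.conj_conj] at h5
      exact h5.differentiableAt
    have h6 : DifferentiableAt ℂ (fun z : ℂ => z - s * I) z := by fun_prop
    exact DifferentiableAt.comp (g := fun w => (starRingEnd ℂ) (h ((starRingEnd ℂ) w))) z h3 h6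
  have hC : ∀ z : ℂ, 0 < z.im → z.im < s → ‖f z‖ ≤ 1 * (1 + z.re ^ 2)⁻¹ := by
    intro z h1 h2
    have e1 : z = (z.re : ℂ) + z.im * I := (Complex.re_add_im z).symm
    have e2 : (starRingEnd ℂ) (z - s * I) = (z.re : ℂ) + (s - z.im : ℝ) * I := by
      apply Complex.ext
      · rw [hre]; simp
      · rw [him]; simp
    have b1 := hh.bound' z.re h1
    have b2 := hh.bound' z.re (y := s - z.im) (by linarith)
    rw [← e1] at b1
    rw [← e2] at b2
    rw [hf]
    simp only
    rw [norm_mul, RCLike.norm_conj, one_mul]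
    nlinarith [sq_nonneg (‖h z‖ - ‖h ((starRingEnd ℂ) (z - s * I))‖)]
  have key : ∀ c : ℝ, ∀ x : ℝ, f (x + c * I) = h (x + c * I)
      * (starRingEnd ℂ) (h (x + (s - c : ℝ) * I)) := by
    intro c x
    rw [hf]
    simp only
    congr 3
    apply Complex.ext
    · rw [hre]; simp
    · rw [him]; simp
  have e1 : ∫ x : ℝ, h (x + y * I) * (starRingEnd ℂ) (h (x + y' * I)) = ∫ x : ℝ, f (x + y * I) := by
    congr 1
    funext x
    rw [key y x]
    congr 4
    rw [hs]; push_cast; ring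
  have e2 : ∫ x : ℝ, h (x + (s / 2 : ℝ) * I) * (starRingEnd ℂ) (h (x + (s / 2 : ℝ) * I))
      = ∫ x : ℝ, f (x + (s / 2 : ℝ) * I) := by
    congr 1
    funext x
    rw [key (s / 2) x]
    congr 4
    push_cast; ring
  rw [e1, e2]
  rcases le_total y (s / 2) with h1 | h1
  · exact line_shift hd hC hy h1 (by linarith)
  · exact (line_shift hd hC (by linarith) h1 (by linarith)).symm

/-- squared norm on a horizontal line as a function of twice the height -/
def hphi (h : ℂ → ℂ) (s : ℝ) : ℝ := ∫ x : ℝ, ‖h (x + (s / 2 : ℝ) * I)‖ ^ 2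

lemma HardyFn.integrable_sq {h : ℂ → ℂ} (hh : HardyFn h) {y : ℝ} (hy : 0 < y) :
    Integrable fun x : ℝ => ‖h (x + y * I)‖ ^ 2 := by
  refine integrable_inv_one_add_sq.mono' ((hh.continuous hy).norm.pow 2).aestronglyMeasurable ?_
  refine Filter.Eventually.of_forall fun x => ?_
  rw [Real.norm_of_nonneg (sq_nonneg _)]
  exact hh.bound' x hy

/-- **The parallelogram type identity.** -/
lemma HardyFn.dist {h : ℂ → ℂ} (hh : HardyFn h) {y y' : ℝ} (hy : 0 < y) (hy' : 0 < y') :
    ∫ x : ℝ, ‖h (x + y * I) - h (x + y' * I)‖ ^ 2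
      = hphi h (2 * y) + hphi h (2 * y') - 2 * hphi h (y + y') := by
  have h1 : ∀ x : ℝ, ‖h (x + y * I) - h (x + y' * I)‖ ^ 2 = ‖h (x + y * I)‖ ^ 2
      + ‖h (x + y' * I)‖ ^ 2
      - 2 * (h (x + y * I) * (starRingEnd ℂ) (h (x + y' * I))).re := by
    intro x
    rw [← Complex.normSq_eq_norm_sq, ← Complex.normSq_eq_norm_sq, ← Complex.normSq_eq_norm_sq,
      Complex.normSq_sub]
  simp only [h1]
  have i1 : Integrable (fun x : ℝ => ‖h (x + y * I)‖ ^ 2 + ‖h (x + y' * I)‖ ^ 2) :=
    (hh.integrable_sq hy).add (hh.integrable_sq hy')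
  have i2 : Integrable (fun x : ℝ => 2 * (h (x + y * I) * (starRingEnd ℂ) (h (x + y' * I))).re) :=
    ((hh.integrable hy hy').re).const_mul 2
  rw [integral_sub i1 i2, integral_add (hh.integrable_sq hy) (hh.integrable_sq hy'),
    integral_const_mul]
  have e1 : ∫ x : ℝ, ‖h (x + y * I)‖ ^ 2 = hphi h (2 * y) := by
    rw [hphi]; congr 1; funext x; congr 4; push_cast; ring
  have e2 : ∫ x : ℝ, ‖h (x + y' * I)‖ ^ 2 = hphi h (2 * y') := by
    rw [hphi]; congr 1; funext x; congr 4; push_cast; ring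
  have e3 : ∫ x : ℝ, (h (x + y * I) * (starRingEnd ℂ) (h (x + y' * I))).re = hphi h (y + y') := by
    have h2 := integral_re (hh.integrable hy hy')
    have h3 : ∫ x : ℝ, (h (x + y * I) * (starRingEnd ℂ) (h (x + y' * I))).re
        = (∫ x : ℝ, h (x + y * I) * (starRingEnd ℂ) (h (x + y' * I))).re := h2
    rw [h3, hh.corr hy hy', hphi]
    have h4 : ∀ x : ℝ, h (x + ((y + y') / 2 : ℝ) * I)
        * (starRingEnd ℂ) (h (x + ((y + y') / 2 : ℝ) * I))
        = ((‖h (x + ((y + y') / 2 : ℝ) * I)‖ ^ 2 : ℝ) : ℂ) := by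
      intro x
      rw [Complex.mul_conj, Complex.normSq_eq_norm_sq]
    simp only [h4]
    rw [integral_complex_ofReal, Complex.ofReal_re]
  rw [e1, e2, e3]

lemma HardyFn.hphi_nonneg (h : ℂ → ℂ) (s : ℝ) : 0 ≤ hphi h s :=
  integral_nonneg fun _ => sq_nonneg _

lemma HardyFn.hphi_le {h : ℂ → ℂ} (hh : HardyFn h) {s : ℝ} (hs : 0 < s) : hphi h s ≤ Real.pi := by
  rw [hphi, ← integral_univ_inv_one_add_sq]
  exact integral_mono (hh.integrable_sq (half_pos hs)) integrable_inv_one_add_sq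
    fun x => hh.bound' x (half_pos hs)

end Pool.Agent.Helper3.Crit
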