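import Pool.Agent.Helper3.Crit.Pk
import Pool.Agent.Helper3.Crit.Hardy

/-! The Poisson formula for the Hardy functions. -/

open MeasureTheory Set Filter Topology Complex

noncomputable section

namespace Pool.Agent.Helper3.Crit

lemma fatb_pk_eq {y : ℝ} (hy : 0 < y) (t : ℝ) :
    pk y t = Real.pi⁻¹ * (y⁻¹ * (1 + (y⁻¹ * t) ^ 2)⁻¹) := by
  unfold pk
  have h1 : t ^ 2 + y ^ 2 ≠ 0 := by positivity
  have h2 : 1 + (y⁻¹ * t) ^ 2 ≠ 0 := by positivity
  field_simp
  ring

lemma fatb_pk_integrable {y : ℝ} (hy : 0 < y) : Integrable (pk y) := by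
  have h1 : Integrable fun t : ℝ => Real.pi⁻¹ * (y⁻¹ * (1 + (y⁻¹ * t) ^ 2)⁻¹) :=
    ((integrable_inv_one_add_sq.comp_mul_left' (inv_ne_zero hy.ne')).const_mul _).const_mul _
  exact h1.congr (Eventually.of_forall fun t => (fatb_pk_eq hy t).symm)

lemma fatb_pk_integral {y : ℝ} (hy : 0 < y) : ∫ t, pk y t = 1 := by
  have h1 : ∀ t, pk y t = Real.pi⁻¹ * (y⁻¹ * (1 + (y⁻¹ * t) ^ 2)⁻¹) := fatb_pk_eq hy
  simp only [h1]
  rw [integral_const_mul, integral_const_mul,
    Measure.integral_comp_inv_mul_left (fun x : ℝ => (1 + x ^ 2)⁻¹) y,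
    integral_univ_inv_one_add_sq, abs_of_pos hy, smul_eq_mul]
  have := Real.pi_ne_zero
  field_simp

lemma fatb_core {g : ℂ → ℂ} (hg : ∀ z : ℂ, 0 < z.im → DifferentiableAt ℂ g z)
    (hb : ∀ z : ℂ, 0 < z.im → ‖g z‖ ≤ 1) {δ y : ℝ} (hδ : 0 < δ) (hy : 0 < y) :
    g (((y + δ : ℝ) : ℂ) * I) = ∫ t : ℝ, ((pk y t : ℝ) : ℂ) * g (t + (δ : ℂ) * I) := by
  set z1 : ℂ := ((y + δ : ℝ) : ℂ) * I with hz1
  have hz1re : z1.re = 0 := by simp [hz1]
  have hz1im : z1.im = y + δ := by simp [hz1]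
  have hz1U : 0 < z1.im := by rw [hz1im]; linarith
  have hUo : IsOpen {z : ℂ | 0 < z.im} := isOpen_lt continuous_const Complex.continuous_im
  set D : ℂ → ℂ := dslope g z1 with hD
  have hDdiff : ∀ z : ℂ, 0 < z.im → DifferentiableAt ℂ D z := by
    have h1 : DifferentiableOn ℂ D {z : ℂ | 0 < z.im} := by
      rw [hD, Complex.differentiableOn_dslope (hUo.mem_nhds hz1U)]
      exact fun z hz => (hg z hz).differentiableWithinAt
    exact fun z hz => h1.differentiableAt (hUo.mem_nhds hz)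
  have hDmul : ∀ z : ℂ, (z - z1) * D z = g z - g z1 := fun z => by
    rw [← smul_eq_mul]
    exact sub_smul_dslope g z1 z
  have hDle : ∀ z : ℂ, 0 < z.im → ‖z - z1‖ * ‖D z‖ ≤ 2 := by
    intro z hz
    rw [← norm_mul, hDmul]
    have h1 := norm_sub_le (g z) (g z1)
    have h2 := hb z hz
    have h3 := hb z1 hz1U
    linarith
  obtain ⟨B, hB0, hB⟩ : ∃ B : ℝ, 0 ≤ B ∧ ∀ z : ℂ, 0 < z.im → ‖D z‖ ≤ B := by
    have hr0 : 0 < (y + δ) / 2 := by linarith
    have hsub : ∀ z ∈ Metric.closedBall z1 ((y + δ) / 2), 0 < z.im := by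
      intro z hz
      rw [Metric.mem_closedBall, Complex.dist_eq] at hz
      have h1 := (Complex.abs_im_le_norm (z - z1)).trans hz
      rw [Complex.sub_im, hz1im, abs_le] at h1
      linarith [h1.1]
    have hcont : ContinuousOn D (Metric.closedBall z1 ((y + δ) / 2)) := fun z hz =>
      (hDdiff z (hsub z hz)).continuousAt.continuousWithinAt
    obtain ⟨B0, hB0⟩ := (isCompact_closedBall z1 ((y + δ) / 2)).exists_bound_of_continuousOn hcont
    refine ⟨max B0 (2 / ((y + δ) / 2)), le_max_of_le_right (by positivity), ?_⟩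
    intro z hz
    by_cases hz' : z ∈ Metric.closedBall z1 ((y + δ) / 2)
    · exact (hB0 z hz').trans (le_max_left _ _)
    · rw [Metric.mem_closedBall, Complex.dist_eq, not_le] at hz'
      refine le_trans ?_ (le_max_right _ _)
      rw [le_div_iff₀ hr0]
      have := hDle z hz
      nlinarith [norm_nonneg (D z)]
  set η : ℝ := min δ y / 2 with hη
  have hη0 : 0 < η := by rw [hη]; have := lt_min hδ hy; linarith
  have hηδ : η < δ := by
    rw [hη]; have := min_le_left δ y; have := lt_min hδ hy; linarith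
  have hηy : η < y := by
    rw [hη]; have := min_le_right δ y; have := lt_min hδ hy; linarith
  set c : ℂ := ((η - y : ℝ) : ℂ) * I with hc
  have hcre : c.re = 0 := by simp [hc]
  have hcim : c.im = η - y := by simp [hc]
  set f : ℂ → ℂ := fun w => D (w + ((δ - η : ℝ) : ℂ) * I) * (2 * y * I / (w - c)) with hf
  have hw'im : ∀ w : ℂ, (w + ((δ - η : ℝ) : ℂ) * I).im = w.im + (δ - η) := fun w => by simp
  have hw're : ∀ w : ℂ, (w + ((δ - η : ℝ) : ℂ) * I).re = w.re := fun w => by simp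
  have hwc : ∀ w : ℂ, 0 < w.im → w - c ≠ 0 := by
    intro w hw h0
    have := congrArg Complex.im h0
    rw [Complex.sub_im, hcim, Complex.zero_im] at this
    linarith
  have hfdiff : ∀ w : ℂ, 0 < w.im → DifferentiableAt ℂ f w := by
    intro w hw
    refine DifferentiableAt.mul ?_ ?_
    · have h1 : DifferentiableAt ℂ D (w + ((δ - η : ℝ) : ℂ) * I) :=
        hDdiff _ (by rw [hw'im]; linarith)
      have h2 : DifferentiableAt ℂ (fun w : ℂ => w + ((δ - η : ℝ) : ℂ) * I) w := by fun_prop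
      exact DifferentiableAt.comp (g := D) w h1 h2
    · refine DifferentiableAt.div (by fun_prop) (by fun_prop) (hwc w hw)
  have hnf : ∀ w : ℂ, ‖f w‖ = ‖D (w + ((δ - η : ℝ) : ℂ) * I)‖ * (2 * y / ‖w - c‖) := by
    intro w
    rw [hf]
    simp only
    rw [norm_mul, norm_div, norm_mul, norm_mul, Complex.norm_I, mul_one, Complex.norm_real,
      Real.norm_of_nonneg hy.le, Complex.norm_ofNat]
  have hm : 0 < min 1 (y - η) := lt_min one_pos (by linarith)
  set C : ℝ := (B + 2) * (2 * y) / min 1 (y - η) with hC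
  have hbound : ∀ w : ℂ, 0 < w.im → ‖f w‖ ≤ C * (1 + w.re ^ 2)⁻¹ := by
    intro w hw
    have h1 : ‖D (w + ((δ - η : ℝ) : ℂ) * I)‖ * (1 + |w.re|) ≤ B + 2 := by
      have e1 := hB _ (show 0 < (w + ((δ - η : ℝ) : ℂ) * I).im by rw [hw'im]; linarith)
      have e2 := hDle _ (show 0 < (w + ((δ - η : ℝ) : ℂ) * I).im by rw [hw'im]; linarith)
      have e3 := Complex.abs_re_le_norm (w + ((δ - η : ℝ) : ℂ) * I - z1)
      rw [Complex.sub_re, hw're, hz1re, sub_zero] at e3
      nlinarith [norm_nonneg (D (w + ((δ - η : ℝ) : ℂ) * I))]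
    have h2 : |w.re| ≤ ‖w - c‖ := by
      have := Complex.abs_re_le_norm (w - c)
      rwa [Complex.sub_re, hcre, sub_zero] at this
    have h3 : y - η ≤ ‖w - c‖ := by
      have := (le_abs_self _).trans (Complex.abs_im_le_norm (w - c))
      rw [Complex.sub_im, hcim] at this
      linarith
    have h4 : (1 + w.re ^ 2) * min 1 (y - η) ≤ (1 + |w.re|) * ‖w - c‖ := by
      have e1 := min_le_left 1 (y - η)
      have e2 := min_le_right 1 (y - η)
      have e3 : w.re ^ 2 = |w.re| ^ 2 := (sq_abs _).symm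
      have e4 := abs_nonneg w.re
      rw [e3]
      rcases le_total 1 |w.re| with h5 | h5
      · have e5 : (1 + |w.re| ^ 2) * min 1 (y - η) ≤ (1 + |w.re| ^ 2) * 1 :=
          mul_le_mul_of_nonneg_left e1 (by positivity)
        have e6 : (1 + |w.re|) * |w.re| ≤ (1 + |w.re|) * ‖w - c‖ :=
          mul_le_mul_of_nonneg_left h2 (by positivity)
        nlinarith
      · have e5 : (1 + |w.re| ^ 2) * min 1 (y - η) ≤ (1 + |w.re| ^ 2) * ‖w - c‖ :=
          mul_le_mul_of_nonneg_left (e2.trans h3) (by positivity)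
        have e6 : (1 + |w.re| ^ 2) * ‖w - c‖ ≤ (1 + |w.re|) * ‖w - c‖ :=
          mul_le_mul_of_nonneg_right (by nlinarith) (norm_nonneg _)
        linarith
    have h5 : 0 < ‖w - c‖ := norm_pos_iff.2 (hwc w hw)
    rw [hnf, ← div_eq_mul_inv, le_div_iff₀ (by positivity), hC]
    rw [mul_div_assoc', div_mul_eq_mul_div, div_le_div_iff₀ h5 hm]
    have h6 : 0 ≤ ‖D (w + ((δ - η : ℝ) : ℂ) * I)‖ * (2 * y) := by positivity
    calc ‖D (w + ((δ - η : ℝ) : ℂ) * I)‖ * (2 * y) * (1 + w.re ^ 2) * min 1 (y - η)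
        = ‖D (w + ((δ - η : ℝ) : ℂ) * I)‖ * (2 * y) * ((1 + w.re ^ 2) * min 1 (y - η)) := by ring
      _ ≤ ‖D (w + ((δ - η : ℝ) : ℂ) * I)‖ * (2 * y) * ((1 + |w.re|) * ‖w - c‖) :=
          mul_le_mul_of_nonneg_left h4 h6
      _ = (‖D (w + ((δ - η : ℝ) : ℂ) * I)‖ * (1 + |w.re|)) * (2 * y * ‖w - c‖) := by ring
      _ ≤ (B + 2) * (2 * y * ‖w - c‖) := mul_le_mul_of_nonneg_right h1 (by positivity)
      _ = (B + 2) * (2 * y) * ‖w - c‖ := by ring
  -- shift of the line
  have hshift : ∀ n : ℕ, ∫ t : ℝ, f (t + η * I) = ∫ t : ℝ, f (t + ((η + n : ℝ) : ℂ) * I) := by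
    intro n
    have hn : (0 : ℝ) ≤ n := Nat.cast_nonneg n
    exact line_shift (S := η + n + 1) (C := C) (fun z h1 _ => hfdiff z h1)
      (fun z h1 _ => hbound z h1) hη0 (by linarith) (by linarith)
  have hlim : Tendsto (fun n : ℕ => ∫ t : ℝ, f (t + ((η + n : ℝ) : ℂ) * I)) atTop
      (𝓝 (∫ _ : ℝ, (0 : ℂ))) := by
    refine tendsto_integral_of_dominated_convergence (fun t : ℝ => C * (1 + t ^ 2)⁻¹) ?_
      (integrable_inv_one_add_sq.const_mul C) ?_ ?_
    · intro n
      have hn : (0 : ℝ) ≤ n := Nat.cast_nonneg n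
      refine Continuous.aestronglyMeasurable ?_
      rw [continuous_iff_continuousAt]
      intro t
      have h1 : ContinuousAt f ((t : ℂ) + ((η + n : ℝ) : ℂ) * I) :=
        (hfdiff _ (by simp; linarith)).continuousAt
      have h2 : ContinuousAt (fun t : ℝ => (t : ℂ) + ((η + n : ℝ) : ℂ) * I) t := by fun_prop
      exact ContinuousAt.comp (g := f) h1 h2
    · intro n
      have hn : (0 : ℝ) ≤ n := Nat.cast_nonneg n
      refine Eventually.of_forall fun t => ?_
      have := hbound (t + ((η + n : ℝ) : ℂ) * I) (by simp; linarith)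
      simpa using this
    · refine Eventually.of_forall fun t => ?_
      have h1 : Tendsto (fun n : ℕ => B * (2 * y) / (n : ℝ)) atTop (𝓝 0) :=
        tendsto_const_nhds.div_atTop tendsto_natCast_atTop_atTop
      refine squeeze_zero_norm' ?_ h1
      filter_upwards [eventually_gt_atTop 0] with n hn
      have hn' : (0 : ℝ) < n := Nat.cast_pos.2 hn
      rw [hnf]
      have e1 := hB (t + ((η + n : ℝ) : ℂ) * I + ((δ - η : ℝ) : ℂ) * I)
        (by rw [hw'im]; simp; linarith)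
      have e2 : (n : ℝ) ≤ ‖(t : ℂ) + ((η + n : ℝ) : ℂ) * I - c‖ := by
        have := (le_abs_self _).trans
          (Complex.abs_im_le_norm ((t : ℂ) + ((η + n : ℝ) : ℂ) * I - c))
        have him : ((t : ℂ) + ((η + n : ℝ) : ℂ) * I).im = η + n := by simp
        rw [Complex.sub_im, hcim, him] at this
        linarith
      have e3 : 2 * y / ‖(t : ℂ) + ((η + n : ℝ) : ℂ) * I - c‖ ≤ 2 * y / n :=
        div_le_div_of_nonneg_left (by positivity) hn' e2
      calc _ ≤ B * (2 * y / n) := mul_le_mul e1 e3 (by positivity) hB0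
        _ = B * (2 * y) / n := by ring
  have hzero : ∫ t : ℝ, f (t + η * I) = 0 := by
    have h1 : Tendsto (fun n : ℕ => ∫ t : ℝ, f (t + ((η + n : ℝ) : ℂ) * I)) atTop
        (𝓝 (∫ t : ℝ, f (t + η * I))) :=
      Tendsto.congr hshift tendsto_const_nhds
    rw [integral_zero] at hlim
    exact tendsto_nhds_unique h1 hlim
  -- evaluation on the line
  have hval : ∀ t : ℝ, f (t + η * I)
      = (2 * Real.pi * I) * (((pk y t : ℝ) : ℂ) * g (t + (δ : ℂ) * I) - ((pk y t : ℝ) : ℂ) * g z1) := by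
    intro t
    have e0 : ((t : ℂ) + η * I) + ((δ - η : ℝ) : ℂ) * I = t + (δ : ℂ) * I := by
      push_cast; ring
    have e1 := hDmul (t + (δ : ℂ) * I)
    have e2 : (t : ℂ) + (δ : ℂ) * I - z1 = t - y * I := by
      rw [hz1]; push_cast; ring
    have e3 : (t : ℂ) + η * I - c = t + y * I := by
      rw [hc]; push_cast; ring
    rw [e2] at e1
    have hne : (t : ℂ) ^ 2 + (y : ℂ) ^ 2 ≠ 0 := by
      have : (t : ℂ) ^ 2 + (y : ℂ) ^ 2 = ((t ^ 2 + y ^ 2 : ℝ) : ℂ) := by push_cast; ring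
      rw [this]
      have h2 : t ^ 2 + y ^ 2 ≠ 0 := by positivity
      exact_mod_cast h2
    have hprod : ((t : ℂ) - y * I) * (t + y * I) = (t : ℂ) ^ 2 + (y : ℂ) ^ 2 := by
      linear_combination (-(y : ℂ) ^ 2) * Complex.I_sq
    have hne2 : (t : ℂ) + y * I ≠ 0 := fun h0 => hne (by rw [← hprod, h0, mul_zero])
    have hpi : (Real.pi : ℂ) ≠ 0 := Complex.ofReal_ne_zero.2 Real.pi_ne_zero
    have hpk : ((pk y t : ℝ) : ℂ) = (Real.pi : ℂ)⁻¹ * (y / ((t : ℂ) ^ 2 + (y : ℂ) ^ 2)) := by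
      unfold pk
      push_cast
      ring
    rw [hf]
    simp only
    rw [e0, e3, ← mul_sub, ← e1, hpk, ← hprod]
    have hne3 : (t : ℂ) - y * I ≠ 0 := fun h0 => hne (by rw [← hprod, h0, zero_mul])
    clear hpk hprod e1 e2 e3 hne
    generalize (t : ℂ) - y * I = a at hne3 ⊢
    generalize (t : ℂ) + y * I = b at hne2 ⊢
    field_simp
  have hgc : Continuous fun t : ℝ => g (t + (δ : ℂ) * I) := by
    rw [continuous_iff_continuousAt]
    intro t
    have h1 : ContinuousAt g ((t : ℂ) + (δ : ℂ) * I) :=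
      (hg _ (by simpa using hδ)).continuousAt
    have h2 : ContinuousAt (fun t : ℝ => (t : ℂ) + (δ : ℂ) * I) t := by fun_prop
    exact ContinuousAt.comp (g := g) h1 h2
  have hi1 : Integrable fun t : ℝ => ((pk y t : ℝ) : ℂ) * g (t + (δ : ℂ) * I) := by
    refine (fatb_pk_integrable hy).mono' ?_ ?_
    · exact ((fatb_pk_integrable hy).ofReal.aestronglyMeasurable).mul hgc.aestronglyMeasurable
    · refine Eventually.of_forall fun t => ?_
      have hpk0 : 0 ≤ pk y t := by unfold pk; positivity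
      rw [norm_mul, Complex.norm_real, Real.norm_of_nonneg hpk0]
      exact mul_le_of_le_one_right hpk0 (hb _ (by simpa using hδ))
  have hi2 : Integrable fun t : ℝ => ((pk y t : ℝ) : ℂ) * g z1 :=
    (fatb_pk_integrable hy).ofReal.mul_const _
  rw [show (fun t : ℝ => f (t + η * I)) = fun t : ℝ => (2 * Real.pi * I) *
    (((pk y t : ℝ) : ℂ) * g (t + (δ : ℂ) * I) - ((pk y t : ℝ) : ℂ) * g z1) from funext hval,
    integral_const_mul, integral_sub hi1 hi2, integral_mul_const, integral_complex_ofReal,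
    fatb_pk_integral hy] at hzero
  have hpi : (2 * (Real.pi : ℂ) * I) ≠ 0 := by
    have := Complex.ofReal_ne_zero.2 Real.pi_ne_zero
    simp [this]
  rcases mul_eq_zero.1 hzero with h1 | h1
  · exact absurd h1 hpi
  · rw [Complex.ofReal_one, one_mul, sub_eq_zero] at h1
    exact h1.symm

theorem HardyFn.poisson {h : ℂ → ℂ} (hh : HardyFn h) {δ : ℝ} (hδ : 0 < δ) (x : ℝ) {y : ℝ}
    (hy : 0 < y) : h (x + ((y + δ : ℝ) : ℂ) * I)
      = ∫ t : ℝ, ((pk y (x - t) : ℝ) : ℂ) * h (t + (δ : ℂ) * I) := by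
  have h1 := fatb_core (g := fun w => h (w + x)) (δ := δ) (y := y) (by
    intro z hz
    have e1 : DifferentiableAt ℂ h (z + x) := hh.diff _ (by simpa using hz)
    have e2 : DifferentiableAt ℂ (fun z : ℂ => z + x) z := by fun_prop
    exact DifferentiableAt.comp (g := h) z e1 e2) (by
    intro z hz
    refine (hh.bound _ (by simpa using hz)).trans ?_
    apply inv_le_one_of_one_le₀
    have := (le_abs_self _).trans (Complex.abs_im_le_norm (z + x + I))
    simp at this
    linarith) hδ hy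
  rw [add_comm, h1, ← integral_sub_right_eq_self _ x]
  congr 1
  funext t
  have e1 : pk y (t - x) = pk y (x - t) := by
    unfold pk
    congr 2
    ring
  rw [e1]
  congr 2
  push_cast
  ring

end Pool.Agent.Helper3.Crit
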