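import Pool.Agent.Helper3.Crit.QuasiAbs
import Pool.Agent.Helper3.Crit.Neg3

/-! Finite volume Green functions and the Wegner type estimate. -/

open scoped ENNReal NNReal
open MeasureTheory Set Filter Topology

noncomputable section

namespace Pool.Agent.Helper3.Crit

open Pool.Agent.Helper3.Anderson

variable {d : ℕ}

lemma mem_nbs_comm {u w : Site d} : w ∈ nbs u ↔ u ∈ nbs w := by
  constructor
  · intro h; apply mem_nbs_of_l1; rw [l1_sub_comm]; exact l1_nbs h
  · intro h; apply mem_nbs_of_l1; rw [l1_sub_comm]; exact l1_nbs h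

/-- `-Δ - z` restricted to `Λ` -/
def HL (Λ : Finset (Site d)) (z : ℂ) : Matrix Λ Λ ℂ :=
  fun u w => (if u = w then (2 * d - z) else 0) - (if (w : Site d) ∈ nbs (u : Site d) then 1 else 0)

lemma diss_HL (Λ : Finset (Site d)) {z : ℂ} (hz0 : 0 < z.im) : Diss (HL Λ z) := by
  intro φ hφ
  have e1 : ∀ x : Λ, ∑ w, HL Λ z x w * φ w = (2 * d - z) * φ x
      - ∑ w : Λ, (if (w : Site d) ∈ nbs (x : Site d) then (1 : ℂ) else 0) * φ w := by
    intro x
    simp only [HL, sub_mul, Finset.sum_sub_distrib, ite_mul, zero_mul, Finset.sum_ite_eq,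
      Finset.mem_univ, if_true]
  have e2 : ∑ x : Λ, (starRingEnd ℂ) (φ x) * ∑ w, HL Λ z x w * φ w
      = ∑ x : Λ, (2 * d - z) * ((Complex.normSq (φ x) : ℝ) : ℂ)
        - ∑ x : Λ, ∑ w : Λ, (if (w : Site d) ∈ nbs (x : Site d) then (1 : ℂ) else 0)
          * ((starRingEnd ℂ) (φ x) * φ w) := by
    rw [← Finset.sum_sub_distrib]
    refine Finset.sum_congr rfl fun x _ => ?_
    rw [e1, mul_sub, Finset.mul_sum, Complex.normSq_eq_conj_mul_self]
    congr 1
    · ring
    · exact Finset.sum_congr rfl fun w _ => by ring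
  set S : ℂ := ∑ x : Λ, ∑ w : Λ, (if (w : Site d) ∈ nbs (x : Site d) then (1 : ℂ) else 0)
          * ((starRingEnd ℂ) (φ x) * φ w) with hS
  have hSim : S.im = 0 := by
    rw [← Complex.conj_eq_iff_im, hS, map_sum]
    simp only [map_sum]
    rw [Finset.sum_comm]
    refine Finset.sum_congr rfl fun x _ => Finset.sum_congr rfl fun w _ => ?_
    rw [map_mul, map_mul, Complex.conj_conj]
    have : (if (x : Site d) ∈ nbs (w : Site d) then (1 : ℂ) else 0)
        = if (w : Site d) ∈ nbs (x : Site d) then 1 else 0 := by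
      simp only [mem_nbs_comm (u := (w : Site d))]
    rw [this]
    split_ifs <;> simp [mul_comm]
  rw [e2, Complex.sub_im, hSim, sub_zero, ← Finset.mul_sum, ← Complex.ofReal_sum, Complex.mul_im,
    Complex.ofReal_re, Complex.ofReal_im, mul_zero, zero_add]
  have h1 : 0 < ∑ x : Λ, Complex.normSq (φ x) := by
    obtain ⟨x, hx⟩ : ∃ x, φ x ≠ 0 := by
      by_contra h
      push Not at h
      exact hφ (funext h)
    exact lt_of_lt_of_le (Complex.normSq_pos.2 hx)
      (Finset.single_le_sum (f := fun x => Complex.normSq (φ x))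
        (fun _ _ => Complex.normSq_nonneg _) (Finset.mem_univ x))
  have h2 : (2 * (d : ℂ) - z).im = - z.im := by simp
  rw [h2]
  nlinarith

/-- the potential on `Λ` -/
def VL (M lam : ℝ) (Λ : Finset (Site d)) (ω : Site d → ℝ) : Λ → ℂ :=
  fun u => ((lam * clip M (ω u) : ℝ) : ℂ)

/-- finite volume Green function -/
def Gf (M lam : ℝ) (z : ℂ) (Λ : Finset (Site d)) (ω : Site d → ℝ) : Matrix Λ Λ ℂ :=
  gcut (HL Λ z) (VL M lam Λ ω) ∅

lemma Gf_symm (M lam : ℝ) (z : ℂ) (Λ : Finset (Site d)) (ω : Site d → ℝ) (x y : Λ) :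
    Gf M lam z Λ ω x y = Gf M lam z Λ ω y x := by
  have h : Matrix.transpose (cutM (HL Λ z) (VL M lam Λ ω) ∅) = cutM (HL Λ z) (VL M lam Λ ω) ∅ := by
    ext a b
    simp only [Matrix.transpose_apply, cutM, Finset.notMem_empty, if_false, HL,
      mem_nbs_comm (u := (b : Site d)), eq_comm (a := b)]
    by_cases hab : a = b
    · subst hab; rfl
    · simp [hab]
  have h2 : Matrix.transpose (Gf M lam z Λ ω) = Gf M lam z Λ ω := by
    unfold Gf gcut
    rw [Matrix.transpose_nonsing_inv, h]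
  exact congrFun (congrFun h2 y) x

lemma measurable_Gf {M : ℝ} (lam : ℝ) (z : ℂ) (Λ : Finset (Site d)) (x y : Λ) :
    Measurable fun ω : Site d → ℝ => Gf M lam z Λ ω x y := by
  unfold Gf gcut
  refine measurable_inv_entry (fun a c => ?_) x y
  simp only [cutM, Finset.notMem_empty, if_false]
  refine Measurable.add measurable_const ?_
  split_ifs
  · unfold VL
    have : Measurable fun ω : Site d → ℝ => (lam * clip M (ω a) : ℝ) :=
      measurable_const.mul ((continuous_clip M).measurable.comp (measurable_pi_apply _))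
    exact Complex.measurable_ofReal.comp this
  · exact measurable_const

variable {μ : Measure ℝ} [IsProbabilityMeasure μ] {M lam : ℝ} {K : ℝ≥0}

lemma VL_update (M lam : ℝ) (Λ : Finset (Site d)) (ω : Site d → ℝ) (u : Λ) (t : ℝ) :
    VL M lam Λ (Function.update ω (u : Site d) t)
      = Function.update (VL M lam Λ ω) u ((lam * clip M t : ℝ) : ℂ) := by
  funext v
  by_cases hv : v = u
  · subst hv
    rw [Function.update_self, VL, Function.update_self]
  · rw [Function.update_of_ne hv]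
    have hv' : (v : Site d) ≠ u := fun h => hv (Subtype.ext h)
    simp only [VL, Function.update_of_ne hv']

lemma quasi_Gf (hμ : GoodLaw μ M K) (hlam : 0 < lam) {z : ℂ} (hz0 : 0 < z.im)
    (Λ : Finset (Site d)) (x u y : Λ) :
    ∫⁻ ω, ((‖Gf M lam z Λ ω x u‖ₑ * ‖Gf M lam z Λ ω u y‖ₑ) / ‖Gf M lam z Λ ω x y‖ₑ) ^ (1/4 : ℝ)
      ∂(Measure.infinitePi (fun _ : Site d => μ)) ≤ C2 M lam K := by
  have hM : 0 ≤ M := by linarith [hμ.one_le]
  have hm : Measurable fun ω : Site d → ℝ =>
      ((‖Gf M lam z Λ ω x u‖ₑ * ‖Gf M lam z Λ ω u y‖ₑ) / ‖Gf M lam z Λ ω x y‖ₑ) ^ (1/4 : ℝ) :=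
    (((measurable_Gf lam z Λ x u).enorm.mul (measurable_Gf lam z Λ u y).enorm).div
      (measurable_Gf lam z Λ x y).enorm).pow_const _
  rw [lintegral_resample (u : Site d) hm]
  have hA := diss_HL Λ hz0
  calc _ ≤ ∫⁻ _ω, C2 M lam K ∂(Measure.infinitePi (fun _ : Site d => μ)) := by
        refine lintegral_mono fun ω => ?_
        have hD : ∀ w, (VL M lam Λ ω w).im ≤ 0 := fun w => by
          unfold VL; rw [Complex.ofReal_im]
        set D := VL M lam Λ ω with hDdef
        have hD0 : ∀ x, x ∉ (∅ : Finset Λ) → (Function.update D u 0 x).im ≤ 0 := by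
          intro x _
          rcases eq_or_ne x u with rfl | hne
          · simp
          · simpa [Function.update_of_ne hne] using hD x
        set τ := gcut (HL Λ z) (Function.update D u 0) ∅ u u with hτ
        have hτim : 0 < τ.im := gcut_im_pos hA hD0 (Finset.notMem_empty u)
        have hform : ∀ t : ℝ, |t| ≤ M → ∀ a b : Λ, Gf M lam z Λ (Function.update ω (u : Site d) t) a b
            * (1 + (t : ℂ) * (lam * τ)) = gcut (HL Λ z) (Function.update D u 0) ∅ a b
            + (t : ℂ) * (lam * (gcut (HL Λ z) (Function.update D u 0) ∅ a b * τ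
              - gcut (HL Λ z) (Function.update D u 0) ∅ a u
                * gcut (HL Λ z) (Function.update D u 0) ∅ u b)) := by
          intro t ht a b
          have := gcut_rank_one hA (u := u) hD (t := ((lam * t : ℝ) : ℂ))
            (by rw [Complex.ofReal_im]) a b
          rw [Gf, VL_update, clip_of_abs_le ht, ← hDdef]
          rw [← hτ] at this
          push_cast at this ⊢
          linear_combination this
        have hne : ∀ t : ℝ, |t| ≤ M → 1 + (t : ℂ) * (lam * τ) ≠ 0 := by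
          intro t _ h
          have h1 := congrArg Complex.im h
          simp at h1
          rcases h1 with h1 | h1 | h1
          · rw [h1] at h; simp at h
          · exact hlam.ne' h1
          · exact hτim.ne' h1
        refine quasi_abs hμ hlam (p := gcut (HL Λ z) (Function.update D u 0) ∅ x u)
          (q := gcut (HL Λ z) (Function.update D u 0) ∅ u y)
          (a := gcut (HL Λ z) (Function.update D u 0) ∅ x y) (τ := τ) hne ?_ ?_ ?_
        · intro t ht
          rw [hform t ht x u]; ring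
        · intro t ht
          rw [hform t ht u y]; ring
        · intro t ht
          rw [hform t ht x y]
    _ = C2 M lam K := by rw [lintegral_const, measure_univ, mul_one]

lemma Gf_self_ne_zero {z : ℂ} (hz0 : 0 < z.im) (Λ : Finset (Site d)) (ω : Site d → ℝ) (x : Λ) :
    Gf M lam z Λ ω x x ≠ 0 := by
  have := gcut_im_pos (diss_HL Λ hz0) (D := VL M lam Λ ω) (T := ∅)
    (fun w _ => by unfold VL; rw [Complex.ofReal_im]) (Finset.notMem_empty x)
  intro h
  rw [Gf] at h
  rw [h] at this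
  simp at this

lemma pos_moment_Gf (hμ : GoodLaw μ M K) (hlam : 0 < lam) {z : ℂ} (hz0 : 0 < z.im)
    (Λ : Finset (Site d)) (x y : Λ) :
    ∫⁻ ω, ‖Gf M lam z Λ ω x y‖ₑ ^ (1/4 : ℝ) ∂(Measure.infinitePi (fun _ : Site d => μ))
      ≤ 2 * C2 M lam K := by
  have h1 := quasi_Gf hμ hlam hz0 Λ x y x
  have h2 := quasi_Gf hμ hlam hz0 Λ x x x
  set r : Λ → Λ → Λ → (Site d → ℝ) → ℝ≥0∞ := fun x u y ω =>
    (‖Gf M lam z Λ ω x u‖ₑ * ‖Gf M lam z Λ ω u y‖ₑ) / ‖Gf M lam z Λ ω x y‖ₑ with hr
  have hm : ∀ x u y, Measurable (r x u y) := fun x u y =>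
    ((measurable_Gf lam z Λ x u).enorm.mul (measurable_Gf lam z Λ u y).enorm).div
      (measurable_Gf lam z Λ x y).enorm
  have key : ∀ ω : Site d → ℝ, ‖Gf M lam z Λ ω x y‖ₑ ^ (1/4 : ℝ)
      ≤ (r x y x ω) ^ (1/4 : ℝ) + (r x x x ω) ^ (1/4 : ℝ) := by
    intro ω
    have hne : Gf M lam z Λ ω x x ≠ 0 := Gf_self_ne_zero hz0 Λ ω x
    have he0 : ‖Gf M lam z Λ ω x x‖ₑ ≠ 0 := by simpa using hne
    have het : ‖Gf M lam z Λ ω x x‖ₑ ≠ ⊤ := enorm_ne_top
    have hs : Gf M lam z Λ ω y x = Gf M lam z Λ ω x y := Gf_symm M lam z Λ ω y x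
    have e1 : r x x x ω = ‖Gf M lam z Λ ω x x‖ₑ := by
      simp only [hr]
      rw [ENNReal.mul_div_right_comm, ENNReal.div_self he0 het, one_mul]
    have e2 : r x y x ω * ‖Gf M lam z Λ ω x x‖ₑ
        = ‖Gf M lam z Λ ω x y‖ₑ * ‖Gf M lam z Λ ω x y‖ₑ := by
      simp only [hr]
      rw [hs, ENNReal.div_mul_cancel he0 het]
    have e3 : ‖Gf M lam z Λ ω x y‖ₑ ^ (1/4 : ℝ)
        = ((r x y x ω) ^ (1/4 : ℝ) * (r x x x ω) ^ (1/4 : ℝ)) ^ (1/2 : ℝ) := by
      rw [← ENNReal.mul_rpow_of_nonneg _ _ (by norm_num : (0 : ℝ) ≤ 1/4), e1, e2, ← sq,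
        ← ENNReal.rpow_natCast, ← ENNReal.rpow_mul, ← ENNReal.rpow_mul]
      norm_num
    rw [e3]
    exact sqrt_mul_le _ _
  calc _ ≤ ∫⁻ ω, ((r x y x ω) ^ (1/4 : ℝ) + (r x x x ω) ^ (1/4 : ℝ))
        ∂(Measure.infinitePi (fun _ : Site d => μ)) := lintegral_mono key
    _ = _ := lintegral_add_left ((hm x y x).pow_const _) _
    _ ≤ C2 M lam K + C2 M lam K := add_le_add h1 h2
    _ = _ := by rw [two_mul]

end Pool.Agent.Helper3.Crit
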