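import Pool.Agent.Helper3.Crit.SkelDefs2
import Pool.Agent.Helper3.Crit.ConsA
import Pool.Agent.Helper3.Crit.ConsB
import Pool.Agent.Helper3.Crit.Decoup

/-! Multiscale output implies exponential decay of fractional moments. -/

open scoped ENNReal NNReal InnerProductSpace
open MeasureTheory Set Filter Topology

noncomputable section

namespace Pool.Agent.Helper3.Crit

open Pool.Agent.Helper3.Anderson

variable {d : ℕ} {μ : Measure ℝ} [IsProbabilityMeasure μ] {M lam : ℝ} {K : ℝ≥0}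

namespace FmDec

lemma CD_ne_top (M lam : ℝ) (K : ℝ≥0) : CD M lam K ≠ ⊤ := by
  unfold CD
  refine ENNReal.add_ne_top.2 ⟨ENNReal.one_ne_top, ENNReal.mul_ne_top ?_ ?_⟩
  · exact ENNReal.rpow_ne_top_of_nonneg (by norm_num) ENNReal.ofReal_ne_top
  · exact ENNReal.rpow_ne_top_of_nonneg (by norm_num)
      (ENNReal.mul_ne_top (by norm_num) (C2_ne_top M K))

lemma tau_le (hμ : GoodLaw μ M K) (hlam : 0 < lam) {z : ℂ} (hz0 : 0 < z.im) (x y : Site d) :
    ∫⁻ ω, ‖gc M lam z ω x y‖ₑ ^ (1 / 8 : ℝ) ∂(PP d μ) ≤ 1 + 2 * C2 M lam K := by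
  have h1 : ∀ t : ℝ≥0∞, t ^ (1 / 8 : ℝ) ≤ 1 + t ^ (1 / 4 : ℝ) := by
    intro t
    rcases le_total t 1 with h | h
    · exact (ENNReal.rpow_le_one h (by norm_num)).trans le_self_add
    · exact (ENNReal.rpow_le_rpow_of_exponent_le h (by norm_num)).trans le_add_self
  calc ∫⁻ ω, ‖gc M lam z ω x y‖ₑ ^ (1 / 8 : ℝ) ∂(PP d μ)
      ≤ ∫⁻ ω, (1 + ‖gc M lam z ω x y‖ₑ ^ (1 / 4 : ℝ)) ∂(PP d μ) :=
        lintegral_mono fun ω => h1 _
    _ = 1 + ∫⁻ ω, ‖gc M lam z ω x y‖ₑ ^ (1 / 4 : ℝ) ∂(PP d μ) := by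
        rw [lintegral_add_left measurable_const]; simp
    _ ≤ _ := by gcongr; exact pos_moment hμ hlam hz0 x y

/-- one step of the iteration -/
lemma step (hμ : GoodLaw μ M K) (hlam : 0 < lam) {z : ℂ} (hz0 : 0 < z.im) {l L : ℕ}
    (hlL : l ≤ L + 1) {ρ p : ℝ} (hρ : 0 ≤ ρ)
    (hp : (PP d μ).real {ω | ¬ GoodBox (potc M lam ω) z 0 l L ρ} ≤ p) {x y : Site d}
    (hxy : L < sn (x - y)) {S : ℝ≥0∞}
    (hS : ∀ u, sn (u - x) ≤ L + 1 →
      ∫⁻ ω, ‖gc M lam z ω u y‖ₑ ^ (1 / 8 : ℝ) ∂(PP d μ) ≤ S) :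
    ∫⁻ ω, ‖gc M lam z ω x y‖ₑ ^ (1 / 8 : ℝ) ∂(PP d μ)
      ≤ ((((2 * (L + 1) + 1) ^ d : ℕ) : ℝ≥0∞) * (ENNReal.ofReal ρ ^ (1 / 8 : ℝ)
        + CD M lam K * ENNReal.ofReal p ^ (1 / 2 : ℝ))) * S := by
  classical
  have hM : 0 ≤ M := by linarith [hμ.one_le]
  set A : Set (Site d → ℝ) := {ω | ¬ GoodBox (potc M lam ω) z x l L ρ} with hA
  have hAm : MeasurableSet A := measurableSet_bad M lam z x l L hlL ρ
  have hmeas : ∀ u, Measurable fun ω => ‖gc M lam z ω u y‖ₑ ^ (1 / 8 : ℝ) := fun u =>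
    (measurable_gc hM hz0 u y).enorm.pow_const _
  have hPA : PP d μ A ≤ ENNReal.ofReal p := by
    rw [← ofReal_measureReal, hA, bad_prob_eq M lam z x l L hlL]
    exact ENNReal.ofReal_le_ofReal hp
  have hcard : ∀ r : ℕ, ((box x r).card : ℝ≥0∞) = (((2 * r + 1) ^ d : ℕ) : ℝ≥0∞) := fun r => by
    rw [card_box]
  -- the bad event
  have h1 : ∫⁻ ω in A, ‖gc M lam z ω x y‖ₑ ^ (1 / 8 : ℝ) ∂(PP d μ)
      ≤ (((2 * (L + 1) + 1) ^ d : ℕ) : ℝ≥0∞) * (CD M lam K * ENNReal.ofReal p ^ (1 / 2 : ℝ)) * S := by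
    refine (decouple hμ hlam hz0 (box x L) hAm ?_ (mem_box.2 (by simp [sn_zero])) y).trans ?_
    · intro ω ω' hωω' hω hg
      refine hω (goodBox_congr (fun u hu => ?_) hg)
      simp only [potc]
      rw [hωω' u (mem_box.2 hu)]
    · have h2 : ∑ u ∈ box x L, ∫⁻ ω, ‖gc M lam z ω u y‖ₑ ^ (1 / 8 : ℝ) ∂(PP d μ)
          ≤ (((2 * (L + 1) + 1) ^ d : ℕ) : ℝ≥0∞) * S := by
        calc ∑ u ∈ box x L, ∫⁻ ω, ‖gc M lam z ω u y‖ₑ ^ (1 / 8 : ℝ) ∂(PP d μ)
            ≤ ∑ u ∈ box x L, S := by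
              refine Finset.sum_le_sum fun u hu => hS u ?_
              have := mem_box.1 hu
              omega
          _ = (((2 * L + 1) ^ d : ℕ) : ℝ≥0∞) * S := by
              rw [Finset.sum_const, nsmul_eq_mul, hcard]
          _ ≤ _ := by
              gcongr
              omega
      calc CD M lam K * (PP d μ A) ^ (1 / 2 : ℝ)
          * ∑ u ∈ box x L, ∫⁻ ω, ‖gc M lam z ω u y‖ₑ ^ (1 / 8 : ℝ) ∂(PP d μ)
          ≤ CD M lam K * ENNReal.ofReal p ^ (1 / 2 : ℝ) * ((((2 * (L + 1) + 1) ^ d : ℕ) : ℝ≥0∞) * S) := by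
            gcongr
        _ = _ := by ring
  -- the good event
  have h3 : ∀ ω ∈ Aᶜ, ‖gc M lam z ω x y‖ₑ ^ (1 / 8 : ℝ)
      ≤ ENNReal.ofReal ρ ^ (1 / 8 : ℝ) * ∑ u ∈ box x (L + 1), ‖gc M lam z ω u y‖ₑ ^ (1 / 8 : ℝ) := by
    intro ω hω
    have hg : GoodBox (potc M lam ω) z x l L ρ := not_not.1 hω
    obtain ⟨u0, hu0, hmax⟩ := Finset.exists_max_image (box x (L + 1))
      (fun u => ‖gc M lam z ω u y‖) ⟨x, mem_box.2 (by simp [sn_zero])⟩
    have h4 : ‖gc M lam z ω x y‖ ≤ ρ * ‖gc M lam z ω u0 y‖ := by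
      refine hg (fun w => gc M lam z ω w y) ‖gc M lam z ω u0 y‖ (norm_nonneg _)
        (fun u hu => hmax u (mem_box.2 hu.le)) (fun u hu => ?_) x (by simp [sn_zero])
      rw [hop_gc hM hz0, if_neg]
      rintro rfl
      rw [sn_sub_comm] at hu
      omega
    have h5 : ‖gc M lam z ω x y‖ₑ ≤ ENNReal.ofReal ρ * ‖gc M lam z ω u0 y‖ₑ := by
      rw [← ofReal_norm, ← ofReal_norm, ← ENNReal.ofReal_mul hρ]
      exact ENNReal.ofReal_le_ofReal h4
    calc ‖gc M lam z ω x y‖ₑ ^ (1 / 8 : ℝ)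
        ≤ (ENNReal.ofReal ρ * ‖gc M lam z ω u0 y‖ₑ) ^ (1 / 8 : ℝ) :=
          ENNReal.rpow_le_rpow h5 (by norm_num)
      _ = ENNReal.ofReal ρ ^ (1 / 8 : ℝ) * ‖gc M lam z ω u0 y‖ₑ ^ (1 / 8 : ℝ) :=
          ENNReal.mul_rpow_of_nonneg _ _ (by norm_num)
      _ ≤ _ := by
          gcongr
          exact Finset.single_le_sum (f := fun u => ‖gc M lam z ω u y‖ₑ ^ (1 / 8 : ℝ))
            (fun _ _ => zero_le) hu0
  have h6 : ∫⁻ ω in Aᶜ, ‖gc M lam z ω x y‖ₑ ^ (1 / 8 : ℝ) ∂(PP d μ)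
      ≤ (((2 * (L + 1) + 1) ^ d : ℕ) : ℝ≥0∞) * ENNReal.ofReal ρ ^ (1 / 8 : ℝ) * S := by
    calc ∫⁻ ω in Aᶜ, ‖gc M lam z ω x y‖ₑ ^ (1 / 8 : ℝ) ∂(PP d μ)
        ≤ ∫⁻ ω in Aᶜ, ENNReal.ofReal ρ ^ (1 / 8 : ℝ)
            * ∑ u ∈ box x (L + 1), ‖gc M lam z ω u y‖ₑ ^ (1 / 8 : ℝ) ∂(PP d μ) :=
          setLIntegral_mono' hAm.compl h3
      _ ≤ ∫⁻ ω, ENNReal.ofReal ρ ^ (1 / 8 : ℝ)
            * ∑ u ∈ box x (L + 1), ‖gc M lam z ω u y‖ₑ ^ (1 / 8 : ℝ) ∂(PP d μ) :=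
          setLIntegral_le_lintegral _ _
      _ = ENNReal.ofReal ρ ^ (1 / 8 : ℝ)
            * ∑ u ∈ box x (L + 1), ∫⁻ ω, ‖gc M lam z ω u y‖ₑ ^ (1 / 8 : ℝ) ∂(PP d μ) := by
          rw [lintegral_const_mul _ (Finset.measurable_sum _ fun u _ => hmeas u),
            lintegral_finsetSum _ fun u _ => hmeas u]
      _ ≤ ENNReal.ofReal ρ ^ (1 / 8 : ℝ) * ∑ u ∈ box x (L + 1), S := by
          gcongr with u hu
          exact hS u (mem_box.1 hu)
      _ = _ := by rw [Finset.sum_const, nsmul_eq_mul, hcard]; ring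
  rw [← lintegral_add_compl _ hAm]
  refine (add_le_add h1 h6).trans (le_of_eq ?_)
  ring

lemma Lsc_le (q L0 k : ℕ) : Lsc q L0 k ≤ 2 ^ ((k + q + 1) * k) * L0 := by
  induction k with
  | zero => simp [Lsc]
  | succ k ih =>
    simp only [Lsc]
    calc 2 ^ (k + 1 + q) * Lsc q L0 k ≤ 2 ^ (k + 1 + q) * (2 ^ ((k + q + 1) * k) * L0) :=
          Nat.mul_le_mul_left _ ih
      _ = 2 ^ (k + 1 + q + (k + q + 1) * k) * L0 := by rw [← mul_assoc, ← pow_add]
      _ ≤ _ := by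
          refine Nat.mul_le_mul_right _ (Nat.pow_le_pow_right (by norm_num) ?_)
          nlinarith

lemma Lsc_tendsto {q L0 : ℕ} (hL0 : 1 ≤ L0) : Tendsto (Lsc q L0) atTop atTop :=
  tendsto_atTop_mono (ConsB.two_pow_le_Lsc hL0) (tendsto_pow_atTop_atTop_of_one_lt (by norm_num))

/-- the contraction factor tends to zero -/
lemma theta_tendsto (d q : ℕ) {L0 : ℕ} (hL0 : 1 ≤ L0) {m : ℝ} (hm : 0 < m) (c : ℝ) :
    Tendsto (fun k : ℕ => (((2 * (Lsc q L0 k + 1) + 1) ^ d : ℕ) : ℝ)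
      * (Real.exp (-(m / 8 * Lsc q L0 k)) + c * Real.exp (-((3 / 2 : ℝ) ^ k / 2)))) atTop (𝓝 0) := by
  have h1 : Tendsto (fun k : ℕ => (((2 * (Lsc q L0 k + 1) + 1) ^ d : ℕ) : ℝ)
      * Real.exp (-(m / 8 * Lsc q L0 k))) atTop (𝓝 0) := by
    have := (poly_exp_small 1 d 1 (show 0 < m / 8 by positivity)).comp (Lsc_tendsto (q := q) hL0)
    refine this.congr fun k => ?_
    simp only [Function.comp]
    push_cast
    ring
  have h2 : Tendsto (fun k : ℕ => (((2 * (Lsc q L0 k + 1) + 1) ^ d : ℕ) : ℝ)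
      * Real.exp (-((3 / 2 : ℝ) ^ k / 2))) atTop (𝓝 0) := by
    have h3 : Tendsto (fun k : ℕ => (5 * (L0 : ℝ)) ^ d * Real.exp (-((3 / 2 : ℝ) ^ k / 4))) atTop (𝓝 0) := by
      have h4 : Tendsto (fun k : ℕ => (3 / 2 : ℝ) ^ k / 4) atTop atTop :=
        (tendsto_pow_atTop_atTop_of_one_lt (by norm_num)).atTop_div_const (by norm_num)
      have := (Real.tendsto_exp_neg_atTop_nhds_zero.comp h4).const_mul ((5 * (L0 : ℝ)) ^ d)
      rw [mul_zero] at this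
      exact this
    refine squeeze_zero' (Eventually.of_forall fun k => by positivity) ?_ h3
    have h5 := tendsto_pow_const_div_const_pow_of_one_lt 2 (show (1 : ℝ) < 3 / 2 by norm_num)
    have h6 := (tendsto_order.1 h5).2 (1 / (4 * ((q + 2) * (d + 1)))) (by positivity)
    filter_upwards [h6, eventually_ge_atTop 1] with k hk hk1
    have hk1' : (1 : ℝ) ≤ k := by exact_mod_cast hk1
    have hpos : (0 : ℝ) < (3 / 2) ^ k := by positivity
    have h7 : ((k : ℝ)) ^ 2 * (4 * ((q + 2) * (d + 1))) ≤ (3 / 2) ^ k := by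
      rw [div_lt_div_iff₀ hpos (by positivity), one_mul] at hk
      exact hk.le
    have hL1 : (1 : ℝ) ≤ Lsc q L0 k := by
      have := ConsB.two_pow_le_Lsc (q := q) hL0 k
      have h1 : 1 ≤ 2 ^ k := Nat.one_le_two_pow
      exact_mod_cast h1.trans this
    have h8 : (((2 * (Lsc q L0 k + 1) + 1) ^ d : ℕ) : ℝ) ≤ (5 * (L0 : ℝ)) ^ d
        * Real.exp ((3 / 2 : ℝ) ^ k / 4) := by
      calc (((2 * (Lsc q L0 k + 1) + 1) ^ d : ℕ) : ℝ) = (2 * ((Lsc q L0 k : ℝ) + 1) + 1) ^ d := by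
            push_cast; ring
        _ ≤ (5 * ((2 : ℝ) ^ ((k + q + 1) * k) * L0)) ^ d := by
            refine pow_le_pow_left₀ (by positivity) ?_ _
            have : (Lsc q L0 k : ℝ) ≤ (2 : ℝ) ^ ((k + q + 1) * k) * L0 := by
              exact_mod_cast Lsc_le q L0 k
            linarith
        _ = (5 * (L0 : ℝ)) ^ d * ((2 : ℝ) ^ ((k + q + 1) * k)) ^ d := by
            rw [← mul_pow]; congr 1; ring
        _ ≤ _ := by
            refine mul_le_mul_of_nonneg_left ?_ (by positivity)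
            rw [← pow_mul, ← Real.rpow_natCast, Real.rpow_def_of_pos (by norm_num)]
            refine Real.exp_le_exp.2 ?_
            have hlog : Real.log 2 ≤ 1 := by
              have := Real.log_two_lt_d9
              linarith
            have hlog0 : 0 ≤ Real.log 2 := Real.log_nonneg (by norm_num)
            push_cast
            have h9 : ((k : ℝ) + q + 1) * k * d ≤ (k : ℝ) ^ 2 * ((q + 2) * (d + 1)) := by
              have e1 : (k : ℝ) + q + 1 ≤ k * (q + 2) := by nlinarith [Nat.cast_nonneg (α := ℝ) q]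
              have hd : (0 : ℝ) ≤ d := Nat.cast_nonneg _
              have hk0 : (0 : ℝ) ≤ k := by linarith
              have hq0 : (0 : ℝ) ≤ q := Nat.cast_nonneg _
              calc ((k : ℝ) + q + 1) * k * d ≤ (k * (q + 2)) * k * (d + 1) := by
                    gcongr
                    linarith
                _ = _ := by ring
            have h10 : 0 ≤ ((k : ℝ) + q + 1) * k * d := by positivity
            nlinarith
    calc (((2 * (Lsc q L0 k + 1) + 1) ^ d : ℕ) : ℝ) * Real.exp (-((3 / 2 : ℝ) ^ k / 2))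
        ≤ (5 * (L0 : ℝ)) ^ d * Real.exp ((3 / 2 : ℝ) ^ k / 4) * Real.exp (-((3 / 2 : ℝ) ^ k / 2)) :=
          mul_le_mul_of_nonneg_right h8 (Real.exp_pos _).le
      _ = (5 * (L0 : ℝ)) ^ d * Real.exp (-((3 / 2 : ℝ) ^ k / 4)) := by
          rw [mul_assoc, ← Real.exp_add]; congr 2; ring
  have h11 := h1.add (h2.const_mul c)
  rw [mul_zero, add_zero] at h11
  refine h11.congr fun k => ?_
  ring

end FmDec

open FmDec in
theorem fm_decay (d : ℕ) (hμ : GoodLaw μ M K) (hlam : 0 < lam) {q l0 L0 : ℕ} {m a : ℝ}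
    (hl0 : 1 ≤ l0) (h4 : 4 * l0 ≤ L0) (hm : 0 < m) :
    ∃ C c : ℝ, 0 < C ∧ 0 < c ∧ ∀ z : ℂ, 0 < z.im → MSA2 d μ M lam z q l0 L0 m a →
      ∀ x y : Site d, ∫⁻ ω, ‖gc M lam z ω x y‖ₑ ^ (1 / 8 : ℝ) ∂(PP d μ)
        ≤ ENNReal.ofReal (C * Real.exp (-(c * sn (x - y)))) := by
  classical
  set cd : ℝ := (CD M lam K).toReal with hcd
  have hcd0 : 0 ≤ cd := ENNReal.toReal_nonneg
  have hcd' : CD M lam K = ENNReal.ofReal cd := (ENNReal.ofReal_toReal (CD_ne_top M lam K)).symm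
  have hL0 : 1 ≤ L0 := by omega
  have hθ := theta_tendsto d q hL0 hm (cd * |a| ^ (1 / 2 : ℝ))
  obtain ⟨k, hk⟩ := ((tendsto_order.1 hθ).2 (1 / 2) (by norm_num)).exists
  set L := Lsc q L0 k with hL
  set l := lsc q l0 L0 k with hl
  have hlL : l ≤ L + 1 := by
    rw [hl, hL]
    cases k with
    | zero => simp only [Lsc, lsc]; omega
    | succ k =>
      simp only [Lsc, lsc]
      have : 1 ≤ 2 ^ (k + 1 + q) := Nat.one_le_two_pow
      nlinarith
  set Tm : ℝ≥0∞ := 1 + 2 * C2 M lam K with hTm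
  have hTm_top : Tm ≠ ⊤ := ENNReal.add_ne_top.2 ⟨ENNReal.one_ne_top,
    ENNReal.mul_ne_top (by norm_num) (C2_ne_top M K)⟩
  have hTm1 : 1 ≤ Tm.toReal := by
    rw [← ENNReal.toReal_one]
    exact ENNReal.toReal_mono hTm_top le_self_add
  refine ⟨2 * Tm.toReal, Real.log 2 / (L + 1), by positivity, by positivity,
    fun z hz0 hmsa x y => ?_⟩
  have hk2 := hmsa k
  have ha : 0 ≤ a := by
    have h0 := hmsa 0
    have h1 : 0 ≤ a * Real.exp (-((3 / 2 : ℝ) ^ 0)) := measureReal_nonneg.trans h0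
    by_contra hcon
    push Not at hcon
    have := mul_neg_of_neg_of_pos hcon (Real.exp_pos (-((3 / 2 : ℝ) ^ 0)))
    linarith
  rw [abs_of_nonneg ha] at hk
  -- the contraction
  have hcontr : (((2 * (L + 1) + 1) ^ d : ℕ) : ℝ≥0∞) * (ENNReal.ofReal (Real.exp (-(m * L))) ^ (1 / 8 : ℝ)
        + CD M lam K * ENNReal.ofReal (a * Real.exp (-((3 / 2 : ℝ) ^ k))) ^ (1 / 2 : ℝ))
        ≤ ENNReal.ofReal (1 / 2) := by
    have e1 : ENNReal.ofReal (Real.exp (-(m * L))) ^ (1 / 8 : ℝ)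
        = ENNReal.ofReal (Real.exp (-(m / 8 * L))) := by
      rw [ENNReal.ofReal_rpow_of_pos (Real.exp_pos _), ← Real.exp_mul]
      congr 2; ring
    have e2 : ENNReal.ofReal (a * Real.exp (-((3 / 2 : ℝ) ^ k))) ^ (1 / 2 : ℝ)
        = ENNReal.ofReal (a ^ (1 / 2 : ℝ) * Real.exp (-((3 / 2 : ℝ) ^ k / 2))) := by
      rw [ENNReal.ofReal_rpow_of_nonneg (by positivity) (by norm_num),
        Real.mul_rpow ha (Real.exp_pos _).le, ← Real.exp_mul]
      congr 3; ring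
    have e3 : ((((2 * (L + 1) + 1) ^ d : ℕ)) : ℝ≥0∞)
        = ENNReal.ofReal ((((2 * (L + 1) + 1) ^ d : ℕ)) : ℝ) := by
      rw [ENNReal.ofReal_natCast]
    rw [e1, e2, e3, hcd', ← ENNReal.ofReal_mul hcd0, ← ENNReal.ofReal_add (by positivity)
      (by positivity), ← ENNReal.ofReal_mul (by positivity)]
    refine ENNReal.ofReal_le_ofReal (le_trans (le_of_eq ?_) hk.le)
    ring
  have hiter : ∀ n : ℕ, ∀ x : Site d, n * (L + 1) ≤ sn (x - y) →
      ∫⁻ ω, ‖gc M lam z ω x y‖ₑ ^ (1 / 8 : ℝ) ∂(PP d μ) ≤ ENNReal.ofReal (1 / 2) ^ n * Tm := by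
    intro n
    induction n with
    | zero =>
      intro x _
      rw [pow_zero, one_mul]
      exact tau_le hμ hlam hz0 x y
    | succ n ih =>
      intro x hx
      rw [add_mul, one_mul] at hx
      have := step hμ hlam hz0 hlL (Real.exp_pos _).le hk2 (x := x) (y := y)
        (S := ENNReal.ofReal (1 / 2) ^ n * Tm) (by omega) (fun u hu => ih u ?_)
      · refine this.trans ((mul_le_mul_left hcontr _).trans (le_of_eq ?_))
        rw [pow_succ]; ring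
      · have h1 := sn_add_le (x - u) (u - y)
        rw [sub_add_sub_cancel] at h1
        rw [sn_sub_comm] at hu
        omega
  set n := sn (x - y) / (L + 1) with hn
  have h5 := hiter n x (Nat.div_mul_le_self _ _)
  refine h5.trans ?_
  rw [← ENNReal.ofReal_toReal hTm_top, ← ENNReal.ofReal_pow (by norm_num),
    ← ENNReal.ofReal_mul (by positivity)]
  refine ENNReal.ofReal_le_ofReal ?_
  rw [ENNReal.toReal_ofReal (by linarith)]
  have h6 : ((1 : ℝ) / 2) ^ n ≤ 2 * Real.exp (-(Real.log 2 / (L + 1) * sn (x - y))) := by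
    have h7 : sn (x - y) < (L + 1) * (n + 1) := Nat.lt_mul_div_succ _ (by omega)
    have h8 : (sn (x - y) : ℝ) ≤ (L + 1) * (n + 1) := by exact_mod_cast h7.le
    have h9 : ((1 : ℝ) / 2) ^ n = Real.exp (-(n * Real.log 2)) := by
      rw [Real.exp_neg, Real.exp_nat_mul, Real.exp_log (by norm_num), one_div, inv_pow]
    have h10 : (2 : ℝ) = Real.exp (Real.log 2) := (Real.exp_log (by norm_num)).symm
    rw [h9]
    nth_rewrite 2 [h10]
    rw [← Real.exp_add]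
    refine Real.exp_le_exp.2 ?_
    have h11 : 0 ≤ Real.log 2 := Real.log_nonneg (by norm_num)
    have h12 : Real.log 2 / (L + 1) * sn (x - y) ≤ Real.log 2 * (n + 1) := by
      rw [div_mul_eq_mul_div, div_le_iff₀ (by positivity)]
      nlinarith
    linarith
  calc ((1 : ℝ) / 2) ^ n * Tm.toReal
      ≤ 2 * Real.exp (-(Real.log 2 / (L + 1) * sn (x - y))) * Tm.toReal :=
        mul_le_mul_of_nonneg_right h6 (by linarith)
    _ = _ := by ring

end Pool.Agent.Helper3.Crit
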