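import Pool.Agent.Helper3.Crit.ProcLLN

/-! The shape argument in probability. -/

open MeasureTheory Set Filter Topology
open scoped ENNReal NNReal

noncomputable section

namespace Pool.Agent.Helper3.Crit

open Pool.Agent.Helper3.Anderson

variable {d : ℕ} {μ : Measure ℝ} [IsProbabilityMeasure μ] {M lam : ℝ} {K : ℝ≥0}

lemma markov_real {f : (Site d → ℝ) → ℝ≥0∞} (hf : Measurable f) {C : ℝ≥0∞} (hC : C ≠ ⊤)
    (hle : ∫⁻ ω, f ω ∂(PP d μ) ≤ C) {t : ℝ} {S : Set (Site d → ℝ)}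
    (hS : ∀ ω ∈ S, ENNReal.ofReal (Real.exp t) ≤ f ω) :
    (PP d μ).real S ≤ Real.exp (-t) * C.toReal := by
  have h1 := mul_meas_ge_le_lintegral (μ := PP d μ) hf (ENNReal.ofReal (Real.exp t))
  have h2 : ENNReal.ofReal (Real.exp t) * (PP d μ) S ≤ C :=
    (mul_le_mul_right (measure_mono hS) _).trans (h1.trans hle)
  have h3 := ENNReal.toReal_mono hC h2
  rw [ENNReal.toReal_mul, ENNReal.toReal_ofReal (Real.exp_pos t).le] at h3
  have h4 : (PP d μ).real S = ((PP d μ) S).toReal := rfl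
  rw [h4, Real.exp_neg, ← div_eq_inv_mul, le_div_iff₀ (Real.exp_pos t)]
  linarith

namespace Proc

variable {z : ℂ} {B : ℝ} {g : Site d → Site d → (Site d → ℝ) → ℂ}

/-- real constant for the negative moments -/
def C5r (d : ℕ) (M lam : ℝ) (K : ℝ≥0) (B : ℝ) : ℝ := max 1 (C5 d M lam K B).toReal

lemma tail_neg (hp : Proc μ M lam K z B g) (hB0 : 0 ≤ B) (x y : Site d) (t : ℝ) {k : ℕ}
    (hk : l1 (y - x) ≤ k) :
    (PP d μ).real {ω | ‖g x y ω‖ ≤ Real.exp (-t)}
      ≤ Real.exp (-(t / 2)) * C5r d M lam K B ^ (k + 1) := by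
  have h1 := markov_real (μ := μ) (S := {ω | ‖g x y ω‖ ≤ Real.exp (-t)}) (t := t / 2)
    ((hp.meas x y).enorm.pow_const (-(1/2 : ℝ)))
    (ENNReal.pow_ne_top (C5_ne_top d M lam K hB0)) (hp.neg x y) ?_
  · refine h1.trans (mul_le_mul_of_nonneg_left ?_ (Real.exp_pos _).le)
    rw [ENNReal.toReal_pow]
    calc (C5 d M lam K B).toReal ^ (l1 (y - x) + 1) ≤ C5r d M lam K B ^ (l1 (y - x) + 1) :=
          pow_le_pow_left₀ ENNReal.toReal_nonneg (le_max_right _ _) _
      _ ≤ C5r d M lam K B ^ (k + 1) := pow_le_pow_right₀ (le_max_left _ _) (by omega)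
  · intro ω hω
    have hω' : ‖g x y ω‖ₑ ≤ ENNReal.ofReal (Real.exp (-t)) := by
      rw [← ofReal_norm]; exact ENNReal.ofReal_le_ofReal hω
    calc ENNReal.ofReal (Real.exp (t / 2))
        = (ENNReal.ofReal (Real.exp (-t))) ^ (-(1/2 : ℝ)) := by
          rw [ENNReal.ofReal_rpow_of_pos (Real.exp_pos _), ← Real.exp_mul]
          congr 2; ring
      _ ≤ ‖g x y ω‖ₑ ^ (-(1/2 : ℝ)) := by
          rw [ENNReal.rpow_neg, ENNReal.rpow_neg, ENNReal.inv_le_inv]
          exact ENNReal.rpow_le_rpow hω' (by norm_num)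

lemma tail_T (hp : Proc μ M lam K z B g) (x u y : Site d) (t : ℝ) :
    (PP d μ).real {ω | Real.exp t ≤ T g x u y ω} ≤ Real.exp (-(t / 4)) * (C2 M lam K).toReal := by
  refine markov_real (μ := μ) (t := t / 4)
    (f := fun ω => ENNReal.ofReal (T g x u y ω ^ (1/4 : ℝ)))
    ((hp.meas_T x u y).pow_const _).ennreal_ofReal (C2_ne_top M K) (hp.lintegral_T x u y) ?_
  intro ω hω
  refine ENNReal.ofReal_le_ofReal ?_
  calc Real.exp (t / 4) = Real.exp t ^ (1/4 : ℝ) := by
        rw [← Real.exp_mul]; congr 1; ring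
    _ ≤ _ := Real.rpow_le_rpow (Real.exp_pos _).le hω (by norm_num)

lemma tail_pos (hp : Proc μ M lam K z B g) (x y : Site d) (t : ℝ) :
    (PP d μ).real {ω | Real.exp t ≤ ‖g x y ω‖}
      ≤ Real.exp (-(t / 4)) * (2 * (C2 M lam K).toReal) := by
  have h1 := markov_real (μ := μ) (S := {ω | Real.exp t ≤ ‖g x y ω‖}) (t := t / 4)
    ((hp.meas x y).enorm.pow_const (1/4 : ℝ))
    (ENNReal.mul_ne_top (by norm_num) (C2_ne_top M K)) (hp.pos x y) ?_
  · rw [ENNReal.toReal_mul] at h1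
    simpa using h1
  · intro ω hω
    calc ENNReal.ofReal (Real.exp (t / 4))
        = (ENNReal.ofReal (Real.exp t)) ^ (1/4 : ℝ) := by
          rw [ENNReal.ofReal_rpow_of_pos (Real.exp_pos _), ← Real.exp_mul]
          congr 2; ring
      _ ≤ ‖g x y ω‖ₑ ^ (1/4 : ℝ) := by
          refine ENNReal.rpow_le_rpow ?_ (by norm_num)
          rw [← ofReal_norm]; exact ENNReal.ofReal_le_ofReal hω

end Proc

lemma sn_nsmul (n : ℕ) (v : Site d) : sn (n • v) = n * sn v := by
  have e : ∀ i, ((n • v) i).natAbs = n * (v i).natAbs := fun i => by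
    rw [Pi.smul_apply, nsmul_eq_mul, Int.natAbs_mul, Int.natAbs_natCast]
  refine le_antisymm (sn_le_iff.2 fun i => ?_) ?_
  · rw [e]; exact Nat.mul_le_mul_left _ (le_sn v i)
  · rcases Nat.eq_zero_or_pos n with rfl | hn
    · simp
    · rw [mul_comm, ← Nat.le_div_iff_mul_le hn]
      refine sn_le_iff.2 fun i => ?_
      rw [Nat.le_div_iff_mul_le hn, mul_comm, ← e]
      exact le_sn _ i

/-- componentwise floor division -/
def fl (n : ℕ) (y : Site d) : Site d := fun i => y i / (n : ℤ)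

lemma sn_sub_fl {n : ℕ} (hn : 0 < n) (y : Site d) : sn (y - n • fl n y) ≤ n - 1 := by
  refine sn_le_iff.2 fun i => ?_
  have e : (y - n • fl n y) i = y i % (n : ℤ) := by
    have h0 : (y - n • fl n y) i = y i - n * (y i / (n : ℤ)) := by
      simp [fl]
    have := Int.emod_add_mul_ediv (y i) (n : ℤ)
    rw [h0]
    linarith
  rw [e]
  have h1 := Int.emod_nonneg (y i) (show (n : ℤ) ≠ 0 by exact_mod_cast hn.ne')
  have h2 := Int.emod_lt_of_pos (y i) (show (0 : ℤ) < n by exact_mod_cast hn)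
  omega

lemma sn_fl_le {n q : ℕ} (hn : 0 < n) {y : Site d} (hy : sn y ≤ q * n + 1) : sn (fl n y) ≤ q + 1 := by
  refine sn_le_iff.2 fun i => ?_
  have h1 := le_sn y i
  have h2 : (y i).natAbs ≤ q * n + 1 := h1.trans hy
  have h3 : (0 : ℤ) < n := by exact_mod_cast hn
  have h4 : -((q : ℤ) * n + 1) ≤ y i ∧ y i ≤ (q : ℤ) * n + 1 := by
    constructor <;> zify at h2 <;> rw [abs_le] at h2 <;> omega
  have h5 : y i / (n : ℤ) ≤ q + 1 := by
    apply Int.le_of_lt_add_one
    rw [Int.ediv_lt_iff_lt_mul h3]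
    nlinarith
  have h6 : -((q : ℤ) + 1) ≤ y i / (n : ℤ) := by
    rw [Int.le_ediv_iff_mul_le h3]
    nlinarith
  show (y i / (n : ℤ)).natAbs ≤ q + 1
  omega

lemma poly_exp_small (q p : ℕ) (D : ℝ) {c : ℝ} (hc : 0 < c) :
    Tendsto (fun n : ℕ => ((2 * (q * n + 1) + 1 : ℕ) : ℝ) ^ p * (D * Real.exp (-(c * n)))) atTop
      (𝓝 0) := by
  have h1 : Tendsto (fun n : ℕ => (c * n) ^ p * Real.exp (-(c * n))) atTop (𝓝 0) :=
    (Real.tendsto_pow_mul_exp_neg_atTop_nhds_zero p).comp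
      ((tendsto_natCast_atTop_atTop).const_mul_atTop hc)
  have h2 := h1.const_mul ((2 * q + 3 : ℝ) ^ p / c ^ p * |D|)
  rw [mul_zero] at h2
  refine squeeze_zero_norm' ?_ h2
  filter_upwards [eventually_ge_atTop 1] with n hn
  have hn' : (1 : ℝ) ≤ n := by exact_mod_cast hn
  rw [norm_mul, norm_mul, Real.norm_eq_abs, Real.norm_eq_abs, Real.norm_eq_abs,
    abs_of_nonneg (by positivity : (0 : ℝ) ≤ ((2 * (q * n + 1) + 1 : ℕ) : ℝ) ^ p),
    abs_of_pos (Real.exp_pos _)]
  have h3 : ((2 * (q * n + 1) + 1 : ℕ) : ℝ) ^ p ≤ ((2 * q + 3) * n) ^ p := by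
    refine pow_le_pow_left₀ (by positivity) ?_ p
    push_cast; nlinarith
  have h4 : (2 * q + 3 : ℝ) ^ p / c ^ p * |D| * ((c * n) ^ p * Real.exp (-(c * n)))
      = ((2 * q + 3) * n) ^ p * (|D| * Real.exp (-(c * n))) := by
    rw [mul_pow, mul_pow]
    have : c ^ p ≠ 0 := (pow_pos hc p).ne'
    field_simp
  rw [h4]
  exact mul_le_mul_of_nonneg_right h3 (by positivity)

namespace Proc

variable {z : ℂ} {B : ℝ} {g : Site d → Site d → (Site d → ℝ) → ℂ}

/-- **Shape argument**: with high probability, the Green function from the core to the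
boundary of a large box is exponentially small, simultaneously for all pairs. -/
theorem shape (hp : Proc μ M lam K z B g) (hB0 : 0 ≤ B) {m Cd : ℝ} (hm : 0 < m)
    (hc : ∀ v : Site d, m * sn v - Cd ≤ en μ g v) {a0 : ℝ} (ha0 : 0 < a0) (L0 : ℕ) :
    ∃ L ≥ L0, (PP d μ).real {ω | ∃ y u : Site d, 4 * sn y ≤ L ∧ L ≤ sn u ∧ sn u ≤ L + 1 ∧
      Real.exp (-(m / 2 * L)) ≤ ‖g y u ω‖} ≤ a0 := by
  classical
  set C5' := C5r d M lam K B with hC5'
  have hC51 : 1 ≤ C5' := le_max_left _ _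
  have hC50 : 0 < C5' := by linarith
  set C2' := (C2 M lam K).toReal with hC2'
  have hC20 : 0 ≤ C2' := ENNReal.toReal_nonneg
  -- parameters
  set A : ℝ := 2 * ((d + 1) * Real.log C5' + 1) with hA
  have hlogC : 0 ≤ Real.log C5' := Real.log_nonneg hC51
  have hA0 : 0 < A := by positivity
  obtain ⟨q, hq⟩ := exists_nat_gt (4 * (6 * m + 2 * A) / m)
  have hq' : 4 * (6 * m + 2 * A) < q * m := by rwa [div_lt_iff₀ hm] at hq
  have hq4 : 4 ≤ q := by
    by_contra h
    have : (q : ℝ) ≤ 4 := by exact_mod_cast (not_le.1 h).le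
    nlinarith only [this, hq', hm, hA0]
  -- the directions
  set Bx : Finset (Site d) := box 0 (q + 1) with hBx
  set Pr : Finset (Site d × Site d) := (Bx ×ˢ Bx).filter fun p => p.1 ≠ p.2 with hPr
  set cP : ℝ := Pr.card + 1 with hcP
  have hcP0 : 0 < cP := by positivity
  have ha1 : 0 < a0 / (2 * cP) := by positivity
  have hdir : ∀ p : Site d × Site d, ∃ n1 : ℕ, p ∈ Pr → ∀ n0 ≥ n1, ∀ᶠ N : ℕ in atTop,
      (PP d μ).real {ω | Real.exp (-(((N + 1 : ℕ) * n0) * (m * sn (p.1 - p.2) - m)))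
        ≤ ‖g (((N + 1) * n0) • (p.1 - p.2)) 0 ω‖} ≤ a0 / (2 * cP) := by
    intro p
    by_cases hpm : p ∈ Pr
    · have hne : p.1 - p.2 ≠ 0 := sub_ne_zero.2 (Finset.mem_filter.1 hpm).2
      obtain ⟨n1, hn1⟩ := hp.lln hB0 hne (c := m * sn (p.1 - p.2)) (Cd := Cd) (fun n => by
        have h1 := hc (n • (p.1 - p.2))
        rw [sn_nsmul] at h1
        push_cast at h1
        linarith) hm ha1
      exact ⟨n1, fun _ => hn1⟩
    · exact ⟨0, fun h => absurd h hpm⟩
  choose n1 hn1 using hdir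
  set n0 : ℕ := max 1 (Pr.sup n1) with hn0
  have hn01 : 1 ≤ n0 := le_max_left _ _
  have ev1 : ∀ᶠ N : ℕ in atTop, ∀ p ∈ Pr,
      (PP d μ).real {ω | Real.exp (-(((N + 1 : ℕ) * n0) * (m * sn (p.1 - p.2) - m)))
        ≤ ‖g (((N + 1) * n0) • (p.1 - p.2)) 0 ω‖} ≤ a0 / (2 * cP) :=
    (Filter.eventually_all_finset _).2 fun p hpm =>
      hn1 p hpm n0 ((Finset.le_sup hpm).trans (le_max_right _ _))
  have hnt : Tendsto (fun N : ℕ => (N + 1) * n0) atTop atTop := by
    refine tendsto_atTop_mono (fun N => ?_) tendsto_id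
    simp only [id]
    exact (Nat.le_succ N).trans (Nat.le_mul_of_pos_right _ hn01)
  have ev2 := ((poly_exp_small q d 2 one_pos).comp hnt).add
    ((poly_exp_small q (2 * d) (2 * C2') (show 0 < m / 4 by positivity)).comp hnt)
  rw [add_zero] at ev2
  have ev3 := (tendsto_order.1 ev2).2 (a0 / 2) (by positivity)
  obtain ⟨N, hN1, hN3, hN4⟩ := (ev1.and (ev3.and (eventually_ge_atTop L0))).exists
  set n : ℕ := (N + 1) * n0 with hn
  have hnpos : 0 < n := by positivity
  have hn1' : 1 ≤ n := hnpos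
  have hnN : N ≤ n := (Nat.le_succ N).trans (Nat.le_mul_of_pos_right _ hn01)
  refine ⟨q * n, hN4.trans (hnN.trans (Nat.le_mul_of_pos_left _ (by omega))), ?_⟩
  simp only [Function.comp] at hN3
  rw [← hn] at hN3
  set Bn : Finset (Site d) := box 0 (q * n + 1) with hBn
  have hBncard : (Bn.card : ℝ) = ((2 * (q * n + 1) + 1 : ℕ) : ℝ) ^ d := by
    rw [hBn, card_box]; push_cast; ring
  set Vn : ℝ := ((2 * (q * n + 1) + 1 : ℕ) : ℝ) ^ d with hVn
  -- events
  set U1 : Set (Site d → ℝ) := ⋃ p ∈ Pr, {ω | Real.exp (-(n * (m * sn (p.1 - p.2) - m)))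
    ≤ ‖g (n • p.1) (n • p.2) ω‖} with hU1
  set U2 : Set (Site d → ℝ) := ⋃ y ∈ Bn, {ω | ‖g (n • fl n y) y ω‖ ≤ Real.exp (-(A * n))} with hU2
  set U3 : Set (Site d → ℝ) := ⋃ u ∈ Bn, {ω | ‖g u (n • fl n u) ω‖ ≤ Real.exp (-(A * n))} with hU3
  set U4 : Set (Site d → ℝ) := ⋃ p ∈ Bn ×ˢ Bn,
    {ω | Real.exp (m * n) ≤ T g (n • fl n p.1) p.1 (n • fl n p.2) ω} with hU4
  set U5 : Set (Site d → ℝ) := ⋃ p ∈ Bn ×ˢ Bn,
    {ω | Real.exp (m * n) ≤ T g p.1 p.2 (n • fl n p.2) ω} with hU5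
  set U6 : Set (Site d → ℝ) := {ω | ¬ ∀ x y, g x y ω ≠ 0} with hU6
  have b1 : (PP d μ).real U1 ≤ a0 / 2 := by
    calc (PP d μ).real U1 ≤ ∑ p ∈ Pr, (PP d μ).real {ω | Real.exp (-(n * (m * sn (p.1 - p.2) - m)))
            ≤ ‖g (n • p.1) (n • p.2) ω‖} := measureReal_biUnion_finset_le _ _
      _ ≤ ∑ p ∈ Pr, a0 / (2 * cP) := by
          refine Finset.sum_le_sum fun p hpm => ?_
          have h1 := hN1 p hpm
          have h2 : (PP d μ).real {ω | Real.exp (-(n * (m * sn (p.1 - p.2) - m)))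
              ≤ ‖g (n • p.1) (n • p.2) ω‖}
              = (PP d μ).real {ω | Real.exp (-(n * (m * sn (p.1 - p.2) - m)))
              ≤ ‖g (n • (p.1 - p.2)) 0 ω‖} := by
            have hmp := measurePreserving_tr (μ := μ) (n • p.2)
            have hms : MeasurableSet {ω | Real.exp (-(n * (m * sn (p.1 - p.2) - m)))
                ≤ ‖g (n • (p.1 - p.2)) 0 ω‖} :=
              measurableSet_le measurable_const (hp.meas _ _).norm
            rw [measureReal_def, measureReal_def, ← hmp.measure_preimage hms.nullMeasurableSet]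
            congr 2
            ext ω
            simp only [mem_ofPred_eq, mem_preimage]
            rw [hp.tr, zero_add, ← smul_add, sub_add_cancel]
          rw [h2]
          have e : (((N + 1 : ℕ) : ℝ) * n0) = (n : ℝ) := by rw [hn]; push_cast; ring
          rw [e] at h1
          exact h1
      _ = Pr.card * (a0 / (2 * cP)) := by rw [Finset.sum_const, nsmul_eq_mul]
      _ ≤ a0 / 2 := by
          rw [mul_div_assoc', div_le_div_iff₀ (by positivity) (by norm_num), hcP]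
          nlinarith only [ha0]
  have hexp : Real.exp (-(A * n / 2)) * C5' ^ (d * n + 1) ≤ Real.exp (-(1 * n)) := by
    have h1 : C5' ^ (d * n + 1) = Real.exp ((d * n + 1 : ℕ) * Real.log C5') := by
      rw [← Real.rpow_natCast, Real.rpow_def_of_pos hC50, mul_comm]
    rw [h1, ← Real.exp_add]
    refine Real.exp_le_exp.2 ?_
    rw [hA]
    push_cast
    have h2 : (1 : ℝ) ≤ n := by exact_mod_cast hn1'
    nlinarith only [h2, hlogC, hA0, mul_nonneg hlogC (sub_nonneg.2 h2)]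
  have b2 : (PP d μ).real U2 ≤ Vn * Real.exp (-(1 * n)) := by
    calc (PP d μ).real U2 ≤ ∑ y ∈ Bn, (PP d μ).real {ω | ‖g (n • fl n y) y ω‖
            ≤ Real.exp (-(A * n))} := measureReal_biUnion_finset_le _ _
      _ ≤ ∑ y ∈ Bn, Real.exp (-(1 * n)) := by
          refine Finset.sum_le_sum fun y _ => ?_
          refine (hp.tail_neg hB0 _ _ (A * n) (k := d * n) ?_).trans hexp
          refine (l1_le_sn _).trans (Nat.mul_le_mul_left _ ?_)
          exact (sn_sub_fl hnpos y).trans (Nat.sub_le _ _)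
      _ = _ := by rw [Finset.sum_const, nsmul_eq_mul, hBncard]
  have b3 : (PP d μ).real U3 ≤ Vn * Real.exp (-(1 * n)) := by
    calc (PP d μ).real U3 ≤ ∑ y ∈ Bn, (PP d μ).real {ω | ‖g y (n • fl n y) ω‖
            ≤ Real.exp (-(A * n))} := measureReal_biUnion_finset_le _ _
      _ ≤ ∑ y ∈ Bn, Real.exp (-(1 * n)) := by
          refine Finset.sum_le_sum fun y _ => ?_
          refine (hp.tail_neg hB0 _ _ (A * n) (k := d * n) ?_).trans hexp
          rw [l1_sub_comm]
          refine (l1_le_sn _).trans (Nat.mul_le_mul_left _ ?_)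
          exact (sn_sub_fl hnpos y).trans (Nat.sub_le _ _)
      _ = _ := by rw [Finset.sum_const, nsmul_eq_mul, hBncard]
  have hcard2 : (((Bn ×ˢ Bn).card : ℕ) : ℝ) = Vn * Vn := by
    rw [Finset.card_product]; push_cast; rw [hBncard]
  have b4 : (PP d μ).real U4 ≤ Vn * Vn * (Real.exp (-(m / 4 * n)) * C2') := by
    calc (PP d μ).real U4 ≤ ∑ p ∈ Bn ×ˢ Bn, (PP d μ).real {ω | Real.exp (m * n)
            ≤ T g (n • fl n p.1) p.1 (n • fl n p.2) ω} := measureReal_biUnion_finset_le _ _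
      _ ≤ ∑ p ∈ Bn ×ˢ Bn, Real.exp (-(m / 4 * n)) * C2' := by
          refine Finset.sum_le_sum fun p _ => ?_
          have := hp.tail_T (n • fl n p.1) p.1 (n • fl n p.2) (m * n)
          rwa [show m * (n : ℝ) / 4 = m / 4 * n by ring] at this
      _ = _ := by rw [Finset.sum_const, nsmul_eq_mul, hcard2]
  have b5 : (PP d μ).real U5 ≤ Vn * Vn * (Real.exp (-(m / 4 * n)) * C2') := by
    calc (PP d μ).real U5 ≤ ∑ p ∈ Bn ×ˢ Bn, (PP d μ).real {ω | Real.exp (m * n)
            ≤ T g p.1 p.2 (n • fl n p.2) ω} := measureReal_biUnion_finset_le _ _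
      _ ≤ ∑ p ∈ Bn ×ˢ Bn, Real.exp (-(m / 4 * n)) * C2' := by
          refine Finset.sum_le_sum fun p _ => ?_
          have := hp.tail_T p.1 p.2 (n • fl n p.2) (m * n)
          rwa [show m * (n : ℝ) / 4 = m / 4 * n by ring] at this
      _ = _ := by rw [Finset.sum_const, nsmul_eq_mul, hcard2]
  have b6 : (PP d μ).real U6 = 0 := by
    have : ∀ᵐ ω ∂(PP d μ), ∀ x y, g x y ω ≠ 0 := by
      rw [ae_all_iff]; intro x
      rw [ae_all_iff]; intro y
      exact hp.ae_ne_zero hB0 x y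
    rw [measureReal_def, hU6]
    have h1 : (PP d μ) {ω | ¬ ∀ x y, g x y ω ≠ 0} = 0 := this
    rw [h1]; rfl
  have hsubset : {ω | ∃ y u : Site d, 4 * sn y ≤ q * n ∧ q * n ≤ sn u ∧ sn u ≤ q * n + 1 ∧
      Real.exp (-(m / 2 * (q * n : ℕ))) ≤ ‖g y u ω‖} ⊆ U1 ∪ U2 ∪ U3 ∪ U4 ∪ U5 ∪ U6 := by
    rintro ω ⟨y, u, hy, hu1, hu2, hge⟩
    by_contra hcon
    simp only [mem_union, not_or] at hcon
    obtain ⟨⟨⟨⟨⟨k1, k2⟩, k3⟩, k4⟩, k5⟩, k6⟩ := hcon
    simp only [hU1, hU2, hU3, hU4, hU5, hU6, mem_iUnion, mem_ofPred_eq, exists_prop, not_exists,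
      not_and, not_le, not_not] at k1 k2 k3 k4 k5 k6
    have hyB : y ∈ Bn := by rw [hBn, mem_box, sub_zero]; omega
    have huB : u ∈ Bn := by rw [hBn, mem_box, sub_zero]; omega
    set a := fl n y with ha
    set b := fl n u with hb
    have hay := sn_sub_fl hnpos y
    have hbu := sn_sub_fl hnpos u
    rw [← ha] at hay
    rw [← hb] at hbu
    -- s = sn (a - b)
    have htri : sn u ≤ sn y + (2 * (n - 1) + n * sn (a - b)) := by
      have e : u = y + ((u - n • b) + (n • a - y) + -(n • (a - b))) := by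
        rw [smul_sub]; abel
      calc sn u = sn (y + ((u - n • b) + (n • a - y) + -(n • (a - b)))) := by rw [← e]
        _ ≤ sn y + sn ((u - n • b) + (n • a - y) + -(n • (a - b))) := sn_add_le _ _
        _ ≤ sn y + (sn ((u - n • b) + (n • a - y)) + sn (-(n • (a - b)))) := by
            gcongr; exact sn_add_le _ _
        _ ≤ sn y + ((sn (u - n • b) + sn (n • a - y)) + sn (-(n • (a - b)))) := by
            gcongr; exact sn_add_le _ _
        _ ≤ _ := by
            rw [sn_neg, sn_nsmul, sn_sub_comm (n • a) y]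
            omega
    have hs4 : 3 * (q * n) ≤ 4 * (2 * (n - 1) + n * sn (a - b)) := by omega
    have hab : a ≠ b := by
      intro h
      rw [h, sub_self, sn_zero, mul_zero, add_zero] at hs4
      have : 4 * n ≤ q * n := Nat.mul_le_mul_right n hq4
      omega
    have haB : a ∈ Bx := by
      rw [hBx, mem_box, sub_zero]; exact sn_fl_le hnpos (by omega)
    have hbB : b ∈ Bx := by
      rw [hBx, mem_box, sub_zero]; exact sn_fl_le hnpos hu2
    have hpair : (a, b) ∈ Pr := by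
      rw [hPr, Finset.mem_filter, Finset.mem_product]
      exact ⟨⟨haB, hbB⟩, hab⟩
    have c1 := k1 (a, b) hpair
    have c2 := k2 y hyB
    have c3 := k3 u huB
    have c4 := k4 (y, u) (Finset.mem_product.2 ⟨hyB, huB⟩)
    have c5 := k5 (y, u) (Finset.mem_product.2 ⟨hyB, huB⟩)
    simp only at c1 c4 c5
    rw [← ha] at c2 c4
    rw [← hb] at c3 c4 c5
    have n1 : 0 < ‖g (n • a) (n • b) ω‖ := norm_pos_iff.2 (k6 _ _)
    have n2 : 0 < ‖g y (n • b) ω‖ := norm_pos_iff.2 (k6 _ _)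
    unfold T at c4 c5
    rw [div_lt_iff₀ n1] at c4
    rw [div_lt_iff₀ n2] at c5
    set s : ℝ := (sn (a - b) : ℝ) with hs
    -- combine
    have d1 : ‖g y (n • b) ω‖ < Real.exp (A * n) * (Real.exp (m * n) * ‖g (n • a) (n • b) ω‖) := by
      have h1 : Real.exp (-(A * n)) * ‖g y (n • b) ω‖ < Real.exp (m * n) * ‖g (n • a) (n • b) ω‖ :=
        lt_of_le_of_lt (mul_le_mul_of_nonneg_right c2.le n2.le) c4
      have h2 := mul_lt_mul_of_pos_left h1 (Real.exp_pos (A * n))
      rwa [← mul_assoc, ← Real.exp_add, add_neg_cancel, Real.exp_zero, one_mul] at h2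
    have n3 : 0 < ‖g y u ω‖ := norm_pos_iff.2 (k6 _ _)
    have d2 : ‖g y u ω‖ < Real.exp (A * n) * (Real.exp (m * n) * ‖g y (n • b) ω‖) := by
      have h1 : Real.exp (-(A * n)) * ‖g y u ω‖ < Real.exp (m * n) * ‖g y (n • b) ω‖ := by
        refine lt_of_le_of_lt ?_ c5
        rw [mul_comm]
        exact mul_le_mul_of_nonneg_left c3.le n3.le
      have h2 := mul_lt_mul_of_pos_left h1 (Real.exp_pos (A * n))
      rwa [← mul_assoc, ← Real.exp_add, add_neg_cancel, Real.exp_zero, one_mul] at h2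
    have d3 : ‖g y u ω‖ < Real.exp (-(m / 2 * (q * n : ℕ))) := by
      have h1 : ‖g y u ω‖ < Real.exp (A * n) * (Real.exp (m * n) * (Real.exp (A * n)
          * (Real.exp (m * n) * Real.exp (-(n * (m * s - m)))))) := by
        refine d2.trans ?_
        refine mul_lt_mul_of_pos_left (mul_lt_mul_of_pos_left (d1.trans ?_) (Real.exp_pos _))
          (Real.exp_pos _)
        exact mul_lt_mul_of_pos_left (mul_lt_mul_of_pos_left c1 (Real.exp_pos _)) (Real.exp_pos _)
      refine h1.trans_le ?_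
      rw [← Real.exp_add, ← Real.exp_add, ← Real.exp_add, ← Real.exp_add]
      refine Real.exp_le_exp.2 ?_
      push_cast
      have hs5 : 3 * ((q : ℝ) * n) ≤ 4 * (2 * n + n * s) := by
        have : 3 * (q * n) ≤ 4 * (2 * n + n * sn (a - b)) := by omega
        rw [hs]
        exact_mod_cast this
      have hnr : (0 : ℝ) < n := by exact_mod_cast hnpos
      have hs6 : 3 * (q : ℝ) ≤ 4 * (2 + s) := by
        have : (3 * (q : ℝ)) * n ≤ (4 * (2 + s)) * n := by linarith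
        exact le_of_mul_le_mul_right this hnr
      have hs7 : A + m + A + m - (m * s - m) ≤ -(m / 2 * q) := by
        have := mul_le_mul_of_nonneg_left hs6 hm.le
        linarith
      have := mul_le_mul_of_nonneg_right hs7 hnr.le
      linarith
    exact absurd hge (not_le.2 d3)
  calc _ ≤ (PP d μ).real (U1 ∪ U2 ∪ U3 ∪ U4 ∪ U5 ∪ U6) := measureReal_mono hsubset
    _ ≤ (PP d μ).real U1 + (PP d μ).real U2 + (PP d μ).real U3 + (PP d μ).real U4
        + (PP d μ).real U5 + (PP d μ).real U6 := by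
        have e1 := measureReal_union_le (μ := PP d μ) (U1 ∪ U2 ∪ U3 ∪ U4 ∪ U5) U6
        have e2 := measureReal_union_le (μ := PP d μ) (U1 ∪ U2 ∪ U3 ∪ U4) U5
        have e3 := measureReal_union_le (μ := PP d μ) (U1 ∪ U2 ∪ U3) U4
        have e4 := measureReal_union_le (μ := PP d μ) (U1 ∪ U2) U3
        have e5 := measureReal_union_le (μ := PP d μ) U1 U2
        linarith
    _ ≤ a0 := by
        have e6 : Vn * Vn = ((2 * (q * n + 1) + 1 : ℕ) : ℝ) ^ (2 * d) := by
          rw [hVn, ← pow_add]; congr 1; ring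
        have e7 : Vn * (2 * Real.exp (-(1 * n)))
            + Vn * Vn * (2 * C2' * Real.exp (-(m / 4 * n))) < a0 / 2 := by
          rw [e6]; exact hN3
        linarith

end Proc

end Pool.Agent.Helper3.Crit
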