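import Pool.Agent.Helper3.Crit.SkelDefs2
import Pool.Agent.Helper3.Crit.Shape

/-! Decay of fractional moments implies a lower bound of the Lyapunov norm. -/

open scoped ENNReal NNReal InnerProductSpace
open MeasureTheory Set Filter Topology

noncomputable section

namespace Pool.Agent.Helper3.Crit

open Pool.Agent.Helper3.Anderson

variable {d : ℕ} {μ : Measure ℝ} [IsProbabilityMeasure μ] {M lam : ℝ} {K : ℝ≥0}

theorem LL_ge_of_fm (hμ : GoodLaw μ M K) (hlam : 0 < lam) {z : ℂ} (hz0 : 0 < z.im) {C c : ℝ}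
    (h : ∀ x : Site d, ∫⁻ ω, ‖gc M lam z ω x 0‖ₑ ^ (1 / 8 : ℝ) ∂(PP d μ)
      ≤ ENNReal.ofReal (C * Real.exp (-(c * sn x)))) (v : Site d) :
    8 * c * sn v ≤ LL μ M lam K z hμ hlam hz0 v := by
  have hM : 0 ≤ M := by linarith [hμ.one_le]
  have hmeas : ∀ x : Site d, Measurable fun ω : Site d → ℝ => ‖gc M lam z ω x 0‖ₑ ^ (1 / 8 : ℝ) :=
    fun x => (measurable_gc hM hz0 x 0).enorm.pow_const _
  have hconv : ∀ (x : Site d) (ω : Site d → ℝ), ‖gc M lam z ω x 0‖ₑ ^ (1 / 8 : ℝ)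
      = ENNReal.ofReal (‖gc M lam z ω x 0‖ ^ (1 / 8 : ℝ)) := by
    intro x ω
    rw [← ofReal_norm, ENNReal.ofReal_rpow_of_nonneg (norm_nonneg _) (by norm_num)]
  -- positivity of the constant
  have hC : 0 < C := by
    by_contra hC
    have h0 : ∫⁻ ω, ‖gc M lam z ω 0 0‖ₑ ^ (1 / 8 : ℝ) ∂(PP d μ) = 0 := by
      have h1 := h 0
      have h2 : C * Real.exp (-(c * sn (0 : Site d))) ≤ 0 :=
        mul_nonpos_of_nonpos_of_nonneg (not_lt.1 hC) (Real.exp_pos _).le
      rw [ENNReal.ofReal_of_nonpos h2] at h1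
      exact le_antisymm h1 bot_le
    rw [lintegral_eq_zero_iff (hmeas 0)] at h0
    have h1 : ∀ᵐ _ω ∂(PP d μ), False := by
      filter_upwards [h0, (good_all (K := K) hμ hlam hz0 (0 : Site d) 0).1] with ω hω h2
      have h3 : ‖gc M lam z ω 0 0‖ₑ ^ (1 / 8 : ℝ) = 0 := hω
      rw [ENNReal.rpow_eq_zero_iff] at h3
      rcases h3 with h3 | h3
      · exact h2 (enorm_eq_zero.1 h3.1)
      · exact enorm_ne_top h3.1
    have h2 : ∃ _ω : Site d → ℝ, False := h1.exists
    exact h2.elim fun _ h => h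
  have huu : ∀ x : Site d, uu μ M lam z x ≤ 8 * (Real.log C - c * sn x) := by
    intro x
    set T : ℝ := C * Real.exp (-(c * sn x)) with hT
    have hT0 : 0 < T := mul_pos hC (Real.exp_pos _)
    have hlogT : Real.log T = Real.log C - c * sn x := by
      rw [hT, Real.log_mul hC.ne' (Real.exp_pos _).ne', Real.log_exp]; ring
    have hfin : ∫⁻ ω, ENNReal.ofReal (‖gc M lam z ω x 0‖ ^ (1 / 8 : ℝ)) ∂(PP d μ)
        ≤ ENNReal.ofReal T := by
      refine le_trans (le_of_eq ?_) (h x)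
      exact lintegral_congr fun ω => (hconv x ω).symm
    have hm : Measurable fun ω : Site d → ℝ => ‖gc M lam z ω x 0‖ ^ (1 / 8 : ℝ) :=
      (measurable_gc hM hz0 x 0).norm.pow_const _
    have hnn : ∀ ω : Site d → ℝ, 0 ≤ ‖gc M lam z ω x 0‖ ^ (1 / 8 : ℝ) := fun ω =>
      Real.rpow_nonneg (norm_nonneg _) _
    have hint : Integrable (fun ω : Site d → ℝ => ‖gc M lam z ω x 0‖ ^ (1 / 8 : ℝ)) (PP d μ) := by
      refine ⟨hm.aestronglyMeasurable, ?_⟩
      rw [hasFiniteIntegral_iff_ofReal (Eventually.of_forall hnn)]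
      exact lt_of_le_of_lt hfin ENNReal.ofReal_lt_top
    have hle : ∫ ω, ‖gc M lam z ω x 0‖ ^ (1 / 8 : ℝ) ∂(PP d μ) ≤ T := by
      rw [integral_eq_lintegral_of_nonneg_ae (Eventually.of_forall hnn) hm.aestronglyMeasurable]
      exact ENNReal.toReal_le_of_le_ofReal hT0.le hfin
    have hpt : ∀ᵐ ω ∂(PP d μ), Real.log ‖gc M lam z ω x 0‖
        ≤ 8 * (Real.log T + ‖gc M lam z ω x 0‖ ^ (1 / 8 : ℝ) / T - 1) := by
      filter_upwards [(good_all (K := K) hμ hlam hz0 x 0).1] with ω hω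
      have hn : 0 < ‖gc M lam z ω x 0‖ := norm_pos_iff.2 hω
      have hs : 0 < ‖gc M lam z ω x 0‖ ^ (1 / 8 : ℝ) := Real.rpow_pos_of_pos hn _
      have h1 : Real.log (‖gc M lam z ω x 0‖ ^ (1 / 8 : ℝ))
          = 1 / 8 * Real.log ‖gc M lam z ω x 0‖ := Real.log_rpow hn _
      have h2 := Real.log_le_sub_one_of_pos (div_pos hs hT0)
      rw [Real.log_div hs.ne' hT0.ne', h1] at h2
      linarith
    have hint2 : Integrable (fun ω : Site d → ℝ =>
        8 * (Real.log T + ‖gc M lam z ω x 0‖ ^ (1 / 8 : ℝ) / T - 1)) (PP d μ) :=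
      (((integrable_const _).add (hint.div_const T)).sub (integrable_const _)).const_mul 8
    have h3 : uu μ M lam z x
        ≤ ∫ ω, 8 * (Real.log T + ‖gc M lam z ω x 0‖ ^ (1 / 8 : ℝ) / T - 1) ∂(PP d μ) :=
      integral_mono_ae (integrable_log (K := K) hμ hlam hz0 x 0) hint2 hpt
    have h4 : ∫ ω, 8 * (Real.log T + ‖gc M lam z ω x 0‖ ^ (1 / 8 : ℝ) / T - 1) ∂(PP d μ)
        = 8 * (Real.log T + (∫ ω, ‖gc M lam z ω x 0‖ ^ (1 / 8 : ℝ) ∂(PP d μ)) / T - 1) := by
      have e1 : Integrable (fun ω : Site d → ℝ =>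
          Real.log T + ‖gc M lam z ω x 0‖ ^ (1 / 8 : ℝ) / T) (PP d μ) :=
        (integrable_const _).add (hint.div_const T)
      rw [integral_const_mul, integral_sub e1 (integrable_const _),
        integral_add (integrable_const _) (hint.div_const T), integral_div]
      simp
    rw [h4] at h3
    have h5 : (∫ ω, ‖gc M lam z ω x 0‖ ^ (1 / 8 : ℝ) ∂(PP d μ)) / T ≤ 1 := by
      rw [div_le_one hT0]; exact hle
    rw [hlogT] at h3
    linarith
  have hlim := tendsto_LL hμ hlam hz0 v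
  have hlow : Tendsto (fun n : ℕ => 8 * c * sn v - 8 * Real.log C / (n : ℝ)) atTop
      (𝓝 (8 * c * sn v)) := by
    have h1 := (tendsto_const_div_atTop_nhds_zero_nat (8 * Real.log C)).const_sub (8 * c * sn v)
    rwa [sub_zero] at h1
  refine le_of_tendsto_of_tendsto hlow hlim ?_
  filter_upwards [eventually_gt_atTop 0] with n hn
  have hn' : (0 : ℝ) < n := by exact_mod_cast hn
  have h1 := huu (n • v)
  rw [sn_nsmul] at h1
  push_cast at h1
  have h2 : 8 * c * sn v - 8 * Real.log C / (n : ℝ)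
      = (8 * c * (n * sn v) - 8 * Real.log C) / n := by
    field_simp
  rw [h2]
  gcongr
  linarith

end Pool.Agent.Helper3.Crit
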