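import Pool.Agent.Helper3.Crit.Fin
import Pool.Agent.Helper3.Crit.Shape

/-! Wegner type estimate for solutions in a box. -/

open scoped ENNReal NNReal
open MeasureTheory Set Filter Topology

noncomputable section

namespace Pool.Agent.Helper3.Crit

open Pool.Agent.Helper3.Anderson

variable {d : ℕ}

lemma sn_nbs_le {u w : Site d} (h : w ∈ nbs u) : sn (w - u) ≤ 1 := by
  have := sn_le_l1 (w - u)
  rw [l1_nbs h] at this
  exact this

/-- a neighbour outside of the box lies on the outer sphere -/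
lemma sn_outer {x0 u w : Site d} {L : ℕ} (hu : sn (u - x0) ≤ L) (hw : w ∈ nbs u)
    (hout : ¬ sn (w - x0) ≤ L) : sn (w - x0) = L + 1 := by
  have h1 := sn_nbs_le hw
  have h2 : sn (w - x0) ≤ sn (w - u) + sn (u - x0) := by
    have := sn_add_le (w - u) (u - x0)
    rwa [sub_add_sub_cancel] at this
  omega

/-- control of a solution by the finite volume Green function -/
lemma sol_bound {M lam : ℝ} {z : ℂ} (hz0 : 0 < z.im) (ω : Site d → ℝ) (x0 : Site d) (L : ℕ)
    {T : ℝ} (hT : ∀ x u, ‖Gf M lam z (box x0 L) ω x u‖ ≤ T) {ψ : Site d → ℂ} {b e : ℝ}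
    (hb0 : 0 ≤ b) (hb : ∀ y, sn (y - x0) = L + 1 → ‖ψ y‖ ≤ b)
    (he : ∀ u, sn (u - x0) ≤ L → ‖hop (potc M lam ω) z ψ u‖ ≤ e) (x : Site d)
    (hx : sn (x - x0) ≤ L) :
    ‖ψ x‖ ≤ ((2 * L + 1 : ℕ) : ℝ) ^ d * T * (2 * d * b + e) := by
  classical
  set Λ := box x0 L with hΛ
  set V := potc M lam ω with hV
  set φ : Λ → ℂ := fun u => ψ u with hφ
  set r : Λ → ℂ := fun u => hop V z ψ u
    + ∑ w ∈ (nbs (u : Site d)).filter (fun w => w ∉ Λ), ψ w with hr
  have hA := diss_HL Λ hz0
  have hD : ∀ x, x ∉ (∅ : Finset Λ) → (VL M lam Λ ω x).im ≤ 0 := fun w _ => by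
    unfold VL; rw [Complex.ofReal_im]
  have h1 : (cutM (HL Λ z) (VL M lam Λ ω) ∅).mulVec φ = r := by
    funext u
    rw [cutM_mulVec, if_neg (Finset.notMem_empty _)]
    have e1 : ∑ w, HL Λ z u w * φ w = (2 * d - z) * φ u
        - ∑ w : Λ, (if (w : Site d) ∈ nbs (u : Site d) then ψ w else 0) := by
      simp only [HL, sub_mul, Finset.sum_sub_distrib, ite_mul, zero_mul, Finset.sum_ite_eq,
        Finset.mem_univ, if_true, one_mul, hφ]
    have e2 : ∑ w : Λ, (if (w : Site d) ∈ nbs (u : Site d) then ψ w else 0)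
        = ∑ w ∈ (nbs (u : Site d)).filter (fun w => w ∈ Λ), ψ w := by
      rw [Finset.sum_coe_sort Λ (fun w => if w ∈ nbs (u : Site d) then ψ w else 0),
        ← Finset.sum_filter]
      refine Finset.sum_congr ?_ fun _ _ => rfl
      ext w; simp only [Finset.mem_filter]; tauto
    have e3 : nsum ψ u = ∑ w ∈ (nbs (u : Site d)).filter (fun w => w ∈ Λ), ψ w
        + ∑ w ∈ (nbs (u : Site d)).filter (fun w => w ∉ Λ), ψ w := by
      rw [nsum_eq_sum_nbs, Finset.sum_filter_add_sum_filter_not]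
    simp only [hr, hop]
    rw [e1, e2, e3]
    have e4 : VL M lam Λ ω u = (V u : ℂ) := rfl
    rw [e4]
    simp only [hφ]
    ring
  have h2 : φ = (Gf M lam z Λ ω).mulVec r := by
    rw [← h1, Matrix.mulVec_mulVec, Gf, gcut_mul_cutM hA hD, Matrix.one_mulVec]
  have hrb : ∀ u, ‖r u‖ ≤ 2 * d * b + e := by
    intro u
    have hu : sn ((u : Site d) - x0) ≤ L := mem_box.1 u.2
    simp only [hr]
    refine (norm_add_le _ _).trans ?_
    rw [add_comm]
    refine add_le_add ?_ (he _ hu)
    refine (norm_sum_le _ _).trans ?_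
    calc ∑ w ∈ (nbs (u : Site d)).filter (fun w => w ∉ Λ), ‖ψ w‖
        ≤ ∑ w ∈ (nbs (u : Site d)).filter (fun w => w ∉ Λ), b := by
          refine Finset.sum_le_sum fun w hw => hb w ?_
          rw [Finset.mem_filter] at hw
          exact sn_outer hu hw.1 fun h => hw.2 (mem_box.2 h)
      _ = ((nbs (u : Site d)).filter (fun w => w ∉ Λ)).card * b := by
          rw [Finset.sum_const, nsmul_eq_mul]
      _ ≤ 2 * d * b := by
          refine mul_le_mul_of_nonneg_right ?_ hb0
          have := (Finset.card_filter_le (nbs (u : Site d)) (fun w => w ∉ Λ)).trans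
            (card_nbs_le (u : Site d))
          exact_mod_cast this
  have hT0 : 0 ≤ T := (norm_nonneg _).trans (hT ⟨x, mem_box.2 hx⟩ ⟨x, mem_box.2 hx⟩)
  have h3 : ψ x = ∑ u, Gf M lam z Λ ω ⟨x, mem_box.2 hx⟩ u * r u := by
    have := congrFun h2 ⟨x, mem_box.2 hx⟩
    exact this
  rw [h3]
  calc ‖∑ u, Gf M lam z Λ ω ⟨x, mem_box.2 hx⟩ u * r u‖
      ≤ ∑ u : Λ, T * (2 * d * b + e) := by
        refine (norm_sum_le _ _).trans (Finset.sum_le_sum fun u _ => ?_)
        rw [norm_mul]
        exact mul_le_mul (hT _ _) (hrb u) (norm_nonneg _) hT0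
    _ = _ := by
        rw [Finset.sum_const, nsmul_eq_mul, Finset.card_univ, Fintype.card_coe, hΛ, card_box]
        push_cast; ring

variable {μ : Measure ℝ} [IsProbabilityMeasure μ] {M lam : ℝ} {K : ℝ≥0}

/-- the bound of the Wegner estimate -/
def wg (d : ℕ) (M lam : ℝ) (K : ℝ≥0) (L : ℕ) (t : ℝ) : ℝ :=
  2 * (C2 M lam K).toReal * (2 * d + 1) * ((2 * L + 1 : ℕ) : ℝ) ^ (3 * d) * Real.exp (-(t / 4))

lemma wg_nonneg (L : ℕ) (t : ℝ) : 0 ≤ wg d M lam K L t := by
  unfold wg; positivity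

/-- **Wegner type estimate**, for all energies in the closed upper half plane. -/
theorem wegner (hμ : GoodLaw μ M K) (hlam : 0 < lam) {z : ℂ} (hz : 0 ≤ z.im) (x0 : Site d) (L : ℕ)
    (t : ℝ) :
    (PP d μ).real {ω | ¬ GB (potc M lam ω) z x0 L L (Real.exp t) (Real.exp t)}
      ≤ wg d M lam K L t := by
  classical
  set Λ := box x0 L with hΛ
  set N : ℝ := ((2 * L + 1 : ℕ) : ℝ) ^ d with hN
  have hN1 : 1 ≤ N := one_le_pow₀ (by push_cast; linarith [Nat.cast_nonneg (α := ℝ) L])
  have hN0 : 0 < N := by linarith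
  have hcard : ((Finset.univ : Finset Λ).card : ℝ) = N := by
    rw [Finset.card_univ, Fintype.card_coe, hΛ, card_box, hN]; push_cast; ring
  set D : ℝ := N * (2 * d + 1) with hDdef
  have hD1 : 1 ≤ D := by
    have : (1 : ℝ) ≤ 2 * d + 1 := by linarith [Nat.cast_nonneg (α := ℝ) d]
    nlinarith
  have hD0 : 0 < D := by linarith
  set T : ℝ := Real.exp t / D with hT
  have hTpos : 0 < T := by positivity
  set zj : ℕ → ℂ := fun j => z + ((1 / ((j : ℝ) + 1) : ℝ) : ℂ) * Complex.I with hzj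
  have hzjim : ∀ j, 0 < (zj j).im := by
    intro j
    have : (0 : ℝ) < 1 / ((j : ℝ) + 1) := by positivity
    simp only [hzj, Complex.add_im, Complex.mul_im, Complex.ofReal_re, Complex.I_im, mul_one,
      Complex.ofReal_im, Complex.I_re, mul_zero, add_zero]
    linarith
  set bad : ℕ → Set (Site d → ℝ) := fun j =>
    ⋃ p ∈ (Finset.univ : Finset (Λ × Λ)), {ω | T ≤ ‖Gf M lam (zj j) Λ ω p.1 p.2‖} with hbad
  -- probability of one bad event
  have hone : ∀ j, ∀ p : Λ × Λ, (PP d μ).real {ω | T ≤ ‖Gf M lam (zj j) Λ ω p.1 p.2‖}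
      ≤ D * Real.exp (-(t / 4)) * (2 * (C2 M lam K).toReal) := by
    intro j p
    have hTe : T = Real.exp (t - Real.log D) := by
      rw [Real.exp_sub, Real.exp_log hD0]
    have h1 := markov_real (μ := μ) (S := {ω | T ≤ ‖Gf M lam (zj j) Λ ω p.1 p.2‖})
      (t := (t - Real.log D) / 4)
      ((measurable_Gf (M := M) lam (zj j) Λ p.1 p.2).enorm.pow_const (1/4 : ℝ))
      (ENNReal.mul_ne_top (by norm_num) (C2_ne_top M K))
      (pos_moment_Gf hμ hlam (hzjim j) Λ p.1 p.2) ?_
    · rw [ENNReal.toReal_mul] at h1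
      refine h1.trans ?_
      have h2 : (2 : ℝ≥0∞).toReal = 2 := rfl
      rw [h2]
      refine mul_le_mul_of_nonneg_right ?_ (by positivity)
      have h3 : -((t - Real.log D) / 4) = Real.log D / 4 + -(t / 4) := by ring
      rw [h3, Real.exp_add]
      refine mul_le_mul_of_nonneg_right ?_ (Real.exp_pos _).le
      calc Real.exp (Real.log D / 4) ≤ Real.exp (Real.log D) :=
            Real.exp_le_exp.2 (by have := Real.log_nonneg hD1; linarith)
        _ = D := Real.exp_log hD0
    · intro ω hω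
      rw [mem_ofPred_eq, hTe] at hω
      calc ENNReal.ofReal (Real.exp ((t - Real.log D) / 4))
          = (ENNReal.ofReal (Real.exp (t - Real.log D))) ^ (1/4 : ℝ) := by
            rw [ENNReal.ofReal_rpow_of_pos (Real.exp_pos _), ← Real.exp_mul]
            congr 2; ring
        _ ≤ ‖Gf M lam (zj j) Λ ω p.1 p.2‖ₑ ^ (1/4 : ℝ) := by
            refine ENNReal.rpow_le_rpow ?_ (by norm_num)
            rw [← ofReal_norm]; exact ENNReal.ofReal_le_ofReal hω
  have hbadp : ∀ j, (PP d μ).real (bad j) ≤ wg d M lam K L t := by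
    intro j
    calc (PP d μ).real (bad j) ≤ ∑ p ∈ (Finset.univ : Finset (Λ × Λ)),
          (PP d μ).real {ω | T ≤ ‖Gf M lam (zj j) Λ ω p.1 p.2‖} := measureReal_biUnion_finset_le _ _
      _ ≤ ∑ p ∈ (Finset.univ : Finset (Λ × Λ)),
          D * Real.exp (-(t / 4)) * (2 * (C2 M lam K).toReal) :=
          Finset.sum_le_sum fun p _ => hone j p
      _ = N * N * (D * Real.exp (-(t / 4)) * (2 * (C2 M lam K).toReal)) := by
          rw [Finset.sum_const, nsmul_eq_mul, ← Finset.univ_product_univ, Finset.card_product]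
          push_cast
          rw [hcard]
      _ = wg d M lam K L t := by
          have h3d : ((2 * L + 1 : ℕ) : ℝ) ^ (3 * d) = N * N * N := by
            rw [hN, show 3 * d = d + d + d by ring, pow_add, pow_add]
          rw [wg, h3d, hDdef]
          ring
  -- the bad event is contained in the liminf of the bad events
  have hsub : {ω | ¬ GB (potc M lam ω) z x0 L L (Real.exp t) (Real.exp t)}
      ⊆ ⋃ n : ℕ, ⋂ j : ℕ, bad (n + j) := by
    intro ω hω
    by_contra hcon
    apply hω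
    have hfreq : ∀ n : ℕ, ∃ j, n ≤ j ∧ ω ∉ bad j := by
      intro n
      simp only [mem_iUnion, mem_iInter, not_exists, not_forall] at hcon
      obtain ⟨j, hj⟩ := hcon n
      refine ⟨n + j, Nat.le_add_right _ _, ?_⟩
      simpa only [hbad, mem_iUnion, not_exists] using hj
    have hfr : ∃ᶠ j in atTop, ω ∉ bad j := frequently_atTop.2 hfreq
    intro ψ b e hb0 he0 hb he x hx
    obtain ⟨S, hS⟩ : ∃ S : ℝ, ∀ u, sn (u - x0) ≤ L → ‖ψ u‖ ≤ S := by
      obtain ⟨S, hS⟩ := (Λ.image fun u => ‖ψ u‖).bddAbove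
      refine ⟨S, fun u hu => hS ?_⟩
      rw [Finset.coe_image]
      exact ⟨u, mem_box.2 hu, rfl⟩
    have hlim : Tendsto (fun j : ℕ => N * T * (2 * d * b + (e + 1 / ((j : ℝ) + 1) * S))) atTop
        (𝓝 (N * T * (2 * d * b + (e + 0 * S)))) := by
      refine Tendsto.const_mul _ (Tendsto.const_add _ (Tendsto.const_add _ ?_))
      exact tendsto_one_div_add_atTop_nhds_zero_nat.mul_const S
    have hbound : ∃ᶠ j : ℕ in atTop, ‖ψ x‖ ≤ N * T * (2 * d * b + (e + 1 / ((j : ℝ) + 1) * S)) := by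
      refine hfr.mono fun j hj => ?_
      have hT' : ∀ a u, ‖Gf M lam (zj j) (box x0 L) ω a u‖ ≤ T := by
        intro a u
        by_contra hlt
        rw [not_le] at hlt
        apply hj
        simp only [hbad, mem_iUnion]
        exact ⟨(a, u), Finset.mem_univ _, hlt.le⟩
      refine sol_bound (hzjim j) ω x0 L hT' hb0 hb (fun u hu => ?_) x hx
      have e1 : hop (potc M lam ω) (zj j) ψ u
          = hop (potc M lam ω) z ψ u - ((1 / ((j : ℝ) + 1) : ℝ) : ℂ) * Complex.I * ψ u := by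
        simp only [hop, hzj]; ring
      rw [e1]
      refine (norm_sub_le _ _).trans (add_le_add (he u hu) ?_)
      rw [norm_mul, norm_mul, Complex.norm_I, mul_one, Complex.norm_real, Real.norm_eq_abs,
        abs_of_pos (by positivity : (0 : ℝ) < 1 / ((j : ℝ) + 1))]
      exact mul_le_mul_of_nonneg_left (hS u hu) (by positivity)
    have h1 := ge_of_tendsto_of_frequently hlim hbound
    have h2 : N * T * (2 * d * b + (e + 0 * S)) ≤ Real.exp t * b + Real.exp t * e := by
      have hNT : N * T * (2 * d + 1) = Real.exp t := by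
        rw [hT, hDdef]; field_simp
      have hNT0 : 0 ≤ N * T := by positivity
      have hd : (0 : ℝ) ≤ d := Nat.cast_nonneg d
      rw [← hNT]
      have hde : 0 ≤ N * T * d * e := by positivity
      have hNb : 0 ≤ N * T * b := by positivity
      nlinarith
    exact h1.trans h2
  have hmono : Monotone fun n : ℕ => ⋂ j : ℕ, bad (n + j) := by
    intro a b hab ω hω
    rw [mem_iInter] at hω ⊢
    intro j
    have := hω (b - a + j)
    rwa [show a + (b - a + j) = b + j by omega] at this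
  have htend := tendsto_measure_iUnion_atTop (μ := PP d μ) hmono
  have hle : (PP d μ) (⋃ n : ℕ, ⋂ j : ℕ, bad (n + j)) ≤ ENNReal.ofReal (wg d M lam K L t) := by
    refine le_of_tendsto' htend fun n => ?_
    have h1 : (⋂ j : ℕ, bad (n + j)) ⊆ bad n := fun ω hω => by
      rw [mem_iInter] at hω
      exact hω 0
    refine (measure_mono h1).trans ?_
    rw [← ENNReal.ofReal_toReal (measure_ne_top (PP d μ) (bad n))]
    exact ENNReal.ofReal_le_ofReal (hbadp n)
  have h3 := ENNReal.toReal_mono ENNReal.ofReal_ne_top ((measure_mono hsub).trans hle)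
  rwa [ENNReal.toReal_ofReal (wg_nonneg L t)] at h3

end Pool.Agent.Helper3.Crit
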