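import Pool.Agent.Helper3.Crit.SkelDefs
import Pool.Agent.Helper3.Crit.Wegner

/-! Induction over scales of the multiscale analysis. -/

open scoped ENNReal NNReal InnerProductSpace
open MeasureTheory Set Filter Topology

noncomputable section

namespace Pool.Agent.Helper3.Crit

open Pool.Agent.Helper3.Anderson

variable {d : ℕ} {μ : Measure ℝ} [IsProbabilityMeasure μ] {M lam : ℝ} {K : ℝ≥0}

/-- the statement of `msa_step` -/
def MsaStep (d : ℕ) (μ : Measure ℝ) [IsProbabilityMeasure μ] (M lam : ℝ) (K : ℝ≥0) : Prop :=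
  ∀ {z : ℂ} (_ : 0 ≤ z.im)
    {l L l' L' n A : ℕ} {ρ t t' : ℝ} (_ : 1 ≤ l) (_ : l ≤ L) (_ : 0 ≤ ρ) (_ : ρ ≤ 1)
    (_ : 0 ≤ t') (_ : Real.exp t * ρ < 1)
    (_ : l' + 2 * (2 * L + l) + (n + 3) * (L + l + 1) ≤ L') (_ : L' ≤ A * l),
    (PP d μ).real {ω | ¬ GoodBox (potc M lam ω) z 0 l' L' (ρ ^ n * Real.exp t')}
      ≤ ((2 * A + 1 : ℕ) : ℝ) ^ (2 * d)
          * (PP d μ).real {ω | ¬ GoodBox (potc M lam ω) z 0 l L ρ} ^ 2
        + ((2 * A + 1 : ℕ) : ℝ) ^ d * wg d M lam K (2 * L + l) t + wg d M lam K L' t'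

/-! ### arithmetic of the scales -/

lemma pb2_succ (q L0 k : ℕ) : Lsc q L0 (k + 1) = 2 ^ (k + 1 + q) * Lsc q L0 k := rfl

lemma pb2_succ' (q l0 L0 k : ℕ) : lsc q l0 L0 (k + 1) = Lsc q L0 k := rfl

lemma pb2_two_pow (q L0 k : ℕ) : 2 ^ k * L0 ≤ Lsc q L0 k := by
  induction k with
  | zero => simp [Lsc]
  | succ k ih =>
    rw [pb2_succ]
    have h2 : 2 ≤ 2 ^ (k + 1 + q) := by
      calc 2 = 2 ^ 1 := rfl
        _ ≤ 2 ^ (k + 1 + q) := Nat.pow_le_pow_right (by norm_num) (by omega)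
    calc 2 ^ (k + 1) * L0 = 2 * (2 ^ k * L0) := by ring
      _ ≤ 2 ^ (k + 1 + q) * Lsc q L0 k := Nat.mul_le_mul h2 ih

lemma pb2_four {q l0 L0 : ℕ} (hq : 1 ≤ q) (h4 : 4 * l0 ≤ L0) (k : ℕ) :
    4 * lsc q l0 L0 k ≤ Lsc q L0 k := by
  cases k with
  | zero => simpa [Lsc, lsc] using h4
  | succ k =>
    rw [pb2_succ, pb2_succ']
    have h2 : 4 ≤ 2 ^ (k + 1 + q) := by
      calc 4 = 2 ^ 2 := rfl
        _ ≤ 2 ^ (k + 1 + q) := Nat.pow_le_pow_right (by norm_num) (by omega)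
    exact Nat.mul_le_mul h2 le_rfl

lemma pb2_ratio {q l0 L0 : ℕ} (hr : L0 ≤ 2 ^ (q + 1) * l0) (k : ℕ) :
    Lsc q L0 k ≤ 2 ^ (k + q + 1) * lsc q l0 L0 k := by
  cases k with
  | zero => simpa [Lsc, lsc] using hr
  | succ k =>
    rw [pb2_succ, pb2_succ']
    exact Nat.mul_le_mul (Nat.pow_le_pow_right (by norm_num) (by omega)) le_rfl

lemma pb2_Lsc_pos {L0 : ℕ} (q : ℕ) (h : 1 ≤ L0) (k : ℕ) : 1 ≤ Lsc q L0 k := by
  have h1 := pb2_two_pow q L0 k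
  have h2 : 1 ≤ 2 ^ k := Nat.one_le_two_pow
  nlinarith

lemma pb2_one_le {q l0 L0 : ℕ} (hl : 1 ≤ l0) (h4 : 4 * l0 ≤ L0) (k : ℕ) :
    1 ≤ lsc q l0 L0 k := by
  cases k with
  | zero => simpa [lsc] using hl
  | succ k =>
    rw [pb2_succ']
    exact pb2_Lsc_pos q (by omega) k

lemma pb2_n {l L Y : ℕ} (hl : 1 ≤ l) (h4 : 4 * l ≤ L) (hY : 128 ≤ Y) :
    ∃ n : ℕ, L + 2 * (2 * L + l) + (n + 3) * (L + l + 1) ≤ Y * L ∧
      Y * L ≤ n * (L + l + 1) + 12 * L := by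
  set N := L + l + 1 with hN
  have hYL : 128 * L ≤ Y * L := Nat.mul_le_mul_right _ hY
  obtain ⟨X, hX⟩ : ∃ X, Y * L = X + (L + 2 * (2 * L + l)) :=
    ⟨Y * L - (L + 2 * (2 * L + l)), by omega⟩
  have hdm := Nat.div_add_mod X N
  have hmod : X % N < N := Nat.mod_lt _ (by omega)
  have h3 : 3 ≤ X / N := (Nat.le_div_iff_mul_le (by omega)).2 (by omega)
  obtain ⟨n, hn⟩ : ∃ n, X / N = n + 3 := ⟨X / N - 3, by omega⟩
  refine ⟨n, ?_, ?_⟩
  · have h5 : X / N * N ≤ X := Nat.div_mul_le_self X N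
    rw [hn] at h5
    omega
  · rw [hn] at hdm
    have h6 : N * (n + 3) = n * N + 3 * N := by ring
    rw [h6] at hdm
    omega

lemma pb2_exp {m mk L N N' Y n : ℝ} (hm : 0 < m) (hmk : mk ≤ m) (hmk' : m / 2 ≤ mk)
    (hY : 128 ≤ Y) (hL : 1 ≤ L) (hN' : N' = Y * L + L + 1) (hn : Y * L ≤ n * N + 12 * L) :
    -(mk * N) * n + m * N' / Y ≤ -((mk - 18 * m / Y) * N') := by
  have hY0 : 0 < Y := by linarith
  have h1 : mk * ((Y - 12) * L) ≤ mk * (n * N) :=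
    mul_le_mul_of_nonneg_left (by linarith) (by linarith)
  have h2 : N' ≤ (Y + 2) * L := by rw [hN']; nlinarith
  have h3 : 0 ≤ mk - 17 * m / Y := by
    have : 17 * m / Y ≤ m / 2 := by
      rw [div_le_iff₀ hY0]; nlinarith
    linarith
  have h4 : (mk - 17 * m / Y) * N' ≤ (mk - 17 * m / Y) * ((Y + 2) * L) :=
    mul_le_mul_of_nonneg_left h2 h3
  have h5 : (mk - 17 * m / Y) * ((Y + 2) * L)
      = mk * ((Y + 2) * L) - 17 * m * L - 34 * m * L / Y := by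
    field_simp
    ring
  have h6 : 0 ≤ 34 * m * L / Y := by positivity
  have h7 : mk * L ≤ m * L := mul_le_mul_of_nonneg_right hmk (by linarith)
  have h8 : 0 ≤ m * L := by positivity
  have h9 : (mk - 18 * m / Y) * N' + m * N' / Y = (mk - 17 * m / Y) * N' := by
    ring
  nlinarith

/-! ### the two Wegner terms -/

lemma pb2_A (q k : ℕ) {x : ℝ} (hx : (2 : ℝ) ^ k ≤ x) :
    ((2 * 2 ^ (2 * k + 2 * q + 2) + 1 : ℕ) : ℝ) ≤ 2 ^ (2 * q + 4) * x ^ 2 := by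
  have h0 : (1 : ℝ) ≤ 2 ^ (2 * k + 2 * q + 2) := one_le_pow₀ (by norm_num)
  have h1 : ((2 : ℝ) ^ k) ^ 2 ≤ x ^ 2 := pow_le_pow_left₀ (by positivity) hx 2
  have h2 : (4 : ℝ) * 2 ^ (2 * k + 2 * q + 2) = 2 ^ (2 * q + 4) * ((2 : ℝ) ^ k) ^ 2 := by
    rw [← pow_mul, show (4 : ℝ) = 2 ^ 2 by norm_num, ← pow_add, ← pow_add]
    congr 1
    ring
  have h3 : (2 : ℝ) ^ (2 * q + 4) * ((2 : ℝ) ^ k) ^ 2 ≤ 2 ^ (2 * q + 4) * x ^ 2 :=
    mul_le_mul_of_nonneg_left h1 (by positivity)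
  push_cast
  linarith

lemma pb2_two (d k : ℕ) {x : ℝ} (hx : (2 : ℝ) ^ k ≤ x) :
    (2 : ℝ) ^ ((4 * d + 1) * (k + 1)) ≤ (2 * x) ^ (4 * d + 1) := by
  rw [mul_comm, pow_mul]
  refine pow_le_pow_left₀ (by positivity) ?_ _
  rw [pow_succ]
  linarith

lemma pb2_wg1 (d q : ℕ) (m M lam : ℝ) (K : ℝ≥0) (hm : 0 < m) :
    ∃ c : ℝ, 0 ≤ c ∧ ∀ (k L l : ℕ) (N : ℝ), 1 ≤ L → l ≤ L → (2 : ℝ) ^ k ≤ L → (L : ℝ) ≤ N →
      ((2 * 2 ^ (2 * k + 2 * q + 2) + 1 : ℕ) : ℝ) ^ d * wg d M lam K (2 * L + l) (m * N / 2)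
        * 2 ^ ((4 * d + 1) * (k + 1)) ≤ c * ((L : ℝ) ^ (9 * d + 1) * Real.exp (-(m / 8 * L))) := by
  set c0 : ℝ := 2 * (C2 M lam K).toReal * (2 * d + 1) with hc0
  have hc00 : 0 ≤ c0 := by positivity
  refine ⟨(2 ^ (2 * q + 4)) ^ d * c0 * 7 ^ (3 * d) * 2 ^ (4 * d + 1), by positivity, ?_⟩
  intro k L l N hL hl hk hN
  set x : ℝ := (L : ℝ) with hx
  have hx1 : (1 : ℝ) ≤ x := by rw [hx]; exact_mod_cast hL
  have hlx : (l : ℝ) ≤ x := by rw [hx]; exact_mod_cast hl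
  have hA := pb2_A q k hk
  have hT := pb2_two d k hk
  have h7 : ((2 * (2 * L + l) + 1 : ℕ) : ℝ) ≤ 7 * x := by
    push_cast
    rw [← hx]
    linarith
  have he : Real.exp (-(m * N / 2 / 4)) ≤ Real.exp (-(m / 8 * x)) := by
    apply Real.exp_le_exp.2
    have : m * x ≤ m * N := mul_le_mul_of_nonneg_left hN hm.le
    linarith
  have hwg : wg d M lam K (2 * L + l) (m * N / 2)
      = c0 * ((2 * (2 * L + l) + 1 : ℕ) : ℝ) ^ (3 * d) * Real.exp (-(m * N / 2 / 4)) := rfl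
  rw [hwg]
  calc ((2 * 2 ^ (2 * k + 2 * q + 2) + 1 : ℕ) : ℝ) ^ d
        * (c0 * ((2 * (2 * L + l) + 1 : ℕ) : ℝ) ^ (3 * d) * Real.exp (-(m * N / 2 / 4)))
        * 2 ^ ((4 * d + 1) * (k + 1))
      ≤ (2 ^ (2 * q + 4) * x ^ 2) ^ d * (c0 * (7 * x) ^ (3 * d) * Real.exp (-(m / 8 * x)))
        * (2 * x) ^ (4 * d + 1) := by gcongr
    _ = (2 ^ (2 * q + 4)) ^ d * c0 * 7 ^ (3 * d) * 2 ^ (4 * d + 1)
        * (x ^ (9 * d + 1) * Real.exp (-(m / 8 * x))) := by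
        rw [mul_pow, mul_pow, mul_pow, ← pow_mul x 2 d]
        have : x ^ (9 * d + 1) = x ^ (2 * d) * x ^ (3 * d) * x ^ (4 * d + 1) := by
          rw [← pow_add, ← pow_add]; congr 1; ring
        rw [this]
        ring

lemma pb2_wg2 (d q : ℕ) (m M lam : ℝ) (K : ℝ≥0) (hm : 0 < m) :
    ∃ c : ℝ, 0 ≤ c ∧ ∀ (k L : ℕ) (t : ℝ), 1 ≤ L → (2 : ℝ) ^ k ≤ L → m * L ≤ t →
      wg d M lam K (2 ^ (k + 1 + q) * L) t * 2 ^ ((4 * d + 1) * (k + 1))
        ≤ c * ((L : ℝ) ^ (10 * d + 1) * Real.exp (-(m / 8 * L))) := by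
  set c0 : ℝ := 2 * (C2 M lam K).toReal * (2 * d + 1) with hc0
  have hc00 : 0 ≤ c0 := by positivity
  refine ⟨c0 * (3 * 2 ^ (q + 1)) ^ (3 * d) * 2 ^ (4 * d + 1), by positivity, ?_⟩
  intro k L t hL hk ht
  set x : ℝ := (L : ℝ) with hx
  have hx1 : (1 : ℝ) ≤ x := by rw [hx]; exact_mod_cast hL
  have hT := pb2_two d k hk
  have h7 : ((2 * (2 ^ (k + 1 + q) * L) + 1 : ℕ) : ℝ) ≤ 3 * 2 ^ (q + 1) * x ^ 2 := by
    push_cast
    rw [← hx]
    have h1 : (1 : ℝ) ≤ 2 ^ (k + 1 + q) * x :=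
      one_le_mul_of_one_le_of_one_le (one_le_pow₀ (by norm_num)) hx1
    have h2 : (2 : ℝ) ^ (k + 1 + q) * x = 2 ^ (q + 1) * (2 ^ k * x) := by
      rw [show k + 1 + q = (q + 1) + k by ring, pow_add]; ring
    have h3 : (2 : ℝ) ^ k * x ≤ x ^ 2 := by
      rw [pow_two]; exact mul_le_mul_of_nonneg_right hk (by linarith)
    have h4 : (2 : ℝ) ^ (q + 1) * (2 ^ k * x) ≤ 2 ^ (q + 1) * x ^ 2 :=
      mul_le_mul_of_nonneg_left h3 (by positivity)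
    linarith
  have he : Real.exp (-(t / 4)) ≤ Real.exp (-(m / 8 * x)) := by
    apply Real.exp_le_exp.2
    have : 0 ≤ m * x := by positivity
    linarith
  have hwg : wg d M lam K (2 ^ (k + 1 + q) * L) t
      = c0 * ((2 * (2 ^ (k + 1 + q) * L) + 1 : ℕ) : ℝ) ^ (3 * d) * Real.exp (-(t / 4)) := rfl
  rw [hwg]
  calc c0 * ((2 * (2 ^ (k + 1 + q) * L) + 1 : ℕ) : ℝ) ^ (3 * d) * Real.exp (-(t / 4))
        * 2 ^ ((4 * d + 1) * (k + 1))
      ≤ c0 * (3 * 2 ^ (q + 1) * x ^ 2) ^ (3 * d) * Real.exp (-(m / 8 * x))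
        * (2 * x) ^ (4 * d + 1) := by gcongr
    _ = c0 * (3 * 2 ^ (q + 1)) ^ (3 * d) * 2 ^ (4 * d + 1)
        * (x ^ (10 * d + 1) * Real.exp (-(m / 8 * x))) := by
        rw [mul_pow, mul_pow (2 : ℝ) x, ← pow_mul x 2 (3 * d)]
        have : x ^ (10 * d + 1) = x ^ (2 * (3 * d)) * x ^ (4 * d + 1) := by
          rw [← pow_add]; congr 1; ring
        rw [this]
        ring

lemma pb2_ev {c b ε : ℝ} (hc : 0 ≤ c) (hb : 0 < b) (hε : 0 < ε) (D : ℕ) :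
    ∀ᶠ L : ℕ in atTop, c * ((L : ℝ) ^ D * Real.exp (-(b * L))) ≤ ε := by
  have h := (isLittleO_pow_exp_pos_mul_atTop D hb).bound
    (show (0 : ℝ) < ε / (c + 1) by positivity)
  have h' := tendsto_natCast_atTop_atTop (R := ℝ) |>.eventually h
  filter_upwards [h'] with L hL
  have hx0 : (0 : ℝ) ≤ (L : ℝ) := Nat.cast_nonneg L
  rw [Real.norm_of_nonneg (by positivity), Real.norm_of_nonneg (by positivity)] at hL
  have he : Real.exp (b * L) * Real.exp (-(b * L)) = 1 := by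
    rw [← Real.exp_add]; simp
  calc c * ((L : ℝ) ^ D * Real.exp (-(b * L)))
      ≤ c * (ε / (c + 1) * Real.exp (b * L) * Real.exp (-(b * L))) := by gcongr
    _ = c * (ε / (c + 1)) := by rw [mul_assoc (ε / (c + 1)), he, mul_one]
    _ ≤ ε := by
        rw [← mul_div_assoc, div_le_iff₀ (by positivity)]
        nlinarith

lemma pb2_half {A B : ℝ} (j : ℕ) (h : A * 2 ^ j ≤ B) : A ≤ B * (1 / 2) ^ j := by
  have h1 : A = A * 2 ^ j * (1 / 2) ^ j := by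
    rw [mul_assoc, ← mul_pow]; norm_num
  rw [h1]
  exact mul_le_mul_of_nonneg_right h (by positivity)

lemma pb2_main (d k : ℕ) {a0 p : ℝ} (ha0 : a0 = (1 / 2) ^ (36 * d + 3)) (hp0 : 0 ≤ p)
    (hp : p ≤ a0 * (1 / 2) ^ ((4 * d + 1) * k)) :
    ((2 * 2 ^ (2 * k + 2 * 6 + 2) + 1 : ℕ) : ℝ) ^ (2 * d) * p ^ 2
      ≤ a0 / 3 * (1 / 2) ^ ((4 * d + 1) * (k + 1)) := by
  have ha0p : 0 < a0 := by rw [ha0]; positivity
  have hA := pb2_A 6 k (le_refl ((2 : ℝ) ^ k))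
  have e1 : (1 / 2 : ℝ) ^ (36 * d + 3) * 2 ^ (32 * d) = (1 / 2) ^ (4 * d + 3) := by
    rw [show 36 * d + 3 = (4 * d + 3) + 32 * d by ring, pow_add, mul_assoc, ← mul_pow]
    norm_num
  have e2 : ((2 : ℝ) ^ k) ^ (4 * d) * (1 / 2) ^ ((4 * d + 1) * k) = (1 / 2) ^ k := by
    rw [← pow_mul, show (4 * d + 1) * k = k * (4 * d) + k by ring, pow_add, ← mul_assoc,
      ← mul_pow]
    norm_num
  have e3 : ((2 : ℝ) ^ (2 * 6 + 4) * (2 ^ k) ^ 2) ^ (2 * d) = 2 ^ (32 * d) * (2 ^ k) ^ (4 * d) := by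
    rw [mul_pow, ← pow_mul, ← pow_mul (2 ^ k) 2]
    congr 2 <;> ring
  have hk1 : ((1 : ℝ) / 2) ^ k ≤ 1 := pow_le_one₀ (by norm_num) (by norm_num)
  calc ((2 * 2 ^ (2 * k + 2 * 6 + 2) + 1 : ℕ) : ℝ) ^ (2 * d) * p ^ 2
      ≤ ((2 : ℝ) ^ (2 * 6 + 4) * (2 ^ k) ^ 2) ^ (2 * d)
        * (a0 * (1 / 2) ^ ((4 * d + 1) * k)) ^ 2 := by gcongr
    _ = a0 * (a0 * 2 ^ (32 * d)) * (((2 : ℝ) ^ k) ^ (4 * d) * (1 / 2) ^ ((4 * d + 1) * k))
        * (1 / 2) ^ ((4 * d + 1) * k) := by rw [e3]; ring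
    _ = a0 * (1 / 2) ^ (4 * d + 3) * (1 / 2) ^ k * (1 / 2) ^ ((4 * d + 1) * k) := by
        rw [e2, ← e1, ← ha0]
    _ ≤ a0 * (1 / 2) ^ (4 * d + 3) * 1 * (1 / 2) ^ ((4 * d + 1) * k) := by gcongr
    _ = a0 / 4 * (1 / 2) ^ ((4 * d + 1) * (k + 1)) := by
        rw [show (4 * d + 1) * (k + 1) = (4 * d + 1) * k + (4 * d + 1) by ring,
          show 4 * d + 3 = (4 * d + 1) + 2 by ring, pow_add _ _ 2,
          pow_add _ ((4 * d + 1) * k) (4 * d + 1)]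
        ring
    _ ≤ a0 / 3 * (1 / 2) ^ ((4 * d + 1) * (k + 1)) := by
        gcongr
        norm_num

/-! ### the induction -/

lemma pb2_mono {V : Site d → ℝ} {z : ℂ} {x : Site d} {l L : ℕ} {ρ ρ' : ℝ} (h : ρ ≤ ρ')
    (hg : GoodBox V z x l L ρ) : GoodBox V z x l L ρ' := by
  intro ψ b hb h1 h2 y hy
  exact (hg ψ b hb h1 h2 y hy).trans (mul_le_mul_of_nonneg_right h hb)

lemma pb2_prob_mono (z : ℂ) (l L : ℕ) {ρ ρ' : ℝ} (h : ρ ≤ ρ') :
    (PP d μ).real {ω | ¬ GoodBox (potc M lam ω) z 0 l L ρ'}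
      ≤ (PP d μ).real {ω | ¬ GoodBox (potc M lam ω) z 0 l L ρ} := by
  refine measureReal_mono (fun ω hω hg => ?_) (measure_ne_top _ _)
  exact hω (pb2_mono h hg)

theorem msa_core (d : ℕ) (hS : MsaStep d μ M lam K) {m : ℝ} (hm : 0 < m) :
    ∃ (q : ℕ) (a0 : ℝ) (Lmin : ℕ), 2 ≤ q ∧ 0 < a0 ∧ ∀ l0 L0 : ℕ, Lmin ≤ L0 → 1 ≤ l0 → 4 * l0 ≤ L0 →
      L0 ≤ 2 ^ (q + 1) * l0 → ∀ z : ℂ, 0 ≤ z.im →
      (PP d μ).real {ω | ¬ GoodBox (potc M lam ω) z 0 l0 L0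
        (Real.exp (-(m * ((L0 + l0 + 1 : ℕ) : ℝ))))} ≤ a0 →
      MSA d μ M lam z q l0 L0 (m / 2) a0 := by
  set a0 : ℝ := (1 / 2) ^ (36 * d + 3) with ha0
  have ha0p : 0 < a0 := by positivity
  obtain ⟨c1, hc1, hw1⟩ := pb2_wg1 d 6 m M lam K hm
  obtain ⟨c2, hc2, hw2⟩ := pb2_wg2 d 6 m M lam K hm
  obtain ⟨Lmin, hLmin⟩ := eventually_atTop.1
    ((pb2_ev hc1 (show 0 < m / 8 by positivity) (show 0 < a0 / 3 by positivity) (9 * d + 1)).and
      (pb2_ev hc2 (show 0 < m / 8 by positivity) (show 0 < a0 / 3 by positivity) (10 * d + 1)))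
  refine ⟨6, a0, Lmin, by norm_num, ha0p, ?_⟩
  intro l0 L0 hL0 hl0 h4 hr z hz hinit
  set mk : ℕ → ℝ := fun k => m * (1 - 18 / 2 ^ 6 * (1 - (1 / 2) ^ k)) with hmk
  have hhalf : ∀ k : ℕ, (0 : ℝ) < (1 / 2) ^ k ∧ ((1 : ℝ) / 2) ^ k ≤ 1 := fun k =>
    ⟨by positivity, pow_le_one₀ (by norm_num) (by norm_num)⟩
  have hmk1 : ∀ k, mk k ≤ m := fun k => by
    have := hhalf k
    simp only [hmk]
    nlinarith
  have hmk2 : ∀ k, m / 2 < mk k := fun k => by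
    have := hhalf k
    simp only [hmk]
    nlinarith
  have key : ∀ k : ℕ, (PP d μ).real {ω | ¬ GoodBox (potc M lam ω) z 0 (lsc 6 l0 L0 k)
      (Lsc 6 L0 k) (Real.exp (-(mk k * ((Lsc 6 L0 k + lsc 6 l0 L0 k + 1 : ℕ) : ℝ))))}
      ≤ a0 * (1 / 2) ^ ((4 * d + 1) * k) := by
    intro k
    induction k with
    | zero =>
      simp only [Lsc, lsc, hmk, pow_zero, sub_self, mul_zero, sub_zero, mul_one]
      exact hinit
    | succ k ih =>
      set L := Lsc 6 L0 k with hL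
      set l := lsc 6 l0 L0 k with hl
      have hl1 : 1 ≤ l := pb2_one_le hl0 h4 k
      have h4k : 4 * l ≤ L := pb2_four (by norm_num) h4 k
      have hL1 : 1 ≤ L := by omega
      have h2k : (2 : ℝ) ^ k ≤ L := by
        have := pb2_two_pow 6 L0 k
        have h1 : 2 ^ k ≤ L := le_trans (by nlinarith [Nat.one_le_two_pow (n := k)]) this
        exact_mod_cast h1
      have hLL : Lmin ≤ L := by
        have := pb2_two_pow 6 L0 k
        have h1 : L0 ≤ L := le_trans (by nlinarith [Nat.one_le_two_pow (n := k)]) this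
        omega
      set Y : ℕ := 2 ^ (k + 1 + 6) with hY
      have hY128 : 128 ≤ Y := by
        calc 128 = 2 ^ 7 := by norm_num
          _ ≤ 2 ^ (k + 1 + 6) := Nat.pow_le_pow_right (by norm_num) (by omega)
      obtain ⟨n, hn1, hn2⟩ := pb2_n hl1 h4k hY128
      set N : ℝ := ((L + l + 1 : ℕ) : ℝ) with hN
      have hN0 : 0 < N := by rw [hN]; positivity
      have hYr : (128 : ℝ) ≤ (Y : ℝ) := by exact_mod_cast hY128
      have hLr : (1 : ℝ) ≤ (L : ℝ) := by exact_mod_cast hL1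
      set N' : ℝ := ((Lsc 6 L0 (k + 1) + lsc 6 l0 L0 (k + 1) + 1 : ℕ) : ℝ) with hN'
      have hN'e : N' = (Y : ℝ) * L + L + 1 := by
        rw [hN', pb2_succ, pb2_succ', ← hL, ← hY]
        push_cast
        ring
      have hstep := hS hz (l := l) (L := L) (l' := L) (L' := Y * L) (n := n)
        (A := 2 ^ (2 * k + 2 * 6 + 2)) (ρ := Real.exp (-(mk k * N))) (t := m * N / 2)
        (t' := m * N' / Y) hl1 (by omega) (Real.exp_pos _).le
        (Real.exp_le_one_iff.2 (by have := hmk2 k; have : 0 < mk k * N := mul_pos (by linarith) hN0; linarith))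
        (by rw [hN'e]; positivity)
        (by
          rw [← Real.exp_add, Real.exp_lt_one_iff]
          have := mul_lt_mul_of_pos_right (hmk2 k) hN0
          linarith)
        hn1
        (by
          have h1 := pb2_ratio hr k
          rw [← hL, ← hl] at h1
          calc Y * L ≤ Y * (2 ^ (k + 6 + 1) * l) := Nat.mul_le_mul_left _ h1
            _ = 2 ^ (2 * k + 2 * 6 + 2) * l := by rw [hY]; ring)
      have hrho : Real.exp (-(mk k * N)) ^ n * Real.exp (m * N' / Y)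
          ≤ Real.exp (-(mk (k + 1) * N')) := by
        rw [← Real.exp_nat_mul, ← Real.exp_add]
        apply Real.exp_le_exp.2
        have h1 : (Y : ℝ) * L ≤ n * N + 12 * L := by
          rw [hN]; exact_mod_cast hn2
        have h2 := pb2_exp hm (hmk1 k) (hmk2 k).le hYr hLr hN'e h1
        have h3 : mk (k + 1) = mk k - 18 * m / Y := by
          simp only [hmk, hY]
          push_cast
          rw [one_div_pow, one_div_pow, pow_add (2 : ℝ) (k + 1) 6, pow_succ]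
          field_simp
          ring
        rw [h3]
        linarith
      have hp := pb2_main d k ha0 measureReal_nonneg ih
      have hw1' := (hw1 k L l N hL1 (by omega) h2k (by rw [hN]; push_cast; linarith [Nat.cast_nonneg (α := ℝ) l])).trans
        (hLmin L hLL).1
      have hw2' := (hw2 k L (m * N' / Y) hL1 h2k (by
        rw [le_div_iff₀ (by linarith), hN'e]
        nlinarith)).trans (hLmin L hLL).2
      have h1 := pb2_half _ hw1'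
      have h2 := pb2_half _ hw2'
      have h3 := (pb2_prob_mono (μ := μ) (M := M) (lam := lam) z L (Y * L) hrho).trans
        (hstep.trans (add_le_add (add_le_add hp h1) h2))
      have h4 : a0 / 3 * (1 / 2) ^ ((4 * d + 1) * (k + 1)) + a0 / 3 * (1 / 2) ^ ((4 * d + 1) * (k + 1))
          + a0 / 3 * (1 / 2) ^ ((4 * d + 1) * (k + 1)) = a0 * (1 / 2) ^ ((4 * d + 1) * (k + 1)) := by
        ring
      rw [h4] at h3
      exact h3
  intro k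
  refine (pb2_prob_mono z _ _ ?_).trans (key k)
  apply Real.exp_le_exp.2
  have h1 : (Lsc 6 L0 k : ℝ) ≤ ((Lsc 6 L0 k + lsc 6 l0 L0 k + 1 : ℕ) : ℝ) := by
    exact_mod_cast (by omega : Lsc 6 L0 k ≤ Lsc 6 L0 k + lsc 6 l0 L0 k + 1)
  have h2 : m / 2 * (Lsc 6 L0 k : ℝ)
      ≤ mk k * ((Lsc 6 L0 k + lsc 6 l0 L0 k + 1 : ℕ) : ℝ) :=
    mul_le_mul (hmk2 k).le h1 (by positivity) (by linarith [hmk2 k])
  linarith

end Pool.Agent.Helper3.Crit
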