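import Pool.Agent.Helper3.Crit.SkelDefs

/-! Definitions for the second batch (fractional moments, dynamical localisation). -/

open scoped ENNReal NNReal InnerProductSpace
open MeasureTheory Set Filter Topology

noncomputable section

namespace Pool.Agent.Helper3.Crit

open Pool.Agent.Helper3.Anderson

/-- the outcome of the multiscale analysis at `z`, with doubly exponentially small probabilities -/
def MSA2 (d : ℕ) (μ : Measure ℝ) [IsProbabilityMeasure μ] (M lam : ℝ) (z : ℂ) (q l0 L0 : ℕ)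
    (m a : ℝ) : Prop :=
  ∀ k : ℕ, (PP d μ).real {ω | ¬ GoodBox (potc M lam ω) z 0 (lsc q l0 L0 k) (Lsc q L0 k)
      (Real.exp (-(m * Lsc q L0 k)))} ≤ a * Real.exp (-((3 / 2 : ℝ) ^ k))

/-- the decoupling constant -/
def CD (M lam : ℝ) (K : ℝ≥0) : ℝ≥0∞ :=
  1 + ENNReal.ofReal (2 * lam * M) ^ (1 / 8 : ℝ) * (2 * C2 M lam K) ^ (1 / 2 : ℝ)

end Pool.Agent.Helper3.Crit
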