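import Pool.Agent.Helper3.Crit.Prob1
import Pool.Agent.Helper3.Crit.Prob2Core
import Pool.Agent.Helper3.Crit.SkelDefs2

/-! Multiscale analysis with doubly exponentially small probabilities. -/

open scoped ENNReal NNReal InnerProductSpace
open MeasureTheory Set Filter Topology

noncomputable section

namespace Pool.Agent.Helper3.Crit

open Pool.Agent.Helper3.Anderson

variable {d : ℕ} {μ : Measure ℝ} [IsProbabilityMeasure μ] {M lam : ℝ} {K : ℝ≥0}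

/-- the constant of the induction -/
def pb3_a (d : ℕ) : ℝ := 1 / (3 * 2 ^ (32 * d) * (2 ^ (8 * d) * ((8 * d).factorial : ℝ)))

lemma pb3_a_pos (d : ℕ) : 0 < pb3_a d := by
  unfold pb3_a
  have : (0 : ℝ) < ((8 * d).factorial : ℝ) := by exact_mod_cast Nat.factorial_pos _
  positivity

lemma pb3_grow (d k : ℕ) : ((2 : ℝ) ^ k) ^ (4 * d)
    ≤ 2 ^ (8 * d) * ((8 * d).factorial : ℝ) * Real.exp ((3 / 2 : ℝ) ^ k / 2) := by
  have hy0 : (0 : ℝ) ≤ (3 / 2 : ℝ) ^ k := by positivity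
  have h1 : (2 : ℝ) ^ k ≤ ((3 / 2 : ℝ) ^ k) ^ 2 := by
    rw [← pow_mul, mul_comm, pow_mul]
    exact pow_le_pow_left₀ (by norm_num) (by norm_num) _
  have h2 : ((2 : ℝ) ^ k) ^ (4 * d) ≤ ((3 / 2 : ℝ) ^ k) ^ (8 * d) := by
    calc ((2 : ℝ) ^ k) ^ (4 * d) ≤ (((3 / 2 : ℝ) ^ k) ^ 2) ^ (4 * d) :=
          pow_le_pow_left₀ (by positivity) h1 _
      _ = ((3 / 2 : ℝ) ^ k) ^ (8 * d) := by
          rw [← pow_mul]; congr 1; ring
  have h3 := Real.pow_div_factorial_le_exp ((3 / 2 : ℝ) ^ k / 2) (by positivity) (8 * d)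
  have hf : (0 : ℝ) < ((8 * d).factorial : ℝ) := by exact_mod_cast Nat.factorial_pos _
  rw [div_le_iff₀ hf, div_pow, div_le_iff₀ (by positivity)] at h3
  calc ((2 : ℝ) ^ k) ^ (4 * d) ≤ ((3 / 2 : ℝ) ^ k) ^ (8 * d) := h2
    _ ≤ Real.exp ((3 / 2 : ℝ) ^ k / 2) * ((8 * d).factorial : ℝ) * 2 ^ (8 * d) := h3
    _ = 2 ^ (8 * d) * ((8 * d).factorial : ℝ) * Real.exp ((3 / 2 : ℝ) ^ k / 2) := by ring

lemma pb3_main (d k : ℕ) {p : ℝ} (hp0 : 0 ≤ p)
    (hp : p ≤ pb3_a d * Real.exp (-((3 / 2 : ℝ) ^ k))) :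
    ((2 * 2 ^ (2 * k + 2 * 6 + 2) + 1 : ℕ) : ℝ) ^ (2 * d) * p ^ 2
      ≤ pb3_a d / 3 * Real.exp (-((3 / 2 : ℝ) ^ (k + 1))) := by
  have ha := pb3_a_pos d
  have hA := pb2_A 6 k (le_refl ((2 : ℝ) ^ k))
  have hg := pb3_grow d k
  have hf : (0 : ℝ) < ((8 * d).factorial : ℝ) := by exact_mod_cast Nat.factorial_pos _
  set y : ℝ := (3 / 2 : ℝ) ^ k with hy
  have e3 : ((2 : ℝ) ^ (2 * 6 + 4) * (2 ^ k) ^ 2) ^ (2 * d) = 2 ^ (32 * d) * (2 ^ k) ^ (4 * d) := by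
    rw [mul_pow, ← pow_mul, ← pow_mul (2 ^ k) 2]
    congr 2 <;> ring
  have e4 : pb3_a d * (2 ^ (32 * d) * (2 ^ k) ^ (4 * d)) ≤ 1 / 3 * Real.exp (y / 2) := by
    calc pb3_a d * (2 ^ (32 * d) * (2 ^ k) ^ (4 * d))
        ≤ pb3_a d * (2 ^ (32 * d) * (2 ^ (8 * d) * ((8 * d).factorial : ℝ) * Real.exp (y / 2))) := by
          gcongr
      _ = 1 / 3 * Real.exp (y / 2) := by
          unfold pb3_a
          field_simp
  have e5 : Real.exp (y / 2) * (Real.exp (-y)) ^ 2 = Real.exp (-((3 / 2 : ℝ) ^ (k + 1))) := by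
    rw [← Real.exp_nat_mul, ← Real.exp_add]
    congr 1
    rw [pow_succ, ← hy]
    push_cast
    ring
  calc ((2 * 2 ^ (2 * k + 2 * 6 + 2) + 1 : ℕ) : ℝ) ^ (2 * d) * p ^ 2
      ≤ ((2 : ℝ) ^ (2 * 6 + 4) * (2 ^ k) ^ 2) ^ (2 * d)
        * (pb3_a d * Real.exp (-y)) ^ 2 := by gcongr
    _ = pb3_a d * (pb3_a d * (2 ^ (32 * d) * (2 ^ k) ^ (4 * d))) * (Real.exp (-y)) ^ 2 := by
        rw [e3]; ring
    _ ≤ pb3_a d * (1 / 3 * Real.exp (y / 2)) * (Real.exp (-y)) ^ 2 := by gcongr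
    _ = pb3_a d / 3 * (Real.exp (y / 2) * (Real.exp (-y)) ^ 2) := by ring
    _ = pb3_a d / 3 * Real.exp (-((3 / 2 : ℝ) ^ (k + 1))) := by rw [e5]

lemma pb3_tail {T c x y m ε P : ℝ} {D : ℕ} (hε : 0 ≤ ε)
    (hT0 : 0 ≤ T) (hP : 1 ≤ P)
    (hT : T * P ≤ c * (x ^ D * Real.exp (-(m / 8 * x))))
    (h : c * (x ^ D * Real.exp (-(m / 16 * x))) ≤ ε) (hy : y ≤ m / 16 * x) :
    T ≤ ε * Real.exp (-y) := by
  have h0 : T ≤ T * P := le_mul_of_one_le_right hT0 hP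
  have e1 : Real.exp (-(m / 8 * x)) = Real.exp (-(m / 16 * x)) * Real.exp (-(m / 16 * x)) := by
    rw [← Real.exp_add]; congr 1; ring
  calc T ≤ c * (x ^ D * Real.exp (-(m / 8 * x))) := h0.trans hT
    _ = c * (x ^ D * Real.exp (-(m / 16 * x))) * Real.exp (-(m / 16 * x)) := by rw [e1]; ring
    _ ≤ ε * Real.exp (-(m / 16 * x)) := mul_le_mul_of_nonneg_right h (Real.exp_pos _).le
    _ ≤ ε * Real.exp (-y) := by
        apply mul_le_mul_of_nonneg_left _ hε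
        apply Real.exp_le_exp.2
        linarith

theorem msa2_core (d : ℕ) (hS : MsaStep d μ M lam K) {m : ℝ} (hm : 0 < m) :
    ∃ (q : ℕ) (a0 a : ℝ) (Lmin : ℕ), 2 ≤ q ∧ 0 < a0 ∧ ∀ l0 L0 : ℕ, Lmin ≤ L0 → 1 ≤ l0 →
      4 * l0 ≤ L0 →
      L0 ≤ 2 ^ (q + 1) * l0 → ∀ z : ℂ, 0 ≤ z.im →
      (PP d μ).real {ω | ¬ GoodBox (potc M lam ω) z 0 l0 L0
        (Real.exp (-(m * ((L0 + l0 + 1 : ℕ) : ℝ))))} ≤ a0 →
      MSA2 d μ M lam z q l0 L0 (m / 2) a := by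
  set a0 : ℝ := pb3_a d with ha0
  have ha0p : 0 < a0 := pb3_a_pos d
  obtain ⟨c1, hc1, hw1⟩ := pb2_wg1 d 6 m M lam K hm
  obtain ⟨c2, hc2, hw2⟩ := pb2_wg2 d 6 m M lam K hm
  obtain ⟨Lmin, hLmin⟩ := eventually_atTop.1
    ((pb2_ev hc1 (show 0 < m / 16 by positivity) (show 0 < a0 / 3 by positivity) (9 * d + 1)).and
      (pb2_ev hc2 (show 0 < m / 16 by positivity) (show 0 < a0 / 3 by positivity) (10 * d + 1)))
  obtain ⟨L1, hL1'⟩ := exists_nat_ge (24 / m)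
  refine ⟨6, a0 * Real.exp (-1), a0, max Lmin L1, by norm_num, by positivity, ?_⟩
  intro l0 L0 hL0' hl0 h4 hr z hz hinit
  have hL0 : Lmin ≤ L0 := (le_max_left _ _).trans hL0'
  have hL0m : 24 ≤ m * L0 := by
    have h1 : L1 ≤ L0 := (le_max_right _ _).trans hL0'
    have h2 : (L1 : ℝ) ≤ L0 := by exact_mod_cast h1
    have h3 : 24 / m ≤ L0 := hL1'.trans h2
    rwa [div_le_iff₀ hm, mul_comm] at h3
  set mk : ℕ → ℝ := fun k => m * (1 - 18 / 2 ^ 6 * (1 - (1 / 2) ^ k)) with hmk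
  have hhalf : ∀ k : ℕ, (0 : ℝ) < (1 / 2) ^ k ∧ ((1 : ℝ) / 2) ^ k ≤ 1 := fun k =>
    ⟨by positivity, pow_le_one₀ (by norm_num) (by norm_num)⟩
  have hmk1 : ∀ k, mk k ≤ m := fun k => by
    have := hhalf k
    simp only [hmk]
    nlinarith only [mul_nonneg hm.le (sub_nonneg.2 this.2)]
  have hmk2 : ∀ k, m / 2 < mk k := fun k => by
    have := hhalf k
    simp only [hmk]
    nlinarith only [mul_pos hm this.1, hm]
  have key : ∀ k : ℕ, (PP d μ).real {ω | ¬ GoodBox (potc M lam ω) z 0 (lsc 6 l0 L0 k)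
      (Lsc 6 L0 k) (Real.exp (-(mk k * ((Lsc 6 L0 k + lsc 6 l0 L0 k + 1 : ℕ) : ℝ))))}
      ≤ a0 * Real.exp (-((3 / 2 : ℝ) ^ k)) := by
    intro k
    induction k with
    | zero =>
      simp only [Lsc, lsc, hmk, pow_zero, sub_self, mul_zero, sub_zero, mul_one]
      exact hinit
    | succ k ih =>
      set L := Lsc 6 L0 k with hL
      set l := lsc 6 l0 L0 k with hl
      have hl1 : 1 ≤ l := pb2_one_le hl0 h4 k
      have h4k : 4 * l ≤ L := pb2_four (by norm_num) h4 k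
      have hL1 : 1 ≤ L := by omega
      have h2k : (2 : ℝ) ^ k ≤ L := by
        have := pb2_two_pow 6 L0 k
        have h1 : 2 ^ k ≤ L := le_trans (Nat.le_mul_of_pos_right _ (by omega)) this
        exact_mod_cast h1
      have hLL : Lmin ≤ L := by
        have := pb2_two_pow 6 L0 k
        have h1 : L0 ≤ L := le_trans (Nat.le_mul_of_pos_left _ (Nat.two_pow_pos k)) this
        omega
      set Y : ℕ := 2 ^ (k + 1 + 6) with hY
      have hY128 : 128 ≤ Y := by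
        calc 128 = 2 ^ 7 := by norm_num
          _ ≤ 2 ^ (k + 1 + 6) := Nat.pow_le_pow_right (by norm_num) (by omega)
      obtain ⟨n, hn1, hn2⟩ := pb2_n hl1 h4k hY128
      set N : ℝ := ((L + l + 1 : ℕ) : ℝ) with hN
      have hN0 : 0 < N := by rw [hN]; positivity
      have hYr : (128 : ℝ) ≤ (Y : ℝ) := by exact_mod_cast hY128
      have hLr : (1 : ℝ) ≤ (L : ℝ) := by exact_mod_cast hL1
      set N' : ℝ := ((Lsc 6 L0 (k + 1) + lsc 6 l0 L0 (k + 1) + 1 : ℕ) : ℝ) with hN'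
      have hN'e : N' = (Y : ℝ) * L + L + 1 := by
        rw [hN', pb2_succ, pb2_succ', ← hL, ← hY]
        push_cast
        ring
      have hstep := hS hz (l := l) (L := L) (l' := L) (L' := Y * L) (n := n)
        (A := 2 ^ (2 * k + 2 * 6 + 2)) (ρ := Real.exp (-(mk k * N))) (t := m * N / 2)
        (t' := m * N' / Y) hl1 (by omega) (Real.exp_pos _).le
        (Real.exp_le_one_iff.2 (by have := hmk2 k; have : 0 < mk k * N := mul_pos (by linarith) hN0; linarith))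
        (by rw [hN'e]; positivity)
        (by
          rw [← Real.exp_add, Real.exp_lt_one_iff]
          have := mul_lt_mul_of_pos_right (hmk2 k) hN0
          linarith)
        hn1
        (by
          have h1 := pb2_ratio hr k
          rw [← hL, ← hl] at h1
          calc Y * L ≤ Y * (2 ^ (k + 6 + 1) * l) := Nat.mul_le_mul_left _ h1
            _ = 2 ^ (2 * k + 2 * 6 + 2) * l := by rw [hY]; ring)
      have hrho : Real.exp (-(mk k * N)) ^ n * Real.exp (m * N' / Y)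
          ≤ Real.exp (-(mk (k + 1) * N')) := by
        rw [← Real.exp_nat_mul, ← Real.exp_add]
        apply Real.exp_le_exp.2
        have h1 : (Y : ℝ) * L ≤ n * N + 12 * L := by
          rw [hN]; exact_mod_cast hn2
        have h2 := pb2_exp hm (hmk1 k) (hmk2 k).le hYr hLr hN'e h1
        have h3 : mk (k + 1) = mk k - 18 * m / Y := by
          simp only [hmk, hY]
          push_cast
          rw [one_div_pow, one_div_pow, pow_add (2 : ℝ) (k + 1) 6, pow_succ]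
          field_simp
          ring
        rw [h3]
        linarith
      have hp := pb3_main d k measureReal_nonneg ih
      have hy : (3 / 2 : ℝ) ^ (k + 1) ≤ m / 16 * L := by
        have h1 : (2 : ℝ) ^ k * L0 ≤ L := by exact_mod_cast pb2_two_pow 6 L0 k
        have h2 : (3 / 2 : ℝ) ^ k ≤ 2 ^ k := pow_le_pow_left₀ (by norm_num) (by norm_num) _
        have h3 : (0 : ℝ) ≤ 2 ^ k := by positivity
        have h4 : m * ((2 : ℝ) ^ k * L0) ≤ m * L := mul_le_mul_of_nonneg_left h1 hm.le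
        rw [pow_succ]
        nlinarith only [mul_le_mul_of_nonneg_left hL0m h3, h2, h4]
      have hwg0 : ∀ (L' : ℕ) (t : ℝ), 0 ≤ wg d M lam K L' t := fun L' t => by
        unfold wg
        positivity
      have hP : (1 : ℝ) ≤ 2 ^ ((4 * d + 1) * (k + 1)) := one_le_pow₀ (by norm_num)
      have h1 := pb3_tail (by positivity : 0 ≤ a0 / 3)
        (mul_nonneg (by positivity) (hwg0 _ _)) hP
        (hw1 k L l N hL1 (by omega) h2k (by rw [hN]; push_cast; linarith [Nat.cast_nonneg (α := ℝ) l]))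
        (hLmin L hLL).1 hy
      have h2 := pb3_tail (by positivity : 0 ≤ a0 / 3) (hwg0 _ _) hP
        (hw2 k L (m * N' / Y) hL1 h2k (by
          rw [le_div_iff₀ (by linarith), hN'e]
          nlinarith only [mul_nonneg hm.le (by linarith : (0 : ℝ) ≤ (L : ℝ) + 1)])) (hLmin L hLL).2 hy
      have h3 := (pb2_prob_mono (μ := μ) (M := M) (lam := lam) z L (Y * L) hrho).trans
        (hstep.trans (add_le_add (add_le_add hp h1) h2))
      have h4 : pb3_a d / 3 * Real.exp (-((3 / 2 : ℝ) ^ (k + 1)))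
          + a0 / 3 * Real.exp (-((3 / 2 : ℝ) ^ (k + 1)))
          + a0 / 3 * Real.exp (-((3 / 2 : ℝ) ^ (k + 1)))
            = a0 * Real.exp (-((3 / 2 : ℝ) ^ (k + 1))) := by
        rw [ha0]; ring
      rw [h4] at h3
      exact h3
  intro k
  refine (pb2_prob_mono z _ _ ?_).trans (key k)
  apply Real.exp_le_exp.2
  have h1 : (Lsc 6 L0 k : ℝ) ≤ ((Lsc 6 L0 k + lsc 6 l0 L0 k + 1 : ℕ) : ℝ) := by
    exact_mod_cast (by omega : Lsc 6 L0 k ≤ Lsc 6 L0 k + lsc 6 l0 L0 k + 1)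
  have h2 : m / 2 * (Lsc 6 L0 k : ℝ)
      ≤ mk k * ((Lsc 6 L0 k + lsc 6 l0 L0 k + 1 : ℕ) : ℝ) :=
    mul_le_mul (hmk2 k).le h1 (by positivity) (by linarith [hmk2 k])
  linarith

theorem msa2 (d : ℕ) (hμ : GoodLaw μ M K) (hlam : 0 < lam) {m : ℝ} (hm : 0 < m) :
    ∃ (q : ℕ) (a0 a : ℝ) (Lmin : ℕ), 2 ≤ q ∧ 0 < a0 ∧ ∀ l0 L0 : ℕ, Lmin ≤ L0 → 1 ≤ l0 →
      4 * l0 ≤ L0 → L0 ≤ 2 ^ (q + 1) * l0 → ∀ z : ℂ, 0 ≤ z.im →
      (PP d μ).real {ω | ¬ GoodBox (potc M lam ω) z 0 l0 L0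
        (Real.exp (-(m * ((L0 + l0 + 1 : ℕ) : ℝ))))} ≤ a0 →
      MSA2 d μ M lam z q l0 L0 (m / 2) a := by
  refine msa2_core (K := K) d ?_ hm
  intro z hz l L l' L' n A ρ t t' h1 h2 h3 h4 h5 h6 h7 h8
  exact msa_step hμ hlam hz h1 h2 h3 h4 h5 h6 h7 h8

end Pool.Agent.Helper3.Crit
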