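import Pool.Agent.Helper3.Crit.Path
import Pool.Agent.Helper3.Anderson.FinalA

/-! Lattice symmetries of the Lyapunov norm. -/

open scoped ENNReal NNReal InnerProductSpace
open MeasureTheory Set Filter Topology

noncomputable section

namespace Pool.Agent.Helper3.Crit

open Pool.Agent.Helper3.Anderson

variable {d : ℕ} {μ : Measure ℝ} [IsProbabilityMeasure μ] {M lam : ℝ} {K : ℝ≥0}

namespace SymmL

/-- a lattice symmetry fixing the origin -/
structure IsSym (T : Site d ≃ Site d) : Prop where
  add : ∀ x y, T (x + y) = T x + T y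
  lap : ∀ (ψ : Site d → ℂ) (x : Site d), lap (fun w => ψ (T w)) x = lap ψ (T x)

lemma IsSym.zero {T : Site d ≃ Site d} (hT : IsSym T) : T 0 = 0 := by
  have h := hT.add 0 0
  rw [add_zero] at h
  have h2 : T 0 + 0 = T 0 + T 0 := by rw [add_zero]; exact h
  exact (add_left_cancel h2).symm

lemma IsSym.nsmul {T : Site d ≃ Site d} (hT : IsSym T) (n : ℕ) (v : Site d) :
    T (n • v) = n • T v := by
  induction n with
  | zero => rw [zero_smul, zero_smul, hT.zero]
  | succ n ih => rw [succ_nsmul, succ_nsmul, hT.add, ih]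

lemma green_sym {T : Site d ≃ Site d} (hT : IsSym T) (V : Site d → ℝ) (hV : Bdd V) {z : ℂ}
    (hz0 : 0 < z.im) (x : Site d) :
    green (fun w => V (T w)) z x 0 = green V z (T x) 0 := by
  have hVT : Bdd (fun w => V (T w)) := by
    obtain ⟨C, hC⟩ := hV
    exact ⟨C, fun w => hC _⟩
  set G : Site d → ℂ := fun x => green V z x 0 with hG
  symm
  refine isGreen_unique (fun w => V (T w)) hVT hz0 (y := 0)
    (ψ := fun x => G (T x)) ⟨?_, fun x => ?_⟩ x
  · have hm : Memℓp G 2 := by
      have : G = fun x => res V hV z (dl 0) x := by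
        funext x
        rw [hG]
        exact green_eq _ hV z x 0
      rw [this]
      exact lp.memℓp _
    have h2 : 0 < (2 : ENNReal).toReal := by norm_num
    have hs : Summable (fun x => ‖G x‖ ^ (2 : ENNReal).toReal) := hm.summable h2
    exact memℓp_gen (hs.comp_injective T.injective)
  · have h := green_equation V hV hz0 (T x) 0
    have h1 : lap (fun x => G (T x)) x = lap (fun w => green V z w 0) (T x) := hT.lap G x
    rw [h1]
    have h2 : (if x = 0 then (1 : ℂ) else 0) = if T x = 0 then 1 else 0 := by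
      have : T x = 0 ↔ x = 0 := by
        constructor
        · intro h; rw [← hT.zero] at h; exact T.injective h
        · rintro rfl; exact hT.zero
      simp only [this]
    rw [h2, ← h]

/-- the law of a transformed configuration is the same -/
lemma measurePreserving_equiv (T : Site d ≃ Site d) :
    MeasurePreserving (fun (ω : Site d → ℝ) x => ω (T x)) (PP d μ) (PP d μ) := by
  refine ⟨?_, ?_⟩
  · rw [measurable_pi_iff]
    intro x
    exact measurable_pi_apply _
  · have h := Measure.infinitePi_map_piCongrLeft (fun _ : Fin d → ℤ => μ) T.symm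
    have h2 : ⇑(MeasurableEquiv.piCongrLeft (fun _ : Fin d → ℤ => ℝ) T.symm)
        = fun (ω : (Fin d → ℤ) → ℝ) x => ω (T x) := by
      funext ω x
      rw [MeasurableEquiv.coe_piCongrLeft]
      have : x = T.symm (T x) := by simp
      conv_lhs => rw [this]
      rw [Equiv.piCongrLeft_apply_apply]
    rw [h2] at h
    exact h

lemma uu_sym (hM : 0 ≤ M) {z : ℂ} (hz0 : 0 < z.im) {T : Site d ≃ Site d} (hT : IsSym T)
    (v : Site d) : uu μ M lam z (T v) = uu μ M lam z v := by
  unfold uu
  have hmp := measurePreserving_equiv (μ := μ) T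
  have hm : Measurable fun ω : Site d → ℝ => Real.log ‖gc M lam z ω v 0‖ :=
    Real.measurable_log.comp (measurable_gc hM hz0 v 0).norm
  have h1 : ∫ ω, Real.log ‖gc M lam z ω v 0‖ ∂((PP d μ).map fun (ω : Site d → ℝ) x => ω (T x))
      = ∫ ω, Real.log ‖gc M lam z (fun x => ω (T x)) v 0‖ ∂(PP d μ) :=
    integral_map hmp.measurable.aemeasurable hm.aestronglyMeasurable
  rw [hmp.map_eq] at h1
  rw [h1]
  refine integral_congr_ae (Eventually.of_forall fun ω => ?_)
  have h2 := green_sym hT (potc M lam ω) (bdd_potc hM ω) hz0 v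
  simp only
  congr 2
  exact h2.symm

lemma LL_sym (hμ : GoodLaw μ M K) (hlam : 0 < lam) {z : ℂ} (hz0 : 0 < z.im)
    {T : Site d ≃ Site d} (hT : IsSym T) (v : Site d) :
    LL μ M lam K z hμ hlam hz0 (T v) = LL μ M lam K z hμ hlam hz0 v := by
  have hM : 0 ≤ M := by linarith [hμ.one_le]
  have h1 := tendsto_LL hμ hlam hz0 (T v)
  have h2 := tendsto_LL hμ hlam hz0 v
  refine tendsto_nhds_unique h1 (h2.congr fun n => ?_)
  rw [← hT.nsmul, uu_sym hM hz0 hT]

/-- sign flips -/
def flip (s : Fin d → ℤˣ) : Site d ≃ Site d where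
  toFun x := fun i => (s i : ℤ) * x i
  invFun x := fun i => (s i : ℤ) * x i
  left_inv x := by
    funext i
    simp only
    rw [← mul_assoc]
    rcases Int.units_eq_one_or (s i) with h | h <;> simp [h]
  right_inv x := by
    funext i
    simp only
    rw [← mul_assoc]
    rcases Int.units_eq_one_or (s i) with h | h <;> simp [h]

lemma flip_apply (s : Fin d → ℤˣ) (x : Site d) (i : Fin d) : flip s x i = (s i : ℤ) * x i := rfl

lemma isSym_flip (s : Fin d → ℤˣ) : IsSym (flip s) := by
  constructor
  · intro x y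
    funext i
    simp only [flip_apply, Pi.add_apply]
    ring
  · intro ψ x
    have h1 : ∀ j, flip s (x + Pi.single j 1) = flip s x + Pi.single j (s j : ℤ) := by
      intro j
      funext i
      simp only [flip_apply, Pi.add_apply]
      by_cases h : i = j
      · subst h; simp [mul_add]
      · simp [h]
    have h2 : ∀ j, flip s (x - Pi.single j 1) = flip s x - Pi.single j (s j : ℤ) := by
      intro j
      funext i
      simp only [flip_apply, Pi.sub_apply]
      by_cases h : i = j
      · subst h; simp [mul_sub]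
      · simp [h]
    unfold Anderson.lap
    refine Finset.sum_congr rfl fun j _ => ?_
    beta_reduce
    rw [h1, h2]
    rcases Int.units_eq_one_or (s j) with h | h
    · rw [h]; rfl
    · rw [h]
      simp only [Units.val_neg, Units.val_one, Pi.single_neg, sub_neg_eq_add,
        ← sub_eq_add_neg]
      rw [add_comm]

/-- permutations of the coordinates -/
def perm (σ : Equiv.Perm (Fin d)) : Site d ≃ Site d where
  toFun x := fun i => x (σ i)
  invFun x := fun i => x (σ.symm i)
  left_inv x := by funext i; simp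
  right_inv x := by funext i; simp

lemma perm_apply (σ : Equiv.Perm (Fin d)) (x : Site d) (i : Fin d) : perm σ x i = x (σ i) := rfl

lemma perm_single (σ : Equiv.Perm (Fin d)) (j : Fin d) (m : ℤ) :
    perm σ (Pi.single j m) = Pi.single (σ.symm j) m := by
  funext i
  rw [perm_apply]
  by_cases h : σ i = j
  · subst h; simp
  · have h' : i ≠ σ.symm j := by
      rintro rfl; exact h (by simp)
    rw [Pi.single_eq_of_ne h, Pi.single_eq_of_ne h']

lemma isSym_perm (σ : Equiv.Perm (Fin d)) : IsSym (perm σ) := by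
  have hadd : ∀ x y : Site d, perm σ (x + y) = perm σ x + perm σ y := fun x y => by
    funext i; simp [perm_apply]
  have hsub : ∀ x y : Site d, perm σ (x - y) = perm σ x - perm σ y := fun x y => by
    funext i; simp [perm_apply]
  refine ⟨hadd, ?_⟩
  intro ψ x
  unfold Anderson.lap
  simp only [hadd, hsub, perm_single]
  exact Equiv.sum_comp σ.symm (fun j => ψ (perm σ x + Pi.single j 1) - ψ (perm σ x) +
    (ψ (perm σ x - Pi.single j 1) - ψ (perm σ x)))

lemma LL_e (hμ : GoodLaw μ M K) (hlam : 0 < lam) {z : ℂ} (hz0 : 0 < z.im) (i j : Fin d) :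
    LL μ M lam K z hμ hlam hz0 (Pi.single j 1 : Site d) =
      LL μ M lam K z hμ hlam hz0 (Pi.single i 1 : Site d) := by
  have h := LL_sym hμ hlam hz0 (isSym_perm (Equiv.swap i j)) (Pi.single i 1)
  rw [perm_single] at h
  simpa using h

lemma LL_zero' (hμ : GoodLaw μ M K) (hlam : 0 < lam) {z : ℂ} (hz0 : 0 < z.im) :
    LL μ M lam K z hμ hlam hz0 (0 : Site d) = 0 := by
  have := LL_nsmul hμ hlam hz0 0 (0 : Site d)
  simpa using this

lemma LL_single' (hμ : GoodLaw μ M K) (hlam : 0 < lam) {z : ℂ} (hz0 : 0 < z.im) (j : Fin d)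
    (m : ℤ) : LL μ M lam K z hμ hlam hz0 (Pi.single j m : Site d) =
      (m.natAbs : ℝ) * LL μ M lam K z hμ hlam hz0 (Pi.single j 1 : Site d) := by
  obtain ⟨n, rfl | rfl⟩ := m.eq_nat_or_neg
  · have h1 : (Pi.single j (n : ℤ) : Site d) = n • (Pi.single j 1 : Site d) := by
      rw [← Pi.single_smul]
      congr 1
      simp
    rw [h1, LL_nsmul]
    simp
  · have h1 : (Pi.single j (-(n : ℤ)) : Site d) = -(n • (Pi.single j 1 : Site d)) := by
      rw [← Pi.single_smul, ← Pi.single_neg]
      congr 1
      simp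
    rw [h1, LL_neg, LL_nsmul]
    simp

end SymmL

open SymmL

/-! ## SYMM -/

theorem LL_shape_lower (hμ : GoodLaw μ M K) (hlam : 0 < lam) {z : ℂ} (hz0 : 0 < z.im)
    (v : Site d) (i : Fin d) :
    sn v * LL μ M lam K z hμ hlam hz0 (Pi.single i 1) ≤ LL μ M lam K z hμ hlam hz0 v := by
  obtain ⟨j, hj⟩ : ∃ j, (v j).natAbs = sn v := by
    obtain ⟨j, _, hj⟩ := Finset.exists_mem_eq_sup (Finset.univ : Finset (Fin d))
      ⟨i, Finset.mem_univ i⟩ (fun i => (v i).natAbs)
    exact ⟨j, hj.symm⟩
  set s : Fin d → ℤˣ := fun k => if k = j then 1 else -1 with hs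
  have h1 : v + flip s v = Pi.single j (2 * v j) := by
    funext k
    rw [Pi.add_apply, flip_apply]
    by_cases h : k = j
    · subst h; simp [hs]; ring
    · simp [hs, h]
  have h2 := LL_add_le hμ hlam hz0 v (flip s v)
  rw [h1, LL_single' hμ hlam hz0, LL_sym hμ hlam hz0 (isSym_flip s), LL_e hμ hlam hz0 i j] at h2
  have h3 : ((2 * v j).natAbs : ℝ) = 2 * sn v := by
    rw [Int.natAbs_mul, ← hj]; push_cast; norm_num
  rw [h3] at h2
  linarith

theorem LL_shape_upper (hμ : GoodLaw μ M K) (hlam : 0 < lam) {z : ℂ} (hz0 : 0 < z.im)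
    (v : Site d) (i : Fin d) :
    LL μ M lam K z hμ hlam hz0 v ≤ l1 v * LL μ M lam K z hμ hlam hz0 (Pi.single i 1) := by
  have h1 : ∀ s : Finset (Fin d), LL μ M lam K z hμ hlam hz0 (∑ j ∈ s, Pi.single j (v j)) ≤
      (∑ j ∈ s, ((v j).natAbs : ℝ)) * LL μ M lam K z hμ hlam hz0 (Pi.single i 1) := by
    classical
    intro s
    induction s using Finset.induction_on with
    | empty => simp [LL_zero' hμ hlam hz0]
    | insert j s hj ih =>
      rw [Finset.sum_insert hj, Finset.sum_insert hj]
      have h2 := LL_add_le hμ hlam hz0 (Pi.single j (v j)) (∑ j ∈ s, Pi.single j (v j))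
      rw [LL_single' hμ hlam hz0 j (v j), LL_e hμ hlam hz0 i j] at h2
      linarith
  have h4 := h1 Finset.univ
  rw [Finset.univ_sum_single] at h4
  unfold l1
  push_cast
  exact h4

end Pool.Agent.Helper3.Crit
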