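import Pool.Agent.Helper3.Crit.SkelDefs
import Pool.Agent.Helper3.Crit.Neg3

/-! Upper bound of the Lyapunov norm by the `l¹` norm, uniformly up to the real axis. -/

open scoped ENNReal NNReal InnerProductSpace
open MeasureTheory Set Filter Topology

noncomputable section

namespace Pool.Agent.Helper3.Crit

open Pool.Agent.Helper3.Anderson

variable {d : ℕ} {μ : Measure ℝ} [IsProbabilityMeasure μ] {M lam : ℝ} {K : ℝ≥0}

lemma l1_nsmul (n : ℕ) (v : Site d) : l1 (n • v) = n * l1 v := by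
  rw [l1, l1, Finset.mul_sum]
  refine Finset.sum_congr rfl fun i _ => ?_
  rw [Pi.smul_apply, nsmul_eq_mul, Int.natAbs_mul, Int.natAbs_natCast]

/-- the moment bound for the logarithm -/
lemma neg_uu_le (hμ : GoodLaw μ M K) (hlam : 0 < lam) {z : ℂ} (hz0 : 0 < z.im) {B : ℝ}
    (hB : 2 * d + ‖z‖ + 2 ≤ B) (v : Site d) :
    -uu μ M lam z v ≤ 2 * ((l1 v + 1) * Real.log (max 1 (C5 d M lam K B).toReal)) := by
  have hM : 0 ≤ M := by linarith [hμ.one_le]
  have hB0 : (0 : ℝ) ≤ B := by have := norm_nonneg z; linarith [Nat.cast_nonneg (α := ℝ) d]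
  have h1 := neg_moment hμ hlam hz0 hB v 0
  rw [zero_sub, l1_neg] at h1
  set c : ℝ≥0∞ := C5 d M lam K B with hc
  have hctop : c ≠ ⊤ := C5_ne_top d M lam K hB0
  set c' : ℝ := max 1 c.toReal with hc'
  have hc1 : 1 ≤ c' := le_max_left _ _
  set a : ℝ := c' ^ (l1 v + 1) with ha
  have ha1 : 1 ≤ a := one_le_pow₀ hc1
  have h2 : ∫⁻ ω, ‖gc M lam z ω v 0‖ₑ ^ (-(1/2 : ℝ)) ∂(PP d μ) ≤ ENNReal.ofReal a := by
    refine h1.trans ?_
    have : c ≤ ENNReal.ofReal c' := by
      rw [← ENNReal.ofReal_toReal hctop]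
      exact ENNReal.ofReal_le_ofReal (le_max_right _ _)
    rw [ha, ENNReal.ofReal_pow (by linarith)]
    gcongr
  have ha0 : 0 < a := by linarith
  have hmg : Measurable fun ω : Site d → ℝ => ‖gc M lam z ω v 0‖ :=
    (measurable_gc hM hz0 v 0).norm
  have hmge : Measurable fun ω : Site d → ℝ => ‖gc M lam z ω v 0‖ₑ ^ (-(1/2 : ℝ)) :=
    (measurable_gc hM hz0 v 0).enorm.pow_const _
  have hne : ∀ᵐ ω ∂(PP d μ), gc M lam z ω v 0 ≠ 0 := by
    have := ae_lt_top hmge (h2.trans_lt ENNReal.ofReal_lt_top).ne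
    filter_upwards [this] with ω hω h0
    rw [h0, enorm_zero, ENNReal.zero_rpow_of_neg (by norm_num)] at hω
    exact absurd hω (lt_irrefl _)
  set X : (Site d → ℝ) → ℝ := fun ω => ‖gc M lam z ω v 0‖ ^ (-(1/2 : ℝ)) with hX
  have hXe : ∀ᵐ ω ∂(PP d μ), ENNReal.ofReal (X ω) = ‖gc M lam z ω v 0‖ₑ ^ (-(1/2 : ℝ)) := by
    filter_upwards [hne] with ω hω
    rw [hX, ← ofReal_norm, ENNReal.ofReal_rpow_of_pos (norm_pos_iff.2 hω)]
  have hX0 : ∀ ω, 0 ≤ X ω := fun ω => Real.rpow_nonneg (norm_nonneg _) _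
  have hXm : Measurable X := hmg.pow_const _
  have hXl : ∫⁻ ω, ENNReal.ofReal (X ω) ∂(PP d μ) ≤ ENNReal.ofReal a := by
    rw [lintegral_congr_ae hXe]; exact h2
  have hXi : Integrable X (PP d μ) := by
    refine ⟨hXm.aestronglyMeasurable, ?_⟩
    rw [hasFiniteIntegral_iff_ofReal (Eventually.of_forall hX0)]
    exact hXl.trans_lt ENNReal.ofReal_lt_top
  have hXa : ∫ ω, X ω ∂(PP d μ) ≤ a := by
    rw [integral_eq_lintegral_of_nonneg_ae (Eventually.of_forall hX0) hXm.aestronglyMeasurable]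
    exact ENNReal.toReal_le_of_le_ofReal ha0.le hXl
  have i1 := integrable_log (K := K) hμ hlam hz0 v 0
  have hlog : ∀ᵐ ω ∂(PP d μ), -Real.log ‖gc M lam z ω v 0‖ ≤
      2 * (X ω / a - 1 + Real.log a) := by
    filter_upwards [hne] with ω hω
    have hpos : 0 < ‖gc M lam z ω v 0‖ := norm_pos_iff.2 hω
    have hXpos : 0 < X ω := Real.rpow_pos_of_pos hpos _
    have h3 : Real.log (X ω) = -(1/2) * Real.log ‖gc M lam z ω v 0‖ := by
      rw [hX]; exact Real.log_rpow hpos _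
    have h4 : Real.log (X ω / a) ≤ X ω / a - 1 := Real.log_le_sub_one_of_pos (by positivity)
    rw [Real.log_div hXpos.ne' ha0.ne', h3] at h4
    linarith
  have h5 : -uu μ M lam z v ≤ ∫ ω, 2 * (X ω / a - 1 + Real.log a) ∂(PP d μ) := by
    unfold uu
    rw [← integral_neg]
    refine integral_mono_ae i1.neg ?_ hlog
    exact (((hXi.div_const a).sub (integrable_const 1)).add (integrable_const _)).const_mul 2
  have h6 : ∫ ω, 2 * (X ω / a - 1 + Real.log a) ∂(PP d μ) =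
      2 * ((∫ ω, X ω ∂(PP d μ)) / a - 1 + Real.log a) := by
    have i2 : Integrable (fun ω => X ω / a) (PP d μ) := hXi.div_const a
    have i3 : Integrable (fun ω => X ω / a - 1) (PP d μ) := i2.sub (integrable_const 1)
    rw [integral_const_mul, integral_add i3 (integrable_const _),
      integral_sub i2 (integrable_const 1), integral_div]
    simp
  rw [h6] at h5
  have h7 : (∫ ω, X ω ∂(PP d μ)) / a ≤ 1 := by rw [div_le_one ha0]; exact hXa
  have h8 : Real.log a = (l1 v + 1) * Real.log c' := by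
    rw [ha, Real.log_pow]; push_cast; ring
  rw [h8] at h5
  linarith

theorem LL_le_l1 (hμ : GoodLaw μ M K) (hlam : 0 < lam) (d : ℕ) (R : ℝ) :
    ∃ C : ℝ, 0 ≤ C ∧ ∀ (z : ℂ) (hz0 : 0 < z.im), ‖z‖ ≤ R → ∀ v : Site d,
      LL μ M lam K z hμ hlam hz0 v ≤ C * l1 v := by
  set B : ℝ := 2 * d + R + 2 with hB
  set a := Real.log (max 1 (C5 d M lam K B).toReal) with ha
  have ha0 : 0 ≤ a := Real.log_nonneg (le_max_left _ _)
  refine ⟨2 * a, by positivity, fun z hz0 hzR v => ?_⟩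
  have h1 := tendsto_LL hμ hlam hz0 v
  have h2 : Tendsto (fun n : ℕ => 2 * (a * l1 v) + (2 * a) / (n : ℝ)) atTop
      (𝓝 (2 * (a * l1 v) + 0)) :=
    tendsto_const_nhds.add (tendsto_const_div_atTop_nhds_zero_nat _)
  rw [add_zero] at h2
  have h3 : LL μ M lam K z hμ hlam hz0 v ≤ 2 * (a * l1 v) := by
    refine le_of_tendsto_of_tendsto h1 h2 ?_
    filter_upwards [eventually_gt_atTop 0] with n hn
    have hn' : (0 : ℝ) < n := by exact_mod_cast hn
    have h4 := neg_uu_le hμ hlam hz0 (B := B) (by rw [hB]; linarith) (n • v)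
    rw [l1_nsmul] at h4
    rw [div_le_iff₀ hn']
    refine h4.trans (le_of_eq ?_)
    rw [← ha]
    push_cast
    field_simp
  linarith

end Pool.Agent.Helper3.Crit
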