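import Pool.Agent.Helper3.Crit.Init2
import Pool.Agent.Helper3.Crit.Msa2
import Pool.Agent.Helper3.Crit.FmDec
import Pool.Agent.Helper3.Crit.Fml
import Pool.Agent.Helper3.Crit.SymmL
import Pool.Agent.Helper3.Crit.Ub
import Pool.Agent.Helper3.Weak.Avg

/-! The Lyapunov norm vanishes in the mean off the set of fractional moment localisation. -/

open scoped ENNReal NNReal InnerProductSpace
open MeasureTheory Set Filter Topology

noncomputable section

namespace Pool.Agent.Helper3.Crit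

open Pool.Agent.Helper3.Anderson

variable {d : ℕ} {μ : Measure ℝ} [IsProbabilityMeasure μ] {M lam : ℝ} {K : ℝ≥0}

/-- initial scale, multiscale analysis and fractional moments near a real energy -/
theorem init_fm (hμ : GoodLaw μ M K) (hlam : 0 < lam) {E B : ℝ}
    {g : Site d → Site d → (Site d → ℝ) → ℂ} (hp : Proc μ M lam K (E : ℂ) B g) (hB0 : 0 ≤ B)
    {m Cd : ℝ} (hm : 0 < m) (hc : ∀ v : Site d, m * sn v - Cd ≤ Proc.en μ g v) :
    ∃ r > 0, ∃ C > 0, ∃ c > 0, ∀ z : ℂ, 0 < z.im → ‖z - E‖ < r → ∀ x y : Site d,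
      ∫⁻ ω, ‖gc M lam z ω x y‖ₑ ^ (1 / 8 : ℝ) ∂(PP d μ)
        ≤ ENNReal.ofReal (C * Real.exp (-(c * sn (x - y)))) := by
  obtain ⟨q, a0, a, Lmin, hq, ha0, H⟩ := msa2 d hμ hlam (m := m / 8) (by linarith)
  obtain ⟨L, hL, r, hr, hI⟩ := init_scale hμ hlam hp hB0 hm hc ha0 (max Lmin 4)
  have hL1 : Lmin ≤ L := (le_max_left _ _).trans hL
  have hL4 : 4 ≤ L := (le_max_right _ _).trans hL
  have h1 : 1 ≤ L / 4 := by omega
  have h4 : 4 * (L / 4) ≤ L := by omega
  have h5 : L ≤ 2 ^ (q + 1) * (L / 4) := by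
    have : (8 : ℕ) ≤ 2 ^ (q + 1) := by
      calc (8 : ℕ) = 2 ^ 3 := by norm_num
        _ ≤ 2 ^ (q + 1) := Nat.pow_le_pow_right (by norm_num) (by omega)
    have h6 := Nat.mul_le_mul_right (L / 4) this
    omega
  obtain ⟨C, c, hC, hc', HF⟩ := fm_decay d hμ hlam (q := q) (l0 := L / 4) (L0 := L)
    (m := m / 8 / 2) (a := a) h1 h4 (by linarith)
  refine ⟨r, hr, C, hC, c, hc', fun z hz hzr x y => HF z hz ?_ x y⟩
  refine H (L / 4) L hL1 h1 h4 h5 z hz.le ?_
  refine le_trans (measureReal_mono ?_ ) (hI (L / 4) h4 z hzr)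
  intro ω hω hg
  refine hω (fun ψ b hb0 hb hsol y hy => (hg ψ b hb0 hb hsol y hy).trans ?_)
  refine mul_le_mul_of_nonneg_right (Real.exp_le_exp.2 ?_) hb0
  rw [neg_le_neg_iff]
  have h7 : L + L / 4 + 1 ≤ 2 * L := by omega
  have h8 : ((L + L / 4 + 1 : ℕ) : ℝ) ≤ 2 * L := by exact_mod_cast h7
  nlinarith

/-- the Lyapunov norm as a total function of the spectral parameter -/
def Ly (hμ : GoodLaw μ M K) (hlam : 0 < lam) (z : ℂ) (v : Site d) : ℝ :=
  if h : 0 < z.im then LL μ M lam K z hμ hlam h v else 0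

lemma Ly_eq (hμ : GoodLaw μ M K) (hlam : 0 < lam) {z : ℂ} (hz0 : 0 < z.im) (v : Site d) :
    Ly hμ hlam z v = LL μ M lam K z hμ hlam hz0 v := by
  rw [Ly, dif_pos hz0]

lemma Ly_nonneg (hμ : GoodLaw μ M K) (hlam : 0 < lam) (z : ℂ) (v : Site d) :
    0 ≤ Ly hμ hlam z v := by
  unfold Ly
  split_ifs with h
  · exact LL_nonneg hμ hlam h v
  · exact le_rfl

/-- the set of energies near which fractional moments decay exponentially -/
def FMS (d : ℕ) (μ : Measure ℝ) [IsProbabilityMeasure μ] (M lam : ℝ) : Set ℝ :=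
  {E | ∃ r > 0, ∃ C > 0, ∃ c > 0, ∀ z : ℂ, 0 < z.im → ‖z - E‖ < r → ∀ x y : Site d,
    ∫⁻ ω, ‖gc M lam z ω x y‖ₑ ^ (1 / 8 : ℝ) ∂(PP d μ)
      ≤ ENNReal.ofReal (C * Real.exp (-(c * sn (x - y))))}

lemma isOpen_FMS (d : ℕ) (μ : Measure ℝ) [IsProbabilityMeasure μ] (M lam : ℝ) :
    IsOpen (FMS d μ M lam) := by
  rw [Metric.isOpen_iff]
  rintro E ⟨r, hr, C, hC, c, hc, h⟩
  refine ⟨r / 2, by linarith, fun E' hE' => ⟨r / 2, by linarith, C, hC, c, hc,
    fun z hz hzr x y => ?_⟩⟩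
  refine h z hz ?_ x y
  rw [Metric.mem_ball, Real.dist_eq] at hE'
  calc ‖z - E‖ = ‖(z - E') + ((E' : ℂ) - E)‖ := by ring_nf
    _ ≤ ‖z - E'‖ + ‖(E' : ℂ) - E‖ := norm_add_le _ _
    _ < r / 2 + r / 2 := by
        refine add_lt_add hzr ?_
        rw [← Complex.ofReal_sub, Complex.norm_real, Real.norm_eq_abs]; exact hE'
    _ = r := by ring

/-- in the set of fractional moment localisation the Lyapunov norm is uniformly positive -/
theorem Ly_lower (hμ : GoodLaw μ M K) (hlam : 0 < lam) {E : ℝ} (hE : E ∈ FMS d μ M lam) :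
    ∃ r > 0, ∃ m > 0, ∀ z : ℂ, 0 < z.im → ‖z - E‖ < r → ∀ v : Site d,
      m * sn v ≤ Ly hμ hlam z v := by
  obtain ⟨r, hr, C, hC, c, hc, h⟩ := hE
  refine ⟨r, hr, 8 * c, by positivity, fun z hz hzr v => ?_⟩
  rw [Ly_eq hμ hlam hz]
  refine LL_ge_of_fm hμ hlam hz (C := C) (fun x => ?_) v
  have := h z hz hzr x 0
  rwa [sub_zero] at this

/-- positivity along a sequence at one energy of convergence gives fractional moment localisation
in a neighbourhood -/
theorem mem_FMS (hμ : GoodLaw μ M K) (hlam : 0 < lam) {E : ℝ} {ε : ℕ → ℝ}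
    (hε : ∀ k, 0 < ε k) (hε1 : ∀ k, ε k ≤ 1) (hε0 : Tendsto ε atTop (𝓝 0))
    (hconv : ∀ᵐ ω ∂(PP d μ), ∀ x y : Site d,
      ∃ l, Tendsto (fun k => gc M lam ((E : ℂ) + ε k * Complex.I) ω x y) atTop (𝓝 l))
    {c : ℝ} (hc : 0 < c)
    (hfreq : ∃ᶠ k in atTop, ∀ v : Site d, c * sn v ≤ Ly hμ hlam ((E : ℂ) + ε k * Complex.I) v) :
    E ∈ FMS d μ M lam := by
  have hB : 2 * (d : ℝ) + (|E| + 1) + 2 ≤ 2 * d + (|E| + 1) + 2 := le_rfl
  have hB0 : (0 : ℝ) ≤ 2 * d + (|E| + 1) + 2 := by positivity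
  have hp := proc_gE hμ hlam hε hε1 hε0 hB hconv
  have hen : ∀ v : Site d, c * sn v - Clog M lam K ≤ Proc.en μ (gE (d := d) M lam E ε) v := by
    intro v
    refine en_gE_lower hμ hlam hε hε1 hε0 hB hconv v (hfreq.mono fun k hk => ?_)
    have him : 0 < ((E : ℂ) + ε k * Complex.I).im := by simpa using hε k
    have h1 := hk v
    rw [Ly_eq hμ hlam him] at h1
    have h2 := uu_le_LL hμ hlam him v
    linarith
  exact init_fm hμ hlam hp hB0 hc hen

lemma measurable_Ly (hμ : GoodLaw μ M K) (hlam : 0 < lam) {η : ℝ} (hη : 0 < η) (x : Site d) :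
    Measurable fun E : ℝ => Ly hμ hlam ((E : ℂ) + η * Complex.I) x := by
  have : (fun E : ℝ => Ly hμ hlam ((E : ℂ) + η * Complex.I) x)
      = fun E : ℝ => LL μ M lam K ((E : ℂ) + η * Complex.I) hμ hlam (Weak.him hη E) x := by
    funext E
    exact Ly_eq hμ hlam (Weak.him hη E) x
  rw [this]
  exact Weak.measurable_LL hμ hlam hη x

lemma Ly_bound (hμ : GoodLaw μ M K) (hlam : 0 < lam) (d : ℕ) (a b : ℝ) :
    ∃ C : ℝ, 0 ≤ C ∧ ∀ E ∈ Icc a b, ∀ η : ℝ, 0 < η → η ≤ 1 → ∀ v : Site d,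
      Ly hμ hlam ((E : ℂ) + η * Complex.I) v ≤ C * l1 v := by
  obtain ⟨C, hC, H⟩ := LL_le_l1 hμ hlam d (max |a| |b| + 1)
  refine ⟨C, hC, fun E hE η hη hη1 v => ?_⟩
  have him : 0 < ((E : ℂ) + η * Complex.I).im := by simpa using hη
  rw [Ly_eq hμ hlam him]
  refine H _ him ?_ v
  refine (norm_add_le _ _).trans ?_
  rw [norm_mul, Complex.norm_I, mul_one, Complex.norm_real, Complex.norm_real, Real.norm_eq_abs,
    Real.norm_eq_abs, abs_of_pos hη]
  refine add_le_add ?_ hη1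
  exact abs_le_max_abs_abs hE.1 hE.2

lemma integrableOn_Ly (hμ : GoodLaw μ M K) (hlam : 0 < lam) {η : ℝ} (hη : 0 < η) (hη1 : η ≤ 1)
    (a b : ℝ) (x : Site d) :
    IntegrableOn (fun E : ℝ => Ly hμ hlam ((E : ℂ) + η * Complex.I) x) (Icc a b) := by
  obtain ⟨C, hC, H⟩ := Ly_bound hμ hlam d a b
  refine Measure.integrableOn_of_bounded (M := C * l1 x) (by simp)
    (measurable_Ly hμ hlam hη x).aestronglyMeasurable ?_
  filter_upwards [ae_restrict_mem measurableSet_Icc] with E hE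
  rw [Real.norm_eq_abs, abs_of_nonneg (Ly_nonneg _ _ _ _)]
  exact H E hE η hη hη1 x

/-- off the set of fractional moment localisation the Lyapunov norm vanishes in the mean at the
real axis -/
theorem mean_vanish (hμ : GoodLaw μ M K) (hlam : 0 < lam) (a b : ℝ) (x : Site d) :
    Tendsto (fun η : ℝ => ∫ E in Icc a b \ FMS d μ M lam, Ly hμ hlam ((E : ℂ) + η * Complex.I) x)
      (𝓝[>] 0) (𝓝 0) := by
  by_contra hcon
  rw [not_tendsto_iff_exists_frequently_notMem] at hcon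
  obtain ⟨s, hs, hfr⟩ := hcon
  have hfr2 : ∃ᶠ η : ℝ in 𝓝[>] 0, (0 < η ∧ η ≤ 1) ∧
      (∫ E in Icc a b \ FMS d μ M lam, Ly hμ hlam ((E : ℂ) + η * Complex.I) x) ∉ s := by
    refine (hfr.and_eventually (Ioc_mem_nhdsGT (show (0 : ℝ) < 1 by norm_num))).mono ?_
    rintro η ⟨h1, h2⟩
    exact ⟨⟨h2.1, h2.2⟩, h1⟩
  obtain ⟨η, hη0, hη⟩ := exists_seq_forall_of_frequently hfr2
  have hηt : Tendsto η atTop (𝓝 0) := hη0.mono_right nhdsWithin_le_nhds
  obtain ⟨φ, hφ, hbv⟩ := exists_bv (d := d) hμ hlam (fun j => (hη j).1.1) hηt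
  have hεt : Tendsto (fun k => η (φ k)) atTop (𝓝 0) := hηt.comp hφ.tendsto_atTop
  have hmeas : MeasurableSet (Icc a b \ FMS d μ M lam) :=
    measurableSet_Icc.diff (isOpen_FMS d μ M lam).measurableSet
  obtain ⟨C, hC, HC⟩ := Ly_bound hμ hlam d a b
  have hae : ∀ᵐ E : ℝ ∂(volume.restrict (Icc a b \ FMS d μ M lam)),
      Tendsto (fun k => Ly hμ hlam ((E : ℂ) + (η (φ k) : ℝ) * Complex.I) x) atTop (𝓝 0) := by
    filter_upwards [ae_restrict_mem hmeas, ae_restrict_of_ae hbv] with E hE hEbv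
    by_contra hnt
    rw [not_tendsto_iff_exists_frequently_notMem] at hnt
    obtain ⟨t, ht, hft⟩ := hnt
    obtain ⟨c, hc, hct⟩ := Metric.mem_nhds_iff.1 ht
    have hfc : ∃ᶠ k in atTop, c ≤ Ly hμ hlam ((E : ℂ) + (η (φ k) : ℝ) * Complex.I) x := by
      refine hft.mono fun k hk => ?_
      by_contra hlt
      refine hk (hct ?_)
      rw [Metric.mem_ball, Real.dist_eq, sub_zero, abs_of_nonneg (Ly_nonneg _ _ _ _)]
      exact not_le.1 hlt
    refine hE.2 ?_
    have hx : x ≠ 0 := by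
      rintro rfl
      obtain ⟨k, hk⟩ := hfc.exists
      have him : 0 < ((E : ℂ) + (η (φ k) : ℝ) * Complex.I).im := by simpa using (hη (φ k)).1.1
      rw [Ly_eq hμ hlam him] at hk
      have h0 := LL_nsmul hμ hlam him 0 (0 : Site d)
      rw [zero_smul] at h0
      rw [h0] at hk
      simp at hk
      linarith
    obtain ⟨i, hi⟩ : ∃ i, x i ≠ 0 := by
      by_contra hcon
      push Not at hcon
      exact hx (funext hcon)
    have hl : 0 < (l1 x : ℝ) := by
      have : l1 x ≠ 0 := fun h => hx (l1_eq_zero h)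
      exact_mod_cast Nat.pos_of_ne_zero this
    refine mem_FMS hμ hlam (ε := fun k => η (φ k)) (fun k => (hη (φ k)).1.1)
      (fun k => (hη (φ k)).1.2) hεt hEbv (c := c / l1 x) (by positivity) ?_
    refine hfc.mono fun k hk v => ?_
    have him : 0 < ((E : ℂ) + (η (φ k) : ℝ) * Complex.I).im := by simpa using (hη (φ k)).1.1
    rw [Ly_eq hμ hlam him] at hk
    show c / l1 x * sn v ≤ Ly hμ hlam ((E : ℂ) + (η (φ k) : ℝ) * Complex.I) v
    rw [Ly_eq hμ hlam him]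
    have h1 := LL_shape_upper hμ hlam him x i
    have h2 := LL_shape_lower hμ hlam him v i
    refine le_trans ?_ h2
    rw [mul_comm]
    refine mul_le_mul_of_nonneg_left ?_ (Nat.cast_nonneg _)
    rw [div_le_iff₀ hl, mul_comm]
    exact hk.trans h1
  have hlim : Tendsto (fun k => ∫ E in Icc a b \ FMS d μ M lam,
      Ly hμ hlam ((E : ℂ) + (η (φ k) : ℝ) * Complex.I) x) atTop (𝓝 (∫ E in Icc a b \ FMS d μ M lam,
        (0 : ℝ))) := by
    refine tendsto_integral_of_dominated_convergence (fun _ => C * l1 x) ?_ ?_ ?_ hae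
    · intro k
      exact (measurable_Ly hμ hlam (hη (φ k)).1.1 x).aestronglyMeasurable
    · refine integrableOn_const ?_
      exact ((measure_mono sdiff_subset).trans_lt (by simp [Real.volume_Icc])).ne
    · intro k
      filter_upwards [ae_restrict_mem hmeas] with E hE
      rw [Real.norm_eq_abs, abs_of_nonneg (Ly_nonneg _ _ _ _)]
      exact HC E hE.1 _ (hη (φ k)).1.1 (hη (φ k)).1.2 x
  rw [integral_zero] at hlim
  obtain ⟨k, hk⟩ := (hlim.eventually hs).exists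
  exact (hη (φ k)).2 hk

end Pool.Agent.Helper3.Crit
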