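import Pool.Agent.Helper3.Crit.SkelDefs
import Pool.Agent.Helper3.Weak.Avg

/-! Spectral averaging for null sets. -/

open scoped ENNReal NNReal InnerProductSpace
open MeasureTheory Set Filter Topology

noncomputable section

namespace Pool.Agent.Helper3.Crit

open Pool.Agent.Helper3.Anderson ProbabilityTheory

variable {d : ℕ} {μ : Measure ℝ} [IsProbabilityMeasure μ] {M lam : ℝ} {K : ℝ≥0}

/-! ### The Poisson kernel -/

lemma sa_cauchy_le {t E : ℝ} {γ : ℝ≥0} {δ : ℝ} (hδ : 0 < δ) (h : δ ≤ |E - t|) :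
    cauchyPDF t γ E ≤ ENNReal.ofReal (γ * (1 + 1 / δ ^ 2)) * cauchyPDF t 1 E := by
  rw [cauchyPDF, cauchyPDF, ← ENNReal.ofReal_mul (by positivity)]
  refine ENNReal.ofReal_le_ofReal ?_
  rw [cauchyPDFReal_def, cauchyPDFReal_def]
  have h1 : δ ^ 2 ≤ (E - t) ^ 2 := by
    rw [← sq_abs (E - t)]; exact pow_le_pow_left₀ hδ.le h 2
  have h2 : 0 < (E - t) ^ 2 := lt_of_lt_of_le (by positivity) h1
  have h3 : ((E - t) ^ 2 + (γ : ℝ) ^ 2)⁻¹ ≤ (1 + 1 / δ ^ 2) * ((E - t) ^ 2 + 1)⁻¹ := by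
    have h4 : ((E - t) ^ 2 + (γ : ℝ) ^ 2)⁻¹ ≤ ((E - t) ^ 2)⁻¹ :=
      inv_anti₀ h2 (by nlinarith [sq_nonneg (γ : ℝ)])
    refine h4.trans ?_
    rw [← div_eq_mul_inv, le_div_iff₀ (by positivity), inv_mul_le_iff₀ h2]
    have h5 : (1 : ℝ) ≤ (E - t) ^ 2 * (1 / δ ^ 2) := by
      rw [mul_one_div, le_div_iff₀ (by positivity)]; linarith
    nlinarith
  have h6 : (0 : ℝ) ≤ Real.pi⁻¹ * γ := by positivity
  calc Real.pi⁻¹ * (γ : ℝ) * ((E - t) ^ 2 + (γ : ℝ) ^ 2)⁻¹
      ≤ Real.pi⁻¹ * (γ : ℝ) * ((1 + 1 / δ ^ 2) * ((E - t) ^ 2 + 1)⁻¹) :=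
        mul_le_mul_of_nonneg_left h3 h6
    _ = γ * (1 + 1 / δ ^ 2) * (Real.pi⁻¹ * ((1 : ℝ≥0) : ℝ) * ((E - t) ^ 2 + ((1 : ℝ≥0) : ℝ) ^ 2)⁻¹) := by
        simp only [NNReal.coe_one]; ring

/-- the parameters of the approximation -/
def saEps (j : ℕ) : ℝ≥0 := 1 / ((j : ℝ≥0) + 1)

lemma saEps_ne (j : ℕ) : saEps j ≠ 0 := by unfold saEps; positivity

lemma saEps_pos (j : ℕ) : (0 : ℝ) < saEps j := by
  have := saEps_ne j
  exact_mod_cast pos_iff_ne_zero.2 this

lemma saEps_tendsto : Tendsto (fun j => (saEps j : ℝ)) atTop (𝓝 0) := by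
  have h : (fun j => (saEps j : ℝ)) = fun j : ℕ => 1 / ((j : ℝ) + 1) := by
    funext j; simp [saEps]
  rw [h]; exact tendsto_one_div_add_atTop_nhds_zero_nat

lemma sa_liminf_cauchy {O : Set ℝ} (hO : IsOpen O) {t : ℝ} (ht : t ∈ O) :
    1 ≤ liminf (fun j => ∫⁻ E in O, cauchyPDF t (saEps j) E) atTop := by
  obtain ⟨δ, hδ, hball⟩ := Metric.isOpen_iff.1 hO t ht
  have hfar : ∀ E ∈ Oᶜ, δ ≤ |E - t| := by
    intro E hE
    by_contra hlt
    exact hE (hball (by rw [Metric.mem_ball, Real.dist_eq]; exact not_le.1 hlt))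
  have hmain : ∀ j, 1 - ENNReal.ofReal (saEps j * (1 + 1 / δ ^ 2))
      ≤ ∫⁻ E in O, cauchyPDF t (saEps j) E := by
    intro j
    rw [tsub_le_iff_right]
    calc (1 : ℝ≥0∞) = ∫⁻ E, cauchyPDF t (saEps j) E := (lintegral_cauchyPDF_eq_one t (saEps_ne j)).symm
      _ = (∫⁻ E in O, cauchyPDF t (saEps j) E) + ∫⁻ E in Oᶜ, cauchyPDF t (saEps j) E :=
          (lintegral_add_compl _ hO.measurableSet).symm
      _ ≤ (∫⁻ E in O, cauchyPDF t (saEps j) E)
          + ∫⁻ E in Oᶜ, ENNReal.ofReal (saEps j * (1 + 1 / δ ^ 2)) * cauchyPDF t 1 E := by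
          refine add_le_add_right (setLIntegral_mono' hO.measurableSet.compl fun E hE => ?_) _
          exact sa_cauchy_le hδ (hfar E hE)
      _ ≤ (∫⁻ E in O, cauchyPDF t (saEps j) E)
          + ∫⁻ E, ENNReal.ofReal (saEps j * (1 + 1 / δ ^ 2)) * cauchyPDF t 1 E := by
          exact add_le_add_right (setLIntegral_le_lintegral _ _) _
      _ = (∫⁻ E in O, cauchyPDF t (saEps j) E) + ENNReal.ofReal (saEps j * (1 + 1 / δ ^ 2)) := by
          rw [lintegral_const_mul _ (by fun_prop), lintegral_cauchyPDF_eq_one t one_ne_zero, mul_one]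
  have hlim : Tendsto (fun j => 1 - ENNReal.ofReal (saEps j * (1 + 1 / δ ^ 2))) atTop (𝓝 1) := by
    have h1 : Tendsto (fun j => (saEps j : ℝ) * (1 + 1 / δ ^ 2)) atTop (𝓝 0) := by
      have := saEps_tendsto.mul_const (1 + 1 / δ ^ 2)
      rwa [zero_mul] at this
    have h2 := ENNReal.tendsto_ofReal h1
    have h3 := ENNReal.Tendsto.sub (tendsto_const_nhds (x := (1 : ℝ≥0∞))) h2 (Or.inl (by simp))
    simpa using h3
  rw [← hlim.liminf_eq]
  exact liminf_le_liminf (Eventually.of_forall hmain)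

lemma sa_poisson {ν : Measure ℝ} [IsFiniteMeasure ν] (E : ℝ) (γ : ℝ≥0) (hγ : γ ≠ 0) :
    ∫⁻ t, cauchyPDF t γ E ∂ν = ENNReal.ofReal (Real.pi⁻¹ *
      ∫ t : ℝ, ((E : ℂ) + (γ : ℝ) * Complex.I).im / ‖(t : ℂ) - ((E : ℂ) + (γ : ℝ) * Complex.I)‖ ^ 2 ∂ν) := by
  have hγ' : (0 : ℝ) < γ := by exact_mod_cast pos_iff_ne_zero.2 hγ
  have him : ((E : ℂ) + (γ : ℝ) * Complex.I).im = γ := by simp
  have hn : ∀ t : ℝ, ‖(t : ℂ) - ((E : ℂ) + (γ : ℝ) * Complex.I)‖ ^ 2 = (E - t) ^ 2 + (γ : ℝ) ^ 2 := by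
    intro t
    rw [← Complex.normSq_eq_norm_sq, Complex.normSq_apply]
    simp
    ring
  have hint : Integrable (fun t : ℝ => (γ : ℝ) / ((E - t) ^ 2 + (γ : ℝ) ^ 2)) ν := by
    refine Integrable.of_bound (C := 1 / γ) (Measurable.aestronglyMeasurable (by fun_prop))
      (Eventually.of_forall fun t => ?_)
    rw [Real.norm_eq_abs, abs_of_nonneg (by positivity), div_le_div_iff₀ (by positivity) hγ']
    nlinarith [sq_nonneg (E - t)]
  rw [← integral_const_mul, ofReal_integral_eq_lintegral_ofReal]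
  · refine lintegral_congr fun t => ?_
    rw [him, hn, cauchyPDF, cauchyPDFReal_def]
    congr 1
    ring
  · simp only [him, hn]
    exact hint.const_mul _
  · refine Eventually.of_forall fun t => ?_
    simp only [him, hn]
    positivity

lemma sa_measure_le {O : Set ℝ} (hO : IsOpen O) {ν : Measure ℝ} [IsFiniteMeasure ν]
    {p : ℕ → ℝ → ℝ≥0∞}
    (hp : ∀ (j : ℕ) (E : ℝ), ENNReal.ofReal (Real.pi⁻¹ *
      ∫ t : ℝ, ((E : ℂ) + (saEps j : ℝ) * Complex.I).im
        / ‖(t : ℂ) - ((E : ℂ) + (saEps j : ℝ) * Complex.I)‖ ^ 2 ∂ν) ≤ p j E) :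
    ν O ≤ liminf (fun j => ∫⁻ E in O, p j E) atTop := by
  have hjm : ∀ γ : ℝ≥0, Measurable (Function.uncurry fun t E : ℝ => cauchyPDF t γ E) := by
    intro γ
    have : (Function.uncurry fun t E : ℝ => cauchyPDF t γ E) = fun q : ℝ × ℝ =>
        ENNReal.ofReal (Real.pi⁻¹ * γ * ((q.2 - q.1) ^ 2 + (γ : ℝ) ^ 2)⁻¹) := by
      funext q; rfl
    rw [this]
    fun_prop
  have hqm : ∀ j, Measurable fun t => ∫⁻ E in O, cauchyPDF t (saEps j) E := fun j =>
    Measurable.lintegral_prod_right (hjm (saEps j))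
  calc ν O = ∫⁻ _ in O, 1 ∂ν := by simp
    _ ≤ ∫⁻ t in O, liminf (fun j => ∫⁻ E in O, cauchyPDF t (saEps j) E) atTop ∂ν :=
        setLIntegral_mono' hO.measurableSet fun t ht => sa_liminf_cauchy hO ht
    _ ≤ ∫⁻ t, liminf (fun j => ∫⁻ E in O, cauchyPDF t (saEps j) E) atTop ∂ν :=
        setLIntegral_le_lintegral _ _
    _ ≤ liminf (fun j => ∫⁻ t, (∫⁻ E in O, cauchyPDF t (saEps j) E) ∂ν) atTop :=
        lintegral_liminf_le hqm
    _ ≤ liminf (fun j => ∫⁻ E in O, p j E) atTop := by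
        refine liminf_le_liminf (Eventually.of_forall fun j => ?_)
        rw [lintegral_lintegral_swap (hjm (saEps j)).aemeasurable]
        refine lintegral_mono fun E => ?_
        rw [sa_poisson E (saEps j) (saEps_ne j)]
        exact hp j E

/-! ### Averaging over one site -/

lemma sa_im_pos (hM : 0 ≤ M) {z : ℂ} (hz0 : 0 < z.im) (ω : Site d → ℝ) (x : Site d) :
    0 < (gc M lam z ω x x).im := by
  have h1 := ward (potc M lam ω) (bdd_potc hM ω) hz0 x
  have h2 : 0 < ‖res (potc M lam ω) (bdd_potc hM ω) z (dl x)‖ := by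
    rw [norm_pos_iff]
    intro h
    have h3 : dl x = 0 := by
      rw [← hz_res (potc M lam ω) (bdd_potc hM ω) hz0.ne' (dl x), h, map_zero]
    have h4 := norm_dl x
    rw [h3, norm_zero] at h4
    norm_num at h4
  have h3 : 0 < z.im * ‖res (potc M lam ω) (bdd_potc hM ω) z (dl x)‖ ^ 2 := by positivity
  rw [h1] at h3
  exact h3

omit [IsProbabilityMeasure μ] in
lemma sa_one_site (hμ : GoodLaw μ M K) (hlam : 0 < lam) {z : ℂ} (hz0 : 0 < z.im)
    (ω : Site d → ℝ) (x : Site d) :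
    ∫⁻ t, ENNReal.ofReal (Real.pi⁻¹ * (gc M lam z (Function.update ω x t) x x).im) ∂μ
      ≤ K * ENNReal.ofReal (1 / lam) := by
  have hM : 0 ≤ M := by linarith [hμ.one_le]
  have hae : ∀ᵐ t ∂μ, |t| ≤ M := by
    have : ∀ᵐ t ∂μ, t ∈ Icc (-M) M := by rw [ae_iff]; exact hμ.supp
    filter_upwards [this] with t ht
    exact abs_le.2 ht
  set g := gc M lam z (Function.update ω x 0) x x with hg
  have hgi : 0 < g.im := sa_im_pos hM hz0 _ x
  have hn2 : 0 < g.re ^ 2 + g.im ^ 2 := by positivity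
  set α : ℝ := g.re / (g.re ^ 2 + g.im ^ 2) with hα
  set β : ℝ := g.im / (g.re ^ 2 + g.im ^ 2) with hβ
  have hβ0 : 0 < β := div_pos hgi hn2
  set γ : ℝ≥0 := ⟨β / lam, by positivity⟩ with hγ
  have hγ0 : γ ≠ 0 := by
    intro h
    have : β / lam = 0 := congrArg NNReal.toReal h
    have h2 : 0 < β / lam := by positivity
    linarith
  have hkey : ∀ t : ℝ, |t| ≤ M →
      ENNReal.ofReal (Real.pi⁻¹ * (gc M lam z (Function.update ω x t) x x).im)
        = ENNReal.ofReal (1 / lam) * cauchyPDF (-(α / lam)) γ t := by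
    intro t ht
    have h1 := (gc_update (lam := lam) hM hz0 ω x ht).1 x
    rw [← hg] at h1
    have hne : 1 + (t : ℂ) * (lam * g) ≠ 0 := one_add_ne_zero hM hz0 ω x ht
    have h2 : gc M lam z (Function.update ω x t) x x = g / (1 + (t : ℂ) * (lam * g)) := by
      rw [eq_div_iff hne]; exact h1
    have h3 : (g / (1 + (t : ℂ) * (lam * g))).im
        = g.im / ((1 + t * lam * g.re) ^ 2 + (t * lam * g.im) ^ 2) := by
      rw [Complex.div_im]
      have e1 : (1 + (t : ℂ) * (lam * g)).re = 1 + t * lam * g.re := by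
        simp; ring
      have e2 : (1 + (t : ℂ) * (lam * g)).im = t * lam * g.im := by
        simp; ring
      rw [Complex.normSq_apply, e1, e2]
      have h5 : (1 + t * lam * g.re) * (1 + t * lam * g.re)
          + (t * lam * g.im) * (t * lam * g.im) ≠ 0 := by
        intro h
        apply hne
        have h6 : (1 + t * lam * g.re) = 0 := by
          nlinarith [mul_self_nonneg (1 + t * lam * g.re), mul_self_nonneg (t * lam * g.im)]
        have h7 : (t * lam * g.im) = 0 := by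
          nlinarith [mul_self_nonneg (1 + t * lam * g.re), mul_self_nonneg (t * lam * g.im)]
        apply Complex.ext
        · rw [e1, h6]; rfl
        · rw [e2, h7]; rfl
      have h6 : (1 + t * lam * g.re) * (1 + t * lam * g.re)
          + (t * lam * g.im) * (t * lam * g.im)
          = (1 + t * lam * g.re) ^ 2 + (t * lam * g.im) ^ 2 := by ring
      rw [h6] at h5 ⊢
      rw [← sub_div]
      congr 1
      ring
    have h4 : (1 + t * lam * g.re) ^ 2 + (t * lam * g.im) ^ 2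
        = (g.re ^ 2 + g.im ^ 2) * ((α + lam * t) ^ 2 + β ^ 2) := by
      rw [hα, hβ]; field_simp; ring
    have h5 : 0 < (α + lam * t) ^ 2 + β ^ 2 := by positivity
    rw [h2, h3, h4, cauchyPDF, ← ENNReal.ofReal_mul (by positivity), cauchyPDFReal_def]
    congr 1
    have h6 : (γ : ℝ) = β / lam := rfl
    rw [h6]
    have h7 : (t - -(α / lam)) ^ 2 + (β / lam) ^ 2 = ((α + lam * t) ^ 2 + β ^ 2) / lam ^ 2 := by
      field_simp; ring
    rw [h7]
    have hpi := Real.pi_ne_zero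
    have h9 : g.im / ((g.re ^ 2 + g.im ^ 2) * ((α + lam * t) ^ 2 + β ^ 2))
        = β / ((α + lam * t) ^ 2 + β ^ 2) := by
      rw [← div_div, ← hβ]
    rw [h9, inv_div]
    field_simp
  calc ∫⁻ t, ENNReal.ofReal (Real.pi⁻¹ * (gc M lam z (Function.update ω x t) x x).im) ∂μ
      = ∫⁻ t, ENNReal.ofReal (1 / lam) * cauchyPDF (-(α / lam)) γ t ∂μ := by
        refine lintegral_congr_ae ?_
        filter_upwards [hae] with t ht
        exact hkey t ht
    _ ≤ ∫⁻ t, ENNReal.ofReal (1 / lam) * cauchyPDF (-(α / lam)) γ t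
          ∂((K : ℝ≥0∞) • (volume : Measure ℝ)) := lintegral_mono' hμ.dens le_rfl
    _ = K * ENNReal.ofReal (1 / lam) := by
        rw [lintegral_smul_measure, lintegral_const_mul _ (by fun_prop),
          lintegral_cauchyPDF_eq_one _ hγ0, mul_one, smul_eq_mul]

/-! ### The theorem -/

theorem spec_avg (hμ : GoodLaw μ M K) (hlam : 0 < lam) (x : Site d) (t0 : ℝ)
    {N : Set (ℝ × (Site d → ℝ))} (hN : MeasurableSet N)
    (hN0 : ∀ᵐ ω ∂(PP d μ), ∀ᵐ E : ℝ, (E, Function.update ω x t0) ∉ N) :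
    ∀ᵐ ω ∂(PP d μ), ∀ ν : Measure ℝ, IsFiniteMeasure ν →
      (∀ z : ℂ, 0 < z.im → ∫ t : ℝ, z.im / ‖(t : ℂ) - z‖ ^ 2 ∂ν ≤ (gc M lam z ω x x).im) →
      ν {E | (E, Function.update ω x t0) ∈ N} = 0 := by
  have hM : 0 ≤ M := by linarith [hμ.one_le]
  set T : (Site d → ℝ) → (Site d → ℝ) := fun ω => Function.update ω x t0 with hT
  have hTm : Measurable T :=
    (measurable_update_prod x).comp (measurable_id.prodMk measurable_const)
  set P0 : Measure (Site d → ℝ) := (PP d μ).map T with hP0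
  have : IsProbabilityMeasure P0 := Measure.isProbabilityMeasure_map hTm.aemeasurable
  have hm0 : ((volume : Measure ℝ).prod P0) N = 0 := by
    have hmm : Measurable fun ω : Site d → ℝ => (volume : Measure ℝ) ((fun E => (E, T ω)) ⁻¹' N) :=
      (measurable_measure_prodMk_right hN).comp hTm
    rw [Measure.prod_apply_symm hN, lintegral_map (measurable_measure_prodMk_right hN) hTm,
      lintegral_eq_zero_iff hmm]
    filter_upwards [hN0] with ω hω
    have h1 : volume {E : ℝ | ¬ (E, Function.update ω x t0) ∉ N} = 0 := ae_iff.1 hω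
    simp only [not_not] at h1
    exact h1
  have hU : ∀ n : ℕ, ∃ U : Set (ℝ × (Site d → ℝ)), N ⊆ U ∧ IsOpen U ∧
      ((volume : Measure ℝ).prod P0) U ≤ ENNReal.ofReal ((1 / 2) ^ n) := by
    intro n
    obtain ⟨U, hNU, hUo, hUm⟩ := N.exists_isOpen_lt_of_lt (μ := (volume : Measure ℝ).prod P0)
      (ENNReal.ofReal ((1 / 2) ^ n)) (by rw [hm0]; simp)
    exact ⟨U, hNU, hUo, hUm.le⟩
  choose U hNU hUo hUm using hU
  set p : ℕ → ℝ → (Site d → ℝ) → ℝ≥0∞ := fun j E ω =>
    ENNReal.ofReal (Real.pi⁻¹ * (gc M lam ((E : ℂ) + (saEps j : ℝ) * Complex.I) ω x x).im) with hp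
  have hpm : ∀ j, Measurable (Function.uncurry (p j)) := by
    intro j
    have h1 := Weak.measurable_gc_uncurry (lam := lam) hM (saEps_pos j) x x
    exact ENNReal.measurable_ofReal.comp ((Complex.measurable_im.comp h1).const_mul _)
  have hind : ∀ n, Measurable fun q : ℝ × (Site d → ℝ) =>
      (U n).indicator (fun _ => (1 : ℝ≥0∞)) (q.1, T q.2) := by
    intro n
    exact (measurable_const.indicator (hUo n).measurableSet).comp
      (measurable_fst.prodMk (hTm.comp measurable_snd))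
  have hFm : ∀ n j, Measurable (Function.uncurry fun (E : ℝ) (ω : Site d → ℝ) =>
      (U n).indicator (fun _ => (1 : ℝ≥0∞)) (E, T ω) * p j E ω) := by
    intro n j
    exact (hind n).mul (hpm j)
  have hΦm : ∀ n j, Measurable fun ω => ∫⁻ E : ℝ,
      (U n).indicator (fun _ => (1 : ℝ≥0∞)) (E, T ω) * p j E ω := by
    intro n j
    exact Measurable.lintegral_prod_left (hFm n j)
  set C : ℝ≥0∞ := K * ENNReal.ofReal (1 / lam) with hC
  have hCtop : C ≠ ⊤ := ENNReal.mul_ne_top ENNReal.coe_ne_top ENNReal.ofReal_ne_top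
  have hΦ : ∀ n j, ∫⁻ ω, (∫⁻ E : ℝ,
      (U n).indicator (fun _ => (1 : ℝ≥0∞)) (E, T ω) * p j E ω) ∂(PP d μ)
        ≤ C * ENNReal.ofReal ((1 / 2) ^ n) := by
    intro n j
    have hsw : Measurable (Function.uncurry fun (ω : Site d → ℝ) (E : ℝ) =>
        (U n).indicator (fun _ => (1 : ℝ≥0∞)) (E, T ω) * p j E ω) :=
      (hFm n j).comp measurable_swap
    rw [lintegral_lintegral_swap hsw.aemeasurable]
    have h1 : ∀ E : ℝ, ∫⁻ ω, (U n).indicator (fun _ => (1 : ℝ≥0∞)) (E, T ω) * p j E ω ∂(PP d μ)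
        ≤ ∫⁻ ω, (U n).indicator (fun _ => (1 : ℝ≥0∞)) (E, T ω) * C ∂(PP d μ) := by
      intro E
      have hmE : Measurable fun ω : Site d → ℝ =>
          (U n).indicator (fun _ => (1 : ℝ≥0∞)) (E, T ω) * p j E ω :=
        (hFm n j).comp (measurable_const.prodMk measurable_id)
      rw [lintegral_resample x hmE]
      refine lintegral_mono fun ω => ?_
      have hTu : ∀ t, T (Function.update ω x t) = T ω := fun t => Function.update_idem _ _ _
      simp only [hTu]
      have hfin : (U n).indicator (fun _ => (1 : ℝ≥0∞)) (E, T ω) ≠ ⊤ := by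
        by_cases hE : (E, T ω) ∈ U n
        · rw [indicator_of_mem hE]; exact ENNReal.one_ne_top
        · rw [indicator_of_notMem hE]; exact ENNReal.zero_ne_top
      have him : 0 < ((E : ℂ) + (saEps j : ℝ) * Complex.I).im := by
        simpa using saEps_pos j
      have h5 : ∫⁻ t, p j E (Function.update ω x t) ∂μ ≤ C := sa_one_site hμ hlam him ω x
      rw [lintegral_const_mul' _ _ hfin]
      exact mul_le_mul' le_rfl h5
    calc ∫⁻ E : ℝ, ∫⁻ ω, (U n).indicator (fun _ => (1 : ℝ≥0∞)) (E, T ω) * p j E ω ∂(PP d μ)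
        ≤ ∫⁻ E : ℝ, ∫⁻ ω, (U n).indicator (fun _ => (1 : ℝ≥0∞)) (E, T ω) * C ∂(PP d μ) :=
          lintegral_mono h1
      _ = (∫⁻ E : ℝ, ∫⁻ ω, (U n).indicator (fun _ => (1 : ℝ≥0∞)) (E, T ω) ∂(PP d μ)) * C := by
          rw [← lintegral_mul_const' _ _ hCtop]
          exact lintegral_congr fun E => lintegral_mul_const' _ _ hCtop
      _ = ((volume : Measure ℝ).prod P0) (U n) * C := by
          congr 1
          rw [Measure.prod_apply (hUo n).measurableSet]
          refine lintegral_congr fun E => ?_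
          have hmE : Measurable fun ω : Site d → ℝ =>
              (U n).indicator (fun _ => (1 : ℝ≥0∞)) (E, ω) :=
            (measurable_const.indicator (hUo n).measurableSet).comp
              (measurable_const.prodMk measurable_id)
          have h2 := lintegral_map (μ := PP d μ) hmE hTm
          rw [← h2, ← hP0]
          have h3 : (fun ω : Site d → ℝ => (U n).indicator (fun _ => (1 : ℝ≥0∞)) (E, ω))
              = (Prod.mk E ⁻¹' (U n)).indicator (fun _ => 1) := by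
            funext ω; rfl
          have h4 : MeasurableSet (Prod.mk E ⁻¹' (U n)) :=
            measurable_prodMk_left (hUo n).measurableSet
          rw [h3, lintegral_indicator_const h4, one_mul]
      _ ≤ ENNReal.ofReal ((1 / 2) ^ n) * C := mul_le_mul' (hUm n) le_rfl
      _ = C * ENNReal.ofReal ((1 / 2) ^ n) := mul_comm _ _
  set h : ℕ → (Site d → ℝ) → ℝ≥0∞ := fun n ω => liminf (fun j => ∫⁻ E : ℝ,
      (U n).indicator (fun _ => (1 : ℝ≥0∞)) (E, T ω) * p j E ω) atTop with hh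
  have hhm : ∀ n, Measurable (h n) := fun n => Measurable.liminf (hΦm n)
  have hhint : ∀ n, ∫⁻ ω, h n ω ∂(PP d μ) ≤ C * ENNReal.ofReal ((1 / 2) ^ n) := by
    intro n
    refine (lintegral_liminf_le (hΦm n)).trans ?_
    refine (liminf_le_liminf (Eventually.of_forall (hΦ n))).trans ?_
    simp
  have hzero : ∫⁻ ω, ⨅ n, h n ω ∂(PP d μ) = 0 := by
    have h1 : ∀ n, ∫⁻ ω, ⨅ n, h n ω ∂(PP d μ) ≤ C * ENNReal.ofReal ((1 / 2) ^ n) := fun n =>
      (lintegral_mono fun ω => iInf_le _ n).trans (hhint n)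
    have h2 : Tendsto (fun n : ℕ => C * ENNReal.ofReal ((1 / 2) ^ n)) atTop (𝓝 (C * 0)) := by
      refine ENNReal.Tendsto.const_mul ?_ (Or.inr hCtop)
      have := ENNReal.tendsto_ofReal
        (tendsto_pow_atTop_nhds_zero_of_lt_one (r := (1 / 2 : ℝ)) (by norm_num) (by norm_num))
      simpa using this
    rw [mul_zero] at h2
    exact le_antisymm (ge_of_tendsto' h2 h1) bot_le
  have hae := (lintegral_eq_zero_iff (Measurable.iInf hhm)).1 hzero
  filter_upwards [hae] with ω hω ν hν hb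
  have hω' : ⨅ n, h n ω = 0 := hω
  have hcont : Continuous fun E : ℝ => (E, T ω) := by fun_prop
  have hle : ∀ n, ν {E | (E, Function.update ω x t0) ∈ N} ≤ h n ω := by
    intro n
    have hO : IsOpen {E : ℝ | (E, T ω) ∈ U n} := (hUo n).preimage hcont
    calc ν {E | (E, Function.update ω x t0) ∈ N} ≤ ν {E : ℝ | (E, T ω) ∈ U n} :=
          measure_mono fun E hE => hNU n hE
      _ ≤ liminf (fun j => ∫⁻ E in {E : ℝ | (E, T ω) ∈ U n}, p j E ω) atTop := by
          refine sa_measure_le hO (p := fun j E => p j E ω) fun j E => ?_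
          refine ENNReal.ofReal_le_ofReal ?_
          exact mul_le_mul_of_nonneg_left (hb _ (by simpa using saEps_pos j)) (by positivity)
      _ = h n ω := by
          rw [hh]
          simp only
          congr 1
          funext j
          rw [← lintegral_indicator hO.measurableSet]
          refine lintegral_congr fun E => ?_
          by_cases hE : (E, T ω) ∈ U n
          · rw [indicator_of_mem (show E ∈ {E : ℝ | (E, T ω) ∈ U n} from hE),
              indicator_of_mem hE, one_mul]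
          · rw [indicator_of_notMem (show E ∉ {E : ℝ | (E, T ω) ∈ U n} from hE),
              indicator_of_notMem hE, zero_mul]
  have := le_iInf hle
  rw [hω'] at this
  exact le_antisymm this bot_le

end Pool.Agent.Helper3.Crit
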