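import Pool.Agent.Helper3.Crit.FinC
import Pool.Agent.Helper3.Crit.SpecAvg
import Pool.Agent.Helper3.Crit.PureP
import Pool.Agent.Helper3.Crit.Trans

/-! Pure point spectrum in (and almost everywhere around) the set of fractional moment
localisation. -/

open scoped ENNReal NNReal InnerProductSpace
open MeasureTheory Set Filter Topology

noncomputable section

namespace Pool.Agent.Helper3.Crit

open Pool.Agent.Helper3.Anderson

variable {d : ℕ} {μ : Measure ℝ} [IsProbabilityMeasure μ] {M lam : ℝ} {K : ℝ≥0}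

lemma tsum_exp_sn (d : ℕ) {c : ℝ} (hc : 0 < c) :
    ∑' y : Site d, ENNReal.ofReal (Real.exp (-(c * sn y))) ≠ ⊤ := by
  classical
  have h1 : ∀ y : Site d, ENNReal.ofReal (Real.exp (-(c * sn y)))
      ≤ ∑' n : ℕ, if y ∈ box (0 : Site d) n then ENNReal.ofReal (Real.exp (-(c * n))) else 0 := by
    intro y
    have h := ENNReal.le_tsum (f := fun n : ℕ =>
      if y ∈ box (0 : Site d) n then ENNReal.ofReal (Real.exp (-(c * n))) else 0) (sn y)
    have hy : y ∈ box (0 : Site d) (sn y) := by rw [mem_box, sub_zero]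
    simp only [if_pos hy] at h
    exact h
  refine ne_top_of_le_ne_top ?_ (ENNReal.tsum_le_tsum h1)
  rw [ENNReal.tsum_comm]
  have h2 : ∀ n : ℕ, (∑' y : Site d,
      if y ∈ box (0 : Site d) n then ENNReal.ofReal (Real.exp (-(c * n))) else 0)
      = ENNReal.ofReal (((2 * n + 1 : ℕ) : ℝ) ^ d * Real.exp (-(c * n))) := by
    intro n
    rw [tsum_eq_sum (s := box (0 : Site d) n) (fun y hy => if_neg hy)]
    rw [Finset.sum_congr rfl (fun y hy => if_pos hy), Finset.sum_const, card_box, nsmul_eq_mul,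
      ENNReal.ofReal_mul (by positivity), ← Nat.cast_pow, ENNReal.ofReal_natCast]
  simp_rw [h2]
  have hs : Summable fun n : ℕ => ((2 * n + 1 : ℕ) : ℝ) ^ d * Real.exp (-(c * n)) := by
    have hs1 : Summable fun n : ℕ => 3 ^ d * ((n : ℝ) ^ d * Real.exp (-c * n)) :=
      (Real.summable_pow_mul_exp_neg_nat_mul d hc).mul_left _
    have hs2 : Summable fun n : ℕ => 3 ^ d * ((n : ℝ) ^ 0 * Real.exp (-c * n)) :=
      (Real.summable_pow_mul_exp_neg_nat_mul 0 hc).mul_left _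
    refine Summable.of_nonneg_of_le (fun n => by positivity) (fun n => ?_) (hs1.add hs2)
    rw [pow_zero, one_mul, neg_mul, ← mul_add, ← add_one_mul, ← mul_assoc]
    refine mul_le_mul_of_nonneg_right ?_ (Real.exp_pos _).le
    rcases Nat.eq_zero_or_pos n with rfl | hn
    · have h3 : (1 : ℝ) ≤ 3 ^ d := one_le_pow₀ (by norm_num)
      have h4 : (0 : ℝ) ≤ (0 : ℝ) ^ d := by positivity
      simp only [mul_zero, zero_add, Nat.cast_one, one_pow, Nat.cast_zero]
      nlinarith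
    · have h3 : ((2 * n + 1 : ℕ) : ℝ) ≤ 3 * n := by
        have : 2 * n + 1 ≤ 3 * n := by omega
        exact_mod_cast this
      calc ((2 * n + 1 : ℕ) : ℝ) ^ d ≤ (3 * n) ^ d := pow_le_pow_left₀ (by positivity) h3 d
        _ = 3 ^ d * (n : ℝ) ^ d := mul_pow _ _ _
        _ ≤ 3 ^ d * ((n : ℝ) ^ d + 1) := by
            refine mul_le_mul_of_nonneg_left (by linarith) (by positivity)
  rw [← ENNReal.ofReal_tsum_of_nonneg (fun n => by positivity) hs]
  exact ENNReal.ofReal_ne_top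

lemma tsum_exp_sn_sub (d : ℕ) {c : ℝ} (hc : 0 < c) (x : Site d) :
    ∑' y : Site d, ENNReal.ofReal (Real.exp (-(c * sn (y - x)))) ≠ ⊤ := by
  have := (Equiv.subRight x).tsum_eq (fun y : Site d => ENNReal.ofReal (Real.exp (-(c * sn y))))
  simp only [Equiv.subRight_apply] at this
  rw [this]
  exact tsum_exp_sn d hc

/-- exponentially decaying fractional moments give almost sure exponential decay -/
theorem ae_decay {F : Site d → (Site d → ℝ) → ℂ} (hF : ∀ y, Measurable (F y)) {C c : ℝ}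
    (hC : 0 < C) (hc : 0 < c) (x : Site d)
    (h : ∀ y, ∫⁻ ω, ‖F y ω‖ₑ ^ (1 / 8 : ℝ) ∂(PP d μ)
      ≤ ENNReal.ofReal (C * Real.exp (-(c * sn (y - x))))) :
    ∀ᵐ ω ∂(PP d μ), ∃ C' c' : ℝ, 0 < c' ∧ ∀ y, ‖F y ω‖ ≤ C' * Real.exp (-(c' * sn y)) := by
  set S : (Site d → ℝ) → ℝ≥0∞ := fun ω =>
    ∑' y, ENNReal.ofReal (Real.exp (c / 2 * sn (y - x))) * ‖F y ω‖ₑ ^ (1 / 8 : ℝ) with hS
  have hSm : Measurable S :=
    Measurable.tsum fun y => ((hF y).enorm.pow_const _).const_mul _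
  have hSint : ∫⁻ ω, S ω ∂(PP d μ) ≠ ⊤ := by
    rw [hS]
    rw [lintegral_tsum fun y => (((hF y).enorm.pow_const _).const_mul _).aemeasurable]
    have hle : ∀ y : Site d, ∫⁻ ω, ENNReal.ofReal (Real.exp (c / 2 * sn (y - x)))
        * ‖F y ω‖ₑ ^ (1 / 8 : ℝ) ∂(PP d μ)
        ≤ ENNReal.ofReal C * ENNReal.ofReal (Real.exp (-(c / 2 * sn (y - x)))) := by
      intro y
      rw [lintegral_const_mul _ ((hF y).enorm.pow_const _)]
      refine (mul_le_mul_right (h y) _).trans ?_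
      rw [← ENNReal.ofReal_mul (Real.exp_pos _).le, ← ENNReal.ofReal_mul hC.le]
      refine ENNReal.ofReal_le_ofReal (le_of_eq ?_)
      rw [mul_left_comm, ← Real.exp_add]
      congr 2
      ring
    refine ne_top_of_le_ne_top ?_ (ENNReal.tsum_le_tsum hle)
    rw [ENNReal.tsum_mul_left]
    exact ENNReal.mul_ne_top ENNReal.ofReal_ne_top (tsum_exp_sn_sub d (by positivity) x)
  filter_upwards [ae_lt_top hSm hSint] with ω hω
  refine ⟨(S ω).toReal ^ 8 * Real.exp (4 * c * sn x), 4 * c, by positivity, fun y => ?_⟩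
  have h1 : ENNReal.ofReal (Real.exp (c / 2 * sn (y - x))) * ‖F y ω‖ₑ ^ (1 / 8 : ℝ) ≤ S ω :=
    ENNReal.le_tsum (f := fun y => ENNReal.ofReal (Real.exp (c / 2 * sn (y - x)))
      * ‖F y ω‖ₑ ^ (1 / 8 : ℝ)) y
  have h2 : Real.exp (c / 2 * sn (y - x)) * ‖F y ω‖ ^ (1 / 8 : ℝ) ≤ (S ω).toReal := by
    have h3 := ENNReal.toReal_mono hω.ne h1
    rw [ENNReal.toReal_mul, ENNReal.toReal_ofReal (Real.exp_pos _).le, ← ENNReal.toReal_rpow,
      toReal_enorm] at h3
    exact h3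
  have h4 : ‖F y ω‖ ^ (1 / 8 : ℝ) ≤ (S ω).toReal * Real.exp (-(c / 2 * sn (y - x))) := by
    rw [Real.exp_neg, ← div_eq_mul_inv, le_div_iff₀ (Real.exp_pos _), mul_comm]
    exact h2
  have h5 : ‖F y ω‖ = (‖F y ω‖ ^ (1 / 8 : ℝ)) ^ 8 := by
    rw [← Real.rpow_natCast, ← Real.rpow_mul (norm_nonneg _)]
    norm_num
  have h6 : sn y ≤ sn (y - x) + sn x := by
    have := sn_add_le (y - x) x
    rwa [sub_add_cancel] at this
  have h7 : (sn y : ℝ) ≤ sn (y - x) + sn x := by exact_mod_cast h6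
  calc ‖F y ω‖ = (‖F y ω‖ ^ (1 / 8 : ℝ)) ^ 8 := h5
    _ ≤ ((S ω).toReal * Real.exp (-(c / 2 * sn (y - x)))) ^ 8 :=
        pow_le_pow_left₀ (by positivity) h4 8
    _ = (S ω).toReal ^ 8 * Real.exp (-(4 * c * sn (y - x))) := by
        rw [mul_pow, ← Real.exp_nat_mul]
        congr 2
        push_cast
        ring
    _ ≤ (S ω).toReal ^ 8 * (Real.exp (4 * c * sn x) * Real.exp (-(4 * c * sn y))) := by
        refine mul_le_mul_of_nonneg_left ?_ (by positivity)
        rw [← Real.exp_add]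
        refine Real.exp_le_exp.2 ?_
        nlinarith
    _ = _ := by ring

lemma measurable_gcE (hM : 0 ≤ M) {ε : ℕ → ℝ} (hε : ∀ k, 0 < ε k) (x y : Site d) (k : ℕ) :
    Measurable fun p : ℝ × (Site d → ℝ) => gc M lam ((p.1 : ℂ) + ε k * Complex.I) p.2 x y :=
  Weak.measurable_gc_uncurry hM (hε k) x y

lemma measurable_gEj (hM : 0 ≤ M) {ε : ℕ → ℝ} (hε : ∀ k, 0 < ε k) (x y : Site d) :
    Measurable fun p : ℝ × (Site d → ℝ) => gE M lam p.1 ε x y p.2 := by
  unfold gE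
  exact (StronglyMeasurable.limUnder fun k =>
    (measurable_gcE (lam := lam) hM hε x y k).stronglyMeasurable).measurable

lemma measurable_gE' (hM : 0 ≤ M) {ε : ℕ → ℝ} (hε : ∀ k, 0 < ε k) (E : ℝ) (x y : Site d) :
    Measurable fun ω : Site d → ℝ => gE M lam E ε x y ω := by
  have him : ∀ k, 0 < ((E : ℂ) + ε k * Complex.I).im := fun k => by simpa using hε k
  unfold gE
  exact (StronglyMeasurable.limUnder fun k =>
    (measurable_gc (lam := lam) hM (him k) x y).stronglyMeasurable).measurable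

/-- the good pairs (energy, configuration) for the source `x` -/
def Gx (M lam : ℝ) (ε : ℕ → ℝ) (x : Site d) : Set (ℝ × (Site d → ℝ)) :=
  {p | (∀ y, ∃ l, Tendsto (fun k => gc M lam ((p.1 : ℂ) + ε k * Complex.I) p.2 y x) atTop (𝓝 l)) ∧
    ∃ n : ℕ, ∀ y, ‖gE M lam p.1 ε y x p.2‖ ≤ n * Real.exp (-(1 / ((n : ℝ) + 1) * sn y))}

lemma measurableSet_Gx (hM : 0 ≤ M) {ε : ℕ → ℝ} (hε : ∀ k, 0 < ε k) (x : Site d) :
    MeasurableSet (Gx M lam ε x) := by
  have h1 : MeasurableSet {p : ℝ × (Site d → ℝ) | ∀ y, ∃ l,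
      Tendsto (fun k => gc M lam ((p.1 : ℂ) + ε k * Complex.I) p.2 y x) atTop (𝓝 l)} := by
    have : {p : ℝ × (Site d → ℝ) | ∀ y, ∃ l,
        Tendsto (fun k => gc M lam ((p.1 : ℂ) + ε k * Complex.I) p.2 y x) atTop (𝓝 l)}
        = ⋂ y, {p : ℝ × (Site d → ℝ) | ∃ l,
        Tendsto (fun k => gc M lam ((p.1 : ℂ) + ε k * Complex.I) p.2 y x) atTop (𝓝 l)} := by
      ext p; simp
    rw [this]
    exact MeasurableSet.iInter fun y =>
      measurableSet_exists_tendsto fun k => measurable_gcE hM hε y x k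
  have h2 : MeasurableSet {p : ℝ × (Site d → ℝ) | ∃ n : ℕ, ∀ y,
      ‖gE M lam p.1 ε y x p.2‖ ≤ n * Real.exp (-(1 / ((n : ℝ) + 1) * sn y))} := by
    have : {p : ℝ × (Site d → ℝ) | ∃ n : ℕ, ∀ y,
        ‖gE M lam p.1 ε y x p.2‖ ≤ n * Real.exp (-(1 / ((n : ℝ) + 1) * sn y))}
        = ⋃ n : ℕ, ⋂ y, {p : ℝ × (Site d → ℝ) |
        ‖gE M lam p.1 ε y x p.2‖ ≤ n * Real.exp (-(1 / ((n : ℝ) + 1) * sn y))} := by
      ext p; simp
    rw [this]
    exact MeasurableSet.iUnion fun n => MeasurableSet.iInter fun y =>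
      measurableSet_le (measurable_gEj hM hε y x).norm measurable_const
  exact h1.inter h2

/-- Fatou: the limit Green function inherits the decay of the fractional moments -/
theorem fm_gE (hμ : GoodLaw μ M K) {E : ℝ} {ε : ℕ → ℝ}
    (hε : ∀ k, 0 < ε k) (hε0 : Tendsto ε atTop (𝓝 0))
    (hconv : ∀ᵐ ω ∂(PP d μ), ∀ x y : Site d,
      ∃ l, Tendsto (fun k => gc M lam ((E : ℂ) + ε k * Complex.I) ω x y) atTop (𝓝 l))
    {r C c : ℝ} (hr : 0 < r)
    (H : ∀ z : ℂ, 0 < z.im → ‖z - E‖ < r → ∀ x y : Site d,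
      ∫⁻ ω, ‖gc M lam z ω x y‖ₑ ^ (1 / 8 : ℝ) ∂(PP d μ)
        ≤ ENNReal.ofReal (C * Real.exp (-(c * sn (x - y))))) (x y : Site d) :
    ∫⁻ ω, ‖gE M lam E ε x y ω‖ₑ ^ (1 / 8 : ℝ) ∂(PP d μ)
      ≤ ENNReal.ofReal (C * Real.exp (-(c * sn (x - y)))) := by
  have hM : 0 ≤ M := zero_le_one.trans hμ.one_le
  have him : ∀ k, 0 < ((E : ℂ) + ε k * Complex.I).im := fun k => by simpa using hε k
  have h1 : ∀ᵐ ω ∂(PP d μ), ‖gE M lam E ε x y ω‖ₑ ^ (1 / 8 : ℝ)
      = liminf (fun k => ‖gc M lam ((E : ℂ) + ε k * Complex.I) ω x y‖ₑ ^ (1 / 8 : ℝ)) atTop := by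
    filter_upwards [hconv] with ω hω
    have h2 := gE_tendsto (hω x y)
    have h3 : Tendsto (fun k => ‖gc M lam ((E : ℂ) + ε k * Complex.I) ω x y‖ₑ ^ (1 / 8 : ℝ)) atTop
        (𝓝 (‖gE M lam E ε x y ω‖ₑ ^ (1 / 8 : ℝ))) :=
      ((ENNReal.continuous_rpow_const).tendsto _).comp h2.enorm
    exact h3.liminf_eq.symm
  rw [lintegral_congr_ae h1]
  refine (lintegral_liminf_le fun k =>
    (measurable_gc hM (him k) x y).enorm.pow_const _).trans ?_
  refine liminf_le_of_frequently_le' (Eventually.frequently ?_)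
  filter_upwards [hε0.eventually (gt_mem_nhds hr)] with k hk
  refine H _ (him k) ?_ x y
  rw [add_sub_cancel_left, norm_mul, Complex.norm_I, mul_one, Complex.norm_real,
    Real.norm_eq_abs, abs_of_pos (hε k)]
  exact hk

/-- for almost every energy of the set of fractional moment localisation, almost every
configuration is good -/
theorem ae_Gx (hμ : GoodLaw μ M K) {E : ℝ} {ε : ℕ → ℝ}
    (hε : ∀ k, 0 < ε k) (hε0 : Tendsto ε atTop (𝓝 0))
    (hconv : ∀ᵐ ω ∂(PP d μ), ∀ x y : Site d,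
      ∃ l, Tendsto (fun k => gc M lam ((E : ℂ) + ε k * Complex.I) ω x y) atTop (𝓝 l))
    (hE : E ∈ FMS d μ M lam) (x : Site d) : ∀ᵐ ω ∂(PP d μ), (E, ω) ∈ Gx M lam ε x := by
  have hM : 0 ≤ M := zero_le_one.trans hμ.one_le
  obtain ⟨r, hr, C, hC, c, hc, H⟩ := hE
  have hfm := fm_gE hμ hε hε0 hconv hr H
  have hdec := ae_decay (μ := μ) (F := fun y ω => gE M lam E ε y x ω)
    (fun y => measurable_gE' hM hε E y x) hC hc x (fun y => hfm y x)
  filter_upwards [hconv, hdec] with ω hω hω2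
  refine ⟨fun y => hω y x, ?_⟩
  obtain ⟨C, c, hc, hC⟩ := hω2
  obtain ⟨n, hn⟩ := exists_nat_ge (max C (1 / c))
  refine ⟨n, fun y => (hC y).trans ?_⟩
  have hn1 : C ≤ n := (le_max_left _ _).trans hn
  have hn2 : 1 / c ≤ n := (le_max_right _ _).trans hn
  have h6 : 1 / ((n : ℝ) + 1) ≤ c := by
    rw [div_le_iff₀ (by positivity)]
    rw [div_le_iff₀ hc] at hn2
    nlinarith
  have h7 : Real.exp (-(c * sn y)) ≤ Real.exp (-(1 / ((n : ℝ) + 1) * sn y)) := by
    refine Real.exp_le_exp.2 (neg_le_neg ?_)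
    exact mul_le_mul_of_nonneg_right h6 (Nat.cast_nonneg _)
  calc C * Real.exp (-(c * sn y)) ≤ n * Real.exp (-(c * sn y)) :=
        mul_le_mul_of_nonneg_right hn1 (Real.exp_pos _).le
    _ ≤ _ := mul_le_mul_of_nonneg_left h7 (Nat.cast_nonneg _)

/-- from almost every energy to a resampled configuration -/
theorem exists_resample (x : Site d) {N : Set (ℝ × (Site d → ℝ))} (hN : MeasurableSet N)
    (h : ∀ᵐ E : ℝ, ∀ᵐ ω ∂(PP d μ), (E, ω) ∉ N) :
    ∃ t0 : ℝ, ∀ᵐ ω ∂(PP d μ), ∀ᵐ E : ℝ, (E, Function.update ω x t0) ∉ N := by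
  have h0 : (volume.prod (PP d μ)) N = 0 := by
    rw [Measure.measure_prod_null hN]
    filter_upwards [h] with E hE
    rw [ae_iff] at hE
    simp only [not_not] at hE
    exact hE
  have h1 : ((PP d μ).prod volume) (Prod.swap ⁻¹' N) = 0 := by
    rw [← Measure.prod_swap, Measure.map_apply measurable_swap (measurable_swap hN)]
    exact h0
  have h2 : ∀ᵐ ω ∂(PP d μ), ∀ᵐ E : ℝ, (E, ω) ∉ N := by
    have := Measure.measure_ae_null_of_prod_null h1
    filter_upwards [this] with ω hω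
    rw [ae_iff]
    simp only [not_not]
    exact hω
  have hQ : MeasurableSet {ω : Site d → ℝ | volume {E : ℝ | (E, ω) ∈ N} = 0} := by
    have : Measurable fun ω : Site d → ℝ => volume {E : ℝ | (E, ω) ∈ N} :=
      measurable_measure_prodMk_right hN
    exact this (measurableSet_singleton 0)
  have h3 : ∀ᵐ ω ∂(PP d μ), ω ∈ {ω : Site d → ℝ | volume {E : ℝ | (E, ω) ∈ N} = 0} := by
    filter_upwards [h2] with ω hω
    simpa [ae_iff] using hω
  have h4 : ∀ᵐ p ∂((PP d μ).prod μ), Function.update p.1 x p.2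
      ∈ {ω : Site d → ℝ | volume {E : ℝ | (E, ω) ∈ N} = 0} := by
    have hmap := map_update (μ := μ) x
    have h3' : ∀ᵐ ω ∂(((PP d μ).prod μ).map fun p : (Site d → ℝ) × ℝ => Function.update p.1 x p.2),
        ω ∈ {ω : Site d → ℝ | volume {E : ℝ | (E, ω) ∈ N} = 0} := by
      rw [hmap]; exact h3
    exact ae_of_ae_map (measurable_update_prod x).aemeasurable h3'
  have h5 : ∀ᵐ p ∂(μ.prod (PP d μ)), Function.update p.2 x p.1
      ∈ {ω : Site d → ℝ | volume {E : ℝ | (E, ω) ∈ N} = 0} := by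
    rw [← Measure.prod_swap] at h4
    exact ae_of_ae_map measurable_swap.aemeasurable h4
  have h6 := Measure.ae_ae_of_ae_prod h5
  obtain ⟨t0, ht0⟩ := h6.exists
  refine ⟨t0, ?_⟩
  filter_upwards [ht0] with ω hω
  simpa [ae_iff] using hω

/-- the Simon-Wolff condition holds almost surely in (almost all of) the set of fractional moment
localisation -/
theorem sw_ae (hμ : GoodLaw μ M K) (hlam : 0 < lam) {U : Set ℝ} (hU : MeasurableSet U)
    (hUO : volume (U \ FMS d μ M lam) = 0) :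
    ∀ᵐ ω ∂(PP d μ), ∀ x : Site d, ∀ ν : Measure ℝ, IsFiniteMeasure ν →
      (∀ z : ℂ, 0 < z.im → ∫ t : ℝ, z.im / ‖(t : ℂ) - z‖ ^ 2 ∂ν ≤ (gc M lam z ω x x).im) →
      ∀ᵐ E ∂ν, E ∈ U →
        SW (potc M lam ω) (bdd_potc (zero_le_one.trans hμ.one_le) ω) x E := by
  have hM : 0 ≤ M := zero_le_one.trans hμ.one_le
  obtain ⟨φ, hφ, hbv⟩ := exists_bv (d := d) hμ hlam (η := fun j : ℕ => 1 / ((j : ℝ) + 1))
    (fun j => by positivity) tendsto_one_div_add_atTop_nhds_zero_nat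
  set ε : ℕ → ℝ := fun k => 1 / ((φ k : ℝ) + 1) with hεdef
  have hε : ∀ k, 0 < ε k := fun k => by positivity
  have hε0 : Tendsto ε atTop (𝓝 0) :=
    tendsto_one_div_add_atTop_nhds_zero_nat.comp hφ.tendsto_atTop
  rw [ae_all_iff]
  intro x
  set N : Set (ℝ × (Site d → ℝ)) := (Prod.fst ⁻¹' U) \ Gx M lam ε x with hN
  have hNm : MeasurableSet N := (measurable_fst hU).diff (measurableSet_Gx hM hε x)
  have hNae : ∀ᵐ E : ℝ, ∀ᵐ ω ∂(PP d μ), (E, ω) ∉ N := by
    have hnull : ∀ᵐ E : ℝ, E ∉ U \ FMS d μ M lam := by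
      rw [ae_iff]
      simp only [not_not]
      exact hUO
    filter_upwards [hbv, hnull] with E hE hE2
    by_cases hEU : E ∈ U
    · have hEO : E ∈ FMS d μ M lam := by
        by_contra hcon
        exact hE2 ⟨hEU, hcon⟩
      have := ae_Gx hμ hε hε0 (by simpa [hεdef] using hE) hEO x
      filter_upwards [this] with ω hω hcon
      exact hcon.2 hω
    · exact ae_of_all _ fun ω hcon => hEU hcon.1
  obtain ⟨t0, ht0⟩ := exists_resample (μ := μ) x hNm hNae
  have hsa := spec_avg hμ hlam x t0 hNm ht0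
  filter_upwards [hsa] with ω hω ν hν hint
  have h1 := hω ν hν hint
  have h2 : ∀ᵐ E ∂ν, (E, Function.update ω x t0) ∉ N := by
    rw [ae_iff]; simpa using h1
  filter_upwards [h2] with E hE hEU
  have hG : (E, Function.update ω x t0) ∈ Gx M lam ε x := by
    by_contra hcon
    exact hE ⟨hEU, hcon⟩
  obtain ⟨hG1, n, hG2⟩ := hG
  refine sw_of_limit (potc M lam ω) (potc M lam (Function.update ω x t0)) (bdd_potc hM ω)
    (bdd_potc hM _) x (fun y hy => ?_) E hε hε0 (φ := fun y => gE M lam E ε y x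
      (Function.update ω x t0)) (fun y => gE_tendsto (hG1 y))
    ⟨n, 1 / ((n : ℝ) + 1), by positivity, hG2⟩
  simp only [potc]
  rw [Function.update_of_ne hy]

/-- pure point spectrum with exponentially decaying eigenvectors -/
theorem pp_ae (hμ : GoodLaw μ M K) (hlam : 0 < lam) {U : Set ℝ} (hU : MeasurableSet U)
    (hUO : volume (U \ FMS d μ M lam) = 0) :
    ∀ᵐ ω ∂(PP d μ), ∀ ψ : L2 d,
      (∀ E ∈ U, ∀ φ : L2 d, schr (potc M lam ω) (bdd_potc (zero_le_one.trans hμ.one_le) ω) φ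
          = (E : ℂ) • φ → ExpDecay (φ : Site d → ℂ) → ⟪φ, ψ⟫_ℂ = 0) →
      ∀ f : ℂ → ℂ, Continuous f → (∀ E : ℝ, E ∉ U → f E = 0) →
        cfc f (schr (potc M lam ω) (bdd_potc (zero_le_one.trans hμ.one_le) ω)) ψ = 0 := by
  have hM : 0 ≤ M := zero_le_one.trans hμ.one_le
  filter_upwards [sw_ae hμ hlam hU hUO] with ω hω ψ hψ f hf hfU
  exact pure_point (potc M lam ω) (bdd_potc hM ω) U (fun x ν hν hint => hω x ν hν hint) ψ hψ f hf hfU

end Pool.Agent.Helper3.Crit
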