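import Pool.Agent.Helper3.Crit.FinD
import Pool.Agent.Helper3.Crit.Eqd

/-! Function-level form of spectral statements for `-Δ + V` (spectral measures through the Borel
transform). -/

open scoped ENNReal NNReal InnerProductSpace
open MeasureTheory Set Filter Topology

noncomputable section

namespace Pool.Agent.Helper3.Crit

open Pool.Agent.Helper3.Anderson

variable {d : ℕ}

/-- exponentially decaying functions are square summable -/
lemma memlp_of_expDecay {φ : Site d → ℂ} (h : ExpDecay φ) : Memℓp φ 2 := by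
  obtain ⟨C, c, hc, h⟩ := h
  exact memlp_of_decay (C := C) hc fun y => by rw [← norm_eq_sn]; exact h y

/-- `χ` is the resolvent vector `(-Δ + V - z)⁻¹ ψ`. -/
def IsRes (V : Site d → ℝ) (z : ℂ) (ψ χ : Site d → ℂ) : Prop :=
  Memℓp χ 2 ∧ ∀ x, -lap χ x + V x * χ x - z * χ x = ψ x

/-- `ν` is the spectral measure of `ψ` for the operator `-Δ + V`. -/
def IsSpectral (V : Site d → ℝ) (ψ : Site d → ℂ) (ν : Measure ℝ) : Prop :=
  IsFiniteMeasure ν ∧ ∀ z : ℂ, 0 < z.im → ∃ χ : Site d → ℂ, IsRes V z ψ χ ∧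
    ∑' x, star (ψ x) * χ x = ∫ t : ℝ, ((t : ℂ) - z)⁻¹ ∂ν

lemma isRes_res (V : Site d → ℝ) (hV : Bdd V) {z : ℂ} (hz0 : 0 < z.im) (ψ : L2 d) :
    IsRes V z ψ (res V hV z ψ : Site d → ℂ) := by
  refine ⟨lp.memℓp _, fun x => ?_⟩
  have h := hz_res V hV hz0.ne' ψ
  have h2 := congrArg (fun u : L2 d => (u : Site d → ℂ) x) h
  simp only [hz, sub_apply, smul_apply, lp.coeFn_sub, Pi.sub_apply, schr_apply,
    one_apply_eq_self, lp.coeFn_smul, Pi.smul_apply, smul_eq_mul] at h2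
  exact h2

lemma isRes_unique (V : Site d → ℝ) (hV : Bdd V) {z : ℂ} (hz0 : 0 < z.im) (ψ : L2 d)
    {χ : Site d → ℂ} (h : IsRes V z ψ χ) : χ = (res V hV z ψ : Site d → ℂ) := by
  obtain ⟨hm, he⟩ := h
  set φ : L2 d := ⟨χ, hm⟩ with hφ
  have h1 : hz V hV z φ = ψ := by
    ext w
    rw [← he w]
    simp only [hz, sub_apply, smul_apply, lp.coeFn_sub, Pi.sub_apply, schr_apply,
      one_apply_eq_self, lp.coeFn_smul, Pi.smul_apply, smul_eq_mul]
    rfl
  have h2 := res_hz V hV hz0.ne' φ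
  rw [h1] at h2
  rw [h2]

lemma inner_eq_tsum' (φ ψ : L2 d) : ⟪φ, ψ⟫_ℂ = ∑' x, star (φ x) * ψ x := by
  rw [lp.inner_eq_tsum]
  refine tsum_congr fun x => ?_
  simp [mul_comm]

lemma isSpectral_of_isSpec (V : Site d → ℝ) (hV : Bdd V) (ψ : L2 d) {ν : Measure ℝ}
    (h : PP.IsSpec (schr V hV) ψ ν) : IsSpectral V ψ ν := by
  refine ⟨h.fin, fun z hz0 => ⟨_, isRes_res V hV hz0 ψ, ?_⟩⟩
  obtain ⟨g, hg, hgt, hgr⟩ := cfc_res V hV hz0
  rw [← inner_eq_tsum', ← hgr, h.int g hg]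
  simp only [hgt]

lemma exists_isSpec (V : Site d → ℝ) (hV : Bdd V) (ψ : L2 d) :
    ∃ ν : Measure ℝ, PP.IsSpec (schr V hV) ψ ν := by
  obtain ⟨ν, h1, h2, h3⟩ := exists_specMeasure (schr V hV) (isSelfAdjoint_schr V hV) ψ
  exact ⟨ν, h1, h2, h3⟩

/-- an open set has measure zero if all functions of the operator supported there kill the
vector -/
lemma null_of_cfc (V : Site d → ℝ) (hV : Bdd V) (ψ : L2 d) {ν : Measure ℝ}
    (h : PP.IsSpec (schr V hV) ψ ν) {U : Set ℝ} (hU : IsOpen U)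
    (h0 : ∀ f : ℂ → ℂ, Continuous f → (∀ E : ℝ, E ∉ U → f E = 0) →
      cfc f (schr V hV) ψ = 0) : ν U = 0 := by
  have := h.fin
  by_cases hne : (Uᶜ : Set ℝ).Nonempty
  swap
  · rw [not_nonempty_iff_eq_empty, compl_empty_iff] at hne
    have h1 := h0 (fun _ => 1) continuous_const (fun E hE => absurd (hne ▸ mem_univ E) hE)
    have h2 := h.norm_sq (isSelfAdjoint_schr V hV) (g := fun _ => (1 : ℂ)) continuous_const
    rw [h1] at h2
    simp at h2
    have h3 : ν.real univ = 0 := h2.symm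
    rw [hne]
    rwa [measureReal_eq_zero_iff] at h3
  -- the function distance to the complement
  set f : ℂ → ℂ := fun z => ((Metric.infDist z.re Uᶜ : ℝ) : ℂ) with hf
  have hfc : Continuous f := by
    refine Complex.continuous_ofReal.comp ?_
    exact (Metric.continuous_infDist_pt _).comp Complex.continuous_re
  have hf0 : ∀ E : ℝ, E ∉ U → f E = 0 := by
    intro E hE
    simp only [hf, Complex.ofReal_re]
    rw [Metric.infDist_zero_of_mem (show E ∈ Uᶜ from hE)]
    simp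
  have h1 := h0 f hfc hf0
  have h2 := h.norm_sq (isSelfAdjoint_schr V hV) (g := f) hfc
  rw [h1, norm_zero] at h2
  have hcont : Continuous fun t : ℝ => ‖f t‖ ^ 2 := by fun_prop
  have h3 : ∫ t : ℝ, ‖f t‖ ^ 2 ∂ν = 0 := by rw [← h2]; norm_num
  rw [integral_eq_zero_iff_of_nonneg (fun t => by positivity) (h.integrable hcont)] at h3
  have h4 : ∀ᵐ t ∂ν, t ∉ U := by
    filter_upwards [h3] with t ht htU
    have h5 : ‖f t‖ = 0 := by
      have : ‖f t‖ ^ 2 = 0 := ht
      exact pow_eq_zero_iff (two_ne_zero) |>.1 this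
    simp only [hf, Complex.ofReal_re, Complex.norm_real, norm_eq_zero] at h5
    have h6 : t ∈ closure Uᶜ := (Metric.mem_closure_iff_infDist_zero hne).2 h5
    rw [hU.isClosed_compl.closure_eq] at h6
    exact h6 htU
  have h5 : ν {t | ¬ t ∉ U} = 0 := h4
  simpa using h5

end Pool.Agent.Helper3.Crit
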