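import Pool.Agent.Helper3.Crit.Shape
import Pool.Agent.Helper3.Crit.SymmL

/-! Lattice symmetries of the energies of the limiting Green function. -/

open scoped ENNReal NNReal InnerProductSpace
open MeasureTheory Set Filter Topology

noncomputable section

namespace Pool.Agent.Helper3.Crit

open Pool.Agent.Helper3.Anderson

variable {d : ℕ} {μ : Measure ℝ} [IsProbabilityMeasure μ] {M lam : ℝ} {K : ℝ≥0}

namespace SymmL

lemma gE_sym (hM : 0 ≤ M) {E : ℝ} {ε : ℕ → ℝ} (hε : ∀ k, 0 < ε k) {T : Site d ≃ Site d}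
    (hT : IsSym T) (v : Site d) (ω : Site d → ℝ) :
    gE (d := d) M lam E ε (T v) 0 ω = gE (d := d) M lam E ε v 0 (fun x => ω (T x)) := by
  unfold gE
  congr 1
  funext k
  have hz : 0 < ((E : ℂ) + ε k * Complex.I).im := by simpa using hε k
  exact (green_sym hT (potc M lam ω) (bdd_potc hM ω) hz v).symm

lemma en_sym (hM : 0 ≤ M) {E : ℝ} {ε : ℕ → ℝ} (hε : ∀ k, 0 < ε k)
    (hmeas : ∀ x y, Measurable (gE (d := d) M lam E ε x y)) {T : Site d ≃ Site d}
    (hT : IsSym T) (v : Site d) :
    Proc.en μ (gE (d := d) M lam E ε) (T v) = Proc.en μ (gE (d := d) M lam E ε) v := by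
  unfold Proc.en
  have hmp := measurePreserving_equiv (μ := μ) T
  have hm : Measurable fun ω : Site d → ℝ => -Real.log ‖gE (d := d) M lam E ε v 0 ω‖ :=
    (Real.measurable_log.comp (hmeas v 0).norm).neg
  have h1 : ∫ ω, -Real.log ‖gE (d := d) M lam E ε v 0 ω‖
        ∂((PP d μ).map fun (ω : Site d → ℝ) x => ω (T x))
      = ∫ ω, -Real.log ‖gE (d := d) M lam E ε v 0 (fun x => ω (T x))‖ ∂(PP d μ) :=
    integral_map hmp.measurable.aemeasurable hm.aestronglyMeasurable
  rw [hmp.map_eq] at h1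
  rw [h1]
  refine integral_congr_ae (Eventually.of_forall fun ω => ?_)
  simp only
  rw [gE_sym hM hε hT]

end SymmL

open SymmL

/-! ## SYMG -/

theorem en_gE_shape (hμ : GoodLaw μ M K) {E : ℝ} {ε : ℕ → ℝ} (hε : ∀ k, 0 < ε k) {B : ℝ}
    (hp : Proc μ M lam K (E : ℂ) B (gE (d := d) M lam E ε)) (hB0 : 0 ≤ B) (j : Fin d)
    {m Cd : ℝ} (hm : 0 < m)
    (h : ∀ n : ℕ, m * n - Cd ≤ Proc.en μ (gE (d := d) M lam E ε) (n • (Pi.single j 1 : Site d))) :
    ∃ C' : ℝ, ∀ v : Site d, m * sn v - C' ≤ Proc.en μ (gE (d := d) M lam E ε) v := by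
  have hM : 0 ≤ M := by linarith [hμ.one_le]
  refine ⟨(Cd + 4 * (C2 M lam K).toReal) / 2, fun v => ?_⟩
  obtain ⟨i, hi⟩ : ∃ i, (v i).natAbs = sn v := by
    obtain ⟨i, _, hi⟩ := Finset.exists_mem_eq_sup (Finset.univ : Finset (Fin d))
      ⟨j, Finset.mem_univ j⟩ (fun i => (v i).natAbs)
    exact ⟨i, hi.symm⟩
  set s : Fin d → ℤˣ := fun k => if k = i then 1 else -1 with hs
  have h1 : v + flip s v = Pi.single i (2 * v i) := by
    funext k
    rw [Pi.add_apply, flip_apply]
    by_cases h : k = i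
    · subst h; simp [hs]; ring
    · simp [hs, h]
  have h2 := hp.en_add_le hB0 v (flip s v)
  rw [h1, en_sym hM hε hp.meas (isSym_flip s)] at h2
  -- reduction to a nonnegative multiple of the basis vector
  have h3 : Proc.en μ (gE (d := d) M lam E ε) (Pi.single i (2 * v i))
      = Proc.en μ (gE (d := d) M lam E ε) ((2 * sn v) • (Pi.single j 1 : Site d)) := by
    have e1 : ∃ u : Fin d → ℤˣ, flip u (Pi.single i (2 * v i) : Site d)
        = Pi.single i (((2 * sn v : ℕ) : ℤ)) := by
      rcases le_total 0 (v i) with h0 | h0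
      · refine ⟨fun _ => 1, ?_⟩
        funext k
        rw [flip_apply]
        by_cases hk : k = i
        · subst hk
          simp only [Units.val_one, one_mul, Pi.single_eq_same]
          rw [← hi]; push_cast
          rw [abs_of_nonneg h0]
        · simp [hk]
      · refine ⟨fun _ => -1, ?_⟩
        funext k
        rw [flip_apply]
        by_cases hk : k = i
        · subst hk
          simp only [Units.val_neg, Units.val_one, Pi.single_eq_same]
          rw [← hi]; push_cast
          rw [abs_of_nonpos h0]; ring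
        · simp [hk]
    obtain ⟨u, hu⟩ := e1
    have e2 : perm (Equiv.swap i j) (Pi.single i (((2 * sn v : ℕ) : ℤ)) : Site d)
        = (2 * sn v) • (Pi.single j 1 : Site d) := by
      rw [perm_single, ← Pi.single_smul]
      simp
    rw [← e2, en_sym hM hε hp.meas (isSym_perm _), ← hu, en_sym hM hε hp.meas (isSym_flip u)]
  rw [h3] at h2
  have h4 := h (2 * sn v)
  push_cast at h4
  linarith

end Pool.Agent.Helper3.Crit
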