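import Pool.Agent.Helper3.Crit.Zero

/-! If the energies along the axes do not grow linearly, then almost surely the limiting Green
function does not decay exponentially in any lattice direction. -/

open MeasureTheory Set Filter Topology
open scoped ENNReal NNReal

noncomputable section

namespace Pool.Agent.Helper3.Crit

open Pool.Agent.Helper3.Anderson

variable {d : ℕ} {μ : Measure ℝ} [IsProbabilityMeasure μ] {M lam : ℝ} {K : ℝ≥0}

/-- exponential decay along the ray from `x` in the direction `v` -/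
def DecayAlong (f : Site d → ℂ) (x v : Site d) : Prop :=
  ∃ C c : ℝ, 0 < c ∧ ∀ n : ℕ, ‖f (x + n • v)‖ ≤ C * Real.exp (-(c * n))

namespace Zero

variable {z : ℂ} {B : ℝ} {g : Site d → Site d → (Site d → ℝ) → ℂ}

/-- sublinear growth of the energies in the direction `v` -/
def Sub (μ : Measure ℝ) [IsProbabilityMeasure μ] (g : Site d → Site d → (Site d → ℝ) → ℂ)
    (v : Site d) : Prop :=
  Tendsto (fun n : ℕ => Proc.en μ g (n • v) / n) atTop (𝓝 0)

lemma en_low (hp : Proc μ M lam K z B g) (hB0 : 0 ≤ B) (w : Site d) :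
    -(8 * (C2 M lam K).toReal) ≤ Proc.en μ g w := by
  have h1 := Zero.integrable_rpow hp w 0
  have h2 := hp.integrable_log hB0 w 0
  have : ∫ ω, Real.log ‖g w 0 ω‖ ∂(PP d μ) ≤ ∫ ω, 4 * ‖g w 0 ω‖ ^ (1/4 : ℝ) ∂(PP d μ) :=
    integral_mono h2 (h1.1.const_mul 4) fun ω =>
      (le_max_left _ _).trans (Zero.posLog_le _ (norm_nonneg _))
  rw [integral_const_mul] at this
  unfold Proc.en
  rw [integral_neg]
  linarith [h1.2]

/-- energies that do not grow linearly grow sublinearly -/
lemma sub_of_not (hp : Proc μ M lam K z B g) (hB0 : 0 ≤ B) (v : Site d)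
    (h0 : ¬ ∃ m Cd : ℝ, 0 < m ∧ ∀ n : ℕ, m * n - Cd ≤ Proc.en μ g (n • v)) : Sub μ g v := by
  set c2 : ℝ := (C2 M lam K).toReal with hc2
  have hc20 : 0 ≤ c2 := ENNReal.toReal_nonneg
  have hlow := en_low hp hB0
  set u : ℕ → ℝ := fun n => Proc.en μ g (n • v) + 4 * c2 with hu
  have hsub : Subadditive u := by
    intro m n
    simp only [hu]
    have := hp.en_add_le hB0 (m • v) (n • v)
    rw [← add_smul] at this
    linarith
  have hbdd : BddBelow (range fun n : ℕ => u n / n) := by
    refine ⟨-(4 * c2), ?_⟩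
    rintro _ ⟨n, rfl⟩
    rcases Nat.eq_zero_or_pos n with rfl | hn
    · simp; linarith
    · have hn' : (1 : ℝ) ≤ n := by exact_mod_cast hn
      simp only
      rw [le_div_iff₀ (by linarith)]
      have h1 := hlow (n • v)
      simp only [hu]
      nlinarith
  have hlim := hsub.tendsto_lim hbdd
  have hle0 : hsub.lim ≤ 0 := by
    by_contra hcon
    push Not at hcon
    refine h0 ⟨hsub.lim, 12 * c2, hcon, fun n => ?_⟩
    rcases Nat.eq_zero_or_pos n with rfl | hn
    · have := hlow ((0 : ℕ) • v)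
      simp only [Nat.cast_zero, mul_zero, zero_sub]
      linarith
    · have h1 := hsub.lim_le_div hbdd hn.ne'
      have hn' : (0 : ℝ) < n := by exact_mod_cast hn
      rw [le_div_iff₀ hn'] at h1
      simp only [hu] at h1
      linarith
  have hge0 : 0 ≤ hsub.lim := by
    have hl' : Tendsto (fun n : ℕ => u n / n + 4 * c2 / n) atTop (𝓝 hsub.lim) := by
      have := hlim.add (tendsto_const_div_atTop_nhds_zero_nat (4 * c2))
      rwa [add_zero] at this
    refine ge_of_tendsto' hl' fun n => ?_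
    · rw [← add_div]
      refine div_nonneg ?_ (Nat.cast_nonneg _)
      have := hlow (n • v)
      simp only [hu]
      linarith
  have hlim0 : hsub.lim = 0 := le_antisymm hle0 hge0
  rw [hlim0] at hlim
  have h1 := hlim.sub (tendsto_const_div_atTop_nhds_zero_nat (4 * c2))
  rw [sub_zero] at h1
  refine h1.congr fun n => ?_
  simp only [hu]
  rw [← sub_div]
  congr 1
  ring

lemma sub_add (hp : Proc μ M lam K z B g) (hB0 : 0 ≤ B) {v w : Site d} (hv : Sub μ g v)
    (hw : Sub μ g w) : Sub μ g (v + w) := by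
  set c2 : ℝ := (C2 M lam K).toReal with hc2
  have h1 : Tendsto (fun n : ℕ => -(8 * c2) / (n : ℝ)) atTop (𝓝 0) :=
    tendsto_const_div_atTop_nhds_zero_nat _
  have h2 : Tendsto (fun n : ℕ => Proc.en μ g (n • v) / n + Proc.en μ g (n • w) / n
      + 4 * c2 / (n : ℝ)) atTop (𝓝 0) := by
    have := (hv.add hw).add (tendsto_const_div_atTop_nhds_zero_nat (4 * c2))
    simpa using this
  refine tendsto_of_tendsto_of_tendsto_of_le_of_le h1 h2 (fun n => ?_) (fun n => ?_)
  · exact div_le_div_of_nonneg_right (en_low hp hB0 _) (Nat.cast_nonneg _)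
  · rw [← add_div, ← add_div]
    refine div_le_div_of_nonneg_right ?_ (Nat.cast_nonneg _)
    rw [smul_add]
    exact hp.en_add_le hB0 _ _

lemma en_neg (hp : Proc μ M lam K z B g) (w : Site d) : Proc.en μ g (-w) = Proc.en μ g w := by
  rw [← hp.integral_shift (-w) w]
  unfold Proc.en
  refine integral_congr_ae (ae_of_all _ fun ω => ?_)
  simp only
  rw [neg_add_cancel, hp.symm]

lemma sub_neg (hp : Proc μ M lam K z B g) {v : Site d} (hv : Sub μ g v) : Sub μ g (-v) := by
  unfold Sub at hv ⊢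
  refine hv.congr fun n => ?_
  rw [smul_neg, en_neg hp]

lemma sub_zero' (μ : Measure ℝ) [IsProbabilityMeasure μ]
    (g : Site d → Site d → (Site d → ℝ) → ℂ) : Sub μ g 0 := by
  unfold Sub
  simp only [smul_zero]
  exact tendsto_const_div_atTop_nhds_zero_nat _

lemma sub_nsmul (hp : Proc μ M lam K z B g) (hB0 : 0 ≤ B) {v : Site d} (hv : Sub μ g v) (n : ℕ) :
    Sub μ g (n • v) := by
  induction n with
  | zero => rw [zero_smul]; exact sub_zero' μ g
  | succ n ih => rw [add_smul, one_smul]; exact sub_add hp hB0 ih hv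

lemma sub_zsmul (hp : Proc μ M lam K z B g) (hB0 : 0 ≤ B) {v : Site d} (hv : Sub μ g v) (n : ℤ) :
    Sub μ g (n • v) := by
  obtain ⟨m, rfl | rfl⟩ := n.eq_nat_or_neg
  · rw [natCast_zsmul]; exact sub_nsmul hp hB0 hv m
  · rw [neg_smul, natCast_zsmul]; exact sub_neg hp (sub_nsmul hp hB0 hv m)

/-- sublinear growth along the axes gives sublinear growth in all directions -/
lemma sub_all (hp : Proc μ M lam K z B g) (hB0 : 0 ≤ B)
    (h : ∀ j : Fin d, Sub μ g (Pi.single j 1)) (v : Site d) : Sub μ g v := by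
  have h1 : v = ∑ j : Fin d, (v j) • (Pi.single j (1 : ℤ) : Site d) := by
    funext i
    rw [Finset.sum_apply, Finset.sum_eq_single i]
    · simp
    · intro j _ hj
      simp [Pi.single_apply, hj.symm]
    · simp
  rw [h1]
  refine Finset.sum_induction _ (fun w => Sub μ g w) (fun a b => sub_add hp hB0)
    (sub_zero' μ g) fun j _ => sub_zsmul hp hB0 (h j) _

/-- sublinear growth in the direction `v`: almost surely there is no exponential decay along any
ray in the direction `v` -/
theorem not_decayAlong (hp : Proc μ M lam K z B g) (hB0 : 0 ≤ B) {v : Site d}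
    (hv : Sub μ g v) :
    ∀ᵐ ω ∂(PP d μ), ∀ x, ¬ DecayAlong (fun y => g y x ω) x v := by
  set c2 : ℝ := (C2 M lam K).toReal with hc2
  have hc20 : 0 ≤ c2 := ENNReal.toReal_nonneg
  rw [ae_all_iff]
  intro x
  set Y : ℕ → (Site d → ℝ) → ℝ := fun n ω => -Real.log ‖g (n • v + x) x ω‖ with hY
  have hYi : ∀ n, Integrable (Y n) (PP d μ) := fun n => (hp.integrable_log hB0 _ _).neg
  have hYp : ∀ n : ℕ, ∫ ω, max (Y n ω) 0 ∂(PP d μ) ≤ Proc.en μ g (n • v) + 8 * c2 := by
    intro n
    have h1 := Zero.integrable_rpow hp (n • v + x) x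
    have h2 := hp.integral_shift (n • v) x
    have hle : ∀ ω, max (Y n ω) 0 ≤ Y n ω + 4 * ‖g (n • v + x) x ω‖ ^ (1/4 : ℝ) := by
      intro ω
      have h3 := Zero.posLog_le ‖g (n • v + x) x ω‖ (norm_nonneg _)
      have h4 := le_max_left (Real.log ‖g (n • v + x) x ω‖) 0
      have h5 := le_max_right (Real.log ‖g (n • v + x) x ω‖) 0
      refine max_le ?_ ?_
      · linarith
      · simp only [hY]; linarith
    have hi : Integrable (fun ω => Y n ω + 4 * ‖g (n • v + x) x ω‖ ^ (1/4 : ℝ)) (PP d μ) :=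
      (hYi n).add (h1.1.const_mul 4)
    calc ∫ ω, max (Y n ω) 0 ∂(PP d μ)
        ≤ ∫ ω, (Y n ω + 4 * ‖g (n • v + x) x ω‖ ^ (1/4 : ℝ)) ∂(PP d μ) :=
          integral_mono (hYi n).pos_part hi hle
      _ = Proc.en μ g (n • v) + 4 * ∫ ω, ‖g (n • v + x) x ω‖ ^ (1/4 : ℝ) ∂(PP d μ) := by
          rw [integral_add (hYi n) (h1.1.const_mul 4), integral_const_mul, ← h2]
      _ ≤ Proc.en μ g (n • v) + 8 * c2 := by linarith [h1.2]
  -- Fatou
  have hF : ∫⁻ ω, liminf (fun n : ℕ => ENNReal.ofReal (max (Y n ω) 0 / n)) atTop ∂(PP d μ) = 0 := by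
    refine le_antisymm ?_ zero_le
    have hm : ∀ n : ℕ, Measurable fun ω => ENNReal.ofReal (max (Y n ω) 0 / n) := fun n =>
      ((((hp.meas _ _).norm.log.neg).max measurable_const).div_const _).ennreal_ofReal
    refine (lintegral_liminf_le hm).trans ?_
    have h1 : ∀ n : ℕ, ∫⁻ ω, ENNReal.ofReal (max (Y n ω) 0 / n) ∂(PP d μ)
        ≤ ENNReal.ofReal (Proc.en μ g (n • v) / n + 8 * c2 / n) := by
      intro n
      rw [← ofReal_integral_eq_lintegral_ofReal ((hYi n).pos_part.div_const _)
        (Eventually.of_forall fun ω => div_nonneg (le_max_right _ _) (Nat.cast_nonneg _))]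
      refine ENNReal.ofReal_le_ofReal ?_
      rw [integral_div, ← add_div]
      exact div_le_div_of_nonneg_right (hYp n) (Nat.cast_nonneg _)
    refine (Filter.liminf_le_liminf (Eventually.of_forall h1)).trans ?_
    have h2 : Tendsto (fun n : ℕ => ENNReal.ofReal (Proc.en μ g (n • v) / n + 8 * c2 / n)) atTop
        (𝓝 0) := by
      have := hv.add (tendsto_const_div_atTop_nhds_zero_nat (8 * c2))
      rw [add_zero] at this
      have h3 := (ENNReal.continuous_ofReal.tendsto 0).comp this
      rwa [ENNReal.ofReal_zero] at h3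
    rw [h2.liminf_eq]
  have hm2 : Measurable fun ω => liminf (fun n : ℕ => ENNReal.ofReal (max (Y n ω) 0 / n)) atTop :=
    Measurable.liminf fun n =>
      ((((hp.meas _ _).norm.log.neg).max measurable_const).div_const _).ennreal_ofReal
  have hF' := (lintegral_eq_zero_iff hm2).1 hF
  have hne : ∀ᵐ ω ∂(PP d μ), ∀ n : ℕ, g (n • v + x) x ω ≠ 0 :=
    ae_all_iff.2 fun n => hp.ae_ne_zero hB0 _ _
  filter_upwards [hF', hne] with ω hω hn
  rintro ⟨C, c, hc, hdec⟩
  simp only [Pi.zero_apply] at hω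
  set C' : ℝ := max C 1 with hC'
  have hC'1 : 1 ≤ C' := le_max_right _ _
  have hYlow : ∀ n : ℕ, c * n - Real.log C' ≤ Y n ω := by
    intro n
    have h1 := hdec n
    rw [add_comm x (n • v)] at h1
    have h2 : ‖g (n • v + x) x ω‖ ≤ C' * Real.exp (-(c * n)) :=
      h1.trans (mul_le_mul_of_nonneg_right (le_max_left _ _) (Real.exp_pos _).le)
    have h3 := Real.log_le_log (norm_pos_iff.2 (hn n)) h2
    rw [Real.log_mul (by positivity) (Real.exp_pos _).ne', Real.log_exp] at h3
    simp only [hY]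
    linarith
  have hev : ∀ᶠ n : ℕ in atTop, ENNReal.ofReal (c / 2) ≤ ENNReal.ofReal (max (Y n ω) 0 / n) := by
    have h1 : Tendsto (fun n : ℕ => c - Real.log C' / n) atTop (𝓝 (c - 0)) :=
      (tendsto_const_div_atTop_nhds_zero_nat _).const_sub c
    rw [sub_zero] at h1
    filter_upwards [(tendsto_order.1 h1).1 (c / 2) (by linarith), eventually_gt_atTop 0] with n h2 h3
    have hn' : (0 : ℝ) < n := by exact_mod_cast h3
    refine ENNReal.ofReal_le_ofReal ?_
    refine h2.le.trans ?_
    have e : c - Real.log C' / n = (c * n - Real.log C') / n := by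
      field_simp
    rw [e]
    exact div_le_div_of_nonneg_right ((hYlow n).trans (le_max_left _ _)) hn'.le
  have hge : ENNReal.ofReal (c / 2) ≤ liminf (fun n : ℕ => ENNReal.ofReal (max (Y n ω) 0 / n)) atTop :=
    le_liminf_of_le (by isBoundedDefault) hev
  rw [hω] at hge
  have : (0 : ℝ≥0∞) < ENNReal.ofReal (c / 2) := ENNReal.ofReal_pos.2 (by linarith)
  exact absurd hge (not_le.2 this)

end Zero

end Pool.Agent.Helper3.Crit
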