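import Pool.Agent.Helper3.Crit.FinF
import Pool.Agent.Helper3.Crit.Zero2
import Pool.Agent.Helper3.Crit.Symg
import Pool.Agent.Helper3.Crit.Eqb
import Pool.Agent.Helper3.Crit.Eqd
import Pool.Agent.Helper3.Crit.Cmp
import Pool.Agent.Helper3.Crit.Eqn

/-! Exponential spectral localisation is equivalent to the vanishing of the spectral measures off
the set of fractional moment localisation. -/

open scoped ENNReal NNReal InnerProductSpace
open MeasureTheory Set Filter Topology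

noncomputable section

namespace Pool.Agent.Helper3.Crit

open Pool.Agent.Helper3.Anderson

variable {d : ℕ} {μ : Measure ℝ} [IsProbabilityMeasure μ] {M lam : ℝ} {K : ℝ≥0}

/-- the Poisson transform of a spectral measure -/
lemma poisson_of_isSpec (V : Site d → ℝ) (hV : Bdd V) (x : Site d) {ν : Measure ℝ}
    (h : PP.IsSpec (schr V hV) (dl x) ν) {z : ℂ} (hz0 : 0 < z.im) :
    ∫ t : ℝ, z.im / ‖(t : ℂ) - z‖ ^ 2 ∂ν = (green V z x x).im := by
  obtain ⟨g, hg, hgt, hgr⟩ := cfc_res V hV hz0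
  have h1 := h.int g hg
  rw [hgr] at h1
  have h2 : ⟪dl x, res V hV z (dl x)⟫_ℂ = green V z x x := by
    rw [green_eq V hV, dl, lp.inner_single_left]
    simp
  rw [h2] at h1
  have hint : Integrable (fun t : ℝ => g t) ν :=
    h.integrable (hg.comp Complex.continuous_ofReal)
  have h3 : (green V z x x).im = ∫ t : ℝ, (g t).im ∂ν := by
    rw [h1]
    exact (integral_im hint).symm
  rw [h3]
  refine integral_congr_ae (ae_of_all _ fun t => ?_)
  simp only [hgt, Complex.inv_im, Complex.sub_im, Complex.ofReal_im, zero_sub, neg_neg,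
    Complex.normSq_eq_norm_sq]

/-- all limits exist -/
def ConvS (M lam : ℝ) (ε : ℕ → ℝ) : Set (ℝ × (Site d → ℝ)) :=
  {p | ∀ x y : Site d, ∃ l,
    Tendsto (fun k => gc M lam ((p.1 : ℂ) + ε k * Complex.I) p.2 x y) atTop (𝓝 l)}

lemma measurableSet_ConvS (hM : 0 ≤ M) {ε : ℕ → ℝ} (hε : ∀ k, 0 < ε k) :
    MeasurableSet (ConvS (d := d) M lam ε) := by
  have : ConvS (d := d) M lam ε = ⋂ x : Site d, ⋂ y : Site d, {p : ℝ × (Site d → ℝ) | ∃ l,
      Tendsto (fun k => gc M lam ((p.1 : ℂ) + ε k * Complex.I) p.2 x y) atTop (𝓝 l)} := by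
    ext p; simp [ConvS]
  rw [this]
  exact MeasurableSet.iInter fun x => MeasurableSet.iInter fun y =>
    measurableSet_exists_tendsto fun k => measurable_gcE hM hε x y k

/-- the energy is no atom of the spectral measures -/
def NoAt (M lam : ℝ) (ε : ℕ → ℝ) : Set (ℝ × (Site d → ℝ)) :=
  {p | ∀ y : Site d, Tendsto
    (fun k => ε k * (gc M lam ((p.1 : ℂ) + ε k * Complex.I) p.2 y y).im) atTop (𝓝 0)}

lemma measurableSet_NoAt (hM : 0 ≤ M) {ε : ℕ → ℝ} (hε : ∀ k, 0 < ε k) :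
    MeasurableSet (NoAt (d := d) M lam ε) := by
  have : NoAt (d := d) M lam ε = ⋂ y : Site d, {p : ℝ × (Site d → ℝ) | Tendsto
      (fun k => ε k * (gc M lam ((p.1 : ℂ) + ε k * Complex.I) p.2 y y).im) atTop (𝓝 0)} := by
    ext p; simp [NoAt]
  rw [this]
  refine MeasurableSet.iInter fun y => ?_
  exact measurableSet_tendsto (𝓝 (0 : ℝ)) fun k =>
    (Complex.measurable_im.comp (measurable_gcE hM hε y y k)).const_mul _

lemma mem_Gx_of_decay {ε : ℕ → ℝ} {E : ℝ} {ω : Site d → ℝ} {x : Site d}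
    (h1 : ∀ y, ∃ l, Tendsto (fun k => gc M lam ((E : ℂ) + ε k * Complex.I) ω y x) atTop (𝓝 l))
    (h2 : ∃ C c : ℝ, 0 < c ∧ ∀ y, ‖gE M lam E ε y x ω‖ ≤ C * Real.exp (-(c * sn y))) :
    (E, ω) ∈ Gx M lam ε x := by
  refine ⟨h1, ?_⟩
  obtain ⟨C, c, hc, hC⟩ := h2
  obtain ⟨n, hn⟩ := exists_nat_ge (max C (1 / c))
  refine ⟨n, fun y => (hC y).trans ?_⟩
  have hn1 : C ≤ n := (le_max_left _ _).trans hn
  have hn2 : 1 / c ≤ n := (le_max_right _ _).trans hn
  have h6 : 1 / ((n : ℝ) + 1) ≤ c := by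
    rw [div_le_iff₀ (by positivity)]
    rw [div_le_iff₀ hc] at hn2
    nlinarith
  have h7 : Real.exp (-(c * sn y)) ≤ Real.exp (-(1 / ((n : ℝ) + 1) * sn y)) := by
    refine Real.exp_le_exp.2 (neg_le_neg ?_)
    exact mul_le_mul_of_nonneg_right h6 (Nat.cast_nonneg _)
  calc C * Real.exp (-(c * sn y)) ≤ n * Real.exp (-(c * sn y)) :=
        mul_le_mul_of_nonneg_right hn1 (Real.exp_pos _).le
    _ ≤ _ := mul_le_mul_of_nonneg_left h7 (Nat.cast_nonneg _)

/-- localisation of the spectrum in `U`, operator form -/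
def LocOp (V : Site d → ℝ) (hV : Bdd V) (U : Set ℝ) : Prop :=
  ∀ (ψ : L2 d) (ν : Measure ℝ), PP.IsSpec (schr V hV) ψ ν →
    (∀ E ∈ U, ∀ φ : L2 d, schr V hV φ = (E : ℂ) • φ → ExpDecay (φ : Site d → ℂ) →
      ⟪φ, ψ⟫_ℂ = 0) → ν U = 0

/-! ## eigenvectors and resampling -/

/-- the point mass of an eigenvalue is dominated by the spectral measure of `δ_x` -/
lemma poisson_eig (V : Site d → ℝ) (hV : Bdd V) (x : Site d) {E : ℝ} {ψ : L2 d}
    (hψ : schr V hV ψ = (E : ℂ) • ψ) {z : ℂ} (hz0 : 0 < z.im) :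
    ‖ψ x‖ ^ 2 * (z.im / ‖(E : ℂ) - z‖ ^ 2) ≤ ‖ψ‖ ^ 2 * (green V z x x).im := by
  set u : L2 d := res V hV z (dl x) with hu
  have h1 : ⟪ψ, dl x⟫_ℂ = ((E : ℂ) - z) * ⟪ψ, u⟫_ℂ := by
    have e := hz_res V hV hz0.ne' (dl x)
    rw [← hu] at e
    rw [← e, hz, sub_apply, inner_sub_right, ← inner_schr, hψ, smul_apply, one_apply_eq_self,
      inner_smul_right, inner_smul_left, Complex.conj_ofReal]
    ring
  have h2 : ‖⟪ψ, dl x⟫_ℂ‖ = ‖ψ x‖ := by
    rw [dl, lp.inner_single_right]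
    simp
  have hne : 0 < ‖(E : ℂ) - z‖ := by
    rw [norm_pos_iff]
    intro h0
    have := congrArg Complex.im h0
    simp at this
    exact hz0.ne' this
  have h3 : ‖ψ x‖ ≤ ‖(E : ℂ) - z‖ * (‖ψ‖ * ‖u‖) := by
    rw [← h2, h1, norm_mul]
    exact mul_le_mul_of_nonneg_left (norm_inner_le_norm _ _) (norm_nonneg _)
  have h4 := ward V hV hz0 x
  rw [← hu] at h4
  have h5 : ‖ψ x‖ ^ 2 ≤ ‖(E : ℂ) - z‖ ^ 2 * (‖ψ‖ ^ 2 * ‖u‖ ^ 2) := by
    have := pow_le_pow_left₀ (norm_nonneg _) h3 2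
    rw [mul_pow, mul_pow] at this
    exact this
  rw [← h4, ← mul_div_assoc, div_le_iff₀ (by positivity)]
  have h6 := mul_le_mul_of_nonneg_right h5 hz0.le
  calc ‖ψ x‖ ^ 2 * z.im ≤ ‖(E : ℂ) - z‖ ^ 2 * (‖ψ‖ ^ 2 * ‖u‖ ^ 2) * z.im := h6
    _ = ‖ψ‖ ^ 2 * (z.im * ‖u‖ ^ 2) * ‖(E : ℂ) - z‖ ^ 2 := by ring

/-- spectral averaging for eigenvalues: the resampled configuration avoids a set that is null for
almost every energy -/
theorem eig_avoid (hμ : GoodLaw μ M K) (hlam : 0 < lam) (x : Site d) (t0 : ℝ)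
    {N : Set (ℝ × (Site d → ℝ))} (hN : MeasurableSet N)
    (hN0 : ∀ᵐ ω ∂(PP d μ), ∀ᵐ E : ℝ, (E, Function.update ω x t0) ∉ N) :
    ∀ᵐ ω ∂(PP d μ), ∀ (E : ℝ) (ψ : L2 d),
      schr (potc M lam ω) (bdd_potc (zero_le_one.trans hμ.one_le) ω) ψ = (E : ℂ) • ψ → ψ x ≠ 0 →
      (E, Function.update ω x t0) ∉ N := by
  have hM : 0 ≤ M := zero_le_one.trans hμ.one_le
  filter_upwards [spec_avg hμ hlam x t0 hN hN0] with ω hω E ψ hψ hx hcon
  have hψ0 : 0 < ‖ψ‖ := by
    rw [norm_pos_iff]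
    rintro rfl
    exact hx rfl
  have hc : 0 < ‖ψ x‖ ^ 2 / ‖ψ‖ ^ 2 := by
    have : 0 < ‖ψ x‖ := norm_pos_iff.2 hx
    positivity
  set ν : Measure ℝ := ENNReal.ofReal (‖ψ x‖ ^ 2 / ‖ψ‖ ^ 2) • Measure.dirac E with hν
  have hfin : IsFiniteMeasure ν := ⟨by
    rw [hν, Measure.smul_apply, smul_eq_mul]
    exact ENNReal.mul_lt_top ENNReal.ofReal_lt_top (measure_lt_top _ _)⟩
  have h1 := hω ν hfin (fun z hz0 => by
    rw [hν, integral_smul_measure, integral_dirac, ENNReal.toReal_ofReal hc.le, smul_eq_mul,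
      div_mul_eq_mul_div, div_le_iff₀ (by positivity), mul_comm (gc M lam z ω x x).im]
    exact poisson_eig _ _ x hψ hz0)
  have hNE : MeasurableSet {E : ℝ | (E, Function.update ω x t0) ∈ N} :=
    measurable_prodMk_right hN
  rw [hν, Measure.smul_apply, Measure.dirac_apply' _ hNE, indicator_of_mem (by exact hcon)] at h1
  simp only [Pi.one_apply, smul_eq_mul, mul_one] at h1
  rw [ENNReal.ofReal_eq_zero] at h1
  linarith

/-! ## no decay outside the set of fractional moment localisation -/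

/-- outside the set of fractional moment localisation the limit Green function does not decay in
any direction -/
theorem ae_not_along (hμ : GoodLaw μ M K) (hlam : 0 < lam) {E : ℝ} {ε : ℕ → ℝ}
    (hε : ∀ k, 0 < ε k) (hε1 : ∀ k, ε k ≤ 1) (hε0 : Tendsto ε atTop (𝓝 0))
    (hconv : ∀ᵐ ω ∂(PP d μ), ∀ x y : Site d,
      ∃ l, Tendsto (fun k => gc M lam ((E : ℂ) + ε k * Complex.I) ω x y) atTop (𝓝 l))
    (hE : E ∉ FMS d μ M lam) :
    ∀ᵐ ω ∂(PP d μ), ∀ v x, ¬ DecayAlong (fun y => gE M lam E ε y x ω) x v := by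
  set B : ℝ := 2 * d + (|E| + 1) + 2 with hB
  have hB0 : 0 ≤ B := by positivity
  have hp := proc_gE hμ hlam hε hε1 hε0 (B := B) le_rfl hconv
  have hax : ∀ j : Fin d, Zero.Sub μ (gE (d := d) M lam E ε) (Pi.single j 1) := by
    intro j
    refine Zero.sub_of_not hp hB0 _ ?_
    rintro ⟨m, Cd, hm, h⟩
    obtain ⟨C', hC'⟩ := en_gE_shape hμ hε hp hB0 j hm h
    exact hE (init_fm hμ hlam hp hB0 hm hC')
  rw [ae_all_iff]
  exact fun v => Zero.not_decayAlong hp hB0 (Zero.sub_all hp hB0 hax v)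

/-- the pairs for which the limit Green function decays along the ray -/
def Rx (M lam : ℝ) (ε : ℕ → ℝ) (x v : Site d) : Set (ℝ × (Site d → ℝ)) :=
  {p | ∃ k : ℕ, ∀ n : ℕ, ‖gE M lam p.1 ε (x + n • v) x p.2‖
    ≤ k * Real.exp (-(1 / ((k : ℝ) + 1) * n))}

lemma measurableSet_Rx (hM : 0 ≤ M) {ε : ℕ → ℝ} (hε : ∀ k, 0 < ε k) (x v : Site d) :
    MeasurableSet (Rx M lam ε x v) := by
  have : Rx M lam ε x v = ⋃ k : ℕ, ⋂ n : ℕ, {p : ℝ × (Site d → ℝ) |
      ‖gE M lam p.1 ε (x + n • v) x p.2‖ ≤ k * Real.exp (-(1 / ((k : ℝ) + 1) * n))} := by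
    ext p; simp [Rx]
  rw [this]
  exact MeasurableSet.iUnion fun n => MeasurableSet.iInter fun y =>
    measurableSet_le (measurable_gEj hM hε _ x).norm measurable_const

lemma mem_Rx_iff {ε : ℕ → ℝ} {E : ℝ} {ω : Site d → ℝ} {x v : Site d} :
    (E, ω) ∈ Rx M lam ε x v ↔ DecayAlong (fun y => gE M lam E ε y x ω) x v := by
  constructor
  · rintro ⟨k, hk⟩
    exact ⟨k, 1 / ((k : ℝ) + 1), by positivity, hk⟩
  · rintro ⟨C, c, hc, hC⟩
    obtain ⟨n, hn⟩ := exists_nat_ge (max C (1 / c))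
    refine ⟨n, fun y => (hC y).trans ?_⟩
    have hn1 : C ≤ n := (le_max_left _ _).trans hn
    have hn2 : 1 / c ≤ n := (le_max_right _ _).trans hn
    have h6 : 1 / ((n : ℝ) + 1) ≤ c := by
      rw [div_le_iff₀ (by positivity)]
      rw [div_le_iff₀ hc] at hn2
      nlinarith
    have h7 : Real.exp (-(c * y)) ≤ Real.exp (-(1 / ((n : ℝ) + 1) * y)) := by
      refine Real.exp_le_exp.2 (neg_le_neg ?_)
      exact mul_le_mul_of_nonneg_right h6 (Nat.cast_nonneg _)
    calc C * Real.exp (-(c * y)) ≤ n * Real.exp (-(c * y)) :=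
          mul_le_mul_of_nonneg_right hn1 (Real.exp_pos _).le
      _ ≤ _ := mul_le_mul_of_nonneg_left h7 (Nat.cast_nonneg _)

/-- The dichotomy for eigenvectors: almost surely, all eigenvectors with eigenvalue in the set of
fractional moment localisation decay exponentially, and an eigenvector with eigenvalue outside this
set decays exponentially in no direction (from no site of its support). -/
theorem eig_dichotomy (hμ : GoodLaw μ M K) (hlam : 0 < lam) :
    ∀ᵐ ω ∂(PP d μ), ∀ (E : ℝ) (ψ : L2 d),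
      schr (potc M lam ω) (bdd_potc (zero_le_one.trans hμ.one_le) ω) ψ = (E : ℂ) • ψ →
      ∀ x, ψ x ≠ 0 → (E ∈ FMS d μ M lam → ExpDecay (ψ : Site d → ℂ)) ∧
        (E ∉ FMS d μ M lam → ∀ v, ¬ DecayAlong (ψ : Site d → ℂ) x v) := by
  have hM : 0 ≤ M := zero_le_one.trans hμ.one_le
  obtain ⟨φ, hφ, hbv⟩ := exists_bv (d := d) hμ hlam (η := fun j : ℕ => 1 / ((j : ℝ) + 1))
    (fun j => by positivity) tendsto_one_div_add_atTop_nhds_zero_nat
  set ε : ℕ → ℝ := fun k => 1 / ((φ k : ℝ) + 1) with hεdef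
  have hε : ∀ k, 0 < ε k := fun k => by positivity
  have hε1 : ∀ k, ε k ≤ 1 := fun k => by
    simp only [hεdef]
    rw [div_le_one (by positivity)]
    have : (0 : ℝ) ≤ φ k := Nat.cast_nonneg _
    linarith
  have hε0 : Tendsto ε atTop (𝓝 0) :=
    tendsto_one_div_add_atTop_nhds_zero_nat.comp hφ.tendsto_atTop
  have hbv' : ∀ᵐ E : ℝ, ∀ᵐ ω ∂(PP d μ), ∀ x y : Site d,
      ∃ l, Tendsto (fun k => gc M lam ((E : ℂ) + ε k * Complex.I) ω x y) atTop (𝓝 l) := by
    simpa [hεdef] using hbv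
  have hF := (isOpen_FMS d μ M lam).measurableSet
  have hNA : ∀ᵐ E : ℝ, ∀ᵐ ω ∂(PP d μ), (E, ω) ∈ NoAt (d := d) M lam ε := by
    have hm := measurableSet_NoAt (d := d) (lam := lam) hM hε
    have h1 : ∀ᵐ ω ∂(PP d μ), ∀ᵐ E : ℝ, (E, ω) ∈ NoAt (d := d) M lam ε :=
      ae_of_all _ fun ω => ae_no_atom (potc M lam ω) (bdd_potc hM ω) hε hε0
    exact (Measure.ae_ae_comm (μ := (volume : Measure ℝ)) (ν := PP d μ)
      (p := fun E ω => (E, ω) ∈ NoAt (d := d) M lam ε) hm).2 h1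
  suffices hsuff : ∀ x : Site d, ∀ᵐ ω ∂(PP d μ), ∀ (E : ℝ) (ψ : L2 d),
      schr (potc M lam ω) (bdd_potc (zero_le_one.trans hμ.one_le) ω) ψ = (E : ℂ) • ψ →
      ψ x ≠ 0 → (E ∈ FMS d μ M lam → ExpDecay (ψ : Site d → ℂ)) ∧
        (E ∉ FMS d μ M lam → ∀ v, ¬ DecayAlong (ψ : Site d → ℂ) x v) by
    filter_upwards [ae_all_iff.2 hsuff] with ω hω E ψ hψ x
    exact hω x E ψ hψ
  intro x
  set N : Set (ℝ × (Site d → ℝ)) := ((ConvS M lam ε ∩ NoAt M lam ε)ᶜ ∪
    ((Prod.fst ⁻¹' (FMS d μ M lam)) ∩ (Gx M lam ε x)ᶜ)) ∪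
    ((Prod.fst ⁻¹' (FMS d μ M lam)ᶜ) ∩ ⋃ v : Site d, Rx M lam ε x v) with hN
  have hNm : MeasurableSet N :=
    (((measurableSet_ConvS hM hε).inter (measurableSet_NoAt hM hε)).compl.union
      ((measurable_fst hF).inter (measurableSet_Gx hM hε x).compl)).union
      ((measurable_fst hF.compl).inter (MeasurableSet.iUnion fun v => measurableSet_Rx hM hε x v))
  have hNae : ∀ᵐ E : ℝ, ∀ᵐ ω ∂(PP d μ), (E, ω) ∉ N := by
    filter_upwards [hbv', hNA] with E hE hE2
    by_cases hEU : E ∈ FMS d μ M lam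
    · filter_upwards [hE, hE2, ae_Gx hμ hε hε0 hE hEU x] with ω h1 h2 h3 hcon
      rcases hcon with (hcon | hcon) | hcon
      · exact hcon ⟨h1, h2⟩
      · exact hcon.2 h3
      · exact hcon.1 hEU
    · filter_upwards [hE, hE2, ae_not_along hμ hlam hε hε1 hε0 hE hEU] with ω h1 h2 h3 hcon
      rcases hcon with (hcon | hcon) | hcon
      · exact hcon ⟨h1, h2⟩
      · exact hEU hcon.1
      · obtain ⟨v, hv⟩ := mem_iUnion.1 hcon.2
        exact h3 v x (mem_Rx_iff.1 hv)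
  obtain ⟨t0, ht0⟩ := exists_resample (μ := μ) x hNm hNae
  have hne : ∀ᵐ ω ∂(PP d μ), ω x ≠ clip M t0 := by
    have h1 : μ {clip M t0} = 0 := by
      have := hμ.dens {clip M t0}
      simpa using this
    have h2 : (PP d μ) ((fun ω : Site d → ℝ => ω x) ⁻¹' {clip M t0}) = 0 := by
      have hmp := measurePreserving_eval_infinitePi (fun _ : Site d => μ) x
      rw [← hmp.measure_preimage (measurableSet_singleton _).nullMeasurableSet] at h1
      exact h1
    rw [ae_iff]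
    convert h2 using 2
    ext ω; simp
  filter_upwards [eig_avoid hμ hlam x t0 hNm ht0, hne, ae_bdd (d := d) hμ.supp] with
    ω hω hneω hb E ψ hψ hψx
  have hEN := hω E ψ hψ hψx
  have hE1 : (E, Function.update ω x t0) ∈ ConvS M lam ε ∩ NoAt M lam ε := by
    by_contra hcon
    exact hEN (Or.inl (Or.inl hcon))
  have hVx : potc M lam ω x ≠ potc M lam (Function.update ω x t0) x := by
    simp only [potc, Function.update_self]
    rw [clip_of_abs_le (hb x)]
    intro hcon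
    exact hneω (mul_left_cancel₀ hlam.ne' hcon)
  have hlim := limit_eq_eigen (potc M lam ω) (potc M lam (Function.update ω x t0)) (bdd_potc hM ω)
      (bdd_potc hM _) x (fun y hy => by
        simp only [potc]
        rw [Function.update_of_ne hy]) hVx E hε hε0
      (φ := fun y => gE M lam E ε y x (Function.update ω x t0)) (fun y => gE_tendsto (hE1.1 y x))
      (fun η hη => ker_trivial _ _ E hε (fun y => hE1.2 y) η hη) ψ hψ hψx
  set κ : ℂ := ((potc M lam ω x - potc M lam (Function.update ω x t0) x : ℝ) : ℂ) * ψ x with hκ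
  have hκ0 : κ ≠ 0 := by
    rw [hκ]
    refine mul_ne_zero ?_ hψx
    exact_mod_cast sub_ne_zero.2 hVx
  have hκpos : 0 < ‖κ‖ := norm_pos_iff.2 hκ0
  have hnorm : ∀ y, ‖ψ y‖ = ‖κ‖ * ‖gE M lam E ε y x (Function.update ω x t0)‖ := by
    intro y
    have h1 : gE M lam E ε y x (Function.update ω x t0) = -κ⁻¹ * ψ y := hlim y
    have h2 : ‖-κ⁻¹ * ψ y‖ = ‖κ‖⁻¹ * ‖ψ y‖ := by rw [norm_mul, norm_neg, norm_inv]
    rw [h1, h2, ← mul_assoc, mul_inv_cancel₀ hκpos.ne', one_mul]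
  constructor
  · intro hEF
    have hG : (E, Function.update ω x t0) ∈ Gx M lam ε x := by
      by_contra hcon
      exact hEN (Or.inl (Or.inr ⟨hEF, hcon⟩))
    obtain ⟨-, n, hn⟩ := hG
    refine ⟨‖κ‖ * n, 1 / ((n : ℝ) + 1), by positivity, fun y => ?_⟩
    rw [hnorm y, mul_assoc, norm_eq_sn]
    exact mul_le_mul_of_nonneg_left (hn y) hκpos.le
  · rintro hEF v ⟨C, c, hc, hC⟩
    refine hEN (Or.inr ⟨hEF, mem_iUnion.2 ⟨v, mem_Rx_iff.2 ⟨‖κ‖⁻¹ * C, c, hc, fun n => ?_⟩⟩⟩)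
    have h1 := hC n
    rw [hnorm] at h1
    have h2 := mul_le_mul_of_nonneg_left h1 (inv_nonneg.2 hκpos.le)
    rwa [← mul_assoc, inv_mul_cancel₀ hκpos.ne', one_mul, ← mul_assoc] at h2

/-! ## all vectors -/

lemma norm_cfc_le_norm (V : Site d → ℝ) (hV : Bdd V) (u : L2 d) {g : ℂ → ℂ} (hg : Continuous g)
    (hg1 : ∀ t : ℝ, ‖g t‖ ≤ 1) : ‖cfc g (schr V hV) u‖ ≤ ‖u‖ := by
  obtain ⟨ν, hν⟩ := exists_isSpec V hV u
  have := hν.fin
  have h1 := hν.norm_sq (isSelfAdjoint_schr V hV) hg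
  have h2 := hν.norm_sq (isSelfAdjoint_schr V hV) (g := fun _ => (1 : ℂ)) continuous_const
  have h3 : cfc (fun _ => (1 : ℂ)) (schr V hV) u = u := by
    rw [cfc_const_one ℂ (schr V hV) (isSelfAdjoint_schr V hV).isStarNormal]
    rfl
  rw [h3] at h2
  have h4 : ‖cfc g (schr V hV) u‖ ^ 2 ≤ ‖u‖ ^ 2 := by
    rw [h1, h2]
    refine integral_mono (hν.integrable (by fun_prop)) (hν.integrable (by fun_prop)) fun t => ?_
    simp only [norm_one, one_pow]
    exact pow_le_one₀ (norm_nonneg _) (hg1 t)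
  exact (pow_le_pow_iff_left₀ (norm_nonneg _) (norm_nonneg _) two_ne_zero).1 h4

/-- the approximate indicator of a closed set -/
def apx (C : Set ℝ) (m : ℕ) (z : ℂ) : ℂ := ((max 0 (1 - m * Metric.infDist z.re C) : ℝ) : ℂ)

lemma continuous_apx (C : Set ℝ) (m : ℕ) : Continuous (apx C m) := by
  have := (Metric.continuous_infDist_pt C).comp Complex.continuous_re
  unfold apx
  refine Complex.continuous_ofReal.comp ?_
  exact continuous_const.max (continuous_const.sub (continuous_const.mul this))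

lemma norm_apx (C : Set ℝ) (m : ℕ) (t : ℝ) :
    ‖apx C m t‖ = max 0 (1 - m * Metric.infDist t C) := by
  simp only [apx, Complex.ofReal_re, Complex.norm_real, Real.norm_eq_abs]
  exact abs_of_nonneg (le_max_left _ _)

lemma norm_apx_le (C : Set ℝ) (m : ℕ) (t : ℝ) : ‖apx C m t‖ ≤ 1 := by
  rw [norm_apx]
  refine max_le zero_le_one ?_
  have := mul_nonneg (Nat.cast_nonneg (α := ℝ) m) (Metric.infDist_nonneg (x := t) (s := C))
  linarith

lemma norm_apx_of_mem {C : Set ℝ} (m : ℕ) {t : ℝ} (ht : t ∈ C) : ‖apx C m t‖ = 1 := by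
  rw [norm_apx, Metric.infDist_zero_of_mem ht]
  simp

lemma tendsto_apx {C : Set ℝ} (hC : IsClosed C) (hne : C.Nonempty) (t : ℝ) :
    Tendsto (fun m => ‖apx C m t‖ ^ 2) atTop (𝓝 (indicator C 1 t)) := by
  by_cases ht : t ∈ C
  · simp only [norm_apx_of_mem _ ht, indicator_of_mem ht, Pi.one_apply]
    simp
  · rw [indicator_of_notMem ht]
    have hpos : 0 < Metric.infDist t C := (hC.notMem_iff_infDist_pos hne).1 ht
    obtain ⟨n, hn⟩ := exists_nat_ge (1 / Metric.infDist t C)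
    refine tendsto_const_nhds.congr' ?_
    filter_upwards [eventually_ge_atTop n] with m hm
    have h1 : 1 ≤ (m : ℝ) * Metric.infDist t C := by
      have : (n : ℝ) ≤ m := by exact_mod_cast hm
      rw [div_le_iff₀ hpos] at hn
      exact hn.trans (mul_le_mul_of_nonneg_right this hpos.le)
    rw [norm_apx, max_eq_left (by linarith)]
    norm_num

lemma measure_le_apx (V : Site d → ℝ) (hV : Bdd V) (ψ : L2 d) {ν : Measure ℝ}
    (hν : PP.IsSpec (schr V hV) ψ ν) {C : Set ℝ} (hC : IsClosed C) (m : ℕ) :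
    ν.real C ≤ ‖cfc (apx C m) (schr V hV) ψ‖ ^ 2 := by
  have := hν.fin
  rw [hν.norm_sq (isSelfAdjoint_schr V hV) (continuous_apx C m)]
  have h1 : ν.real C = ∫ t, indicator C 1 t ∂ν := by
    rw [integral_indicator_one hC.measurableSet]
  rw [h1]
  refine integral_mono ?_ (hν.integrable (by have := continuous_apx C m; fun_prop)) fun t => ?_
  · exact (integrable_const (1 : ℝ)).indicator hC.measurableSet
  · by_cases ht : t ∈ C
    · simp only [indicator_of_mem ht, Pi.one_apply, norm_apx_of_mem _ ht]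
      norm_num
    · simp only [indicator_of_notMem ht]
      positivity

lemma tendsto_apx_cfc (V : Site d → ℝ) (hV : Bdd V) (ψ : L2 d) {ν : Measure ℝ}
    (hν : PP.IsSpec (schr V hV) ψ ν) {C : Set ℝ} (hC : IsClosed C) (hne : C.Nonempty)
    (h0 : ν C = 0) : Tendsto (fun m => ‖cfc (apx C m) (schr V hV) ψ‖) atTop (𝓝 0) := by
  have := hν.fin
  have h1 : Tendsto (fun m => ‖cfc (apx C m) (schr V hV) ψ‖ ^ 2) atTop (𝓝 0) := by
    have h2 : Tendsto (fun m => ∫ t : ℝ, ‖apx C m t‖ ^ 2 ∂ν) atTop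
        (𝓝 (∫ t, indicator C 1 t ∂ν)) := by
      refine tendsto_integral_of_dominated_convergence (fun _ => 1) (fun m => ?_)
        (integrable_const _) (fun m => ae_of_all _ fun t => ?_)
        (ae_of_all _ fun t => tendsto_apx hC hne t)
      · have := continuous_apx C m
        exact (by fun_prop : Continuous fun t : ℝ => ‖apx C m t‖ ^ 2).aestronglyMeasurable
      · rw [Real.norm_eq_abs, abs_of_nonneg (by positivity)]
        exact pow_le_one₀ (norm_nonneg _) (norm_apx_le C m t)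
    rw [integral_indicator_one hC.measurableSet, measureReal_def, h0, ENNReal.toReal_zero] at h2
    refine h2.congr fun m => ?_
    rw [hν.norm_sq (isSelfAdjoint_schr V hV) (continuous_apx C m)]
  have h2 := h1.sqrt
  simp only [Real.sqrt_zero, Real.sqrt_sq (norm_nonneg _)] at h2
  exact h2

/-- a set which is null for the spectral measures of all `δ_x` is null for all spectral
measures -/
theorem null_of_dl (V : Site d → ℝ) (hV : Bdd V) {B : Set ℝ} (hB : MeasurableSet B)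
    (h : ∀ (x : Site d) (ν : Measure ℝ), PP.IsSpec (schr V hV) (dl x) ν → ν B = 0)
    (ψ : L2 d) {ν : Measure ℝ} (hν : PP.IsSpec (schr V hV) ψ ν) : ν B = 0 := by
  have := hν.fin
  rw [hB.measure_eq_iSup_isClosed_of_ne_top (measure_ne_top ν B)]
  simp only [ENNReal.iSup_eq_zero]
  intro C hCB hC
  by_cases hne : C.Nonempty
  swap
  · rw [not_nonempty_iff_eq_empty] at hne
    rw [hne]; simp
  have hx : ∀ x : Site d, Tendsto (fun m => ‖cfc (apx C m) (schr V hV) (dl x)‖) atTop (𝓝 0) := by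
    intro x
    obtain ⟨νx, hνx⟩ := exists_isSpec V hV (dl x)
    exact tendsto_apx_cfc V hV (dl x) hνx hC hne (measure_mono_null hCB (h x νx hνx))
  -- all vectors
  have key : ∀ δ : ℝ, 0 < δ → ∀ᶠ m in atTop, ‖cfc (apx C m) (schr V hV) ψ‖ ≤ 2 * δ := by
    intro δ hδ
    have hs := lp.hasSum_single (E := fun _ : Site d => ℂ) (p := 2) (by norm_num) ψ
    obtain ⟨s, hs⟩ := (hs.eventually (Metric.ball_mem_nhds ψ hδ)).exists
    set ψs : L2 d := ∑ x ∈ s, lp.single 2 x (ψ x) with hψs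
    have h1 : Tendsto (fun m => ∑ x ∈ s, ‖ψ x‖ * ‖cfc (apx C m) (schr V hV) (dl x)‖) atTop
        (𝓝 0) := by
      have : Tendsto (fun m => ∑ x ∈ s, ‖ψ x‖ * ‖cfc (apx C m) (schr V hV) (dl x)‖) atTop
          (𝓝 (∑ x ∈ s, ‖ψ x‖ * 0)) := tendsto_finsetSum _ fun x _ => (hx x).const_mul _
      simpa using this
    filter_upwards [h1.eventually (gt_mem_nhds hδ)] with m hm
    have h2 : cfc (apx C m) (schr V hV) ψ = cfc (apx C m) (schr V hV) (ψ - ψs)
        + ∑ x ∈ s, ψ x • cfc (apx C m) (schr V hV) (dl x) := by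
      have h3 : ∑ x ∈ s, ψ x • cfc (apx C m) (schr V hV) (dl x)
          = cfc (apx C m) (schr V hV) ψs := by
        rw [hψs, map_sum]
        refine Finset.sum_congr rfl fun x _ => ?_
        rw [← map_smul]
        congr 1
        ext y
        simp [dl, lp.single_apply, Pi.single_apply]
      rw [h3, ← map_add, sub_add_cancel]
    rw [h2]
    refine (norm_add_le _ _).trans ?_
    have h4 : ‖cfc (apx C m) (schr V hV) (ψ - ψs)‖ ≤ δ := by
      refine (norm_cfc_le_norm V hV _ (continuous_apx C m) (norm_apx_le C m)).trans ?_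
      rw [← dist_eq_norm, dist_comm]
      exact (Metric.mem_ball.1 hs).le
    have h5 : ‖∑ x ∈ s, ψ x • cfc (apx C m) (schr V hV) (dl x)‖ ≤ δ := by
      refine (norm_sum_le _ _).trans ?_
      simp only [norm_smul]
      exact hm.le
    linarith
  have hz : ν.real C ≤ 0 := by
    refine le_of_forall_pos_le_add fun δ hδ => ?_
    have hδ' : 0 < Real.sqrt δ / 2 := by positivity
    obtain ⟨m, hm⟩ := (key _ hδ').exists
    have h1 := measure_le_apx V hV ψ hν hC m
    have h2 : ‖cfc (apx C m) (schr V hV) ψ‖ ^ 2 ≤ δ := by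
      calc ‖cfc (apx C m) (schr V hV) ψ‖ ^ 2 ≤ (2 * (Real.sqrt δ / 2)) ^ 2 :=
            pow_le_pow_left₀ (norm_nonneg _) hm 2
        _ = δ := by
            rw [mul_div_cancel₀ _ two_ne_zero, Real.sq_sqrt hδ.le]
    linarith
  have hz2 : ν.real C = 0 := le_antisymm hz measureReal_nonneg
  rwa [measureReal_eq_zero_iff] at hz2

/-! ## localisation of the spectrum -/

lemma decayAlong_of_expDecay {f : Site d → ℂ} (h : ExpDecay f) (x : Site d) {v : Site d}
    (hv : v ≠ 0) : DecayAlong f x v := by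
  obtain ⟨C, c, hc, h⟩ := h
  have hC : 0 ≤ C := by
    have := (norm_nonneg _).trans (h 0)
    simpa using this
  have hv1 : 0 < ‖v‖ := norm_pos_iff.2 hv
  refine ⟨C * Real.exp (c * ‖x‖), c * ‖v‖, by positivity, fun n => (h _).trans ?_⟩
  rw [mul_assoc, ← Real.exp_add]
  refine mul_le_mul_of_nonneg_left (Real.exp_le_exp.2 ?_) hC
  have h1 : ‖n • v‖ ≤ ‖x + n • v‖ + ‖x‖ := by
    have := norm_sub_le (x + n • v) x
    rwa [add_sub_cancel_left] at this
  have h2 : ‖n • v‖ = n * ‖v‖ := by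
    rw [norm_eq_sn, norm_eq_sn, sn_nsmul]
    push_cast
    rfl
  rw [h2] at h1
  nlinarith

/-- Almost surely, for every open set `U`: the spectrum in `U` is pure point with exponentially
decaying eigenvectors if and only if the spectral measures vanish on the part of `U` outside the
set of fractional moment localisation. -/
theorem loc_iff_null (hμ : GoodLaw μ M K) (hlam : 0 < lam) (hd : 0 < d) :
    ∀ᵐ ω ∂(PP d μ), ∀ U : Set ℝ, IsOpen U →
      (LocOp (potc M lam ω) (bdd_potc (zero_le_one.trans hμ.one_le) ω) U ↔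
      ∀ (x : Site d) (ν : Measure ℝ),
      PP.IsSpec (schr (potc M lam ω) (bdd_potc (zero_le_one.trans hμ.one_le) ω)) (dl x) ν →
      ν (U \ FMS d μ M lam) = 0) := by
  have hM : 0 ≤ M := zero_le_one.trans hμ.one_le
  have hF := (isOpen_FMS d μ M lam).measurableSet
  have hsw := sw_ae (d := d) hμ hlam (U := FMS d μ M lam) hF (by simp)
  filter_upwards [hsw, eig_dichotomy (d := d) hμ hlam] with ω hω hed U hU
  constructor
  · intro hloc x ν hν
    refine null_of_localised (potc M lam ω) (bdd_potc hM ω) hU.measurableSet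
      (hU.measurableSet.diff hF) sdiff_subset x hloc ?_ hν
    intro E hE φ hφE hdec
    by_contra hφx
    refine (hed E φ hφE x hφx).2 hE.2 (Pi.single (⟨0, hd⟩ : Fin d) 1 : Site d)
      (decayAlong_of_expDecay hdec x ?_)
    intro h0
    have := congrArg sn h0
    rw [sn_single, sn_zero] at this
    exact one_ne_zero this
  · intro hn ψ ν hν hψ
    refine null_of_cfc _ _ ψ hν hU fun f hf hfU => ?_
    refine pure_point (potc M lam ω) (bdd_potc hM ω) U (fun x ν' hν' hint => ?_) ψ hψ f hf hfU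
    obtain ⟨νx, hνx⟩ := exists_isSpec (potc M lam ω) (bdd_potc hM ω) (dl x)
    have hfin := hνx.fin
    have hle : ν' ≤ νx := by
      refine le_of_transform fun z hz0 => ?_
      rw [poisson_of_isSpec _ _ x hνx hz0]
      exact hint z hz0
    have h0 : ν' (U \ FMS d μ M lam) = 0 := le_antisymm ((hle _).trans (hn x νx hνx).le) bot_le
    have h1 : ∀ᵐ E ∂ν', E ∉ U \ FMS d μ M lam := by
      rw [ae_iff]
      simp only [not_not]
      exact h0
    filter_upwards [hω x ν' hν' hint, h1] with E hE hE2 hEU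
    refine hE ?_
    by_contra hcon
    exact hE2 ⟨hEU, hcon⟩

/-- almost surely, a fixed null set is null for all spectral measures (Wegner) -/
theorem null_of_volume (hμ : GoodLaw μ M K) (hlam : 0 < lam) {B : Set ℝ} (hB : MeasurableSet B)
    (h0 : volume B = 0) :
    ∀ᵐ ω ∂(PP d μ), ∀ (x : Site d) (ν : Measure ℝ),
      PP.IsSpec (schr (potc M lam ω) (bdd_potc (zero_le_one.trans hμ.one_le) ω)) (dl x) ν →
      ν B = 0 := by
  have hM : 0 ≤ M := zero_le_one.trans hμ.one_le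
  rw [ae_all_iff]
  intro x
  have h1 : ∀ᵐ ω ∂(PP d μ), ∀ᵐ E : ℝ, (E, Function.update ω x 0) ∉ (Prod.fst ⁻¹' B :
      Set (ℝ × (Site d → ℝ))) := by
    refine ae_of_all _ fun ω => ?_
    rw [ae_iff]
    simpa using h0
  filter_upwards [spec_avg hμ hlam x 0 (measurable_fst hB) h1] with ω hω ν hν
  have h2 := hω ν hν.fin (fun z hz0 => (poisson_of_isSpec _ _ x hν hz0).le)
  simpa using h2

/-! ## uniqueness of the spectral measure -/

lemma isSpectral_unique (V : Site d → ℝ) (hV : Bdd V) (ψ : L2 d) {ν ν' : Measure ℝ}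
    (h : IsSpectral V ψ ν) (h' : PP.IsSpec (schr V hV) ψ ν') : ν = ν' := by
  have hf := h.1
  have hf' := h'.fin
  have hint : ∀ (ρ : Measure ℝ) [IsFiniteMeasure ρ] (z : ℂ), 0 < z.im →
      ∫ t : ℝ, z.im / ‖(t : ℂ) - z‖ ^ 2 ∂ρ = (∫ t : ℝ, ((t : ℂ) - z)⁻¹ ∂ρ).im := by
    intro ρ _ z hz0
    have hne : ∀ t : ℝ, (t : ℂ) - z ≠ 0 := fun t h0 => by
      have := congrArg Complex.im h0
      simp at this
      exact hz0.ne' this
    have hb : Integrable (fun t : ℝ => ((t : ℂ) - z)⁻¹) ρ := by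
      refine Integrable.mono' (integrable_const (z.im)⁻¹) ?_ (ae_of_all _ fun t => ?_)
      · exact (Continuous.inv₀ (by fun_prop) hne).aestronglyMeasurable
      · rw [norm_inv]
        refine inv_anti₀ hz0 ?_
        have := Complex.abs_im_le_norm ((t : ℂ) - z)
        simpa [abs_of_pos hz0] using this
    refine Eq.trans ?_ (integral_im hb)
    refine integral_congr_ae (ae_of_all _ fun t => ?_)
    simp only [RCLike.im_eq_complex_im, Complex.inv_im, Complex.sub_im, Complex.ofReal_im, zero_sub, neg_neg,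
      Complex.normSq_eq_norm_sq]
  have heq : ∀ z : ℂ, 0 < z.im →
      ∫ t : ℝ, z.im / ‖(t : ℂ) - z‖ ^ 2 ∂ν = ∫ t : ℝ, z.im / ‖(t : ℂ) - z‖ ^ 2 ∂ν' := by
    intro z hz0
    obtain ⟨χ, hχ, hχ2⟩ := h.2 z hz0
    obtain ⟨χ', hχ', hχ2'⟩ := (isSpectral_of_isSpec V hV ψ h').2 z hz0
    rw [hint ν z hz0, hint ν' z hz0, ← hχ2, ← hχ2', isRes_unique V hV hz0 ψ hχ,
      isRes_unique V hV hz0 ψ hχ']
  exact le_antisymm (le_of_transform fun z hz0 => (heq z hz0).le)
    (le_of_transform fun z hz0 => (heq z hz0).ge)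

end Pool.Agent.Helper3.Crit
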