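import Pool.Agent.Helper3.Crit.FinC
import Pool.Agent.Helper3.Crit.FatA
import Pool.Agent.Helper3.Crit.FatB

/-! Fatou's theorem for the Green function; the Lyapunov norm vanishes at almost every energy
outside the set of fractional moment localisation. -/

open scoped ENNReal NNReal
open MeasureTheory Set Filter Topology

noncomputable section

namespace Pool.Agent.Helper3.Crit

open Pool.Agent.Helper3.Anderson

/-- integrability of the Poisson kernel -/
lemma integrable_pk {y : ℝ} (hy : 0 < y) (x : ℝ) : Integrable fun t : ℝ => pk y (x - t) := by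
  have h1 : Integrable fun t : ℝ => (1 + (t / y) ^ 2)⁻¹ :=
    (integrable_inv_one_add_sq).comp_div hy.ne'
  have h2 : Integrable fun t : ℝ => pk y t := by
    refine (h1.const_mul (Real.pi⁻¹ * y⁻¹)).congr (ae_of_all _ fun t => ?_)
    simp only [pk]
    field_simp
    ring
  exact h2.comp_sub_left x

lemma pk_nonneg {y : ℝ} (hy : 0 < y) (t : ℝ) : 0 ≤ pk y t := by
  unfold pk
  have := Real.pi_pos
  positivity

/-- **Fatou's theorem** for Hardy functions -/
theorem HardyFn.fatou {h : ℂ → ℂ} (hh : HardyFn h) :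
    ∀ᵐ x : ℝ, ∃ l, Tendsto (fun y : ℝ => h (x + y * Complex.I)) (𝓝[>] 0) (𝓝 l) := by
  have hfam : HardyFam (fun (_ : ℕ) (_ : Unit) => h) :=
    { hardy := fun _ _ => hh
      meas := fun _ ε hε => by
        have : Continuous (Function.uncurry fun (E : ℝ) (_ : Unit) => h (E + ε * Complex.I)) :=
          (hh.continuous hε).comp continuous_fst
        exact this.measurable }
  obtain ⟨φ, hφ, hlim⟩ := hardy_seq hfam (Measure.dirac ()) (η := fun j : ℕ => 1 / ((j : ℝ) + 1))
    (fun j => by positivity) tendsto_one_div_add_atTop_nhds_zero_nat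
  set δ : ℕ → ℝ := fun k => 1 / ((φ k : ℝ) + 1) with hδdef
  have hδ : ∀ k, 0 < δ k := fun k => by positivity
  have hδ0 : Tendsto δ atTop (𝓝 0) :=
    tendsto_one_div_add_atTop_nhds_zero_nat.comp hφ.tendsto_atTop
  have hae : ∀ᵐ x : ℝ, ∃ l, Tendsto (fun k => h (x + δ k * Complex.I)) atTop (𝓝 l) := by
    have h1 := Measure.ae_ae_of_ae_prod (hlim 0)
    filter_upwards [h1] with x hx
    obtain ⟨_, hu⟩ := hx.exists
    simpa [hδdef] using hu
  obtain ⟨g, hgm, hg⟩ := measurable_limit_of_tendsto_metrizable_ae (μ := (volume : Measure ℝ))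
    (L := atTop) (f := fun (k : ℕ) (x : ℝ) => h (x + δ k * Complex.I))
    (fun k => (hh.continuous (hδ k)).measurable.aemeasurable) hae
  set f : ℝ → ℂ := fun x => if ‖g x‖ ≤ 1 then g x else 0 with hfdef
  have hfm : Measurable f := Measurable.ite (measurableSet_le hgm.norm measurable_const) hgm
    measurable_const
  have hf1 : ∀ t, ‖f t‖ ≤ 1 := by
    intro t
    simp only [hfdef]
    split_ifs with h1
    · exact h1
    · simp
  have hb : ∀ (x : ℝ) {y : ℝ}, 0 < y → ‖h (x + y * Complex.I)‖ ≤ 1 := by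
    intro x y hy
    have h1 := hh.bound' x hy
    have h2 : (1 + x ^ 2)⁻¹ ≤ 1 := inv_le_one_of_one_le₀ (by nlinarith [sq_nonneg x])
    nlinarith [norm_nonneg (h (x + y * Complex.I))]
  have hfg : ∀ᵐ x : ℝ, Tendsto (fun k => h (x + δ k * Complex.I)) atTop (𝓝 (f x)) := by
    filter_upwards [hg] with x hx
    have h1 : ‖g x‖ ≤ 1 := le_of_tendsto' hx.norm fun k => hb x (hδ k)
    simp only [hfdef, if_pos h1]
    exact hx
  -- the Poisson formula for the boundary function
  have hpois : ∀ (x : ℝ) {y : ℝ}, 0 < y →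
      h (x + y * Complex.I) = ∫ t : ℝ, ((pk y (x - t) : ℝ) : ℂ) * f t := by
    intro x y hy
    have h1 : Tendsto (fun k => h (x + ((y + δ k : ℝ) : ℂ) * Complex.I)) atTop
        (𝓝 (h (x + y * Complex.I))) := by
      have hc : ContinuousAt h (x + y * Complex.I) := (hh.diff _ (by simpa using hy)).continuousAt
      have ht : Tendsto (fun k => (x : ℂ) + ((y + δ k : ℝ) : ℂ) * Complex.I) atTop
          (𝓝 (x + y * Complex.I)) := by
        have h2 : Tendsto (fun k => ((y + δ k : ℝ) : ℂ)) atTop (𝓝 ((y + 0 : ℝ) : ℂ)) :=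
          (Complex.continuous_ofReal.tendsto _).comp (hδ0.const_add y)
        rw [add_zero] at h2
        exact (h2.mul_const Complex.I).const_add (x : ℂ)
      exact hc.tendsto.comp ht
    have h2 : Tendsto (fun k => ∫ t : ℝ, ((pk y (x - t) : ℝ) : ℂ) * h (t + (δ k : ℂ) * Complex.I))
        atTop (𝓝 (∫ t : ℝ, ((pk y (x - t) : ℝ) : ℂ) * f t)) := by
      refine tendsto_integral_of_dominated_convergence (fun t => pk y (x - t)) (fun k => ?_)
        (integrable_pk hy x) (fun k => ae_of_all _ fun t => ?_) ?_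
      · have hc1 : Continuous fun t : ℝ => ((pk y (x - t) : ℝ) : ℂ) := by
          refine Complex.continuous_ofReal.comp ?_
          unfold pk
          refine continuous_const.mul (continuous_const.div (by fun_prop) fun t => ?_)
          positivity
        exact (hc1.mul (hh.continuous (hδ k))).aestronglyMeasurable
      · rw [norm_mul, Complex.norm_real, Real.norm_eq_abs, abs_of_nonneg (pk_nonneg hy _)]
        exact mul_le_of_le_one_right (pk_nonneg hy _) (hb t (hδ k))
      · filter_upwards [hfg] with t ht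
        exact ht.const_mul _
    refine tendsto_nhds_unique h1 (h2.congr fun k => ?_)
    exact (hh.poisson (hδ k) x hy).symm
  filter_upwards [poisson_ae hfm hf1] with x hx
  refine ⟨f x, hx.congr' ?_⟩
  filter_upwards [self_mem_nhdsWithin] with y hy
  exact (hpois x hy).symm

/-! ## full limits of the Green function -/

variable {d : ℕ} {μ : Measure ℝ} [IsProbabilityMeasure μ] {M lam : ℝ} {K : ℝ≥0}

/-- the positive rational numbers approaching zero -/
def qfil : Filter {q : ℚ // 0 < q} := comap (fun q => ((q.1 : ℚ) : ℝ)) (𝓝 0)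

/-- limits along the positive rational numbers are full limits, for continuous functions -/
lemma tendsto_qfil {F : ℝ → ℂ} (hF : ContinuousOn F (Ioi 0)) {l : ℂ} :
    Tendsto F (𝓝[>] 0) (𝓝 l) ↔ Tendsto (fun q : {q : ℚ // 0 < q} => F ((q.1 : ℚ) : ℝ)) qfil (𝓝 l) := by
  constructor
  · intro h
    refine h.comp ?_
    rw [tendsto_nhdsWithin_iff]
    refine ⟨tendsto_comap, Eventually.of_forall fun q => ?_⟩
    have := q.2
    rw [mem_Ioi]
    exact_mod_cast this
  · intro h
    rw [Metric.tendsto_nhds] at h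
    rw [Metric.tendsto_nhds]
    intro e he
    have h1 := h (e / 2) (half_pos he)
    rw [qfil, eventually_comap, Metric.eventually_nhds_iff] at h1
    obtain ⟨r, hr, h1⟩ := h1
    rw [eventually_nhdsWithin_iff, Metric.eventually_nhds_iff]
    refine ⟨r, hr, fun y hy hy0 => ?_⟩
    have hy0' : (0 : ℝ) < y := hy0
    have hyr : y < r := by
      rw [Real.dist_eq, sub_zero, abs_of_pos hy0'] at hy
      exact hy
    have hle : dist (F y) l ≤ e / 2 := by
      have hc : ContinuousAt F y := hF.continuousAt (Ioi_mem_nhds hy0')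
      have hcl : y ∈ closure ((fun q : ℚ => (q : ℝ)) '' {q : ℚ | (0 : ℝ) < q ∧ (q : ℝ) < r}) := by
        rw [Metric.mem_closure_iff]
        intro s hs
        obtain ⟨q, hq1, hq2⟩ := exists_rat_btwn (show y < min r (y + s) by
          rw [lt_min_iff]; exact ⟨hyr, by linarith⟩)
        refine ⟨q, ⟨q, ⟨hy0'.trans hq1, hq2.trans_le (min_le_left _ _)⟩, rfl⟩, ?_⟩
        rw [Real.dist_eq, abs_sub_comm, abs_of_pos (by linarith)]
        have := hq2.trans_le (min_le_right r (y + s))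
        linarith
      rw [mem_closure_iff_clusterPt] at hcl
      have hne : (𝓝[((fun q : ℚ => (q : ℝ)) '' {q : ℚ | (0 : ℝ) < q ∧ (q : ℝ) < r})] y).NeBot := hcl
      have ht : Tendsto (fun t => dist (F t) l)
          (𝓝[((fun q : ℚ => (q : ℝ)) '' {q : ℚ | (0 : ℝ) < q ∧ (q : ℝ) < r})] y)
          (𝓝 (dist (F y) l)) := (hc.tendsto.mono_left nhdsWithin_le_nhds).dist tendsto_const_nhds
      refine le_of_tendsto ht ?_
      filter_upwards [self_mem_nhdsWithin] with t ht
      obtain ⟨q, ⟨hq1, hq2⟩, rfl⟩ := ht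
      have hq0 : 0 < q := by exact_mod_cast hq1
      have := h1 (y := (q : ℝ)) (by rw [Real.dist_eq, sub_zero, abs_of_pos hq1]; exact hq2)
        ⟨q, hq0⟩ rfl
      exact this.le
    linarith

lemma exists_hF_full (hM : 0 ≤ M) (i : Site d × Site d × Bool) :
    ∀ᵐ E : ℝ, ∀ᵐ ω ∂(PP d μ), ∃ l, Tendsto (fun η : ℝ => hF M lam i ω ((E : ℂ) + η * Complex.I))
      (𝓝[>] 0) (𝓝 l) := by
  have hcont : ∀ (ω : Site d → ℝ) (E : ℝ),
      ContinuousOn (fun η : ℝ => hF M lam i ω ((E : ℂ) + η * Complex.I)) (Ioi 0) := by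
    intro ω E
    intro η hη
    have h1 : ContinuousAt (hF M lam i ω) ((E : ℂ) + η * Complex.I) :=
      ((hardyFn_hF hM lam i ω).diff _ (by simpa using hη)).continuousAt
    have h2 : ContinuousAt (fun η : ℝ => (E : ℂ) + η * Complex.I) η := by fun_prop
    exact (ContinuousAt.comp (g := hF M lam i ω) (f := fun η : ℝ => (E : ℂ) + η * Complex.I)
      h1 h2).continuousWithinAt
  have hset : {p : ℝ × (Site d → ℝ) | ∃ l, Tendsto
      (fun η : ℝ => hF M lam i p.2 ((p.1 : ℂ) + η * Complex.I)) (𝓝[>] 0) (𝓝 l)}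
      = {p : ℝ × (Site d → ℝ) | ∃ l, Tendsto (fun q : {q : ℚ // 0 < q} =>
        hF M lam i p.2 ((p.1 : ℂ) + (((q.1 : ℚ) : ℝ) : ℂ) * Complex.I)) qfil (𝓝 l)} := by
    ext p
    simp only [mem_ofPred_eq]
    exact exists_congr fun l => tendsto_qfil (hcont p.2 p.1)
  have hms : MeasurableSet {p : ℝ × (Site d → ℝ) | ∃ l, Tendsto
      (fun η : ℝ => hF M lam i p.2 ((p.1 : ℂ) + η * Complex.I)) (𝓝[>] 0) (𝓝 l)} := by
    rw [hset]
    have : qfil.IsCountablyGenerated := by unfold qfil; infer_instance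
    obtain ⟨f, hf⟩ := exists_enum (d := d)
    obtain ⟨n, hn⟩ := hf i
    refine measurableSet_exists_tendsto fun q => ?_
    have hq : (0 : ℝ) < ((q.1 : ℚ) : ℝ) := by exact_mod_cast q.2
    have := (hardyFam_hF (lam := lam) hM f).meas n _ hq
    rw [hn] at this
    exact this
  have h1 : ∀ᵐ ω ∂(PP d μ), ∀ᵐ E : ℝ, ∃ l,
      Tendsto (fun η : ℝ => hF M lam i ω ((E : ℂ) + η * Complex.I)) (𝓝[>] 0) (𝓝 l) :=
    ae_of_all _ fun ω => (hardyFn_hF hM lam i ω).fatou
  exact (Measure.ae_ae_comm (μ := (volume : Measure ℝ)) (ν := PP d μ)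
    (p := fun E ω => ∃ l, Tendsto
      (fun η : ℝ => hF M lam i ω ((E : ℂ) + η * Complex.I)) (𝓝[>] 0) (𝓝 l)) hms).2 h1

/-- **Boundary values**, full limits: for almost every energy the Green function converges, almost
surely, for all pairs of sites -/
theorem exists_bv_full (hμ : GoodLaw μ M K) (hlam : 0 < lam) :
    ∀ᵐ E : ℝ, ∀ᵐ ω ∂(PP d μ), ∀ x y : Site d,
      ∃ l, Tendsto (fun η : ℝ => gc M lam ((E : ℂ) + η * Complex.I) ω x y) (𝓝[>] 0) (𝓝 l) := by
  have hM : 0 ≤ M := by linarith [hμ.one_le]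
  obtain ⟨f, hf⟩ := exists_enum (d := d)
  have h1 : ∀ᵐ E : ℝ, ∀ n, ∀ᵐ ω ∂(PP d μ), ∃ l, Tendsto
      (fun η : ℝ => hF M lam (f n) ω ((E : ℂ) + η * Complex.I)) (𝓝[>] 0) (𝓝 l) :=
    ae_all_iff.2 fun n => exists_hF_full hM (f n)
  set ε : ℕ → ℝ := fun k => 1 / ((k : ℝ) + 1) with hε
  have hε1 : ∀ k, 0 < ε k := fun k => by positivity
  have hε0 : Tendsto ε atTop (𝓝 0) := tendsto_one_div_add_atTop_nhds_zero_nat
  have hεw : Tendsto ε atTop (𝓝[>] 0) :=
    tendsto_nhdsWithin_iff.2 ⟨hε0, Eventually.of_forall hε1⟩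
  filter_upwards [h1] with E hE
  have h2 : ∀ n, ∀ᵐ ω ∂(PP d μ), ∃ l, Tendsto (fun η : ℝ => Fh M lam (f n).1 (f n).2.1 (f n).2.2 ω
      ((E : ℂ) + η * Complex.I)) (𝓝[>] 0) (𝓝 l) := by
    intro n
    have h3 := Fh_tendsto hμ hlam E hε1 hε0 (f n) (by
      filter_upwards [hE n] with ω ⟨l, hl⟩
      exact ⟨l, hl.comp hεw⟩)
    filter_upwards [hE n, h3] with ω ⟨l, hl⟩ ⟨l', hl'⟩
    have hgl : Tendsto (fun η : ℝ => (Fh M lam (f n).1 (f n).2.1 (f n).2.2 ω
        ((E : ℂ) + η * Complex.I) + Complex.I)⁻¹) (𝓝[>] 0) (𝓝 ((E + Complex.I) * l)) := by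
      have h4 : Tendsto (fun η : ℝ => ((E : ℂ) + η * Complex.I + Complex.I)) (𝓝[>] 0)
          (𝓝 ((E : ℂ) + Complex.I)) := by
        have h5 : Tendsto (fun η : ℝ => (η : ℂ)) (𝓝[>] 0) (𝓝 ((0 : ℝ) : ℂ)) :=
          (Complex.continuous_ofReal.tendsto 0).mono_left nhdsWithin_le_nhds
        have h6 := ((h5.mul_const Complex.I).const_add (E : ℂ)).add_const Complex.I
        simpa using h6
      refine (h4.mul hl).congr' ?_
      filter_upwards [self_mem_nhdsWithin] with η hη
      have hz : 0 < ((E : ℂ) + η * Complex.I).im := by simpa using hη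
      rw [hF, mul_comm, mul_assoc, inv_mul_cancel₀ (add_I_ne hz), mul_one]
    have hne : (E + Complex.I) * l ≠ 0 := by
      intro h0
      have h5 := (hgl.comp hεw).mul (hl'.add_const Complex.I)
      rw [h0, zero_mul] at h5
      have h6 : Tendsto (fun _ : ℕ => (1 : ℂ)) atTop (𝓝 0) := by
        refine h5.congr fun k => ?_
        simp only [Function.comp_apply]
        refine inv_mul_cancel₀ ?_
        have hz : 0 < ((E : ℂ) + ε k * Complex.I).im := by simpa using hε1 k
        have := Fh_add_I_ne hM lam (f n).1 (f n).2.1 (f n).2.2 ω hz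
        intro h7
        rw [h7, norm_zero] at this
        linarith
      exact one_ne_zero (tendsto_nhds_unique tendsto_const_nhds h6)
    refine ⟨((E + Complex.I) * l)⁻¹ - Complex.I, ?_⟩
    refine ((hgl.inv₀ hne).sub_const Complex.I).congr fun η => ?_
    rw [inv_inv]; ring
  rw [← ae_all_iff] at h2
  filter_upwards [h2] with ω hω x y
  obtain ⟨n1, hn1⟩ := hf (x, y, true)
  obtain ⟨n2, hn2⟩ := hf (x, y, false)
  obtain ⟨l1, hl1⟩ := hω n1
  obtain ⟨l2, hl2⟩ := hω n2
  rw [hn1] at hl1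
  rw [hn2] at hl2
  refine ⟨(l1 - l2) / 4, ?_⟩
  refine ((hl1.sub hl2).div_const 4).congr fun k => ?_
  simp only [Fh, sg]
  simp
  ring

/-- **The Lyapunov norm vanishes at almost every energy outside the set of fractional moment
localisation.** -/
theorem ae_vanish (hμ : GoodLaw μ M K) (hlam : 0 < lam) :
    ∀ᵐ E : ℝ, E ∉ FMS d μ M lam → ∀ x : Site d,
      Tendsto (fun η : ℝ => Ly hμ hlam ((E : ℂ) + η * Complex.I) x) (𝓝[>] 0) (𝓝 0) := by
  filter_upwards [exists_bv_full (d := d) hμ hlam] with E hbv hEF x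
  by_contra hcon
  rw [not_tendsto_iff_exists_frequently_notMem] at hcon
  obtain ⟨s, hs, hfr⟩ := hcon
  obtain ⟨c, hc, hct⟩ := Metric.mem_nhds_iff.1 hs
  have hfr2 : ∃ᶠ η : ℝ in 𝓝[>] 0, (0 < η ∧ η ≤ 1) ∧
      c ≤ Ly hμ hlam ((E : ℂ) + η * Complex.I) x := by
    refine (hfr.and_eventually (Ioc_mem_nhdsGT (show (0 : ℝ) < 1 by norm_num))).mono ?_
    rintro η ⟨h1, h2⟩
    refine ⟨⟨h2.1, h2.2⟩, ?_⟩
    by_contra hlt
    refine h1 (hct ?_)
    rw [Metric.mem_ball, Real.dist_eq, sub_zero, abs_of_nonneg (Ly_nonneg _ _ _ _)]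
    exact not_le.1 hlt
  obtain ⟨η, hη0, hη⟩ := exists_seq_forall_of_frequently hfr2
  have hηt : Tendsto η atTop (𝓝 0) := hη0.mono_right nhdsWithin_le_nhds
  have hx : x ≠ 0 := by
    rintro rfl
    have hk := (hη 0).2
    have him : 0 < ((E : ℂ) + (η 0 : ℝ) * Complex.I).im := by simpa using (hη 0).1.1
    rw [Ly_eq hμ hlam him] at hk
    have h0 := LL_nsmul hμ hlam him 0 (0 : Site d)
    rw [zero_smul] at h0
    rw [h0] at hk
    simp at hk
    linarith
  obtain ⟨i, hi⟩ : ∃ i, x i ≠ 0 := by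
    by_contra hcon
    push Not at hcon
    exact hx (funext hcon)
  have hl : 0 < (l1 x : ℝ) := by
    have : l1 x ≠ 0 := fun h => hx (l1_eq_zero h)
    exact_mod_cast Nat.pos_of_ne_zero this
  refine hEF (mem_FMS hμ hlam (ε := η) (fun k => (hη k).1.1)
    (fun k => (hη k).1.2) hηt ?_ (c := c / l1 x) (by positivity) ?_)
  · filter_upwards [hbv] with ω hω a b
    obtain ⟨l, hl⟩ := hω a b
    exact ⟨l, hl.comp hη0⟩
  refine Eventually.frequently (Eventually.of_forall fun k v => ?_)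
  have him : 0 < ((E : ℂ) + (η k : ℝ) * Complex.I).im := by simpa using (hη k).1.1
  have hk := (hη k).2
  rw [Ly_eq hμ hlam him] at hk
  show c / l1 x * sn v ≤ Ly hμ hlam ((E : ℂ) + (η k : ℝ) * Complex.I) v
  rw [Ly_eq hμ hlam him]
  have h1 := LL_shape_upper hμ hlam him x i
  have h2 := LL_shape_lower hμ hlam him v i
  refine le_trans ?_ h2
  rw [mul_comm]
  refine mul_le_mul_of_nonneg_left ?_ (Nat.cast_nonneg _)
  rw [div_le_iff₀ hl, mul_comm]
  exact hk.trans h1

end Pool.Agent.Helper3.Crit
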