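import Pool.Agent.Helper3.Crit.Hardy

/-! Convergence of countable families of random Hardy functions to the real axis along a
deterministic sequence. -/

open MeasureTheory Set Filter Topology Complex
open scoped ENNReal

noncomputable section

namespace Pool.Agent.Helper3.Crit

/-- bounded midpoint convex functions on `(0, ∞)` are antitone -/
lemma antitone_of_midconvex {Ψ : ℝ → ℝ} {C : ℝ} (hC : ∀ s, 0 < s → Ψ s ≤ C)
    (hc : ∀ a b, 0 < a → 0 < b → 2 * Ψ ((a + b) / 2) ≤ Ψ a + Ψ b) {a b : ℝ} (ha : 0 < a)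
    (hab : a ≤ b) : Ψ b ≤ Ψ a := by
  by_contra hlt
  rw [not_le] at hlt
  set δ := b - a with hδ
  have hδ0 : 0 ≤ δ := by linarith
  set c : ℕ → ℝ := fun j => Ψ (a + j * δ) with hcdef
  have hpos : ∀ j : ℕ, 0 < a + j * δ := fun j => by positivity
  have hstep : ∀ j, c (j + 1) - c j ≤ c (j + 2) - c (j + 1) := by
    intro j
    have h := hc (a + j * δ) (a + (j + 2 : ℕ) * δ) (hpos j) (hpos (j + 2))
    have e : (a + j * δ + (a + (j + 2 : ℕ) * δ)) / 2 = a + (j + 1 : ℕ) * δ := by push_cast; ring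
    rw [e] at h
    simp only [hcdef]
    linarith
  set ι := c 1 - c 0 with hι
  have hι0 : 0 < ι := by
    have h0 : c 0 = Ψ a := by simp [hcdef]
    have h1 : c 1 = Ψ b := by simp [hcdef, hδ]
    rw [hι, h0, h1]; linarith
  have hinc : ∀ j, ι ≤ c (j + 1) - c j := by
    intro j
    induction j with
    | zero => exact le_of_eq (by rw [hι])
    | succ j ih => exact ih.trans (hstep j)
  have hlow : ∀ j : ℕ, c 0 + j * ι ≤ c j := by
    intro j
    induction j with
    | zero => simp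
    | succ j ih =>
      have := hinc j
      push_cast
      linarith
  obtain ⟨j, hj⟩ := exists_nat_gt ((C - c 0) / ι)
  rw [div_lt_iff₀ hι0] at hj
  have h1 := hlow j
  have h2 : c j ≤ C := hC _ (hpos j)
  linarith

variable {Ω : Type*} [MeasurableSpace Ω]

/-- random family of Hardy functions -/
structure HardyFam (h : ℕ → Ω → ℂ → ℂ) : Prop where
  hardy : ∀ n ω, HardyFn (h n ω)
  meas : ∀ n (ε : ℝ), 0 < ε → Measurable (Function.uncurry fun (E : ℝ) (ω : Ω) => h n ω (E + ε * I))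

section
variable {h : ℕ → Ω → ℂ → ℂ} (hh : HardyFam h) (P : Measure Ω) [IsProbabilityMeasure P]
include hh

lemma HardyFam.meas_phi (n : ℕ) {s : ℝ} (hs : 0 < s) : StronglyMeasurable fun ω => hphi (h n ω) s := by
  have h1 : StronglyMeasurable (Function.uncurry fun (E : ℝ) (ω : Ω) =>
      ‖h n ω (E + (s / 2 : ℝ) * I)‖ ^ 2) :=
    ((hh.meas n (s / 2) (half_pos hs)).norm.pow_const 2).stronglyMeasurable
  exact h1.integral_prod_left (μ := volume)

lemma HardyFam.int_phi (n : ℕ) {s : ℝ} (hs : 0 < s) : Integrable (fun ω => hphi (h n ω) s) P := by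
  refine Integrable.mono' (integrable_const Real.pi) (hh.meas_phi n hs).aestronglyMeasurable ?_
  refine Filter.Eventually.of_forall fun ω => ?_
  rw [Real.norm_of_nonneg (HardyFn.hphi_nonneg _ _)]
  exact (hh.hardy n ω).hphi_le hs

omit [IsProbabilityMeasure P] in
/-- averaged squared norm -/
lemma HardyFam.dist_nonneg (n : ℕ) (ω : Ω) {y y' : ℝ} (hy : 0 < y) (hy' : 0 < y') :
    0 ≤ hphi (h n ω) (2 * y) + hphi (h n ω) (2 * y') - 2 * hphi (h n ω) (y + y') := by
  rw [← (hh.hardy n ω).dist hy hy']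
  exact integral_nonneg fun _ => sq_nonneg _

omit hh in
/-- averaged squared norm on horizontal lines -/
def Psi (h : ℕ → Ω → ℂ → ℂ) (P : Measure Ω) (n : ℕ) (s : ℝ) : ℝ := ∫ ω, hphi (h n ω) s ∂P

omit hh [IsProbabilityMeasure P] in
lemma Psi_nonneg (n : ℕ) (s : ℝ) : 0 ≤ Psi h P n s :=
  integral_nonneg fun _ => HardyFn.hphi_nonneg _ _

lemma Psi_le (n : ℕ) {s : ℝ} (hs : 0 < s) : Psi h P n s ≤ Real.pi := by
  calc Psi h P n s ≤ ∫ _, Real.pi ∂P :=
        integral_mono (hh.int_phi P n hs) (integrable_const _) fun ω => (hh.hardy n ω).hphi_le hs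
    _ = Real.pi := by simp

lemma Psi_mid (n : ℕ) (a b : ℝ) (ha : 0 < a) (hb : 0 < b) :
    2 * Psi h P n ((a + b) / 2) ≤ Psi h P n a + Psi h P n b := by
  rw [Psi, Psi, Psi, ← integral_const_mul, ← integral_add (hh.int_phi P n ha) (hh.int_phi P n hb)]
  refine integral_mono ((hh.int_phi P n (by linarith)).const_mul 2)
    ((hh.int_phi P n ha).add (hh.int_phi P n hb)) fun ω => ?_
  have := hh.dist_nonneg n ω (half_pos ha) (half_pos hb)
  have e1 : 2 * (a / 2) = a := by ring
  have e2 : 2 * (b / 2) = b := by ring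
  have e3 : a / 2 + b / 2 = (a + b) / 2 := by ring
  rw [e1, e2, e3] at this
  simp only [Pi.add_apply]
  linarith

lemma Psi_anti (n : ℕ) {a b : ℝ} (ha : 0 < a) (hab : a ≤ b) : Psi h P n b ≤ Psi h P n a :=
  antitone_of_midconvex (fun s hs => Psi_le hh P n hs) (fun a b => Psi_mid hh P n a b) ha hab

omit hh in
/-- weighted sum -/
def PsiT (h : ℕ → Ω → ℂ → ℂ) (P : Measure Ω) (s : ℝ) : ℝ := ∑' n, (1 / 2 : ℝ) ^ n * Psi h P n s

lemma summable_PsiT {s : ℝ} (hs : 0 < s) : Summable fun n => (1 / 2 : ℝ) ^ n * Psi h P n s := by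
  refine Summable.of_nonneg_of_le (fun n => mul_nonneg (by positivity) (Psi_nonneg P n s))
    (fun n => mul_le_mul_of_nonneg_left (Psi_le hh P n hs) (by positivity)) ?_
  exact summable_geometric_two.mul_right _

lemma PsiT_anti {a b : ℝ} (ha : 0 < a) (hab : a ≤ b) : PsiT h P b ≤ PsiT h P a :=
  Summable.tsum_le_tsum (fun n => mul_le_mul_of_nonneg_left (Psi_anti hh P n ha hab) (by positivity))
    (summable_PsiT hh P (ha.trans_le hab)) (summable_PsiT hh P ha)

lemma PsiT_le {s : ℝ} (hs : 0 < s) : PsiT h P s ≤ 2 * Real.pi := by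
  have h1 : PsiT h P s ≤ ∑' n : ℕ, (1 / 2 : ℝ) ^ n * Real.pi :=
    Summable.tsum_le_tsum (fun n => mul_le_mul_of_nonneg_left (Psi_le hh P n hs) (by positivity))
      (summable_PsiT hh P hs) (summable_geometric_two.mul_right _)
  rwa [tsum_mul_right, tsum_geometric_two] at h1

/-- individual distances are controlled by the weighted sum -/
lemma dist_le_PsiT (n : ℕ) {y y' : ℝ} (hy : 0 < y) (hy' : 0 < y') :
    Psi h P n (2 * y) + Psi h P n (2 * y') - 2 * Psi h P n (y + y')
      ≤ 2 ^ n * (PsiT h P (2 * y) + PsiT h P (2 * y') - 2 * PsiT h P (y + y')) := by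
  have hD : ∀ m, 0 ≤ Psi h P m (2 * y) + Psi h P m (2 * y') - 2 * Psi h P m (y + y') := by
    intro m
    have := Psi_mid hh P m (2 * y) (2 * y') (by linarith) (by linarith)
    have e : (2 * y + 2 * y') / 2 = y + y' := by ring
    rw [e] at this
    linarith
  have s1 := summable_PsiT hh P (s := 2 * y) (by linarith)
  have s2 := summable_PsiT hh P (s := 2 * y') (by linarith)
  have s3 := summable_PsiT hh P (s := y + y') (by linarith)
  have e : PsiT h P (2 * y) + PsiT h P (2 * y') - 2 * PsiT h P (y + y')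
      = ∑' m, (1 / 2 : ℝ) ^ m
        * (Psi h P m (2 * y) + Psi h P m (2 * y') - 2 * Psi h P m (y + y')) := by
    rw [PsiT, PsiT, PsiT, ← s1.tsum_add s2, ← tsum_mul_left, ← (s1.add s2).tsum_sub (s3.mul_left 2)]
    congr 1; funext m; ring
  have s4 : Summable fun m => (1 / 2 : ℝ) ^ m
        * (Psi h P m (2 * y) + Psi h P m (2 * y') - 2 * Psi h P m (y + y')) := by
    refine ((s1.add s2).sub (s3.mul_left 2)).congr fun m => ?_
    ring
  have h1 : (1 / 2 : ℝ) ^ n * (Psi h P n (2 * y) + Psi h P n (2 * y') - 2 * Psi h P n (y + y'))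
      ≤ PsiT h P (2 * y) + PsiT h P (2 * y') - 2 * PsiT h P (y + y') := by
    rw [e]
    exact s4.le_tsum n fun m _ => mul_nonneg (by positivity) (hD m)
  have h2 : (2 : ℝ) ^ n * ((1 / 2 : ℝ) ^ n
      * (Psi h P n (2 * y) + Psi h P n (2 * y') - 2 * Psi h P n (y + y')))
      = Psi h P n (2 * y) + Psi h P n (2 * y') - 2 * Psi h P n (y + y') := by
    rw [← mul_assoc, ← mul_pow]; norm_num
  rw [← h2]
  exact mul_le_mul_of_nonneg_left h1 (by positivity)

/-- the squared distance as a double integral -/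
lemma lintegral_dist (n : ℕ) {y y' : ℝ} (hy : 0 < y) (hy' : 0 < y') :
    ∫⁻ p : ℝ × Ω, ENNReal.ofReal (‖h n p.2 (p.1 + y * I) - h n p.2 (p.1 + y' * I)‖ ^ 2)
        ∂(volume.prod P)
      = ENNReal.ofReal (Psi h P n (2 * y) + Psi h P n (2 * y') - 2 * Psi h P n (y + y')) := by
  have hm : Measurable fun p : ℝ × Ω =>
      ENNReal.ofReal (‖h n p.2 (p.1 + y * I) - h n p.2 (p.1 + y' * I)‖ ^ 2) :=
    (((hh.meas n y hy).sub (hh.meas n y' hy')).norm.pow_const 2).ennreal_ofReal
  rw [lintegral_prod_symm' _ hm]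
  have h1 : ∀ ω, ∫⁻ x : ℝ, ENNReal.ofReal (‖h n ω (x + y * I) - h n ω (x + y' * I)‖ ^ 2)
      = ENNReal.ofReal (hphi (h n ω) (2 * y) + hphi (h n ω) (2 * y')
        - 2 * hphi (h n ω) (y + y')) := by
    intro ω
    rw [← (hh.hardy n ω).dist hy hy', ofReal_integral_eq_lintegral_ofReal]
    · refine Integrable.mono' (((hh.hardy n ω).integrable_sq hy).add
        ((hh.hardy n ω).integrable_sq hy') |>.const_mul 2) ?_ ?_
      · exact ((((hh.hardy n ω).continuous hy).sub ((hh.hardy n ω).continuous hy')).norm.pow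
          2).aestronglyMeasurable
      · refine Filter.Eventually.of_forall fun x => ?_
        rw [Real.norm_of_nonneg (sq_nonneg _)]
        simp only [Pi.add_apply]
        have := norm_sub_le (h n ω (x + y * I)) (h n ω (x + y' * I))
        have h0 := norm_nonneg (h n ω (x + y * I) - h n ω (x + y' * I))
        nlinarith [sq_nonneg (‖h n ω (x + y * I)‖ - ‖h n ω (x + y' * I)‖)]
    · exact Filter.Eventually.of_forall fun x => sq_nonneg _
  simp only [h1]
  rw [← ofReal_integral_eq_lintegral_ofReal]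
  · congr 1
    rw [Psi, Psi, Psi, integral_sub, integral_add, integral_const_mul]
    · exact hh.int_phi P n (by linarith)
    · exact hh.int_phi P n (by linarith)
    · exact (hh.int_phi P n (by linarith)).add (hh.int_phi P n (by linarith))
    · exact (hh.int_phi P n (by linarith)).const_mul 2
  · exact ((hh.int_phi P n (by linarith)).add (hh.int_phi P n (by linarith))).sub
      ((hh.int_phi P n (by linarith)).const_mul 2)
  · exact Filter.Eventually.of_forall fun ω => hh.dist_nonneg n ω hy hy'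

/-- **Convergence to the real axis along a subsequence.** -/
theorem hardy_seq {η : ℕ → ℝ} (hη : ∀ j, 0 < η j) (hη0 : Tendsto η atTop (𝓝 0)) :
    ∃ φ : ℕ → ℕ, StrictMono φ ∧ ∀ n, ∀ᵐ p : ℝ × Ω ∂(volume.prod P),
      ∃ l, Tendsto (fun k => h n p.2 (p.1 + η (φ k) * I)) atTop (𝓝 l) := by
  -- the supremum of `PsiT`
  set L := sSup (PsiT h P '' Ioi 0) with hL
  have hne : (PsiT h P '' Ioi 0).Nonempty := ⟨_, 1, by simp, rfl⟩
  have hbdd : BddAbove (PsiT h P '' Ioi 0) := ⟨2 * Real.pi, by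
    rintro _ ⟨s, hs, rfl⟩; exact PsiT_le hh P hs⟩
  have hLs : ∀ s, 0 < s → PsiT h P s ≤ L := fun s hs => le_csSup hbdd ⟨s, hs, rfl⟩
  have hex : ∀ k : ℕ, ∃ s, 0 < s ∧ ∀ t, 0 < t → t ≤ s → L - (1 / 4) ^ k ≤ PsiT h P t := by
    intro k
    have : L - (1 / 4 : ℝ) ^ k < L := by
      have : (0 : ℝ) < (1 / 4) ^ k := by positivity
      linarith
    obtain ⟨_, ⟨s, hs, rfl⟩, hlt⟩ := exists_lt_of_lt_csSup hne this
    exact ⟨s, hs, fun t ht hts => hlt.le.trans (PsiT_anti hh P ht hts)⟩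
  choose s hs0 hs using hex
  have hev : ∀ k : ℕ, ∀ᶠ j in atTop, ∀ i ≤ k, η j ≤ s i / 2 := by
    intro k
    have : ∀ i ∈ Finset.range (k + 1), ∀ᶠ j in atTop, η j ≤ s i / 2 := by
      intro i _
      have h1 := hη0.eventually (gt_mem_nhds (half_pos (hs0 i)))
      exact h1.mono fun j hj => le_of_lt hj
    have h2 := (Filter.eventually_all_finset _).2 this
    exact h2.mono fun j hj i hi => hj i (Finset.mem_range.2 (by omega))
  obtain ⟨φ, hφ, hφs⟩ := extraction_forall_of_eventually hev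
  refine ⟨φ, hφ, fun n => ?_⟩
  set y : ℕ → ℝ := fun k => η (φ k) with hy
  have hy0 : ∀ k, 0 < y k := fun k => hη _
  have hD : ∀ k, Psi h P n (2 * y k) + Psi h P n (2 * y (k + 1)) - 2 * Psi h P n (y k + y (k + 1))
      ≤ 2 ^ n * (2 * (1 / 4) ^ k) := by
    intro k
    refine (dist_le_PsiT hh P n (hy0 k) (hy0 (k + 1))).trans ?_
    refine mul_le_mul_of_nonneg_left ?_ (by positivity)
    have h1 := hLs (2 * y k) (by have := hy0 k; linarith)
    have h2 := hLs (2 * y (k + 1)) (by have := hy0 (k + 1); linarith)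
    have h3 := hs k (y k + y (k + 1)) (by have := hy0 k; have := hy0 (k + 1); linarith)
      (by have a := hφs k k le_rfl; have b := hφs (k + 1) k (by omega); simp only [hy]; linarith)
    linarith
  set Δ : ℕ → ℝ × Ω → ℝ := fun k p => ‖h n p.2 (p.1 + y k * I) - h n p.2 (p.1 + y (k + 1) * I)‖ ^ 2
    with hΔ
  have hmeas : ∀ k, Measurable (Δ k) := fun k =>
    ((hh.meas n _ (hy0 k)).sub (hh.meas n _ (hy0 (k + 1)))).norm.pow_const 2
  have hsum : ∫⁻ p, ∑' k, ENNReal.ofReal (2 ^ k * Δ k p) ∂(volume.prod P) ≠ ⊤ := by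
    rw [lintegral_tsum fun k => ((hmeas k).const_mul _).ennreal_ofReal.aemeasurable]
    have hle : ∀ k, ∫⁻ p, ENNReal.ofReal (2 ^ k * Δ k p) ∂(volume.prod P)
        ≤ ENNReal.ofReal (2 ^ n * 2 * (1 / 2) ^ k) := by
      intro k
      have e1 : ∀ p, ENNReal.ofReal (2 ^ k * Δ k p) = ENNReal.ofReal (2 ^ k) * ENNReal.ofReal (Δ k p) :=
        fun p => ENNReal.ofReal_mul (by positivity)
      simp only [e1]
      rw [lintegral_const_mul _ (hmeas k).ennreal_ofReal, lintegral_dist hh P n (hy0 k) (hy0 (k + 1)),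
        ← ENNReal.ofReal_mul (by positivity)]
      refine ENNReal.ofReal_le_ofReal ?_
      calc (2 : ℝ) ^ k * (Psi h P n (2 * y k) + Psi h P n (2 * y (k + 1))
              - 2 * Psi h P n (y k + y (k + 1)))
          ≤ 2 ^ k * (2 ^ n * (2 * (1 / 4) ^ k)) := mul_le_mul_of_nonneg_left (hD k) (by positivity)
        _ = 2 ^ n * 2 * (2 ^ k * (1 / 4) ^ k) := by ring
        _ = 2 ^ n * 2 * (1 / 2) ^ k := by rw [← mul_pow]; norm_num
    refine ne_top_of_le_ne_top ?_ (ENNReal.tsum_le_tsum hle)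
    rw [← ENNReal.ofReal_tsum_of_nonneg (fun k => by positivity)
      ((summable_geometric_two).mul_left _)]
    exact ENNReal.ofReal_ne_top
  have hae := ae_lt_top (Measurable.ennreal_tsum fun k => ((hmeas k).const_mul _).ennreal_ofReal) hsum
  filter_upwards [hae] with p hp
  apply cauchySeq_tendsto_of_complete
  set S := (∑' k, ENNReal.ofReal (2 ^ k * Δ k p)).toReal with hS
  have hterm : ∀ k, 2 ^ k * Δ k p ≤ S := by
    intro k
    have h1 := ENNReal.le_tsum (f := fun k => ENNReal.ofReal (2 ^ k * Δ k p)) k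
    have h2 := ENNReal.toReal_mono hp.ne h1
    rwa [ENNReal.toReal_ofReal (by simp only [hΔ]; positivity)] at h2
  have hS0 : 0 ≤ S := ENNReal.toReal_nonneg
  refine cauchySeq_of_le_geometric (Real.sqrt (1 / 2)) (Real.sqrt S) ?_ fun k => ?_
  · rw [Real.sqrt_lt' (by norm_num)]; norm_num
  · rw [dist_eq_norm]
    have h1 : ‖h n p.2 (p.1 + y k * I) - h n p.2 (p.1 + y (k + 1) * I)‖ ^ 2 ≤ S * (1 / 2) ^ k := by
      have h2 := hterm k
      simp only [hΔ] at h2
      have h3 : (0 : ℝ) < 2 ^ k := by positivity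
      rw [one_div, inv_pow, ← div_eq_mul_inv, le_div_iff₀ h3]
      linarith
    calc ‖h n p.2 (p.1 + y k * I) - h n p.2 (p.1 + y (k + 1) * I)‖
        ≤ Real.sqrt (S * (1 / 2) ^ k) := Real.le_sqrt_of_sq_le h1
      _ = Real.sqrt S * Real.sqrt (1 / 2) ^ k := by
          rw [Real.sqrt_mul hS0]
          congr 1
          rw [Real.sqrt_eq_iff_mul_self_eq (by positivity) (by positivity), ← mul_pow,
            Real.mul_self_sqrt (by norm_num)]

end

end Pool.Agent.Helper3.Crit
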