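import Pool.Agent.Helper3.Crit.SkelDefs
import Pool.Agent.Helper3.Crit.Wegner

/-! Deterministic part of the initial scale estimate: the discrete Green identity. -/

open scoped ENNReal NNReal InnerProductSpace
open MeasureTheory Set Filter Topology

noncomputable section

namespace Pool.Agent.Helper3.Crit

open Pool.Agent.Helper3.Anderson

variable {d : ℕ}

/-- antisymmetric sums over the inner bonds vanish -/
lemma sum_antisymm (Λ : Finset (Site d)) (F : Site d → Site d → ℂ) (hF : ∀ x w, F w x = -F x w) :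
    ∑ x ∈ Λ, ∑ w ∈ (nbs x).filter (fun w => w ∈ Λ), F x w = 0 := by
  have h1 : ∑ x ∈ Λ, ∑ w ∈ (nbs x).filter (fun w => w ∈ Λ), F x w
      = ∑ w ∈ Λ, ∑ x ∈ (nbs w).filter (fun x => x ∈ Λ), F x w := by
    refine Finset.sum_comm' fun x w => ?_
    simp only [Finset.mem_filter]
    constructor
    · rintro ⟨h1, h2, h3⟩
      exact ⟨⟨mem_nbs_comm.1 h2, h1⟩, h3⟩
    · rintro ⟨⟨h1, h2⟩, h3⟩
      exact ⟨h2, mem_nbs_comm.1 h1, h3⟩
  have h2 : ∑ w ∈ Λ, ∑ x ∈ (nbs w).filter (fun x => x ∈ Λ), F x w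
      = -∑ x ∈ Λ, ∑ w ∈ (nbs x).filter (fun w => w ∈ Λ), F x w := by
    rw [← Finset.sum_neg_distrib]
    refine Finset.sum_congr rfl fun w _ => ?_
    rw [← Finset.sum_neg_distrib]
    exact Finset.sum_congr rfl fun x _ => hF w x
  have h3 := h1.trans h2
  have h4 : (2 : ℂ) * ∑ x ∈ Λ, ∑ w ∈ (nbs x).filter (fun w => w ∈ Λ), F x w = 0 := by
    linear_combination h3
  simpa using h4

/-- discrete Green identity -/
lemma green_identity {V : Site d → ℝ} {z : ℂ} (Λ : Finset (Site d)) (ψ g : Site d → ℂ) {y : Site d}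
    (hy : y ∈ Λ) (hg : ∀ x, hop V z g x = if x = y then 1 else 0) :
    ψ y = ∑ x ∈ Λ, g x * hop V z ψ x
      + ∑ x ∈ Λ, ∑ w ∈ (nbs x).filter (fun w => w ∉ Λ), (g x * ψ w - ψ x * g w) := by
  have h1 : ∀ x, g x * hop V z ψ x - ψ x * hop V z g x
      = ∑ w ∈ (nbs x).filter (fun w => w ∈ Λ), (ψ x * g w - g x * ψ w)
        - ∑ w ∈ (nbs x).filter (fun w => w ∉ Λ), (g x * ψ w - ψ x * g w) := by
    intro x
    have e1 : ∑ w ∈ nbs x, (ψ x * g w - g x * ψ w)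
        = ∑ w ∈ (nbs x).filter (fun w => w ∈ Λ), (ψ x * g w - g x * ψ w)
        + ∑ w ∈ (nbs x).filter (fun w => w ∉ Λ), (ψ x * g w - g x * ψ w) :=
      (Finset.sum_filter_add_sum_filter_not _ _ _).symm
    have e2 : ∑ w ∈ (nbs x).filter (fun w => w ∉ Λ), (ψ x * g w - g x * ψ w)
        = -∑ w ∈ (nbs x).filter (fun w => w ∉ Λ), (g x * ψ w - ψ x * g w) := by
      rw [← Finset.sum_neg_distrib]
      exact Finset.sum_congr rfl fun w _ => by ring
    have e3 : g x * hop V z ψ x - ψ x * hop V z g x = ∑ w ∈ nbs x, (ψ x * g w - g x * ψ w) := by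
      rw [Finset.sum_sub_distrib, ← Finset.mul_sum, ← Finset.mul_sum, ← nsum_eq_sum_nbs,
        ← nsum_eq_sum_nbs]
      simp only [hop]
      ring
    rw [e3, e1, e2]
    ring
  have h2 : ∑ x ∈ Λ, (g x * hop V z ψ x - ψ x * hop V z g x)
      = 0 - ∑ x ∈ Λ, ∑ w ∈ (nbs x).filter (fun w => w ∉ Λ), (g x * ψ w - ψ x * g w) := by
    rw [Finset.sum_congr rfl fun x _ => h1 x, Finset.sum_sub_distrib,
      sum_antisymm Λ (fun x w => ψ x * g w - g x * ψ w) fun x w => by ring]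
  have h3 : ∑ x ∈ Λ, ψ x * hop V z g x = ψ y := by
    simp [hg, hy]
  rw [Finset.sum_sub_distrib, h3] at h2
  linear_combination -h2

theorem gb_of_green {V : Site d → ℝ} {z : ℂ} {l L : ℕ} {η S κ : ℝ} (hl : l ≤ L) (hη : 0 ≤ η)
    (hS : 0 ≤ S) (hκ : 0 ≤ κ) {g : Site d → Site d → ℂ}
    (hg : ∀ x y, hop V z (fun w => g w y) x = if x = y then 1 else 0)
    (hη' : ∀ y u, sn y ≤ l → L ≤ sn u → sn u ≤ L + 1 → ‖g u y‖ ≤ η)
    (hS' : ∀ y, sn y ≤ l → ∑ x ∈ box 0 L, ‖g x y‖ ≤ S)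
    (hW : GB V z 0 L L κ κ) :
    GB V z 0 l L (2 * d * ((2 * L + 1 : ℕ) : ℝ) ^ d * η * (1 + κ))
      (S + 2 * d * ((2 * L + 1 : ℕ) : ℝ) ^ d * η * κ) := by
  intro ψ b e hb he h1 h2 y hy
  rw [sub_zero] at hy
  have hW' := hW ψ b e hb he h1 h2
  have hyΛ : y ∈ box (0 : Site d) L := mem_box.2 (by rw [sub_zero]; omega)
  have hid := green_identity (V := V) (z := z) (box 0 L) ψ (fun w => g w y) hyΛ fun x => hg x y
  have b1 : ‖∑ x ∈ box (0 : Site d) L, g x y * hop V z ψ x‖ ≤ S * e := by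
    refine (norm_sum_le _ _).trans ?_
    calc ∑ x ∈ box (0 : Site d) L, ‖g x y * hop V z ψ x‖
        ≤ ∑ x ∈ box (0 : Site d) L, ‖g x y‖ * e := Finset.sum_le_sum fun x hx => by
          rw [norm_mul]
          exact mul_le_mul_of_nonneg_left (h2 x (mem_box.1 hx)) (norm_nonneg _)
      _ = (∑ x ∈ box (0 : Site d) L, ‖g x y‖) * e := by rw [Finset.sum_mul]
      _ ≤ S * e := mul_le_mul_of_nonneg_right (hS' y hy) he
  have hc0 : 0 ≤ η * ((1 + κ) * b + κ * e) := by positivity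
  have b2 : ∀ x ∈ box (0 : Site d) L, ‖∑ w ∈ (nbs x).filter (fun w => w ∉ box (0 : Site d) L),
      (g x y * ψ w - ψ x * g w y)‖ ≤ 2 * d * (η * ((1 + κ) * b + κ * e)) := by
    intro x hx
    have hx1 : sn (x - 0) ≤ L := mem_box.1 hx
    refine (norm_sum_le _ _).trans ?_
    have hterm : ∀ w ∈ (nbs x).filter (fun w => w ∉ box (0 : Site d) L),
        ‖g x y * ψ w - ψ x * g w y‖ ≤ η * ((1 + κ) * b + κ * e) := by
      intro w hw
      obtain ⟨hw1, hw2⟩ := Finset.mem_filter.1 hw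
      have hw3 : sn (w - 0) = L + 1 := sn_outer hx1 hw1 fun h => hw2 (mem_box.2 h)
      have hx2 : L ≤ sn x := by
        have h5 := sn_nbs_le hw1
        have h6 : sn w ≤ sn (w - x) + sn x := by
          have := sn_add_le (w - x) x
          rwa [sub_add_cancel] at this
        rw [sub_zero] at hw3
        omega
      rw [sub_zero] at hx1
      have g1 : ‖g x y‖ ≤ η := hη' y x hy hx2 (by omega)
      have g2 : ‖g w y‖ ≤ η := by
        rw [sub_zero] at hw3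
        exact hη' y w hy (by omega) (by omega)
      have p1 : ‖ψ w‖ ≤ b := h1 w hw3
      have p2 : ‖ψ x‖ ≤ κ * b + κ * e := hW' x (by rwa [sub_zero])
      calc ‖g x y * ψ w - ψ x * g w y‖ ≤ ‖g x y‖ * ‖ψ w‖ + ‖ψ x‖ * ‖g w y‖ := by
            refine (norm_sub_le _ _).trans ?_
            rw [norm_mul, norm_mul]
        _ ≤ η * b + (κ * b + κ * e) * η :=
            add_le_add (mul_le_mul g1 p1 (norm_nonneg _) hη)
              (mul_le_mul p2 g2 (norm_nonneg _) (by positivity))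
        _ = η * ((1 + κ) * b + κ * e) := by ring
    refine (Finset.sum_le_card_nsmul _ _ _ hterm).trans ?_
    rw [nsmul_eq_mul]
    refine mul_le_mul_of_nonneg_right ?_ hc0
    have h7 := (Finset.card_filter_le (nbs x) (fun w => w ∉ box (0 : Site d) L)).trans
      (card_nbs_le x)
    exact_mod_cast h7
  have b3 : ‖∑ x ∈ box (0 : Site d) L, ∑ w ∈ (nbs x).filter (fun w => w ∉ box (0 : Site d) L),
      (g x y * ψ w - ψ x * g w y)‖
      ≤ ((2 * L + 1 : ℕ) : ℝ) ^ d * (2 * d * (η * ((1 + κ) * b + κ * e))) := by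
    refine (norm_sum_le _ _).trans ((Finset.sum_le_card_nsmul _ _ _ b2).trans ?_)
    rw [nsmul_eq_mul, card_box]
    push_cast
    exact le_rfl
  rw [hid]
  refine (norm_add_le _ _).trans ((add_le_add b1 b3).trans (le_of_eq ?_))
  ring

theorem good_of_near {V : Site d → ℝ} {z z' : ℂ} {l L : ℕ} {ρ κ1 κ2 : ℝ} (hl : l ≤ L)
    (hκ1 : 0 ≤ κ1) (hκ2 : 0 ≤ κ2) (h1 : GB V z 0 l L ρ κ1) (h2 : GB V z 0 L L κ2 κ2)
    (hz : ‖z' - z‖ * κ2 ≤ 1 / 2) :
    GoodBox V z' 0 l L (ρ + 2 * κ1 * κ2 * ‖z' - z‖) := by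
  intro ψ b hb hb1 hb2 y hy
  have hhop : ∀ u, hop V z ψ u = hop V z' ψ u + (z' - z) * ψ u := fun u => by
    simp only [hop]; ring
  have hne : (box (0 : Site d) L).Nonempty := ⟨0, mem_box.2 (by simp [sn_zero])⟩
  set S : ℝ := (box (0 : Site d) L).sup' hne fun x => ‖ψ x‖ with hS
  have hSle : ∀ x, sn (x - 0) ≤ L → ‖ψ x‖ ≤ S := fun x hx =>
    Finset.le_sup' (fun x => ‖ψ x‖) (mem_box.2 hx)
  have hS0 : 0 ≤ S := (norm_nonneg _).trans (hSle 0 (by simp [sn_zero]))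
  have he : ∀ T, (∀ x, sn (x - 0) ≤ L → ‖ψ x‖ ≤ T) →
      ∀ u, sn (u - 0) ≤ L → ‖hop V z ψ u‖ ≤ ‖z' - z‖ * T := fun T hT u hu => by
    rw [hhop, hb2 u hu, zero_add, norm_mul]
    exact mul_le_mul_of_nonneg_left (hT u hu) (norm_nonneg _)
  have hS1 : S ≤ κ2 * b + κ2 * (‖z' - z‖ * S) :=
    Finset.sup'_le hne _ fun x hx =>
      h2 ψ b (‖z' - z‖ * S) hb (by positivity) hb1 (he S hSle) x (mem_box.1 hx)
  have hS2 : S ≤ 2 * κ2 * b := by
    have : κ2 * (‖z' - z‖ * S) ≤ 1 / 2 * S := by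
      calc κ2 * (‖z' - z‖ * S) = (‖z' - z‖ * κ2) * S := by ring
        _ ≤ 1 / 2 * S := mul_le_mul_of_nonneg_right hz hS0
    linarith
  have h3 := h1 ψ b (‖z' - z‖ * (2 * κ2 * b)) hb (by positivity) hb1
    (he _ fun x hx => (hSle x hx).trans hS2) y hy
  refine h3.trans (le_of_eq ?_)
  ring

end Pool.Agent.Helper3.Crit
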