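import Pool.Agent.Helper3.Crit.SkelDefs
import Pool.Agent.Helper3.Crit.Init1

/-! Initial scale estimate (module INIT2). -/

open scoped ENNReal NNReal InnerProductSpace
open MeasureTheory Set Filter Topology

noncomputable section

namespace Pool.Agent.Helper3.Crit

open Pool.Agent.Helper3.Anderson

variable {d : ℕ} {μ : Measure ℝ} [IsProbabilityMeasure μ] {M lam : ℝ} {K : ℝ≥0}

lemma GoodBox.mono_rho {V : Site d → ℝ} {z : ℂ} {x : Site d} {l L : ℕ} {ρ ρ' : ℝ}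
    (h : GoodBox V z x l L ρ) (hρ : ρ ≤ ρ') : GoodBox V z x l L ρ' := by
  intro ψ b hb h1 h2 y hy
  exact (h ψ b hb h1 h2 y hy).trans (mul_le_mul_of_nonneg_right hρ hb)

/-- the Wegner bound tends to zero as `t → ∞` -/
lemma tendsto_wg (d : ℕ) (M lam : ℝ) (K : ℝ≥0) (L : ℕ) :
    Tendsto (fun t : ℝ => wg d M lam K L t) atTop (𝓝 0) := by
  have h1 : Tendsto (fun t : ℝ => Real.exp (-(t / 4))) atTop (𝓝 0) :=
    Real.tendsto_exp_neg_atTop_nhds_zero.comp (tendsto_id.atTop_div_const (by norm_num))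
  have h2 := h1.const_mul (2 * (C2 M lam K).toReal * (2 * d + 1) * ((2 * L + 1 : ℕ) : ℝ) ^ (3 * d))
  rw [mul_zero] at h2
  exact h2

/-- large scale choice -/
lemma scale_choice (d : ℕ) (M lam : ℝ) (K : ℝ≥0) {m a : ℝ} (hm : 0 < m) (ha : 0 < a) :
    ∃ L1 : ℕ, ∀ L ≥ L1, wg d M lam K L (m * L / 8) ≤ a ∧
      2 * d * ((2 * L + 1 : ℕ) : ℝ) ^ d * Real.exp (-(m / 2 * L)) * (1 + Real.exp (m * L / 8))
        ≤ 1 / 2 * Real.exp (-(m / 4 * L)) := by
  have h1 := poly_exp_small 1 (3 * d) (2 * (C2 M lam K).toReal * (2 * d + 1))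
    (c := m / 32) (by positivity)
  have h2 := poly_exp_small 1 d (4 * d : ℝ) (c := m / 8) (by positivity)
  have e1 := h1.eventually (eventually_le_nhds ha)
  have e2 := h2.eventually (eventually_le_nhds (show (0 : ℝ) < 1 / 2 by norm_num))
  obtain ⟨L1, hL1⟩ := eventually_atTop.1 (e1.and e2)
  refine ⟨L1, fun L hL => ?_⟩
  obtain ⟨a1, a2⟩ := hL1 L hL
  have hpow : ∀ p : ℕ, ((2 * L + 1 : ℕ) : ℝ) ^ p ≤ ((2 * (1 * L + 1) + 1 : ℕ) : ℝ) ^ p := by
    intro p
    refine pow_le_pow_left₀ (by positivity) ?_ p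
    push_cast; linarith
  have hC : 0 ≤ (C2 M lam K).toReal := ENNReal.toReal_nonneg
  constructor
  · refine le_trans (le_of_eq ?_) ((mul_le_mul_of_nonneg_right (hpow (3 * d))
      (by positivity : 0 ≤ 2 * (C2 M lam K).toReal * (2 * d + 1) * Real.exp (-(m / 32 * L)))).trans
      a1)
    rw [wg, show -(m * L / 8 / 4) = -(m / 32 * L) by ring]
    ring
  · have hx : Real.exp (-(m / 2 * L)) * (1 + Real.exp (m * L / 8))
        ≤ 2 * Real.exp (-(m / 8 * L)) * Real.exp (-(m / 4 * L)) := by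
      have b1 : Real.exp (-(m / 2 * L)) * Real.exp (m * L / 8)
          = Real.exp (-(m / 8 * L)) * Real.exp (-(m / 4 * L)) := by
        rw [← Real.exp_add, ← Real.exp_add]; congr 1; ring
      have b2 : Real.exp (-(m / 2 * L)) ≤ Real.exp (-(m / 8 * L)) * Real.exp (-(m / 4 * L)) := by
        rw [← Real.exp_add]
        refine Real.exp_le_exp.2 ?_
        have : 0 ≤ m * L := by positivity
        linarith
      rw [mul_add, mul_one, b1]
      linarith
    have hP : 0 ≤ ((2 * L + 1 : ℕ) : ℝ) ^ d := by positivity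
    have a3 : ((2 * L + 1 : ℕ) : ℝ) ^ d * (4 * d * Real.exp (-(m / 8 * L))) ≤ 1 / 2 :=
      (mul_le_mul_of_nonneg_right (hpow d) (by positivity)).trans a2
    calc 2 * d * ((2 * L + 1 : ℕ) : ℝ) ^ d * Real.exp (-(m / 2 * L)) * (1 + Real.exp (m * L / 8))
        = 2 * d * ((2 * L + 1 : ℕ) : ℝ) ^ d * (Real.exp (-(m / 2 * L)) * (1 + Real.exp (m * L / 8))) := by
          ring
      _ ≤ 2 * d * ((2 * L + 1 : ℕ) : ℝ) ^ d
          * (2 * Real.exp (-(m / 8 * L)) * Real.exp (-(m / 4 * L))) :=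
          mul_le_mul_of_nonneg_left hx (by positivity)
      _ = ((2 * L + 1 : ℕ) : ℝ) ^ d * (4 * d * Real.exp (-(m / 8 * L)))
          * Real.exp (-(m / 4 * L)) := by ring
      _ ≤ 1 / 2 * Real.exp (-(m / 4 * L)) :=
          mul_le_mul_of_nonneg_right a3 (Real.exp_pos _).le

theorem init_scale (hμ : GoodLaw μ M K) (hlam : 0 < lam) {E B : ℝ}
    {g : Site d → Site d → (Site d → ℝ) → ℂ} (hp : Proc μ M lam K (E : ℂ) B g) (hB0 : 0 ≤ B)
    {m Cd : ℝ} (hm : 0 < m) (hc : ∀ v : Site d, m * sn v - Cd ≤ Proc.en μ g v)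
    {a0 : ℝ} (ha0 : 0 < a0) (Lmin : ℕ) :
    ∃ L ≥ Lmin, ∃ r > 0, ∀ l : ℕ, 4 * l ≤ L → ∀ z : ℂ, ‖z - E‖ < r →
      (PP d μ).real {ω | ¬ GoodBox (potc M lam ω) z 0 l L (Real.exp (-(m / 4 * L)))} ≤ a0 := by
  classical
  have ha4 : 0 < a0 / 4 := by positivity
  obtain ⟨L1, hL1⟩ := scale_choice d M lam K hm ha4
  obtain ⟨L, hL, hshape⟩ := hp.shape hB0 hm hc ha4 (max Lmin L1)
  have hLmin : Lmin ≤ L := (le_max_left _ _).trans hL
  obtain ⟨hwg, hρ⟩ := hL1 L ((le_max_right _ _).trans hL)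
  set N : ℝ := ((2 * L + 1 : ℕ) : ℝ) ^ d with hN
  have hN0 : 0 ≤ N := by positivity
  set C2' := (C2 M lam K).toReal with hC2'
  have hC20 : 0 ≤ C2' := ENNReal.toReal_nonneg
  -- Wegner at E with a large constant
  obtain ⟨t2, ht2⟩ := ((tendsto_wg d M lam K L).eventually (eventually_le_nhds ha4)).exists
  -- the Green function is bounded in the box
  have ht3' : Tendsto (fun t : ℝ => N * N * (Real.exp (-(t / 4)) * (2 * C2'))) atTop (𝓝 0) := by
    have h1 : Tendsto (fun t : ℝ => Real.exp (-(t / 4))) atTop (𝓝 0) :=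
      Real.tendsto_exp_neg_atTop_nhds_zero.comp (tendsto_id.atTop_div_const (by norm_num))
    have h2 := (h1.mul_const (2 * C2')).const_mul (N * N)
    simpa using h2
  obtain ⟨t3, ht3⟩ := (ht3'.eventually (eventually_le_nhds ha4)).exists
  -- the exceptional events
  set S1 : Set (Site d → ℝ) := {ω | ∃ y u : Site d, 4 * sn y ≤ L ∧ L ≤ sn u ∧ sn u ≤ L + 1 ∧
      Real.exp (-(m / 2 * L)) ≤ ‖g y u ω‖} with hS1
  set S2 : Set (Site d → ℝ) := {ω | ¬ GB (potc M lam ω) E 0 L L (Real.exp (m * L / 8))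
      (Real.exp (m * L / 8))} with hS2
  set S3 : Set (Site d → ℝ) := ⋃ p ∈ box (0 : Site d) L ×ˢ box (0 : Site d) L,
      {ω | Real.exp t3 ≤ ‖g p.1 p.2 ω‖} with hS3
  set S4 : Set (Site d → ℝ) := {ω | ¬ GB (potc M lam ω) E 0 L L (Real.exp t2)
      (Real.exp t2)} with hS4
  have p2 : (PP d μ).real S2 ≤ a0 / 4 :=
    (wegner hμ hlam (by simp) 0 L (m * L / 8)).trans hwg
  have p4 : (PP d μ).real S4 ≤ a0 / 4 := (wegner hμ hlam (by simp) 0 L t2).trans ht2
  have p3 : (PP d μ).real S3 ≤ a0 / 4 := by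
    refine (measureReal_biUnion_finset_le _ _).trans ?_
    refine (Finset.sum_le_sum fun p _ => hp.tail_pos p.1 p.2 t3).trans ?_
    rw [Finset.sum_const, nsmul_eq_mul, Finset.card_product, card_box]
    push_cast at ht3 ⊢
    refine le_trans (le_of_eq ?_) ht3
    rw [hN]; push_cast; ring
  set κ : ℝ := Real.exp (m * L / 8) with hκ
  set η : ℝ := Real.exp (-(m / 2 * L)) with hη
  set S : ℝ := N * Real.exp t3 with hS
  set κ2 : ℝ := Real.exp t2 with hκ2
  have hκ0 : 0 ≤ κ := (Real.exp_pos _).le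
  have hη0 : 0 ≤ η := (Real.exp_pos _).le
  have hS0 : 0 ≤ S := mul_nonneg hN0 (Real.exp_pos _).le
  have hκ20 : 0 < κ2 := Real.exp_pos _
  set κ1 : ℝ := S + 2 * d * N * η * κ with hκ1
  have hκ10 : 0 ≤ κ1 := by positivity
  have hx4 : 0 < Real.exp (-(m / 4 * L)) := Real.exp_pos _
  refine ⟨L, hLmin, min (1 / (2 * κ2)) (1 / 2 * Real.exp (-(m / 4 * L)) / (2 * κ1 * κ2 + 1)),
    lt_min (by positivity) (by positivity), fun l hl z hz => ?_⟩
  have hlL : l ≤ L := by omega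
  have hr1 : ‖z - E‖ * κ2 ≤ 1 / 2 := by
    have h1 := (hz.trans_le (min_le_left _ _)).le
    calc ‖z - E‖ * κ2 ≤ 1 / (2 * κ2) * κ2 := mul_le_mul_of_nonneg_right h1 hκ20.le
      _ = 1 / 2 := by field_simp
  have hr2 : 2 * κ1 * κ2 * ‖z - E‖ ≤ 1 / 2 * Real.exp (-(m / 4 * L)) := by
    have h1 := (hz.trans_le (min_le_right _ _)).le
    have h2 : 0 < 2 * κ1 * κ2 + 1 := by positivity
    rw [le_div_iff₀ h2] at h1
    have h3 := norm_nonneg (z - E)
    linarith
  have hsub : ∀ᵐ ω ∂(PP d μ), ω ∈ {ω | ¬ GoodBox (potc M lam ω) z 0 l L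
      (Real.exp (-(m / 4 * L)))} → ω ∈ S1 ∪ S2 ∪ S3 ∪ S4 := by
    filter_upwards [hp.eqn] with ω hω hbad
    by_contra hcon
    simp only [mem_union, not_or] at hcon
    obtain ⟨⟨⟨n1, n2⟩, n3⟩, n4⟩ := hcon
    apply hbad
    have g2 : GB (potc M lam ω) E 0 L L κ κ := by
      by_contra h; exact n2 h
    have g4 : GB (potc M lam ω) E 0 L L κ2 κ2 := by
      by_contra h; exact n4 h
    have hη' : ∀ y u, sn y ≤ l → L ≤ sn u → sn u ≤ L + 1 → ‖g u y ω‖ ≤ η := by
      intro y u hy hu1 hu2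
      by_contra h
      rw [not_le] at h
      refine n1 ⟨y, u, by omega, hu1, hu2, ?_⟩
      rw [hp.symm y u]; exact h.le
    have hS' : ∀ y, sn y ≤ l → ∑ x ∈ box 0 L, ‖g x y ω‖ ≤ S := by
      intro y hy
      have hy' : y ∈ box (0 : Site d) L := mem_box.2 (by rw [sub_zero]; omega)
      calc ∑ x ∈ box 0 L, ‖g x y ω‖ ≤ ∑ x ∈ box (0 : Site d) L, Real.exp t3 := by
            refine Finset.sum_le_sum fun x hx => ?_
            by_contra h
            rw [not_le] at h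
            apply n3
            simp only [hS3, mem_iUnion]
            exact ⟨(x, y), Finset.mem_product.2 ⟨hx, hy'⟩, h.le⟩
        _ = S := by
            rw [Finset.sum_const, nsmul_eq_mul, card_box, hS, hN]; push_cast; ring
    have g1 := gb_of_green hlL hη0 hS0 hκ0 hω hη' hS' g2
    have g5 := good_of_near hlL hκ10 hκ20.le g1 g4 hr1
    refine g5.mono_rho ?_
    linarith
  calc (PP d μ).real {ω | ¬ GoodBox (potc M lam ω) z 0 l L (Real.exp (-(m / 4 * L)))}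
      ≤ (PP d μ).real (S1 ∪ S2 ∪ S3 ∪ S4) :=
        ENNReal.toReal_mono (measure_ne_top _ _) (measure_mono_ae hsub)
    _ ≤ (PP d μ).real (S1 ∪ S2 ∪ S3) + (PP d μ).real S4 := measureReal_union_le _ _
    _ ≤ (PP d μ).real (S1 ∪ S2) + (PP d μ).real S3 + (PP d μ).real S4 := by
        gcongr; exact measureReal_union_le _ _
    _ ≤ (PP d μ).real S1 + (PP d μ).real S2 + (PP d μ).real S3 + (PP d μ).real S4 := by
        gcongr; exact measureReal_union_le _ _
    _ ≤ a0 := by linarith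

end Pool.Agent.Helper3.Crit
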