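import Pool.Agent.Helper3.Crit.Diss
import Pool.Agent.Helper3.Anderson.Nbr

/-! One-variable negative moment for a finite dissipative matrix. -/

open scoped ENNReal NNReal
open MeasureTheory Set

noncomputable section

namespace Pool.Agent.Helper3.Crit

open Pool.Agent.Helper3.Anderson

lemma ofReal_neg_half_le {x y : ℝ} {r : ℝ} (hr : 0 < r) (hxy : r * x ≤ y) :
    (ENNReal.ofReal y) ^ (-(1/2 : ℝ))
      ≤ (ENNReal.ofReal r⁻¹) ^ (1/2 : ℝ) * (ENNReal.ofReal x) ^ (-(1/2 : ℝ)) := by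
  have h1 : (ENNReal.ofReal y) ^ (-(1/2 : ℝ)) ≤ (ENNReal.ofReal (r * x)) ^ (-(1/2 : ℝ)) := by
    rw [ENNReal.rpow_neg, ENNReal.rpow_neg, ENNReal.inv_le_inv]
    exact ENNReal.rpow_le_rpow (ENNReal.ofReal_le_ofReal hxy) (by norm_num)
  refine h1.trans (le_of_eq ?_)
  rw [ENNReal.ofReal_mul hr.le, ENNReal.rpow_neg, ENNReal.rpow_neg,
    ENNReal.mul_rpow_of_nonneg _ _ (by norm_num : (0 : ℝ) ≤ 1/2),
    ENNReal.mul_inv (Or.inl ?_) (Or.inl ?_)]
  · congr 1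
    rw [ENNReal.ofReal_inv_of_pos hr, ENNReal.inv_rpow]
  · refine (ENNReal.rpow_pos ?_ ENNReal.ofReal_ne_top).ne'
    simpa using hr
  · exact ENNReal.rpow_ne_top_of_nonneg (by norm_num) ENNReal.ofReal_ne_top

/-- the constant for the replacement of one potential -/
def C4 (M lam : ℝ) (K : ℝ≥0) : ℝ≥0∞ :=
  C1 M K * (ENNReal.ofReal ((lam * M + 3) * (1 + 2 / lam))) ^ (1/2 : ℝ)

lemma C4_ne_top (M lam : ℝ) (K : ℝ≥0) : C4 M lam K ≠ ⊤ := by
  unfold C4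
  exact ENNReal.mul_ne_top (C1_ne_top M K)
    (ENNReal.rpow_ne_top_of_nonneg (by norm_num) ENNReal.ofReal_ne_top)

variable {n : Type*} [Fintype n] [DecidableEq n]

theorem neg_mat {μ : Measure ℝ} [IsProbabilityMeasure μ] {M lam : ℝ} {K : ℝ≥0}
    (hμ : GoodLaw μ M K) (hlam : 0 < lam) {A : Matrix n n ℂ} (hA : Diss A) {D : n → ℂ}
    (hD : ∀ x, (D x).im ≤ 0) (u x y : n) {τ : ℂ} (hτ : τ = -Complex.I ∨ τ = -2 * Complex.I) :
    ∫⁻ t, ‖gcut A (Function.update D u ((lam * clip M t : ℝ) : ℂ)) ∅ x y‖ₑ ^ (-(1/2 : ℝ)) ∂μ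
      ≤ C4 M lam K * ‖gcut A (Function.update D u τ) ∅ x y‖ₑ ^ (-(1/2 : ℝ)) := by
  have hM0 : 0 < M := by linarith [hμ.one_le]
  have hae : ∀ᵐ t ∂μ, |t| ≤ M := by
    have : ∀ᵐ t ∂μ, t ∈ Icc (-M) M := by rw [ae_iff]; exact hμ.supp
    filter_upwards [this] with t ht
    exact abs_le.2 ht
  have hτim : τ.im ≤ -1 := by
    rcases hτ with rfl | rfl
    · simp
    · norm_num [Complex.mul_im]
  have hτn : ‖τ‖ ≤ 2 := by
    rcases hτ with rfl | rfl <;> simp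
  set α := gcut A (Function.update D u 0) ∅ x y with hα
  set a := gcut A (Function.update D u 0) ∅ u u with ha
  set β := α * a - gcut A (Function.update D u 0) ∅ x u * gcut A (Function.update D u 0) ∅ u y
    with hβ
  set X : ℝ := max ‖α‖ ‖(lam : ℂ) * β‖ with hX
  have hD0 : ∀ x, x ∉ (∅ : Finset n) → (Function.update D u 0 x).im ≤ 0 := by
    intro x _
    rcases eq_or_ne x u with rfl | hne
    · simp
    · simpa [Function.update_of_ne hne] using hD x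
  have haim : 0 < a.im := gcut_im_pos hA hD0 (Finset.notMem_empty u)
  have ha0 : a ≠ 0 := fun h => by rw [h] at haim; simp at haim
  have hinv : (a⁻¹).im < 0 := by
    rw [Complex.inv_im]
    have := Complex.normSq_pos.2 ha0
    exact div_neg_of_neg_of_pos (by linarith) this
  have hN1 : 1 ≤ ‖a⁻¹ + τ‖ := by
    have h1 : |(a⁻¹ + τ).im| ≤ ‖a⁻¹ + τ‖ := Complex.abs_im_le_norm _
    rw [Complex.add_im, abs_of_neg (by linarith)] at h1
    linarith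
  have hfac : ∀ s : ℂ, 1 + s * a = a * (a⁻¹ + s) := by
    intro s; rw [mul_add, mul_inv_cancel₀ ha0]; ring
  set Nτ : ℝ := ‖1 + τ * a‖ with hNτ
  have hNτ' : Nτ = ‖a‖ * ‖a⁻¹ + τ‖ := by rw [hNτ, hfac, norm_mul]
  have hNτ0 : 0 < Nτ := by
    rw [hNτ']
    exact mul_pos (norm_pos_iff.2 ha0) (by linarith)
  set F : ℝ := lam * M + 3 with hF
  have hF0 : 0 < F := by positivity
  have hnum : ∀ t : ℝ, |t| ≤ M → ‖1 + ((lam * t : ℝ) : ℂ) * a‖ ≤ F * Nτ := by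
    intro t ht
    rw [hfac, norm_mul, hNτ', mul_left_comm]
    refine mul_le_mul_of_nonneg_left ?_ (norm_nonneg _)
    have h1 : a⁻¹ + ((lam * t : ℝ) : ℂ) = (a⁻¹ + τ) + (((lam * t : ℝ) : ℂ) - τ) := by ring
    rw [h1]
    refine (norm_add_le _ _).trans ?_
    have h2 : ‖((lam * t : ℝ) : ℂ) - τ‖ ≤ lam * M + 2 := by
      refine (norm_sub_le _ _).trans (add_le_add ?_ hτn)
      rw [Complex.norm_real, Real.norm_eq_abs, abs_mul, abs_of_pos hlam]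
      gcongr
    have h3 : lam * M + 2 ≤ (lam * M + 2) * ‖a⁻¹ + τ‖ := by
      have : 0 ≤ lam * M + 2 := by positivity
      nlinarith
    calc ‖a⁻¹ + τ‖ + ‖((lam * t : ℝ) : ℂ) - τ‖ ≤ ‖a⁻¹ + τ‖ + (lam * M + 2) * ‖a⁻¹ + τ‖ := by
          linarith
      _ = F * ‖a⁻¹ + τ‖ := by rw [hF]; ring
  -- pointwise bound
  have hpt : ∀ t : ℝ, |t| ≤ M →
      ‖gcut A (Function.update D u ((lam * t : ℝ) : ℂ)) ∅ x y‖ₑ ^ (-(1/2 : ℝ))
      ≤ (ENNReal.ofReal (F * Nτ)) ^ (1/2 : ℝ)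
        * ‖α + (t : ℂ) * ((lam : ℂ) * β)‖ₑ ^ (-(1/2 : ℝ)) := by
    intro t ht
    have h1 := gcut_rank_one hA (u := u) hD (t := ((lam * t : ℝ) : ℂ)) (by rw [Complex.ofReal_im]) x y
    rw [← ofReal_norm, ← ofReal_norm]
    have h2 : ‖gcut A (Function.update D u ((lam * t : ℝ) : ℂ)) ∅ x y‖
        * ‖1 + ((lam * t : ℝ) : ℂ) * a‖ = ‖α + (t : ℂ) * ((lam : ℂ) * β)‖ := by
      rw [← norm_mul, h1]
      congr 1
      push_cast; ring
    have h4 : (F * Nτ)⁻¹ * ‖α + (t : ℂ) * ((lam : ℂ) * β)‖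
        ≤ ‖gcut A (Function.update D u ((lam * t : ℝ) : ℂ)) ∅ x y‖ := by
      rw [← h2, inv_mul_le_iff₀ (by positivity), mul_comm]
      exact mul_le_mul_of_nonneg_right (hnum t ht) (norm_nonneg _)
    have h5 := ofReal_neg_half_le (inv_pos.2 (by positivity : 0 < F * Nτ)) h4
    rwa [inv_inv] at h5
  have haff := lintegral_affine hμ α ((lam : ℂ) * β)
  have hS : Nτ * (1 + 2 / lam)⁻¹ * ‖gcut A (Function.update D u τ) ∅ x y‖ ≤ X := by
    have h1 := gcut_rank_one hA (u := u) hD (t := τ) (by linarith) x y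
    have h2 : ‖gcut A (Function.update D u τ) ∅ x y‖ * Nτ = ‖α + τ * β‖ := by
      rw [hNτ, ← norm_mul, h1]
    have h4 : ‖α + τ * β‖ ≤ (1 + 2 / lam) * X := by
      have h5 : ‖β‖ ≤ X / lam := by
        rw [le_div_iff₀ hlam]
        calc ‖β‖ * lam = ‖(lam : ℂ) * β‖ := by
              rw [norm_mul, Complex.norm_real, Real.norm_eq_abs, abs_of_pos hlam, mul_comm]
          _ ≤ X := le_max_right _ _
      have hX0 : 0 ≤ X := le_max_of_le_left (norm_nonneg _)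
      calc ‖α + τ * β‖ ≤ ‖α‖ + ‖τ * β‖ := norm_add_le _ _
        _ = ‖α‖ + ‖τ‖ * ‖β‖ := by rw [norm_mul]
        _ ≤ X + 2 * (X / lam) := by gcongr; exact le_max_left _ _
        _ = _ := by ring
    have hpos : 0 < 1 + 2 / lam := by positivity
    calc Nτ * (1 + 2 / lam)⁻¹ * ‖gcut A (Function.update D u τ) ∅ x y‖
        = (1 + 2 / lam)⁻¹ * ‖α + τ * β‖ := by rw [← h2]; ring
      _ ≤ X := by rw [inv_mul_le_iff₀ hpos]; exact h4
  have hXe : max ‖α‖ₑ ‖(lam : ℂ) * β‖ₑ = ENNReal.ofReal X := by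
    rw [← ofReal_norm, ← ofReal_norm, ← ENNReal.ofReal_max]
  have hr : 0 < Nτ * (1 + 2 / lam)⁻¹ := by positivity
  have hfin := ofReal_neg_half_le hr hS
  rw [ofReal_norm] at hfin
  calc _ ≤ ∫⁻ t, (ENNReal.ofReal (F * Nτ)) ^ (1/2 : ℝ)
        * ‖α + (t : ℂ) * ((lam : ℂ) * β)‖ₑ ^ (-(1/2 : ℝ)) ∂μ := by
        refine lintegral_mono_ae ?_
        filter_upwards [hae] with t ht
        rw [clip_of_abs_le ht]
        exact hpt t ht
    _ = (ENNReal.ofReal (F * Nτ)) ^ (1/2 : ℝ)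
        * ∫⁻ t, ‖α + (t : ℂ) * ((lam : ℂ) * β)‖ₑ ^ (-(1/2 : ℝ)) ∂μ := by
        rw [lintegral_const_mul]
        have : Measurable fun t : ℝ => ‖α + (t : ℂ) * ((lam : ℂ) * β)‖ₑ := by fun_prop
        exact this.pow_const _
    _ ≤ (ENNReal.ofReal (F * Nτ)) ^ (1/2 : ℝ)
        * (C1 M K * ((ENNReal.ofReal ((Nτ * (1 + 2 / lam)⁻¹)⁻¹)) ^ (1/2 : ℝ)
          * ‖gcut A (Function.update D u τ) ∅ x y‖ₑ ^ (-(1/2 : ℝ)))) := by
        gcongr
        refine haff.trans ?_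
        rw [hXe]
        gcongr
    _ = C1 M K * ((ENNReal.ofReal (F * Nτ) * ENNReal.ofReal ((Nτ * (1 + 2 / lam)⁻¹)⁻¹)) ^ (1/2 : ℝ))
          * ‖gcut A (Function.update D u τ) ∅ x y‖ₑ ^ (-(1/2 : ℝ)) := by
        rw [ENNReal.mul_rpow_of_nonneg _ _ (by norm_num : (0 : ℝ) ≤ 1/2)]
        ring
    _ = _ := by
        rw [← ENNReal.ofReal_mul (by positivity), C4]
        congr 4
        field_simp
        exact hF

end Pool.Agent.Helper3.Crit
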