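import Mathlib

/-! The Poisson kernel of the upper half plane. -/

noncomputable section

namespace Pool.Agent.Helper3.Crit

/-- Poisson kernel of the upper half plane -/
def pk (y t : ℝ) : ℝ := Real.pi⁻¹ * (y / (t ^ 2 + y ^ 2))

end Pool.Agent.Helper3.Crit
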