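import Pool.Agent.Helper3.Crit.Det
import Pool.Agent.Helper3.Crit.BoxMeas

/-! PROB1: one step of the multiscale analysis, the union bound. -/

open scoped ENNReal NNReal InnerProductSpace
open MeasureTheory Set Filter Topology

noncomputable section

namespace Pool.Agent.Helper3.Crit

open Pool.Agent.Helper3.Anderson

variable {d : ℕ} {μ : Measure ℝ} [IsProbabilityMeasure μ] {M lam : ℝ} {K : ℝ≥0}

theorem msa_step (hμ : GoodLaw μ M K) (hlam : 0 < lam) {z : ℂ} (hz : 0 ≤ z.im)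
    {l L l' L' n A : ℕ} {ρ t t' : ℝ} (hl : 1 ≤ l) (hlL : l ≤ L) (hρ : 0 ≤ ρ) (hρ1 : ρ ≤ 1)
    (ht' : 0 ≤ t') (hκρ : Real.exp t * ρ < 1)
    (hn : l' + 2 * (2 * L + l) + (n + 3) * (L + l + 1) ≤ L') (hA : L' ≤ A * l) :
    (PP d μ).real {ω | ¬ GoodBox (potc M lam ω) z 0 l' L' (ρ ^ n * Real.exp t')}
      ≤ ((2 * A + 1 : ℕ) : ℝ) ^ (2 * d)
          * (PP d μ).real {ω | ¬ GoodBox (potc M lam ω) z 0 l L ρ} ^ 2
        + ((2 * A + 1 : ℕ) : ℝ) ^ d * wg d M lam K (2 * L + l) t + wg d M lam K L' t' := by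
  classical
  set bad : Site d → Set (Site d → ℝ) := fun c => {ω | ¬ GoodBox (potc M lam ω) z c l L ρ}
    with hbad
  set p : ℝ := (PP d μ).real {ω | ¬ GoodBox (potc M lam ω) z 0 l L ρ} with hp
  set S : Finset (Site d × Site d) :=
    (box (0 : Site d) A ×ˢ box (0 : Site d) A).filter
      (fun q => 2 * L < sn (l • q.1 - l • q.2)) with hS
  set E1 : Set (Site d → ℝ) := ⋃ q ∈ S, (bad (l • q.1) ∩ bad (l • q.2)) with hE1
  set E2 : Set (Site d → ℝ) := ⋃ a ∈ box (0 : Site d) A,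
    {ω | ¬ GB (potc M lam ω) z (l • a) (2 * L + l) (2 * L + l) (Real.exp t) (Real.exp t)} with hE2
  set E3 : Set (Site d → ℝ) :=
    {ω | ¬ GB (potc M lam ω) z 0 L' L' (Real.exp t') (Real.exp t')} with hE3
  have hmem : ∀ a : Site d, sn (l • a) + L ≤ L' → a ∈ box (0 : Site d) A := by
    intro a ha
    rw [mem_box, sub_zero]
    rw [sn_nsmul] at ha
    have h1 : l * sn a ≤ A * l := by omega
    rw [mul_comm A l] at h1
    exact Nat.le_of_mul_le_mul_left h1 hl
  have hsub : {ω | ¬ GoodBox (potc M lam ω) z 0 l' L' (ρ ^ n * Real.exp t')} ⊆ E1 ∪ E2 ∪ E3 := by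
    intro ω hω
    by_contra hcon
    simp only [mem_union, not_or] at hcon
    obtain ⟨⟨h1, h2⟩, h3⟩ := hcon
    refine hω (msa_det hl hlL hρ hρ1 (Real.exp_pos t).le hκρ (Real.one_le_exp ht') hn ?_ ?_ ?_)
    · intro a a' ha ha' hd
      by_contra hno
      rw [not_or] at hno
      apply h1
      rw [hE1]
      simp only [mem_iUnion]
      refine ⟨(a, a'), ?_, hno⟩
      rw [hS, Finset.mem_filter, Finset.mem_product]
      exact ⟨⟨hmem a ha, hmem a' ha'⟩, hd⟩
    · intro a ha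
      by_contra hno
      apply h2
      rw [hE2]
      simp only [mem_iUnion]
      refine ⟨a, hmem a ha, fun hGB => hno hGB.good⟩
    · by_contra hno
      exact h3 fun hGB => hno hGB.good
  have hcard : ((box (0 : Site d) A).card : ℝ) = ((2 * A + 1 : ℕ) : ℝ) ^ d := by
    rw [card_box]; push_cast; ring
  have hb1 : (PP d μ).real E1 ≤ ((2 * A + 1 : ℕ) : ℝ) ^ (2 * d) * p ^ 2 := by
    have hp2 : 0 ≤ p ^ 2 := sq_nonneg p
    calc (PP d μ).real E1 ≤ ∑ q ∈ S, (PP d μ).real (bad (l • q.1) ∩ bad (l • q.2)) :=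
          measureReal_biUnion_finset_le _ _
      _ = ∑ q ∈ S, p ^ 2 := by
          refine Finset.sum_congr rfl fun q hq => ?_
          rw [hS, Finset.mem_filter] at hq
          exact bad_pair M lam z l L (by omega) ρ hq.2
      _ = (S.card : ℝ) * p ^ 2 := by rw [Finset.sum_const, nsmul_eq_mul]
      _ ≤ ((2 * A + 1 : ℕ) : ℝ) ^ (2 * d) * p ^ 2 := by
          refine mul_le_mul_of_nonneg_right ?_ hp2
          have h1 : S.card ≤ (box (0 : Site d) A ×ˢ box (0 : Site d) A).card :=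
            Finset.card_filter_le _ _
          rw [Finset.card_product] at h1
          have h2 : (S.card : ℝ) ≤ ((box (0 : Site d) A).card : ℝ) * ((box (0 : Site d) A).card : ℝ) := by
            exact_mod_cast h1
          rw [hcard] at h2
          rw [two_mul d, pow_add]
          exact h2
  have hb2 : (PP d μ).real E2 ≤ ((2 * A + 1 : ℕ) : ℝ) ^ d * wg d M lam K (2 * L + l) t := by
    calc (PP d μ).real E2 ≤ ∑ a ∈ box (0 : Site d) A, (PP d μ).real
          {ω | ¬ GB (potc M lam ω) z (l • a) (2 * L + l) (2 * L + l) (Real.exp t) (Real.exp t)} :=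
          measureReal_biUnion_finset_le _ _
      _ ≤ ∑ a ∈ box (0 : Site d) A, wg d M lam K (2 * L + l) t :=
          Finset.sum_le_sum fun a _ => wegner hμ hlam hz (l • a) (2 * L + l) t
      _ = _ := by rw [Finset.sum_const, nsmul_eq_mul, hcard]
  have hb3 : (PP d μ).real E3 ≤ wg d M lam K L' t' := wegner hμ hlam hz 0 L' t'
  calc (PP d μ).real {ω | ¬ GoodBox (potc M lam ω) z 0 l' L' (ρ ^ n * Real.exp t')}
      ≤ (PP d μ).real (E1 ∪ E2 ∪ E3) := measureReal_mono hsub
    _ ≤ (PP d μ).real (E1 ∪ E2) + (PP d μ).real E3 := measureReal_union_le _ _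
    _ ≤ (PP d μ).real E1 + (PP d μ).real E2 + (PP d μ).real E3 := by
        have := measureReal_union_le (μ := PP d μ) E1 E2
        linarith
    _ ≤ _ := by linarith

end Pool.Agent.Helper3.Crit
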