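import Pool.Agent.Helper3.Crit.Prob1
import Pool.Agent.Helper3.Crit.Prob2Core
import Pool.Agent.Helper3.Anderson.FinalA

/-! Induction over scales of the multiscale analysis. -/

open scoped ENNReal NNReal InnerProductSpace
open MeasureTheory Set Filter Topology

noncomputable section

namespace Pool.Agent.Helper3.Crit

open Pool.Agent.Helper3.Anderson

variable {d : ℕ} {μ : Measure ℝ} [IsProbabilityMeasure μ] {M lam : ℝ} {K : ℝ≥0}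

theorem msa (d : ℕ) (hμ : GoodLaw μ M K) (hlam : 0 < lam) {m : ℝ} (hm : 0 < m) :
    ∃ (q : ℕ) (a0 : ℝ) (Lmin : ℕ), 2 ≤ q ∧ 0 < a0 ∧ ∀ l0 L0 : ℕ, Lmin ≤ L0 → 1 ≤ l0 → 4 * l0 ≤ L0 →
      L0 ≤ 2 ^ (q + 1) * l0 → ∀ z : ℂ, 0 ≤ z.im →
      (PP d μ).real {ω | ¬ GoodBox (potc M lam ω) z 0 l0 L0
        (Real.exp (-(m * ((L0 + l0 + 1 : ℕ) : ℝ))))} ≤ a0 →
      MSA d μ M lam z q l0 L0 (m / 2) a0 := by
  refine msa_core (K := K) d ?_ hm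
  intro z hz l L l' L' n A ρ t t' h1 h2 h3 h4 h5 h6 h7 h8
  exact msa_step hμ hlam hz h1 h2 h3 h4 h5 h6 h7 h8

end Pool.Agent.Helper3.Crit
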