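import Pool.Agent.Helper3.Crit.BV
import Pool.Agent.Helper3.Crit.Approx

/-! The Green function at a real energy as a stationary process. -/

open MeasureTheory Set Filter Topology
open scoped ENNReal NNReal

noncomputable section

namespace Pool.Agent.Helper3.Crit

open Pool.Agent.Helper3.Anderson

variable {d : ℕ}

/-- the properties of the limiting Green function used below -/
structure Proc (μ : Measure ℝ) [IsProbabilityMeasure μ] (M lam : ℝ) (K : ℝ≥0) (z : ℂ) (B : ℝ)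
    (g : Site d → Site d → (Site d → ℝ) → ℂ) : Prop where
  meas : ∀ x y, Measurable (g x y)
  tr : ∀ v x y ω, g x y (tr v ω) = g (x + v) (y + v) ω
  symm : ∀ x y ω, g x y ω = g y x ω
  eqn : ∀ᵐ ω ∂(PP d μ), ∀ x y, hop (potc M lam ω) z (fun w => g w y ω) x = if x = y then 1 else 0
  neg : ∀ x y, ∫⁻ ω, ‖g x y ω‖ₑ ^ (-(1/2 : ℝ)) ∂(PP d μ) ≤ C5 d M lam K B ^ (l1 (y - x) + 1)
  pos : ∀ x y, ∫⁻ ω, ‖g x y ω‖ₑ ^ (1/4 : ℝ) ∂(PP d μ) ≤ 2 * C2 M lam K
  quasi : ∀ x u y, ∫⁻ ω, ((‖g x u ω‖ₑ * ‖g u y ω‖ₑ) / ‖g x y ω‖ₑ) ^ (1/4 : ℝ) ∂(PP d μ)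
    ≤ C2 M lam K

/-- the limiting Green function -/
def gE (M lam E : ℝ) (ε : ℕ → ℝ) (x y : Site d) (ω : Site d → ℝ) : ℂ :=
  limUnder atTop fun k => gc M lam ((E : ℂ) + ε k * Complex.I) ω x y

variable {μ : Measure ℝ} [IsProbabilityMeasure μ] {M lam : ℝ} {K : ℝ≥0}

lemma gE_tendsto {E : ℝ} {ε : ℕ → ℝ} {x y : Site d} {ω : Site d → ℝ}
    (h : ∃ l, Tendsto (fun k => gc M lam ((E : ℂ) + ε k * Complex.I) ω x y) atTop (𝓝 l)) :
    Tendsto (fun k => gc M lam ((E : ℂ) + ε k * Complex.I) ω x y) atTop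
      (𝓝 (gE M lam E ε x y ω)) := tendsto_nhds_limUnder h

theorem proc_gE (hμ : GoodLaw μ M K) (hlam : 0 < lam) {E B : ℝ} {ε : ℕ → ℝ} (hε : ∀ k, 0 < ε k)
    (hε1 : ∀ k, ε k ≤ 1) (hε0 : Tendsto ε atTop (𝓝 0)) (hB : 2 * d + (|E| + 1) + 2 ≤ B)
    (hconv : ∀ᵐ ω ∂(PP d μ), ∀ x y : Site d,
      ∃ l, Tendsto (fun k => gc M lam ((E : ℂ) + ε k * Complex.I) ω x y) atTop (𝓝 l)) :
    Proc μ M lam K (E : ℂ) B (gE (d := d) M lam E ε) := by
  have hM : 0 ≤ M := by linarith [hμ.one_le]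
  have hz : ∀ k, 0 < ((E : ℂ) + ε k * Complex.I).im := fun k => by simpa using hε k
  have hzB : ∀ k, 2 * d + ‖((E : ℂ) + ε k * Complex.I)‖ + 2 ≤ B := by
    intro k
    have : ‖((E : ℂ) + ε k * Complex.I)‖ ≤ |E| + 1 := by
      refine (norm_add_le _ _).trans (add_le_add ?_ ?_)
      · rw [Complex.norm_real, Real.norm_eq_abs]
      · rw [norm_mul, Complex.norm_I, mul_one, Complex.norm_real, Real.norm_eq_abs,
          abs_of_pos (hε k)]
        exact hε1 k
    linarith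
  have hlimz : Tendsto (fun k => ((E : ℂ) + ε k * Complex.I)) atTop (𝓝 (E : ℂ)) := by
    have h2 : Tendsto (fun k => ((ε k : ℝ) : ℂ)) atTop (𝓝 ((0 : ℝ) : ℂ)) :=
      (Complex.continuous_ofReal.tendsto 0).comp hε0
    have h3 := (h2.mul_const Complex.I).const_add (E : ℂ)
    simpa using h3
  have hneg : ∀ x y : Site d, ∫⁻ ω, ‖gE M lam E ε x y ω‖ₑ ^ (-(1/2 : ℝ)) ∂(PP d μ)
      ≤ C5 d M lam K B ^ (l1 (y - x) + 1) := by
    intro x y
    calc ∫⁻ ω, ‖gE M lam E ε x y ω‖ₑ ^ (-(1/2 : ℝ)) ∂(PP d μ)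
        = ∫⁻ ω, liminf (fun k => ‖gc M lam ((E : ℂ) + ε k * Complex.I) ω x y‖ₑ ^ (-(1/2 : ℝ)))
            atTop ∂(PP d μ) := by
          refine lintegral_congr_ae ?_
          filter_upwards [hconv] with ω hω
          have h1 := (gE_tendsto (hω x y)).enorm
          exact (((ENNReal.continuous_rpow_const (y := -(1/2 : ℝ))).tendsto _).comp
            h1).liminf_eq.symm
      _ ≤ liminf (fun k => ∫⁻ ω, ‖gc M lam ((E : ℂ) + ε k * Complex.I) ω x y‖ₑ ^ (-(1/2 : ℝ))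
            ∂(PP d μ)) atTop :=
          lintegral_liminf_le fun k => (measurable_gc hM (hz k) x y).enorm.pow_const _
      _ ≤ liminf (fun _ => C5 d M lam K B ^ (l1 (y - x) + 1)) atTop :=
          Filter.liminf_le_liminf (Eventually.of_forall fun k => neg_moment hμ hlam (hz k) (hzB k) x y)
      _ = _ := by simp
  have hB0 : 0 ≤ B := by have := abs_nonneg E; linarith [Nat.cast_nonneg (α := ℝ) d]
  have hne : ∀ x y : Site d, ∀ᵐ ω ∂(PP d μ), gE M lam E ε x y ω ≠ 0 := by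
    intro x y
    have hm : AEMeasurable (fun ω => ‖gE M lam E ε x y ω‖ₑ ^ (-(1/2 : ℝ))) (PP d μ) := by
      have : StronglyMeasurable (gE M lam E ε x y) :=
        StronglyMeasurable.limUnder fun k => (measurable_gc hM (hz k) x y).stronglyMeasurable
      exact (this.measurable.enorm.pow_const _).aemeasurable
    have hfin : ∫⁻ ω, ‖gE M lam E ε x y ω‖ₑ ^ (-(1/2 : ℝ)) ∂(PP d μ) ≠ ⊤ :=
      ne_top_of_le_ne_top (ENNReal.pow_ne_top (C5_ne_top d M lam K hB0)) (hneg x y)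
    filter_upwards [ae_lt_top' hm hfin] with ω hω h0
    rw [h0, enorm_zero, ENNReal.zero_rpow_of_neg (by norm_num)] at hω
    exact lt_irrefl _ hω
  refine ⟨fun x y => ?_, fun v x y ω => ?_, fun x y ω => ?_, ?_, hneg, fun x y => ?_,
    fun x u y => ?_⟩
  · have : StronglyMeasurable (gE M lam E ε x y) :=
      StronglyMeasurable.limUnder fun k => (measurable_gc hM (hz k) x y).stronglyMeasurable
    exact this.measurable
  · unfold gE
    congr 1
    funext k
    exact gc_tr hM (hz k) v ω x y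
  · unfold gE
    congr 1
    funext k
    exact green_symm _ (bdd_potc hM ω) (hz k) x y
  · filter_upwards [hconv] with ω hω x y
    have h1 : ∀ w, Tendsto (fun k => gc M lam ((E : ℂ) + ε k * Complex.I) ω w y) atTop
      (𝓝 (gE M lam E ε w y ω)) := fun w => gE_tendsto (hω w y)
    have h2 : Tendsto (fun k => hop (potc M lam ω) ((E : ℂ) + ε k * Complex.I)
        (fun w => gc M lam ((E : ℂ) + ε k * Complex.I) ω w y) x) atTop
        (𝓝 (hop (potc M lam ω) E (fun w => gE M lam E ε w y ω) x)) := by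
      unfold hop nsum
      refine ((tendsto_const_nhds.sub hlimz).mul (h1 x)).sub ?_
      exact tendsto_finsetSum _ fun j _ => (h1 _).add (h1 _)
    refine tendsto_nhds_unique h2 (tendsto_const_nhds.congr fun k => ?_)
    have := green_equation' (potc M lam ω) (bdd_potc hM ω) (hz k) x y
    unfold hop nsum gc
    rw [this]; ring
  · calc ∫⁻ ω, ‖gE M lam E ε x y ω‖ₑ ^ (1/4 : ℝ) ∂(PP d μ)
        = ∫⁻ ω, liminf (fun k => ‖gc M lam ((E : ℂ) + ε k * Complex.I) ω x y‖ₑ ^ (1/4 : ℝ))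
            atTop ∂(PP d μ) := by
          refine lintegral_congr_ae ?_
          filter_upwards [hconv] with ω hω
          have h1 := (gE_tendsto (hω x y)).enorm
          exact (((ENNReal.continuous_rpow_const (y := (1/4 : ℝ))).tendsto _).comp
            h1).liminf_eq.symm
      _ ≤ liminf (fun k => ∫⁻ ω, ‖gc M lam ((E : ℂ) + ε k * Complex.I) ω x y‖ₑ ^ (1/4 : ℝ)
            ∂(PP d μ)) atTop :=
          lintegral_liminf_le fun k => (measurable_gc hM (hz k) x y).enorm.pow_const _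
      _ ≤ liminf (fun _ => 2 * C2 M lam K) atTop :=
          Filter.liminf_le_liminf (Eventually.of_forall fun k => pos_moment hμ hlam (hz k) x y)
      _ = _ := by simp
  · calc ∫⁻ ω, ((‖gE M lam E ε x u ω‖ₑ * ‖gE M lam E ε u y ω‖ₑ) / ‖gE M lam E ε x y ω‖ₑ)
          ^ (1/4 : ℝ) ∂(PP d μ)
        = ∫⁻ ω, liminf (fun k => (ratio M lam ((E : ℂ) + ε k * Complex.I) x u y ω) ^ (1/4 : ℝ))
            atTop ∂(PP d μ) := by
          refine lintegral_congr_ae ?_
          filter_upwards [hconv, hne x y] with ω hω hωne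
          have h1 := (gE_tendsto (hω x u)).enorm
          have h2 := (gE_tendsto (hω u y)).enorm
          have h3 := (gE_tendsto (hω x y)).enorm
          have h4 := ENNReal.Tendsto.mul h1 (Or.inr enorm_ne_top) h2 (Or.inr enorm_ne_top)
          have h5 := ENNReal.Tendsto.div h4 (Or.inr (by simpa using hωne)) h3 (Or.inr (ENNReal.mul_ne_top enorm_ne_top enorm_ne_top))
          exact (((ENNReal.continuous_rpow_const (y := (1/4 : ℝ))).tendsto _).comp
            h5).liminf_eq.symm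
      _ ≤ liminf (fun k => ∫⁻ ω, (ratio M lam ((E : ℂ) + ε k * Complex.I) x u y ω) ^ (1/4 : ℝ)
            ∂(PP d μ)) atTop :=
          lintegral_liminf_le fun k => (measurable_ratio hM (hz k) x u y).pow_const _
      _ ≤ liminf (fun _ => C2 M lam K) atTop :=
          Filter.liminf_le_liminf (Eventually.of_forall fun k => Anderson.quasi hμ hlam (hz k) x u y)
      _ = _ := by simp

section
variable {z : ℂ} {B : ℝ} {g : Site d → Site d → (Site d → ℝ) → ℂ}

namespace Proc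

lemma ae_ne_zero (hp : Proc μ M lam K z B g) (hB0 : 0 ≤ B) (x y : Site d) :
    ∀ᵐ ω ∂(PP d μ), g x y ω ≠ 0 := by
  have hfin : ∫⁻ ω, ‖g x y ω‖ₑ ^ (-(1/2 : ℝ)) ∂(PP d μ) ≠ ⊤ :=
    ne_top_of_le_ne_top (ENNReal.pow_ne_top (C5_ne_top d M lam K hB0)) (hp.neg x y)
  filter_upwards [ae_lt_top' ((hp.meas x y).enorm.pow_const _).aemeasurable hfin] with ω hω h0
  rw [h0, enorm_zero, ENNReal.zero_rpow_of_neg (by norm_num)] at hω
  exact lt_irrefl _ hω

lemma abs_log_le {t : ℝ} (ht : 0 ≤ t) :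
    ENNReal.ofReal |Real.log t| ≤ 4 * ENNReal.ofReal t ^ (1/4 : ℝ)
      + 2 * ENNReal.ofReal t ^ (-(1/2 : ℝ)) := by
  rcases ht.eq_or_lt with h | h
  · rw [← h]; simp
  rw [ENNReal.ofReal_rpow_of_pos h, ENNReal.ofReal_rpow_of_pos h,
    show (4 : ℝ≥0∞) = ENNReal.ofReal 4 by norm_num, show (2 : ℝ≥0∞) = ENNReal.ofReal 2 by norm_num,
    ← ENNReal.ofReal_mul (by norm_num), ← ENNReal.ofReal_mul (by norm_num),
    ← ENNReal.ofReal_add (by positivity) (by positivity)]
  refine ENNReal.ofReal_le_ofReal ?_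
  have h1 := Real.log_le_rpow_div h.le (show (0 : ℝ) < 1/4 by norm_num)
  have h2 := Real.log_le_rpow_div (inv_pos.2 h).le (show (0 : ℝ) < 1/2 by norm_num)
  rw [Real.log_inv, Real.inv_rpow h.le, ← Real.rpow_neg h.le] at h2
  have p1 : 0 ≤ t ^ (1/4 : ℝ) := Real.rpow_nonneg h.le _
  have p2 : 0 ≤ t ^ (-(1/2 : ℝ)) := Real.rpow_nonneg h.le _
  rw [abs_le]
  constructor <;> linarith

lemma integrable_log (hp : Proc μ M lam K z B g) (hB0 : 0 ≤ B) (x y : Site d) :
    Integrable (fun ω => Real.log ‖g x y ω‖) (PP d μ) := by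
  refine ⟨(hp.meas x y).norm.log.aestronglyMeasurable, ?_⟩
  rw [hasFiniteIntegral_iff_norm]
  have hle : ∀ ω, ENNReal.ofReal ‖Real.log ‖g x y ω‖‖ ≤ 4 * ‖g x y ω‖ₑ ^ (1/4 : ℝ)
      + 2 * ‖g x y ω‖ₑ ^ (-(1/2 : ℝ)) := by
    intro ω
    have := abs_log_le (norm_nonneg (g x y ω))
    rwa [ofReal_norm] at this
  refine lt_of_le_of_lt (lintegral_mono hle) ?_
  have hm1 : Measurable fun ω => 4 * ‖g x y ω‖ₑ ^ (1/4 : ℝ) :=
    ((hp.meas x y).enorm.pow_const _).const_mul _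
  rw [lintegral_add_left hm1, lintegral_const_mul _ ((hp.meas x y).enorm.pow_const _),
    lintegral_const_mul _ ((hp.meas x y).enorm.pow_const _)]
  refine ENNReal.add_lt_top.2 ⟨?_, ?_⟩
  · refine ENNReal.mul_lt_top (by norm_num) (lt_of_le_of_lt (hp.pos x y) ?_)
    exact ENNReal.mul_lt_top (by norm_num) (C2_ne_top M K).lt_top
  · refine ENNReal.mul_lt_top (by norm_num) (lt_of_le_of_lt (hp.neg x y) ?_)
    exact (ENNReal.pow_ne_top (C5_ne_top d M lam K hB0)).lt_top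

/-- the ratio of the quasi triangle inequality -/
def T (g : Site d → Site d → (Site d → ℝ) → ℂ) (x u y : Site d) (ω : Site d → ℝ) : ℝ :=
  ‖g x u ω‖ * ‖g u y ω‖ / ‖g x y ω‖

lemma T_nonneg (x u y : Site d) (ω : Site d → ℝ) : 0 ≤ T g x u y ω := by
  unfold T; positivity

lemma meas_T (hp : Proc μ M lam K z B g) (x u y : Site d) : Measurable (T g x u y) :=
  ((hp.meas x u).norm.mul (hp.meas u y).norm).div (hp.meas x y).norm

lemma lintegral_T (hp : Proc μ M lam K z B g) (x u y : Site d) :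
    ∫⁻ ω, ENNReal.ofReal (T g x u y ω ^ (1/4 : ℝ)) ∂(PP d μ) ≤ C2 M lam K := by
  refine le_trans (lintegral_mono fun ω => ?_) (hp.quasi x u y)
  rw [← ENNReal.ofReal_rpow_of_nonneg (T_nonneg x u y ω) (by norm_num)]
  refine ENNReal.rpow_le_rpow ?_ (by norm_num)
  unfold T
  rcases eq_or_ne (g x y ω) 0 with h0 | h0
  · rw [h0, norm_zero, div_zero, ENNReal.ofReal_zero]; exact zero_le
  · rw [ENNReal.ofReal_div_of_pos (norm_pos_iff.2 h0), ENNReal.ofReal_mul (norm_nonneg _),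
      ofReal_norm, ofReal_norm, ofReal_norm]

lemma integrable_posLog_T (hp : Proc μ M lam K z B g) (x u y : Site d) :
    Integrable (fun ω => Real.posLog (T g x u y ω)) (PP d μ) ∧
      ∫ ω, Real.posLog (T g x u y ω) ∂(PP d μ) ≤ 4 * (C2 M lam K).toReal := by
  have hint : Integrable (fun ω => T g x u y ω ^ (1/4 : ℝ)) (PP d μ) := by
    refine ⟨((hp.meas_T x u y).pow_const _).aestronglyMeasurable, ?_⟩
    rw [hasFiniteIntegral_iff_ofReal
      (Eventually.of_forall fun ω => Real.rpow_nonneg (T_nonneg x u y ω) _)]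
    exact lt_of_le_of_lt (hp.lintegral_T x u y) (C2_ne_top M K).lt_top
  have hmom : ∫ ω, T g x u y ω ^ (1/4 : ℝ) ∂(PP d μ) ≤ (C2 M lam K).toReal := by
    rw [integral_eq_lintegral_of_nonneg_ae
      (Eventually.of_forall fun ω => Real.rpow_nonneg (T_nonneg x u y ω) _)
      ((hp.meas_T x u y).pow_const _).aestronglyMeasurable]
    exact ENNReal.toReal_mono (C2_ne_top M K) (hp.lintegral_T x u y)
  have hpt : ∀ ω, Real.posLog (T g x u y ω) ≤ 4 * T g x u y ω ^ (1/4 : ℝ) := by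
    intro ω
    have h0 := T_nonneg (g := g) x u y ω
    rw [Real.posLog_def]
    refine max_le (by positivity) ?_
    have := Real.log_le_rpow_div h0 (show (0 : ℝ) < 1/4 by norm_num)
    linarith
  have hi : Integrable (fun ω => Real.posLog (T g x u y ω)) (PP d μ) := by
    refine (hint.const_mul 4).mono' ?_ (Eventually.of_forall fun ω => ?_)
    · exact (Real.continuous_posLog.measurable.comp (hp.meas_T x u y)).aestronglyMeasurable
    · rw [Real.norm_of_nonneg Real.posLog_nonneg]; exact hpt ω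
  refine ⟨hi, ?_⟩
  calc _ ≤ ∫ ω, 4 * T g x u y ω ^ (1/4 : ℝ) ∂(PP d μ) := integral_mono hi (hint.const_mul 4) hpt
    _ ≤ _ := by rw [integral_const_mul]; gcongr

lemma ae_log (hp : Proc μ M lam K z B g) (hB0 : 0 ≤ B) (x u y : Site d) :
    ∀ᵐ ω ∂(PP d μ), -Real.log ‖g x y ω‖ ≤ -Real.log ‖g x u ω‖ + -Real.log ‖g u y ω‖
      + Real.posLog (T g x u y ω) := by
  filter_upwards [hp.ae_ne_zero hB0 x u, hp.ae_ne_zero hB0 u y, hp.ae_ne_zero hB0 x y]
    with ω h1 h2 h3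
  have e : Real.log (T g x u y ω) = Real.log ‖g x u ω‖ + Real.log ‖g u y ω‖ - Real.log ‖g x y ω‖ := by
    unfold T
    rw [Real.log_div (mul_ne_zero (norm_ne_zero_iff.2 h1) (norm_ne_zero_iff.2 h2))
      (norm_ne_zero_iff.2 h3), Real.log_mul (norm_ne_zero_iff.2 h1) (norm_ne_zero_iff.2 h2)]
  have h4 : Real.log (T g x u y ω) ≤ Real.posLog (T g x u y ω) := by
    rw [Real.posLog_def]; exact le_max_right _ _
  linarith

/-- minus the expected logarithm -/
def en (μ : Measure ℝ) [IsProbabilityMeasure μ] (g : Site d → Site d → (Site d → ℝ) → ℂ)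
    (v : Site d) : ℝ := ∫ ω, -Real.log ‖g v 0 ω‖ ∂(PP d μ)

lemma integral_shift (hp : Proc μ M lam K z B g) (v w : Site d) :
    ∫ ω, -Real.log ‖g (v + w) w ω‖ ∂(PP d μ) = en μ g v := by
  have h := integral_tr (μ := μ) (f := fun ω => -Real.log ‖g v 0 ω‖)
    (hp.meas v 0).norm.log.neg.aestronglyMeasurable w
  rw [en, ← h]
  refine integral_congr_ae (Eventually.of_forall fun ω => ?_)
  simp only
  rw [hp.tr, zero_add]

lemma en_add_le (hp : Proc μ M lam K z B g) (hB0 : 0 ≤ B) (v w : Site d) :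
    en μ g (v + w) ≤ en μ g v + en μ g w + 4 * (C2 M lam K).toReal := by
  have h1 := hp.integrable_log hB0 (v + w) w
  have h2 := hp.integrable_log hB0 w 0
  have h3 := hp.integrable_posLog_T (v + w) w 0
  have e1 := hp.integral_shift v w
  rw [← e1]
  unfold en
  calc ∫ ω, -Real.log ‖g (v + w) 0 ω‖ ∂(PP d μ)
      ≤ ∫ ω, (-Real.log ‖g (v + w) w ω‖ + -Real.log ‖g w 0 ω‖
        + Real.posLog (T g (v + w) w 0 ω)) ∂(PP d μ) :=
        integral_mono_ae (hp.integrable_log hB0 _ _).neg ((h1.neg.add h2.neg).add h3.1)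
          (hp.ae_log hB0 _ _ _)
    _ = ∫ ω, -Real.log ‖g (v + w) w ω‖ ∂(PP d μ) + ∫ ω, -Real.log ‖g w 0 ω‖ ∂(PP d μ)
        + ∫ ω, Real.posLog (T g (v + w) w 0 ω) ∂(PP d μ) := by
        have i1 : Integrable (fun ω => -Real.log ‖g (v + w) w ω‖ + -Real.log ‖g w 0 ω‖) (PP d μ) :=
          h1.neg.add h2.neg
        have i2 : Integrable (fun ω => -Real.log ‖g (v + w) w ω‖) (PP d μ) := h1.neg
        have i3 : Integrable (fun ω => -Real.log ‖g w 0 ω‖) (PP d μ) := h2.neg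
        rw [integral_add i1 h3.1, integral_add i2 i3]
    _ ≤ _ := by linarith [h3.2]

/-- block decomposition -/
lemma block (hp : Proc μ M lam K z B g) (hB0 : 0 ≤ B) (w : Site d) (N : ℕ) :
    ∃ W : (Site d → ℝ) → ℝ, Integrable W (PP d μ) ∧ (∀ ω, 0 ≤ W ω) ∧
      ∫ ω, W ω ∂(PP d μ) ≤ N * (4 * (C2 M lam K).toReal) ∧
      ∀ᵐ ω ∂(PP d μ), -Real.log ‖g ((N + 1) • w) 0 ω‖
        ≤ ∑ j ∈ Finset.range (N + 1), -Real.log ‖g w 0 (Anderson.tr (j • w) ω)‖ + W ω := by
  induction N with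
  | zero =>
    refine ⟨fun _ => 0, integrable_zero _ _ _, fun _ => le_rfl, by simp, ?_⟩
    refine Eventually.of_forall fun ω => ?_
    have : Anderson.tr (0 : Site d) ω = ω := by funext x; simp [Anderson.tr]
    simp [this]
  | succ N ih =>
    obtain ⟨W, hW1, hW2, hW3, hW4⟩ := ih
    have h3 := hp.integrable_posLog_T ((N + 1 + 1) • w) ((N + 1) • w) 0
    refine ⟨fun ω => W ω + Real.posLog (T g ((N + 1 + 1) • w) ((N + 1) • w) 0 ω), hW1.add h3.1,
      fun ω => add_nonneg (hW2 _) Real.posLog_nonneg, ?_, ?_⟩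
    · rw [integral_add hW1 h3.1]
      push_cast
      linarith [h3.2]
    · filter_upwards [hW4, hp.ae_log hB0 ((N + 1 + 1) • w) ((N + 1) • w) 0] with ω w1 w2
      have e1 : g ((N + 1 + 1) • w) ((N + 1) • w) ω = g w 0 (Anderson.tr ((N + 1) • w) ω) := by
        rw [hp.tr, zero_add]
        congr 1
        rw [add_smul (N + 1) 1, one_smul, add_comm]
      rw [e1] at w2
      rw [Finset.sum_range_succ]
      linarith

end Proc

end

end Pool.Agent.Helper3.Crit
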