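import Pool.Agent.Helper3.Crit.Proc

/-! Lower bound in probability for the decay rate of the process. -/

open MeasureTheory Set Filter Topology
open scoped ENNReal NNReal

noncomputable section

namespace Pool.Agent.Helper3.Crit

open Pool.Agent.Helper3.Anderson

variable {d : ℕ} {μ : Measure ℝ} [IsProbabilityMeasure μ] {M lam : ℝ} {K : ℝ≥0}

lemma lgA_le {t A : ℝ} (ht : 0 < t) :
    Real.log (max t (Real.exp (-A))) ≤ Real.log t + 2 * Real.exp (-A / 2) * t ^ (-(1/2 : ℝ)) := by
  have h0 : 0 ≤ 2 * Real.exp (-A / 2) * t ^ (-(1/2 : ℝ)) := by positivity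
  rcases le_total (Real.exp (-A)) t with h | h
  · rw [max_eq_left h]; linarith
  · rw [max_eq_right h, Real.log_exp]
    have h1 := Real.log_le_rpow_div (x := Real.exp (-A) / t) (ε := 1/2) (by positivity) (by norm_num)
    rw [Real.log_div (Real.exp_pos _).ne' ht.ne', Real.log_exp, Real.div_rpow (Real.exp_pos _).le ht.le,
      ← Real.exp_mul] at h1
    have h2 : Real.exp (-A * (1/2)) / t ^ (1/2 : ℝ) / (1/2)
        = 2 * Real.exp (-A / 2) * t ^ (-(1/2 : ℝ)) := by
      rw [Real.rpow_neg ht.le, show -A * (1/2) = -A / 2 by ring]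
      field_simp
    rw [h2] at h1
    linarith

/-- lower bound for minus the expected logarithm in the limit -/
theorem en_gE_lower (hμ : GoodLaw μ M K) (hlam : 0 < lam) {E B : ℝ} {ε : ℕ → ℝ}
    (hε : ∀ k, 0 < ε k) (hε1 : ∀ k, ε k ≤ 1) (hε0 : Tendsto ε atTop (𝓝 0))
    (hB : 2 * d + (|E| + 1) + 2 ≤ B)
    (hconv : ∀ᵐ ω ∂(PP d μ), ∀ x y : Site d,
      ∃ l, Tendsto (fun k => gc M lam ((E : ℂ) + ε k * Complex.I) ω x y) atTop (𝓝 l))
    (v : Site d) {c : ℝ} (hfreq : ∃ᶠ k in atTop, uu μ M lam ((E : ℂ) + ε k * Complex.I) v ≤ -c) :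
    c ≤ Proc.en μ (gE (d := d) M lam E ε) v := by
  have hM : 0 ≤ M := by linarith [hμ.one_le]
  have hz : ∀ k, 0 < ((E : ℂ) + ε k * Complex.I).im := fun k => by simpa using hε k
  have hzB : ∀ k, 2 * d + ‖((E : ℂ) + ε k * Complex.I)‖ + 2 ≤ B := by
    intro k
    have : ‖((E : ℂ) + ε k * Complex.I)‖ ≤ |E| + 1 := by
      refine (norm_add_le _ _).trans (add_le_add ?_ ?_)
      · rw [Complex.norm_real, Real.norm_eq_abs]
      · rw [norm_mul, Complex.norm_I, mul_one, Complex.norm_real, Real.norm_eq_abs,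
          abs_of_pos (hε k)]
        exact hε1 k
    linarith
  have hB0 : 0 ≤ B := by have := abs_nonneg E; linarith [Nat.cast_nonneg (α := ℝ) d]
  have hp := proc_gE (d := d) (K := K) hμ hlam hε hε1 hε0 hB hconv
  set g := gE (d := d) M lam E ε with hg
  set C : ℝ≥0∞ := C5 d M lam K B ^ (l1 (0 - v) + 1) with hC
  have hCt : C ≠ ⊤ := ENNReal.pow_ne_top (C5_ne_top d M lam K hB0)
  -- for each A
  have key : ∀ A : ℝ, |c| ≤ A → -Proc.en μ g v ≤ -c + 2 * Real.exp (-A / 2) * C.toReal := by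
    intro A hA
    have hnonneg : ∀ t : ℝ, 0 ≤ Real.log (max t (Real.exp (-A))) + A := by
      intro t
      have h1 : Real.exp (-A) ≤ max t (Real.exp (-A)) := le_max_right _ _
      have h2 := Real.log_le_log (Real.exp_pos _) h1
      rw [Real.log_exp] at h2
      linarith
    -- expectations for finite k
    have hk : ∀ k, uu μ M lam ((E : ℂ) + ε k * Complex.I) v ≤ -c →
        ∫⁻ ω, ENNReal.ofReal (Real.log (max ‖gc M lam ((E : ℂ) + ε k * Complex.I) ω v 0‖
          (Real.exp (-A))) + A) ∂(PP d μ)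
        ≤ ENNReal.ofReal (-c + 2 * Real.exp (-A / 2) * C.toReal + A) := by
      intro k hk
      have hint := Anderson.integrable_log (K := K) hμ hlam (hz k) v 0
      have hneg := neg_moment hμ hlam (hz k) (hzB k) v 0
      set G : (Site d → ℝ) → ℂ := fun ω => gc M lam ((E : ℂ) + ε k * Complex.I) ω v 0 with hG
      have hGm : Measurable G := measurable_gc hM (hz k) v 0
      have hGne : ∀ᵐ ω ∂(PP d μ), G ω ≠ 0 := by
        have := (good_all (μ := μ) (K := K) hμ hlam (hz k) v 0).1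
        exact this
      have hnegi : Integrable (fun ω => ‖G ω‖ ^ (-(1/2 : ℝ))) (PP d μ) := by
        refine ⟨(hGm.norm.pow_const _).aestronglyMeasurable, ?_⟩
        rw [hasFiniteIntegral_iff_ofReal (Eventually.of_forall fun ω =>
          Real.rpow_nonneg (norm_nonneg _) _)]
        refine lt_of_le_of_lt (le_trans (le_of_eq ?_) hneg) (lt_top_iff_ne_top.2 hCt)
        refine lintegral_congr_ae ?_
        filter_upwards [hGne] with ω hω
        rw [← ENNReal.ofReal_rpow_of_pos (norm_pos_iff.2 hω), ofReal_norm]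
      have hnegv : ∫ ω, ‖G ω‖ ^ (-(1/2 : ℝ)) ∂(PP d μ) ≤ C.toReal := by
        rw [integral_eq_lintegral_of_nonneg_ae (Eventually.of_forall fun ω =>
          Real.rpow_nonneg (norm_nonneg _) _) (hGm.norm.pow_const _).aestronglyMeasurable]
        refine ENNReal.toReal_mono hCt (le_trans (le_of_eq ?_) hneg)
        refine lintegral_congr_ae ?_
        filter_upwards [hGne] with ω hω
        rw [← ENNReal.ofReal_rpow_of_pos (norm_pos_iff.2 hω), ofReal_norm]
      have hi1 : Integrable (fun ω => Real.log ‖G ω‖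
          + 2 * Real.exp (-A / 2) * ‖G ω‖ ^ (-(1/2 : ℝ)) + A) (PP d μ) :=
        (hint.add (hnegi.const_mul _)).add (integrable_const _)
      have hae : ∀ᵐ ω ∂(PP d μ), Real.log (max ‖G ω‖ (Real.exp (-A))) + A
          ≤ Real.log ‖G ω‖ + 2 * Real.exp (-A / 2) * ‖G ω‖ ^ (-(1/2 : ℝ)) + A := by
        filter_upwards [hGne] with ω hω
        have := lgA_le (A := A) (norm_pos_iff.2 hω)
        linarith
      calc ∫⁻ ω, ENNReal.ofReal (Real.log (max ‖G ω‖ (Real.exp (-A))) + A) ∂(PP d μ)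
          ≤ ∫⁻ ω, ENNReal.ofReal (Real.log ‖G ω‖
              + 2 * Real.exp (-A / 2) * ‖G ω‖ ^ (-(1/2 : ℝ)) + A) ∂(PP d μ) := by
            refine lintegral_mono_ae ?_
            filter_upwards [hae] with ω hω using ENNReal.ofReal_le_ofReal hω
        _ = ENNReal.ofReal (∫ ω, (Real.log ‖G ω‖
              + 2 * Real.exp (-A / 2) * ‖G ω‖ ^ (-(1/2 : ℝ)) + A) ∂(PP d μ)) := by
            rw [ofReal_integral_eq_lintegral_ofReal hi1]
            filter_upwards [hae] with ω hω using (hnonneg _).trans hω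
        _ ≤ _ := by
            refine ENNReal.ofReal_le_ofReal ?_
            have i1 : Integrable (fun ω => Real.log ‖G ω‖
                + 2 * Real.exp (-A / 2) * ‖G ω‖ ^ (-(1/2 : ℝ))) (PP d μ) :=
              hint.add (hnegi.const_mul _)
            rw [integral_add i1 (integrable_const _), integral_add hint (hnegi.const_mul _),
              integral_const_mul, integral_const, probReal_univ, one_smul]
            have h5 : ∫ ω, Real.log ‖G ω‖ ∂(PP d μ) ≤ -c := hk
            have h6 : 2 * Real.exp (-A / 2) * ∫ ω, ‖G ω‖ ^ (-(1/2 : ℝ)) ∂(PP d μ)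
                ≤ 2 * Real.exp (-A / 2) * C.toReal :=
              mul_le_mul_of_nonneg_left hnegv (by positivity)
            linarith
    -- the limit
    have hlim : ∫⁻ ω, ENNReal.ofReal (Real.log (max ‖g v 0 ω‖ (Real.exp (-A))) + A) ∂(PP d μ)
        ≤ ENNReal.ofReal (-c + 2 * Real.exp (-A / 2) * C.toReal + A) := by
      calc ∫⁻ ω, ENNReal.ofReal (Real.log (max ‖g v 0 ω‖ (Real.exp (-A))) + A) ∂(PP d μ)
          = ∫⁻ ω, liminf (fun k => ENNReal.ofReal (Real.log (max
              ‖gc M lam ((E : ℂ) + ε k * Complex.I) ω v 0‖ (Real.exp (-A))) + A)) atTop ∂(PP d μ) := by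
            refine lintegral_congr_ae ?_
            filter_upwards [hconv] with ω hω
            have h1 := (gE_tendsto (hω v 0)).norm
            have h2 : Tendsto (fun k => max ‖gc M lam ((E : ℂ) + ε k * Complex.I) ω v 0‖
                (Real.exp (-A))) atTop (𝓝 (max ‖g v 0 ω‖ (Real.exp (-A)))) :=
              h1.max tendsto_const_nhds
            have h3 : max ‖g v 0 ω‖ (Real.exp (-A)) ≠ 0 :=
              (lt_of_lt_of_le (Real.exp_pos _) (le_max_right _ _)).ne'
            have h4 := (h2.log h3).add_const A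
            exact ((ENNReal.continuous_ofReal.tendsto _).comp h4).liminf_eq.symm
        _ ≤ liminf (fun k => ∫⁻ ω, ENNReal.ofReal (Real.log (max
              ‖gc M lam ((E : ℂ) + ε k * Complex.I) ω v 0‖ (Real.exp (-A))) + A) ∂(PP d μ)) atTop :=
            lintegral_liminf_le fun k =>
              (((measurable_gc hM (hz k) v 0).norm.max measurable_const).log.add_const A).ennreal_ofReal
        _ ≤ _ := Filter.liminf_le_of_frequently_le (hfreq.mono fun k h => hk k h) (by isBoundedDefault)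
    have hgi := hp.integrable_log hB0 v 0
    have hub : ∀ ω, Real.log (max ‖g v 0 ω‖ (Real.exp (-A))) + A
        ≤ |Real.log ‖g v 0 ω‖| + A := by
      intro ω
      rcases le_total (Real.exp (-A)) ‖g v 0 ω‖ with h | h
      · rw [max_eq_left h]; linarith [le_abs_self (Real.log ‖g v 0 ω‖)]
      · rw [max_eq_right h, Real.log_exp]
        linarith [abs_nonneg (Real.log ‖g v 0 ω‖), (abs_nonneg c).trans hA]
    have hi : Integrable (fun ω => Real.log (max ‖g v 0 ω‖ (Real.exp (-A))) + A) (PP d μ) := by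
      refine Integrable.mono' (hgi.abs.add (integrable_const A)) ?_ (Eventually.of_forall fun ω => ?_)
      · exact (((hp.meas v 0).norm.max measurable_const).log.add_const A).aestronglyMeasurable
      · rw [Real.norm_of_nonneg (hnonneg _)]; exact hub ω
    rw [← ofReal_integral_eq_lintegral_ofReal hi (Eventually.of_forall fun ω => hnonneg _)] at hlim
    have hq : 0 ≤ -c + 2 * Real.exp (-A / 2) * C.toReal + A := by
      have h1 : 0 ≤ 2 * Real.exp (-A / 2) * C.toReal := by positivity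
      have h2 := le_abs_self c
      linarith
    have h7 : ∫ ω, (Real.log (max ‖g v 0 ω‖ (Real.exp (-A))) + A) ∂(PP d μ)
        ≤ -c + 2 * Real.exp (-A / 2) * C.toReal + A := (ENNReal.ofReal_le_ofReal_iff hq).1 hlim
    have hle : ∀ᵐ ω ∂(PP d μ), Real.log ‖g v 0 ω‖ + A
        ≤ Real.log (max ‖g v 0 ω‖ (Real.exp (-A))) + A := by
      filter_upwards [hp.ae_ne_zero hB0 v 0] with ω hω
      have := Real.log_le_log (norm_pos_iff.2 hω) (le_max_left ‖g v 0 ω‖ (Real.exp (-A)))
      linarith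
    have h8 : ∫ ω, (Real.log ‖g v 0 ω‖ + A) ∂(PP d μ)
        ≤ ∫ ω, (Real.log (max ‖g v 0 ω‖ (Real.exp (-A))) + A) ∂(PP d μ) :=
      integral_mono_ae (hgi.add (integrable_const A)) hi hle
    rw [integral_add hgi (integrable_const A), integral_const, probReal_univ, one_smul] at h8
    have h9 : Proc.en μ g v = - ∫ ω, Real.log ‖g v 0 ω‖ ∂(PP d μ) := by
      rw [Proc.en, integral_neg]
    rw [h9]
    linarith
  -- A to infinity
  have hlimA : Tendsto (fun A : ℝ => -c + 2 * Real.exp (-A / 2) * C.toReal) atTop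
      (𝓝 (-c + 2 * 0 * C.toReal)) := by
    have h1 : Tendsto (fun A : ℝ => Real.exp (-A / 2)) atTop (𝓝 0) := by
      refine Real.tendsto_exp_atBot.comp ?_
      have : Tendsto (fun A : ℝ => A / 2) atTop atTop := tendsto_id.atTop_div_const (by norm_num)
      refine (tendsto_neg_atTop_atBot.comp this).congr fun A => ?_
      simp only [Function.comp]; ring
    exact ((h1.const_mul 2).mul_const _).const_add _
  have hfin := ge_of_tendsto hlimA (by
    filter_upwards [eventually_ge_atTop |c|] with A hA using key A hA)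
  simp only [mul_zero, zero_mul, add_zero] at hfin
  linarith

namespace Proc

variable {z : ℂ} {B : ℝ} {g : Site d → Site d → (Site d → ℝ) → ℂ}

/-- **Lower bound in probability for the decay in the direction `v`.** -/
theorem lln (hp : Proc μ M lam K z B g) (hB0 : 0 ≤ B) {v : Site d} (hv : v ≠ 0) {c Cd : ℝ}
    (hc : ∀ n : ℕ, n * c - Cd ≤ en μ g (n • v)) {δ a0 : ℝ} (hδ : 0 < δ) (ha0 : 0 < a0) :
    ∃ n1 : ℕ, ∀ n0 ≥ n1, ∀ᶠ N : ℕ in atTop,
      (PP d μ).real {ω | Real.exp (-(((N + 1 : ℕ) * n0) * (c - δ))) ≤ ‖g (((N + 1) * n0) • v) 0 ω‖}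
        ≤ a0 := by
  set Cq : ℝ := 4 * (C2 M lam K).toReal with hCq
  have hCq0 : 0 ≤ Cq := by positivity
  set u : ℕ → ℝ := fun n => en μ g (n • v) + Cq with hu
  have hsub : Subadditive u := by
    intro m n
    simp only [hu]
    have := hp.en_add_le hB0 (m • v) (n • v)
    rw [← add_smul] at this
    linarith
  have hbdd : BddBelow (range fun n : ℕ => u n / n) := by
    refine ⟨-|c| - |Cd|, ?_⟩
    rintro _ ⟨n, rfl⟩
    rcases Nat.eq_zero_or_pos n with rfl | hn
    · simp; linarith [abs_nonneg c, abs_nonneg Cd]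
    · have hn' : (1 : ℝ) ≤ n := by exact_mod_cast hn
      simp only
      rw [le_div_iff₀ (by linarith)]
      have h1 := hc n
      have h2 := neg_abs_le c
      have h3 := le_abs_self Cd
      simp only [hu]
      have h4 : (n : ℝ) * (-|c|) ≤ n * c := mul_le_mul_of_nonneg_left h2 (by linarith)
      have h5 : |Cd| * 1 ≤ |Cd| * n := mul_le_mul_of_nonneg_left hn' (abs_nonneg Cd)
      linarith
  set a := hsub.lim with ha
  have hale : ∀ n : ℕ, n ≠ 0 → a ≤ u n / n := fun n hn => hsub.lim_le_div hbdd hn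
  have hca : c ≤ a := by
    have h1 : Tendsto (fun n : ℕ => c - Cd / n + Cq / n) atTop (𝓝 (c - 0 + 0)) :=
      ((tendsto_const_div_atTop_nhds_zero_nat Cd).const_sub c).add
        (tendsto_const_div_atTop_nhds_zero_nat Cq)
    have h2 := hsub.tendsto_lim hbdd
    simp only [sub_zero, add_zero] at h1
    refine le_of_tendsto_of_tendsto h1 h2 ?_
    filter_upwards [eventually_gt_atTop 0] with n hn
    have hn' : (0 : ℝ) < n := by exact_mod_cast hn
    have := hc n
    simp only [hu]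
    have e : c - Cd / n + Cq / n = (n * c - Cd + Cq) / n := by field_simp
    rw [e]
    gcongr
  -- parameters
  set δ1 : ℝ := δ * min a0 1 / 20 with hδ1
  have hmin0 : 0 < min a0 1 := lt_min ha0 one_pos
  have hδ1p : 0 < δ1 := by positivity
  have hδ1le : δ1 ≤ δ / 20 := by
    rw [hδ1]; have := min_le_right a0 1; gcongr; exact mul_le_of_le_one_right hδ.le this
  have ht := hsub.tendsto_lim hbdd
  have ev1 : ∀ᶠ n : ℕ in atTop, u n / n < a + δ1 :=
    (tendsto_order.1 ht).2 _ (by linarith)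
  have ev2 : ∀ᶠ n : ℕ in atTop, Cq / n < δ1 :=
    (tendsto_order.1 (tendsto_const_div_atTop_nhds_zero_nat Cq)).2 _ hδ1p
  obtain ⟨n1, hn1⟩ := eventually_atTop.1 (ev1.and (ev2.and (eventually_gt_atTop 0)))
  refine ⟨n1, fun n0 hn0 => ?_⟩
  obtain ⟨h1, h2, h3⟩ := hn1 n0 hn0
  have hn0' : (0 : ℝ) < n0 := by exact_mod_cast h3
  have hw : n0 • v ≠ 0 := smul_ne_zero h3.ne' hv
  set f : (Site d → ℝ) → ℝ := fun ω => -Real.log ‖g (n0 • v) 0 ω‖ with hf
  have hfi : Integrable f (PP d μ) := (hp.integrable_log hB0 _ _).neg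
  have hlln := Anderson.lln hfi (fun ε hε => approx_local hfi hε) hw
  have hlln' := hlln.comp (tendsto_add_atTop_nat 1)
  have ev3 : ∀ᶠ N : ℕ in atTop, ∫ ω, |(∑ j ∈ Finset.range (N + 1), f (Anderson.tr (j • (n0 • v)) ω))
      / ((N + 1 : ℕ) : ℝ) - ∫ ω', f ω' ∂(PP d μ)| ∂(PP d μ) < n0 * δ1 :=
    (tendsto_order.1 hlln').2 _ (by positivity)
  filter_upwards [ev3] with N hN
  set q : ℝ := ((N + 1 : ℕ) : ℝ) with hq
  have hq1 : 1 ≤ q := by rw [hq]; push_cast; linarith [Nat.cast_nonneg (α := ℝ) N]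
  have hq0 : 0 < q := by linarith
  obtain ⟨W, hW1, hW2, hW3, hW4⟩ := hp.block hB0 (n0 • v) N
  set S : (Site d → ℝ) → ℝ := fun ω => ∑ j ∈ Finset.range (N + 1), f (Anderson.tr (j • (n0 • v)) ω)
    with hS
  have hfj : ∀ j : ℕ, Integrable (fun ω => f (Anderson.tr (j • (n0 • v)) ω)) (PP d μ) := fun j =>
    (measurePreserving_tr (μ := μ) (j • (n0 • v))).integrable_comp_of_integrable hfi
  have hSi : Integrable S (PP d μ) := integrable_finsetSum _ fun j _ => hfj j
  have hSv : ∫ ω, S ω ∂(PP d μ) = q * en μ g (n0 • v) := by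
    simp only [hS]
    rw [integral_finsetSum _ fun j _ => hfj j]
    have : ∀ j : ℕ, ∫ ω, f (Anderson.tr (j • (n0 • v)) ω) ∂(PP d μ) = en μ g (n0 • v) := fun j =>
      integral_tr hfi.aestronglyMeasurable _
    rw [Finset.sum_congr rfl fun j _ => this j, Finset.sum_const, Finset.card_range, nsmul_eq_mul]
  set v' : Site d := ((N + 1) * n0) • v with hv'
  have hvv : (N + 1) • (n0 • v) = v' := by rw [hv', mul_smul]
  rw [hvv] at hW4
  set X : (Site d → ℝ) → ℝ := fun ω => -Real.log ‖g v' 0 ω‖ with hX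
  have hXi : Integrable X (PP d μ) := (hp.integrable_log hB0 _ _).neg
  have hXv : q * n0 * a - Cq ≤ ∫ ω, X ω ∂(PP d μ) := by
    have h4 := hale ((N + 1) * n0) (by positivity)
    rw [le_div_iff₀ (by positivity)] at h4
    simp only [hu] at h4
    have e : (((N + 1) * n0 : ℕ) : ℝ) = q * n0 := by rw [hq]; push_cast; ring
    rw [e] at h4
    have e2 : ∫ ω, X ω ∂(PP d μ) = en μ g v' := rfl
    rw [e2, hv']
    linarith
  -- Y = S + W - X ≥ 0
  have hYi : Integrable (fun ω => S ω + W ω - X ω) (PP d μ) := (hSi.add hW1).sub hXi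
  have hY0 : 0 ≤ᵐ[PP d μ] fun ω => S ω + W ω - X ω := by
    filter_upwards [hW4] with ω hω
    simp only [Pi.zero_apply, hS, hX, hf]
    linarith
  have hYv : ∫ ω, (S ω + W ω - X ω) ∂(PP d μ) ≤ 3 * (q * n0) * δ1 := by
    have i1 : Integrable (fun ω => S ω + W ω) (PP d μ) := hSi.add hW1
    rw [integral_sub i1 hXi, integral_add hSi hW1, hSv]
    have h5 : u n0 / n0 < a + δ1 := h1
    rw [div_lt_iff₀ hn0'] at h5
    simp only [hu] at h5
    rw [div_lt_iff₀ hn0'] at h2
    have e3 : (N : ℝ) ≤ q := by rw [hq]; push_cast; linarith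
    have h6 : (N : ℝ) * Cq ≤ q * Cq := by gcongr
    have h7 : q * en μ g (n0 • v) ≤ q * ((a + δ1) * n0 - Cq) := by gcongr; linarith
    have h8 : Cq ≤ q * Cq := by
      have := mul_le_mul_of_nonneg_right hq1 hCq0
      linarith
    have h9 : q * Cq ≤ q * (δ1 * n0) := by gcongr
    linarith
  -- Markov
  have mk1 := mul_meas_ge_le_integral_of_nonneg hY0 hYi (q * n0 * δ / 2)
  have hLi : Integrable (fun ω => |S ω / q - ∫ ω', f ω' ∂(PP d μ)|) (PP d μ) :=
    ((hSi.div_const q).sub (integrable_const _)).abs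
  have mk2 := mul_meas_ge_le_integral_of_nonneg (Eventually.of_forall fun ω => abs_nonneg _) hLi
    (n0 * δ / 4)
  have hsubset : {ω | Real.exp (-(q * n0 * (c - δ))) ≤ ‖g v' 0 ω‖}
      ⊆ {ω | q * n0 * δ / 2 ≤ S ω + W ω - X ω}
        ∪ {ω | n0 * δ / 4 ≤ |S ω / q - ∫ ω', f ω' ∂(PP d μ)|} := by
    intro ω hω
    by_contra hcon
    simp only [mem_union, mem_ofPred_eq, not_or, not_le] at hcon hω
    obtain ⟨c1, c2⟩ := hcon
    have hlog : -(q * n0 * (c - δ)) ≤ Real.log ‖g v' 0 ω‖ := by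
      have := Real.log_le_log (Real.exp_pos _) hω
      rwa [Real.log_exp] at this
    have hXω : X ω = -Real.log ‖g v' 0 ω‖ := rfl
    have hWω := hW2 ω
    rw [abs_lt] at c2
    have hfv : ∫ ω', f ω' ∂(PP d μ) = en μ g (n0 • v) := rfl
    have h4 := hale n0 h3.ne'
    rw [le_div_iff₀ hn0'] at h4
    simp only [hu] at h4
    rw [div_lt_iff₀ hn0'] at h2
    rw [hfv] at c2
    have h5 : en μ g (n0 • v) - n0 * δ / 4 < S ω / q := by linarith [c2.1]
    rw [lt_div_iff₀ hq0] at h5
    -- S > q (a n0 - Cq - n0 δ/4)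
    have h6 : q * (a * n0 - n0 * δ1 - n0 * δ / 4) ≤ (en μ g (n0 • v) - n0 * δ / 4) * q := by
      rw [mul_comm (en μ g (n0 • v) - n0 * δ / 4) q]
      gcongr
      linarith
    have h7 : X ω ≤ q * n0 * (c - δ) := by rw [hXω]; linarith
    have h8 : q * n0 * c ≤ q * n0 * a := by gcongr
    have h9 : q * n0 * δ1 ≤ q * n0 * (δ / 20) := by gcongr
    have h10 : 0 < q * n0 * δ := by positivity
    linarith
  have hfinal : (PP d μ).real {ω | Real.exp (-(q * n0 * (c - δ))) ≤ ‖g v' 0 ω‖}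
      ≤ (PP d μ).real {ω | q * n0 * δ / 2 ≤ S ω + W ω - X ω}
        + (PP d μ).real {ω | n0 * δ / 4 ≤ |S ω / q - ∫ ω', f ω' ∂(PP d μ)|} :=
    (measureReal_mono hsubset).trans (measureReal_union_le _ _)
  have b1 : (PP d μ).real {ω | q * n0 * δ / 2 ≤ S ω + W ω - X ω} ≤ 6 * δ1 / δ := by
    rw [le_div_iff₀ hδ]
    have h5 : q * n0 * δ / 2 * (PP d μ).real {ω | q * n0 * δ / 2 ≤ S ω + W ω - X ω}
        ≤ 3 * (q * n0) * δ1 := mk1.trans hYv
    have h6 : 0 < q * n0 := by positivity
    refine le_of_mul_le_mul_left (a := q * n0) ?_ h6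
    linarith
  have b2 : (PP d μ).real {ω | n0 * δ / 4 ≤ |S ω / q - ∫ ω', f ω' ∂(PP d μ)|} ≤ 4 * δ1 / δ := by
    rw [le_div_iff₀ hδ]
    have h5 : n0 * δ / 4 * (PP d μ).real {ω | n0 * δ / 4 ≤ |S ω / q - ∫ ω', f ω' ∂(PP d μ)|}
        ≤ n0 * δ1 := mk2.trans hN.le
    refine le_of_mul_le_mul_left (a := (n0 : ℝ)) ?_ hn0'
    linarith
  have b3 : 6 * δ1 / δ + 4 * δ1 / δ ≤ a0 := by
    rw [← add_div, div_le_iff₀ hδ, hδ1]
    have := min_le_left a0 1
    have h7 := mul_le_mul_of_nonneg_left this hδ.le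
    linarith
  linarith

end Proc

end Pool.Agent.Helper3.Crit
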