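import Pool.Agent.Helper3.Anderson.Quasi

/-! Abstract one-variable form of the quasi-triangle inequality. -/

open scoped ENNReal NNReal
open MeasureTheory Set

noncomputable section

namespace Pool.Agent.Helper3.Crit

open Pool.Agent.Helper3.Anderson

theorem quasi_abs {μ : Measure ℝ} [IsProbabilityMeasure μ] {M lam : ℝ} {K : ℝ≥0}
    (hμ : GoodLaw μ M K) (hlam : 0 < lam) {p q a τ : ℂ} {Gxu Guy Gxy : ℝ → ℂ}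
    (hne : ∀ t : ℝ, |t| ≤ M → 1 + (t : ℂ) * (lam * τ) ≠ 0)
    (h1 : ∀ t : ℝ, |t| ≤ M → Gxu t * (1 + (t : ℂ) * (lam * τ)) = p)
    (h2 : ∀ t : ℝ, |t| ≤ M → Guy t * (1 + (t : ℂ) * (lam * τ)) = q)
    (h3 : ∀ t : ℝ, |t| ≤ M → Gxy t * (1 + (t : ℂ) * (lam * τ))
      = a + (t : ℂ) * (lam * (a * τ - p * q))) :
    ∫⁻ t, ((‖Gxu t‖ₑ * ‖Guy t‖ₑ) / ‖Gxy t‖ₑ) ^ (1/4 : ℝ) ∂μ ≤ C2 M lam K := by
  have hM : 0 ≤ M := by linarith [hμ.one_le]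
  have hae : ∀ᵐ t ∂μ, |t| ≤ M := by
    have : ∀ᵐ t ∂μ, t ∈ Icc (-M) M := by rw [ae_iff]; exact hμ.supp
    filter_upwards [this] with t ht
    exact abs_le.2 ht
  set b : ℂ := lam * (a * τ - p * q) with hb
  set D : ℝ → ℂ := fun t => 1 + (t : ℂ) * (lam * τ) with hD
  have hstep : ∀ᵐ t ∂μ, ((‖Gxu t‖ₑ * ‖Guy t‖ₑ) / ‖Gxy t‖ₑ) ^ (1/4 : ℝ)
      = (‖p‖ₑ * ‖q‖ₑ) ^ (1/4 : ℝ)
        * (‖D t‖ₑ ^ (-(1/4) : ℝ) * ‖a + (t : ℂ) * b‖ₑ ^ (-(1/4) : ℝ)) := by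
    filter_upwards [hae] with t ht
    have hne : D t ≠ 0 := hne t ht
    have hDe : ‖D t‖ₑ ≠ 0 := by simpa using hne
    have hDt : ‖D t‖ₑ ≠ ⊤ := enorm_ne_top
    have g1 : ‖Gxu t‖ₑ = ‖p‖ₑ / ‖D t‖ₑ := by
      rw [ENNReal.eq_div_iff hDe hDt, mul_comm, ← enorm_mul]
      exact congrArg _ (h1 t ht)
    have g2 : ‖Guy t‖ₑ = ‖q‖ₑ / ‖D t‖ₑ := by
      rw [ENNReal.eq_div_iff hDe hDt, mul_comm, ← enorm_mul]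
      exact congrArg _ (h2 t ht)
    have g3 : ‖Gxy t‖ₑ = ‖a + (t : ℂ) * b‖ₑ / ‖D t‖ₑ := by
      rw [ENNReal.eq_div_iff hDe hDt, mul_comm, ← enorm_mul]
      exact congrArg _ (h3 t ht)
    have g4 : (‖Gxu t‖ₑ * ‖Guy t‖ₑ) / ‖Gxy t‖ₑ
        = (‖p‖ₑ * ‖q‖ₑ) / (‖D t‖ₑ * ‖a + (t : ℂ) * b‖ₑ) := by
      rw [g1, g2, g3, ← ennreal_ratio hDe hDt]
      congr 1
      rw [div_eq_mul_inv, div_eq_mul_inv, div_eq_mul_inv,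
        ENNReal.mul_inv (Or.inl hDe) (Or.inl hDt)]
      ring
    have g5 : ((‖D t‖ₑ * ‖a + (t : ℂ) * b‖ₑ) ^ (1/4 : ℝ))⁻¹
        = ‖D t‖ₑ ^ (-(1/4) : ℝ) * ‖a + (t : ℂ) * b‖ₑ ^ (-(1/4) : ℝ) := by
      rw [ENNReal.mul_rpow_of_nonneg _ _ (by norm_num : (0 : ℝ) ≤ 1/4),
        ENNReal.mul_inv (Or.inl ?_) (Or.inl ?_), ENNReal.rpow_neg, ENNReal.rpow_neg]
      · exact (ENNReal.rpow_pos (pos_iff_ne_zero.2 hDe) hDt).ne'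
      · exact ENNReal.rpow_ne_top_of_nonneg (by norm_num) hDt
    rw [g4, ENNReal.div_rpow_of_nonneg _ _ (by norm_num), ← g5]
    rfl
  have hmD : Measurable fun t : ℝ => ‖D t‖ₑ := by
    simp only [hD]; fun_prop
  have hmB : Measurable fun t : ℝ => ‖a + (t : ℂ) * b‖ₑ := by fun_prop
  have hcs : ∫⁻ t, ‖D t‖ₑ ^ (-(1/4) : ℝ) * ‖a + (t : ℂ) * b‖ₑ ^ (-(1/4) : ℝ) ∂μ
      ≤ (∫⁻ t, ‖D t‖ₑ ^ (-(1/2) : ℝ) ∂μ) ^ (1/2 : ℝ)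
        * (∫⁻ t, ‖a + (t : ℂ) * b‖ₑ ^ (-(1/2) : ℝ) ∂μ) ^ (1/2 : ℝ) := by
    have := ENNReal.lintegral_mul_le_Lp_mul_Lq μ Real.HolderConjugate.two_two
      (f := fun t => ‖D t‖ₑ ^ (-(1/4) : ℝ)) (g := fun t => ‖a + (t : ℂ) * b‖ₑ ^ (-(1/4) : ℝ))
      (hmD.pow_const _).aemeasurable (hmB.pow_const _).aemeasurable
    simp only [Pi.mul_apply, ← ENNReal.rpow_mul] at this
    norm_num at this ⊢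
    exact this
  have hD1 : ∫⁻ t, ‖D t‖ₑ ^ (-(1/2) : ℝ) ∂μ
      ≤ C1 M K * (max ‖(1 : ℂ)‖ₑ ‖(lam : ℂ) * τ‖ₑ) ^ (-(1/2) : ℝ) :=
    lintegral_affine hμ 1 ((lam : ℂ) * τ)
  have hB1 : ∫⁻ t, ‖a + (t : ℂ) * b‖ₑ ^ (-(1/2) : ℝ) ∂μ
      ≤ C1 M K * (max ‖a‖ₑ ‖b‖ₑ) ^ (-(1/2) : ℝ) := lintegral_affine hμ a b
  set X1 := max ‖(1 : ℂ)‖ₑ ‖(lam : ℂ) * τ‖ₑ with hX1
  set X2 := max ‖a‖ₑ ‖b‖ₑ with hX2
  have hX1' : X1 ≠ 0 := by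
    have : (0 : ℝ≥0∞) < ‖(1 : ℂ)‖ₑ := by simp
    exact (lt_of_lt_of_le this (le_max_left _ _)).ne'
  have hX1'' : X1 ≠ ⊤ := max_ne_top enorm_ne_top enorm_ne_top
  calc ∫⁻ t, ((‖Gxu t‖ₑ * ‖Guy t‖ₑ) / ‖Gxy t‖ₑ) ^ (1/4 : ℝ) ∂μ
      = ∫⁻ t, (‖p‖ₑ * ‖q‖ₑ) ^ (1/4 : ℝ)
        * (‖D t‖ₑ ^ (-(1/4) : ℝ) * ‖a + (t : ℂ) * b‖ₑ ^ (-(1/4) : ℝ)) ∂μ :=
        lintegral_congr_ae hstep
    _ = (‖p‖ₑ * ‖q‖ₑ) ^ (1/4 : ℝ)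
        * ∫⁻ t, ‖D t‖ₑ ^ (-(1/4) : ℝ) * ‖a + (t : ℂ) * b‖ₑ ^ (-(1/4) : ℝ) ∂μ := by
        rw [lintegral_const_mul]
        exact (hmD.pow_const _).mul (hmB.pow_const _)
    _ ≤ (‖p‖ₑ * ‖q‖ₑ) ^ (1/4 : ℝ)
        * ((C1 M K * X1 ^ (-(1/2) : ℝ)) ^ (1/2 : ℝ) * (C1 M K * X2 ^ (-(1/2) : ℝ)) ^ (1/2 : ℝ)) := by
        gcongr
        refine hcs.trans ?_
        gcongr
    _ = C1 M K * ((‖p‖ₑ * ‖q‖ₑ) ^ (1/4 : ℝ) * (X1 * X2) ^ (-(1/4) : ℝ)) := by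
        rw [ENNReal.mul_rpow_of_nonneg _ _ (by norm_num : (0 : ℝ) ≤ 1/2),
          ENNReal.mul_rpow_of_nonneg _ _ (by norm_num : (0 : ℝ) ≤ 1/2),
          ← ENNReal.rpow_mul, ← ENNReal.rpow_mul]
        have h5 : (C1 M K) ^ (1/2 : ℝ) * (C1 M K) ^ (1/2 : ℝ) = C1 M K := by
          rw [← ENNReal.rpow_add_of_nonneg _ _ (by norm_num) (by norm_num)]
          norm_num
        have h6 : (X1 * X2) ^ (-(1/4) : ℝ) = X1 ^ (-(1/4) : ℝ) * X2 ^ (-(1/4) : ℝ) := by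
          rw [ENNReal.rpow_neg, ENNReal.rpow_neg, ENNReal.rpow_neg,
            ENNReal.mul_rpow_of_nonneg _ _ (by norm_num : (0 : ℝ) ≤ 1/4),
            ENNReal.mul_inv (Or.inl ?_) (Or.inl ?_)]
          · exact (ENNReal.rpow_pos (pos_iff_ne_zero.2 hX1') hX1'').ne'
          · exact ENNReal.rpow_ne_top_of_nonneg (by norm_num) hX1''
        have h7 : (-(1/2) * (1/2) : ℝ) = -(1/4) := by norm_num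
        rw [h6, h7]
        calc _ = ((C1 M K) ^ (1/2 : ℝ) * (C1 M K) ^ (1/2 : ℝ))
              * ((‖p‖ₑ * ‖q‖ₑ) ^ (1/4 : ℝ) * (X1 ^ (-(1/4) : ℝ) * X2 ^ (-(1/4) : ℝ))) := by ring
          _ = _ := by rw [h5]
    _ = C1 M K * ((‖p‖ₑ * ‖q‖ₑ) / (X1 * X2)) ^ (1/4 : ℝ) := by
        rw [ENNReal.div_rpow_of_nonneg _ _ (by norm_num), ENNReal.rpow_neg]
        rfl
    _ ≤ C1 M K * (ENNReal.ofReal (2 / lam)) ^ (1/4 : ℝ) := by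
        gcongr
        exact quasi_alg hlam p q a τ
    _ = C2 M lam K := rfl

end Pool.Agent.Helper3.Crit
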