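import Pool.Agent.Helper3.Crit.Defs
import Pool.Agent.Helper3.Anderson.LogInt

/-! Definitions shared by the last modules of the localisation criterion. -/

open scoped ENNReal NNReal InnerProductSpace
open MeasureTheory Set Filter Topology

noncomputable section

namespace Pool.Agent.Helper3.Crit

open Pool.Agent.Helper3.Anderson

variable {d : ℕ}

/-- the scales -/
def Lsc (q L0 : ℕ) : ℕ → ℕ
  | 0 => L0
  | k + 1 => 2 ^ (k + 1 + q) * Lsc q L0 k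

/-- the core scales -/
def lsc (q l0 L0 : ℕ) : ℕ → ℕ
  | 0 => l0
  | k + 1 => Lsc q L0 k

/-- the outcome of the multiscale analysis at `z` -/
def MSA (d : ℕ) (μ : Measure ℝ) [IsProbabilityMeasure μ] (M lam : ℝ) (z : ℂ) (q l0 L0 : ℕ)
    (m a : ℝ) : Prop :=
  ∀ k : ℕ, (PP d μ).real {ω | ¬ GoodBox (potc M lam ω) z 0 (lsc q l0 L0 k) (Lsc q L0 k)
      (Real.exp (-(m * Lsc q L0 k)))} ≤ a * (1 / 2) ^ ((4 * d + 1) * k)

/-- exponential decay -/
def ExpDecay (φ : Site d → ℂ) : Prop :=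
  ∃ C c : ℝ, 0 < c ∧ ∀ y, ‖φ y‖ ≤ C * Real.exp (-(c * ‖y‖))

/-- the Simon-Wolff alternative at the site `x` and the energy `E` -/
def SW (V : Site d → ℝ) (hV : Bdd V) (x : Site d) (E : ℝ) : Prop :=
  ∃ (φ : L2 d) (c : ℂ), ExpDecay (φ : Site d → ℂ) ∧ schr V hV φ - (E : ℂ) • φ = c • dl x ∧
    (c = 0 → φ x ≠ 0 ∧ ∀ η : L2 d, schr V hV η = (E : ℂ) • η → η x = 0 → ⟪η, φ⟫_ℂ = 0)

end Pool.Agent.Helper3.Crit
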