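import Pool.Agent.Helper3.Crit.Shape

/-! If the energies along an axis do not grow linearly, then almost surely the limiting Green function
does not decay exponentially. -/

open MeasureTheory Set Filter Topology
open scoped ENNReal NNReal

noncomputable section

namespace Pool.Agent.Helper3.Crit

open Pool.Agent.Helper3.Anderson

variable {d : ℕ} {μ : Measure ℝ} [IsProbabilityMeasure μ] {M lam : ℝ} {K : ℝ≥0}

namespace Zero

/-- the bound `D' = 8 * C2` on the expected positive part of the logarithm -/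
lemma integrable_rpow {z : ℂ} {B : ℝ} {g : Site d → Site d → (Site d → ℝ) → ℂ}
    (hp : Proc μ M lam K z B g) (x y : Site d) :
    Integrable (fun ω => ‖g x y ω‖ ^ (1/4 : ℝ)) (PP d μ) ∧
      ∫ ω, ‖g x y ω‖ ^ (1/4 : ℝ) ∂(PP d μ) ≤ 2 * (C2 M lam K).toReal := by
  have hl : ∫⁻ ω, ENNReal.ofReal (‖g x y ω‖ ^ (1/4 : ℝ)) ∂(PP d μ) ≤ 2 * C2 M lam K := by
    refine le_trans (lintegral_mono fun ω => ?_) (hp.pos x y)
    rw [← ENNReal.ofReal_rpow_of_nonneg (norm_nonneg _) (by norm_num), ofReal_norm]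
  have hfin : (2 : ℝ≥0∞) * C2 M lam K ≠ ⊤ := ENNReal.mul_ne_top (by norm_num) (C2_ne_top M K)
  constructor
  · refine ⟨((hp.meas x y).norm.pow_const _).aestronglyMeasurable, ?_⟩
    rw [hasFiniteIntegral_iff_ofReal
      (Eventually.of_forall fun ω => Real.rpow_nonneg (norm_nonneg _) _)]
    exact lt_of_le_of_lt hl hfin.lt_top
  · rw [integral_eq_lintegral_of_nonneg_ae
      (Eventually.of_forall fun ω => Real.rpow_nonneg (norm_nonneg _) _)
      ((hp.meas x y).norm.pow_const _).aestronglyMeasurable]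
    have := ENNReal.toReal_mono hfin hl
    rwa [ENNReal.toReal_mul, ENNReal.toReal_ofNat] at this

lemma posLog_le (t : ℝ) (ht : 0 ≤ t) : max (Real.log t) 0 ≤ 4 * t ^ (1/4 : ℝ) := by
  refine max_le ?_ (by positivity)
  have := Real.log_le_rpow_div ht (show (0 : ℝ) < 1/4 by norm_num)
  linarith

end Zero

theorem not_decay {z : ℂ} {B : ℝ} {g : Site d → Site d → (Site d → ℝ) → ℂ}
    (hp : Proc μ M lam K z B g) (hB0 : 0 ≤ B) (j : Fin d)
    (h0 : ¬ ∃ m Cd : ℝ, 0 < m ∧ ∀ n : ℕ,
      m * n - Cd ≤ Proc.en μ g (n • (Pi.single j 1 : Site d))) :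
    ∀ᵐ ω ∂(PP d μ), ∀ x, ¬ ∃ C c : ℝ, 0 < c ∧ ∀ y, ‖g y x ω‖ ≤ C * Real.exp (-(c * sn y)) := by
  set v : Site d := Pi.single j 1 with hv
  set c2 : ℝ := (C2 M lam K).toReal with hc2
  have hc20 : 0 ≤ c2 := ENNReal.toReal_nonneg
  -- lower bound for the energies
  have hlow : ∀ w : Site d, -(8 * c2) ≤ Proc.en μ g w := by
    intro w
    have h1 := Zero.integrable_rpow hp w 0
    have h2 := hp.integrable_log hB0 w 0
    have : ∫ ω, Real.log ‖g w 0 ω‖ ∂(PP d μ) ≤ ∫ ω, 4 * ‖g w 0 ω‖ ^ (1/4 : ℝ) ∂(PP d μ) :=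
      integral_mono h2 (h1.1.const_mul 4) fun ω =>
        (le_max_left _ _).trans (Zero.posLog_le _ (norm_nonneg _))
    rw [integral_const_mul] at this
    unfold Proc.en
    rw [integral_neg]
    linarith [h1.2]
  -- subadditivity
  set u : ℕ → ℝ := fun n => Proc.en μ g (n • v) + 4 * c2 with hu
  have hsub : Subadditive u := by
    intro m n
    simp only [hu]
    have := hp.en_add_le hB0 (m • v) (n • v)
    rw [← add_smul] at this
    linarith
  have hbdd : BddBelow (range fun n : ℕ => u n / n) := by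
    refine ⟨-(4 * c2), ?_⟩
    rintro _ ⟨n, rfl⟩
    rcases Nat.eq_zero_or_pos n with rfl | hn
    · simp; linarith
    · have hn' : (1 : ℝ) ≤ n := by exact_mod_cast hn
      simp only
      rw [le_div_iff₀ (by linarith)]
      have h1 := hlow (n • v)
      simp only [hu]
      nlinarith
  have hlim := hsub.tendsto_lim hbdd
  have hle0 : hsub.lim ≤ 0 := by
    by_contra hcon
    push Not at hcon
    refine h0 ⟨hsub.lim, 12 * c2, hcon, fun n => ?_⟩
    rcases Nat.eq_zero_or_pos n with rfl | hn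
    · have := hlow ((0 : ℕ) • v)
      simp only [Nat.cast_zero, mul_zero, zero_sub]
      linarith
    · have h1 := hsub.lim_le_div hbdd hn.ne'
      have hn' : (0 : ℝ) < n := by exact_mod_cast hn
      rw [le_div_iff₀ hn'] at h1
      simp only [hu] at h1
      linarith
  have hge0 : 0 ≤ hsub.lim := by
    have hl' : Tendsto (fun n : ℕ => u n / n + 4 * c2 / n) atTop (𝓝 hsub.lim) := by
      have := hlim.add (tendsto_const_div_atTop_nhds_zero_nat (4 * c2))
      rwa [add_zero] at this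
    refine ge_of_tendsto' hl' fun n => ?_
    · rw [← add_div]
      refine div_nonneg ?_ (Nat.cast_nonneg _)
      have := hlow (n • v)
      simp only [hu]
      linarith
  have hlim0 : hsub.lim = 0 := le_antisymm hle0 hge0
  rw [hlim0] at hlim
  -- pointwise
  rw [ae_all_iff]
  intro x
  set Y : ℕ → (Site d → ℝ) → ℝ := fun n ω => -Real.log ‖g (n • v + x) x ω‖ with hY
  have hYi : ∀ n, Integrable (Y n) (PP d μ) := fun n => (hp.integrable_log hB0 _ _).neg
  have hYp : ∀ n, ∫ ω, max (Y n ω) 0 ∂(PP d μ) ≤ u n + 4 * c2 := by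
    intro n
    have h1 := Zero.integrable_rpow hp (n • v + x) x
    have h2 := hp.integral_shift (n • v) x
    have hle : ∀ ω, max (Y n ω) 0 ≤ Y n ω + 4 * ‖g (n • v + x) x ω‖ ^ (1/4 : ℝ) := by
      intro ω
      have h3 := Zero.posLog_le ‖g (n • v + x) x ω‖ (norm_nonneg _)
      have h4 := le_max_left (Real.log ‖g (n • v + x) x ω‖) 0
      have h5 := le_max_right (Real.log ‖g (n • v + x) x ω‖) 0
      refine max_le ?_ ?_
      · linarith
      · simp only [hY]; linarith
    have hi : Integrable (fun ω => Y n ω + 4 * ‖g (n • v + x) x ω‖ ^ (1/4 : ℝ)) (PP d μ) :=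
      (hYi n).add (h1.1.const_mul 4)
    calc ∫ ω, max (Y n ω) 0 ∂(PP d μ)
        ≤ ∫ ω, (Y n ω + 4 * ‖g (n • v + x) x ω‖ ^ (1/4 : ℝ)) ∂(PP d μ) :=
          integral_mono (hYi n).pos_part hi hle
      _ = Proc.en μ g (n • v) + 4 * ∫ ω, ‖g (n • v + x) x ω‖ ^ (1/4 : ℝ) ∂(PP d μ) := by
          rw [integral_add (hYi n) (h1.1.const_mul 4), integral_const_mul, ← h2]
      _ ≤ u n + 4 * c2 := by
          simp only [hu]
          linarith [h1.2]
  -- Fatou
  have hF : ∫⁻ ω, liminf (fun n : ℕ => ENNReal.ofReal (max (Y n ω) 0 / n)) atTop ∂(PP d μ) = 0 := by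
    refine le_antisymm ?_ zero_le
    have hm : ∀ n : ℕ, Measurable fun ω => ENNReal.ofReal (max (Y n ω) 0 / n) := fun n =>
      ((((hp.meas _ _).norm.log.neg).max measurable_const).div_const _).ennreal_ofReal
    refine (lintegral_liminf_le hm).trans ?_
    have h1 : ∀ n : ℕ, ∫⁻ ω, ENNReal.ofReal (max (Y n ω) 0 / n) ∂(PP d μ)
        ≤ ENNReal.ofReal (u n / n + 4 * c2 / n) := by
      intro n
      rw [← ofReal_integral_eq_lintegral_ofReal ((hYi n).pos_part.div_const _)
        (Eventually.of_forall fun ω => div_nonneg (le_max_right _ _) (Nat.cast_nonneg _))]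
      refine ENNReal.ofReal_le_ofReal ?_
      rw [integral_div, ← add_div]
      exact div_le_div_of_nonneg_right (hYp n) (Nat.cast_nonneg _)
    refine (Filter.liminf_le_liminf (Eventually.of_forall h1)).trans ?_
    have h2 : Tendsto (fun n : ℕ => ENNReal.ofReal (u n / n + 4 * c2 / n)) atTop (𝓝 0) := by
      have := hlim.add (tendsto_const_div_atTop_nhds_zero_nat (4 * c2))
      rw [add_zero] at this
      have h3 := (ENNReal.continuous_ofReal.tendsto 0).comp this
      rwa [ENNReal.ofReal_zero] at h3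
    rw [h2.liminf_eq]
  have hm2 : Measurable fun ω => liminf (fun n : ℕ => ENNReal.ofReal (max (Y n ω) 0 / n)) atTop :=
    Measurable.liminf fun n =>
      ((((hp.meas _ _).norm.log.neg).max measurable_const).div_const _).ennreal_ofReal
  have hF' := (lintegral_eq_zero_iff hm2).1 hF
  have hne : ∀ᵐ ω ∂(PP d μ), ∀ n : ℕ, g (n • v + x) x ω ≠ 0 :=
    ae_all_iff.2 fun n => hp.ae_ne_zero hB0 _ _
  filter_upwards [hF', hne] with ω hω hn
  rintro ⟨C, c, hc, hdec⟩
  simp only [Pi.zero_apply] at hω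
  set C' : ℝ := max C 1 with hC'
  have hC'1 : 1 ≤ C' := le_max_right _ _
  have hsn : ∀ n : ℕ, (n : ℝ) - sn x ≤ sn (n • v + x) := by
    intro n
    have h1 := sn_sub_le (n • v + x) x
    rw [add_sub_cancel_right, sn_nsmul, hv, sn_single, mul_one] at h1
    have h2 : ((n : ℕ) : ℝ) ≤ (sn (n • v + x) : ℝ) + sn x := by exact_mod_cast h1
    linarith
  have hYlow : ∀ n : ℕ, c * n - (c * sn x + Real.log C') ≤ Y n ω := by
    intro n
    have h1 := hdec (n • v + x)
    have h2 : ‖g (n • v + x) x ω‖ ≤ C' * Real.exp (-(c * sn (n • v + x))) :=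
      h1.trans (mul_le_mul_of_nonneg_right (le_max_left _ _) (Real.exp_pos _).le)
    have h3 := Real.log_le_log (norm_pos_iff.2 (hn n)) h2
    rw [Real.log_mul (by positivity) (Real.exp_pos _).ne', Real.log_exp] at h3
    have h4 := mul_le_mul_of_nonneg_left (hsn n) hc.le
    simp only [hY]
    linarith
  have hev : ∀ᶠ n : ℕ in atTop, ENNReal.ofReal (c / 2) ≤ ENNReal.ofReal (max (Y n ω) 0 / n) := by
    have h1 : Tendsto (fun n : ℕ => c - (c * sn x + Real.log C') / n) atTop (𝓝 (c - 0)) :=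
      (tendsto_const_div_atTop_nhds_zero_nat _).const_sub c
    rw [sub_zero] at h1
    filter_upwards [(tendsto_order.1 h1).1 (c / 2) (by linarith), eventually_gt_atTop 0] with n h2 h3
    have hn' : (0 : ℝ) < n := by exact_mod_cast h3
    refine ENNReal.ofReal_le_ofReal ?_
    refine h2.le.trans ?_
    have e : c - (c * sn x + Real.log C') / n = (c * n - (c * sn x + Real.log C')) / n := by
      field_simp
    rw [e]
    exact div_le_div_of_nonneg_right ((hYlow n).trans (le_max_left _ _)) hn'.le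
  have hge : ENNReal.ofReal (c / 2) ≤ liminf (fun n : ℕ => ENNReal.ofReal (max (Y n ω) 0 / n)) atTop :=
    le_liminf_of_le (by isBoundedDefault) hev
  rw [hω] at hge
  have : (0 : ℝ≥0∞) < ENNReal.ofReal (c / 2) := ENNReal.ofReal_pos.2 (by linarith)
  exact absurd hge (not_le.2 this)

end Pool.Agent.Helper3.Crit
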